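import Pool.Statements.S00249
import Pool.Agent.H737R3.Points
-- import your own Pool.Agent.* helpers here

set_option autoImplicit false
open Pool Pool.MP_70675a_ag

namespace Pool.Agent.S00249

/-- Over an algebraically closed field of char 0, for n≥1, any nonempty finite set W of points in P^n and r≥1, every nonzero degree-d form vanishing to order rn at all points of W has d ≥ r·α(W) + r(n−1). -/
theorem result :
    ∀ (k : Type) [Field k] [IsAlgClosed k] [CharZero k] (n : ℕ), 1 ≤ n →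
    ∀ (W : Finset (Projectivization k (Fin (n+1) → k))), W.Nonempty →
    ∀ (r : ℕ), 1 ≤ r →
    ∀ (d : ℕ) (f : MvPolynomial (Fin (n+1)) k), f ≠ 0 → f.IsHomogeneous d →
      (∀ P ∈ W, f ∈ (Ideal.span {g : MvPolynomial (Fin (n+1)) k |
          g.IsHomogeneous 1 ∧ MvPolynomial.eval P.rep g = 0}) ^ (r * n)) →
      ∃ (e : ℕ) (g : MvPolynomial (Fin (n+1)) k), g ≠ 0 ∧ g.IsHomogeneous e ∧
        (∀ P ∈ W, g ∈ Ideal.span {h : MvPolynomial (Fin (n+1)) k |
          h.IsHomogeneous 1 ∧ MvPolynomial.eval P.rep h = 0}) ∧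
        r * e + r * (n - 1) ≤ d := by
  intro k _ _ _ n hn W hW r hr d f hf0 hfd hfW
  have hpt : ∀ P : Projectivization k (Fin (n+1) → k),
      Ideal.span {g : MvPolynomial (Fin (n+1)) k |
          g.IsHomogeneous 1 ∧ MvPolynomial.eval P.rep g = 0} = Pool.Agent.H737R3.ptIdeal P := by
    intro P
    rw [Pool.Agent.H737R3.ptIdeal_eq]
    rfl
  simp only [hpt] at hfW ⊢
  have hf : f ∈ Pool.Agent.H737R3.wIdeal W (fun p => (r * n) * (fun _ => 1) p) := by
    rw [Pool.Agent.H737R3.mem_wIdeal]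
    intro P hP
    simpa using hfW P hP
  obtain ⟨q, hq⟩ := hW
  have h1 := Pool.Agent.H737R3.demailly_w hn W (fun _ => 1) ⟨q, hq, le_rfl⟩ 1 (r * n) le_rfl
  have h2 := Pool.Agent.H737R3.alpha_wIdeal_le hf hf0
  rw [hfd.totalDegree hf0] at h2
  obtain ⟨g, hg, hg0, hgd⟩ := Pool.Agent.H737R3.alpha_wIdeal_spec hn W (fun p => 1 * (fun _ => 1) p)
  refine ⟨_, g, hg0, hgd, ?_, ?_⟩
  · intro P hP
    rw [Pool.Agent.H737R3.mem_wIdeal] at hg
    simpa using hg P hP
  · generalize Pool.Agent.H737R3.alpha (Pool.Agent.H737R3.wIdeal W (fun p => 1 * (fun _ => 1) p)) = a at *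
    generalize Pool.Agent.H737R3.alpha (Pool.Agent.H737R3.wIdeal W (fun p => (r * n) * (fun _ => 1) p)) = b at *
    obtain ⟨n', rfl⟩ : ∃ n', n = n' + 1 := ⟨n - 1, by omega⟩
    have h3 : r * (n' + 1) * (a + n') ≤ b * (n' + 1) := by
      have e1 : a + (n' + 1) - 1 = a + n' := by omega
      have e2 : 1 + (n' + 1) - 1 = n' + 1 := by omega
      rw [e1, e2] at h1
      exact h1
    have h4 : (n' + 1) * (r * (a + n')) ≤ (n' + 1) * b := by
      calc (n' + 1) * (r * (a + n')) = r * (n' + 1) * (a + n') := by ring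
        _ ≤ b * (n' + 1) := h3
        _ = (n' + 1) * b := by ring
    have h5 : r * (a + n') ≤ b := Nat.le_of_mul_le_mul_left h4 (Nat.succ_pos n')
    have h6 : r * a + r * (n' + 1 - 1) = r * (a + n') := by
      rw [Nat.add_sub_cancel]; ring
    rw [h6]
    exact h5.trans h2

end Pool.Agent.S00249
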