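import Pool.Statements.S00360
import Pool.Agent.X276.GradeC
import Pool.Agent.H633R3.PS.Loc
import Pool.Agent.H291R3.PSB.Base
import Pool.Agent.H841.PSRes

set_option autoImplicit false
open Pool Pool.MP_a907e8_ag

namespace Pool.Agent.S00360

/-- The negation of the preceding statement: For every Noetherian local ring A and nonzero finitely generated A-module M with a finite projective resolution, the maximal length of an A-regular sequence in ann M plus the Krull dimension of A/ann M equals the Krull dimension of A. -/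
theorem result :
    ¬ (∀ (A : Type) [CommRing A] [IsLocalRing A] [IsNoetherianRing A]
      (M : Type) [AddCommGroup M] [Module A M] [Module.Finite A M] [Nontrivial M],
      (∃ P : CategoryTheory.ProjectiveResolution (ModuleCat.of A M), ∃ n : ℕ,
          ∀ i : ℕ, n ≤ i → CategoryTheory.Limits.IsZero (P.complex.X i)) →
      ∀ g : ℕ,
        (∃ rs : List A, rs.length = g ∧ (∀ r ∈ rs, r ∈ Module.annihilator A M) ∧
            RingTheory.Sequence.IsWeaklyRegular A rs) →
        (¬ ∃ rs : List A, rs.length = g + 1 ∧ (∀ r ∈ rs, r ∈ Module.annihilator A M) ∧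
            RingTheory.Sequence.IsWeaklyRegular A rs) →
        (g : WithBot ℕ∞) + ringKrullDim (A ⧸ Module.annihilator A M) = ringKrullDim A) := by
  intro h
  obtain ⟨T, iT, iL, iN, iD, α, β, γ, hB⟩ := Pool.Agent.H291R3.PSB.taskBase
  obtain ⟨hα, hβ, hγ⟩ := H51R3.PS.mem_max hB
  have hloc : IsLocalRing (Pool.Agent.H607R3.PS.RR T α β γ) :=
    Pool.Agent.H607R3.PS.taskLoc T α β γ hα hβ hγ
  have hlocP : IsLocalRing (Pool.Agent.H607R3.PS.RP T α β γ) :=
    Pool.Agent.H607R3.PS.local_RP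
  have hN : IsNoetherianRing (Pool.Agent.H607R3.PS.RP T α β γ) :=
    Pool.Agent.H607R3.PS.noeth_RP
  have hnt : Nontrivial (Pool.Agent.H607R3.PS.RP T α β γ ⧸
      Pool.Agent.H607R3.PS.cP T α β γ) :=
    Ideal.Quotient.nontrivial_iff.mpr (Pool.Agent.H607R3.PS.cP_ne_top hα hβ hγ)
  have hfin : Pool.Agent.H607R3.PS.FinRes (Pool.Agent.H607R3.PS.RP T α β γ)
      (Pool.Agent.H607R3.PS.RP T α β γ ⧸ Pool.Agent.H607R3.PS.cP T α β γ) :=
    Pool.Agent.H607R3.PS.finRes_RP Pool.Agent.H607R3.PS.taskRes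
      Pool.Agent.H607R3.PS.taskRegP hγ hB.reg
  have hR := Pool.Agent.H607R3.PS.taskRegP T α β γ hB.reg
  have h1 := h (Pool.Agent.H607R3.PS.RP T α β γ)
    (Pool.Agent.H607R3.PS.RP T α β γ ⧸ Pool.Agent.H607R3.PS.cP T α β γ) hfin 2
    ⟨[_, _], rfl, ?_, Pool.Agent.H607R3.PS.weaklyRegular_pair hR⟩ ?_
  · rw [Ideal.annihilator_quotient] at h1
    have h2 := Pool.Agent.X276.GC.dim_RP hB
    have h3 := Pool.Agent.X276.GC.dim_Q hB
    rw [← h1] at h2
    have h4 : (4 : WithBot ℕ∞) ≤ 3 := by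
      calc (4 : WithBot ℕ∞) ≤ _ := h2
        _ ≤ ((2 : ℕ) : WithBot ℕ∞) + 1 := add_le_add le_rfl h3
        _ = 3 := by norm_num
    exact absurd (by exact_mod_cast h4 : (4 : ℕ) ≤ 3) (by decide)
  · intro r hr
    rw [Ideal.annihilator_quotient]
    simp only [List.mem_cons, List.not_mem_nil, or_false] at hr
    rcases hr with rfl | rfl
    · exact Pool.Agent.H607R3.PS.mem_F
    · exact Pool.Agent.H607R3.PS.mem_G
  · rw [Ideal.annihilator_quotient]
    exact Pool.Agent.X276.GC.taskGradeP hB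

end Pool.Agent.S00360
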