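import Pool.Statements.S00526
import Pool.Agent.X272.VC.Clos
import Pool.Agent.X272.VC.Dim
import Pool.Agent.X272.VC.Len
-- import your own Pool.Agent.* helpers here

set_option autoImplicit false
open Pool Pool.MP_e9da60_ag

namespace Pool.Agent.S00526

/-- The negation of the preceding statement: For an analytically unramified Noetherian local ring of dimension d>0 and an m-primary ideal I, if length(R/closure(I^(n+1))) equals sum of (-1)^i e_i C(n+d-i,d-i) for large n, then e_1 is nonnegative. -/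
theorem result :
    ¬ (∀ (R : Type) [CommRing R] [IsNoetherianRing R] [IsLocalRing R],
      IsReduced (AdicCompletion (IsLocalRing.maximalIdeal R) R) →
      ∀ (d : ℕ), ringKrullDim R = (d : WithBot ℕ∞) → 0 < d →
      ∀ (I : Ideal R), I.radical = IsLocalRing.maximalIdeal R →
      ∀ (Ibar : ℕ → Ideal R),
        (∀ (n : ℕ) (x : R), x ∈ Ibar n ↔
          ∃ k : ℕ, 0 < k ∧ ∃ a : ℕ → R, (∀ j, a j ∈ (I ^ n) ^ j) ∧
            x ^ k + ∑ j ∈ Finset.range k, a (k - j) * x ^ j = 0) →
      ∀ (e : ℕ → ℚ),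
        (∀ᶠ n in Filter.atTop, ∃ m : ℕ,
          Module.length R (R ⧸ Ibar (n + 1)) = (m : ℕ∞) ∧
          (m : ℚ) = ∑ i ∈ Finset.range (d + 1),
            (-1 : ℚ) ^ i * e i * (((n + d - i).choose (d - i) : ℕ) : ℚ)) →
        0 ≤ e 1) := by
  intro H
  have hI : (Pool.Agent.X272.VC.F 1).radical =
      IsLocalRing.maximalIdeal Pool.Agent.X272.VC.RR := by
    rw [← Pool.Agent.X272.VC.max_eq]
    exact (IsLocalRing.maximalIdeal.isMaximal _).isPrime.radical
  have key := H Pool.Agent.X272.VC.RR Pool.Agent.X272.VC.adic_reduced 2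
    Pool.Agent.X272.VC.dim_eq (by norm_num) (Pool.Agent.X272.VC.F 1) hI
    Pool.Agent.X272.VC.F Pool.Agent.X272.VC.F_iff
    (fun i => if i = 0 then 1 else -1) (Filter.Eventually.of_forall fun n =>
      ⟨(n + 2).choose 2 + n, Pool.Agent.X272.VC.length_F n, ?_⟩)
  · norm_num at key
  · rw [Finset.sum_range_succ, Finset.sum_range_succ, Finset.sum_range_succ,
      Finset.sum_range_zero]
    have h1 : n + 2 - 0 = n + 2 := rfl
    have h2 : n + 2 - 1 = n + 1 := rfl
    have h3 : n + 2 - 2 = n := rfl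
    have h4 : 2 - 0 = 2 := rfl
    have h5 : 2 - 1 = 1 := rfl
    have h6 : 2 - 2 = 0 := rfl
    rw [h1, h2, h3, h4, h5, h6, Nat.choose_one_right, Nat.choose_zero_right]
    push_cast
    norm_num
    ring

end Pool.Agent.S00526
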