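import Pool.Statements.S00541
import Pool.Agent.H737R3.Points
-- import your own Pool.Agent.* helpers here

set_option autoImplicit false
open Pool Pool.MP_ef83ea_ag

namespace Pool.Agent.S00541

open MvPolynomial in
theorem span_eq_linI {N : ℕ} (p : Fin (N + 1) → ℂ) (hp : p ≠ 0) :
    Ideal.span (Set.range (fun ij : Fin (N + 1) × Fin (N + 1) =>
      (MvPolynomial.X ij.1 * MvPolynomial.C (p ij.2)
        - MvPolynomial.X ij.2 * MvPolynomial.C (p ij.1) :
        MvPolynomial (Fin (N + 1)) ℂ))) = Pool.Agent.H737R3.linI p := by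
  apply le_antisymm
  · rw [Ideal.span_le]
    rintro _ ⟨⟨i, j⟩, rfl⟩
    refine Ideal.subset_span ⟨?_, ?_⟩
    · have h1 : (X i * C (p j) : MvPolynomial (Fin (N + 1)) ℂ).IsHomogeneous (1 + 0) :=
        (isHomogeneous_X ℂ i).mul (isHomogeneous_C _ _)
      have h2 : (X j * C (p i) : MvPolynomial (Fin (N + 1)) ℂ).IsHomogeneous (1 + 0) :=
        (isHomogeneous_X ℂ j).mul (isHomogeneous_C _ _)
      exact h1.sub h2
    · simp only [map_sub, map_mul, eval_X, eval_C]
      ring
  · unfold Pool.Agent.H737R3.linI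
    rw [Ideal.span_le]
    rintro l ⟨hl, hl0⟩
    obtain ⟨j, hj⟩ : ∃ j, p j ≠ 0 := by
      by_contra h
      push Not at h
      exact hp (funext h)
    have hl1 : l ∈ homogeneousSubmodule (Fin (N + 1)) ℂ 1 := hl
    rw [homogeneousSubmodule_one_eq_span_X, Submodule.mem_span_range_iff_exists_fun] at hl1
    obtain ⟨c, rfl⟩ := hl1
    have hc : ∑ i, c i * p i = 0 := by
      simpa [smul_eq_C_mul] using hl0
    have hmain : C (p j) * ∑ i, c i • (X i : MvPolynomial (Fin (N + 1)) ℂ) =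
        ∑ i, C (c i) * (X i * C (p j) - X j * C (p i)) := by
      have h1 : ∑ i, C (c i) * (X i * C (p j) - X j * C (p i)) =
          C (p j) * ∑ i, c i • (X i : MvPolynomial (Fin (N + 1)) ℂ) -
            X j * C (∑ i, c i * p i) := by
        rw [map_sum, Finset.mul_sum, Finset.mul_sum, ← Finset.sum_sub_distrib]
        refine Finset.sum_congr rfl fun i _ => ?_
        rw [smul_eq_C_mul, map_mul]
        ring
      rw [h1, hc, map_zero, mul_zero, sub_zero]
    have hmem : C (p j) * ∑ i, c i • (X i : MvPolynomial (Fin (N + 1)) ℂ) ∈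
        Ideal.span (Set.range (fun ij : Fin (N + 1) × Fin (N + 1) =>
          (MvPolynomial.X ij.1 * MvPolynomial.C (p ij.2)
            - MvPolynomial.X ij.2 * MvPolynomial.C (p ij.1) :
            MvPolynomial (Fin (N + 1)) ℂ))) := by
      rw [hmain]
      refine Ideal.sum_mem _ fun i _ => Ideal.mul_mem_left _ _ (Ideal.subset_span ⟨(i, j), rfl⟩)
    have hinv : ∑ i, c i • (X i : MvPolynomial (Fin (N + 1)) ℂ) =
        C (p j)⁻¹ * (C (p j) * ∑ i, c i • (X i : MvPolynomial (Fin (N + 1)) ℂ)) := by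
      rw [← mul_assoc, ← map_mul, inv_mul_cancel₀ hj, map_one, one_mul]
    show ∑ i, c i • (X i : MvPolynomial (Fin (N + 1)) ℂ) ∈ _
    rw [hinv]
    exact Ideal.mul_mem_left _ _ hmem

open MvPolynomial in
theorem linI_smul {N : ℕ} (p : Fin (N + 1) → ℂ) (a : ℂˣ) :
    Pool.Agent.H737R3.linI (a • p) = Pool.Agent.H737R3.linI p := by
  unfold Pool.Agent.H737R3.linI
  congr 1
  ext l
  simp only [Set.mem_ofPred_eq]
  constructor
  · rintro ⟨hl, h⟩
    refine ⟨hl, ?_⟩
    have hl1 : l ∈ homogeneousSubmodule (Fin (N + 1)) ℂ 1 := hl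
    rw [homogeneousSubmodule_one_eq_span_X, Submodule.mem_span_range_iff_exists_fun] at hl1
    obtain ⟨c, rfl⟩ := hl1
    simp only [map_sum, smul_eq_C_mul, map_mul, eval_C, eval_X, Pi.smul_apply] at h ⊢
    have h2 : (a : ℂ) * ∑ i, c i * p i = 0 := by
      rw [← h, Finset.mul_sum]
      refine Finset.sum_congr rfl fun i _ => ?_
      rw [Units.smul_def, smul_eq_mul]
      ring
    exact (mul_eq_zero.1 h2).resolve_left a.ne_zero
  · rintro ⟨hl, h⟩
    refine ⟨hl, ?_⟩
    have hl1 : l ∈ homogeneousSubmodule (Fin (N + 1)) ℂ 1 := hl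
    rw [homogeneousSubmodule_one_eq_span_X, Submodule.mem_span_range_iff_exists_fun] at hl1
    obtain ⟨c, rfl⟩ := hl1
    simp only [map_sum, smul_eq_C_mul, map_mul, eval_C, eval_X, Pi.smul_apply] at h ⊢
    have h2 : ∑ i, c i * (a • p i) = (a : ℂ) * ∑ i, c i * p i := by
      rw [Finset.mul_sum]
      refine Finset.sum_congr rfl fun i _ => ?_
      rw [Units.smul_def, smul_eq_mul]
      ring
    rw [h2, h, mul_zero]

/-- the point of projective space given by a vector -/
noncomputable def toPt {N : ℕ} (v : Fin (N + 1) → ℂ) (u : Pool.Agent.H737R3.PP ℂ N) :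
    Pool.Agent.H737R3.PP ℂ N :=
  open Classical in if h : v ≠ 0 then Projectivization.mk ℂ v h else u

theorem toPt_ideal {N : ℕ} (v : Fin (N + 1) → ℂ) (u : Pool.Agent.H737R3.PP ℂ N) (hv : v ≠ 0) :
    Ideal.span (Set.range (fun ij : Fin (N + 1) × Fin (N + 1) =>
      (MvPolynomial.X ij.1 * MvPolynomial.C (v ij.2)
        - MvPolynomial.X ij.2 * MvPolynomial.C (v ij.1) :
        MvPolynomial (Fin (N + 1)) ℂ))) = Pool.Agent.H737R3.ptIdeal (toPt v u) := by
  rw [span_eq_linI v hv, Pool.Agent.H737R3.ptIdeal_eq]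
  have h1 : toPt v u = Projectivization.mk ℂ v hv := dif_pos hv
  rw [h1]
  obtain ⟨a, ha⟩ := Projectivization.exists_smul_eq_mk_rep ℂ v hv
  rw [← ha, linI_smul]


/-- For any nonempty finite set of points in complex projective N-space (N at least 1) with ideal I, every m ≥ 1 satisfies alpha(I^(m))/m ≥ (alpha(I^(3)) + N - 1)/(N + 2), i.e. the Waldschmidt constant is at least that bound. -/
theorem result :
    ∀ (N : ℕ), 1 ≤ N → ∀ S : Finset (Fin (N + 1) → ℂ), S.Nonempty → (∀ p ∈ S, p ≠ 0) →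
      ∀ m : ℕ, 1 ≤ m →
        (((sInf {d : ℕ | ∃ f ∈ (⨅ p ∈ S,
              (Ideal.span (Set.range (fun ij : Fin (N + 1) × Fin (N + 1) =>
                (MvPolynomial.X ij.1 * MvPolynomial.C (p ij.2)
                  - MvPolynomial.X ij.2 * MvPolynomial.C (p ij.1) :
                  MvPolynomial (Fin (N + 1)) ℂ)))) ^ 3),
              f ≠ 0 ∧ f.totalDegree = d} : ℕ) : ℝ) + (N : ℝ) - 1) / ((N : ℝ) + 2)
          ≤ ((sInf {d : ℕ | ∃ f ∈ (⨅ p ∈ S,
              (Ideal.span (Set.range (fun ij : Fin (N + 1) × Fin (N + 1) =>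
                (MvPolynomial.X ij.1 * MvPolynomial.C (p ij.2)
                  - MvPolynomial.X ij.2 * MvPolynomial.C (p ij.1) :
                  MvPolynomial (Fin (N + 1)) ℂ)))) ^ m),
              f ≠ 0 ∧ f.totalDegree = d} : ℕ) : ℝ) / (m : ℝ) := by
  classical
  intro N hN S hS hS0 m hm
  obtain ⟨v₀, hv₀⟩ := hS
  set u : Pool.Agent.H737R3.PP ℂ N := Projectivization.mk ℂ v₀ (hS0 v₀ hv₀) with hu
  set T : Finset (Pool.Agent.H737R3.PP ℂ N) := S.image (fun v => toPt v u) with hT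
  have key : ∀ m : ℕ, (⨅ p ∈ S,
      (Ideal.span (Set.range (fun ij : Fin (N + 1) × Fin (N + 1) =>
        (MvPolynomial.X ij.1 * MvPolynomial.C (p ij.2)
          - MvPolynomial.X ij.2 * MvPolynomial.C (p ij.1) :
          MvPolynomial (Fin (N + 1)) ℂ)))) ^ m) =
      Pool.Agent.H737R3.wIdeal T (fun p => m * (fun _ => 1) p) := by
    intro m
    ext F
    rw [Pool.Agent.H737R3.mem_wIdeal]
    simp only [Submodule.mem_iInf, mul_one]
    constructor
    · intro h P hP
      obtain ⟨v, hv, rfl⟩ := Finset.mem_image.1 hP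
      rw [← toPt_ideal v u (hS0 v hv)]
      exact h v hv
    · intro h v hv
      rw [toPt_ideal v u (hS0 v hv)]
      exact h _ (Finset.mem_image_of_mem _ hv)
  have hTn : ∃ p ∈ T, 1 ≤ (fun _ : Pool.Agent.H737R3.PP ℂ N => 1) p :=
    ⟨_, Finset.mem_image_of_mem _ hv₀, le_rfl⟩
  have h1 := Pool.Agent.H737R3.real_of_nat hN (by norm_num) hm
    (Pool.Agent.H737R3.demailly_w hN T (fun _ => 1) hTn 3 m (by norm_num))
  rw [key 3, key m]
  have e : ((N : ℝ) + 2) = ((3 : ℕ) : ℝ) + N - 1 := by push_cast; ring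
  rw [e]
  exact h1

end Pool.Agent.S00541
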