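import Pool.Statements.S00566
import Pool.Agent.Results.MP_fa7d23_ag.NefNotB

set_option autoImplicit false
open Pool Pool.MP_fa7d23_ag

namespace Pool.Agent.S00566


open MvPolynomial Pool.Agent.Results.MP_fa7d23_ag.NefNotB

section aux
variable {k : Type} [Field k]

/-- the members of the ideal of a point are sums of terms of positive degree: the coefficients of a
member of the `n`-th power vanish in degrees less than `n` -/
theorem coeff_pow_zero (q : Fin 3 → k) (n : ℕ) (f : MvPolynomial (Fin 3) k)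
    (hf : f ∈ (pointIdeal q) ^ n) (s : Fin 3 →₀ ℕ) (hs : s.degree < n) : f.coeff s = 0 := by
  have hle : pointIdeal q ≤ Ideal.span (Set.range (X : Fin 3 → MvPolynomial (Fin 3) k)) := by
    refine Ideal.span_le.2 ?_
    rintro _ ⟨ij, rfl⟩
    refine Ideal.sub_mem _ (Ideal.mul_mem_left _ _ (Ideal.subset_span ⟨_, rfl⟩))
      (Ideal.mul_mem_left _ _ (Ideal.subset_span ⟨_, rfl⟩))
  have h1 := Ideal.pow_right_mono hle n hf
  rw [MvPolynomial.mem_pow_idealOfVars_iff] at h1
  by_contra hne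
  have := h1 s (by rwa [MvPolynomial.mem_support_iff])
  omega

end aux

/-- The negation of the preceding statement: For any r≥1 distinct points of the plane over an algebraically closed field and any effective nef L on the blow-up failing (B), some multiple mL has h^0(mL) equal to its Riemann–Roch value, i.e. h^1(mL)=0. -/
theorem result :
    ¬ (∀ (k : Type) [Field k] [IsAlgClosed k] (r : ℕ), 1 ≤ r →
  ∀ (p : Fin r → Fin 3 → k),
    (∀ i, p i ≠ 0) →
    (∀ i j, i ≠ j → ∀ c : k, p i ≠ c • p j) →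
  ∀ (d : ℕ) (a : Fin r → ℕ),
    (∃ f : MvPolynomial (Fin 3) k, f ≠ 0 ∧ f.IsHomogeneous d ∧
        ∀ i, f ∈ (Ideal.span (Set.range fun ab : Fin 3 × Fin 3 =>
            MvPolynomial.C (p i ab.1) * MvPolynomial.X ab.2
              - MvPolynomial.C (p i ab.2) * MvPolynomial.X ab.1) :
              Ideal (MvPolynomial (Fin 3) k)) ^ a i) →
    (∀ (e : ℕ) (g : MvPolynomial (Fin 3) k), g.IsHomogeneous e → Irreducible g →
        ∀ μ : Fin r → ℕ,
          (∀ i, g ∈ (Ideal.span (Set.range fun ab : Fin 3 × Fin 3 =>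
            MvPolynomial.C (p i ab.1) * MvPolynomial.X ab.2
              - MvPolynomial.C (p i ab.2) * MvPolynomial.X ab.1) :
              Ideal (MvPolynomial (Fin 3) k)) ^ μ i) →
          ∑ i, a i * μ i ≤ d * e) →
    (¬ ∃ (e : ℕ) (γ : Fin r → ℤ), (e ≠ 0 ∨ γ ≠ 0) ∧
        (∃ f : MvPolynomial (Fin 3) k, f ≠ 0 ∧ f.IsHomogeneous e ∧
          ∀ i, f ∈ (Ideal.span (Set.range fun ab : Fin 3 × Fin 3 =>
            MvPolynomial.C (p i ab.1) * MvPolynomial.X ab.2
              - MvPolynomial.C (p i ab.2) * MvPolynomial.X ab.1) :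
              Ideal (MvPolynomial (Fin 3) k)) ^ (γ i).toNat) ∧
        e ≤ d ∧
        (∃ f : MvPolynomial (Fin 3) k, f ≠ 0 ∧ f.IsHomogeneous (d - e) ∧
          ∀ i, f ∈ (Ideal.span (Set.range fun ab : Fin 3 × Fin 3 =>
            MvPolynomial.C (p i ab.1) * MvPolynomial.X ab.2
              - MvPolynomial.C (p i ab.2) * MvPolynomial.X ab.1) :
              Ideal (MvPolynomial (Fin 3) k)) ^ ((a i : ℤ) - γ i).toNat) ∧
        (e : ℤ) ^ 2 - ∑ i, (γ i) ^ 2 - 3 * (e : ℤ) + ∑ i, γ i > -2 ∧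
        (d : ℤ) * (e : ℤ) - ∑ i, (a i : ℤ) * γ i = 0) →
    ∃ m : ℕ, 1 ≤ m ∧
      2 * (Module.finrank k
        ↥(MvPolynomial.homogeneousSubmodule (Fin 3) k (m * d) ⊓
          ⨅ i, Submodule.restrictScalars k
            ((Ideal.span (Set.range fun ab : Fin 3 × Fin 3 =>
              MvPolynomial.C (p i ab.1) * MvPolynomial.X ab.2
                - MvPolynomial.C (p i ab.2) * MvPolynomial.X ab.1) :
                Ideal (MvPolynomial (Fin 3) k)) ^ (m * a i))) : ℤ)
        = 2 + ((m * d : ℕ) : ℤ) ^ 2 - ∑ i, ((m * a i : ℕ) : ℤ) ^ 2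
            + 3 * ((m * d : ℕ) : ℤ) - ∑ i, ((m * a i : ℕ) : ℤ)) := by
  intro H
  obtain ⟨p, hdist, heff, hnef, hB, hh⟩ := Pool.Agent.Results.MP_fa7d23_ag.NefNotB.result ℂ
  refine absurd (H ℂ 15 (by norm_num) p hdist.1 hdist.2 4 (fun _ => 1) ?_ ?_ ?_) ?_
  · -- effective
    obtain ⟨f, hf, hf0⟩ := (Submodule.ne_bot_iff _).1 heff
    have hf' := hf
    unfold H0 at hf'
    rw [if_pos (by norm_num)] at hf'
    refine ⟨f, hf0, ?_, fun i => ?_⟩
    · have := hf'.1
      simpa using this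
    · exact (Submodule.mem_iInf _).1 hf'.2 i
  · -- nef
    intro e g hg hirr μ hμ
    have hg0 : g ≠ 0 := hirr.ne_zero
    -- exact multiplicities
    have hex : ∀ i, ∃ c : ℕ, μ i ≤ c ∧ g ∈ pointIdeal (p i) ^ c ∧ g ∉ pointIdeal (p i) ^ (c + 1) := by
      intro i
      by_contra hcon
      push Not at hcon
      have hall : ∀ c, μ i ≤ c → g ∈ pointIdeal (p i) ^ c := by
        intro c hc
        induction c, hc using Nat.le_induction with
        | base => exact hμ i
        | succ c hc ih => exact hcon c hc ih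
      apply hg0
      ext s
      rw [coeff_zero]
      exact coeff_pow_zero (p i) _ g (hall (max (μ i) (s.degree + 1)) (le_max_left _ _)) s
        (lt_of_lt_of_le (Nat.lt_succ_self _) (le_max_right _ _))
    choose c hc1 hc2 hc3 using hex
    have h4 := hnef.2 e g c hg hirr (fun i => ⟨hc2 i, hc3 i⟩)
    have h5 : ((∑ i, (c i : ℕ) : ℕ) : ℤ) ≤ 4 * (e : ℤ) := by
      unfold inter at h4
      simp only [one_mul] at h4
      push_cast
      linarith
    have h6 : ∑ i, (fun _ => 1 : Fin 15 → ℕ) i * μ i ≤ ∑ i, c i := by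
      refine Finset.sum_le_sum fun i _ => ?_
      simpa using hc1 i
    have h7 : ∑ i, c i ≤ 4 * e := by exact_mod_cast h5
    exact h6.trans h7
  · -- condition (B)
    rintro ⟨e, γ, hne, ⟨f, hf0, hf1, hf2⟩, hed, ⟨g, hg0, hg1, hg2⟩, hpa, hint⟩
    apply hB
    refine ⟨((e : ℤ), γ), ?_, ?_, ?_, ?_, ?_⟩
    · intro h
      have h1 := congrArg Prod.fst h
      have h2 := congrArg Prod.snd h
      simp only [Prod.fst_zero, Prod.snd_zero] at h1 h2
      rcases hne with h3 | h3
      · exact h3 (by exact_mod_cast h1)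
      · exact h3 h2
    · unfold Effective
      rw [Submodule.ne_bot_iff]
      refine ⟨f, ?_, hf0⟩
      unfold H0
      rw [if_pos (Int.natCast_nonneg _)]
      refine ⟨by simpa using hf1, (Submodule.mem_iInf _).2 fun i => ?_⟩
      exact hf2 i
    · unfold Effective
      rw [Submodule.ne_bot_iff]
      refine ⟨g, ?_, hg0⟩
      have e1 : (((4, fun _ => 1) : Cls 15) - ((e : ℤ), γ)).1 = ((4 - e : ℕ) : ℤ) := by
        simp only [Prod.fst_sub]
        omega
      unfold H0
      rw [if_pos (by rw [e1]; exact Int.natCast_nonneg _), e1, Int.toNat_natCast]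
      refine ⟨hg1, (Submodule.mem_iInf _).2 fun i => ?_⟩
      exact hg2 i
    · unfold pa
      have e1 : inter ((e : ℤ), γ) ((e : ℤ), γ) + inter (canon 15) ((e : ℤ), γ) =
          (e : ℤ) ^ 2 - ∑ i, (γ i) ^ 2 - 3 * (e : ℤ) + ∑ i, γ i := by
        unfold inter canon
        simp only [neg_mul, one_mul, Finset.sum_neg_distrib, sub_neg_eq_add]
        rw [Finset.sum_congr rfl fun i _ => (sq (γ i)).symm]
        ring
      have e2 : (2 : ℤ) ∣ (e : ℤ) ^ 2 - ∑ i, (γ i) ^ 2 - 3 * (e : ℤ) + ∑ i, γ i := by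
        have e3 : (e : ℤ) ^ 2 - ∑ i, (γ i) ^ 2 - 3 * (e : ℤ) + ∑ i, γ i =
            ((e : ℤ) ^ 2 - 3 * e) - ∑ i, ((γ i) ^ 2 - γ i) := by
          rw [Finset.sum_sub_distrib]; ring
        rw [e3]
        refine dvd_sub ?_ (Finset.dvd_sum fun i _ => ?_)
        · rcases Int.even_or_odd (e : ℤ) with ⟨c, hc⟩ | ⟨c, hc⟩
          · exact ⟨c * (2 * c - 3), by rw [hc]; ring⟩
          · exact ⟨(2 * c + 1) * (c - 1), by rw [hc]; ring⟩
        · rcases Int.even_or_odd (γ i) with ⟨c, hc⟩ | ⟨c, hc⟩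
          · exact ⟨c * (2 * c - 1), by rw [hc]; ring⟩
          · exact ⟨(2 * c + 1) * c, by rw [hc]; ring⟩
      rw [e1]
      omega
    · unfold inter
      simpa using hint
  · -- the conclusion contradicts `h¹ > 0`
    rintro ⟨m, hm, hm2⟩
    have hh1 := hh m hm
    have hneg : h0 p (canon 15 - m • ((4, fun _ => 1) : Cls 15)) = 0 := by
      unfold h0 H0
      have hlt : ¬ (0 ≤ (canon 15 - m • ((4, fun _ => 1) : Cls 15)).1) := by
        simp [canon]
        omega
      rw [if_neg hlt, finrank_bot]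
      rfl
    have hchi : 2 * chi (m • ((4, fun _ => 1) : Cls 15)) = 2 + (m : ℤ) ^ 2 - 3 * m := by
      have hin : inter (m • ((4, fun _ => 1) : Cls 15)) (m • ((4, fun _ => 1) : Cls 15) - canon 15)
          = (m : ℤ) ^ 2 - 3 * m := by
        simp [inter, canon]
        ring
      unfold chi
      rw [hin]
      have h2 : (2 : ℤ) ∣ (m : ℤ) ^ 2 - 3 * m := by
        rcases Int.even_or_odd (m : ℤ) with ⟨c, hc⟩ | ⟨c, hc⟩
        · exact ⟨c * (2 * c - 3), by rw [hc]; ring⟩
        · exact ⟨(2 * c + 1) * (c - 1), by rw [hc]; ring⟩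
      obtain ⟨c, hc⟩ := h2
      rw [hc]
      omega
    have hmain : h0 p (m • ((4, fun _ => 1) : Cls 15)) = (Module.finrank ℂ
        ↥(MvPolynomial.homogeneousSubmodule (Fin 3) ℂ (m * 4) ⊓
          ⨅ i : Fin 15, Submodule.restrictScalars ℂ
            ((Ideal.span (Set.range fun ab : Fin 3 × Fin 3 =>
              MvPolynomial.C (p i ab.1) * MvPolynomial.X ab.2
                - MvPolynomial.C (p i ab.2) * MvPolynomial.X ab.1) :
                Ideal (MvPolynomial (Fin 3) ℂ)) ^ (m * (fun _ => 1 : Fin 15 → ℕ) i))) : ℤ) := by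
      unfold h0
      have e : H0 p (m • ((4, fun _ => 1) : Cls 15)) =
          MvPolynomial.homogeneousSubmodule (Fin 3) ℂ (m * 4) ⊓
          ⨅ i : Fin 15, Submodule.restrictScalars ℂ
            ((Ideal.span (Set.range fun ab : Fin 3 × Fin 3 =>
              MvPolynomial.C (p i ab.1) * MvPolynomial.X ab.2
                - MvPolynomial.C (p i ab.2) * MvPolynomial.X ab.1) :
                Ideal (MvPolynomial (Fin 3) ℂ)) ^ (m * (fun _ => 1 : Fin 15 → ℕ) i)) := by
        unfold H0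
        have e1 : (m • ((4, fun _ => 1) : Cls 15)).1 = ((m * 4 : ℕ) : ℤ) := by simp
        rw [if_pos (by rw [e1]; exact Int.natCast_nonneg _), e1, Int.toNat_natCast]
        congr 1
      rw [e]
    rw [← hmain] at hm2
    unfold h1 at hh1
    rw [hneg] at hh1
    have hs1 : ∑ i : Fin 15, ((m * (fun _ => 1 : Fin 15 → ℕ) i : ℕ) : ℤ) ^ 2 = 15 * (m : ℤ) ^ 2 := by
      simp
    have hs2 : ∑ i : Fin 15, ((m * (fun _ => 1 : Fin 15 → ℕ) i : ℕ) : ℤ) = 15 * (m : ℤ) := by
      simp
    rw [hs1, hs2] at hm2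
    push_cast at hm2
    have h3 : 2 * h0 p (m • ((4, fun _ => 1) : Cls 15)) = 2 + (m : ℤ) ^ 2 - 3 * m := by
      rw [hm2]; ring
    linarith

end Pool.Agent.S00566
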