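import Pool.Statements.S00753
import Pool.Agent.X196.Sq.Geo

set_option autoImplicit false
open Pool Pool.MP_104382_al

namespace Pool.Agent.S00753

/-- The open unit square in the plane can be split into finitely many pairwise disjoint pieces forming two groups, and each group can be moved by determinant-one real linear maps so that its images exactly cover the square again. -/
theorem result :
    ∃ (n m : ℕ) (A : Fin n → Set (Fin 2 → ℝ)) (B : Fin m → Set (Fin 2 → ℝ))
      (g : Fin n → Matrix.SpecialLinearGroup (Fin 2) ℝ)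
      (h : Fin m → Matrix.SpecialLinearGroup (Fin 2) ℝ),
      (∀ i, A i ⊆ {v : Fin 2 → ℝ | ∀ k, 0 < v k ∧ v k < 1}) ∧
      (∀ j, B j ⊆ {v : Fin 2 → ℝ | ∀ k, 0 < v k ∧ v k < 1}) ∧
      Pairwise (fun i i' => Disjoint (A i) (A i')) ∧
      Pairwise (fun j j' => Disjoint (B j) (B j')) ∧
      (∀ i j, Disjoint (A i) (B j)) ∧
      (⋃ i, (fun v => Matrix.mulVec ((g i : Matrix (Fin 2) (Fin 2) ℝ)) v) '' A i)
        = {v : Fin 2 → ℝ | ∀ k, 0 < v k ∧ v k < 1} ∧
      (⋃ j, (fun v => Matrix.mulVec ((h j : Matrix (Fin 2) (Fin 2) ℝ)) v) '' B j)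
        = {v : Fin 2 → ℝ | ∀ k, 0 < v k ∧ v k < 1} := by
  obtain ⟨N, A, B, g, hA, hB, hAA, hBB, hAB, hgA, hgB⟩ := Pool.Agent.X196.Sq.square
  exact ⟨N, N, A, B, g, g, hA, hB, hAA, hBB, hAB, hgA, hgB⟩

end Pool.Agent.S00753
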