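import Pool.Statements.S00777
import Pool.Agent.X333.RS.Final

set_option autoImplicit false
open Pool Pool.MP_1358e2_al

namespace Pool.Agent.S00777

/-- There exist n and r ∈ F(Fin n) such that ⟨Fin n ∣ r⟩ is residually finite (each g≠1 avoids some finite-index normal subgroup) and some g≠1 lies in every term of the derived series (i.e., not residually solvable). -/
theorem result :
    ∃ (n : ℕ) (r : FreeGroup (Fin n)),
      (∀ g : PresentedGroup ({r} : Set (FreeGroup (Fin n))), g ≠ 1 →
        ∃ N : Subgroup (PresentedGroup ({r} : Set (FreeGroup (Fin n)))),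
          N.Normal ∧ N.FiniteIndex ∧ g ∉ N) ∧
      ∃ g : PresentedGroup ({r} : Set (FreeGroup (Fin n))), g ≠ 1 ∧
        ∀ k : ℕ, g ∈ derivedSeries (PresentedGroup ({r} : Set (FreeGroup (Fin n)))) k := by
  refine ⟨3, Pool.Agent.X333.RS.rel, ?_, ?_⟩
  · exact Pool.Agent.X333.RS.residually_finite
  · exact ⟨Pool.Agent.X333.RS.gen 0, Pool.Agent.X333.RS.gen_ne_one, Pool.Agent.X333.RS.gen_mem⟩

end Pool.Agent.S00777
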