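import Pool.Statements.S00822
import Pool.Agent.Results.MP_183baf_al.Soluble3

set_option autoImplicit false
open Pool Pool.MP_183baf_al

namespace Pool.Agent.S00822

/-- The negation of the preceding statement: For each n ≥ 2 there is C such that every finitely generated residually finite group whose finite quotients need at most n generators, with some needing exactly n, is itself generated by at most C elements. -/
theorem result :
    ¬ (∀ n : ℕ, 2 ≤ n → ∃ C : ℕ, ∀ (G : Type) [Group G], Group.FG G →
      (∀ g : G, g ≠ 1 → ∃ N : Subgroup G, N.Normal ∧ N.FiniteIndex ∧ g ∉ N) →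
      (∀ (Q : Type) [Group Q] [Finite Q] (f : G →* Q), Function.Surjective f →
        ∃ S : Finset Q, S.card ≤ n ∧ Subgroup.closure (S : Set Q) = ⊤) →
      (∃ (Q : Type) (_ : Group Q) (_ : Finite Q) (f : G →* Q), Function.Surjective f ∧
        ∀ S : Finset Q, S.card ≤ n - 1 → Subgroup.closure (S : Set Q) ≠ ⊤) →
      ∃ S : Finset G, S.card ≤ C ∧ Subgroup.closure (S : Set G) = ⊤) := by
  intro h
  obtain ⟨n, hn, H⟩ := Pool.Agent.Results.MP_183baf_al.Soluble3.result
  obtain ⟨C, hC⟩ := h n hn
  obtain ⟨G, instG, hfg, _, hrf, hle, hge, hbig⟩ := H C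
  obtain ⟨S, hS, hcl⟩ := hC G hfg hrf hle hge
  exact absurd hS (not_le.mpr (hbig S hcl))

end Pool.Agent.S00822
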