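import Pool.Statements.S00830
-- import your own Pool.Agent.* helpers here

set_option autoImplicit false
open Pool Pool.MP_196888_al

namespace Pool.Agent.S00830

/-- A character of the cyclic group of order nine with values in the field with seven elements. -/
structure Act where
  c : ZMod 9 → ZMod 7
  zero : c 0 = 1
  add : ∀ a b, c (a + b) = c a * c b

/-- The character of the cyclic group of order nine with values in the field with 13 elements. -/
def d (k : ZMod 9) : ZMod 13 := 3 ^ k.val

lemma d_zero : d 0 = 1 := by decide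
lemma d_add : ∀ a b, d (a + b) = d a * d b := by decide

/-- The group `(C_7 × C_13) ⋊ C_9`. -/
@[ext] structure Gr (A : Act) where
  x : ZMod 7
  y : ZMod 13
  l : ZMod 9

namespace Gr

variable {A B : Act}

instance : Mul (Gr A) := ⟨fun a b => ⟨a.x + A.c a.l * b.x, a.y + d a.l * b.y, a.l + b.l⟩⟩
instance : One (Gr A) := ⟨⟨0, 0, 0⟩⟩
instance : Inv (Gr A) := ⟨fun a => ⟨-(A.c (-a.l) * a.x), -(d (-a.l) * a.y), -a.l⟩⟩

@[simp] lemma mul_x (a b : Gr A) : (a * b).x = a.x + A.c a.l * b.x := rfl
@[simp] lemma mul_y (a b : Gr A) : (a * b).y = a.y + d a.l * b.y := rfl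
@[simp] lemma mul_l (a b : Gr A) : (a * b).l = a.l + b.l := rfl
@[simp] lemma one_x : (1 : Gr A).x = 0 := rfl
@[simp] lemma one_y : (1 : Gr A).y = 0 := rfl
@[simp] lemma one_l : (1 : Gr A).l = 0 := rfl
@[simp] lemma inv_x (a : Gr A) : (a⁻¹).x = -(A.c (-a.l) * a.x) := rfl
@[simp] lemma inv_y (a : Gr A) : (a⁻¹).y = -(d (-a.l) * a.y) := rfl
@[simp] lemma inv_l (a : Gr A) : (a⁻¹).l = -a.l := rfl

instance : Group (Gr A) :=
  Group.ofLeftAxioms
    (by intro a b c; ext <;> simp [A.add, d_add] <;> ring)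
    (by intro a; ext <;> simp [A.zero, d_zero])
    (by intro a; ext <;> simp)

lemma cneg (A : Act) (k : ZMod 9) : A.c k * A.c (-k) = 1 := by
  rw [← A.add, add_neg_cancel, A.zero]

lemma dneg (k : ZMod 9) : d k * d (-k) = 1 := by
  rw [← d_add, add_neg_cancel, d_zero]

lemma pow_of_l (a : Gr A) (h : a.l = 0) (n : ℕ) :
    (a ^ n).x = n * a.x ∧ (a ^ n).y = n * a.y ∧ (a ^ n).l = 0 := by
  induction n with
  | zero => simp
  | succ n ih =>
    obtain ⟨h1, h2, h3⟩ := ih
    rw [pow_succ]
    refine ⟨?_, ?_, ?_⟩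
    · rw [mul_x, h1, h3, A.zero]; push_cast; ring
    · rw [mul_y, h2, h3, d_zero]; push_cast; ring
    · rw [mul_l, h3, h, add_zero]

/-- The bijection between the two groups. -/
def g (A B : Act) (t : Gr A) : Gr B := ⟨-(A.c (-t.l) * t.x), t.y, t.l⟩

@[simp] lemma g_x (t : Gr A) : (g A B t).x = -(A.c (-t.l) * t.x) := rfl
@[simp] lemma g_y (t : Gr A) : (g A B t).y = t.y := rfl
@[simp] lemma g_l (t : Gr A) : (g A B t).l = t.l := rfl

lemma g_one : g A B 1 = 1 := by ext <;> simp

lemma g_inv (h : ∀ k, B.c k = A.c (-k)) (t : Gr A) : g A B t⁻¹ = (g A B t)⁻¹ := by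
  ext
  · simp only [g_x, g_l, inv_x, inv_l, h, neg_neg, mul_neg]
  · simp
  · simp

lemma g_g (h : ∀ k, B.c k = A.c (-k)) (t : Gr A) : g B A (g A B t) = t := by
  ext
  · rw [g_x, h, neg_neg, g_x, mul_neg, neg_neg, g_l, ← mul_assoc, cneg, one_mul]
  · simp
  · simp

lemma g_mul (h : ∀ k, B.c k = A.c (-k)) (t t' : Gr A) :
    g A B (t * t') =
      (g A B t' * g A B t * (g A B t')⁻¹ * (g A B t)⁻¹) ^ 78 * (g A B t * g A B t') := by
  have hl : (g A B t' * g A B t * (g A B t')⁻¹ * (g A B t)⁻¹).l = 0 := by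
    simp only [mul_l, g_l, inv_l]; ring
  obtain ⟨h1, h2, h3⟩ := pow_of_l _ hl 78
  have e7 : ((78 : ℕ) : ZMod 7) = 1 := by decide
  have e13 : ((78 : ℕ) : ZMod 13) = 0 := by decide
  rw [e7, one_mul] at h1
  rw [e13, zero_mul] at h2
  ext
  · rw [mul_x, h1, h3, B.zero]
    simp only [mul_x, mul_l, inv_x, inv_l, g_x, g_l, h, neg_neg, neg_add, A.add]
    have c1 := cneg A t.l
    have c2 := cneg A t'.l
    generalize A.c t.l = p at *
    generalize A.c t'.l = q at *
    generalize A.c (-t.l) = p' at *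
    generalize A.c (-t'.l) = q' at *
    generalize t.x = x at *
    generalize t'.x = x' at *
    linear_combination (-q' * x' - p' * x) * c1 + (-p' * q' * x' - p * p' ^ 2 * x) * c2
  · rw [mul_y, h2, h3, d_zero]
    simp only [mul_y, g_y, g_l]
    ring
  · rw [mul_l, h3]
    simp only [mul_l, g_l]
    ring

/-- The image of a subgroup under the coordinatewise bijection. -/
def mapSub {ι : Type} (A B : Act) (h : ∀ k, B.c k = A.c (-k)) (S : Subgroup (ι → Gr B)) :
    Subgroup (ι → Gr A) where
  carrier := {t | (fun i => g A B (t i)) ∈ S}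
  one_mem' := by
    have : (fun i : ι => g A B ((1 : ι → Gr A) i)) = 1 := by
      funext i; exact g_one
    show (fun i : ι => g A B ((1 : ι → Gr A) i)) ∈ S
    rw [this]; exact S.one_mem
  mul_mem' := by
    intro t t' ht ht'
    have e : (fun i => g A B ((t * t') i)) =
        ((fun i => g A B (t' i)) * (fun i => g A B (t i)) * (fun i => g A B (t' i))⁻¹ *
          (fun i => g A B (t i))⁻¹) ^ 78 * ((fun i => g A B (t i)) * (fun i => g A B (t' i))) := by
      funext i
      exact g_mul h (t i) (t' i)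
    show (fun i => g A B ((t * t') i)) ∈ S
    rw [e]
    exact S.mul_mem (S.pow_mem (S.mul_mem (S.mul_mem (S.mul_mem ht' ht) (S.inv_mem ht'))
      (S.inv_mem ht)) _) (S.mul_mem ht ht')
  inv_mem' := by
    intro t ht
    have e : (fun i => g A B (t⁻¹ i)) = (fun i => g A B (t i))⁻¹ := by
      funext i
      exact g_inv h (t i)
    show (fun i => g A B (t⁻¹ i)) ∈ S
    rw [e]
    exact S.inv_mem ht

lemma mem_mapSub {ι : Type} {h : ∀ k, B.c k = A.c (-k)} {S : Subgroup (ι → Gr B)}
    {t : ι → Gr A} : t ∈ mapSub A B h S ↔ (fun i => g A B (t i)) ∈ S := Iff.rfl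

/-- The projectivity. -/
def proj (ι : Type) (A B : Act) (h : ∀ k, B.c k = A.c (-k)) (h' : ∀ k, A.c k = B.c (-k)) :
    Subgroup (ι → Gr B) ≃o Subgroup (ι → Gr A) where
  toFun := mapSub A B h
  invFun := mapSub B A h'
  left_inv := by
    intro S
    ext t
    rw [mem_mapSub, mem_mapSub]
    have : (fun i => g A B (g B A (t i))) = t := by
      funext i; exact g_g h' (t i)
    rw [this]
  right_inv := by
    intro S
    ext t
    rw [mem_mapSub, mem_mapSub]
    have : (fun i => g B A (g A B (t i))) = t := by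
      funext i; exact g_g h (t i)
    rw [this]
  map_rel_iff' := by
    intro S T
    constructor
    · intro hST t ht
      have h1 : (fun i => g B A (t i)) ∈ mapSub A B h S := by
        rw [mem_mapSub]
        have : (fun i => g A B (g B A (t i))) = t := by
          funext i; exact g_g h' (t i)
        rw [this]; exact ht
      have h2 : (fun i => g A B (g B A (t i))) ∈ T := hST h1
      have : (fun i => g A B (g B A (t i))) = t := by
        funext i; exact g_g h' (t i)
      rw [this] at h2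
      exact h2
    · intro hST t ht
      exact hST ht

lemma proj_mulSingle {ι : Type} [DecidableEq ι] {A B : Act} (h : ∀ k, B.c k = A.c (-k))
    (h' : ∀ k, A.c k = B.c (-k)) (i : ι) :
    proj ι A B h h' (MonoidHom.mulSingle (fun _ : ι => Gr B) i).range =
      (MonoidHom.mulSingle (fun _ : ι => Gr A) i).range := by
  ext t
  show (fun j => g A B (t j)) ∈ (MonoidHom.mulSingle (fun _ : ι => Gr B) i).range ↔ _
  constructor
  · rintro ⟨s, hs⟩
    refine ⟨t i, ?_⟩
    funext j
    by_cases hj : j = i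
    · subst hj; simp
    · have := congrFun hs j
      simp only [MonoidHom.mulSingle_apply, Pi.mulSingle_eq_of_ne hj] at this ⊢
      rw [← g_g h (t j), ← this, g_one]
  · rintro ⟨s, hs⟩
    refine ⟨g A B s, ?_⟩
    funext j
    rw [← hs]
    by_cases hj : j = i
    · subst hj; simp
    · simp only [MonoidHom.mulSingle_apply, Pi.mulSingle_eq_of_ne hj, g_one]

end Gr

/-- The character sending the generator to `2`. -/
def A2 : Act := ⟨fun k => 2 ^ k.val, by decide, by decide⟩
/-- The character sending the generator to `4`. -/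
def A4 : Act := ⟨fun k => 4 ^ k.val, by decide, by decide⟩

lemma h24 : ∀ k, A2.c k = A4.c (-k) := by decide
lemma h42 : ∀ k, A4.c k = A2.c (-k) := by decide

lemma pow_l {A : Act} (a : Gr A) (n : ℕ) : (a ^ n).l = n * a.l := by
  induction n with
  | zero => simp
  | succ n ih => rw [pow_succ, Gr.mul_l, ih]; push_cast; ring

lemma l7 : ∀ l : ZMod 9, (7 : ZMod 9) * l = 0 → l = 0 := by decide
lemma l13 : ∀ l : ZMod 9, (13 : ZMod 9) * l = 0 → l = 0 := by decide
lemma y7 : ∀ l : ZMod 13, (7 : ZMod 13) * l = 0 → l = 0 := by decide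
lemma x13 : ∀ l : ZMod 7, (13 : ZMod 7) * l = 0 → l = 0 := by decide
lemma fin1 : ∀ l : ZMod 9, ∀ x : ZMod 7, A4.c l * x = 2 * x → x ≠ 0 → A4.c l = 2 := by decide
lemma fin2 : ∀ l : ZMod 9, ∀ x : ZMod 13, d l * x = 3 * x → x ≠ 0 → d l = 3 := by decide
lemma fin3 : ∀ l : ZMod 9, A4.c l = 2 → d l = 3 → False := by decide

lemma noniso : ¬ Nonempty (Gr A4 ≃* Gr A2) := by
  rintro ⟨e⟩
  let a : Gr A2 := ⟨1, 0, 0⟩
  let b : Gr A2 := ⟨0, 1, 0⟩
  let c : Gr A2 := ⟨0, 0, 1⟩
  have hac : c * a = a ^ 2 * c := by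
    rw [pow_two]; ext <;> decide
  have hbc : c * b = b ^ 3 * c := by
    rw [pow_succ, pow_two]; ext <;> decide
  have ha7 : a ^ 7 = 1 := by
    have := Gr.pow_of_l a rfl 7
    ext
    · rw [this.1]; decide
    · rw [this.2.1]; decide
    · rw [this.2.2]; decide
  have hb13 : b ^ 13 = 1 := by
    have := Gr.pow_of_l b rfl 13
    ext
    · rw [this.1]; decide
    · rw [this.2.1]; decide
    · rw [this.2.2]; decide
  have ha1 : a ≠ 1 := fun h => absurd (congrArg Gr.x h) (by decide)
  have hb1 : b ≠ 1 := fun h => absurd (congrArg Gr.y h) (by decide)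
  have ka : e.symm c * e.symm a = e.symm a ^ 2 * e.symm c := by
    rw [← map_mul, hac, map_mul, map_pow]
  have kb : e.symm c * e.symm b = e.symm b ^ 3 * e.symm c := by
    rw [← map_mul, hbc, map_mul, map_pow]
  have ka7 : e.symm a ^ 7 = 1 := by rw [← map_pow, ha7, map_one]
  have kb13 : e.symm b ^ 13 = 1 := by rw [← map_pow, hb13, map_one]
  have ka1 : e.symm a ≠ 1 := fun h => ha1 (by simpa using congrArg e h)
  have kb1 : e.symm b ≠ 1 := fun h => hb1 (by simpa using congrArg e h)
  generalize e.symm a = a' at *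
  generalize e.symm b = b' at *
  generalize e.symm c = c' at *
  have la : a'.l = 0 := by
    apply l7
    have := congrArg Gr.l ka7
    rw [pow_l] at this
    exact_mod_cast this
  have lb : b'.l = 0 := by
    apply l13
    have := congrArg Gr.l kb13
    rw [pow_l] at this
    exact_mod_cast this
  have ya : a'.y = 0 := by
    apply y7
    have := congrArg Gr.y ka7
    rw [(Gr.pow_of_l a' la 7).2.1] at this
    exact_mod_cast this
  have xb : b'.x = 0 := by
    apply x13
    have := congrArg Gr.x kb13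
    rw [(Gr.pow_of_l b' lb 13).1] at this
    exact_mod_cast this
  have xa : a'.x ≠ 0 := fun h => ka1 (by ext <;> simp [h, ya, la])
  have yb : b'.y ≠ 0 := fun h => kb1 (by ext <;> simp [h, xb, lb])
  have r1 : A4.c c'.l * a'.x = 2 * a'.x := by
    have := congrArg Gr.x ka
    rw [Gr.mul_x, Gr.mul_x, (Gr.pow_of_l a' la 2).1, (Gr.pow_of_l a' la 2).2.2, A4.zero] at this
    push_cast at this
    linear_combination this
  have r2 : d c'.l * b'.y = 3 * b'.y := by
    have := congrArg Gr.y kb
    rw [Gr.mul_y, Gr.mul_y, (Gr.pow_of_l b' lb 3).2.1, (Gr.pow_of_l b' lb 3).2.2, d_zero] at this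
    push_cast at this
    linear_combination this
  exact fin3 _ (fin1 _ _ r1 xa) (fin2 _ _ r2 yb)

/-- The negation of the preceding statement: For every group G, every m ≥ 2 and every lattice isomorphism φ from the subgroups of G^m to the subgroups of a group H such that H is the internal direct product of the images of the coordinate subgroups, the image of the first coordinate subgroup is isomorphic to G. -/
theorem result :
    ¬ (∀ (G : Type) [Group G] (n : ℕ) (H : Type) [Group H]
      (φ : Subgroup (Fin (n + 2) → G) ≃o Subgroup H),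
      (∀ i : Fin (n + 2),
          (φ (MonoidHom.mulSingle (fun _ : Fin (n + 2) => G) i).range).Normal) →
      (⨆ i : Fin (n + 2), φ (MonoidHom.mulSingle (fun _ : Fin (n + 2) => G) i).range) = ⊤ →
      iSupIndep (fun i : Fin (n + 2) =>
          φ (MonoidHom.mulSingle (fun _ : Fin (n + 2) => G) i).range) →
      Nonempty (↥(φ (MonoidHom.mulSingle (fun _ : Fin (n + 2) => G) 0).range) ≃* G)) := by
  intro H
  have n1 : ∀ i : Fin 2, (MonoidHom.mulSingle (fun _ : Fin 2 => Gr A4) i).range.Normal := by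
    intro i
    constructor
    rintro _ ⟨s, rfl⟩ t
    refine ⟨t i * s * (t i)⁻¹, ?_⟩
    funext j
    by_cases hj : j = i
    · subst hj; simp
    · simp [Pi.mulSingle_eq_of_ne hj]
  have n2 : (⨆ i : Fin 2, (MonoidHom.mulSingle (fun _ : Fin 2 => Gr A4) i).range) = ⊤ := by
    rw [eq_top_iff]
    intro t _
    apply Subgroup.pi_mem_of_mulSingle_mem
    intro i
    exact (le_iSup (fun i : Fin 2 => (MonoidHom.mulSingle (fun _ : Fin 2 => Gr A4) i).range) i)
      ⟨t i, rfl⟩
  have n3 : iSupIndep (fun i : Fin 2 => (MonoidHom.mulSingle (fun _ : Fin 2 => Gr A4) i).range) := by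
    rw [iSupIndep_pair (i := 0) (j := 1) (by decide) (by decide), Subgroup.disjoint_def]
    rintro _ ⟨s, rfl⟩ ⟨t, ht⟩
    funext j
    have h1 := congrFun ht j
    fin_cases j
    · simpa using h1.symm
    · simp
  have inj : Function.Injective (MonoidHom.mulSingle (fun _ : Fin 2 => Gr A4) 0) := by
    intro a b hab
    simpa using congrFun hab 0
  have hp := fun i : Fin 2 => Gr.proj_mulSingle (ι := Fin 2) h24 h42 i
  obtain ⟨e⟩ := H (Gr A2) 0 (Fin 2 → Gr A4) (Gr.proj (Fin 2) A4 A2 h24 h42)
    (fun i => (hp i).symm ▸ n1 i)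
    ((iSup_congr hp).trans n2)
    ((funext hp : (fun i : Fin 2 => Gr.proj (Fin 2) A4 A2 h24 h42
      (MonoidHom.mulSingle (fun _ : Fin 2 => Gr A2) i).range) = _).symm ▸ n3)
  exact noniso ⟨((MonoidHom.ofInjective inj).trans
    (MulEquiv.subgroupCongr (hp 0)).symm).trans e⟩

end Pool.Agent.S00830
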