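import Pool.Statements.S00878
import Pool.Agent.X196.TorsionGroup

set_option autoImplicit false
open scoped Pointwise
open Pool Pool.MP_1dd661_al

namespace Pool.Agent.S00878

section Action

variable (T : Type) [Group T]

/-- the action of `T` on `{1, -1} ^ T` by translations -/
def psi : T →* MulAut (T → ℤˣ) where
  toFun t :=
    { toFun := fun f x => f (t⁻¹ * x)
      invFun := fun f x => f (t * x)
      left_inv := fun f => by funext x; simp
      right_inv := fun f => by funext x; simp
      map_mul' := fun f g => rfl }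
  map_one' := by
    ext f x
    simp
  map_mul' s t := by
    ext f x
    simp [mul_assoc]

variable {T}

lemma psi_apply (t : T) (f : T → ℤˣ) (x : T) : psi T t f x = f (t⁻¹ * x) := rfl

end Action

section General

variable {G : Type} [Group G] [TopologicalSpace G]

/-- the tidiness condition of the statement -/
def Tidy (a : MulAut G) (U : Subgroup G) : Prop :=
  ((U : Set G) =
      (⋂ n : ℕ, Set.image (⇑(a ^ n)) (U : Set G)) *
        (⋂ n : ℕ, Set.image (⇑(a⁻¹ ^ n)) (U : Set G)) ∧
    IsClosed (⋃ m : ℕ, Set.image (⇑(a ^ m))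
        (⋂ n : ℕ, Set.image (⇑(a ^ n)) (U : Set G))))

lemma map_mem_of_tidy {a : MulAut G} {U : Subgroup G} (ha : IsOfFinOrder a) (h : Tidy a U)
    {f : G} (hf : f ∈ U) : a f ∈ U := by
  obtain ⟨N, hN, haN⟩ := isOfFinOrder_iff_pow_eq_one.1 ha
  have hf' : f ∈ (⋂ n : ℕ, Set.image (⇑(a ^ n)) (U : Set G)) *
        (⋂ n : ℕ, Set.image (⇑(a⁻¹ ^ n)) (U : Set G)) := by
    rw [← h.1]
    exact hf
  obtain ⟨x, hx, y, hy, rfl⟩ := Set.mem_mul.1 hf'
  rw [map_mul]
  refine U.mul_mem ?_ ?_
  · obtain ⟨u, hu, rfl⟩ := Set.mem_iInter.1 hx (N - 1)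
    have h1 : a ((a ^ (N - 1)) u) = (a ^ N) u := by
      rw [← MulAut.mul_apply, ← pow_succ', Nat.sub_add_cancel hN]
    rw [h1, haN]
    exact hu
  · obtain ⟨u, hu, rfl⟩ := Set.mem_iInter.1 hy 1
    rw [pow_one, ← MulAut.mul_apply, mul_inv_cancel]
    exact hu

lemma tidy_of_invariant {a : MulAut G} {U : Subgroup G} (hcl : IsClosed (U : Set G))
    (h1 : ∀ f ∈ U, a f ∈ U) (h2 : ∀ f ∈ U, a⁻¹ f ∈ U) : Tidy a U := by
  have h3 : ∀ n : ℕ, ∀ f ∈ U, (a ^ n) f ∈ U := by
    intro n
    induction n with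
    | zero => intro f hf; simpa using hf
    | succ n ih =>
      intro f hf
      rw [pow_succ, MulAut.mul_apply]
      exact ih _ (h1 f hf)
  have h4 : ∀ n : ℕ, ∀ f ∈ U, (a⁻¹ ^ n) f ∈ U := by
    intro n
    induction n with
    | zero => intro f hf; simpa using hf
    | succ n ih =>
      intro f hf
      rw [pow_succ, MulAut.mul_apply]
      exact ih _ (h2 f hf)
  have h5 : ∀ n : ℕ, Set.image (⇑(a ^ n)) (U : Set G) = U := by
    intro n
    apply Set.Subset.antisymm
    · rintro _ ⟨f, hf, rfl⟩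
      exact h3 n f hf
    · intro f hf
      refine ⟨(a⁻¹ ^ n) f, h4 n f hf, ?_⟩
      rw [← MulAut.mul_apply, inv_pow, mul_inv_cancel]
      rfl
  have h6 : ∀ n : ℕ, Set.image (⇑(a⁻¹ ^ n)) (U : Set G) = U := by
    intro n
    apply Set.Subset.antisymm
    · rintro _ ⟨f, hf, rfl⟩
      exact h4 n f hf
    · intro f hf
      refine ⟨(a ^ n) f, h3 n f hf, ?_⟩
      rw [← MulAut.mul_apply, inv_pow, inv_mul_cancel]
      rfl
  have h7 : (⋂ n : ℕ, Set.image (⇑(a ^ n)) (U : Set G)) = U := by
    simp only [h5, Set.iInter_const]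
  have h8 : (⋂ n : ℕ, Set.image (⇑(a⁻¹ ^ n)) (U : Set G)) = U := by
    simp only [h6, Set.iInter_const]
  refine ⟨?_, ?_⟩
  · rw [h7, h8, coe_mul_coe]
  · rw [h7]
    simp only [h5, Set.iUnion_const]
    exact hcl

end General

/-- The negation of the preceding statement: For a t.d.l.c. group G and a finitely generated flat group H of topological automorphisms, there are finitely many distinct elements of H whose nubs multiply, as sets, to the nub of H. -/
theorem result :
    ¬ (∀ (G : Type) [Group G] [TopologicalSpace G] [IsTopologicalGroup G]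
      [LocallyCompactSpace G] [TotallyDisconnectedSpace G]
      (H : Subgroup (MulAut G)) (tidy : MulAut G → Subgroup G → Prop),
      (∀ (a : MulAut G) (U : Subgroup G), tidy a U ↔
          ((U : Set G) =
              (⋂ n : ℕ, Set.image (⇑(a ^ n)) (U : Set G)) *
                (⋂ n : ℕ, Set.image (⇑(a⁻¹ ^ n)) (U : Set G)) ∧
            IsClosed (⋃ m : ℕ, Set.image (⇑(a ^ m))
                (⋂ n : ℕ, Set.image (⇑(a ^ n)) (U : Set G))))) →
      (∀ a ∈ H, Continuous (⇑a)) →
      H.FG →
      (∃ U : Subgroup G, IsCompact (U : Set G) ∧ IsOpen (U : Set G) ∧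
          ∀ a ∈ H, tidy a U) →
      ∃ l : List (MulAut G), l.Nodup ∧ (∀ a ∈ l, a ∈ H) ∧
        (⋂ (U : Subgroup G)
            (_ : IsCompact (U : Set G) ∧ IsOpen (U : Set G) ∧ ∀ a ∈ H, tidy a U),
            (U : Set G)) =
          (l.map (fun a => ⋂ (U : Subgroup G)
              (_ : IsCompact (U : Set G) ∧ IsOpen (U : Set G) ∧ tidy a U),
              (U : Set G))).prod) := by
  intro hall
  obtain ⟨T, hT, hFG, hinf, htor⟩ := Pool.Agent.X196.TorsionGroup.exists_fg_infinite_torsion
  have hfin : ∀ t : T, IsOfFinOrder (psi T t) := fun t => (psi T).isOfFinOrder (htor t)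
  have hc : ∀ a ∈ (psi T).range, Continuous (⇑a) := by
    rintro _ ⟨t, rfl⟩
    refine continuous_pi fun x => ?_
    exact continuous_apply (t⁻¹ * x)
  have hfg : (psi T).range.FG := by
    have := hFG
    exact (Group.fg_iff_subgroup_fg _).1 (Group.fg_range (psi T))
  have hflat : ∃ U : Subgroup (T → ℤˣ), IsCompact (U : Set (T → ℤˣ)) ∧
      IsOpen (U : Set (T → ℤˣ)) ∧ ∀ a ∈ (psi T).range, Tidy a U := by
    refine ⟨⊤, ?_, isOpen_univ, ?_⟩
    · exact isCompact_univ
    · intro a _
      exact tidy_of_invariant isClosed_univ (fun _ _ => trivial) (fun _ _ => trivial)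
  obtain ⟨l, -, hl, heq⟩ := hall (T → ℤˣ) (psi T).range Tidy (fun a U => Iff.rfl) hc hfg hflat
  -- the nub of each element is trivial
  have h1 : ∀ a ∈ (psi T).range, (⋂ (U : Subgroup (T → ℤˣ))
      (_ : IsCompact (U : Set (T → ℤˣ)) ∧ IsOpen (U : Set (T → ℤˣ)) ∧ Tidy a U),
        (U : Set (T → ℤˣ))) = 1 := by
    rintro _ ⟨t, rfl⟩
    apply Set.Subset.antisymm
    · intro f hf
      rw [Set.mem_one]
      funext x
      let V : Subgroup (T → ℤˣ) :=
        { carrier := {g | ∀ s ∈ Subgroup.zpowers t, g (s * x) = 1}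
          one_mem' := fun s _ => rfl
          mul_mem' := fun {g h} hg hh s hs => by
            show g (s * x) * h (s * x) = 1
            rw [hg s hs, hh s hs, one_mul]
          inv_mem' := fun {g} hg s hs => by
            show (g (s * x))⁻¹ = 1
            rw [hg s hs, inv_one] }
      have hfz : (Subgroup.zpowers t : Set T).Finite := by
        exact finite_zpowers.2 (htor t)
      have hVo : IsOpen (V : Set (T → ℤˣ)) := by
        have : (V : Set (T → ℤˣ)) = ⋂ s ∈ (Subgroup.zpowers t : Set T), {g | g (s * x) = 1} := by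
          ext g
          simp only [Set.mem_iInter]
          rfl
        rw [this]
        refine hfz.isOpen_biInter fun s _ => ?_
        exact (isOpen_discrete ({1} : Set ℤˣ)).preimage
          (continuous_apply (A := fun _ : T => ℤˣ) (s * x))
      have hVc : IsClosed (V : Set (T → ℤˣ)) := Subgroup.isClosed_of_isOpen V hVo
      have htidy : Tidy (psi T t) V := by
        refine tidy_of_invariant hVc ?_ ?_
        · intro g hg s hs
          rw [psi_apply, ← mul_assoc]
          exact hg _ ((Subgroup.zpowers t).mul_mem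
            ((Subgroup.zpowers t).inv_mem (Subgroup.mem_zpowers t)) hs)
        · intro g hg s hs
          rw [← map_inv, psi_apply, ← mul_assoc, inv_inv]
          exact hg _ ((Subgroup.zpowers t).mul_mem (Subgroup.mem_zpowers t) hs)
      have h2 := Set.mem_iInter.1 (Set.mem_iInter.1 hf V) ⟨hVc.isCompact, hVo, htidy⟩
      have h3 := h2 1 (Subgroup.one_mem _)
      rwa [one_mul] at h3
    · intro f hf
      rw [Set.mem_one] at hf
      rw [hf]
      exact Set.mem_iInter.2 fun U => Set.mem_iInter.2 fun _ => U.one_mem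
  -- the nub of the group is everything
  have h2 : ∀ U : Subgroup (T → ℤˣ), IsOpen (U : Set (T → ℤˣ)) →
      (∀ a ∈ (psi T).range, Tidy a U) → ∀ g : T → ℤˣ, g ∈ U := by
    classical
    intro U hU hUt g
    obtain ⟨F, u, hu, hFu⟩ := (isOpen_pi_iff.1 hU) 1 U.one_mem
    have hF : ∀ g : T → ℤˣ, (∀ x ∈ F, g x = 1) → g ∈ U := by
      intro g hg
      apply hFu
      intro x hx
      rw [hg x hx]
      exact (hu x hx).2
    have hinv : ∀ t : T, ∀ f ∈ U, psi T t f ∈ U := fun t f hf =>
      map_mem_of_tidy (hfin t) (hUt _ ⟨t, rfl⟩) hf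
    obtain ⟨t, ht⟩ := Infinite.exists_notMem_finset ((F ×ˢ F).image fun p => p.1 * p.2⁻¹)
    have hdisj : ∀ x ∈ F, t * x ∉ F := by
      intro x hx hx'
      apply ht
      rw [Finset.mem_image]
      exact ⟨(t * x, x), Finset.mem_product.2 ⟨hx', hx⟩, by simp⟩
    have hF2 : ∀ g : T → ℤˣ, (∀ x ∈ F, g (t * x) = 1) → g ∈ U := by
      intro g hg
      have h3 : psi T t⁻¹ g ∈ U := by
        apply hF
        intro x hx
        rw [psi_apply, inv_inv]
        exact hg x hx
      have h4 := hinv t _ h3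
      have h5 : psi T t (psi T t⁻¹ g) = g := by
        rw [← MulAut.mul_apply, ← map_mul, mul_inv_cancel, map_one]
        rfl
      rwa [h5] at h4
    have h3 : g = (fun x => if x ∈ F then 1 else g x) * (fun x => if x ∈ F then g x else 1) := by
      funext x
      by_cases hx : x ∈ F <;> simp [hx]
    rw [h3]
    refine U.mul_mem (hF _ fun x hx => by simp [hx]) (hF2 _ fun x hx => ?_)
    simp [hdisj x hx]
  have h3 : (l.map (fun a => ⋂ (U : Subgroup (T → ℤˣ))
      (_ : IsCompact (U : Set (T → ℤˣ)) ∧ IsOpen (U : Set (T → ℤˣ)) ∧ Tidy a U),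
        (U : Set (T → ℤˣ)))).prod = 1 := by
    apply List.prod_eq_one
    intro s hs
    obtain ⟨a, ha, rfl⟩ := List.mem_map.1 hs
    exact h1 a (hl a ha)
  rw [h3] at heq
  have h4 : (fun _ : T => (-1 : ℤˣ)) ∈ (1 : Set (T → ℤˣ)) := by
    rw [← heq]
    refine Set.mem_iInter.2 fun U => Set.mem_iInter.2 fun hU => ?_
    exact h2 U hU.2.1 hU.2.2 _
  rw [Set.mem_one] at h4
  have h5 := congrFun h4 1
  have h6 : (-1 : ℤˣ) = 1 := h5
  exact absurd h6 (by decide)

end Pool.Agent.S00878
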