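import Pool.Statements.S00905

set_option autoImplicit false
open Pool Pool.MP_207b86_al

namespace Pool.Agent.S00905

theorem perm3_center (g : Equiv.Perm (Fin 3)) (h : ∀ a : Equiv.Perm (Fin 3), g * a = a * g) :
    g = 1 := by
  revert g
  decide

theorem eval_continuous (w : Monoid.Coprod (ℕ → Equiv.Perm (Fin 3)) (FreeGroup Unit))
    [TopologicalSpace (Equiv.Perm (Fin 3))] [DiscreteTopology (Equiv.Perm (Fin 3))] :
    Continuous (fun g : (ℕ → Equiv.Perm (Fin 3)) =>
      Monoid.Coprod.lift (MonoidHom.id (ℕ → Equiv.Perm (Fin 3)))
        (FreeGroup.lift (fun _ => g)) w) := by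
  haveI : IsTopologicalGroup (Equiv.Perm (Fin 3)) :=
    { continuous_mul := continuous_of_discreteTopology
      continuous_inv := continuous_of_discreteTopology }
  induction w using Monoid.Coprod.induction_on with
  | inl m => simpa using continuous_const
  | inr n =>
    simp only [Monoid.Coprod.lift_apply_inr]
    induction n using FreeGroup.induction_on with
    | C1 => simpa using continuous_const
    | of x => simp only [FreeGroup.lift_apply_of]; exact continuous_id
    | inv_of x ih => simpa using continuous_inv
    | mul x y hx hy => simp only [map_mul]; exact hx.mul hy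
  | mul x y hx hy => simp only [map_mul]; exact hx.mul hy

/-- There is an infinite group whose Zariski topology is both compact and Hausdorff. The closed sets of that topology are generated by solution sets of one-variable equations with constants from the group. -/
theorem result :
    ∃ (G : Type) (_ : Group G) (T : TopologicalSpace G),
      Infinite G ∧
      T = TopologicalSpace.generateFrom
        {U : Set G | ∃ w : Monoid.Coprod G (FreeGroup Unit),
          U = {g : G | Monoid.Coprod.lift (MonoidHom.id G) (FreeGroup.lift (fun _ => g)) w = 1}ᶜ} ∧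
      @CompactSpace G T ∧ @T2Space G T := by
  classical
  refine ⟨ℕ → Equiv.Perm (Fin 3), inferInstance, _, inferInstance, rfl, ?_, ?_⟩
  · -- compactness: coarser than the product topology
    letI τ0 : TopologicalSpace (Equiv.Perm (Fin 3)) := ⊥
    haveI : DiscreteTopology (Equiv.Perm (Fin 3)) := ⟨rfl⟩
    have hle : (Pi.topologicalSpace : TopologicalSpace (ℕ → Equiv.Perm (Fin 3))) ≤
        TopologicalSpace.generateFrom
        {U : Set (ℕ → Equiv.Perm (Fin 3)) |
          ∃ w : Monoid.Coprod (ℕ → Equiv.Perm (Fin 3)) (FreeGroup Unit),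
          U = {g | Monoid.Coprod.lift (MonoidHom.id (ℕ → Equiv.Perm (Fin 3)))
            (FreeGroup.lift (fun _ => g)) w = 1}ᶜ} := by
      apply le_generateFrom
      rintro U ⟨w, rfl⟩
      show IsOpen _
      rw [isOpen_compl_iff]
      exact isClosed_singleton.preimage (eval_continuous w)
    have hc : CompactSpace (ℕ → Equiv.Perm (Fin 3)) := inferInstance
    refine @CompactSpace.mk _ (_) ?_
    have h1 := hc.isCompact_univ
    have h2 := @IsCompact.image _ _ (Pi.topologicalSpace) (TopologicalSpace.generateFrom
        {U : Set (ℕ → Equiv.Perm (Fin 3)) |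
          ∃ w : Monoid.Coprod (ℕ → Equiv.Perm (Fin 3)) (FreeGroup Unit),
          U = {g | Monoid.Coprod.lift (MonoidHom.id (ℕ → Equiv.Perm (Fin 3)))
            (FreeGroup.lift (fun _ => g)) w = 1}ᶜ}) Set.univ id h1 (continuous_id_iff_le.mpr hle)
    simpa using h2
  · -- Hausdorff
    set T : TopologicalSpace (ℕ → Equiv.Perm (Fin 3)) := TopologicalSpace.generateFrom
        {U : Set (ℕ → Equiv.Perm (Fin 3)) |
          ∃ w : Monoid.Coprod (ℕ → Equiv.Perm (Fin 3)) (FreeGroup Unit),
          U = {g | Monoid.Coprod.lift (MonoidHom.id (ℕ → Equiv.Perm (Fin 3)))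
            (FreeGroup.lift (fun _ => g)) w = 1}ᶜ} with hT
    have hcl : ∀ (n : ℕ) (h : Equiv.Perm (Fin 3)),
        @IsOpen _ T ({g : ℕ → Equiv.Perm (Fin 3) | g n = h}ᶜ) := by
      intro n h
      have hU : ({g : ℕ → Equiv.Perm (Fin 3) | g n = h}ᶜ) =
          ⋃ a : Equiv.Perm (Fin 3),
            {g : ℕ → Equiv.Perm (Fin 3) |
              Monoid.Coprod.lift (MonoidHom.id (ℕ → Equiv.Perm (Fin 3)))
                (FreeGroup.lift (fun _ => g))
                ((Monoid.Coprod.inl (Pi.mulSingle n h)⁻¹ *
                  Monoid.Coprod.inr (FreeGroup.of ())) *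
                  Monoid.Coprod.inl (Pi.mulSingle n a) *
                  (Monoid.Coprod.inl (Pi.mulSingle n h)⁻¹ *
                  Monoid.Coprod.inr (FreeGroup.of ()))⁻¹ *
                  (Monoid.Coprod.inl (Pi.mulSingle n a))⁻¹) = 1}ᶜ := by
        ext g
        simp only [Set.mem_compl_iff, Set.mem_ofPred_eq, Set.mem_iUnion, map_mul, map_inv,
          Monoid.Coprod.lift_apply_inl, Monoid.Coprod.lift_apply_inr, FreeGroup.lift_apply_of,
          MonoidHom.id_apply]
        rw [← not_forall]
        apply not_congr
        constructor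
        · intro hg a
          funext m
          by_cases hm : m = n
          · subst hm
            simp [hg]
          · simp [Pi.mulSingle_eq_of_ne hm]
        · intro hall
          have := perm3_center (h⁻¹ * g n) (by
            intro a
            have h1 := congrFun (hall a) n
            simp only [Pi.mul_apply, Pi.inv_apply, Pi.mulSingle_eq_same, Pi.one_apply] at h1
            rw [mul_inv_eq_one, mul_inv_eq_iff_eq_mul] at h1
            exact h1)
          rw [inv_mul_eq_one] at this
          exact this.symm
      rw [hU]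
      apply isOpen_iUnion
      intro a
      apply TopologicalSpace.isOpen_generateFrom_of_mem
      exact ⟨_, rfl⟩
    have hop : ∀ (n : ℕ) (h : Equiv.Perm (Fin 3)),
        @IsOpen _ T ({g : ℕ → Equiv.Perm (Fin 3) | g n = h}) := by
      intro n h
      have hE : ({g : ℕ → Equiv.Perm (Fin 3) | g n = h}) =
          ⋂ h' : {h' : Equiv.Perm (Fin 3) // h' ≠ h},
            ({g : ℕ → Equiv.Perm (Fin 3) | g n = h'.1}ᶜ) := by
        ext g
        simp only [Set.mem_ofPred_eq, Set.mem_iInter, Set.mem_compl_iff]
        constructor
        · rintro hg ⟨h', hh'⟩ hg'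
          exact hh' (hg'.symm.trans hg)
        · intro hall
          by_contra hne
          exact hall ⟨g n, hne⟩ rfl
      rw [hE]
      exact isOpen_iInter_of_finite (fun h' => hcl n h'.1)
    refine @T2Space.mk _ T ?_
    intro x y hxy
    obtain ⟨n, hn⟩ := Function.ne_iff.mp hxy
    refine ⟨{g | g n = x n}, {g | g n = y n}, hop n _, hop n _, rfl, rfl, ?_⟩
    rw [Set.disjoint_left]
    intro g hg1 hg2
    exact hn (hg1.symm.trans hg2)

end Pool.Agent.S00905
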