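import Pool.Statements.S01554

set_option autoImplicit false
open Pool Pool.MP_58cc81_al

namespace Pool.Agent.S01554

/-- The discrete group of finitely supported sequences over the field with two elements. -/
def V : Type := ℕ →₀ ZMod 2

noncomputable instance : AddCommGroup V := inferInstanceAs (AddCommGroup (ℕ →₀ ZMod 2))

instance : TopologicalSpace V := ⊥

instance : DiscreteTopology V := ⟨rfl⟩

/-- The field with two elements as a discrete space. -/
def F : Type := ZMod 2

instance : CommRing F := inferInstanceAs (CommRing (ZMod 2))

instance : Finite F := inferInstanceAs (Finite (ZMod 2))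

instance : TopologicalSpace F := ⊥

instance : DiscreteTopology F := ⟨rfl⟩

instance : IsTopologicalRing F where
  continuous_add := continuous_of_discreteTopology
  continuous_mul := continuous_of_discreteTopology
  continuous_neg := continuous_of_discreteTopology

/-- The compact centre. -/
abbrev N : Type := ℕ → ℕ → F

/-- The coordinates of an element of `V`. -/
def co (v : V) (i : ℕ) : F := (show ℕ →₀ ZMod 2 from v) i

lemma co_add (v w : V) (i : ℕ) : co (v + w) i = co v i + co w i := rfl

lemma co_zero (i : ℕ) : co 0 i = 0 := rfl

lemma co_neg (v : V) (i : ℕ) : co (-v) i = - co v i := rfl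

lemma co_ext {v w : V} (h : ∀ i, co v i = co w i) : v = w := Finsupp.ext h

/-- The cocycle. -/
def beta (v w : V) : N := fun i j => co v i * co w j

/-- The extension of `V` by `N`. -/
@[ext] structure D : Type where
  /-- the image in `V` -/
  fst : V
  /-- the component in `N` -/
  snd : N

/-- The underlying set of the extension. -/
def D.toProd (x : D) : V × N := (x.fst, x.snd)

instance : TopologicalSpace D := TopologicalSpace.induced D.toProd inferInstance

/-- The homeomorphism with the product. -/
def homeo : D ≃ₜ V × N where
  toFun := D.toProd
  invFun x := ⟨x.1, x.2⟩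
  left_inv _ := rfl
  right_inv _ := rfl
  continuous_toFun := continuous_induced_dom
  continuous_invFun := by
    rw [continuous_induced_rng]
    exact continuous_id

lemma cont_fst : Continuous D.fst := continuous_fst.comp homeo.continuous

lemma cont_snd : Continuous D.snd := continuous_snd.comp homeo.continuous

lemma cont_mk {X : Type} [TopologicalSpace X] {f : X → V} {g : X → N} (hf : Continuous f)
    (hg : Continuous g) : Continuous (fun x => (⟨f x, g x⟩ : D)) :=
  homeo.symm.continuous.comp (hf.prodMk hg)

noncomputable instance : Group D where
  mul x y := ⟨x.fst + y.fst, x.snd + y.snd + beta x.fst y.fst⟩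
  one := ⟨0, 0⟩
  inv x := ⟨-x.fst, -x.snd + beta x.fst x.fst⟩
  mul_assoc x y z := by
    apply D.ext
    · exact add_assoc _ _ _
    · funext i j
      change (x.snd i j + y.snd i j + co x.fst i * co y.fst j) + z.snd i j +
        co (x.fst + y.fst) i * co z.fst j =
        x.snd i j + (y.snd i j + z.snd i j + co y.fst i * co z.fst j) +
        co x.fst i * co (y.fst + z.fst) j
      rw [co_add, co_add]
      ring
  one_mul x := by
    apply D.ext
    · exact zero_add _
    · funext i j
      change 0 + x.snd i j + co 0 i * co x.fst j = x.snd i j
      rw [co_zero]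
      ring
  mul_one x := by
    apply D.ext
    · exact add_zero _
    · funext i j
      change x.snd i j + 0 + co x.fst i * co 0 j = x.snd i j
      rw [co_zero]
      ring
  inv_mul_cancel x := by
    apply D.ext
    · exact neg_add_cancel _
    · funext i j
      change (-x.snd i j + co x.fst i * co x.fst j) + x.snd i j + co (-x.fst) i * co x.fst j = 0
      rw [co_neg]
      ring

lemma mul_fst (x y : D) : (x * y).fst = x.fst + y.fst := rfl

lemma mul_snd (x y : D) : (x * y).snd = x.snd + y.snd + beta x.fst y.fst := rfl

lemma inv_fst (x : D) : (x⁻¹).fst = -x.fst := rfl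

lemma inv_snd (x : D) : (x⁻¹).snd = -x.snd + beta x.fst x.fst := rfl

lemma one_fst : (1 : D).fst = 0 := rfl

instance : IsTopologicalGroup D where
  continuous_mul := by
    apply cont_mk
    · exact (continuous_of_discreteTopology (f := fun p : V × V => p.1 + p.2)).comp
        ((cont_fst.comp continuous_fst).prodMk (cont_fst.comp continuous_snd))
    · refine Continuous.fun_add ?_ ?_
      · exact (cont_snd.comp continuous_fst).add (cont_snd.comp continuous_snd)
      · exact (continuous_of_discreteTopology (f := fun p : V × V => beta p.1 p.2)).comp
          ((cont_fst.comp continuous_fst).prodMk (cont_fst.comp continuous_snd))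
  continuous_inv := by
    apply cont_mk
    · exact (continuous_of_discreteTopology (f := fun p : V => -p)).comp cont_fst
    · refine Continuous.fun_add ?_ ?_
      · exact cont_snd.neg
      · exact (continuous_of_discreteTopology (f := fun p : V => beta p p)).comp cont_fst

instance : T2Space D := homeo.symm.t2Space

instance : LocallyCompactSpace D := homeo.isClosedEmbedding.locallyCompactSpace

/-- The group of the example. -/
abbrev G : Type := Circle × D

/-- The image in `V`. -/
def im (g : G) : V := g.2.fst

lemma cont_im : Continuous im := cont_fst.comp continuous_snd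

lemma im_mul (g h : G) : im (g * h) = im g + im h := rfl

lemma im_inv (g : G) : im g⁻¹ = - im g := rfl

lemma im_one : im 1 = 0 := rfl

/-- Preimages of finite sets of `V` are compact. -/
lemma compact_preimage {S : Set V} (hS : S.Finite) : IsCompact (im ⁻¹' S) := by
  have h1 : IsCompact (S ×ˢ (Set.univ : Set N)) := hS.isCompact.prod isCompact_univ
  have h2 : IsCompact (homeo ⁻¹' (S ×ˢ (Set.univ : Set N))) := by
    rw [← homeo.isCompact_image]
    rw [Set.image_preimage_eq _ homeo.surjective]
    exact h1
  have h3 : IsCompact ((Set.univ : Set Circle) ×ˢ (homeo ⁻¹' (S ×ˢ (Set.univ : Set N)))) :=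
    isCompact_univ.prod h2
  convert h3 using 1
  ext g
  simp only [Set.mem_preimage, Set.mem_prod, Set.mem_univ, true_and, and_true]
  rfl

lemma closed_preimage (S : Set V) : IsClosed (im ⁻¹' S) := (isClosed_discrete S).preimage cont_im

lemma compact_closure {K : Set G} {S : Set V} (hS : S.Finite) (hK : ∀ g ∈ K, im g ∈ S) :
    IsCompact (closure K) :=
  (compact_preimage hS).of_isClosed_subset isClosed_closure
    (closure_minimal hK (closed_preimage S))

/-- Elements over `0` are central. -/
lemma central {x : G} (hx : im x = 0) (g : G) : g * x * g⁻¹ = x := by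
  have hx' : x.2.fst = 0 := hx
  have h : g * x = x * g := by
    apply Prod.ext
    · exact mul_comm _ _
    · apply D.ext
      · exact add_comm _ _
      · change g.2.snd + x.2.snd + beta g.2.fst x.2.fst = x.2.snd + g.2.snd + beta x.2.fst g.2.fst
        rw [hx']
        funext i j
        change g.2.snd i j + x.2.snd i j + co g.2.fst i * co 0 j =
          x.2.snd i j + g.2.snd i j + co 0 i * co g.2.fst j
        rw [co_zero, co_zero]
        ring
  rw [h, mul_inv_cancel_right]

lemma F_cases (a : F) : a = 0 ∨ a = 1 := by
  change (show ZMod 2 from a) = 0 ∨ (show ZMod 2 from a) = 1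
  generalize (show ZMod 2 from a) = b
  revert b
  decide

/-- Commuting elements have parallel images in `V`. -/
lemma parallel {g h : G} (hc : g * h = h * g) (hg : im g ≠ 0) : im h = 0 ∨ im h = im g := by
  have h1 : ∀ i j, co (im g) i * co (im h) j = co (im h) i * co (im g) j := by
    intro i j
    have h2 := congrArg (fun x : G => x.2.snd i j) hc
    change g.2.snd i j + h.2.snd i j + co (im g) i * co (im h) j =
      h.2.snd i j + g.2.snd i j + co (im h) i * co (im g) j at h2
    linear_combination h2
  obtain ⟨i, hi⟩ : ∃ i, co (im g) i ≠ 0 := by
    by_contra hne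
    push Not at hne
    exact hg (co_ext fun i => by rw [hne i, co_zero])
  have hi1 : co (im g) i = 1 := (F_cases _).resolve_left hi
  have h2 : ∀ j, co (im h) j = co (im h) i * co (im g) j := by
    intro j
    have := h1 i j
    rwa [hi1, one_mul] at this
  rcases F_cases (co (im h) i) with h0 | h0
  · left
    apply co_ext
    intro j
    rw [h2 j, h0, zero_mul, co_zero]
  · right
    apply co_ext
    intro j
    rw [h2 j, h0, one_mul]

/-- The subgroup of the elements whose image in `V` is supported in `s`. -/
def Sub (s : Finset ℕ) : Subgroup G where
  carrier := {g | ∀ i, i ∉ s → co (im g) i = 0}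
  one_mem' := fun i _ => rfl
  mul_mem' := by
    intro g h hg hh i hi
    rw [im_mul, co_add, hg i hi, hh i hi, add_zero]
  inv_mem' := by
    intro g hg i hi
    rw [im_inv, co_neg, hg i hi, neg_zero]

lemma finite_supp (s : Finset ℕ) : {v : V | ∀ i, i ∉ s → co v i = 0}.Finite := by
  have : Function.Injective (fun (v : {v : V | ∀ i, i ∉ s → co v i = 0}) (i : s) => co v.1 i) := by
    intro v w hvw
    apply Subtype.ext
    apply co_ext
    intro i
    by_cases hi : i ∈ s
    · exact congrFun hvw ⟨i, hi⟩
    · rw [v.2 i hi, w.2 i hi]
  exact Finite.of_injective _ this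

/-- The negation of the preceding statement: A Hausdorff locally compact group with small invariant neighbourhoods, whose abelian subgroups have compact closure and whose relatively compact subsets generate relatively compact subgroups, is totally disconnected or compact. -/
theorem result :
    ¬ (∀ (G : Type) [Group G] [TopologicalSpace G] [IsTopologicalGroup G]
      [LocallyCompactSpace G] [T2Space G],
      (∀ U ∈ nhds (1 : G), ∃ V ∈ nhds (1 : G), V ⊆ U ∧
          ∀ g x : G, x ∈ V → g * x * g⁻¹ ∈ V) →
      (∀ H : Subgroup G, (∀ a ∈ H, ∀ b ∈ H, a * b = b * a) →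
          IsCompact (closure (H : Set G))) →
      (∀ K : Set G, IsCompact (closure K) →
          IsCompact (closure ((Subgroup.closure K : Subgroup G) : Set G))) →
      TotallyDisconnectedSpace G ∨ CompactSpace G) := by
  intro hall
  have key := hall G ?_ ?_ ?_
  · rcases key with htd | hc
    · have hcont : Continuous (fun t : ℝ => ((Circle.exp t, 1) : G)) :=
        Circle.exp.continuous.prodMk continuous_const
      have hpre : IsPreconnected (Set.range (fun t : ℝ => ((Circle.exp t, 1) : G))) :=
        isPreconnected_range hcont
      have hsub := htd.isTotallyDisconnected_univ _ (Set.subset_univ _) hpre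
      have h1 := hsub ⟨0, rfl⟩ ⟨Real.pi, rfl⟩
      have h2 : Circle.exp 0 = Circle.exp Real.pi := congrArg Prod.fst h1
      have h3 := congrArg (fun z : Circle => (z : ℂ)) h2
      simp at h3
      norm_num at h3
    · have h1 : IsCompact (im '' (Set.univ : Set G)) := isCompact_univ.image cont_im
      have h2 : (im '' (Set.univ : Set G)).Finite := h1.finite_of_discrete
      have h3 : Function.Surjective im := fun v => ⟨(1, ⟨v, 0⟩), rfl⟩
      rw [Set.image_univ, h3.range_eq] at h2
      have h4 : Infinite V := by
        apply Infinite.of_injective (fun n : ℕ => (show V from Finsupp.single n (1 : ZMod 2)))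
        intro m n hmn
        exact Finsupp.single_left_injective (one_ne_zero) hmn
      exact Set.infinite_univ h2
  · intro U hU
    refine ⟨U ∩ im ⁻¹' {0}, Filter.inter_mem hU ?_, Set.inter_subset_left, ?_⟩
    · apply IsOpen.mem_nhds
      · exact (isOpen_discrete _).preimage cont_im
      · exact im_one
    · intro g x hx
      rw [central hx.2 g]
      exact hx
  · intro H hH
    by_cases h0 : ∀ g ∈ H, im g = 0
    · exact compact_closure (Set.finite_singleton 0) h0
    · push Not at h0
      obtain ⟨g, hg, hg0⟩ := h0
      apply compact_closure (S := {0, im g}) (Set.toFinite _)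
      intro h hh
      exact parallel (hH g hg h hh) hg0
  · intro K hK
    have h1 : (im '' closure K).Finite := (hK.image cont_im).finite_of_discrete
    let s : Finset ℕ := h1.toFinset.biUnion (fun v => (show ℕ →₀ ZMod 2 from v).support)
    have h2 : K ⊆ (Sub s : Set G) := by
      intro g hg i hi
      by_contra hne
      apply hi
      rw [Finset.mem_biUnion]
      refine ⟨im g, ?_, ?_⟩
      · rw [Set.Finite.mem_toFinset]
        exact ⟨g, subset_closure hg, rfl⟩
      · rw [Finsupp.mem_support_iff]
        exact hne
    have h3 : Subgroup.closure K ≤ Sub s := (Subgroup.closure_le _).2 h2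
    exact compact_closure (finite_supp s) (fun g hg => h3 hg)

end Pool.Agent.S01554
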