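import Pool.Statements.S02012
import Pool.Agent.X251.Branch

set_option autoImplicit false
open Pool Pool.MP_79f901_al

namespace Pool.Agent.S02012

open Pool.Agent.X251.Branch

/-- the vertices of the binary tree as binary words -/
def toB (v : {l : List ℕ // ∀ i (h : i < l.length), l.get ⟨i, h⟩ < (fun _ : ℕ => 2) i}) : B :=
  v.1.map fun k => decide (k = 1)

def ofB (v : B) : {l : List ℕ // ∀ i (h : i < l.length), l.get ⟨i, h⟩ < (fun _ : ℕ => 2) i} :=
  ⟨v.map fun b => if b then 1 else 0, fun i h => by
    simp only [List.get_eq_getElem, List.getElem_map]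
    split_ifs <;> norm_num⟩

def e : {l : List ℕ // ∀ i (h : i < l.length), l.get ⟨i, h⟩ < (fun _ : ℕ => 2) i} ≃ B where
  toFun := toB
  invFun := ofB
  left_inv v := by
    apply Subtype.ext
    apply List.ext_getElem
    · simp [ofB, toB]
    · intro i h1 h2
      have h3 := v.2 i h2
      simp only [List.get_eq_getElem] at h3
      simp only [ofB, toB, List.getElem_map]
      generalize v.1[i] = k at h3
      interval_cases k <;> simp
  right_inv v := by
    apply List.ext_getElem
    · simp [ofB, toB]
    · intro i h1 h2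
      simp only [ofB, toB, List.getElem_map]
      cases v[i] <;> simp

theorem e_length (v : {l : List ℕ // ∀ i (h : i < l.length), l.get ⟨i, h⟩ < (fun _ : ℕ => 2) i}) :
    (e v).length = v.1.length := by
  change (toB v).length = _
  simp [toB]

theorem e_prefix (v w : {l : List ℕ // ∀ i (h : i < l.length), l.get ⟨i, h⟩ < (fun _ : ℕ => 2) i}) :
    List.IsPrefix v.1 w.1 ↔ List.IsPrefix (e v) (e w) := by
  constructor
  · intro h
    exact h.map _
  · intro h
    have h1 := h.map (fun b => if b then 1 else 0)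
    have h2 : ∀ v, (e v).map (fun b : Bool => if b then 1 else 0) = v.1 := fun v =>
      congrArg Subtype.val (e.left_inv v)
    rwa [h2, h2] at h1

/-- The negation of the preceding statement: For every branch group L acting on a spherically homogeneous rooted tree, every automorphism of L is conjugation by a unique tree automorphism, so Aut L equals the normalizer of L in Aut T. -/
theorem result :
    ¬ (∀ (m : ℕ → ℕ), (∀ n, 2 ≤ m n) →
    ∀ L : Subgroup (Equiv.Perm {l : List ℕ // ∀ i (h : i < l.length), l.get ⟨i, h⟩ < m i}),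
    (∀ g ∈ L, ∀ v w : {l : List ℕ // ∀ i (h : i < l.length), l.get ⟨i, h⟩ < m i},
        (List.IsPrefix v.1 w.1 ↔ List.IsPrefix (g v).1 (g w).1)) →
    (∀ v w : {l : List ℕ // ∀ i (h : i < l.length), l.get ⟨i, h⟩ < m i},
        v.1.length = w.1.length → ∃ g ∈ L, g v = w) →
    (∀ n : ℕ, ((Subgroup.closure
        {g : Equiv.Perm {l : List ℕ // ∀ i (h : i < l.length), l.get ⟨i, h⟩ < m i} |
          g ∈ L ∧ ∃ u : {l : List ℕ // ∀ i (h : i < l.length), l.get ⟨i, h⟩ < m i},
            u.1.length = n ∧
            ∀ v : {l : List ℕ // ∀ i (h : i < l.length), l.get ⟨i, h⟩ < m i},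
              ¬ List.IsPrefix u.1 v.1 → g v = v}).subgroupOf L).index ≠ 0) →
    ∀ φ : L ≃* L,
      ∃! σ : Equiv.Perm {l : List ℕ // ∀ i (h : i < l.length), l.get ⟨i, h⟩ < m i},
        (∀ v w : {l : List ℕ // ∀ i (h : i < l.length), l.get ⟨i, h⟩ < m i},
          (List.IsPrefix v.1 w.1 ↔ List.IsPrefix (σ v).1 (σ w).1)) ∧
        ∀ g : L, ((φ g : L) : Equiv.Perm {l : List ℕ // ∀ i (h : i < l.length), l.get ⟨i, h⟩ < m i})
          = σ * (g : Equiv.Perm {l : List ℕ // ∀ i (h : i < l.length), l.get ⟨i, h⟩ < m i}) * σ⁻¹) := by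
  intro H
  let E : Equiv.Perm B ≃* Equiv.Perm {l : List ℕ // ∀ i (h : i < l.length), l.get ⟨i, h⟩ < (fun _ : ℕ => 2) i} :=
    e.symm.permCongrHom
  have hE : ∀ (g : Equiv.Perm B) v, e (E g v) = g (e v) := by
    intro g v
    change e (e.symm (g (e v))) = _
    rw [Equiv.apply_symm_apply]
  have hEinj : Function.Injective E.toMonoidHom := E.injective
  obtain ⟨σ, ⟨hσ1, hσ2⟩, -⟩ := H (fun _ => 2) (fun _ => le_refl 2) (L.map E.toMonoidHom) (by
      rintro _ ⟨g, hg, rfl⟩ v w
      rw [e_prefix, e_prefix]
      have h1 := hg.1 (e v) (e w)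
      have h2 := hE g v
      have h3 := hE g w
      rw [h1]
      change _ ↔ e (E g v) <+: e (E g w)
      rw [h2, h3]) (by
      intro v w h
      obtain ⟨g, hg, h1⟩ := L_trans (e v) (e w) (by rw [e_length, e_length, h])
      refine ⟨E g, ⟨g, hg, rfl⟩, ?_⟩
      apply e.injective
      rw [hE, h1]) (by
      intro n
      have h1 : {g : Equiv.Perm {l : List ℕ // ∀ i (h : i < l.length), l.get ⟨i, h⟩ < (fun _ : ℕ => 2) i} |
          g ∈ L.map E.toMonoidHom ∧ ∃ u : {l : List ℕ // ∀ i (h : i < l.length), l.get ⟨i, h⟩ < (fun _ : ℕ => 2) i},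
            u.1.length = n ∧
            ∀ v : {l : List ℕ // ∀ i (h : i < l.length), l.get ⟨i, h⟩ < (fun _ : ℕ => 2) i},
              ¬ List.IsPrefix u.1 v.1 → g v = v} = E.toMonoidHom '' rgen n := by
        ext g'
        constructor
        · rintro ⟨⟨g, hg, rfl⟩, u, hu, h⟩
          refine ⟨g, ⟨hg, e u, by rw [e_length, hu], fun v hv => ?_⟩, rfl⟩
          have h3 := h (e.symm v) (fun h4 => hv (by
            have := (e_prefix _ _).1 h4
            rwa [Equiv.apply_symm_apply] at this))
          have h4 := congrArg e h3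
          have h5 := hE g (e.symm v)
          rw [Equiv.apply_symm_apply] at h4 h5
          exact h5.symm.trans h4
        · rintro ⟨g, ⟨hg, u, hu, h⟩, rfl⟩
          refine ⟨⟨g, hg, rfl⟩, e.symm u, ?_, fun v hv => ?_⟩
          · rw [← e_length, Equiv.apply_symm_apply, hu]
          · apply e.injective
            have h5 := hE g v
            refine h5.trans (h _ fun h6 => hv ?_)
            rw [e_prefix, Equiv.apply_symm_apply]
            exact h6
      rw [h1, ← MonoidHom.map_closure]
      have h2 := Subgroup.relIndex_map_map_of_injective (Subgroup.closure (rgen n)) L hEinj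
      change Subgroup.relIndex _ _ ≠ 0
      rw [h2]
      exact index_ne n) (((L.equivMapOfInjective E.toMonoidHom hEinj).symm.trans phi).trans
        (L.equivMapOfInjective E.toMonoidHom hEinj))
  apply no_sigma
  refine ⟨E.symm σ, fun v w => ?_, fun g => ?_⟩
  · have h1 := hσ1 (e.symm v) (e.symm w)
    rw [e_prefix, e_prefix, Equiv.apply_symm_apply, Equiv.apply_symm_apply] at h1
    exact h1
  · have h1 := hσ2 ((L.equivMapOfInjective E.toMonoidHom hEinj) g)
    simp only [MulEquiv.trans_apply, MulEquiv.symm_apply_apply, Subgroup.coe_equivMapOfInjective_apply] at h1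
    apply E.injective
    rw [map_mul, map_mul, map_inv, MulEquiv.apply_symm_apply]
    exact h1

end Pool.Agent.S02012
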