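import Pool.Statements.S02070
import Pool.Agent.X280.GL3.Ring
import Pool.Agent.X280.GL3.Comm

set_option autoImplicit false
open Pool Pool.MP_7ed69f_al

namespace Pool.Agent.S02070

open Pool.Agent.X280.GL3 in
/-- dimension set of primitive irreps of GL_3 over k[[t]] mod t^2, for a finite field k -/
theorem exists_rep (p : ℕ) [Fact p.Prime] (hp : 3 ≤ p) :
    ∃ (V : Type) (_ : AddCommGroup V) (_ : Module ℂ V)
        (ρ : Representation ℂ
          (Matrix.GeneralLinearGroup (Fin 3)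
            (PowerSeries (ZMod p) ⧸ IsLocalRing.maximalIdeal (PowerSeries (ZMod p)) ^ 2)) V),
        FiniteDimensional ℂ V ∧ Nontrivial V ∧
        (∀ W : Submodule ℂ V, (∀ g v, v ∈ W → ρ g v ∈ W) → W = ⊥ ∨ W = ⊤) ∧
        (∃ g : Matrix.GeneralLinearGroup (Fin 3)
            (PowerSeries (ZMod p) ⧸ IsLocalRing.maximalIdeal (PowerSeries (ZMod p)) ^ 2),
          (∀ i j, ∃ a ∈ IsLocalRing.maximalIdeal (PowerSeries (ZMod p)) ^ (2 - 1),
            g.val i j
              - (1 : Matrix (Fin 3) (Fin 3)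
                (PowerSeries (ZMod p) ⧸ IsLocalRing.maximalIdeal (PowerSeries (ZMod p)) ^ 2)) i j
              = Ideal.Quotient.mk (IsLocalRing.maximalIdeal (PowerSeries (ZMod p)) ^ 2) a)
            ∧ ρ g ≠ 1) ∧
        (Module.finrank ℂ V : ℤ) = (p : ℤ) ^ 3 * ((p : ℤ) + 1) * ((p : ℤ) ^ 2 + (p : ℤ) + 1) := by
  classical
  let d : Fin 3 → ZMod p := fun i => ((i : ℕ) : ZMod p)
  have hd : Function.Injective d := by
    intro i j h
    have h1 : ((i : ℕ) : ZMod p) = ((j : ℕ) : ZMod p) := h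
    rw [ZMod.natCast_eq_natCast_iff'] at h1
    rw [Nat.mod_eq_of_lt (by omega), Nat.mod_eq_of_lt (by omega)] at h1
    exact Fin.ext h1
  let β : CM (ZMod p) := ⟨Matrix.diagonal d⟩
  have hβ : β.val ≠ 0 := by
    intro h
    have h1 := congrFun (congrFun h 1) 1
    simp only [β, Matrix.diagonal_apply_eq, Matrix.zero_apply] at h1
    have h2 : d 1 = d 0 := by rw [h1]; simp [d]
    exact absurd (hd h2) (by decide)
  have hψ : ∃ c, (ZMod.stdAddChar (N := p)) c ≠ 1 := by
    have h := ZMod.isPrimitive_stdAddChar p (one_ne_zero)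
    rw [AddChar.ne_one_iff] at h
    obtain ⟨x, hx⟩ := h
    exact ⟨_, hx⟩
  refine ⟨Orb β → ℂ, inferInstance, inferInstance, rep (theExt (ZMod p)) ZMod.stdAddChar β,
    inferInstance, ?_, ?_, ?_, ?_⟩
  · have : Nonempty (Orb β) := ⟨⟨β, MulAction.mem_orbit_self β⟩⟩
    infer_instance
  · exact rep_irr _ _ hψ β
  · obtain ⟨X, hX⟩ := rep_tr_ne (theExt (ZMod p)) ZMod.stdAddChar hψ β hβ
    refine ⟨(theExt (ZMod p)).tr X, ?_, hX⟩
    intro i j
    refine ⟨PowerSeries.C (X i j) * PowerSeries.X, ?_, tr_val (ZMod p) X i j⟩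
    rw [show 2 - 1 = 1 from rfl, pow_one, PowerSeries.maximalIdeal_eq_span_X]
    exact Ideal.mul_mem_left _ _ (Ideal.mem_span_singleton_self _)
  · rw [Module.finrank_fintype_fun_eq_card, ← Nat.card_eq_fintype_card, card_orb d hd, ZMod.card]
    push_cast
    ring

open Pool.Agent.X280.GL3 in
/-- no irreducible representation of dimension 168 for k = F_2 -/
theorem no_rep (V : Type) [AddCommGroup V] [Module ℂ V]
    (ρ : Representation ℂ
      (Matrix.GeneralLinearGroup (Fin 3)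
        (PowerSeries (ZMod 2) ⧸ IsLocalRing.maximalIdeal (PowerSeries (ZMod 2)) ^ 2)) V)
    [FiniteDimensional ℂ V] [Nontrivial V]
    (hirr : ∀ W : Submodule ℂ V, (∀ g v, v ∈ W → ρ g v ∈ W) → W = ⊥ ∨ W = ⊤) :
    Module.finrank ℂ V < 168 := by
  have hψ : ∃ c, (ZMod.stdAddChar (N := 2)) c ≠ 1 := by
    have h := ZMod.isPrimitive_stdAddChar 2 (one_ne_zero)
    rw [AddChar.ne_one_iff] at h
    obtain ⟨x, hx⟩ := h
    exact ⟨_, hx⟩
  have h := upper (theExt (ZMod 2)) ρ hirr ZMod.stdAddChar hψ comm_two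
  have hc : Nat.card (Matrix.GeneralLinearGroup (Fin 3) (ZMod 2)) = 168 := by
    rw [Matrix.card_GL_field, Fin.prod_univ_three, ZMod.card]
    rfl
  rwa [hc] at h

theorem card_res (p : ℕ) [Fact p.Prime] :
    Nat.card (IsLocalRing.ResidueField (PowerSeries (ZMod p))) = p := by
  rw [Nat.card_congr (PowerSeries.residueFieldOfPowerSeries (k := ZMod p)).toEquiv, Nat.card_zmod]

/-- The negation of the preceding statement: For all N,r ≥ 2 there is a finite set of integer polynomials of degree ≤ C(N,2)·r whose values at q are exactly the dimensions of irreducible complex reps of GL_N(o/p^r) nontrivial on the level-(r−1) kernel, for every compact DVR o. -/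
theorem result :
    ¬ (∀ N r : ℕ, 2 ≤ N → 2 ≤ r →
    ∃ P : Finset (Polynomial ℤ), (∀ d ∈ P, d.natDegree ≤ N.choose 2 * r) ∧
    ∀ (R : Type) [CommRing R] [IsDomain R] [IsDiscreteValuationRing R]
      [Finite (IsLocalRing.ResidueField R)]
      [IsAdicComplete (IsLocalRing.maximalIdeal R) R],
    {z : ℤ | ∃ (V : Type) (_ : AddCommGroup V) (_ : Module ℂ V)
        (ρ : Representation ℂ
          (Matrix.GeneralLinearGroup (Fin N) (R ⧸ IsLocalRing.maximalIdeal R ^ r)) V),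
        FiniteDimensional ℂ V ∧ Nontrivial V ∧
        (∀ W : Submodule ℂ V, (∀ g v, v ∈ W → ρ g v ∈ W) → W = ⊥ ∨ W = ⊤) ∧
        (∃ g : Matrix.GeneralLinearGroup (Fin N) (R ⧸ IsLocalRing.maximalIdeal R ^ r),
          (∀ i j, ∃ a ∈ IsLocalRing.maximalIdeal R ^ (r - 1),
            g.val i j
              - (1 : Matrix (Fin N) (Fin N) (R ⧸ IsLocalRing.maximalIdeal R ^ r)) i j
              = Ideal.Quotient.mk (IsLocalRing.maximalIdeal R ^ r) a) ∧ ρ g ≠ 1) ∧
        (Module.finrank ℂ V : ℤ) = z}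
    = (fun d : Polynomial ℤ => d.eval (Nat.card (IsLocalRing.ResidueField R) : ℤ)) ''
        (P : Set (Polynomial ℤ))) := by
  intro h
  obtain ⟨P, -, hP⟩ := h 3 2 (by norm_num) (by norm_num)
  have hfin : ∀ (p : ℕ) [Fact p.Prime], Finite (IsLocalRing.ResidueField (PowerSeries (ZMod p))) := by
    intro p _
    exact Finite.of_equiv _ (PowerSeries.residueFieldOfPowerSeries (k := ZMod p)).toEquiv.symm
  have hcomp : ∀ (p : ℕ) [Fact p.Prime],
      IsAdicComplete (IsLocalRing.maximalIdeal (PowerSeries (ZMod p))) (PowerSeries (ZMod p)) := by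
    intro p _
    rw [PowerSeries.maximalIdeal_eq_span_X]
    infer_instance
  let F : Polynomial ℤ := Polynomial.X ^ 3 * (Polynomial.X + 1) * (Polynomial.X ^ 2 + Polynomial.X + 1)
  have hF : ∀ z : ℤ, F.eval z = z ^ 3 * (z + 1) * (z ^ 2 + z + 1) := by
    intro z
    simp [F]
  have key : ∀ p ∈ {p : ℕ | p.Prime ∧ 3 ≤ p}, ∃ d ∈ P, d.eval (p : ℤ) = F.eval (p : ℤ) := by
    rintro p ⟨hp, hp3⟩
    haveI : Fact p.Prime := ⟨hp⟩
    haveI := hfin p
    haveI := hcomp p
    have h1 := hP (PowerSeries (ZMod p))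
    have h2 : F.eval (p : ℤ) ∈ (fun d : Polynomial ℤ =>
        d.eval (Nat.card (IsLocalRing.ResidueField (PowerSeries (ZMod p))) : ℤ)) ''
        (P : Set (Polynomial ℤ)) := by
      rw [← h1]
      obtain ⟨V, i1, i2, ρ, a1, a2, a3, a4, a5⟩ := exists_rep p hp3
      exact ⟨V, i1, i2, ρ, a1, a2, a3, a4, by rw [a5, hF]⟩
    obtain ⟨d, hd, hd2⟩ := h2
    refine ⟨d, hd, ?_⟩
    simp only [card_res] at hd2
    exact hd2
  have hinf : {p : ℕ | p.Prime ∧ 3 ≤ p}.Infinite := by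
    have h1 := Nat.infinite_setOf_prime
    have h2 : {p : ℕ | p.Prime ∧ 3 ≤ p} = {p : ℕ | p.Prime} \ {p : ℕ | p < 3} := by
      ext p
      simp
    rw [h2]
    exact h1.diff (Set.finite_lt_nat 3)
  obtain ⟨d, hdP, hdinf⟩ : ∃ d ∈ P, {p : ℕ | (p.Prime ∧ 3 ≤ p) ∧
      d.eval (p : ℤ) = F.eval (p : ℤ)}.Infinite := by
    by_contra hcon
    push Not at hcon
    apply hinf
    have : {p : ℕ | p.Prime ∧ 3 ≤ p} ⊆ ⋃ d ∈ P, {p : ℕ | (p.Prime ∧ 3 ≤ p) ∧
        d.eval (p : ℤ) = F.eval (p : ℤ)} := by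
      intro p hp
      obtain ⟨d, hd, hd2⟩ := key p hp
      simp only [Set.mem_iUnion]
      exact ⟨d, hd, hp, hd2⟩
    refine Set.Finite.subset ?_ this
    exact Set.Finite.biUnion P.finite_toSet fun d hd => (hcon d hd)
  have hdF : d = F := by
    apply Polynomial.eq_of_infinite_eval_eq
    refine Set.Infinite.mono ?_ (hdinf.image (Nat.cast_injective (R := ℤ)).injOn)
    rintro _ ⟨p, hp, rfl⟩
    exact hp.2
  haveI : Fact (Nat.Prime 2) := ⟨Nat.prime_two⟩
  haveI := hfin 2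
  haveI := hcomp 2
  have h1 := hP (PowerSeries (ZMod 2))
  have h2 : (168 : ℤ) ∈ (fun d : Polynomial ℤ =>
        d.eval (Nat.card (IsLocalRing.ResidueField (PowerSeries (ZMod 2))) : ℤ)) ''
        (P : Set (Polynomial ℤ)) := by
    refine ⟨d, hdP, ?_⟩
    simp only [card_res]
    rw [hdF, hF]
    norm_num
  rw [← h1] at h2
  obtain ⟨V, i1, i2, ρ, a1, a2, a3, a4, a5⟩ := h2
  have h3 := no_rep V ρ a3
  omega

end Pool.Agent.S02070
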