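import Pool.Statements.S02286

set_option autoImplicit false
open Pool Pool.MP_91b10e_al

namespace Pool.Agent.S02286

open Monoid

/-- The Zariski topology as generated in the statement. -/
abbrev zar (G : Type) [Group G] : TopologicalSpace G :=
  (TopologicalSpace.generateFrom
          {U : Set G | ∃ w : Monoid.Coprod G (Multiplicative ℤ),
            U = {x : G | Monoid.Coprod.lift (MonoidHom.id G) (zpowersHom G x) w ≠ 1}})

lemma le_zar (G : Type) [Group G] [t : TopologicalSpace G] [IsTopologicalGroup G] [T2Space G] :
    t ≤ zar G := by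
  refine le_generateFrom ?_
  rintro U ⟨w, rfl⟩
  have hc : Continuous fun x : G => Monoid.Coprod.lift (MonoidHom.id G) (zpowersHom G x) w := by
    induction w using Monoid.Coprod.induction_on with
    | inl g => simpa using continuous_const
    | inr n =>
      simp only [Monoid.Coprod.lift_apply_inr, zpowersHom_apply]
      exact continuous_zpow _
    | mul a b ha hb =>
      simp only [map_mul]
      exact ha.mul hb
  exact isOpen_ne_fun hc continuous_const

/-- The swap. -/
def tau : Equiv.Perm (Fin 3) := Equiv.swap 0 1
/-- A non commuting element. -/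
def sig : Equiv.Perm (Fin 3) := Equiv.swap 1 2

/-- The group elements. -/
def gg (n : ℕ) : ℕ → Equiv.Perm (Fin 3) := fun i => if i < n then tau else 1

/-- The negation of the preceding statement: For every group G, if the Zariski topology (closed subbasis: solution sets of one-variable equations with constants from G) is compact, then it is Noetherian. -/
theorem result :
    ¬ (∀ (G : Type) [Group G],
      @IsCompact G
        (TopologicalSpace.generateFrom
          {U : Set G | ∃ w : Monoid.Coprod G (Multiplicative ℤ),
            U = {x : G | Monoid.Coprod.lift (MonoidHom.id G) (zpowersHom G x) w ≠ 1}})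
        Set.univ →
      @TopologicalSpace.NoetherianSpace G
        (TopologicalSpace.generateFrom
          {U : Set G | ∃ w : Monoid.Coprod G (Multiplicative ℤ),
            U = {x : G | Monoid.Coprod.lift (MonoidHom.id G) (zpowersHom G x) w ≠ 1}})) := by
  intro H
  let P := Equiv.Perm (Fin 3)
  letI tP : TopologicalSpace P := ⊥
  haveI : DiscreteTopology P := ⟨rfl⟩
  haveI : IsTopologicalGroup P := inferInstance
  have h1 : @IsCompact (ℕ → P) (zar (ℕ → P)) Set.univ := by
    have hle : (Pi.topologicalSpace : TopologicalSpace (ℕ → P)) ≤ zar (ℕ → P) := le_zar (ℕ → P)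
    have hc : @Continuous (ℕ → P) (ℕ → P) Pi.topologicalSpace (zar (ℕ → P)) id :=
      continuous_id_iff_le.2 hle
    have := @IsCompact.image (ℕ → P) (ℕ → P) Pi.topologicalSpace (zar (ℕ → P)) Set.univ id
      isCompact_univ hc
    simpa using this
  have h2 := H (ℕ → P) h1
  change @TopologicalSpace.NoetherianSpace (ℕ → P) (zar (ℕ → P)) at h2
  letI : TopologicalSpace (ℕ → P) := zar (ℕ → P)
  have h3 : WellFoundedGT (TopologicalSpace.Opens (ℕ → P)) := h2
  let U : ℕ → TopologicalSpace.Opens (ℕ → P) := fun n =>
    ⟨{x | Monoid.Coprod.lift (MonoidHom.id (ℕ → P)) (zpowersHom (ℕ → P) x)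
      (Coprod.inl (gg n) * Coprod.inr (Multiplicative.ofAdd 1) * Coprod.inl (gg n)⁻¹ *
        Coprod.inr (Multiplicative.ofAdd (-1))) ≠ 1},
      TopologicalSpace.isOpen_generateFrom_of_mem ⟨_, rfl⟩⟩
  have hU : ∀ n x, x ∈ U n ↔ ∃ i < n, tau * x i ≠ x i * tau := by
    intro n x
    change Monoid.Coprod.lift (MonoidHom.id (ℕ → P)) (zpowersHom (ℕ → P) x)
      (Coprod.inl (gg n) * Coprod.inr (Multiplicative.ofAdd 1) * Coprod.inl (gg n)⁻¹ *
        Coprod.inr (Multiplicative.ofAdd (-1))) ≠ 1 ↔ _
    simp only [map_mul, Monoid.Coprod.lift_apply_inl, Monoid.Coprod.lift_apply_inr,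
      MonoidHom.id_apply, zpowersHom_apply, toAdd_ofAdd, zpow_one, zpow_neg]
    rw [Ne, ← not_iff_not, not_not, mul_inv_eq_one, mul_inv_eq_iff_eq_mul, funext_iff]
    push Not
    constructor
    · intro h i hi
      have := h i
      simpa [gg, hi] using this
    · intro h i
      by_cases hi : i < n
      · simpa [gg, hi] using h i hi
      · simp [gg, hi]
  have hmono : StrictMono U := by
    refine strictMono_nat_of_lt_succ fun n => ?_
    refine lt_of_le_of_ne ?_ ?_
    · intro x hx
      have hx' := (hU n x).1 hx
      obtain ⟨i, hi, h⟩ := hx'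
      exact (hU (n+1) x).2 ⟨i, hi.trans (Nat.lt_succ_self n), h⟩
    · intro heq
      have hx : (fun i => if i = n then sig else 1 : ℕ → P) ∈ U (n+1) := by
        rw [hU]
        refine ⟨n, Nat.lt_succ_self n, ?_⟩
        simp only [if_true]
        decide
      rw [← heq, hU] at hx
      obtain ⟨i, hi, h⟩ := hx
      have : i ≠ n := hi.ne
      simp [this] at h
  exact not_strictMono_of_wellFoundedGT U hmono

end Pool.Agent.S02286
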