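import Pool.Statements.S02558
-- import your own Pool.Agent.* helpers here
import Pool.Agent.X283.TGH.StepA

set_option autoImplicit false
open Pool Pool.MP_a2d0bb_al

namespace Pool.Agent.S02558

/-- The underlying permutation of an order automorphism, as a group homomorphism. -/
def toPermHom : (ℝ ≃o ℝ) →* Equiv.Perm ℝ where
  toFun f := f.toEquiv
  map_one' := rfl
  map_mul' _ _ := rfl

/-- The negation of the preceding statement: There is a countable set of increasing homeomorphisms of the real line that is not contained in the subgroup generated by any two increasing homeomorphisms of the real line. -/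
theorem result :
    ¬ (∃ S : Set (Equiv.Perm ℝ), S.Countable ∧ (∀ σ ∈ S, StrictMono ⇑σ) ∧
      ∀ f g : Equiv.Perm ℝ, StrictMono ⇑f → StrictMono ⇑g →
        ¬ S ⊆ (Subgroup.closure ({f, g} : Set (Equiv.Perm ℝ)) : Set (Equiv.Perm ℝ))) := by
  rintro ⟨S, hS, hmono, h⟩
  rcases S.eq_empty_or_nonempty with rfl | hne
  · exact h 1 1 strictMono_id strictMono_id (Set.empty_subset _)
  · obtain ⟨σ, hσ⟩ := hS.exists_eq_range hne
    have hm : ∀ k, StrictMono (σ k) := fun k => hmono _ (by rw [hσ]; exact ⟨k, rfl⟩)
    obtain ⟨a, b, hab⟩ := Pool.Agent.X283.TGH.countable_two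
      (fun k => ⟨σ k, fun {x y} => (hm k).le_iff_le⟩)
    refine h (toPermHom a) (toPermHom b) a.strictMono b.strictMono ?_
    rw [hσ]
    rintro _ ⟨k, rfl⟩
    have h1 := Subgroup.mem_map_of_mem toPermHom (hab k)
    rw [MonoidHom.map_closure, Set.image_pair] at h1
    exact h1

end Pool.Agent.S02558
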