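import Pool.Statements.S02604
import Pool.Agent.H749R3.Coarse

set_option autoImplicit false
open Pool Pool.MP_a7957c_al

namespace Pool.Agent.S02604

/-- The negation of the preceding statement: For distinct n, m ≥ 2, the full box space of the rank-n free group (disjoint union of all its finite quotients with word metrics, components pushed apart) is coarsely equivalent to that of the rank-m free group. -/
theorem result :
    ¬ (∀ d : (k : ℕ) →
      ({N : Subgroup (FreeGroup (Fin k)) // N.Normal ∧ N.FiniteIndex} × FreeGroup (Fin k)) →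
      ({N : Subgroup (FreeGroup (Fin k)) // N.Normal ∧ N.FiniteIndex} × FreeGroup (Fin k)) → ℕ,
    (∀ (k : ℕ) (p q : {N : Subgroup (FreeGroup (Fin k)) // N.Normal ∧ N.FiniteIndex} × FreeGroup (Fin k)),
        p.1 = q.1 →
        d k p q = sInf {r : ℕ | ∃ g : FreeGroup (Fin k),
          g⁻¹ * p.2⁻¹ * q.2 ∈ p.1.val ∧ (FreeGroup.toWord g).length = r}) →
    (∀ (k : ℕ) (p q : {N : Subgroup (FreeGroup (Fin k)) // N.Normal ∧ N.FiniteIndex} × FreeGroup (Fin k)),
        p.1 ≠ q.1 → d k p q = p.1.val.index + q.1.val.index) →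
    ∀ n m : ℕ, 2 ≤ n → 2 ≤ m → n ≠ m →
      ∃ f : ({N : Subgroup (FreeGroup (Fin n)) // N.Normal ∧ N.FiniteIndex} × FreeGroup (Fin n)) →
            ({N : Subgroup (FreeGroup (Fin m)) // N.Normal ∧ N.FiniteIndex} × FreeGroup (Fin m)),
      ∃ h : ({N : Subgroup (FreeGroup (Fin m)) // N.Normal ∧ N.FiniteIndex} × FreeGroup (Fin m)) →
            ({N : Subgroup (FreeGroup (Fin n)) // N.Normal ∧ N.FiniteIndex} × FreeGroup (Fin n)),
        (∀ R : ℕ, ∃ S : ℕ, ∀ p q, d n p q ≤ R → d m (f p) (f q) ≤ S) ∧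
        (∀ R : ℕ, ∃ S : ℕ, ∀ p q, d m p q ≤ R → d n (h p) (h q) ≤ S) ∧
        (∃ C : ℕ, ∀ p, d n (h (f p)) p ≤ C) ∧
        (∃ C : ℕ, ∀ q, d m (f (h q)) q ≤ C)) := by
  intro H
  classical
  let D : (k : ℕ) →
      ({N : Subgroup (FreeGroup (Fin k)) // N.Normal ∧ N.FiniteIndex} × FreeGroup (Fin k)) →
      ({N : Subgroup (FreeGroup (Fin k)) // N.Normal ∧ N.FiniteIndex} × FreeGroup (Fin k)) → ℕ :=
    fun k p q => if p.1 = q.1 then sInf {r : ℕ | ∃ g : FreeGroup (Fin k),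
          g⁻¹ * p.2⁻¹ * q.2 ∈ p.1.val ∧ (FreeGroup.toWord g).length = r}
      else p.1.val.index + q.1.val.index
  have hD : ∀ k, H749.Box.IsBox k (D k) := by
    intro k
    exact ⟨fun p q h => if_pos h, fun p q h => if_neg h⟩
  obtain ⟨f, h, h1, h2, ⟨C1, hC1⟩, ⟨C2, hC2⟩⟩ := H D (fun k p q h => if_pos h)
    (fun k p q h => if_neg h) 3 2 (by norm_num) (by norm_num) (by norm_num)
  obtain ⟨S1, hS1⟩ := h1 1
  obtain ⟨S2, hS2⟩ := h2 1
  exact H749.Box.no_coarse_lt (m := 3) (n := 2) (by norm_num) (by norm_num) (D 3) (D 2)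
    (hD 3) (hD 2) f h (S1 + S2 + C1 + C2)
    (fun p q hpq => (hS1 p q hpq).trans (by omega))
    (fun p q hpq => (hS2 p q hpq).trans (by omega))
    (fun p => (hC1 p).trans (by omega)) (fun q => (hC2 q).trans (by omega))

end Pool.Agent.S02604
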