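import Pool.Statements.S02883
import Pool.Agent.TH82.PC.Am

set_option autoImplicit false
open scoped Pointwise
open Pool Pool.MP_bb8083_al

namespace Pool.Agent.S02883

/-- For every group G and every partition of G into n pairwise disjoint sets, some cell A has (A·A⁻¹) raised to the power 4^(n−1) equal to a subgroup of G of finite index at most n. -/
theorem result :
    ∀ (G : Type) [Group G] (n : ℕ) (A : Fin n → Set G),
      Pairwise (fun i j => Disjoint (A i) (A j)) →
      (⋃ i, A i) = Set.univ →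
      ∃ i : Fin n, ∃ H : Subgroup G,
        ((A i * (A i)⁻¹) ^ (4 ^ (n - 1)) : Set G) = (H : Set G) ∧
        H.index ≠ 0 ∧ H.index ≤ n := by
  intro G _ n A _ hA
  have hpow : ∀ m : ℕ, 3 ≤ m → 3 * m / 2 + 1 ≤ 4 ^ (m - 1) := by
    intro m hm
    obtain ⟨l, rfl⟩ : ∃ l, m = l + 1 := ⟨m - 1, by omega⟩
    rw [Nat.add_sub_cancel]
    have h2 : ∀ l : ℕ, 2 ≤ l → 3 * (l + 1) + 2 ≤ 2 * 4 ^ l := by
      intro l hl
      induction l, hl using Nat.le_induction with
      | base => norm_num
      | succ l hl ih => rw [pow_succ]; omega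
    have := h2 l (by omega)
    omega
  by_cases hn : n ≤ 2
  · interval_cases n
    · have h : (1 : G) ∈ ⋃ i, A i := by rw [hA]; trivial
      obtain ⟨i, -⟩ := Set.mem_iUnion.1 h
      exact i.elim0
    · obtain ⟨i, H, h1, h2, h3⟩ := Pool.Agent.TH82.PC.cover_one A hA
      exact ⟨i, H, h3 _ ((Nat.div_le_self _ _).trans (by norm_num)), h1, h2⟩
    · obtain ⟨i, H, h1, h2, h3⟩ := Pool.Agent.TH82.PC.cover_two A hA
      exact ⟨i, H, h3 _ ((Nat.div_le_self _ _).trans (by norm_num)), h1, h2⟩
  · obtain ⟨i, H, h1, h2, h3⟩ := Pool.Agent.TH82.PC.cover_general n A hA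
    refine ⟨i, H, h3 _ ?_, h1, h2⟩
    refine le_trans ?_ (hpow n (by omega))
    have : n / H.index ≤ n := Nat.div_le_self _ _
    omega

end Pool.Agent.S02883
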