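import Pool.Statements.S03067

set_option autoImplicit false
open Pool Pool.MP_cc18b0_al

namespace Pool.Agent.S03067

/-- The annihilator of a subgroup in the group of characters with values in `ℚ/ℤ`. -/
def ann {A : Type} [AddCommGroup A] (H : AddSubgroup A) : AddSubgroup (CharacterModule A) where
  carrier := {χ | ∀ h ∈ H, χ h = 0}
  add_mem' := by
    intro a b ha hb h hh
    have := ha h hh
    have := hb h hh
    change a h + b h = 0
    simp_all
  zero_mem' := by
    intro h _
    rfl
  neg_mem' := by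
    intro a ha h hh
    change - a h = 0
    simp [ha h hh]

theorem mem_ann {A : Type} [AddCommGroup A] (H : AddSubgroup A) (χ : CharacterModule A) :
    χ ∈ ann H ↔ ∀ h ∈ H, χ h = 0 := Iff.rfl

/-- A character vanishing on `H ⊓ K` is a sum of characters vanishing on `H` and on `K`. -/
theorem split {A : Type} [AddCommGroup A] (H K : AddSubgroup A) (χ : CharacterModule A)
    (hχ : χ ∈ ann (H ⊓ K)) : χ ∈ ann H ⊔ ann K := by
  -- embedding of the quotient by the intersection
  let q : A →+ (A ⧸ H) × (A ⧸ K) :=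
    (QuotientAddGroup.mk' H).prod (QuotientAddGroup.mk' K)
  have hker : ∀ a, q a = 0 ↔ a ∈ H ⊓ K := by
    intro a
    simp [q, Prod.ext_iff, QuotientAddGroup.eq_zero_iff]
  let g : (A ⧸ (H ⊓ K)) →+ (A ⧸ H) × (A ⧸ K) :=
    QuotientAddGroup.lift (H ⊓ K) q (fun a ha => (hker a).2 ha)
  have hg : Function.Injective g.toIntLinearMap := by
    rw [injective_iff_map_eq_zero]
    intro x hx
    obtain ⟨a, rfl⟩ := QuotientAddGroup.mk'_surjective _ x
    have h1 : q a = 0 := hx
    rw [hker] at h1
    exact (QuotientAddGroup.eq_zero_iff a).2 h1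
  let c : CharacterModule (A ⧸ (H ⊓ K)) :=
    (QuotientAddGroup.lift (H ⊓ K) (χ : A →+ AddCircle (1 : ℚ)) (fun a ha => hχ a ha) : _ →+ _)
  obtain ⟨ψ, hψ⟩ := CharacterModule.dual_surjective_of_injective _ hg c
  have key : ∀ a : A, ψ (q a) = χ a := by
    intro a
    have := congrArg (fun d : CharacterModule (A ⧸ (H ⊓ K)) => d (QuotientAddGroup.mk a)) hψ
    exact this
  let χ₁ : CharacterModule A :=
    ((ψ : (A ⧸ H) × (A ⧸ K) →+ AddCircle (1 : ℚ)).comp
      ((QuotientAddGroup.mk' H).prod (0 : A →+ (A ⧸ K))) : _ →+ _)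
  let χ₂ : CharacterModule A :=
    ((ψ : (A ⧸ H) × (A ⧸ K) →+ AddCircle (1 : ℚ)).comp
      ((0 : A →+ (A ⧸ H)).prod (QuotientAddGroup.mk' K)) : _ →+ _)
  have hsum : χ = χ₁ + χ₂ := by
    ext a
    have h1 : (χ₁ + χ₂) a = χ₁ a + χ₂ a := rfl
    have h2 : χ₁ a = ψ ((QuotientAddGroup.mk a : A ⧸ H), (0 : A ⧸ K)) := rfl
    have h3 : χ₂ a = ψ ((0 : A ⧸ H), (QuotientAddGroup.mk a : A ⧸ K)) := rfl
    have h4 : q a = ((QuotientAddGroup.mk a : A ⧸ H), (0 : A ⧸ K)) +
        ((0 : A ⧸ H), (QuotientAddGroup.mk a : A ⧸ K)) := by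
      simp [q]
    rw [h1, h2, h3, ← key a, h4, map_add]
  rw [hsum]
  refine add_mem (AddSubgroup.mem_sup_left ?_) (AddSubgroup.mem_sup_right ?_)
  · intro h hh
    have h2 : χ₁ h = ψ ((QuotientAddGroup.mk h : A ⧸ H), (0 : A ⧸ K)) := rfl
    rw [h2, (QuotientAddGroup.eq_zero_iff h).2 hh]
    exact map_zero ψ
  · intro h hh
    have h3 : χ₂ h = ψ ((0 : A ⧸ H), (QuotientAddGroup.mk h : A ⧸ K)) := rfl
    rw [h3, (QuotientAddGroup.eq_zero_iff h).2 hh]
    exact map_zero ψ

theorem ann_inf {A : Type} [AddCommGroup A] (H K : AddSubgroup A) :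
    ann (H ⊓ K) = ann H ⊔ ann K := by
  apply le_antisymm
  · intro χ hχ
    exact split H K χ hχ
  · apply sup_le
    · intro χ hχ h hh
      exact hχ h hh.1
    · intro χ hχ h hh
      exact hχ h hh.2

theorem ann_sup {A : Type} [AddCommGroup A] (H K : AddSubgroup A) :
    ann (H ⊔ K) = ann H ⊓ ann K := by
  apply le_antisymm
  · intro χ hχ
    exact ⟨fun h hh => hχ h (AddSubgroup.mem_sup_left hh),
      fun h hh => hχ h (AddSubgroup.mem_sup_right hh)⟩
  · rintro χ ⟨h1, h2⟩ a ha
    obtain ⟨x, hx, y, hy, rfl⟩ := AddSubgroup.mem_sup.1 ha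
    rw [map_add, h1 x hx, h2 y hy, add_zero]

theorem ann_injective {A : Type} [AddCommGroup A] :
    Function.Injective (ann : AddSubgroup A → AddSubgroup (CharacterModule A)) := by
  have main : ∀ H K : AddSubgroup A, ann H ≤ ann K → K ≤ H := by
    intro H K h a ha
    by_contra hna
    have hne : (QuotientAddGroup.mk a : A ⧸ H) ≠ 0 := by
      rw [Ne, QuotientAddGroup.eq_zero_iff]
      exact hna
    obtain ⟨c, hc⟩ := CharacterModule.exists_character_apply_ne_zero_of_ne_zero hne
    let χ : CharacterModule A :=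
      ((c : (A ⧸ H) →+ AddCircle (1 : ℚ)).comp (QuotientAddGroup.mk' H) : _ →+ _)
    have hχ : χ ∈ ann H := by
      intro h hh
      have : χ h = c (QuotientAddGroup.mk h : A ⧸ H) := rfl
      rw [this, (QuotientAddGroup.eq_zero_iff h).2 hh]
      exact map_zero c
    exact hc (h hχ a ha)
  intro H K h
  exact le_antisymm (main K H h.ge) (main H K h.le)

/-- For every lattice L, if L embeds as a lattice into the subgroup lattice of some abelian group, then its order dual also embeds as a lattice into the subgroup lattice of some abelian group. -/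
theorem result :
    ∀ (L : Type) [Lattice L],
      (∃ (A : Type) (_ : AddCommGroup A), ∃ f : LatticeHom L (AddSubgroup A), Function.Injective f) →
      (∃ (B : Type) (_ : AddCommGroup B), ∃ g : LatticeHom Lᵒᵈ (AddSubgroup B), Function.Injective g) := by
  rintro L _ ⟨A, hA, f, hf⟩
  refine ⟨CharacterModule A, inferInstance,
    { toFun := fun x => ann (f (OrderDual.ofDual x))
      map_sup' := ?_
      map_inf' := ?_ }, ?_⟩
  · intro a b
    have : f (OrderDual.ofDual (a ⊔ b)) =
        f (OrderDual.ofDual a) ⊓ f (OrderDual.ofDual b) := by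
      rw [ofDual_sup, map_inf]
    rw [this, ann_inf]
  · intro a b
    have : f (OrderDual.ofDual (a ⊓ b)) =
        f (OrderDual.ofDual a) ⊔ f (OrderDual.ofDual b) := by
      rw [ofDual_inf, map_sup]
    rw [this, ann_sup]
  · intro a b hab
    exact OrderDual.ofDual.injective (hf (ann_injective hab))

end Pool.Agent.S03067
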