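import Pool.Statements.S03154
import Pool.Agent.X196.FA.Gol
import Pool.Agent.X196.FA.Tree
import Pool.Agent.X196.FA.Chain
import Pool.Agent.X196.FA.Main

set_option autoImplicit false
open Pool Pool.MP_d2e081_al

namespace Pool.Agent.S03154

/-- The negation of the preceding statement: For residually finite groups G, H and injective u: G→H inducing an isomorphism of profinite completions (given via finite-index normal subgroups), if every inversion-free action of G on a tree has a fixed vertex, the same holds for H. -/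
theorem result :
    ¬ (∀ (G H : Type) [Group G] [Group H] (u : G →* H),
      (∀ g : G, g ≠ 1 → ∃ N : Subgroup G, N.Normal ∧ N.index ≠ 0 ∧ g ∉ N) →
      (∀ h : H, h ≠ 1 → ∃ M : Subgroup H, M.Normal ∧ M.index ≠ 0 ∧ h ∉ M) →
      Function.Injective u →
      (∀ N : Subgroup G, N.Normal → N.index ≠ 0 →
        ∃ M : Subgroup H, M.Normal ∧ M.index ≠ 0 ∧ M.comap u ≤ N) →
      (∀ M : Subgroup H, M.Normal → M.index ≠ 0 →
        ∀ h : H, ∃ g : G, ∃ m ∈ M, h = u g * m) →
      (∀ (V : Type) [MulAction G V] (T : SimpleGraph V), T.IsTree →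
        (∀ g : G, ∀ x y : V, T.Adj x y → T.Adj (g • x) (g • y)) →
        (∀ g : G, ∀ x y : V, T.Adj x y → ¬ (g • x = y ∧ g • y = x)) →
        ∃ v : V, ∀ g : G, g • v = v) →
      (∀ (V : Type) [MulAction H V] (T : SimpleGraph V), T.IsTree →
        (∀ h : H, ∀ x y : V, T.Adj x y → T.Adj (h • x) (h • y)) →
        (∀ h : H, ∀ x y : V, T.Adj x y → ¬ (h • x = y ∧ h • y = x)) →
        ∃ v : V, ∀ h : H, h • v = v)) := by
  intro hall
  have : Fact (Nat.Prime 2) := ⟨Nat.prime_two⟩
  obtain ⟨G, iG, a, b, hgen, hinf, htor, hRF⟩ := Pool.Agent.X196.FA.exists_G 2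
  let _ := iG
  have := hinf
  obtain ⟨H, iH, u, K, hRFH, hu, hc1, hc2, hK1, hK2, hK3⟩ :=
    Pool.Agent.X196.FA.exists_H (p := 2) a b hgen htor hRF
  let _ := iH
  obtain ⟨V, iV, T, hT, hadj, hinv, hno⟩ := Pool.Agent.X196.FA.chain_not_FA hK1 hK2 hK3
  refine hno (@hall G H iG iH u hRF hRFH hu hc1 hc2 ?_ V iV T hT hadj hinv)
  intro V' _ T' hT' hadj' hinv'
  refine Pool.Agent.X196.FA.torsion_FA a b hgen (fun g => ?_) hT' hadj' hinv'
  obtain ⟨e, he⟩ := htor g
  exact isOfFinOrder_iff_pow_eq_one.2 ⟨2 ^ e, by positivity, he⟩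

end Pool.Agent.S03154
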