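import Pool.Statements.S03595
import Pool.Agent.X270.Conj.Tori
import Pool.Agent.W804.ZQ.Emb

set_option autoImplicit false
open Pool Pool.MP_f8d790_al

namespace Pool.Agent.S03595

open Topology Pool.Agent.W809.ZQ Pool.Agent.X270.Conj

/-- A proper subgroup of a finite group misses a conjugacy class. -/
theorem jordan {Q : Type} [Group Q] [Finite Q] (H : Subgroup Q)
    (h : ∀ x : Q, ∃ g : Q, g * x * g⁻¹ ∈ H) : H = ⊤ := by
  classical
  by_contra hne
  have : Fintype Q := Fintype.ofFinite Q
  have : Fintype (Q ⧸ H) := Fintype.ofFinite _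
  have h1 := MulAction.sum_card_fixedBy_eq_card_orbits_mul_card_group Q (Q ⧸ H)
  have h2 : Subsingleton (Quotient (MulAction.orbitRel Q (Q ⧸ H))) :=
    (MulAction.pretransitive_iff_subsingleton_quotient Q (Q ⧸ H)).1 inferInstance
  have h3 : Fintype.card (Quotient (MulAction.orbitRel Q (Q ⧸ H))) ≤ 1 :=
    Fintype.card_le_one_iff_subsingleton.2 h2
  have h4 : ∀ a : Q, 1 ≤ Fintype.card (MulAction.fixedBy (Q ⧸ H) a) := by
    intro a
    obtain ⟨g, hg⟩ := h a
    rw [Nat.succ_le_iff, Fintype.card_pos_iff]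
    refine ⟨⟨((g⁻¹ : Q) : Q ⧸ H), ?_⟩⟩
    rw [MulAction.mem_fixedBy]
    show ((a * g⁻¹ : Q) : Q ⧸ H) = _
    rw [QuotientGroup.eq]
    have h5 := H.inv_mem hg
    have h6 : (a * g⁻¹)⁻¹ * g⁻¹ = (g * a * g⁻¹)⁻¹ := by group
    rwa [h6]
  have h5 : 2 ≤ Fintype.card (MulAction.fixedBy (Q ⧸ H) (1 : Q)) := by
    have h6 : Fintype.card (MulAction.fixedBy (Q ⧸ H) (1 : Q)) = Fintype.card (Q ⧸ H) := by
      refine Fintype.card_congr ((Equiv.setCongr ?_).trans (Equiv.Set.univ _))
      ext x
      simp [MulAction.mem_fixedBy]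
    rw [h6]
    by_contra hlt
    have h7 : Fintype.card (Q ⧸ H) ≤ 1 := by omega
    have h8 := Fintype.card_le_one_iff_subsingleton.1 h7
    exact hne (QuotientGroup.subgroup_eq_top_of_subsingleton H h8)
  have h6 : ∑ a : Q, 1 < ∑ a : Q, Fintype.card (MulAction.fixedBy (Q ⧸ H) a) :=
    Finset.sum_lt_sum (fun a _ => h4 a) ⟨1, Finset.mem_univ _, by omega⟩
  rw [h1] at h6
  simp only [Finset.sum_const, Finset.card_univ, smul_eq_mul, mul_one] at h6
  have h7 := Nat.mul_le_mul_right (Fintype.card Q) h3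
  omega

theorem back {G : Type} [Group G] [TopologicalSpace G] [IsTopologicalGroup G] [CompactSpace G]
    [T2Space G] (N : Subgroup G) (hNn : N.Normal) (hNc : IsClosed (N : Set G))
    (hab : ∀ a ∈ N, ∀ b ∈ N, a * b = b * a) (htd : TotallyDisconnectedSpace (G ⧸ N))
    (H : Subgroup G) (hH : IsClosed (H : Set G)) (hm : ∀ x : G, ∃ g : G, g * x * g⁻¹ ∈ H) :
    H = ⊤ := by
  have hH' : IsClosed ((H.map (QuotientGroup.mk' N) : Subgroup (G ⧸ N)) : Set (G ⧸ N)) := by
    rw [Subgroup.coe_map]
    exact (hH.isCompact.image QuotientGroup.continuous_mk).isClosed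
  have htop : H.map (QuotientGroup.mk' N) = ⊤ := by
    rw [eq_top_iff]
    intro q _
    by_contra hq
    have hcont : Continuous (fun v : G ⧸ N => q * v) := by fun_prop
    have hW : IsOpen ((fun v : G ⧸ N => q * v) ⁻¹'
        (((H.map (QuotientGroup.mk' N) : Subgroup (G ⧸ N)) : Set (G ⧸ N)))ᶜ) :=
      hH'.isOpen_compl.preimage hcont
    obtain ⟨V, hV⟩ := ProfiniteGrp.exist_openNormalSubgroup_sub_open_nhds_of_one hW (by
      simp only [Set.mem_preimage, mul_one]
      exact hq)
    have hfin : Finite ((G ⧸ N) ⧸ (V.toSubgroup)) :=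
      Subgroup.quotient_finite_of_isOpen V.toSubgroup V.isOpen'
    have hj := jordan ((H.map (QuotientGroup.mk' N)).map (QuotientGroup.mk' V.toSubgroup)) (by
      intro x
      obtain ⟨y, rfl⟩ := QuotientGroup.mk'_surjective V.toSubgroup x
      obtain ⟨z, rfl⟩ := QuotientGroup.mk'_surjective N y
      obtain ⟨g, hg⟩ := hm z
      refine ⟨QuotientGroup.mk' V.toSubgroup (QuotientGroup.mk' N g), ?_⟩
      rw [← map_inv, ← map_inv, ← map_mul, ← map_mul, ← map_mul, ← map_mul]
      exact Subgroup.mem_map_of_mem _ (Subgroup.mem_map_of_mem _ hg))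
    have h1 : QuotientGroup.mk' V.toSubgroup q ∈
        (H.map (QuotientGroup.mk' N)).map (QuotientGroup.mk' V.toSubgroup) := by
      rw [hj]; trivial
    obtain ⟨h, hh, he⟩ := h1
    have h2 : h⁻¹ * q ∈ V.toSubgroup := QuotientGroup.eq.1 he
    have h3 : (h⁻¹ * q)⁻¹ ∈ (V : Set (G ⧸ N)) := V.toSubgroup.inv_mem h2
    have h4 := hV h3
    simp only [Set.mem_preimage] at h4
    apply h4
    have h5 : q * (h⁻¹ * q)⁻¹ = h := by group
    rw [h5]
    exact hh
  have hle : N ≤ H := by
    intro y hy
    obtain ⟨g, hg⟩ := hm y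
    have h1 : QuotientGroup.mk' N g⁻¹ ∈ H.map (QuotientGroup.mk' N) := by rw [htop]; trivial
    obtain ⟨h, hh, he⟩ := h1
    have h2 : h⁻¹ * g⁻¹ ∈ N := QuotientGroup.eq.1 he
    have h3 : g * y * g⁻¹ ∈ N := hNn.conj_mem y hy g
    have h4 := hab _ h2 _ h3
    have h5 : y = h * (g * y * g⁻¹) * h⁻¹ := by
      calc y = h * ((h⁻¹ * g⁻¹) * (g * y * g⁻¹)) * (h⁻¹ * g⁻¹)⁻¹ * h⁻¹ := by group
        _ = h * ((g * y * g⁻¹) * (h⁻¹ * g⁻¹)) * (h⁻¹ * g⁻¹)⁻¹ * h⁻¹ := by rw [h4]
        _ = _ := by group
    rw [h5]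
    exact H.mul_mem (H.mul_mem hh hg) (H.inv_mem hh)
  rw [eq_top_iff]
  intro x _
  have h1 : QuotientGroup.mk' N x ∈ H.map (QuotientGroup.mk' N) := by rw [htop]; trivial
  obtain ⟨h, hh, he⟩ := h1
  have h2 : h⁻¹ * x ∈ N := QuotientGroup.eq.1 he
  have h3 : x = h * (h⁻¹ * x) := by group
  rw [h3]
  exact H.mul_mem hh (hle h2)

theorem comm_closure_of {G H : Type} [Group G] [Group H] (f : G →* H) (S : Set G)
    (hS : ∀ x ∈ S, ∀ y ∈ S, f x * f y = f y * f x) :
    ∀ x ∈ Subgroup.closure S, ∀ y ∈ Subgroup.closure S, f x * f y = f y * f x := by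
  have h1 : ∀ x ∈ S, ∀ y ∈ Subgroup.closure S, f x * f y = f y * f x := by
    intro x hx y hy
    induction hy using Subgroup.closure_induction with
    | mem y hy => exact hS x hx y hy
    | one => simp
    | mul y z _ _ h2 h3 => rw [map_mul]; exact Commute.mul_right h2 h3
    | inv y _ h2 => rw [map_inv]; exact Commute.inv_right h2
  intro x hx y hy
  induction hx using Subgroup.closure_induction with
  | mem x hx => exact h1 x hx y hy
  | one => simp
  | mul a b _ _ h2 h3 => rw [map_mul]; exact Commute.mul_left h2 h3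
  | inv a _ h2 => rw [map_inv]; exact Commute.inv_left h2

theorem conn_comm {G : Type} [Group G] [TopologicalSpace G] [IsTopologicalGroup G] [CompactSpace G]
    [T2Space G] (h : ∀ H : Subgroup G, IsClosed (H : Set G) →
      (∀ x : G, ∃ g : G, g * x * g⁻¹ ∈ H) → H = ⊤) (a b : G)
    (ha : a ∈ connectedComponent (1 : G)) (hb : b ∈ connectedComponent (1 : G)) :
    a * b = b * a := by
  by_contra hne
  obtain ⟨ι, i1, i2, ρ, hρ, hρx⟩ := Pool.LatH472.PW G (a * b * a⁻¹ * b⁻¹) (fun hc => hne (by
    calc a * b = (a * b * a⁻¹ * b⁻¹) * (b * a) := by group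
      _ = b * a := by rw [hc, one_mul]))
  let e : ι ≃ Fin (Fintype.card ι) := Fintype.equivFin ι
  let f : G →* U (Fintype.card ι) :=
    { toFun := fun k => ⟨((ρ k : Matrix.unitaryGroup ι ℂ) : Matrix ι ι ℂ).submatrix e.symm e.symm,
        Pool.Agent.W804.ZQ.mem_reindex e _ (ρ k).2⟩
      map_one' := by
        apply Subtype.ext
        simp
      map_mul' := by
        intro a b
        apply Subtype.ext
        simp [Matrix.submatrix_mul_equiv] }
  have hf : Continuous f := by
    apply Continuous.subtype_mk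
    exact (continuous_subtype_val.comp hρ).matrix_submatrix _ _
  have hfx : f a * f b ≠ f b * f a := by
    intro hc
    apply hρx
    have h1 : f (a * b * a⁻¹ * b⁻¹) = 1 := by
      rw [map_mul, map_mul, map_mul, map_inv, map_inv, hc]; group
    have h5 := congrArg Subtype.val h1
    have h6 : ((ρ (a * b * a⁻¹ * b⁻¹) : Matrix.unitaryGroup ι ℂ) : Matrix ι ι ℂ).submatrix
      e.symm e.symm = 1 := h5
    apply Subtype.ext
    have h7 := congrArg (fun A : Matrix (Fin (Fintype.card ι)) (Fin (Fintype.card ι)) ℂ =>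
      A.submatrix e e) h6
    simpa using h7
  have hL : IsClosed (f.range : Set (U (Fintype.card ι))) := by
    rw [MonoidHom.coe_range]
    exact (isCompact_range hf).isClosed
  by_cases hna : ∃ X ∈ LL f.range, ∃ Y ∈ LL f.range, X * Y ≠ Y * X
  · obtain ⟨H, hHc, hHL, hHm⟩ := exists_sub hL hna
    apply hHL
    have h1 := h (H.comap f) (by
      rw [Subgroup.coe_comap]
      exact hHc.preimage hf) (by
      intro x
      obtain ⟨_, ⟨g, rfl⟩, hg⟩ := hHm (f x) ⟨x, rfl⟩
      refine ⟨g, ?_⟩
      rw [Subgroup.mem_comap, map_mul, map_mul, map_inv]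
      exact hg)
    rintro _ ⟨x, rfl⟩
    have h2 : x ∈ H.comap f := by rw [h1]; trivial
    exact h2
  · push Not at hna
    have hADD' : S_ADD := Pool.Agent.W577.ZQ.add
    have hTRV : S_TRV := Pool.Agent.W382.ZQ.trv
    have hLC : S_LC := Pool.Agent.W29.ZQ.Lc.lc hADD' hTRV
    set B := Module.finBasis ℝ (LS hADD' f.range hL) with hBdef
    obtain ⟨O, hO, hOt⟩ := hLC _ f.range hL _ (fun j => ((B j : LS hADD' f.range hL) : Mt _))
      (fun j => (B j).2) (by
        intro X hX
        have h1 : (⟨X, hX⟩ : LS hADD' f.range hL) ∈ Submodule.span ℝ (Set.range B) := by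
          rw [B.span_eq]
          exact Submodule.mem_top
        have h2 := Submodule.mem_map_of_mem (f := (LS hADD' f.range hL).subtype) h1
        rw [Submodule.map_span, ← Set.range_comp] at h2
        exact h2) 1 one_pos
    have hnh : f ⁻¹' O ∈ 𝓝 (1 : G) := by
      apply hf.continuousAt.preimage_mem_nhds
      rw [map_one]; exact hO
    have hopen : IsOpen ((Subgroup.closure (f ⁻¹' O) : Subgroup G) : Set G) :=
      Subgroup.isOpen_of_mem_nhds _ (Filter.mem_of_superset hnh Subgroup.subset_closure)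
    have hclop : IsClopen ((Subgroup.closure (f ⁻¹' O) : Subgroup G) : Set G) :=
      ⟨Subgroup.isClosed_of_isOpen _ hopen, hopen⟩
    have hsub := hclop.connectedComponent_subset (Subgroup.one_mem _)
    refine hfx (comm_closure_of f (f ⁻¹' O) ?_ a (hsub ha) b (hsub hb))
    intro x hx y hy
    obtain ⟨s, -, hs⟩ := hOt (f x) ⟨x, rfl⟩ hx
    obtain ⟨t, -, ht⟩ := hOt (f y) ⟨y, rfl⟩ hy
    apply Subtype.ext
    rw [Submonoid.coe_mul, Submonoid.coe_mul, hs, ht]
    refine PE_commute (fun i => ?_) s
    refine (PE_commute (fun j => ?_) t).symm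
    exact hna _ (B j).2 _ (B i).2

/-- An infinite compact Hausdorff group G has every choice of conjugates of its elements topologically generating G if and only if G has a closed, connected, abelian normal subgroup with totally disconnected (profinite) quotient. -/
theorem result :
    ∀ (G : Type) [Group G] [TopologicalSpace G] [IsTopologicalGroup G] [CompactSpace G]
      [T2Space G] [Infinite G],
      (∀ f : G → G,
          (Subgroup.closure (Set.range (fun x : G => f x * x * (f x)⁻¹))).topologicalClosure = ⊤) ↔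
        ∃ N : Subgroup G, N.Normal ∧ IsClosed (N : Set G) ∧ IsConnected (N : Set G) ∧
          (∀ a ∈ N, ∀ b ∈ N, a * b = b * a) ∧ TotallyDisconnectedSpace (G ⧸ N) := by
  intro G _ _ _ _ _ _
  constructor
  · intro hP
    have h : ∀ H : Subgroup G, IsClosed (H : Set G) →
        (∀ x : G, ∃ g : G, g * x * g⁻¹ ∈ H) → H = ⊤ := by
      intro H hH hm
      choose f hf using hm
      rw [eq_top_iff, ← hP f]
      refine Subgroup.topologicalClosure_minimal _ ?_ hH
      rw [Subgroup.closure_le]
      rintro _ ⟨x, rfl⟩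
      exact hf x
    have hnorm : (Subgroup.connectedComponentOfOne G).Normal := by
      refine ⟨fun x hx g => ?_⟩
      have hc : Continuous (fun y : G => g * y * g⁻¹) := by fun_prop
      have h1 := hc.image_connectedComponent_subset 1 ⟨x, hx, rfl⟩
      have h2 : g * x * g⁻¹ ∈ connectedComponent (1 : G) := by simpa using h1
      exact h2
    refine ⟨Subgroup.connectedComponentOfOne G, hnorm, isClosed_connectedComponent,
      isConnected_connectedComponent, fun a ha b hb => conn_comm h a b ha hb, ?_⟩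
    rw [totallyDisconnectedSpace_iff_connectedComponent_singleton]
    intro q
    obtain ⟨a, rfl⟩ := QuotientGroup.mk_surjective q
    have hfib : ∀ y : G ⧸ Subgroup.connectedComponentOfOne G,
        IsConnected ((QuotientGroup.mk : G → G ⧸ Subgroup.connectedComponentOfOne G) ⁻¹' {y}) := by
      intro y
      obtain ⟨x, rfl⟩ := QuotientGroup.mk_surjective y
      have hc : Continuous (fun y : G => x * y) := by fun_prop
      have h1 : (QuotientGroup.mk : G → G ⧸ Subgroup.connectedComponentOfOne G) ⁻¹'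
          {(x : G ⧸ Subgroup.connectedComponentOfOne G)} =
          (fun y : G => x * y) '' connectedComponent (1 : G) := by
        ext z
        simp only [Set.mem_preimage, Set.mem_singleton_iff, Set.mem_image]
        rw [eq_comm, QuotientGroup.eq]
        constructor
        · intro hz
          exact ⟨x⁻¹ * z, hz, by group⟩
        · rintro ⟨w, hw, rfl⟩
          rw [inv_mul_cancel_left]
          exact hw
      rw [h1]
      exact isConnected_connectedComponent.image _ hc.continuousOn
    have h1 := (QuotientGroup.isQuotientMap_mk (N := Subgroup.connectedComponentOfOne G)).isCoinducing.preimage_connectedComponent hfib a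
    rw [Set.eq_singleton_iff_unique_mem]
    refine ⟨mem_connectedComponent, fun y hy => ?_⟩
    obtain ⟨b, rfl⟩ := QuotientGroup.mk_surjective y
    have h2 : b ∈ connectedComponent a := by rw [← h1]; exact hy
    have hc : Continuous (fun y : G => a⁻¹ * y) := by fun_prop
    have h3 := hc.image_connectedComponent_subset a ⟨b, h2, rfl⟩
    rw [inv_mul_cancel] at h3
    exact (QuotientGroup.eq.2 h3).symm
  · rintro ⟨N, hNn, hNc, -, hab, htd⟩ f
    refine back N hNn hNc hab htd _ (Subgroup.isClosed_topologicalClosure _) fun x => ⟨f x, ?_⟩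
    exact Subgroup.le_topologicalClosure _ (Subgroup.subset_closure ⟨x, rfl⟩)

end Pool.Agent.S03595
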