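import Pool.Statements.S03690
import Pool.Agent.X301.NullMain

set_option autoImplicit false
open Filter
open Pool Pool.MP_0396c7_an

namespace Pool.Agent.S03690

open Set Topology Pool.Agent.X301

/-- the space of sequences -/
abbrev PP : Type := ℕ → Icc (-1 : ℝ) 1

/-- the shift -/
def sh (y : PP) : PP := fun i => y (i + 1)

theorem sh_cont : Continuous sh := continuous_pi fun i => continuous_apply (i + 1)

/-- the generating point -/
noncomputable def x0 : PP := fun n => ⟨xs n, abs_le.1 (Fs_abs_le _)⟩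

theorem sh_iter (n : ℕ) (y : PP) (i : ℕ) : (sh^[n] y) i = y (i + n) := by
  induction n generalizing y with
  | zero => rfl
  | succ n ih => rw [Function.iterate_succ_apply, ih]; rfl

/-- the orbit closure -/
def YY : Set PP := closure (range fun n : ℕ => sh^[n] x0)

theorem sh_maps : MapsTo sh YY YY := by
  refine MapsTo.closure ?_ sh_cont
  rintro _ ⟨n, rfl⟩
  exact ⟨n + 1, Function.iterate_succ_apply' _ _ _⟩

/-- the map of the system -/
def TY : YY → YY := sh_maps.restrict sh YY YY

theorem TY_cont : Continuous TY := sh_cont.restrict sh_maps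

theorem TY_iter (n : ℕ) (y : YY) : ((TY^[n] y : YY) : PP) = sh^[n] (y : PP) := by
  induction n generalizing y with
  | zero => rfl
  | succ n ih => rw [Function.iterate_succ_apply, ih]; rfl

theorem orb_mem (n : ℕ) : sh^[n] x0 ∈ YY := subset_closure ⟨n, rfl⟩

/-- base point -/
noncomputable def z0 : YY := ⟨x0, orb_mem 0⟩

/-- coordinates -/
def cc (i : ℕ) (y : YY) : ℝ := ((y : PP) i : ℝ)

theorem const_mem (θ : ℝ) : (fun _ => ⟨Real.sin θ, Real.neg_one_le_sin θ, Real.sin_le_one θ⟩ : PP) ∈
    YY := by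
  have hch : ∀ k : ℕ, ∃ n : ℕ, ∀ j, j < k → |xs (n + j) - Real.sin θ| ≤ 1 / ((k : ℝ) + 1) :=
    fun k => xs_const θ k (by positivity)
  choose n hn using hch
  refine mem_closure_of_tendsto (f := fun k => sh^[n k] x0) (b := atTop) ?_
    (Eventually.of_forall fun k => ⟨n k, rfl⟩)
  rw [tendsto_pi_nhds]
  intro j
  rw [tendsto_subtype_rng, tendsto_iff_dist_tendsto_zero]
  refine squeeze_zero' (Eventually.of_forall fun _ => dist_nonneg) ?_
    tendsto_one_div_add_atTop_nhds_zero_nat
  filter_upwards [eventually_gt_atTop j] with k hk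
  rw [Real.dist_eq, sh_iter, add_comm]
  exact hn k j hk

theorem main_abstract (Z : Type) [t : TopologicalSpace Z] [CompactSpace Z]
    [TopologicalSpace.MetrizableSpace Z] (T : Z → Z) (c : ℕ → Z → ℝ) (z0 : Z)
    (h1 : Continuous T) (h2 : ∀ i, Continuous (c i))
    (h3 : ∀ z z', (∀ i, c i z = c i z') → z = z')
    (h4 : ∀ n j z, c j (T^[n] z) = c (j + n) z)
    (h5 : ∀ n, c n z0 = xs n)
    (h6 : DenseRange fun n : ℕ => T^[n] z0)
    (h7 : ∀ θ : ℝ, ∃ p, ∀ i, c i p = Real.sin θ) :
    ∃ (m : MetricSpace Z)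
      (hm : @CompactSpace Z m.toPseudoMetricSpace.toUniformSpace.toTopologicalSpace),
      @Sys Z m hm T c z0 := by
  let m : MetricSpace Z := TopologicalSpace.metrizableSpaceMetric Z
  have hm : @CompactSpace Z m.toPseudoMetricSpace.toUniformSpace.toTopologicalSpace := by
    assumption
  exact ⟨m, hm, ⟨h1, h2, h3, h4, h5, h6, h7⟩⟩

theorem dense_orbit : DenseRange fun n : ℕ => TY^[n] z0 := by
  intro y
  rw [closure_subtype]
  have h1 : ((↑) : YY → PP) '' range (fun n : ℕ => TY^[n] z0) = range fun n : ℕ => sh^[n] x0 := by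
    rw [← range_comp]
    congr 1
    funext n
    exact TY_iter n z0
  rw [h1]
  exact y.2

/-- The negation of the preceding statement: Every continuous self-map of a compact metric space that is topologically transitive and has zero sequence entropy along every increasing sequence is mean equicontinuous: nearby points have uniformly small limsup of average orbit distance. -/
theorem result :
    ¬ (∀ (X : Type) [MetricSpace X] [CompactSpace X] (T : X → X), Continuous T →
      (∀ U V : Set X, IsOpen U → IsOpen V → U.Nonempty → V.Nonempty →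
        ∃ n : ℕ, 1 ≤ n ∧ (V ∩ T^[n] ⁻¹' U).Nonempty) →
      (∀ a : ℕ → ℕ, StrictMono a → ∀ ε : ℝ, 0 < ε → ∀ δ : ℝ, 0 < δ →
        ∀ᶠ n in atTop, ∀ F : Finset X,
          (∀ x ∈ F, ∀ y ∈ F, x ≠ y → ∃ i < n, ε ≤ dist (T^[a i] x) (T^[a i] y)) →
          (F.card : ℝ) ≤ Real.exp (δ * n)) →
      ∀ ε : ℝ, 0 < ε → ∃ δ : ℝ, 0 < δ ∧ ∀ x y : X, dist x y < δ →
        ∀ᶠ n in atTop,
          (∑ i ∈ Finset.range n, dist (T^[i] x) (T^[i] y)) / (n : ℝ) < ε) := by
  intro hall
  have hcomp : CompactSpace YY := isCompact_iff_compactSpace.1 isClosed_closure.isCompact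
  obtain ⟨m, hm, hS⟩ := main_abstract YY TY cc z0 TY_cont
    (fun i => continuous_subtype_val.comp ((continuous_apply i).comp continuous_subtype_val))
    (fun z z' hzz => by
      apply Subtype.ext
      funext i
      exact Subtype.ext (hzz i))
    (fun n j z => by
      unfold cc
      rw [TY_iter, sh_iter])
    (fun n => rfl) dense_orbit (fun θ => ⟨⟨_, const_mem θ⟩, fun i => rfl⟩)
  exact hS.not_mean_equicontinuous (@hall YY m hm TY hS.cont hS.transitive
    (fun a _ ε hε δ hδ => hS.null a ε hε δ hδ))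

end Pool.Agent.S03690
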