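import Pool.Statements.S03761
import Pool.Agent.X179.BA.Neg

set_option autoImplicit false
open Pool Pool.MP_0a1835_an

namespace Pool.Agent.S03761

/-- There is a complex Banach algebra where every bounded derivation into a dual bimodule is a pointwise limit of uniformly bounded inner derivations, yet for some Banach bimodule some bounded derivation into it is not. -/
theorem result :
  ∃ (A : Type) (_ : NonUnitalNormedRing A) (_ : NormedSpace ℂ A)
      (_ : IsScalarTower ℂ A A) (_ : SMulCommClass ℂ A A) (_ : CompleteSpace A),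
    (∀ (X : Type) [NormedAddCommGroup X] [NormedSpace ℂ X] [CompleteSpace X]
        (L R : A →L[ℂ] X →L[ℂ] X),
        (∀ (a b : A) (x : X), L (a * b) x = L a (L b x)) →
        (∀ (a b : A) (x : X), R (a * b) x = R b (R a x)) →
        (∀ (a b : A) (x : X), L a (R b x) = R b (L a x)) →
        ∀ D : A →L[ℂ] (X →L[ℂ] ℂ),
          (∀ a b : A, D (a * b) = (D b).comp (R a) + (D a).comp (L b)) →
          ∃ C : ℝ, ∀ (F : Finset A) (ε : ℝ), 0 < ε →
            ∃ f : X →L[ℂ] ℂ,
              (∀ a : A, ‖f.comp (R a) - f.comp (L a)‖ ≤ C * ‖a‖) ∧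
              ∀ a ∈ F, ‖D a - (f.comp (R a) - f.comp (L a))‖ < ε) ∧
    ¬ (∀ (X : Type) [NormedAddCommGroup X] [NormedSpace ℂ X] [CompleteSpace X]
        (L R : A →L[ℂ] X →L[ℂ] X),
        (∀ (a b : A) (x : X), L (a * b) x = L a (L b x)) →
        (∀ (a b : A) (x : X), R (a * b) x = R b (R a x)) →
        (∀ (a b : A) (x : X), L a (R b x) = R b (L a x)) →
        ∀ D : A →L[ℂ] X,
          (∀ a b : A, D (a * b) = L a (D b) + R b (D a)) →
          ∃ C : ℝ, ∀ (F : Finset A) (ε : ℝ), 0 < ε →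
            ∃ ξ : X,
              (∀ a : A, ‖L a ξ - R a ξ‖ ≤ C * ‖a‖) ∧
              ∀ a ∈ F, ‖D a - (L a ξ - R a ξ)‖ < ε) := by
  refine ⟨Pool.Agent.X179.BA.A0, inferInstance, inferInstance, inferInstance, inferInstance,
    inferInstance, ?_, ?_⟩
  · intro X _ _ _ L R hL hR hLR D hD
    exact Pool.Agent.X179.BA.Data.pos Pool.Agent.X179.BA.dat L R hL hR hLR D hD
  · intro h
    obtain ⟨C, hC⟩ := h Pool.Agent.X179.BA.Xb Pool.Agent.X179.BA.Lb Pool.Agent.X179.BA.Rb
      Pool.Agent.X179.BA.Lb_mul Pool.Agent.X179.BA.Rb_mul Pool.Agent.X179.BA.LRb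
      Pool.Agent.X179.BA.Db Pool.Agent.X179.BA.Db_mul
    exact Pool.Agent.X179.BA.neg_part C hC

end Pool.Agent.S03761
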