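import Pool.Statements.S04135
import Pool.Agent.X106.VarDeriv
import Pool.Agent.Helper704.RB.E

set_option autoImplicit false
open MeasureTheory
open Pool Pool.MP_28e115_an

namespace Pool.Agent.S04135

/-- For every n ≥ 2 there is a bounded holomorphic function on the unit ball of ℂⁿ whose restriction to almost every radius r ↦ f(rζ), 0 ≤ r < 1, has infinite total variation, i.e. a nonrectifiable image. -/
theorem result :
    ∀ n : ℕ, 2 ≤ n →
      ∃ f : (Fin n → ℂ) → ℂ,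
        DifferentiableOn ℂ f {z : Fin n → ℂ | ∑ i, ‖z i‖ ^ 2 < 1} ∧
        (∃ M : ℝ, ∀ z ∈ {z : Fin n → ℂ | ∑ i, ‖z i‖ ^ 2 < 1}, ‖f z‖ ≤ M) ∧
        ∀ᵐ x ∂(volume : Measure (Fin n → ℂ)),
          eVariationOn
            (fun r : ℝ => f ((((r / Real.sqrt (∑ i, ‖x i‖ ^ 2) : ℝ)) : ℂ) • x))
            (Set.Ico (0 : ℝ) 1) = ⊤ := by
  intro n hn
  have : Nonempty (Fin n) := ⟨⟨0, by omega⟩⟩
  classical
  -- the Euclidean space and the projection to the sphere
  let E := EuclideanSpace ℂ (Fin n)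
  let T : (Fin n → ℂ) → E := fun x => WithLp.toLp 2 x
  have hTcont : Continuous T := (PiLp.continuousLinearEquiv 2 ℂ (fun _ : Fin n => ℂ)).symm.continuous
  have hnorm : ∀ x, ‖T x‖ = Real.sqrt (∑ i, ‖x i‖ ^ 2) := fun x => by
    rw [EuclideanSpace.norm_eq]
  have hT0 : ∀ x, T x = 0 ↔ x = 0 := by
    intro x
    constructor
    · intro h
      have : WithLp.ofLp (T x) = WithLp.ofLp (0 : E) := by rw [h]
      simpa [T] using this
    · rintro rfl
      rfl
  obtain ⟨e0, he0⟩ : ∃ e0 : E, ‖e0‖ = 1 :=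
    ⟨EuclideanSpace.single (⟨0, by omega⟩ : Fin n) (1 : ℂ), by
      rw [EuclideanSpace.norm_single]; exact norm_one⟩
  let g0 : (Fin n → ℂ) → E := fun x => if x = 0 then e0 else ((‖T x‖⁻¹ : ℝ) : ℂ) • T x
  have hg0 : ∀ x, g0 x ∈ Metric.sphere (0 : E) 1 := by
    intro x
    simp only [mem_sphere_zero_iff_norm, g0]
    by_cases hx : x = 0
    · simp [hx, he0]
    · rw [if_neg hx, norm_smul, Complex.norm_real, norm_inv, norm_norm]
      exact inv_mul_cancel₀ (norm_ne_zero_iff.2 (fun h => hx ((hT0 x).1 h)))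
  have hg0m : Measurable g0 := by
    apply Measurable.ite (measurableSet_singleton 0) measurable_const
    have h1 : Measurable fun x => ((‖T x‖⁻¹ : ℝ) : ℂ) :=
      Complex.measurable_ofReal.comp (hTcont.norm.measurable.inv)
    exact h1.smul hTcont.measurable
  let g : (Fin n → ℂ) → Metric.sphere (0 : E) 1 := fun x => ⟨g0 x, hg0 x⟩
  have hgm : Measurable g := hg0m.subtype_mk
  let ν : Measure (Fin n → ℂ) := (volume : Measure (Fin n → ℂ)).toFinite
  let μ : Measure (Metric.sphere (0 : E) 1) := ν.map g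
  have : IsFiniteMeasure μ := by
    have : IsFiniteMeasure ν := inferInstanceAs (IsFiniteMeasure (volume : Measure (Fin n → ℂ)).toFinite)
    exact Measure.isFiniteMeasure_map ν g
  obtain ⟨f, hfd, hfb, hfae⟩ := Pool.Agent.Helper704.RadBall.main (show 1 < n by omega) μ
  have hball : ∀ x : Fin n → ℂ, ∑ i, ‖x i‖ ^ 2 < 1 → T x ∈ Metric.ball (0 : E) 1 := by
    intro x hx
    rw [mem_ball_zero_iff, hnorm]
    calc Real.sqrt (∑ i, ‖x i‖ ^ 2) < Real.sqrt 1 :=
          Real.sqrt_lt_sqrt (Finset.sum_nonneg fun i _ => by positivity) hx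
      _ = 1 := Real.sqrt_one
  refine ⟨fun x => f (T x), ?_, ⟨1, fun z hz => hfb _ (hball z hz)⟩, ?_⟩
  · apply hfd.comp (f := T) _ (fun x hx => hball x hx)
    exact (PiLp.continuousLinearEquiv 2 ℂ (fun _ : Fin n => ℂ)).symm.differentiable.differentiableOn
  · have h1 : ∀ᵐ x ∂ν, ∫⁻ r in Set.Ioo (0 : ℝ) 1,
        ‖deriv (fun t : ℝ => f ((t : ℂ) • (g x : E))) r‖ₑ = ⊤ :=
      ae_of_ae_map hgm.aemeasurable hfae
    have h2 : ∀ᵐ x ∂(volume : Measure (Fin n → ℂ)), ∫⁻ r in Set.Ioo (0 : ℝ) 1,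
        ‖deriv (fun t : ℝ => f ((t : ℂ) • (g x : E))) r‖ₑ = ⊤ :=
      (absolutelyContinuous_toFinite (volume : Measure (Fin n → ℂ))).ae_le h1
    have h3 : ∀ᵐ x ∂(volume : Measure (Fin n → ℂ)), x ≠ 0 := by
      rw [ae_iff]
      simp
    filter_upwards [h2, h3] with x hx hx0
    by_contra hcon
    have hfun : (fun r : ℝ => f (T ((((r / Real.sqrt (∑ i, ‖x i‖ ^ 2) : ℝ)) : ℂ) • x))) =
        fun t : ℝ => f ((t : ℂ) • (g x : E)) := by
      funext r
      congr 1
      have hgx : (g x : E) = ((‖T x‖⁻¹ : ℝ) : ℂ) • T x := by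
        show g0 x = _
        simp only [g0]
        rw [if_neg hx0]
      rw [hgx, smul_smul, ← hnorm x]
      have : T ((((r / ‖T x‖ : ℝ)) : ℂ) • x) = (((r / ‖T x‖ : ℝ)) : ℂ) • T x := rfl
      rw [this]
      congr 1
      push_cast
      rw [div_eq_mul_inv]
    have hcon' : eVariationOn (fun t : ℝ => f ((t : ℂ) • (g x : E))) (Set.Ico (0 : ℝ) 1) ≠ ⊤ := by
      rw [← hfun]
      exact hcon
    have := Pool.Agent.X106.lintegral_deriv_lt_top hcon'
    exact absurd hx this.ne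

end Pool.Agent.S04135
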