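import Pool.Statements.S04252
-- import your own Pool.Agent.* helpers here

set_option autoImplicit false
open Filter Topology
open Pool Pool.MP_309e42_an

namespace Pool.Agent.S04252

/-- the coefficients of `sin (√z) / √z` -/
noncomputable def cf (n : ℕ) : ℂ := (-1) ^ n / ((2 * n + 1).factorial : ℂ)

/-- the entire function `sin (√z) / √z` -/
noncomputable def sf : ℂ → ℂ := FormalMultilinearSeries.ofScalarsSum cf

lemma cf_ne (n : ℕ) : cf n ≠ 0 := by
  unfold cf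
  exact div_ne_zero (pow_ne_zero _ (by norm_num)) (Nat.cast_ne_zero.2 (Nat.factorial_ne_zero _))

lemma norm_cf (n : ℕ) : ‖cf n‖ = 1 / ((2 * n + 1).factorial : ℝ) := by
  unfold cf
  rw [norm_div, norm_pow, norm_neg, norm_one, one_pow, Complex.norm_natCast]

lemma radius : (FormalMultilinearSeries.ofScalars ℂ cf).radius = ⊤ := by
  apply FormalMultilinearSeries.ofScalars_radius_eq_top_of_tendsto
  · exact Eventually.of_forall cf_ne
  · have h1 : ∀ n : ℕ, ‖cf n.succ‖ / ‖cf n‖ ≤ 1 / ((n : ℝ) + 1) := by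
      intro n
      rw [norm_cf, norm_cf]
      have h2 : ((2 * n.succ + 1).factorial : ℝ) =
          (2 * n + 3) * ((2 * n + 2) * (2 * n + 1).factorial) := by
        have : 2 * n.succ + 1 = (2 * n + 2) + 1 := by omega
        rw [this, Nat.factorial_succ, Nat.factorial_succ]
        push_cast; ring
      rw [h2]
      have h3 : (0 : ℝ) < (2 * n + 1).factorial := by exact_mod_cast Nat.factorial_pos _
      have h4 : (1 : ℝ) / ((2 * n + 3) * ((2 * n + 2) * (2 * n + 1).factorial)) /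
          (1 / ((2 * n + 1).factorial : ℝ)) = 1 / ((2 * n + 3) * (2 * n + 2)) := by
        field_simp
      rw [h4]
      apply one_div_le_one_div_of_le (by positivity)
      nlinarith [(Nat.cast_nonneg n : (0:ℝ) ≤ n)]
    refine squeeze_zero (fun n => by positivity) h1 ?_
    exact tendsto_one_div_add_atTop_nhds_zero_nat

lemma hasFP : HasFPowerSeriesOnBall sf (FormalMultilinearSeries.ofScalars ℂ cf) 0 ⊤ := by
  have h := (FormalMultilinearSeries.ofScalars ℂ cf).hasFPowerSeriesOnBall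
    (by rw [radius]; exact ENNReal.zero_lt_top)
  rw [radius] at h
  exact h

lemma sf_hasSum (z : ℂ) : HasSum (fun n => cf n * z ^ n) (sf z) := by
  have h := hasFP.hasSum (y := z) (by simp)
  simpa [FormalMultilinearSeries.ofScalars_apply_eq, mul_comm] using h

lemma sf_diff : Differentiable ℂ sf := by
  have h := hasFP.differentiableOn
  rw [← differentiableOn_univ]
  simpa using h

lemma sf_iter (n : ℕ) : iteratedDeriv n sf 0 ≠ 0 := by
  have h := hasFP.factorial_smul (1 : ℂ) n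
  rw [iteratedDeriv_eq_iteratedFDeriv]
  rw [FormalMultilinearSeries.ofScalars_apply_eq] at h
  have h2 : iteratedFDeriv ℂ n sf 0 (fun _ => 1) = (n.factorial : ℂ) * cf n := by
    rw [← h]; simp
  rw [h2]
  exact mul_ne_zero (Nat.cast_ne_zero.2 (Nat.factorial_ne_zero _)) (cf_ne n)

/-- `sf (w ^ 2) * w = sin w` -/
lemma sf_sq (w : ℂ) : sf (w ^ 2) * w = Complex.sin w := by
  have h1 := (sf_hasSum (w ^ 2)).mul_right w
  have h2 := Complex.hasSum_sin w
  apply h1.unique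
  have h3 : (fun n => cf n * (w ^ 2) ^ n * w) =
      fun n : ℕ => (-1) ^ n * w ^ (2 * n + 1) / ((2 * n + 1).factorial : ℂ) := by
    funext n
    unfold cf
    ring
  rw [h3]; exact h2

lemma sf_growth (z : ℂ) : ‖sf z‖ ≤ Real.exp (Real.sqrt ‖z‖) := by
  have h1 : HasSum (fun n : ℕ => Real.sqrt ‖z‖ ^ (2 * n) / ((2 * n).factorial : ℝ))
      (Real.cosh (Real.sqrt ‖z‖)) := Real.hasSum_cosh _
  have h2 : ‖sf z‖ ≤ Real.cosh (Real.sqrt ‖z‖) := by
    rw [← (sf_hasSum z).tsum_eq]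
    refine tsum_of_norm_bounded h1 fun n => ?_
    rw [norm_mul, norm_cf, norm_pow, pow_mul, Real.sq_sqrt (norm_nonneg z), div_mul_eq_mul_div,
      one_mul]
    apply div_le_div_of_nonneg_left (by positivity) (by positivity)
    exact_mod_cast Nat.factorial_le (by omega)
  refine h2.trans ?_
  have h3 := Real.cosh_add_sinh (Real.sqrt ‖z‖)
  have h4 : 0 ≤ Real.sinh (Real.sqrt ‖z‖) := Real.sinh_nonneg_iff.2 (Real.sqrt_nonneg _)
  linarith

lemma card_le (t : ℝ) (ht : 0 ≤ t) :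
    (Nat.card {n : ℕ // iteratedDeriv n sf 0 ≠ 0 ∧ (n : ℝ) ≤ t} : ℕ) = ⌊t⌋₊ + 1 := by
  have h : {n : ℕ | iteratedDeriv n sf 0 ≠ 0 ∧ (n : ℝ) ≤ t} = (Finset.range (⌊t⌋₊ + 1) : Set ℕ) := by
    ext n
    simp only [Set.mem_ofPred_eq, Finset.coe_range, Set.mem_Iio, Nat.lt_succ_iff]
    rw [Nat.le_floor_iff ht]
    exact ⟨fun h => h.2, fun h => ⟨sf_iter n, h⟩⟩
  have h2 : Nat.card {n : ℕ // iteratedDeriv n sf 0 ≠ 0 ∧ (n : ℝ) ≤ t} =
      Nat.card (Finset.range (⌊t⌋₊ + 1) : Set ℕ) := by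
    rw [← h]; rfl
  rw [h2]
  simp

lemma density (ξ : ℝ) (h0 : 0 < ξ) (h1 : ξ < 1) : Tendsto (fun t : ℝ =>
    (((Nat.card {n : ℕ // iteratedDeriv n sf 0 ≠ 0 ∧ (n : ℝ) ≤ t} : ℕ) : ℝ) -
      ((Nat.card {n : ℕ // iteratedDeriv n sf 0 ≠ 0 ∧ (n : ℝ) ≤ ξ * t} : ℕ) : ℝ)) /
      ((1 - ξ) * t)) atTop (𝓝 1) := by
  have hf : Tendsto (fun t : ℝ => (⌊t⌋₊ : ℝ) / t) atTop (𝓝 1) := tendsto_nat_floor_div_atTop
  have hf2 : Tendsto (fun t : ℝ => (⌊ξ * t⌋₊ : ℝ) / t) atTop (𝓝 ξ) :=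
    tendsto_nat_floor_mul_div_atTop h0.le
  have h3 := (hf.sub hf2).div_const (1 - ξ)
  have h4 : (1 - ξ) / (1 - ξ) = 1 := div_self (by linarith)
  rw [h4] at h3
  refine h3.congr' ?_
  filter_upwards [eventually_gt_atTop 0] with t ht
  rw [card_le t ht.le, card_le (ξ * t) (by positivity)]
  have : 1 - ξ ≠ 0 := by linarith
  push_cast
  field_simp
  ring


/-- The negation of the preceding statement: Every non-constant entire f of finite order ρ whose exponent set (nonzero Taylor coefficients) has maximal Pólya density Δ with ρΔ<1 has no finite asymptotic value along any curve tending to infinity. -/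
theorem result :
    ¬ (∀ f : ℂ → ℂ, Differentiable ℂ f → (∃ z w : ℂ, f z ≠ f w) →
    ∀ ρ Δ : ℝ,
      (∀ ε : ℝ, 0 < ε → ∀ᶠ r : ℝ in atTop, ∀ z : ℂ, ‖z‖ = r →
          ‖f z‖ ≤ Real.exp (r ^ (ρ + ε))) →
      Tendsto (fun ξ : ℝ => Filter.limsup (fun t : ℝ =>
          (((Nat.card {n : ℕ // iteratedDeriv n f 0 ≠ 0 ∧ (n : ℝ) ≤ t} : ℕ) : ℝ) -
            ((Nat.card {n : ℕ // iteratedDeriv n f 0 ≠ 0 ∧ (n : ℝ) ≤ ξ * t} : ℕ) : ℝ)) /
            ((1 - ξ) * t)) atTop)
        (𝓝[<] (1 : ℝ)) (𝓝 Δ) →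
      ρ * Δ < 1 →
      ¬ ∃ a : ℂ, ∃ γ : ℝ → ℂ, Continuous γ ∧
          Tendsto (fun t : ℝ => ‖γ t‖) atTop atTop ∧
          Tendsto (fun t : ℝ => f (γ t)) atTop (𝓝 a)) := by
  intro H
  have hsq : ∀ t : ℝ, 0 < t → sf (t : ℂ) = Complex.sin (Real.sqrt t) / (Real.sqrt t : ℂ) := by
    intro t ht
    have h1 := sf_sq (Real.sqrt t : ℂ)
    have h2 : ((Real.sqrt t : ℂ)) ^ 2 = (t : ℂ) := by
      rw [← Complex.ofReal_pow, Real.sq_sqrt ht.le]
    rw [h2] at h1
    have h3 : (Real.sqrt t : ℂ) ≠ 0 := by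
      exact_mod_cast (Real.sqrt_pos.2 ht).ne'
    rw [eq_div_iff h3, h1]
  have hasy : Tendsto (fun t : ℝ => sf ((t : ℝ) : ℂ)) atTop (𝓝 0) := by
    rw [tendsto_zero_iff_norm_tendsto_zero]
    have h1 : Tendsto (fun t : ℝ => 1 / Real.sqrt t) atTop (𝓝 0) := by
      have := Real.tendsto_sqrt_atTop
      exact this.const_div_atTop 1
    refine squeeze_zero' (Eventually.of_forall fun t => norm_nonneg _) ?_ h1
    filter_upwards [eventually_gt_atTop 0] with t ht
    rw [hsq t ht, norm_div, Complex.norm_real, Real.norm_of_nonneg (Real.sqrt_nonneg t),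
      ← Complex.ofReal_sin, Complex.norm_real]
    apply div_le_div_of_nonneg_right _ (Real.sqrt_nonneg t)
    exact Real.abs_sin_le_one _
  have hone : sf 0 = 1 := by
    have h1 := (sf_hasSum 0).tsum_eq
    rw [tsum_eq_single 0] at h1
    · rw [← h1]; simp [cf]
    · intro n hn; simp [hn]
  have hpi : sf ((Real.pi ^ 2 : ℝ) : ℂ) = 0 := by
    rw [hsq _ (by positivity), Real.sqrt_sq Real.pi_pos.le, ← Complex.ofReal_sin, Real.sin_pi]
    simp
  refine H sf sf_diff ⟨0, ((Real.pi ^ 2 : ℝ) : ℂ), by rw [hone, hpi]; exact one_ne_zero⟩ (1 / 2) 1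
    ?_ ?_ (by norm_num) ⟨0, fun t => (t : ℂ), Complex.continuous_ofReal, ?_, hasy⟩
  · intro ε hε
    filter_upwards [eventually_ge_atTop 1] with r hr z hz
    refine (sf_growth z).trans (Real.exp_le_exp.2 ?_)
    rw [hz, Real.sqrt_eq_rpow]
    exact Real.rpow_le_rpow_of_exponent_le hr (by linarith)
  · refine tendsto_const_nhds.congr' ?_
    filter_upwards [Ioo_mem_nhdsLT (show (0:ℝ) < 1 by norm_num)] with ξ hξ
    exact (density ξ hξ.1 hξ.2).limsup_eq.symm
  · have : (fun t : ℝ => ‖(t : ℂ)‖) = fun t => |t| := by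
      funext t; rw [Complex.norm_real, Real.norm_eq_abs]
    rw [this]
    exact tendsto_abs_atTop_atTop

end Pool.Agent.S04252
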