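import Pool.Statements.S04283
import Pool.Agent.X93.BLT.Main

set_option autoImplicit false
open MeasureTheory
open Pool Pool.MP_32c791_an

namespace Pool.Agent.S04283

/-- For every dimension d and every lattice M·Z^{2d} in R^{2d}, if the Gabor system of g in L^2(R^d) over that lattice is a Riesz basis, then ∣x∣g is not in L^2 or g is not in H^1, i.e. ∣ξ∣ĝ is not in L^2. -/
theorem result :
  ∀ (d : ℕ), 0 < d →
  ∀ (M : Matrix (Fin d ⊕ Fin d) (Fin d ⊕ Fin d) ℝ), M.det ≠ 0 →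
  ∀ (g : (Fin d → ℝ) → ℂ), MemLp g 2 volume →
  ((∀ h : (Fin d → ℝ) → ℂ, MemLp h 2 volume →
      (∀ k : Fin d ⊕ Fin d → ℤ,
        ∫ x, (starRingEnd ℂ) (h x) *
          (Complex.exp (2 * (Real.pi : ℂ) * Complex.I *
              ((∑ j, Matrix.mulVec M (fun i => ((k i : ℤ) : ℝ)) (Sum.inr j) * x j : ℝ) : ℂ)) *
            g (x - fun j => Matrix.mulVec M (fun i => ((k i : ℤ) : ℝ)) (Sum.inl j))) = 0) →
      h =ᵐ[volume] 0) ∧
    ∃ A B : ℝ, 0 < A ∧ 0 < B ∧
      ∀ (s : Finset (Fin d ⊕ Fin d → ℤ)) (c : (Fin d ⊕ Fin d → ℤ) → ℂ),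
        A * ∑ k ∈ s, ‖c k‖ ^ 2 ≤
          ∫ x, ‖∑ k ∈ s, c k *
            (Complex.exp (2 * (Real.pi : ℂ) * Complex.I *
                ((∑ j, Matrix.mulVec M (fun i => ((k i : ℤ) : ℝ)) (Sum.inr j) * x j : ℝ) : ℂ)) *
              g (x - fun j => Matrix.mulVec M (fun i => ((k i : ℤ) : ℝ)) (Sum.inl j)))‖ ^ 2 ∧
        ∫ x, ‖∑ k ∈ s, c k *
            (Complex.exp (2 * (Real.pi : ℂ) * Complex.I *
                ((∑ j, Matrix.mulVec M (fun i => ((k i : ℤ) : ℝ)) (Sum.inr j) * x j : ℝ) : ℂ)) *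
              g (x - fun j => Matrix.mulVec M (fun i => ((k i : ℤ) : ℝ)) (Sum.inl j)))‖ ^ 2
          ≤ B * ∑ k ∈ s, ‖c k‖ ^ 2) →
  ¬ (Integrable (fun x : Fin d → ℝ => (∑ j, x j ^ 2) * ‖g x‖ ^ 2) volume ∧
     ∀ j : Fin d, ∃ h : (Fin d → ℝ) → ℂ, MemLp h 2 volume ∧
       ∀ φ : (Fin d → ℝ) → ℂ, ContDiff ℝ ((⊤ : ℕ∞) : WithTop ℕ∞) φ → HasCompactSupport φ →
         ∫ x, g x * fderiv ℝ φ x (Pi.single j (1 : ℝ) : Fin d → ℝ) = - ∫ x, h x * φ x) := by
  intro d hd M _hM g hg hR hcon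
  obtain ⟨hcomp, A, B, hA, hB, hAB⟩ := hR
  obtain ⟨hint, hweak⟩ := hcon
  have hlin : ∀ (k l : Fin d ⊕ Fin d → ℤ),
      Matrix.mulVec M (fun i => (((k - l) i : ℤ) : ℝ))
        = Matrix.mulVec M (fun i => ((k i : ℤ) : ℝ)) - Matrix.mulVec M (fun i => ((l i : ℤ) : ℝ)) := by
    intro k l
    rw [← Matrix.mulVec_sub]
    congr 1
    funext i
    simp
  let S : Pool.Agent.X93.BLT.Sys d :=
    { a := fun k j => Matrix.mulVec M (fun i => ((k i : ℤ) : ℝ)) (Sum.inl j)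
      b := fun k j => Matrix.mulVec M (fun i => ((k i : ℤ) : ℝ)) (Sum.inr j)
      a_sub := by
        intro k l
        funext j
        rw [hlin k l]
        rfl
      b_sub := by
        intro k l
        funext j
        rw [hlin k l]
        rfl }
  have hz : Pool.Agent.X93.BLT.Riesz S g A B :=
    { mem := hg
      hA := hA
      hB := hB
      complete := fun h hh hk => hcomp h hh hk
      lower := fun s c => (hAB s c).1
      upper := fun s c => (hAB s c).2 }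
  have hX : MemLp (Pool.Agent.X93.BLT.mulX ⟨0, hd⟩ g) 2 volume := by
    rw [Pool.Agent.X93.BLT.memLp_mulX_iff hg.aestronglyMeasurable]
    refine hint.mono' ?_ ?_
    · have h1 : Continuous (fun x : Fin d → ℝ => x ⟨0, hd⟩ ^ 2) := by fun_prop
      exact h1.aestronglyMeasurable.mul (hg.aestronglyMeasurable.norm.pow 2)
    · refine Filter.Eventually.of_forall (fun x => ?_)
      rw [Real.norm_eq_abs, abs_of_nonneg (by positivity)]
      apply mul_le_mul_of_nonneg_right _ (by positivity)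
      exact Finset.single_le_sum (f := fun j : Fin d => x j ^ 2) (fun j _ => by positivity)
        (Finset.mem_univ _)
  obtain ⟨h', hh', hφ⟩ := hweak ⟨0, hd⟩
  exact Pool.Agent.X93.BLT.blt hz ⟨0, hd⟩ hX hh' hφ

end Pool.Agent.S04283
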