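import Pool.Statements.S04321
import Pool.Agent.Results.MP_2eaf66_an.FourierLowerBound

set_option autoImplicit false
open scoped ComplexOrder
open Pool Pool.MP_35c443_an

namespace Pool.Agent.S04321

/-- For every k ≥ 1 and every smooth real 2π-periodic a, Z_k(a) is real and ≥ 0. Here Z_k(a) sums N_j·â_{j1}⋯â_{j2k} over j in ℤ^{2k} with sum 0, and N_j = Σ_n (∣f(n)∣ − f(n)) with f(n) = ∏_i (n + j1+…+j_i). -/
theorem result :
    ∀ k : ℕ, 1 ≤ k → ∀ a : ℝ → ℝ, ContDiff ℝ (⊤ : ℕ∞) a → Function.Periodic a (2 * Real.pi) →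
      (0 : ℂ) ≤ ∑' j : {j : Fin (2 * k) → ℤ // ∑ i, j i = 0},
        (((∑ᶠ n : ℤ, (|∏ i : Fin (2 * k), (n + ∑ l ∈ Finset.Iio i, j.1 l)|
              - ∏ i : Fin (2 * k), (n + ∑ l ∈ Finset.Iio i, j.1 l))) : ℤ) : ℂ) *
          ∏ i : Fin (2 * k), ((1 / (2 * (Real.pi : ℂ))) *
            ∫ x in (0 : ℝ)..(2 * Real.pi),
              (a x : ℂ) * Complex.exp (-(Complex.I * ((j.1 i : ℤ) : ℂ) * (x : ℂ)))) := by
  intro k hk a ha hp
  obtain ⟨c, hc, h⟩ := Pool.Agent.Results.MP_2eaf66_an.FourierLowerBound.result k hk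
  obtain ⟨-, him, -, hre⟩ := h a ha hp
  change (0 : ℂ) ≤ Pool.Agent.Results.MP_2eaf66_an.FourierLowerBound.zetaInvariant k a
  rw [Complex.le_def]
  refine ⟨?_, ?_⟩
  · refine le_trans ?_ hre
    rw [Complex.zero_re]
    exact mul_nonneg hc.le (tsum_nonneg fun n => by positivity)
  · rw [him, Complex.zero_im]

end Pool.Agent.S04321
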