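import Pool.Statements.S04349
import Pool.Agent.X192.HR.A6

set_option autoImplicit false
open Pool Pool.MP_37b94e_an

namespace Pool.Agent.S04349

open Pool.Agent.X192.HR Metric Set

/-- padding by zeros -/
theorem pad {n a c : ℕ} (h : a ≤ c) {p : (Fin n → ℂ) → ℝ}
    (hp : ∃ (ε : Fin a → ℝ) (f : Fin a → (Fin n → ℂ) → ℂ),
        (∀ j, ε j = 1 ∨ ε j = -1) ∧ (∀ j, Differentiable ℂ (f j)) ∧
        ∀ z, p z = ∑ j, ε j * Complex.normSq (f j z)) :
    ∃ (ε : Fin c → ℝ) (f : Fin c → (Fin n → ℂ) → ℂ),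
        (∀ j, ε j = 1 ∨ ε j = -1) ∧ (∀ j, Differentiable ℂ (f j)) ∧
        ∀ z, p z = ∑ j, ε j * Complex.normSq (f j z) := by
  obtain ⟨b, rfl⟩ := Nat.exists_eq_add_of_le h
  obtain ⟨ε, f, hε, hf, hpf⟩ := hp
  refine ⟨Fin.append ε fun _ => 1, Fin.append f fun _ => fun _ => 0, ?_, ?_, ?_⟩
  · intro j
    refine Fin.addCases (fun i => ?_) (fun i => ?_) j
    · rw [Fin.append_left]; exact hε i
    · rw [Fin.append_right]; exact Or.inl rfl
  · intro j
    refine Fin.addCases (fun i => ?_) (fun i => ?_) j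
    · rw [Fin.append_left]; exact hf i
    · rw [Fin.append_right]; exact differentiable_const _
  · intro z
    rw [Fin.sum_univ_add, hpf z]
    simp only [Fin.append_left, Fin.append_right, map_zero, mul_zero, Finset.sum_const_zero,
      add_zero]

/-- sums of products `a conj(b)` -/
theorem rep_of_products {n r : ℕ} {p : (Fin n → ℂ) → ℝ} (a b : Fin r → (Fin n → ℂ) → ℂ)
    (ha : ∀ j, Differentiable ℂ (a j)) (hb : ∀ j, Differentiable ℂ (b j))
    (h : ∀ z, (p z : ℂ) = ∑ j, a j z * star (b j z)) :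
    ∃ (ε : Fin (r + r) → ℝ) (f : Fin (r + r) → (Fin n → ℂ) → ℂ),
        (∀ j, ε j = 1 ∨ ε j = -1) ∧ (∀ j, Differentiable ℂ (f j)) ∧
        ∀ z, p z = ∑ j, ε j * Complex.normSq (f j z) := by
  refine ⟨Fin.append (fun _ => 1) (fun _ => -1),
    Fin.append (fun j => fun z => (1 / 2 : ℂ) * (a j z + b j z))
      (fun j => fun z => (1 / 2 : ℂ) * (a j z - b j z)), ?_, ?_, ?_⟩
  · intro j
    refine Fin.addCases (fun i => ?_) (fun i => ?_) j
    · rw [Fin.append_left]; exact Or.inl rfl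
    · rw [Fin.append_right]; exact Or.inr rfl
  · intro j
    refine Fin.addCases (fun i => ?_) (fun i => ?_) j
    · rw [Fin.append_left]; exact ((ha i).add (hb i)).const_mul _
    · rw [Fin.append_right]; exact ((ha i).sub (hb i)).const_mul _
  · intro z
    rw [Fin.sum_univ_add]
    simp only [Fin.append_left, Fin.append_right]
    rw [← Finset.sum_add_distrib]
    have h1 := congrArg Complex.re (h z)
    rw [Complex.ofReal_re, Complex.re_sum] at h1
    rw [h1]
    refine Finset.sum_congr rfl fun j _ => ?_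
    have h2 : star (b j z) = (starRingEnd ℂ) (b j z) := rfl
    rw [h2]
    simp only [Complex.normSq_apply, Complex.mul_re, Complex.mul_im, Complex.add_re, Complex.add_im,
      Complex.sub_re, Complex.sub_im, Complex.conj_re, Complex.conj_im]
    norm_num
    ring

/-- For n ≥ 2 and each k there is c such that any real-analytic p on ℂⁿ whose restriction to every affine complex hyperplane is a sum of k terms ±∣holomorphic∣² is itself a sum of c terms ±∣entire holomorphic∣². -/
theorem result :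
    ∀ n : ℕ, 2 ≤ n → ∀ k : ℕ, ∃ c : ℕ, ∀ p : (Fin n → ℂ) → ℝ,
      AnalyticOnNhd ℝ p Set.univ →
      (∀ (a : Fin n → ℂ) (L : (Fin (n - 1) → ℂ) →ₗ[ℂ] (Fin n → ℂ)),
        Function.Injective L →
        ∃ (ε : Fin k → ℝ) (g : Fin k → (Fin (n - 1) → ℂ) → ℂ),
          (∀ j, ε j = 1 ∨ ε j = -1) ∧ (∀ j, Differentiable ℂ (g j)) ∧
          ∀ x, p (a + L x) = ∑ j, ε j * Complex.normSq (g j x)) →
      ∃ (ε : Fin c → ℝ) (f : Fin c → (Fin n → ℂ) → ℂ),
        (∀ j, ε j = 1 ∨ ε j = -1) ∧ (∀ j, Differentiable ℂ (f j)) ∧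
        ∀ z, p z = ∑ j, ε j * Complex.normSq (f j z) := by
  intro n hn k
  obtain ⟨m, rfl⟩ : ∃ m, n = m + 2 := ⟨n - 2, by omega⟩
  refine ⟨(k * k) * (k * k) + (k * k) * (k * k), ?_⟩
  intro p hp hrep
  change (∀ (a : Fin (m + 2) → ℂ) (L : (Fin (m + 1) → ℂ) →ₗ[ℂ] (Fin (m + 2) → ℂ)),
        Function.Injective L →
        ∃ (ε : Fin k → ℝ) (g : Fin k → (Fin (m + 1) → ℂ) → ℂ),
          (∀ j, ε j = 1 ∨ ε j = -1) ∧ (∀ j, Differentiable ℂ (g j)) ∧
          ∀ x, p (a + L x) = ∑ j, ε j * Complex.normSq (g j x)) at hrep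
  -- all affine maps
  have haff : AffRep (m + 1) k p := by
    rintro φ ⟨a, L, hL⟩
    obtain ⟨L', M, hinj, hLM⟩ := exists_factor_injective (by
      rw [Module.finrank_fin_fun, Module.finrank_fin_fun]; omega) L
    obtain ⟨ε, g, -, hg, hgp⟩ := hrep a L' hinj
    refine ⟨ε, fun j s => g j (M s), fun j => ?_, fun s => ?_⟩
    · exact (hg j).comp M.toContinuousLinearMap.differentiable
    · rw [hL, hLM, hgp]
  -- lines
  have hline : LineRep p := by
    intro a v
    obtain ⟨ε, g, hg, hgp⟩ := haff (fun s => a + s 0 • v)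
      ⟨a, (LinearMap.proj (R := ℂ) (φ := fun _ : Fin (m + 1) => ℂ) 0).smulRight v, fun s => rfl⟩
    refine ⟨k, ε, fun j ζ => g j fun _ => ζ, fun j => ?_, fun ζ => hgp fun _ => ζ⟩
    exact (hg j).comp (by fun_prop)
  obtain ⟨K, hK⟩ := exists_isKer hline
  obtain ⟨r₀, hr₀, hS⟩ := hK.sesan_near (hp 0 trivial)
  obtain ⟨r, hr, ⟨D⟩⟩ := exists_localRank (local_rank haff hK hr₀ hS)
  have hw := entire hp hK hr₀ hS D
  have hx : ∀ i, AnalyticOnNhd ℂ (fun z => K z (D.x i)) univ := by
    intro i z _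
    have h1 : r₀ ≤ max r₀ (‖z‖ + 1) := le_max_left _ _
    refine analytic_x hK D h1 (fun j y _ => hw j y trivial) i z ?_
    rw [mem_ball, dist_zero_right]
    exact lt_of_lt_of_le (by linarith) (le_max_right _ _)
  have hformula : ∀ z, (p z : ℂ) = ∑ j, K z (D.w j) * ∑ i, D.Q j i * star (K z (D.x i)) := by
    intro z
    have h1 : r₀ ≤ max r₀ (‖z‖ + 1) := le_max_left _ _
    refine formula_diag hp hK hr₀ D h1 (fun j y _ => hw j y trivial) ?_
    rw [mem_ball, dist_zero_right]
    exact lt_of_lt_of_le (by linarith) (le_max_right _ _)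
  refine pad (a := r + r) (by omega) ?_
  refine rep_of_products (fun j z => K z (D.w j))
    (fun j z => ∑ i, star (D.Q j i) * K z (D.x i)) ?_ ?_ ?_
  · intro j z
    exact (hw j z trivial).differentiableAt
  · intro j
    apply Differentiable.fun_sum
    intro i _
    exact (differentiable_const _).mul fun z => (hx i z trivial).differentiableAt
  · intro z
    rw [hformula z]
    refine Finset.sum_congr rfl fun j _ => ?_
    rw [star_sum]
    congr 1
    refine Finset.sum_congr rfl fun i _ => ?_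
    rw [star_mul, star_star, mul_comm]

end Pool.Agent.S04349
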