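import Pool.Statements.S04503
import Pool.Agent.H352R4.CA.End

set_option autoImplicit false
open Filter Topology
open scoped ENNReal NNReal
open Pool Pool.MP_437602_an

namespace Pool.Agent.S04503

open Pool.Agent.H352R4.CA in
/-- For the (uniquely determined) continuous analytic capacity α(S)=sup over compact F⊆S and continuous f on ℂ, holomorphic off F, ∣f∣≤1, f(∞)=0, of ∣lim z f(z)∣: for compact K,E with α(K)=0, α(E\K)=α(E). -/
theorem result :
    ∀ α : Set ℂ → ℝ≥0∞,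
      (∀ S : Set ℂ, α S =
        ⨆ (F : Set ℂ) (_ : IsCompact F) (_ : F ⊆ S) (f : ℂ → ℂ) (c : ℂ)
          (_ : Continuous f ∧ DifferentiableOn ℂ f Fᶜ ∧ (∀ z, ‖f z‖ ≤ 1) ∧
                Tendsto f (cocompact ℂ) (𝓝 0) ∧
                Tendsto (fun z => z * f z) (cocompact ℂ) (𝓝 c)),
          ((‖c‖₊ : ℝ≥0) : ℝ≥0∞)) →
      ∀ K E : Set ℂ, IsCompact K → IsCompact E → α K = 0 → α (E \ K) = α E := by
  intro α hα K E hK hE h0
  -- admissible functions give lower bounds of `α`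
  have key : ∀ (S L : Set ℂ) (h : ℂ → ℂ) (l : ℂ), IsCompact L → L ⊆ S → Ac L h l →
      (∀ z, ‖h z‖ ≤ 1) → ((‖l‖₊ : ℝ≥0) : ℝ≥0∞) ≤ α S := by
    intro S L h l hL hLS H hb
    rw [hα S]
    exact le_iSup_of_le L (le_iSup_of_le hL (le_iSup_of_le hLS (le_iSup_of_le h
      (le_iSup_of_le l (le_iSup_of_le ⟨H.cont, H.hol, hb, H.zero, H.lim⟩ le_rfl)))))
  -- `alpha K = 0`
  have hK0 : alpha K = 0 := by
    apply le_antisymm _ (alpha_nonneg K)
    refine Real.sSup_le ?_ le_rfl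
    rintro c ⟨h, l, H, hb, rfl⟩
    have h1 := key K K h l hK subset_rfl H hb
    rw [h0, nonpos_iff_eq_zero, ENNReal.coe_eq_zero, nnnorm_eq_zero] at h1
    rw [h1, norm_zero]
  have hmain := alpha_remove hE hK hK0
  apply le_antisymm
  · rw [hα (E \ K), hα E]
    refine iSup_le fun F => iSup_le fun hF => iSup_le fun hFS => ?_
    exact le_iSup_of_le F (le_iSup_of_le hF (le_iSup_of_le (hFS.trans Set.sdiff_subset) le_rfl))
  · rw [hα E]
    refine iSup_le fun F => iSup_le fun hF => iSup_le fun hFS => iSup_le fun f => iSup_le fun c =>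
      iSup_le fun hf => ?_
    obtain ⟨h1, h2, h3, h4, h5⟩ := hf
    have hAc : Ac E f c := ⟨h1, h2.mono (Set.compl_subset_compl.2 hFS), h5⟩
    have hle : ‖c‖ ≤ alpha E := le_alpha hE hAc h3
    rw [← hmain] at hle
    refine ENNReal.le_of_forall_pos_le_add fun ε hε _ => ?_
    -- choose `L` and then `h`
    by_cases hc : ‖c‖ < (ε : ℝ)
    · refine le_trans ?_ le_add_self
      exact_mod_cast hc.le
    · rw [not_lt] at hc
      have hlt : ‖c‖ - ε < sSup {c : ℝ | ∃ L : Set ℂ, IsCompact L ∧ L ⊆ E \ K ∧ c = alpha L} := by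
        have : (0 : ℝ) < ε := hε
        linarith
      have hne : {c : ℝ | ∃ L : Set ℂ, IsCompact L ∧ L ⊆ E \ K ∧ c = alpha L}.Nonempty :=
        ⟨alpha ∅, ∅, isCompact_empty, Set.empty_subset _, rfl⟩
      obtain ⟨-, ⟨L, hL, hLE, rfl⟩, hlt2⟩ := exists_lt_of_lt_csSup hne hlt
      have hne2 : {c | ∃ h l, Ac L h l ∧ (∀ z, ‖h z‖ ≤ 1) ∧ c = ‖l‖}.Nonempty := by
        by_contra hcon
        rw [Set.not_nonempty_iff_eq_empty] at hcon
        rw [alpha, hcon, Real.sSup_empty] at hlt2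
        linarith
      obtain ⟨-, ⟨h, l, H, hb, rfl⟩, hlt3⟩ := exists_lt_of_lt_csSup hne2 hlt2
      refine le_trans ?_ (add_le_add (key (E \ K) L h l hL hLE H hb) le_rfl)
      have hfin : ‖c‖ ≤ ‖l‖ + ε := by linarith
      exact_mod_cast hfin

end Pool.Agent.S04503
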