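import Pool.Statements.S04554
import Pool.Agent.X189.IET

set_option autoImplicit false
open Pool Pool.MP_483d01_an

namespace Pool.Agent.S04554

/-- The negation of the preceding statement: For any permutation and any positive length vector a whose interval exchange has a unique invariant probability measure, and any direction b, there is ε>0 such that for almost every t in (−ε,ε) the lengths a+tb are again uniquely ergodic. -/
theorem result :
    ¬ (∀ (d : ℕ) (π : Equiv.Perm (Fin d)) (UE : (Fin d → ℝ) → Prop),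
    (∀ v : Fin d → ℝ, UE v ↔ ∃! μ : MeasureTheory.Measure ℝ,
        MeasureTheory.IsProbabilityMeasure μ ∧
        μ ((Set.Ico (0 : ℝ) (∑ i : Fin d, v i))ᶜ) = 0 ∧
        MeasureTheory.Measure.map (fun x : ℝ => x + ∑ j : Fin d,
          (Set.Ico (∑ i ∈ (Finset.univ : Finset (Fin d)).filter (fun i : Fin d => i < j), v i)
             ((∑ i ∈ (Finset.univ : Finset (Fin d)).filter (fun i : Fin d => i < j), v i) + v j)).indicator
            (fun _ : ℝ => (∑ i ∈ (Finset.univ : Finset (Fin d)).filter (fun i : Fin d => π i < π j), v i) -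
                      ∑ i ∈ (Finset.univ : Finset (Fin d)).filter (fun i : Fin d => i < j), v i) x) μ = μ) →
    ∀ a b : Fin d → ℝ, (∀ i, 0 < a i) → UE a →
      ∃ ε : ℝ, 0 < ε ∧
        ∀ᵐ t : ℝ ∂(MeasureTheory.volume.restrict (Set.Ioo (-ε) ε)), UE (a + t • b)) := by
  intro h
  set α : ℝ := Real.sqrt 2 - 1 with hα
  have hirr : Irrational α := by
    have := irrational_sqrt_two.sub_ratCast 1
    simpa [hα] using this
  have hs1 : (1:ℝ) < Real.sqrt 2 := by
    rw [Real.lt_sqrt (by norm_num)]
    norm_num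
  have hs2 : Real.sqrt 2 < 2 := by
    rw [Real.sqrt_lt' (by norm_num)]
    norm_num
  have h0 : 0 < α := by rw [hα]; linarith
  have h1 : α < 1 := by rw [hα]; linarith
  have hval0 : Pool.Agent.X189.IE.len α = ![1 - α + 0, 1 - α, α, α + 0] := by
    rw [← Pool.Agent.X189.IE.len_val, zero_smul, add_zero]
  have key := h 4 Pool.Agent.X189.IE.pm _ (fun v => Iff.rfl) (Pool.Agent.X189.IE.len α)
    Pool.Agent.X189.IE.dir ?_ ?_
  · obtain ⟨ε, hε, hae⟩ := key
    rw [MeasureTheory.ae_restrict_iff' measurableSet_Ioo] at hae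
    have hz : MeasureTheory.volume (Set.Ioo (0:ℝ) ε) = 0 := by
      refine MeasureTheory.measure_mono_null ?_ hae
      intro t ht htt
      have hw : 0 < t := ht.1
      have hu := htt ⟨by linarith, ht.2⟩
      rw [Pool.Agent.X189.IE.map_eq h0 h1 (Pool.Agent.X189.IE.len_val α t),
        Pool.Agent.X189.IE.len_val] at hu
      have hsum : ∑ i : Fin 4, (![1 - α + t, 1 - α, α, α + t] : Fin 4 → ℝ) i = 2 + 2 * t := by
        rw [Fin.sum_univ_four]
        simp
        ring
      rw [hsum] at hu
      exact Pool.Agent.X189.IE.not_ue h0 h1 hw hu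
    rw [Real.volume_Ioo, ENNReal.ofReal_eq_zero] at hz
    linarith
  · intro i
    fin_cases i <;> simp [Pool.Agent.X189.IE.len] <;> linarith
  · rw [Pool.Agent.X189.IE.map_eq h0 h1 hval0, hval0]
    have hsum : ∑ i : Fin 4, (![1 - α + 0, 1 - α, α, α + 0] : Fin 4 → ℝ) i = 2 := by
      rw [Fin.sum_univ_four]
      simp
      ring
    rw [hsum]
    exact Pool.Agent.X189.IE.ue_zero h0 h1 hirr

end Pool.Agent.S04554
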