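import Pool.Statements.S04575
import Pool.Agent.X202.Good
import Pool.Agent.X202.Mixing

set_option autoImplicit false
open Pool Pool.MP_49bdf6_an

namespace Pool.Agent.S04575

open Pool.Agent.X202 in
/-- The case of finite codimension. -/
theorem finite_case (𝕜 : Type) [RCLike 𝕜] (E : Type) [NormedAddCommGroup E] [NormedSpace 𝕜 E]
    [TopologicalSpace.SeparableSpace E] (x : ℕ → E) {C D : ℝ} (f : ℕ → StrongDual 𝕜 E)
    (hb : ∀ i j, f i (x j) = if i = j then 1 else 0) (hC : ∀ n, ‖x n‖ ≤ C) (hD : ∀ n, ‖f n‖ ≤ D)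
    (hQ : FiniteDimensional 𝕜 (E ⧸ (Submodule.span 𝕜 (Set.range x)).topologicalClosure)) :
    ∃ (ι : Type) (_ : Countable ι) (y : ι → E) (C D : ℝ) (g : ℕ ⊕ ι → (E →L[𝕜] 𝕜)),
        (∀ i j : ℕ ⊕ ι, (i = j → g i (Sum.elim x y j) = 1) ∧
            (i ≠ j → g i (Sum.elim x y j) = 0)) ∧
        (∀ i : ℕ ⊕ ι, ‖Sum.elim x y i‖ ≤ C ∧ ‖g i‖ ≤ D) ∧
        (Submodule.span 𝕜 (Set.range (Sum.elim x y))).topologicalClosure = ⊤ := by
  obtain ⟨F, D', z, h, h1, h2, h3, h4, h5, h6, h7⟩ := thmA x f hb hD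
  set G := (Submodule.span 𝕜 (Set.range x)).topologicalClosure with hG
  have hhG : ∀ i, ∀ v ∈ G, h i v = 0 := by
    intro i v hv
    have hcl : IsClosed {w : E | h i w = 0} := isClosed_eq (h i).continuous continuous_const
    refine closure_minimal (fun w hw => ?_) hcl hv
    change h i w = 0
    induction hw using Submodule.span_induction with
    | mem w hw => obtain ⟨k, rfl⟩ := hw; exact h4 i k
    | zero => exact map_zero _
    | add a b _ _ ha hb => rw [map_add, ha, hb, add_zero]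
    | smul c a _ ha => rw [map_smul, ha, smul_zero]
  let ι : Type := {j : ℕ // h j (z j) = 1}
  have hli : LinearIndependent 𝕜 (fun j : ι => (Submodule.Quotient.mk (z j.1) : E ⧸ G)) := by
    rw [linearIndependent_iff']
    intro s c hc i hi
    have h8 : (Submodule.Quotient.mk (∑ j ∈ s, c j • z j.1) : E ⧸ G) = 0 := by
      rw [← hc]
      have := map_sum G.mkQ (fun j : ι => c j • z j.1) s
      simp only [Submodule.mkQ_apply] at this
      rw [this]
      exact Finset.sum_congr rfl fun j _ => rfl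
    rw [Submodule.Quotient.mk_eq_zero] at h8
    have h9 := hhG i.1 _ h8
    rw [map_sum, Finset.sum_eq_single_of_mem i hi] at h9
    · rw [map_smul, i.2, smul_eq_mul, mul_one] at h9
      exact h9
    · intro j _ hj
      rw [map_smul, h5 _ _ (fun hij => hj (Subtype.ext hij.symm)), smul_zero]
  have hfin : Finite ι := hli.finite
  obtain ⟨C1, hC1⟩ := (Set.finite_range fun j : ι => ‖z j.1‖).bddAbove
  obtain ⟨D1, hD1⟩ := (Set.finite_range fun j : ι => ‖h j.1‖).bddAbove
  refine ⟨ι, inferInstance, fun j => z j.1, max C C1, max D' D1, Sum.elim F (fun j => h j.1),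
    ?_, ?_, ?_⟩
  · rintro (i | i) (j | j)
    · simp only [Sum.elim_inl, Sum.inl.injEq, h2]
      exact ⟨fun h => if_pos h, fun h => if_neg (fun h' => h (by rw [h']))⟩
    · simp only [Sum.elim_inl, Sum.elim_inr, h3]
      exact ⟨fun h => by simp at h, fun _ => trivial⟩
    · simp only [Sum.elim_inl, Sum.elim_inr, h4]
      exact ⟨fun h => by simp at h, fun _ => trivial⟩
    · simp only [Sum.elim_inr]
      refine ⟨fun h => ?_, fun hij => ?_⟩
      · have : i = j := Sum.inr_injective h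
        rw [this]; exact j.2
      · exact h5 _ _ fun h' => hij (by rw [Subtype.ext h'])
  · rintro (i | i)
    · exact ⟨(hC i).trans (le_max_left _ _), (h1 i).trans (le_max_left _ _)⟩
    · exact ⟨(hC1 ⟨i, rfl⟩).trans (le_max_right _ _), (hD1 ⟨i, rfl⟩).trans (le_max_right _ _)⟩
  · rw [eq_top_iff, ← h7]
    refine Submodule.topologicalClosure_mono ?_
    rw [Submodule.span_le]
    rintro _ (⟨n, rfl⟩ | ⟨n, rfl⟩)
    · exact Submodule.subset_span ⟨Sum.inl n, rfl⟩
    · rcases h6 n with h | ⟨h, -⟩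
      · exact Submodule.subset_span ⟨Sum.inr ⟨n, h⟩, rfl⟩
      · rw [h]; exact Submodule.zero_mem _

open Pool.Agent.X202 in
/-- The case of infinite codimension. -/
theorem infinite_case (𝕜 : Type) [RCLike 𝕜] (E : Type) [NormedAddCommGroup E] [NormedSpace 𝕜 E]
    [TopologicalSpace.SeparableSpace E] (x : ℕ → E) {C D : ℝ} (f : ℕ → StrongDual 𝕜 E)
    (hb : ∀ i j, f i (x j) = if i = j then 1 else 0) (hC : ∀ n, ‖x n‖ ≤ C) (hD : ∀ n, ‖f n‖ ≤ D)
    (hQ : ¬ FiniteDimensional 𝕜 (E ⧸ (Submodule.span 𝕜 (Set.range x)).topologicalClosure)) :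
    ∃ (ι : Type) (_ : Countable ι) (y : ι → E) (C D : ℝ) (g : ℕ ⊕ ι → (E →L[𝕜] 𝕜)),
        (∀ i j : ℕ ⊕ ι, (i = j → g i (Sum.elim x y j) = 1) ∧
            (i ≠ j → g i (Sum.elim x y j) = 0)) ∧
        (∀ i : ℕ ⊕ ι, ‖Sum.elim x y i‖ ≤ C ∧ ‖g i‖ ≤ D) ∧
        (Submodule.span 𝕜 (Set.range (Sum.elim x y))).topologicalClosure = ⊤ := by
  obtain ⟨F, u, g, z, h, D', hF1, hu1, hg1, hFx, hFu, hFz, hgx, hgu, hgz, hhx, hhu, hhz, hact,
    hdense⟩ := exists_system x f hb hD hQ
  have hD'0 : 0 ≤ D' := (norm_nonneg _).trans (hF1 0)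
  let e : ℕ → ℕ → E := fun j k => if k = 0 then z j else u (Nat.pair j (k - 1))
  let es : ℕ → ℕ → StrongDual 𝕜 E := fun j k => if k = 0 then h j else g (Nat.pair j (k - 1))
  have he0 : ∀ j, e j 0 = z j := fun j => rfl
  have hes0 : ∀ j, es j 0 = h j := fun j => rfl
  have heS : ∀ j k, k ≠ 0 → e j k = u (Nat.pair j (k - 1)) := fun j k hk => by
    simp only [e]; rw [if_neg hk]
  have hesS : ∀ j k, k ≠ 0 → es j k = g (Nat.pair j (k - 1)) := fun j k hk => by
    simp only [es]; rw [if_neg hk]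
  obtain ⟨y, ys, hys1, hys2, hys3, hys4, hys5, hys6⟩ := mixing (𝕜 := 𝕜)
    (fun j => h j (z j) = 1) e es (by
      intro j k j' k' hk hk'
      by_cases h1 : k = 0 <;> by_cases h2 : k' = 0
      · rw [h1, h2, he0, hes0]
        by_cases h3 : j = j'
        · subst h3
          rw [if_pos ⟨rfl, rfl⟩]
          rcases hk with hk | hk
          · exact absurd h1 hk
          · exact hk
        · rw [if_neg (fun h => h3 h.1), hhz j j' h3]
      · rw [h1, hes0, heS _ _ h2, hhu, if_neg]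
        rintro ⟨-, h4⟩
        exact h2 h4.symm
      · rw [h2, hesS _ _ h1, he0, hgz, if_neg]
        rintro ⟨-, h4⟩
        exact h1 h4
      · rw [hesS _ _ h1, heS _ _ h2, hgu]
        by_cases h3 : j = j' ∧ k = k'
        · rw [if_pos h3, if_pos (by rw [h3.1, h3.2])]
        · rw [if_neg h3, if_neg]
          intro h4
          rw [Nat.pair_eq_pair] at h4
          exact h3 ⟨h4.1, by omega⟩)
    (by
      intro j hj
      rcases hact j with h1 | ⟨h1, h2⟩
      · exact absurd h1 hj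
      · exact ⟨h1, h2⟩) hD'0
    (fun j k hk => by rw [heS j k hk]; exact hu1 _)
    (fun j k hk => by rw [hesS j k hk]; exact hg1 _)
  have hysx : ∀ n j k, ys j k (x n) = 0 := by
    intro n
    refine hys4 (x n) fun j k => ?_
    by_cases hk : k = 0
    · rw [hk, hes0]; exact hhx j n
    · rw [hesS j k hk]; exact hgx _ n
  have hFy : ∀ n j k, F n (y j k) = 0 := by
    intro n
    refine hys5 (F n) fun j k => ?_
    by_cases hk : k = 0
    · rw [hk, he0]; exact hFz n j
    · rw [heS j k hk]; exact hFu n _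
  let ι : Type := {p : ℕ × ℕ // p.2 ≠ 0 ∨ h p.1 (z p.1) = 1}
  refine ⟨ι, inferInstance, fun p => y p.1.1 p.1.2, max C (1 + 3 * D'), max D' (1 + 3 * D'),
    Sum.elim F (fun p => ys p.1.1 p.1.2), ?_, ?_, ?_⟩
  · rintro (i | i) (j | j)
    · simp only [Sum.elim_inl, Sum.inl.injEq, hFx]
      exact ⟨fun h => if_pos h, fun h => if_neg (fun h' => h (by rw [h']))⟩
    · simp only [Sum.elim_inl, Sum.elim_inr, hFy]
      exact ⟨fun h => by simp at h, fun _ => trivial⟩
    · simp only [Sum.elim_inl, Sum.elim_inr, hysx]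
      exact ⟨fun h => by simp at h, fun _ => trivial⟩
    · simp only [Sum.elim_inr]
      rw [hys1 i.1.1 i.1.2 j.1.1 j.1.2 i.2 j.2]
      refine ⟨fun h => ?_, fun hij => ?_⟩
      · have : i = j := Sum.inr_injective h
        rw [this, if_pos ⟨rfl, rfl⟩]
      · rw [if_neg]
        rintro ⟨h1, h2⟩
        exact hij (congrArg Sum.inr (Subtype.ext (Prod.ext h1 h2)))
  · rintro (i | i)
    · exact ⟨(hC i).trans (le_max_left _ _), (hF1 i).trans (le_max_left _ _)⟩
    · exact ⟨(hys2 _ _).trans (le_max_right _ _), (hys3 _ _).trans (le_max_right _ _)⟩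
  · rw [eq_top_iff, ← hdense]
    refine Submodule.topologicalClosure_mono ?_
    rw [Submodule.span_le]
    have hyS : ∀ j k, (k ≠ 0 ∨ h j (z j) = 1) →
        y j k ∈ Submodule.span 𝕜 (Set.range (Sum.elim x fun p : ι => y p.1.1 p.1.2)) :=
      fun j k hjk => Submodule.subset_span ⟨Sum.inr ⟨(j, k), hjk⟩, rfl⟩
    have heS' := hys6 _ hyS
    rintro _ ((⟨n, rfl⟩ | ⟨n, rfl⟩) | ⟨n, rfl⟩)
    · exact Submodule.subset_span ⟨Sum.inl n, rfl⟩
    · have := heS' (Nat.unpair n).1 ((Nat.unpair n).2 + 1)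
      rw [heS _ _ (by omega), Nat.add_sub_cancel, Nat.pair_unpair] at this
      exact this
    · exact heS' n 0

/-- Over ℝ or ℂ, in every separable Banach space, every strictly bounded minimal sequence extends, by adding countably many vectors, to a minimal, strictly bounded sequence whose closed linear span is the whole space. -/
theorem result :
    ∀ (𝕜 : Type) [RCLike 𝕜] (E : Type) [NormedAddCommGroup E] [NormedSpace 𝕜 E]
      [CompleteSpace E] [TopologicalSpace.SeparableSpace E] (x : ℕ → E),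
      (∃ (C D : ℝ) (f : ℕ → (E →L[𝕜] 𝕜)),
        (∀ i j : ℕ, (i = j → f i (x j) = 1) ∧ (i ≠ j → f i (x j) = 0)) ∧
        (∀ n : ℕ, ‖x n‖ ≤ C ∧ ‖f n‖ ≤ D)) →
      ∃ (ι : Type) (_ : Countable ι) (y : ι → E) (C D : ℝ) (g : ℕ ⊕ ι → (E →L[𝕜] 𝕜)),
        (∀ i j : ℕ ⊕ ι, (i = j → g i (Sum.elim x y j) = 1) ∧
            (i ≠ j → g i (Sum.elim x y j) = 0)) ∧
        (∀ i : ℕ ⊕ ι, ‖Sum.elim x y i‖ ≤ C ∧ ‖g i‖ ≤ D) ∧
        (Submodule.span 𝕜 (Set.range (Sum.elim x y))).topologicalClosure = ⊤ := by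
  rintro 𝕜 _ E _ _ _ _ x ⟨C, D, f, hf, hb⟩
  have hb' : ∀ i j, f i (x j) = if i = j then 1 else 0 := by
    intro i j
    split_ifs with h
    · exact (hf i j).1 h
    · exact (hf i j).2 h
  by_cases hQ : FiniteDimensional 𝕜 (E ⧸ (Submodule.span 𝕜 (Set.range x)).topologicalClosure)
  · exact finite_case 𝕜 E x f hb' (fun n => (hb n).1) (fun n => (hb n).2) hQ
  · exact infinite_case 𝕜 E x f hb' (fun n => (hb n).1) (fun n => (hb n).2) hQ

end Pool.Agent.S04575
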