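import Pool.Statements.S04624

set_option autoImplicit false
open MeasureTheory
open Pool Pool.MP_4d58d7_an

namespace Pool.Agent.S04624

/-- `s² = 100/99`. -/
noncomputable def s : ℝ := Real.sqrt (100 / 99)

/-- `c² = 1 - 1/10000`. -/
noncomputable def c : ℝ := Real.sqrt (9999 / 10000)

theorem s_sq : s * s = 100 / 99 := Real.mul_self_sqrt (by norm_num)
theorem c_sq : c * c = 9999 / 10000 := Real.mul_self_sqrt (by norm_num)
theorem s_pos : 0 < s := Real.sqrt_pos.2 (by norm_num)
theorem s_ne : s ≠ 0 := s_pos.ne'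

/-- The sketching matrix with Gram matrix `(100/99) * [[1, σ/100], [σ/100, 1]]` for `σ = ±1`. -/
noncomputable def W (σ : ℝ) : Fin 2 → Fin 2 → ℝ :=
  ![![σ * (1 / 100) * s, c * s], ![s, 0]]

/-- The random sketching matrix: `0` with probability `1/100`, otherwise `W 1` or `W (-1)`. -/
noncomputable def μ : Measure (Fin 2 → Fin 2 → ℝ) :=
  ENNReal.ofReal (1 / 100) • Measure.dirac 0 + ENNReal.ofReal (99 / 200) • Measure.dirac (W 1) +
    ENNReal.ofReal (99 / 200) • Measure.dirac (W (-1))

instance : IsProbabilityMeasure μ := by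
  constructor
  unfold μ
  simp only [Measure.add_apply, Measure.smul_apply, smul_eq_mul, measure_univ, mul_one]
  rw [← ENNReal.ofReal_add (by norm_num) (by norm_num),
    ← ENNReal.ofReal_add (by norm_num) (by norm_num)]
  norm_num

theorem integral_mu (f : (Fin 2 → Fin 2 → ℝ) → ℝ) :
    ∫ ω, f ω ∂μ = (1 / 100) * f 0 + (99 / 200) * f (W 1) + (99 / 200) * f (W (-1)) := by
  have h : ∀ (a : Fin 2 → Fin 2 → ℝ) (r : ℝ),
      Integrable f (ENNReal.ofReal r • (Measure.dirac a : Measure (Fin 2 → Fin 2 → ℝ))) := by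
    intro a r
    refine Integrable.smul_measure ?_ ENNReal.ofReal_ne_top
    exact integrable_dirac (by simp)
  unfold μ
  rw [integral_add_measure ((h _ _).add_measure (h _ _)) (h _ _),
    integral_add_measure (h _ _) (h _ _)]
  simp only [integral_smul_measure, integral_dirac, smul_eq_mul]
  rw [ENNReal.toReal_ofReal (by norm_num), ENNReal.toReal_ofReal (by norm_num)]

theorem quad (σ : ℝ) (hσ : σ * σ = 1) (x : Fin 2 → ℝ) :
    ∑ j, (∑ i, W σ i j * x i) ^ 2 =
      (100 / 99) * (x 0 ^ 2 + x 1 ^ 2 + σ * (1 / 50) * (x 0 * x 1)) := by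
  simp only [Fin.sum_univ_two, W, Matrix.cons_val_zero, Matrix.cons_val_one]
  have h1 := s_sq
  have h2 := c_sq
  have : (σ * (1 / 100) * s * x 0 + s * x 1) ^ 2 + (c * s * x 0 + 0 * x 1) ^ 2
      = (s * s) * ((σ * σ) * (1 / 10000) * x 0 ^ 2 + (c * c) * x 0 ^ 2 + x 1 ^ 2 +
        σ * (1 / 50) * (x 0 * x 1)) := by ring
  rw [this, h1, h2, hσ]
  ring

/-- The target matrix of the regression problem: `B = e₁ + e₂`. -/
noncomputable def B : Matrix (Fin 2) (Fin 1) ℝ := !![1; 1]

/-- The design matrix of the regression problem: `A = e₂`. -/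
noncomputable def A : Matrix (Fin 2) (Fin 1) ℝ := !![0; 1]

theorem A_rank : A.rank = 1 := by
  apply le_antisymm
  · simpa using Matrix.rank_le_width A
  · by_contra h
    have h0 : A.rank = 0 := by omega
    unfold Matrix.rank at h0
    rw [Submodule.finrank_eq_zero, LinearMap.range_eq_bot] at h0
    have h1 := congrFun (LinearMap.congr_fun h0 (fun _ => 1)) 1
    simp [A, Matrix.mulVec, dotProduct] at h1

/-- For every `C` there is `ε ∈ (0,1)` with `1 + C ε < sqrt (1 + 1/10000)`. -/
theorem exists_eps (C : ℝ) : ∃ ε : ℝ, 0 < ε ∧ ε < 1 ∧ 1 + C * ε < Real.sqrt (10001 / 10000) := by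
  have h0 : (1 : ℝ) + 1 / 30000 < Real.sqrt (10001 / 10000) := by
    rw [Real.lt_sqrt (by norm_num)]
    norm_num
  refine ⟨1 / (30000 * (|C| + 1)), by positivity, ?_, lt_of_le_of_lt ?_ h0⟩
  · rw [div_lt_one (by positivity)]
    nlinarith [abs_nonneg C]
  · have : C * (1 / (30000 * (|C| + 1))) ≤ 1 / 30000 := by
      rw [mul_one_div, div_le_div_iff₀ (by positivity) (by norm_num)]
      nlinarith [le_abs_self C, abs_nonneg C]
    linarith

/-- The negation of the preceding statement: There are constants C and c₀>0 such that, for any isotropic n×k random matrix Ω that is a dimension-d OSI with injectivity 1−ε and failure 0.01, sketch-and-solve has error at most (1+Cε)·OPT with probability at least c₀. -/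
theorem result :
    ¬ (∃ C : ℝ, ∃ c₀ : ℝ, 0 < c₀ ∧
    ∀ (n d p k : ℕ), 0 < n → 0 < d → 0 < p → 0 < k →
    ∀ ε : ℝ, 0 < ε → ε < 1 →
    ∀ (A : Matrix (Fin n) (Fin d) ℝ), A.rank = d →
    ∀ (B : Matrix (Fin n) (Fin p) ℝ),
    ∀ (μ : Measure (Fin n → Fin k → ℝ)) [IsProbabilityMeasure μ],
      (∀ x : Fin n → ℝ, ∫ ω, (∑ j, (∑ i, ω i j * x i) ^ 2) ∂μ = ∑ i, x i ^ 2) →
      (∀ V : Submodule ℝ (Fin n → ℝ), Module.finrank ℝ V = d →
         ENNReal.ofReal (99 / 100) ≤
           μ {ω | ∀ x ∈ V, (1 - ε) * ∑ i, x i ^ 2 ≤ ∑ j, (∑ i, ω i j * x i) ^ 2}) →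
      ENNReal.ofReal c₀ ≤ μ {ω | ∀ G : Matrix (Fin d) (Fin k) ℝ,
          (Matrix.transpose (Matrix.of ω) * A) * G * (Matrix.transpose (Matrix.of ω) * A)
              = Matrix.transpose (Matrix.of ω) * A →
          G * (Matrix.transpose (Matrix.of ω) * A) * G = G →
          Matrix.transpose ((Matrix.transpose (Matrix.of ω) * A) * G)
              = (Matrix.transpose (Matrix.of ω) * A) * G →
          Matrix.transpose (G * (Matrix.transpose (Matrix.of ω) * A))
              = G * (Matrix.transpose (Matrix.of ω) * A) →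
          ∀ X : Matrix (Fin d) (Fin p) ℝ,
            Real.sqrt (∑ i, ∑ j, ((A * (G * Matrix.transpose (Matrix.of ω) * B) - B) i j) ^ 2) ≤
              (1 + C * ε) * Real.sqrt (∑ i, ∑ j, ((A * X - B) i j) ^ 2)}) := by
  rintro ⟨C, c₀, hc₀, H⟩
  obtain ⟨ε, hε0, hε1, hε⟩ := exists_eps C
  have h := H 2 1 1 2 (by norm_num) (by norm_num) (by norm_num) (by norm_num) ε hε0 hε1 A A_rank B μ
    (by
      intro x
      rw [integral_mu, quad 1 (by norm_num), quad (-1) (by norm_num)]
      simp only [Fin.sum_univ_two, Pi.zero_apply]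
      ring)
    (by
      intro V _
      have key : ∀ σ : ℝ, σ = 1 ∨ σ = -1 →
          W σ ∈ {ω : Fin 2 → Fin 2 → ℝ | ∀ x ∈ V,
            (1 - ε) * ∑ i, x i ^ 2 ≤ ∑ j, (∑ i, ω i j * x i) ^ 2} := by
        intro σ hσ x _
        rw [quad σ (by rcases hσ with rfl | rfl <;> norm_num), Fin.sum_univ_two]
        rcases hσ with rfl | rfl <;>
          nlinarith [sq_nonneg (x 0 + x 1), sq_nonneg (x 0 - x 1), sq_nonneg (x 0),
            sq_nonneg (x 1), mul_nonneg hε0.le (add_nonneg (sq_nonneg (x 0)) (sq_nonneg (x 1)))]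
      unfold μ
      simp only [Measure.add_apply, Measure.smul_apply, smul_eq_mul]
      rw [Measure.dirac_apply (W 1), Measure.dirac_apply (W (-1)),
        Set.indicator_of_mem (key 1 (Or.inl rfl)), Set.indicator_of_mem (key (-1) (Or.inr rfl))]
      simp only [Pi.one_apply, mul_one]
      rw [add_assoc, ← ENNReal.ofReal_add (by norm_num) (by norm_num)]
      refine le_trans (le_of_eq ?_) le_add_self
      norm_num)
  have hX : Real.sqrt (∑ i, ∑ j, ((A * (!![1] : Matrix (Fin 1) (Fin 1) ℝ) - B) i j) ^ 2) = 1 := by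
    have : (∑ i, ∑ j, ((A * (!![1] : Matrix (Fin 1) (Fin 1) ℝ) - B) i j) ^ 2) = 1 := by
      simp [A, B, Matrix.mul_apply, Fin.sum_univ_two]
    rw [this, Real.sqrt_one]
  have hW : ∀ σ : ℝ, σ = 1 ∨ σ = -1 → W σ ∉ {ω : Fin 2 → Fin 2 → ℝ | ∀ G : Matrix (Fin 1) (Fin 2) ℝ,
          (Matrix.transpose (Matrix.of ω) * A) * G * (Matrix.transpose (Matrix.of ω) * A)
              = Matrix.transpose (Matrix.of ω) * A →
          G * (Matrix.transpose (Matrix.of ω) * A) * G = G →
          Matrix.transpose ((Matrix.transpose (Matrix.of ω) * A) * G)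
              = (Matrix.transpose (Matrix.of ω) * A) * G →
          Matrix.transpose (G * (Matrix.transpose (Matrix.of ω) * A))
              = G * (Matrix.transpose (Matrix.of ω) * A) →
          ∀ X : Matrix (Fin 1) (Fin 1) ℝ,
            Real.sqrt (∑ i, ∑ j, ((A * (G * Matrix.transpose (Matrix.of ω) * B) - B) i j) ^ 2) ≤
              (1 + C * ε) * Real.sqrt (∑ i, ∑ j, ((A * X - B) i j) ^ 2)} := by
    intro σ hσ hmem
    have hs := s_ne
    have hOA : Matrix.transpose (Matrix.of (W σ)) * A = !![s; 0] := by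
      ext i j
      fin_cases i <;> fin_cases j <;>
        simp [A, W, Matrix.mul_apply, Fin.sum_univ_two]
    have hOB : Matrix.transpose (Matrix.of (W σ)) * B = !![σ * (1 / 100) * s + s; c * s] := by
      ext i j
      fin_cases i <;> fin_cases j <;>
        simp [B, W, Matrix.mul_apply, Fin.sum_univ_two]
    have h1 := hmem (!![1 / s, 0] : Matrix (Fin 1) (Fin 2) ℝ)
      (by
        rw [hOA]
        ext i j
        fin_cases i <;> fin_cases j <;>
          simp [Matrix.mul_apply, Fin.sum_univ_two, hs])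
      (by
        rw [hOA]
        ext i j
        fin_cases i <;> fin_cases j <;>
          simp [Matrix.mul_apply, Fin.sum_univ_two, hs])
      (by
        rw [hOA]
        ext i j
        fin_cases i <;> fin_cases j <;>
          simp [Matrix.mul_apply, hs])
      (by
        rw [hOA]
        ext i j
        fin_cases i
        fin_cases j
        simp [Matrix.mul_apply])
      (!![1] : Matrix (Fin 1) (Fin 1) ℝ)
    rw [hX, mul_one, Matrix.mul_assoc, hOB] at h1
    have h2 : (∑ i, ∑ j, ((A * ((!![1 / s, 0] : Matrix (Fin 1) (Fin 2) ℝ) *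
        (!![σ * (1 / 100) * s + s; c * s] : Matrix (Fin 2) (Fin 1) ℝ)) - B) i j) ^ 2)
        = 10001 / 10000 := by
      have : (!![1 / s, 0] : Matrix (Fin 1) (Fin 2) ℝ) *
        (!![σ * (1 / 100) * s + s; c * s] : Matrix (Fin 2) (Fin 1) ℝ) = !![σ * (1 / 100) + 1] := by
        ext i j
        fin_cases i
        fin_cases j
        simp [Matrix.mul_apply, Fin.sum_univ_two]
        field_simp
      rw [this]
      rcases hσ with rfl | rfl <;>
        simp [A, B, Matrix.mul_apply, Fin.sum_univ_two] <;> norm_num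
    rw [h2] at h1
    linarith
  have h0 : (0 : Fin 2 → Fin 2 → ℝ) ∉ {ω : Fin 2 → Fin 2 → ℝ | ∀ G : Matrix (Fin 1) (Fin 2) ℝ,
          (Matrix.transpose (Matrix.of ω) * A) * G * (Matrix.transpose (Matrix.of ω) * A)
              = Matrix.transpose (Matrix.of ω) * A →
          G * (Matrix.transpose (Matrix.of ω) * A) * G = G →
          Matrix.transpose ((Matrix.transpose (Matrix.of ω) * A) * G)
              = (Matrix.transpose (Matrix.of ω) * A) * G →
          Matrix.transpose (G * (Matrix.transpose (Matrix.of ω) * A))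
              = G * (Matrix.transpose (Matrix.of ω) * A) →
          ∀ X : Matrix (Fin 1) (Fin 1) ℝ,
            Real.sqrt (∑ i, ∑ j, ((A * (G * Matrix.transpose (Matrix.of ω) * B) - B) i j) ^ 2) ≤
              (1 + C * ε) * Real.sqrt (∑ i, ∑ j, ((A * X - B) i j) ^ 2)} := by
    intro hmem
    have hO : Matrix.transpose (Matrix.of (0 : Fin 2 → Fin 2 → ℝ)) = 0 := by
      ext i j
      simp
    have h1 := hmem 0 (by simp [hO]) (by simp) (by simp [hO]) (by simp)
      (!![1] : Matrix (Fin 1) (Fin 1) ℝ)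
    rw [hX, mul_one] at h1
    have h2 : (∑ i, ∑ j, ((A * ((0 : Matrix (Fin 1) (Fin 2) ℝ) *
        Matrix.transpose (Matrix.of (0 : Fin 2 → Fin 2 → ℝ)) * B) - B) i j) ^ 2) = 2 := by
      simp [B, Fin.sum_univ_two]
      norm_num
    rw [h2] at h1
    have h3 : Real.sqrt (10001 / 10000) ≤ Real.sqrt 2 := Real.sqrt_le_sqrt (by norm_num)
    linarith
  unfold μ at h
  simp only [Measure.add_apply, Measure.smul_apply, smul_eq_mul] at h
  rw [Measure.dirac_apply (W 1), Measure.dirac_apply (W (-1)), Measure.dirac_apply 0,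
    Set.indicator_of_notMem (hW 1 (Or.inl rfl)), Set.indicator_of_notMem (hW (-1) (Or.inr rfl)),
    Set.indicator_of_notMem h0] at h
  simp only [mul_zero, add_zero, nonpos_iff_eq_zero, ENNReal.ofReal_eq_zero] at h
  linarith

end Pool.Agent.S04624
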