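import Pool.Statements.S04683
import Pool.Agent.X91.NU.Moran

set_option autoImplicit false
open Filter Topology
open scoped ENNReal
open Pool Pool.MP_535d13_an

namespace Pool.Agent.S04683

/-- For every gauge φ (increasing, φ(0)=0, positive, continuous at 0) with r/φ(r)→0, there is a closed set of uniqueness K⊆[0,1] on the circle whose set of absolutely normal points has positive φ-Hausdorff measure. -/
theorem result :
    ∀ φ : ℝ → ℝ, MonotoneOn φ (Set.Ici 0) → φ 0 = 0 → (∀ r : ℝ, 0 < r → 0 < φ r) →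
      Tendsto φ (𝓝[>] (0:ℝ)) (𝓝 0) →
      Tendsto (fun r : ℝ => r / φ r) (𝓝[>] (0:ℝ)) (𝓝 0) →
      ∃ K : Set ℝ, IsClosed K ∧ K ⊆ Set.Icc (0:ℝ) 1 ∧
        (∀ c : ℤ → ℂ,
          (∀ x : ℝ, (∀ m : ℤ, x + (m:ℝ) ∉ K) →
            Tendsto (fun N : ℕ => ∑ n ∈ Finset.Icc (-(N:ℤ)) (N:ℤ),
              c n * Complex.exp (2 * (Real.pi:ℂ) * Complex.I * (n:ℂ) * (x:ℂ))) atTop (𝓝 0)) →
          ∀ n : ℤ, c n = 0) ∧
        0 < MeasureTheory.Measure.mkMetric (fun r : ℝ≥0∞ => ENNReal.ofReal (φ r.toReal))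
          (K ∩ {x : ℝ | ∀ b : ℕ, 2 ≤ b → ∀ k : ℕ, ∀ w : Fin k → ℤ,
            (∀ j : Fin k, 0 ≤ w j ∧ w j < (b:ℤ)) →
            Tendsto (fun N : ℕ =>
              ((((Finset.range N).filter (fun i : ℕ =>
                ∀ j : Fin k, ⌊x * (b:ℝ) ^ (i + j.val + 1)⌋ % (b:ℤ) = w j)).card : ℝ) / (N:ℝ)))
              atTop (𝓝 (1 / (b:ℝ) ^ k))}) := by
  intro φ _ _ hpos hφ0 hφ
  obtain ⟨N₀, hN₀, hbad⟩ := Pool.Agent.X91.NU.exists_stage
  obtain ⟨nn, hmono, h0, hgrow, hgauge⟩ := Pool.Agent.X91.NU.exists_seq φ hpos hφ N₀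
  have hok := Pool.Agent.X91.NU.DD_ok nn
  have hcomp := Pool.Agent.Y967.MU.MULT.KK_compact hok
  have hnull := Pool.Agent.Y967.MU.VOL.t_VOL _ _ hok (Pool.Agent.X91.NU.DD_null hmono)
  have huniq := Pool.Agent.Y967.MU.BDD.t_BDD Pool.Agent.Y967.MU.BUMP.t_BUMP
    Pool.Agent.Y967.MU.SER.t_SER Pool.Agent.Y967.MU.CAN1.t_CAN1 Pool.Agent.Y967.MU.CAN2.t_CAN2
    (fun _ => 2) ⟨2, fun _ => le_refl _⟩ (Pool.Agent.X91.NU.DD nn) hok hnull
  refine ⟨Pool.Agent.Y967.MU.moranSet (fun _ => 2) (Pool.Agent.X91.NU.DD nn), hcomp.isClosed, ?_,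
    ?_, ?_⟩
  · intro x hx
    obtain ⟨h1, h2⟩ := Pool.Agent.X91.NU.moran_bounds hmono h0 x hx
    exact ⟨h1.le, h2.le⟩
  · intro c hc n
    exact Pool.Agent.X91.NU.unique_complex _ huniq
      (fun x hx => Pool.Agent.X91.NU.moran_bounds hmono h0 x hx) c hc n
  · have hle := Pool.Agent.X91.NU.law_le hmono φ hφ0 hgauge
    refine lt_of_lt_of_le ?_ (MeasureTheory.Measure.le_iff'.mp hle _)
    rw [MeasureTheory.Measure.smul_apply, smul_eq_mul]
    refine ENNReal.mul_pos (by norm_num) ?_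
    refine (Pool.Agent.X91.NU.law_pos N₀ hbad _ ?_).ne'
    intro y hy
    refine ⟨Pool.Agent.X91.NU.X_mem_moran nn y, ?_⟩
    intro b hb k w hw
    have hd : ∀ j : Fin k, ∃ d : Fin b, ((d : ℕ) : ℤ) = w j := by
      intro j
      obtain ⟨h1, h2⟩ := hw j
      refine ⟨⟨(w j).toNat, by omega⟩, ?_⟩
      simp only
      omega
    choose d hd' using hd
    have hweyl : ∀ h : ℕ, 1 ≤ h → Tendsto (fun M : ℕ => ‖∑ j ∈ Finset.range M,
        Pool.Agent.H493R3.ee (h * (Pool.Agent.X91.NU.X (Set.range nn) y * (b : ℝ) ^ j))‖ / M)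
        atTop (𝓝 0) := fun h hh =>
      Pool.Agent.X91.NU.Good_normal hmono N₀ hN₀ hgrow y hy b h hb hh
    have h1 := Pool.Agent.H493R3.block_freq b hb (Pool.Agent.X91.NU.X (Set.range nn) y) hweyl k d
    refine h1.congr fun N => ?_
    congr 2
    refine congrArg Finset.card ?_
    ext i
    simp only [Finset.mem_filter]
    refine and_congr_right fun _ => forall_congr' fun j => ?_
    rw [hd' j, show i + 1 + (j : ℕ) = i + j.val + 1 by omega]

end Pool.Agent.S04683
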