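import Pool.Statements.S04693
import Pool.Agent.X210.PiBase

set_option autoImplicit false
open Pool Pool.MP_53fbd4_an

namespace Pool.Agent.S04693

open Filter Topology Pool.Agent.X210.PiBase

theorem exists_functionals {X : Type} [NormedAddCommGroup X] [NormedSpace ℝ X]
    (V : Set (WeakSpace ℝ X)) (hV : IsOpen V) (x : X) (hx : toWeakSpace ℝ X x ∈ V) :
    ∃ (I : Finset (X →L[ℝ] ℝ)) (ε : ℝ), 0 < ε ∧
      ∀ y : X, (∀ f ∈ I, |f y - f x| < ε) → toWeakSpace ℝ X y ∈ V := by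
  classical
  obtain ⟨W, hW, rfl⟩ := isOpen_induced_iff.1 hV
  obtain ⟨I, u, hu, hsub⟩ := isOpen_pi_iff.1 hW _ hx
  have h1 : ∀ f : X →L[ℝ] ℝ, ∃ ε : ℝ, 0 < ε ∧ (f ∈ I → Metric.ball (f x) ε ⊆ u f) := by
    intro f
    by_cases hf : f ∈ I
    · obtain ⟨ε, hε, hb⟩ := Metric.isOpen_iff.1 (hu f hf).1 _ (hu f hf).2
      exact ⟨ε, hε, fun _ => hb⟩
    · exact ⟨1, one_pos, fun h => absurd h hf⟩
  choose ε hε hball using h1
  have h2 : ∀ᶠ δ in 𝓝[>] (0 : ℝ), ∀ f ∈ I, δ < ε f := by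
    rw [eventually_all_finset]
    intro f _
    filter_upwards [Ioo_mem_nhdsGT (hε f)] with δ hδ
    exact hδ.2
  obtain ⟨δ, hδ, hδ0⟩ := (h2.and self_mem_nhdsWithin).exists
  refine ⟨I, δ, hδ0, fun y hy => ?_⟩
  apply hsub
  intro f hf
  apply hball f hf
  rw [Metric.mem_ball, Real.dist_eq]
  exact (hy f hf).trans (hδ f hf)

/-- the weakly open set of the vectors whose first coordinates are close to given numbers -/
def U0 {X : Type} [NormedAddCommGroup X] [NormedSpace ℝ X] {e : ℕ → X} (h : Unc e)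
    (j : Σ m : ℕ, (Fin m → ℚ) × ℚ) : Set (WeakSpace ℝ X) :=
  {y | ∀ k : Fin j.1, |coL h k ((toWeakSpace ℝ X).symm y) - (j.2.1 k : ℝ)| < (j.2.2 : ℝ)}

theorem isOpen_U0 {X : Type} [NormedAddCommGroup X] [NormedSpace ℝ X] {e : ℕ → X} (h : Unc e)
    (j : Σ m : ℕ, (Fin m → ℚ) × ℚ) : IsOpen (U0 h j) := by
  have h1 : U0 h j = ⋂ k : Fin j.1,
      {y | |coL h k ((toWeakSpace ℝ X).symm y) - (j.2.1 k : ℝ)| < (j.2.2 : ℝ)} := by
    ext y
    simp [U0]
  rw [h1]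
  refine isOpen_iInter_of_finite fun k => ?_
  have hc : Continuous fun y : WeakSpace ℝ X => coL h k ((toWeakSpace ℝ X).symm y) :=
    WeakBilin.eval_continuous (topDualPairing ℝ X).flip (coL h k)
  exact isOpen_lt (hc.sub continuous_const).abs continuous_const

/-- For every real Banach space with a 1-unconditional basis, the closed unit ball in the relative weak topology has a countable family of nonempty relatively open sets such that every nonempty relatively open subset of the ball contains one of them. -/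
theorem result :
    ∀ (X : Type) [NormedAddCommGroup X] [NormedSpace ℝ X] [CompleteSpace X] (e : ℕ → X),
      (∀ x : X, ∃! a : ℕ → ℝ, HasSum (fun n => a n • e n) x) →
      (∀ (s : Finset ℕ) (a ε : ℕ → ℝ), (∀ n, ε n = 1 ∨ ε n = -1) →
          ‖∑ n ∈ s, (ε n * a n) • e n‖ ≤ ‖∑ n ∈ s, a n • e n‖) →
      ∃ U : ℕ → Set (WeakSpace ℝ X),
        (∀ n, IsOpen (U n) ∧
            (U n ∩ (toWeakSpace ℝ X) '' Metric.closedBall (0 : X) 1).Nonempty) ∧
        ∀ V : Set (WeakSpace ℝ X), IsOpen V →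
          (V ∩ (toWeakSpace ℝ X) '' Metric.closedBall (0 : X) 1).Nonempty →
            ∃ n, U n ∩ (toWeakSpace ℝ X) '' Metric.closedBall (0 : X) 1 ⊆ V := by
  classical
  intro X _ _ _ e hb hs
  have h : Unc e := ⟨hb, hs⟩
  let B : Set (WeakSpace ℝ X) := (toWeakSpace ℝ X) '' Metric.closedBall (0 : X) 1
  let J := {j : Σ m : ℕ, (Fin m → ℚ) × ℚ // (U0 h j ∩ B).Nonempty}
  have hJ : Nonempty J := by
    refine ⟨⟨⟨0, fun k => k.elim0, 1⟩, toWeakSpace ℝ X 0, ?_, ?_⟩⟩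
    · intro k
      exact k.elim0
    · exact ⟨0, by simp, rfl⟩
  obtain ⟨φ, hφ⟩ := exists_surjective_nat J
  refine ⟨fun n => U0 h (φ n).1, fun n => ⟨isOpen_U0 h _, (φ n).2⟩, ?_⟩
  rintro V hV ⟨_, hxV, x₀, hx₀, rfl⟩
  obtain ⟨I, ε, hε, hI⟩ := exists_functionals V hV x₀ hxV
  obtain ⟨m, a, δ, hδ, ha, hclose⟩ := exists_center (fun i : {f // f ∈ I} => i.1) h
    (mem_closedBall_zero_iff.1 hx₀) hε
  obtain ⟨r, hr1, hr2⟩ := exists_rat_btwn (show δ / 4 < δ / 2 by linarith)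
  have hq : ∀ k : Fin m, ∃ q : ℚ, |a k - (q : ℝ)| < δ / 4 := by
    intro k
    obtain ⟨q, hq1, hq2⟩ := exists_rat_btwn (show a k - δ / 4 < a k by linarith)
    refine ⟨q, ?_⟩
    rw [abs_lt]
    constructor <;> linarith
  choose q hq using hq
  have hmem : (U0 h ⟨m, q, r⟩ ∩ B).Nonempty := by
    refine ⟨toWeakSpace ℝ X (∑ j ∈ Finset.range m, a j • e j), ?_, _, ?_, rfl⟩
    · intro k
      rw [LinearEquiv.symm_apply_apply, coL_apply, co_sum, if_pos (Finset.mem_range.2 k.2)]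
      exact (hq k).trans hr1
    · exact mem_closedBall_zero_iff.2 ha
  obtain ⟨n, hn⟩ := hφ ⟨⟨m, q, r⟩, hmem⟩
  refine ⟨n, ?_⟩
  rintro _ ⟨hy, y, hyB, rfl⟩
  have hy' : toWeakSpace ℝ X y ∈ U0 h ⟨m, q, r⟩ := by
    have h1 : (φ n).1 = ⟨m, q, r⟩ := congrArg Subtype.val hn
    rw [← h1]
    exact hy
  apply hI
  intro f hf
  refine hclose y (mem_closedBall_zero_iff.1 hyB) (fun j hj => ?_) ⟨f, hf⟩
  have h1 := hy' ⟨j, hj⟩
  rw [LinearEquiv.symm_apply_apply, coL_apply] at h1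
  have h2 := hq ⟨j, hj⟩
  have h3 : co h y j - a j = (co h y j - (q ⟨j, hj⟩ : ℝ)) - (a j - (q ⟨j, hj⟩ : ℝ)) := by ring
  rw [h3]
  have h4 := abs_sub (co h y j - (q ⟨j, hj⟩ : ℝ)) (a j - (q ⟨j, hj⟩ : ℝ))
  have h5 : |co h y j - (q ⟨j, hj⟩ : ℝ)| < (r : ℝ) := h1
  have h6 : |a j - (q ⟨j, hj⟩ : ℝ)| < δ / 4 := h2
  linarith

end Pool.Agent.S04693
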