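import Pool.Statements.S04820
import Pool.Agent.X212.Spec.Transport

set_option autoImplicit false
open MeasureTheory Matrix
open scoped ENNReal Real
open Pool Pool.MP_5f557b_an

namespace Pool.Agent.S04820

/-- The negation of the preceding statement: For expanding integer R and simple digits B with 0 in B, 2 ≤ #B < ∣det R∣ and ℤ[R,B] = ℤ^d: if the self-affine measure has an orthonormal basis of exponentials, then some L in ℤ^d with #L = #B makes (R,B,L) a Hadamard triple. -/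
theorem result :
    ¬ (∀ (d : ℕ), 1 ≤ d → ∀ (R : Matrix (Fin d) (Fin d) ℤ) (B : Finset (Fin d → ℤ)),
    (∀ z : ℂ, (R.map (Int.cast : ℤ → ℂ)).charpoly.IsRoot z → 1 < ‖z‖) →
    (∀ b ∈ B, ∀ b' ∈ B, b ≠ b' → ¬ ∃ v : Fin d → ℤ, R *ᵥ v = b - b') →
    2 ≤ B.card → (B.card : ℤ) < |R.det| → (0 : Fin d → ℤ) ∈ B →
    AddSubgroup.closure {v : Fin d → ℤ | ∃ k : ℕ, ∃ b ∈ B, v = (R ^ k) *ᵥ b} = ⊤ →
    ∀ μ : Measure (Fin d → ℝ), IsProbabilityMeasure μ →
      μ = ((B.card : ℝ≥0∞)⁻¹) • ∑ b ∈ B,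
            μ.map (fun x => (R.map (Int.cast : ℤ → ℝ))⁻¹ *ᵥ (x + fun i => (b i : ℝ))) →
      (∃ Λ : Set (Fin d → ℝ),
        (∀ l ∈ Λ, ∀ l' ∈ Λ,
          (l = l' → ∫ x, Complex.exp (2 * π * Complex.I * ((∑ i, (l i - l' i) * x i : ℝ) : ℂ)) ∂μ = 1) ∧
          (l ≠ l' → ∫ x, Complex.exp (2 * π * Complex.I * ((∑ i, (l i - l' i) * x i : ℝ) : ℂ)) ∂μ = 0)) ∧
        (∀ f : (Fin d → ℝ) → ℂ, MemLp f 2 μ →
          (∀ l ∈ Λ, ∫ x, f x * Complex.exp (-(2 * π * Complex.I * ((∑ i, l i * x i : ℝ) : ℂ))) ∂μ = 0) →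
          f =ᵐ[μ] 0)) →
      ∃ L : Finset (Fin d → ℤ), L.card = B.card ∧
        ∀ l ∈ L, ∀ l' ∈ L,
          (l = l' → ∑ b ∈ B, Complex.exp (2 * π * Complex.I *
              ((∑ i, ((R.map (Int.cast : ℤ → ℝ))⁻¹ *ᵥ (fun j => (b j : ℝ))) i * ((l i : ℝ) - (l' i : ℝ)) : ℝ) : ℂ))
              = (B.card : ℂ)) ∧
          (l ≠ l' → ∑ b ∈ B, Complex.exp (2 * π * Complex.I *
              ((∑ i, ((R.map (Int.cast : ℤ → ℝ))⁻¹ *ᵥ (fun j => (b j : ℝ))) i * ((l i : ℝ) - (l' i : ℝ)) : ℝ) : ℂ))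
              = 0)) := by
  intro hall
  classical
  have hRinv : (((!![12] : Matrix (Fin 1) (Fin 1) ℤ).map (Int.cast : ℤ → ℝ)))⁻¹ = !![(1 / 12 : ℝ)] := by
    apply Matrix.inv_eq_right_inv
    ext i j
    fin_cases i
    fin_cases j
    simp [Matrix.mul_apply]
  have hRv : ∀ v : Fin 1 → ℝ, (((!![12] : Matrix (Fin 1) (Fin 1) ℤ).map (Int.cast : ℤ → ℝ)))⁻¹ *ᵥ v =
      fun _ => 1 / 12 * v 0 := by
    intro v
    rw [hRinv]
    ext i
    fin_cases i
    simp [Matrix.mulVec, dotProduct]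
  have hinj : Function.Injective (fun (k : ℤ) (_ : Fin 1) => k) := fun a b h => congrFun h 0
  have hcard : (Finset.map ⟨fun (k : ℤ) (_ : Fin 1) => k, hinj⟩ {0, 1, 8, 9}).card = 4 := by
    rw [Finset.card_map]
    rfl
  have hsum : ∀ {M : Type} [AddCommMonoid M] (f : (Fin 1 → ℤ) → M),
      ∑ b ∈ Finset.map ⟨fun (k : ℤ) (_ : Fin 1) => k, hinj⟩ {0, 1, 8, 9}, f b =
        f (fun _ => 0) + f (fun _ => 1) + f (fun _ => 8) + f (fun _ => 9) := by
    intro M _ f
    rw [Finset.sum_map, Finset.sum_insert (by decide), Finset.sum_insert (by decide),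
      Finset.sum_insert (by decide), Finset.sum_singleton]
    simp only [Function.Embedding.coeFn_mk]
    abel
  have hmem : ∀ b : Fin 1 → ℤ, b ∈ Finset.map ⟨fun (k : ℤ) (_ : Fin 1) => k, hinj⟩ {0, 1, 8, 9} ↔
      b 0 = 0 ∨ b 0 = 1 ∨ b 0 = 8 ∨ b 0 = 9 := by
    intro b
    simp only [Finset.mem_map, Function.Embedding.coeFn_mk, Finset.mem_insert,
      Finset.mem_singleton]
    constructor
    · rintro ⟨a, ha, rfl⟩
      exact ha
    · intro h
      refine ⟨b 0, h, ?_⟩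
      ext i
      fin_cases i
      rfl
  have key := hall 1 le_rfl !![12]
    (Finset.map ⟨fun (k : ℤ) (_ : Fin 1) => k, hinj⟩ {0, 1, 8, 9}) ?_ ?_ ?_ ?_ ?_ ?_
    Pool.Agent.X212.Spec.mu1 inferInstance ?_ ?_
  · obtain ⟨L, hL, hH⟩ := key
    rw [hcard] at hL
    refine Pool.Agent.X212.Spec.no_hadamard L (fun l => l 0) (by omega) ?_
    intro l hl l' hl' hne
    have h1 := (hH l hl l' hl').2 hne
    rw [hsum] at h1
    simp only [hRv] at h1
    rw [← h1]
    have e0 : ∀ c : ℝ, Complex.exp (2 * π * Complex.I *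
        ((∑ i : Fin 1, 1 / 12 * c * ((l i : ℝ) - (l' i : ℝ)) : ℝ) : ℂ)) =
        Pool.Agent.X212.Spec.ex (c * (((l 0 - l' 0 : ℤ) : ℝ) / 12)) := by
      intro c
      unfold Pool.Agent.X212.Spec.ex
      rw [Fin.sum_univ_one]
      congr 3
      push_cast
      ring
    simp only [e0]
    have e1 : Pool.Agent.X212.Spec.ex (((0 : ℤ) : ℝ) * (((l 0 - l' 0 : ℤ) : ℝ) / 12)) = 1 := by
      rw [Int.cast_zero, zero_mul, Pool.Agent.X212.Spec.ex_zero]
    rw [e1]
    push_cast
    rw [one_mul]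
  · intro z hz
    have h1 : ((!![12] : Matrix (Fin 1) (Fin 1) ℤ).map (Int.cast : ℤ → ℂ)).charpoly =
        Polynomial.X - Polynomial.C 12 := by
      rw [Matrix.charpoly, Matrix.charmatrix, Matrix.det_fin_one]
      simp
    rw [h1, Polynomial.IsRoot.def, Polynomial.eval_sub, Polynomial.eval_X, Polynomial.eval_C,
      sub_eq_zero] at hz
    rw [hz]
    norm_num
  · intro b hb b' hb' hne ⟨v, hv⟩
    rw [hmem] at hb hb'
    have h1 := congrFun hv 0
    simp only [Matrix.mulVec, dotProduct, Fin.sum_univ_one, Pi.sub_apply] at h1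
    have h2 : b 0 ≠ b' 0 := by
      intro h
      apply hne
      ext i
      fin_cases i
      exact h
    have h3 : 12 * v 0 = b 0 - b' 0 := h1
    omega
  · rw [hcard]
    norm_num
  · rw [hcard, Matrix.det_fin_one]
    norm_num
  · rw [hmem]
    exact Or.inl rfl
  · rw [eq_top_iff]
    intro v _
    have h1 : (fun _ => 1 : Fin 1 → ℤ) ∈ AddSubgroup.closure {v : Fin 1 → ℤ | ∃ k : ℕ,
        ∃ b ∈ Finset.map ⟨fun (k : ℤ) (_ : Fin 1) => k, hinj⟩ {0, 1, 8, 9},
          v = ((!![12] : Matrix (Fin 1) (Fin 1) ℤ) ^ k) *ᵥ b} := by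
      apply AddSubgroup.subset_closure
      refine ⟨0, fun _ => 1, ?_, ?_⟩
      · rw [hmem]
        exact Or.inr (Or.inl rfl)
      · rw [pow_zero, Matrix.one_mulVec]
    have h2 : v = (v 0) • (fun _ => 1 : Fin 1 → ℤ) := by
      ext i
      fin_cases i
      simp
    rw [h2]
    exact AddSubgroup.zsmul_mem _ h1 _
  · rw [hcard, hsum]
    simp only [hRv]
    have h1 := Pool.Agent.X212.Spec.mu_eq
    rw [Fin.sum_univ_four] at h1
    have h2 : ∀ c : ℤ, Measure.map (fun x : Fin 1 → ℝ => fun _ : Fin 1 => 1 / 12 *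
        (x + (fun _ => (c : ℝ) : Fin 1 → ℝ)) 0) Pool.Agent.X212.Spec.mu1 =
        (Measure.map (fun x => 1 / 12 * (x + (c : ℝ))) Pool.Agent.X212.Spec.mu).map
          Pool.Agent.X212.Spec.embE := by
      intro c
      have m1 : Measurable (fun x : Fin 1 → ℝ => fun _ : Fin 1 => 1 / 12 *
        (x + (fun _ => (c : ℝ) : Fin 1 → ℝ)) 0) := by
        refine measurable_pi_lambda _ (fun _ => ?_)
        simp only [Pi.add_apply]
        fun_prop
      rw [Pool.Agent.X212.Spec.mu1, Measure.map_map m1 Pool.Agent.X212.Spec.embE.measurable,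
        Measure.map_map Pool.Agent.X212.Spec.embE.measurable (by fun_prop)]
      rfl
    rw [h2, h2, h2, h2]
    have m2 := Pool.Agent.X212.Spec.embE.measurable
    rw [← Measure.map_add _ _ m2, ← Measure.map_add _ _ m2, ← Measure.map_add _ _ m2]
    have h3 : ((4 : ℕ) : ℝ≥0∞) = 4 := by norm_num
    rw [h3, ← Measure.map_smul]
    conv_lhs => rw [Pool.Agent.X212.Spec.mu1, h1]
    congr 2
    simp [Pool.Agent.X212.Spec.bB]
  · obtain ⟨ho, hc⟩ := Pool.Agent.X212.Spec.mu_spectrum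
    refine ⟨{l | l 0 ∈ Pool.Agent.X212.Spec.LamMu}, ?_, ?_⟩
    · intro l hl l' hl'
      have h1 : ∫ x, Complex.exp (2 * π * Complex.I * ((∑ i, (l i - l' i) * x i : ℝ) : ℂ))
          ∂Pool.Agent.X212.Spec.mu1 = ∫ x, Pool.Agent.X212.Spec.ex ((l 0 - l' 0) * x)
          ∂Pool.Agent.X212.Spec.mu := by
        rw [Pool.Agent.X212.Spec.mu1, integral_map_equiv]
        congr 1
        ext x
        rw [Fin.sum_univ_one]
        rfl
      rw [h1]
      constructor
      · intro h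
        rw [h, sub_self]
        simp
      · intro h
        have h2 : l 0 ≠ l' 0 := by
          intro h3
          apply h
          ext i
          fin_cases i
          exact h3
        rw [← ho _ hl _ hl' h2]
        congr 1
        ext x
        rw [sub_mul, Pool.Agent.X212.Spec.ex_sub]
    · intro f hf h0
      have hf' : MemLp (fun x => f (Pool.Agent.X212.Spec.embE x)) 2 Pool.Agent.X212.Spec.mu := by
        have := (Pool.Agent.X212.Spec.embE.memLp_map_measure_iff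
          (μ := Pool.Agent.X212.Spec.mu) (g := f) (p := 2)).1 hf
        exact this
      have h2 := hc (fun x => f (Pool.Agent.X212.Spec.embE x)) hf' ?_
      · rw [Pool.Agent.X212.Spec.mu1]
        have h3 := (Pool.Agent.X212.Spec.embE.measurableEmbedding.ae_map_iff
          (μ := Pool.Agent.X212.Spec.mu) (p := fun x => f x = 0)).2 h2
        exact h3
      · intro l hl
        have h3 := h0 (fun _ => l) hl
        rw [Pool.Agent.X212.Spec.mu1, integral_map_equiv] at h3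
        rw [← h3]
        congr 1
        ext x
        rw [Pool.Agent.X212.Spec.conj_ex]
        congr 1
        unfold Pool.Agent.X212.Spec.ex
        rw [Fin.sum_univ_one]
        congr 1
        push_cast
        have : ((Pool.Agent.X212.Spec.embE x 0 : ℝ) : ℂ) = (x : ℂ) := rfl
        rw [this]
        ring


end Pool.Agent.S04820
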