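import Pool.Statements.S04862
import Pool.Agent.X38.FHC

set_option autoImplicit false
open Pool Pool.MP_63a02b_an

namespace Pool.Agent.S04862

/-- The negation of the preceding statement: Every operator on a real or complex separable F-space that is chaotic, topologically mixing and frequently hypercyclic admits a dense set X0 and a self-map S of X0 with the series of T^n x and S^n x unconditionally convergent and TSx = x on X0. -/
theorem result :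
    ¬ (∀ (𝕂 : Type) [RCLike 𝕂] (X : Type) [AddCommGroup X] [Module 𝕂 X] [UniformSpace X]
      [IsUniformAddGroup X] [CompleteSpace X] [TopologicalSpace.MetrizableSpace X]
      [TopologicalSpace.SeparableSpace X] [ContinuousSMul 𝕂 X] (T : X →L[𝕂] X),
      ((∃ x : X, Dense (Set.range (fun n : ℕ => (T ^ n) x))) ∧
        Dense {x : X | ∃ n : ℕ, 0 < n ∧ (T ^ n) x = x}) →
      (∀ U V : Set X, IsOpen U → IsOpen V → U.Nonempty → V.Nonempty →
        ∃ N : ℕ, ∀ n : ℕ, N ≤ n → ((⇑(T ^ n)) ⁻¹' V ∩ U).Nonempty) →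
      (∃ x : X, ∀ U : Set X, IsOpen U → U.Nonempty →
        ∃ δ : ℝ, 0 < δ ∧ ∃ N₀ : ℕ, ∀ N : ℕ, N₀ ≤ N →
          δ * (N : ℝ) ≤ (Nat.card {n : ℕ // n < N ∧ (T ^ n) x ∈ U} : ℝ)) →
      ∃ X₀ : Set X, Dense X₀ ∧ ∃ S : X → X, (∀ x ∈ X₀, S x ∈ X₀) ∧
        ∀ x ∈ X₀, Summable (fun n : ℕ => (T ^ n) x) ∧
          Summable (fun n : ℕ => S^[n] x) ∧ T (S x) = x) := by
  intro h
  obtain ⟨x, hx⟩ := X38.FHC.fhc
  refine X38.FHC.no_criterion (h ℝ X38.FHC.X X38.FHC.T ⟨⟨x, ?_⟩, X38.FHC.dense_per⟩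
    X38.FHC.mixing ⟨x, hx⟩)
  rw [dense_iff_inter_open]
  intro U hU hU0
  obtain ⟨δ, hδ, N₀, hN⟩ := hx U hU hU0
  have h1 := hN (N₀ + 1) (by omega)
  have h2 : 0 < Nat.card {n : ℕ // n < N₀ + 1 ∧ (X38.FHC.T ^ n) x ∈ U} := by
    have h3 : (0 : ℝ) < δ * ((N₀ + 1 : ℕ) : ℝ) := by positivity
    exact_mod_cast lt_of_lt_of_le h3 h1
  obtain ⟨⟨⟨n, -, hn⟩⟩, -⟩ := Nat.card_pos_iff.1 h2
  exact ⟨_, hn, n, rfl⟩

end Pool.Agent.S04862
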