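import Pool.Statements.S04892
import Pool.Agent.X192.HV.Trf

set_option autoImplicit false
open Pool Pool.MP_65ff7c_an

namespace Pool.Agent.S04892

/-- The negation of the preceding statement: Some absolute c>0 works in every dimension: if Ω is bounded open convex origin-symmetric and E is a half-volume relative-perimeter minimizer in Ω, some convex cone Γ has Ω∩Γ in E and Ω∩(−Γ) outside E (up to null sets), with ∣Ω∩Γ∣ ≥ c∣Ω∣. -/
theorem result :
    ¬ (∃ c : ℝ, 0 < c ∧
      ∀ (n : ℕ) (Ω E : Set (EuclideanSpace ℝ (Fin n))),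
        IsOpen Ω → Ω.Nonempty → Convex ℝ Ω → Bornology.IsBounded Ω →
        (∀ x ∈ Ω, -x ∈ Ω) →
        MeasurableSet E → E ⊆ Ω →
        MeasureTheory.volume E = MeasureTheory.volume Ω / 2 →
        (∀ F : Set (EuclideanSpace ℝ (Fin n)), MeasurableSet F → F ⊆ Ω →
          MeasureTheory.volume F = MeasureTheory.volume E →
          ∀ φ : EuclideanSpace ℝ (Fin n) → EuclideanSpace ℝ (Fin n),
            ContDiff ℝ 1 φ → HasCompactSupport φ → tsupport φ ⊆ Ω →
            (∀ x, ‖φ x‖ ≤ 1) →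
            ∀ ε : ℝ, 0 < ε →
              ∃ ψ : EuclideanSpace ℝ (Fin n) → EuclideanSpace ℝ (Fin n),
                ContDiff ℝ 1 ψ ∧ HasCompactSupport ψ ∧ tsupport ψ ⊆ Ω ∧
                (∀ x, ‖ψ x‖ ≤ 1) ∧
                (∫ x in E, LinearMap.trace ℝ (EuclideanSpace ℝ (Fin n))
                    (fderiv ℝ φ x).toLinearMap) ≤
                  (∫ x in F, LinearMap.trace ℝ (EuclideanSpace ℝ (Fin n))
                    (fderiv ℝ ψ x).toLinearMap) + ε) →
        ∃ Γ : ConvexCone ℝ (EuclideanSpace ℝ (Fin n)),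
          MeasureTheory.volume ((Ω ∩ (Γ : Set (EuclideanSpace ℝ (Fin n)))) \ E) = 0 ∧
          MeasureTheory.volume ((Ω ∩ {x | -x ∈ Γ}) ∩ E) = 0 ∧
          ENNReal.ofReal c * MeasureTheory.volume Ω ≤
            MeasureTheory.volume (Ω ∩ (Γ : Set (EuclideanSpace ℝ (Fin n))))) := by
  exact Pool.Agent.X192.HV.disproof

end Pool.Agent.S04892
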