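import Pool.Statements.S04908
import Pool.Agent.Results.MP_68b5a7_an.InteriorPoint

set_option autoImplicit false
open Pool Pool.MP_68b5a7_an

namespace Pool.Agent.S04908

open Pool.Agent.Results.MP_68b5a7_an.InteriorPoint in
/-- The rectangle exchange `T × S` of `InteriorPoint`, with the torus distance. The index set
`Fin 4 × Fin 4` is replaced by `Fin 16`. -/
theorem torus_example : ∃ (m : ℕ) (a1 b1 a2 b2 v1 v2 : Fin m → ℝ) (φ : ℝ × ℝ → ℝ × ℝ),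
      Pairwise (fun r s : Fin m =>
        Disjoint (Set.Ico (a1 r) (b1 r) ×ˢ Set.Ico (a2 r) (b2 r))
          (Set.Ico (a1 s) (b1 s) ×ˢ Set.Ico (a2 s) (b2 s))) ∧
      (⋃ r : Fin m, Set.Ico (a1 r) (b1 r) ×ˢ Set.Ico (a2 r) (b2 r))
          = Set.Ico (0:ℝ) 1 ×ˢ Set.Ico (0:ℝ) 1 ∧
      Pairwise (fun r s : Fin m =>
        Disjoint
          (Set.Ico (a1 r + v1 r) (b1 r + v1 r) ×ˢ Set.Ico (a2 r + v2 r) (b2 r + v2 r))
          (Set.Ico (a1 s + v1 s) (b1 s + v1 s) ×ˢ Set.Ico (a2 s + v2 s) (b2 s + v2 s))) ∧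
      (⋃ r : Fin m,
          Set.Ico (a1 r + v1 r) (b1 r + v1 r) ×ˢ Set.Ico (a2 r + v2 r) (b2 r + v2 r))
          = Set.Ico (0:ℝ) 1 ×ˢ Set.Ico (0:ℝ) 1 ∧
      (∀ r : Fin m, ∀ x ∈ Set.Ico (a1 r) (b1 r) ×ˢ Set.Ico (a2 r) (b2 r),
          φ x = (x.1 + v1 r, x.2 + v2 r)) ∧
      ∃ x ∈ Set.Ico (0:ℝ) 1 ×ˢ Set.Ico (0:ℝ) 1, ∀ N : ℕ, 1 ≤ N → ∀ k1 k2 : ℤ,
        (1 / 4 : ℝ) ^ 2 <
          ((φ^[N] x).1 - x.1 + (k1 : ℝ)) ^ 2 + ((φ^[N] x).2 - x.2 + (k2 : ℝ)) ^ 2 := by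
  have hirr : Irrational (Real.sqrt 2 / 4) := by
    have := irrational_sqrt_two.div_natCast (m := 4) (by norm_num)
    exact_mod_cast this
  have h2 : Real.sqrt 2 ^ 2 = 2 := Real.sq_sqrt (by norm_num)
  have h0 : 0 < Real.sqrt 2 / 4 := by positivity
  have h1 : Real.sqrt 2 / 4 < 1 / 2 := by nlinarith [Real.sqrt_nonneg 2]
  have hE := isExchange h0 h1
  let e : Fin 16 ≃ Fin 4 × Fin 4 := (finProdFinEquiv (m := 4) (n := 4)).symm
  refine ⟨16, fun i => A (Real.sqrt 2 / 4) (e i).1, fun i => B (Real.sqrt 2 / 4) (e i).1,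
    fun i => C (Real.sqrt 2 / 4) (e i).2, fun i => D (Real.sqrt 2 / 4) (e i).2,
    fun i => VA (Real.sqrt 2 / 4) (e i).1, fun i => VC (Real.sqrt 2 / 4) (e i).2,
    φ (Real.sqrt 2 / 4), ?_, ?_, ?_, ?_, ?_, (1 / 4, 1 / 4), ?_, ?_⟩
  · intro r s hrs
    exact hE.disjoint (e r) (e s) (fun h => hrs (e.injective h))
  · refine Eq.trans ?_ hE.cover
    exact e.surjective.iUnion_comp (fun i : Fin 4 × Fin 4 =>
      Rect (A (Real.sqrt 2 / 4) i.1) (B (Real.sqrt 2 / 4) i.1) (C (Real.sqrt 2 / 4) i.2)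
        (D (Real.sqrt 2 / 4) i.2))
  · intro r s hrs
    exact hE.disjoint' (e r) (e s) (fun h => hrs (e.injective h))
  · refine Eq.trans ?_ hE.cover'
    exact e.surjective.iUnion_comp (fun i : Fin 4 × Fin 4 =>
      Rect (A (Real.sqrt 2 / 4) i.1 + VA (Real.sqrt 2 / 4) i.1)
        (B (Real.sqrt 2 / 4) i.1 + VA (Real.sqrt 2 / 4) i.1)
        (C (Real.sqrt 2 / 4) i.2 + VC (Real.sqrt 2 / 4) i.2)
        (D (Real.sqrt 2 / 4) i.2 + VC (Real.sqrt 2 / 4) i.2))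
  · intro r x hx
    exact hE.trans (e r) x hx
  · refine ⟨⟨by norm_num, by norm_num⟩, ⟨by norm_num, by norm_num⟩⟩
  · intro N hN k1 k2
    obtain ⟨n, rfl⟩ : ∃ n, N = n + 1 := ⟨N - 1, by omega⟩
    obtain ⟨t, k, -, ht0, ht1, h⟩ := orbit hirr h0 h1 n
    rw [h]
    simp only
    have key1 : t ^ 2 ≤ (1 / 4 + t - 1 / 4 + (k1 : ℝ)) ^ 2 := by
      rcases le_or_gt 0 k1 with hk | hk
      · have : (0 : ℝ) ≤ k1 := by exact_mod_cast hk
        nlinarith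
      · have : (k1 : ℝ) ≤ -1 := by
          have : k1 ≤ -1 := by omega
          exact_mod_cast this
        nlinarith
    have key2 : (1 / 2 - t) ^ 2 ≤ (3 / 4 - t - 1 / 4 + (k2 : ℝ)) ^ 2 := by
      rcases le_or_gt 0 k2 with hk | hk
      · have : (0 : ℝ) ≤ k2 := by exact_mod_cast hk
        nlinarith
      · have : (k2 : ℝ) ≤ -1 := by
          have : k2 ≤ -1 := by omega
          exact_mod_cast this
        nlinarith
    nlinarith [sq_nonneg (t - 1 / 4)]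

/-- The negation of the preceding statement: For every partition of [0,1)² into finitely many half-open rectangles whose translates also partition it, the piecewise-translation map returns every point to within ε of itself, in Euclidean torus distance, at some time N ≥ 1. -/
theorem result :
    ¬ (∀ (m : ℕ) (a1 b1 a2 b2 v1 v2 : Fin m → ℝ) (φ : ℝ × ℝ → ℝ × ℝ),
      Pairwise (fun r s : Fin m =>
        Disjoint (Set.Ico (a1 r) (b1 r) ×ˢ Set.Ico (a2 r) (b2 r))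
          (Set.Ico (a1 s) (b1 s) ×ˢ Set.Ico (a2 s) (b2 s))) →
      (⋃ r : Fin m, Set.Ico (a1 r) (b1 r) ×ˢ Set.Ico (a2 r) (b2 r))
          = Set.Ico (0:ℝ) 1 ×ˢ Set.Ico (0:ℝ) 1 →
      Pairwise (fun r s : Fin m =>
        Disjoint
          (Set.Ico (a1 r + v1 r) (b1 r + v1 r) ×ˢ Set.Ico (a2 r + v2 r) (b2 r + v2 r))
          (Set.Ico (a1 s + v1 s) (b1 s + v1 s) ×ˢ Set.Ico (a2 s + v2 s) (b2 s + v2 s))) →
      (⋃ r : Fin m,
          Set.Ico (a1 r + v1 r) (b1 r + v1 r) ×ˢ Set.Ico (a2 r + v2 r) (b2 r + v2 r))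
          = Set.Ico (0:ℝ) 1 ×ˢ Set.Ico (0:ℝ) 1 →
      (∀ r : Fin m, ∀ x ∈ Set.Ico (a1 r) (b1 r) ×ˢ Set.Ico (a2 r) (b2 r),
          φ x = (x.1 + v1 r, x.2 + v2 r)) →
      ∀ x ∈ Set.Ico (0:ℝ) 1 ×ˢ Set.Ico (0:ℝ) 1, ∀ ε : ℝ, 0 < ε →
        ∃ N : ℕ, 1 ≤ N ∧ ∃ k1 k2 : ℤ,
          ((φ^[N] x).1 - x.1 + (k1 : ℝ)) ^ 2 + ((φ^[N] x).2 - x.2 + (k2 : ℝ)) ^ 2 ≤ ε ^ 2) := by
  intro H
  obtain ⟨m, a1, b1, a2, b2, v1, v2, φ, h1, h2, h3, h4, h5, x, hx, h6⟩ := torus_example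
  obtain ⟨N, hN, k1, k2, hk⟩ := H m a1 b1 a2 b2 v1 v2 φ h1 h2 h3 h4 h5 x hx (1 / 4) (by norm_num)
  exact absurd hk (not_le.2 (h6 N hN k1 k2))

end Pool.Agent.S04908
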