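import Pool.Statements.S04980
import Pool.Agent.Results.MP_6ded3d_an.PlanarNonsmoothMinimizer

set_option autoImplicit false
open MeasureTheory Set
open Pool Pool.MP_6ded3d_an

namespace Pool.Agent.S04980

/-- the inverse of an injective continuous map on a compact set is continuous -/
theorem invFunOn_continuousOn {n : ℕ} {A : Set (EuclideanSpace ℝ (Fin n))} (hA : IsCompact A)
    {h : EuclideanSpace ℝ (Fin n) → EuclideanSpace ℝ (Fin n)} (hc : ContinuousOn h A)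
    (hi : InjOn h A) : ContinuousOn (Function.invFunOn h A) (h '' A) := by
  rw [continuousOn_iff_isClosed]
  intro t ht
  refine ⟨h '' (A ∩ t), ((hA.inter_right ht).image_of_continuousOn
    (hc.mono inter_subset_left)).isClosed, ?_⟩
  ext y
  constructor
  · rintro ⟨h1, ⟨x, hx, rfl⟩⟩
    have h2 : Function.invFunOn h A (h x) = x := hi.leftInvOn_invFunOn hx
    refine ⟨⟨x, ⟨hx, ?_⟩, rfl⟩, ⟨x, hx, rfl⟩⟩
    have h1' : Function.invFunOn h A (h x) ∈ t := h1
    rwa [h2] at h1'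
  · rintro ⟨⟨x, ⟨hx, hxt⟩, rfl⟩, -⟩
    have h2 : Function.invFunOn h A (h x) = x := hi.leftInvOn_invFunOn hx
    refine ⟨?_, ⟨x, hx, rfl⟩⟩
    show Function.invFunOn h A (h x) ∈ t
    rwa [h2]


/-- The negation of the preceding statement: For all n≥2, bounded domains Ω, p>1 and homeomorphic g of finite distortion with L^p inner distortion, every homeomorphism with g's boundary values minimizing the L^p inner-distortion energy is a C^∞ diffeomorphism of Ω onto g(Ω). -/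
theorem result :
    ¬ (∀ (n : ℕ), 2 ≤ n →
  ∀ (Ω : Set (EuclideanSpace ℝ (Fin n))), IsOpen Ω → IsConnected Ω → Bornology.IsBounded Ω →
  ∀ (opNorm : Matrix (Fin n) (Fin n) ℝ → ℝ),
    (∀ A : Matrix (Fin n) (Fin n) ℝ,
      opNorm A = ‖LinearMap.toContinuousLinearMap (Matrix.toEuclideanLin A)‖) →
  ∀ (FD : (EuclideanSpace ℝ (Fin n) → EuclideanSpace ℝ (Fin n)) →
      (EuclideanSpace ℝ (Fin n) → Matrix (Fin n) (Fin n) ℝ) → Prop),
    (∀ (f : EuclideanSpace ℝ (Fin n) → EuclideanSpace ℝ (Fin n))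
       (Df : EuclideanSpace ℝ (Fin n) → Matrix (Fin n) (Fin n) ℝ),
      FD f Df ↔
      ((∀ i : Fin n, LocallyIntegrableOn (fun x => WithLp.ofLp (f x) i) Ω) ∧
       (∀ i j : Fin n, LocallyIntegrableOn (fun x => Df x i j) Ω) ∧
       (∀ φ : EuclideanSpace ℝ (Fin n) → ℝ,
          ContDiff ℝ ((⊤ : ℕ∞) : WithTop ℕ∞) φ → HasCompactSupport φ → tsupport φ ⊆ Ω →
          ∀ i j : Fin n,
            ∫ x in Ω, WithLp.ofLp (f x) i * fderiv ℝ φ x (EuclideanSpace.single j (1 : ℝ))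
              = - ∫ x in Ω, Df x i j * φ x) ∧
       LocallyIntegrableOn (fun x => (Df x).det) Ω ∧
       (∀ᵐ x ∂(volume.restrict Ω), 0 ≤ (Df x).det) ∧
       ∃ K : EuclideanSpace ℝ (Fin n) → ℝ, Measurable K ∧ (∀ x ∈ Ω, 1 ≤ K x) ∧
         ∀ᵐ x ∂(volume.restrict Ω), opNorm (Df x) ^ n ≤ K x * (Df x).det)) →
  ∀ (KI : (EuclideanSpace ℝ (Fin n) → Matrix (Fin n) (Fin n) ℝ) → EuclideanSpace ℝ (Fin n) → ℝ),
    (∀ (Df : EuclideanSpace ℝ (Fin n) → Matrix (Fin n) (Fin n) ℝ) (x : EuclideanSpace ℝ (Fin n)),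
      KI Df x = if 0 < (Df x).det
        then opNorm (Df x).adjugate ^ n / (Df x).det ^ (n - 1) else 1) →
  ∀ p : ℝ, 1 < p →
  ∀ g : EuclideanSpace ℝ (Fin n) → EuclideanSpace ℝ (Fin n),
    ContinuousOn g (closure Ω) → InjOn g (closure Ω) → g '' closure Ω = closure (g '' Ω) →
    (∃ Dg : EuclideanSpace ℝ (Fin n) → Matrix (Fin n) (Fin n) ℝ,
      FD g Dg ∧ ∫⁻ x in Ω, ENNReal.ofReal (KI Dg x ^ p) < ⊤) →
  ∀ (f : EuclideanSpace ℝ (Fin n) → EuclideanSpace ℝ (Fin n))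
    (Df : EuclideanSpace ℝ (Fin n) → Matrix (Fin n) (Fin n) ℝ),
    ContinuousOn f (closure Ω) → InjOn f (closure Ω) → f '' closure Ω = closure (g '' Ω) →
    (∀ x ∈ frontier Ω, f x = g x) → FD f Df →
    (∀ (h : EuclideanSpace ℝ (Fin n) → EuclideanSpace ℝ (Fin n))
       (Dh : EuclideanSpace ℝ (Fin n) → Matrix (Fin n) (Fin n) ℝ),
       ContinuousOn h (closure Ω) → InjOn h (closure Ω) → h '' closure Ω = closure (g '' Ω) →
       (∀ x ∈ frontier Ω, h x = g x) → FD h Dh →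
       ∫⁻ x in Ω, ENNReal.ofReal (KI Df x ^ p) ≤ ∫⁻ x in Ω, ENNReal.ofReal (KI Dh x ^ p)) →
    (f '' Ω = g '' Ω ∧ ContDiffOn ℝ ((⊤ : ℕ∞) : WithTop ℕ∞) f Ω ∧
      ∃ f' : EuclideanSpace ℝ (Fin n) → EuclideanSpace ℝ (Fin n),
        MapsTo f' (g '' Ω) Ω ∧ (∀ x ∈ Ω, f' (f x) = x) ∧ (∀ y ∈ g '' Ω, f (f' y) = y) ∧
        ContDiffOn ℝ ((⊤ : ℕ∞) : WithTop ℕ∞) f' (g '' Ω))) := by
  intro H
  obtain ⟨Ω, g, Dg, hΩ, hg, hmin, hnot, -⟩ :=
    Pool.Agent.Results.MP_6ded3d_an.PlanarNonsmoothMinimizer.planar_example 2 (by norm_num)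
  have hop : ∀ A : Matrix (Fin 2) (Fin 2) ℝ,
      Pool.Agent.Results.MP_6ded3d_an.PlanarNonsmoothMinimizer.opNorm A =
        ‖LinearMap.toContinuousLinearMap (Matrix.toEuclideanLin A)‖ := fun A => rfl
  have hcpt : IsCompact (closure Ω) := hΩ.2.2.isCompact_closure
  have key := H 2 le_rfl Ω hΩ.1 hΩ.2.1 hΩ.2.2
    (fun A => Pool.Agent.Results.MP_6ded3d_an.PlanarNonsmoothMinimizer.opNorm A) hop
    (fun f Df => Pool.Agent.Results.MP_6ded3d_an.PlanarNonsmoothMinimizer.FiniteDistortion Ω f Df)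
    ?_
    (fun Df x => Pool.Agent.Results.MP_6ded3d_an.PlanarNonsmoothMinimizer.innerDistortion (Df x))
    (fun Df x => rfl) 2 (by norm_num) g hg.homeo.1 hg.homeo.2.1.injOn hg.homeo.2.1.image_eq
    ⟨Dg, hg.finiteDistortion, ?_⟩ g Dg hg.homeo.1 hg.homeo.2.1.injOn hg.homeo.2.1.image_eq
    (fun x _ => rfl) hg.finiteDistortion ?_
  · exact hnot (contDiffOn_infty.1 key.2.1 2)
  · intro f Df
    constructor
    · intro h
      obtain ⟨K, hK, hK1, hKb⟩ := h.bound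
      refine ⟨h.weak.locInt, h.weak.locInt_differential, ?_, h.jacobian_locInt,
        h.jacobian_nonneg, K, hK, fun x _ => hK1 x, hKb⟩
      intro φ h1 h2 h3 i j
      have h4 := h.weak.weak φ ⟨h1, h2, h3⟩ i j
      have h5 : ∀ x, (f x).ofLp i * (fderiv ℝ φ x) (EuclideanSpace.single j 1) =
          (fderiv ℝ φ x) (EuclideanSpace.single j 1) * (f x).ofLp i := fun x => mul_comm _ _
      have h6 : ∀ x, Df x i j * φ x = φ x * Df x i j := fun x => mul_comm _ _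
      simp only [h5, h6]
      exact h4
    · rintro ⟨h1, h2, h3, h4, h5, K, hK, hK1, hKb⟩
      refine ⟨⟨h1, h2, ?_⟩, h4, h5, fun x => max (K x) 1, hK.max measurable_const,
        fun x => le_max_right _ _, ?_⟩
      · intro φ hφ i j
        have h6 := h3 φ hφ.1 hφ.2.1 hφ.2.2 i j
        have h7 : ∀ x, (f x).ofLp i * (fderiv ℝ φ x) (EuclideanSpace.single j 1) =
            (fderiv ℝ φ x) (EuclideanSpace.single j 1) * (f x).ofLp i := fun x => mul_comm _ _
        have h8 : ∀ x, Df x i j * φ x = φ x * Df x i j := fun x => mul_comm _ _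
        simp only [h7, h8] at h6
        exact h6
      · filter_upwards [h5, hKb] with x hx1 hx2
        exact hx2.trans (mul_le_mul_of_nonneg_right (le_max_left _ _) hx1)
  · have h1 := hg.distortion_Lp
    have h2 := lintegral_rpow_enorm_lt_top_of_eLpNorm_lt_top (by norm_num) (by norm_num) h1.2
    refine lt_of_le_of_lt (lintegral_mono fun x => ?_) h2
    rw [ENNReal.toReal_ofReal (by norm_num), ← ofReal_norm,
      ENNReal.ofReal_rpow_of_nonneg (norm_nonneg _) (by norm_num)]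
    apply ENNReal.ofReal_le_ofReal
    rw [Real.rpow_two, Real.rpow_two, Real.norm_eq_abs, sq_abs]
  · intro h Dh hc hi him hfr hFD
    refine hmin.2 h Dh ⟨⟨hc, ⟨?_, hi, ?_⟩, ?_⟩, hFD, hfr⟩
    · rw [← him]; exact mapsTo_image _ _
    · rw [← him]; exact subset_rfl
    · rw [← him]; exact invFunOn_continuousOn hcpt hc hi

end Pool.Agent.S04980
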