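import Pool.Statements.S05106
-- import your own Pool.Agent.* helpers here

set_option autoImplicit false
open Pool Pool.MP_7987d1_an

namespace Pool.Agent.S05106

/-- The linear functional `x ↦ x_0 / √2` on the one-dimensional Euclidean space. -/
noncomputable def L : EuclideanSpace ℝ (Fin (0 + 1)) →L[ℝ] ℝ :=
  (1 / Real.sqrt 2) • (EuclideanSpace.proj (0 : Fin (0 + 1)))

/-- The travelling wave. -/
noncomputable def wave (p : EuclideanSpace ℝ (Fin (0 + 1)) × ℝ) : ℝ :=
  Real.sigmoid (L p.1 + 3 / 2 * p.2)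

lemma L_single : L (EuclideanSpace.single (0 : Fin (0 + 1)) (1 : ℝ)) = 1 / Real.sqrt 2 := by
  simp [L]

lemma hasFDerivAt_wave_x (t : ℝ) (x : EuclideanSpace ℝ (Fin (0 + 1))) :
    HasFDerivAt (fun y => wave (y, t))
      ((Real.sigmoid (L x + 3 / 2 * t) * (1 - Real.sigmoid (L x + 3 / 2 * t))) • L) x := by
  have h1 : HasFDerivAt (fun y : EuclideanSpace ℝ (Fin (0 + 1)) => L y + 3 / 2 * t) L x :=
    (L.hasFDerivAt).add_const _
  have h2 := (Real.hasDerivAt_sigmoid (L x + 3 / 2 * t)).comp_hasFDerivAt x h1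
  simpa [wave, Function.comp_def] using h2

lemma fderiv_wave_x (t : ℝ) :
    fderiv ℝ (fun y => wave (y, t)) = fun x =>
      ((Real.sigmoid (L x + 3 / 2 * t) * (1 - Real.sigmoid (L x + 3 / 2 * t))) • L) :=
  funext fun x => (hasFDerivAt_wave_x t x).fderiv

lemma hasFDerivAt_fderiv_wave (t : ℝ) (x : EuclideanSpace ℝ (Fin (0 + 1))) :
    HasFDerivAt (fderiv ℝ (fun y => wave (y, t)))
      (((Real.sigmoid (L x + 3 / 2 * t) * (1 - Real.sigmoid (L x + 3 / 2 * t))
        * (1 - 2 * Real.sigmoid (L x + 3 / 2 * t))) • L).smulRight L) x := by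
  rw [fderiv_wave_x]
  have h1 : HasFDerivAt (fun y : EuclideanSpace ℝ (Fin (0 + 1)) => L y + 3 / 2 * t) L x :=
    (L.hasFDerivAt).add_const _
  have h0 := Real.hasDerivAt_sigmoid (L x + 3 / 2 * t)
  have h3 : HasDerivAt (fun s : ℝ => Real.sigmoid s * (1 - Real.sigmoid s))
      (Real.sigmoid (L x + 3 / 2 * t) * (1 - Real.sigmoid (L x + 3 / 2 * t))
        * (1 - 2 * Real.sigmoid (L x + 3 / 2 * t))) (L x + 3 / 2 * t) := by
    refine (h0.mul (h0.const_sub 1)).congr_deriv ?_
    ring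
  have h2 := h3.comp_hasFDerivAt x h1
  have h4 := h2.smul_const L
  simpa [Function.comp_def] using h4

lemma hasDerivAt_wave_t (t : ℝ) (x : EuclideanSpace ℝ (Fin (0 + 1))) :
    HasDerivAt (fun s => wave (x, s))
      ((Real.sigmoid (L x + 3 / 2 * t) * (1 - Real.sigmoid (L x + 3 / 2 * t))) * (3 / 2)) t := by
  have h1 : HasDerivAt (fun s : ℝ => L x + 3 / 2 * s) (3 / 2) t := by
    have := ((hasDerivAt_id t).const_mul (3 / 2 : ℝ)).const_add (L x)
    simpa using this
  have h2 := (Real.hasDerivAt_sigmoid (L x + 3 / 2 * t)).comp t h1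
  simpa [wave, Function.comp_def] using h2

/-- The negation of the preceding statement: For 1≤n≤8, every C² solution of Δu−u_t=u³−u for t<0 with ∣u∣≤1, ∂u/∂x_n>0 and u_t≥0 has the form u(x,t)=g(ν·x) for a unit vector ν, i.e. is one-dimensional and time-independent. -/
theorem result :
    ¬ (∀ m : ℕ, m + 1 ≤ 8 → ∀ u : EuclideanSpace ℝ (Fin (m + 1)) × ℝ → ℝ,
    ContDiffOn ℝ 2 u {p | p.2 < 0} →
    (∀ x : EuclideanSpace ℝ (Fin (m + 1)), ∀ t : ℝ, t < 0 →
      |u (x, t)| ≤ 1 ∧
      (∑ i : Fin (m + 1), iteratedFDeriv ℝ 2 (fun y => u (y, t)) x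
          (fun _ => EuclideanSpace.single i (1 : ℝ)))
        - deriv (fun s => u (x, s)) t = u (x, t) ^ 3 - u (x, t) ∧
      0 < fderiv ℝ (fun y => u (y, t)) x (EuclideanSpace.single (Fin.last m) (1 : ℝ)) ∧
      0 ≤ deriv (fun s => u (x, s)) t) →
    ∃ ν : EuclideanSpace ℝ (Fin (m + 1)), ‖ν‖ = 1 ∧
      ∃ g : ℝ → ℝ, ∀ x : EuclideanSpace ℝ (Fin (m + 1)), ∀ t : ℝ, t < 0 →
        u (x, t) = g (inner ℝ ν x)) := by
  intro H
  have hsmooth : ContDiffOn ℝ 2 wave {p | p.2 < 0} := by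
    -- smoothness
    apply ContDiff.contDiffOn
    have h1 : ContDiff ℝ 2 (fun p : EuclideanSpace ℝ (Fin (0 + 1)) × ℝ => L p.1 + 3 / 2 * p.2) :=
      (L.contDiff.comp contDiff_fst).add (contDiff_const.mul contDiff_snd)
    exact (contDiff_sigmoid.of_le le_top).comp h1
  have H1 := H 0 (by norm_num) wave hsmooth
  clear H
  suffices hcond : _ by
    obtain ⟨ν, -, g, hg⟩ := H1 hcond
    -- time dependence
    have h1 := hg 0 (-1) (by norm_num)
    have h2 := hg 0 (-2) (by norm_num)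
    have h3 : wave (0, -1) = wave (0, -2) := h1.trans h2.symm
    simp only [wave, map_zero, zero_add, Real.sigmoid_inj] at h3
    norm_num at h3
  · intro x t _
    have hs0 := Real.sigmoid_pos (L x + 3 / 2 * t)
    have hs1 := Real.sigmoid_lt_one (L x + 3 / 2 * t)
    have h2 : (0 : ℝ) < Real.sqrt 2 := Real.sqrt_pos.mpr (by norm_num)
    have hsq : Real.sqrt 2 * Real.sqrt 2 = 2 := Real.mul_self_sqrt (by norm_num)
    have hinv : (1 / Real.sqrt 2) * (1 / Real.sqrt 2) = 1 / 2 := by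
      rw [div_mul_div_comm, hsq]; norm_num
    refine ⟨?_, ?_, ?_, ?_⟩
    · rw [abs_le]
      constructor
      · have : 0 < wave (x, t) := hs0
        linarith
      · exact hs1.le
    · rw [(hasDerivAt_wave_t t x).deriv]
      simp only [iteratedFDeriv_two_apply, (hasFDerivAt_fderiv_wave t x).fderiv]
      simp only [Nat.reduceAdd, Fin.sum_univ_one]
      rw [show (ContinuousLinearMap.smulRight ((Real.sigmoid (L x + 3 / 2 * t) * (1 - Real.sigmoid (L x + 3 / 2 * t))
        * (1 - 2 * Real.sigmoid (L x + 3 / 2 * t))) • L) L) (EuclideanSpace.single 0 1)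
        (EuclideanSpace.single 0 1) = (Real.sigmoid (L x + 3 / 2 * t) * (1 - Real.sigmoid (L x + 3 / 2 * t))
        * (1 - 2 * Real.sigmoid (L x + 3 / 2 * t))) * ((L (EuclideanSpace.single 0 1)) *
        (L (EuclideanSpace.single 0 1))) from by
          simp only [ContinuousLinearMap.smulRight_apply, ContinuousLinearMap.smul_apply, smul_eq_mul]
          ring]
      rw [L_single, hinv]
      change _ = Real.sigmoid (L x + 3 / 2 * t) ^ 3 - Real.sigmoid (L x + 3 / 2 * t)
      ring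
    · rw [(hasFDerivAt_wave_x t x).fderiv]
      have : L (EuclideanSpace.single (Fin.last 0) (1 : ℝ)) = 1 / Real.sqrt 2 := L_single
      rw [ContinuousLinearMap.smul_apply, this, smul_eq_mul]
      have : 0 < 1 - Real.sigmoid (L x + 3 / 2 * t) := by linarith
      positivity
    · rw [(hasDerivAt_wave_t t x).deriv]
      have : 0 < 1 - Real.sigmoid (L x + 3 / 2 * t) := by linarith
      positivity

end Pool.Agent.S05106
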