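import Pool.Statements.S05156
-- import your own Pool.Agent.* helpers here

set_option autoImplicit false
open Pool Pool.MP_7d5b5f_an

namespace Pool.Agent.S05156

/-- The negation of the preceding statement: For each p>1 there is C, independent of dimension d and coordinate k, so the discrete Riesz transform with kernel Γ((d+1)/2)π^{-(d+1)/2} x_k/∣x∣^{d+1} on ℤ^d is bounded on ℓ^p with norm at most C (tested on finitely supported f). -/
theorem result :
    ¬ (∀ p : ℝ, 1 < p → ∃ C : ℝ, 0 < C ∧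
      ∀ (d : ℕ) (k : Fin d) (S T : Finset (Fin d → ℤ)) (f : (Fin d → ℤ) → ℝ),
        ∑ n ∈ T, |∑ m ∈ S,
            ((Real.Gamma (((d : ℝ) + 1) / 2) / Real.pi ^ (((d : ℝ) + 1) / 2)) *
              (((n k - m k : ℤ) : ℝ) /
                (Real.sqrt (∑ i, (((n i - m i : ℤ) : ℝ)) ^ 2)) ^ (d + 1))) * f m| ^ p
          ≤ C ^ p * ∑ m ∈ S, |f m| ^ p) := by
  intro h
  obtain ⟨C, hC, h⟩ := h 2 (by norm_num)
  -- factorial growth
  have ht := FloorSemiring.tendsto_pow_div_factorial_atTop (Real.pi : ℝ)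
  have hpos : (0 : ℝ) < 1 / (Real.pi * (C + 1)) := by positivity
  obtain ⟨N, hN⟩ := ((tendsto_order.1 ht).2 _ hpos).exists
  set k : Fin (2 * N + 1) := 0 with hk
  have h1 := h (2 * N + 1) k {0} {Pi.single k 1} (fun _ => 1)
  have hsum : (∑ i : Fin (2 * N + 1), (((Pi.single k (1 : ℤ) : Fin (2 * N + 1) → ℤ) i : ℤ) : ℝ) ^ 2) = 1 := by
    rw [Finset.sum_eq_single k]
    · simp
    · intro b _ hb
      simp [Pi.single_eq_of_ne hb]
    · simp
  have hG : Real.Gamma ((((2 * N + 1 : ℕ) : ℝ) + 1) / 2) = (N.factorial : ℝ) := by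
    have : (((2 * N + 1 : ℕ) : ℝ) + 1) / 2 = (N : ℝ) + 1 := by
      push_cast; ring
    rw [this, Real.Gamma_nat_eq_factorial]
  have hP : Real.pi ^ ((((2 * N + 1 : ℕ) : ℝ) + 1) / 2) = Real.pi ^ (N + 1) := by
    have : (((2 * N + 1 : ℕ) : ℝ) + 1) / 2 = ((N + 1 : ℕ) : ℝ) := by
      push_cast; ring
    rw [this, Real.rpow_natCast]
  simp only [Finset.sum_singleton, Pi.zero_apply, sub_zero] at h1
  rw [hsum, hG, hP] at h1
  simp only [Pi.single_eq_same, Int.cast_one, Real.sqrt_one, one_pow, div_one, mul_one, abs_one,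
    Real.one_rpow] at h1
  have hc0 : (0 : ℝ) < (N.factorial : ℝ) / Real.pi ^ (N + 1) := by positivity
  rw [abs_of_pos hc0] at h1
  have h2 : (N.factorial : ℝ) / Real.pi ^ (N + 1) ≤ C := by
    rw [Real.rpow_two, Real.rpow_two] at h1
    exact (le_abs_self _).trans (abs_le_of_sq_le_sq h1 hC.le)
  have hfac : (0 : ℝ) < (N.factorial : ℝ) := by positivity
  have h3 : Real.pi ^ N * (Real.pi * (C + 1)) < (N.factorial : ℝ) := by
    rw [div_lt_div_iff₀ hfac (by positivity)] at hN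
    linarith
  have h4 : (N.factorial : ℝ) ≤ C * Real.pi ^ (N + 1) := by
    rwa [div_le_iff₀ (by positivity)] at h2
  have h5 : (0 : ℝ) < Real.pi ^ N * Real.pi := by positivity
  have h6 : Real.pi ^ (N + 1) = Real.pi ^ N * Real.pi := pow_succ _ _
  rw [h6] at h4
  nlinarith

end Pool.Agent.S05156
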