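import Pool.Statements.S05228
import Pool.Agent.H345R3.HomP

set_option autoImplicit false
open Pool Pool.MP_8222c7_an

namespace Pool.Agent.S05228

/-- The negation of the preceding statement: Every non-radical commutative amenable complex Banach algebra A has this property: two continuous homomorphisms from A into a commutative Banach algebra whose difference takes only quasinilpotent (radical) values are equal. -/
theorem result :
    ¬ (∀ (A : Type) [NonUnitalNormedCommRing A] [NormedSpace ℂ A] [IsScalarTower ℂ A A]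
      [SMulCommClass ℂ A A] [CompleteSpace A],
      (∃ a : A, ¬ quasispectrum ℂ a ⊆ {0}) →
      (∀ (E : Type) [NormedAddCommGroup E] [NormedSpace ℂ E] [CompleteSpace E]
        (l r : A →L[ℂ] (E →L[ℂ] E)),
        (∀ a b : A, l (a * b) = (l a).comp (l b)) →
        (∀ a b : A, r (a * b) = (r b).comp (r a)) →
        (∀ a b : A, (l a).comp (r b) = (r b).comp (l a)) →
        ∀ D : A →L[ℂ] (E →L[ℂ] ℂ),
          (∀ (a b : A) (x : E), D (a * b) x = D b (r a x) + D a (l b x)) →
          ∃ f : E →L[ℂ] ℂ, ∀ (a : A) (x : E), D a x = f (r a x) - f (l a x)) →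
      ∀ (B : Type) [NonUnitalNormedCommRing B] [NormedSpace ℂ B] [IsScalarTower ℂ B B]
        [SMulCommClass ℂ B B] [CompleteSpace B]
        (φ ψ : A →ₙₐ[ℂ] B), Continuous φ → Continuous ψ →
        (∀ a : A, quasispectrum ℂ (φ a - ψ a) ⊆ {0}) → φ = ψ) := by
  intro h
  obtain ⟨A, iA, iA2, hcA, -, -, hAm, B, iB, iB2, hcB, -, φ, ψ, hφ, hψ, hsurj, ⟨ω, hω⟩, hrad, hne⟩ :=
    Pool.Agent.H345R3.HomP.main
  have hA' : H611R3.ZL.IsAmenable A := H611R3.ZL.amenable_iff.1 hAm
  apply hne
  have hntB : Nontrivial B := by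
    by_contra hB
    rw [not_nontrivial_iff_subsingleton] at hB
    apply hne
    ext a
    exact Subsingleton.elim _ _
  have hntA : Nontrivial A := by
    by_contra hA
    rw [not_nontrivial_iff_subsingleton] at hA
    have : (1 : B) = 0 := by
      rw [← map_one φ, Subsingleton.elim (1 : A) 0, map_zero]
    exact one_ne_zero this
  have key := h A ⟨1, ?_⟩ ?_ B (φ : A →ₙₐ[ℂ] B) (ψ : A →ₙₐ[ℂ] B) hφ hψ ?_
  · ext a
    exact DFunLike.congr_fun key a
  · intro hsub
    have h1 : (1 : ℂ) ∈ quasispectrum ℂ (1 : A) := by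
      rw [quasispectrum_eq_spectrum_union_zero]
      left
      simp [spectrum.one_eq]
    have := hsub h1
    simp at this
  · intro E _ _ _ l r hl hr hlr D hD
    exact hA' E inferInstance inferInstance inferInstance l r
      (fun a b x => by rw [hl]; rfl) (fun a b x => by rw [hr]; rfl)
      (fun a b x => by
        have := DFunLike.congr_fun (hlr a b) x
        simpa using this) D hD
  · intro a
    rw [quasispectrum_eq_spectrum_union_zero]
    rintro z (hz | hz)
    · by_contra hz0
      apply hz
      have hz0' : z ≠ 0 := hz0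
      have hx := Ideal.mem_jacobson_bot.1 (hrad a) (algebraMap ℂ B (-z⁻¹))
      have h2 : algebraMap ℂ B z - (φ a - ψ a) =
          algebraMap ℂ B z * ((φ a - ψ a) * algebraMap ℂ B (-z⁻¹) + 1) := by
        have h3 : algebraMap ℂ B z * algebraMap ℂ B (-z⁻¹) = -1 := by
          rw [← map_mul, mul_neg, mul_inv_cancel₀ hz0', map_neg, map_one]
        calc algebraMap ℂ B z - (φ a - ψ a)
            = (φ a - ψ a) * (-1) + algebraMap ℂ B z := by ring
          _ = (φ a - ψ a) * (algebraMap ℂ B z * algebraMap ℂ B (-z⁻¹)) + algebraMap ℂ B z := by rw [h3]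
          _ = _ := by ring
      change IsUnit (algebraMap ℂ B z - (φ a - ψ a))
      rw [h2]
      exact ((isUnit_iff_ne_zero.2 hz0').map (algebraMap ℂ B)).mul hx
    · exact hz

end Pool.Agent.S05228
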