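import Pool.Statements.S05242
import Pool.Agent.X105.JC.Map

set_option autoImplicit false
open Pool Pool.MP_830bfa_an

namespace Pool.Agent.S05242

/-- The negation of the preceding statement: For every n ≥ 2, a C¹ map f from ℝⁿ to ℝⁿ whose Jacobian is everywhere invertible, with every complex eigenvalue of every Jacobian of modulus at least some fixed ε > 0, is injective. -/
theorem result :
    ¬ (∀ n : ℕ, 2 ≤ n → ∀ f : (Fin n → ℝ) → (Fin n → ℝ), ContDiff ℝ 1 f →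
      (∀ x : Fin n → ℝ,
        (LinearMap.toMatrix' ((fderiv ℝ f x : (Fin n → ℝ) →L[ℝ] (Fin n → ℝ)) :
          (Fin n → ℝ) →ₗ[ℝ] (Fin n → ℝ))).det ≠ 0) →
      (∃ ε : ℝ, 0 < ε ∧ ∀ x : Fin n → ℝ, ∀ z : ℂ,
        Polynomial.aeval z
          (LinearMap.toMatrix' ((fderiv ℝ f x : (Fin n → ℝ) →L[ℝ] (Fin n → ℝ)) :
            (Fin n → ℝ) →ₗ[ℝ] (Fin n → ℝ))).charpoly = 0 → ε ≤ ‖z‖) →
      Function.Injective f) := by
  intro H
  obtain ⟨m, hm, f, hf, hz, hinj⟩ := Pool.Agent.X105.JC.reduction (le_refl 4 |>.trans' (by norm_num))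
    Pool.Agent.X105.JC.F4 Pool.Agent.X105.JC.coeff_zero_F4 Pool.Agent.X105.JC.comp_one_F4
    Pool.Agent.X105.JC.inj_F4 ![1, 0, 0, 0] ![-1, 0, 5/2, -3]
    (by
      intro h
      have h0 := congrFun h 0
      norm_num at h0) Pool.Agent.X105.JC.coll_F4
  apply hinj
  refine H m hm f hf ?_ ⟨1, one_pos, ?_⟩
  · intro x hdet
    have h := hz x 0
    have h1 : Polynomial.aeval (0 : ℂ)
        (LinearMap.toMatrix' ((fderiv ℝ f x : (Fin m → ℝ) →L[ℝ] (Fin m → ℝ)) :
            (Fin m → ℝ) →ₗ[ℝ] (Fin m → ℝ))).charpoly = 0 := by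
      rw [← Polynomial.coeff_zero_eq_aeval_zero', Matrix.det_eq_sign_charpoly_coeff] at *
      have h2 : (LinearMap.toMatrix' ((fderiv ℝ f x : (Fin m → ℝ) →L[ℝ] (Fin m → ℝ)) :
            (Fin m → ℝ) →ₗ[ℝ] (Fin m → ℝ))).charpoly.coeff 0 = 0 := by
        rcases mul_eq_zero.1 hdet with h3 | h3
        · exact absurd h3 (pow_ne_zero _ (by norm_num))
        · exact h3
      rw [h2, map_zero]
    exact zero_ne_one (h h1)
  · intro x z h
    rw [hz x z h, norm_one]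

end Pool.Agent.S05242
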