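import Pool.Statements.S05466
import Pool.Agent.X97.Osc

set_option autoImplicit false
open MeasureTheory Filter Topology
open Pool Pool.MP_95eb0c_an

namespace Pool.Agent.S05466

/-- The negation of the preceding statement: For ideal gas γ>1, any sequence of bounded weak solutions of 1D Lagrangian gas dynamics on t>0 with uniform bounds τ,p bounded away from 0 and ∣v∣≤V, converging weak-* in L^∞, has velocity and pressure converging in L¹ on every compact subset. -/
theorem result :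
    ¬ (∀ (γ : ℝ), 1 < γ →
  ∀ (τe ve pe : ℕ → ℝ × ℝ → ℝ) (τ v p : ℝ × ℝ → ℝ) (τm τM pm pM V : ℝ),
  0 < τm → τm ≤ τM → 0 < pm → pm ≤ pM →
  (∀ n, AEStronglyMeasurable (τe n) (volume.restrict {z : ℝ × ℝ | 0 < z.2}) ∧
        AEStronglyMeasurable (ve n) (volume.restrict {z : ℝ × ℝ | 0 < z.2}) ∧
        AEStronglyMeasurable (pe n) (volume.restrict {z : ℝ × ℝ | 0 < z.2})) →
  (∀ n, ∀ᵐ z ∂(volume.restrict {z : ℝ × ℝ | 0 < z.2}),
        τm ≤ τe n z ∧ τe n z ≤ τM ∧ pm ≤ pe n z ∧ pe n z ≤ pM ∧ |ve n z| ≤ V) →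
  (∀ n, ∀ φ : ℝ × ℝ → ℝ, ContDiff ℝ ((⊤ : ℕ∞) : WithTop ℕ∞) φ → HasCompactSupport φ →
      tsupport φ ⊆ {z : ℝ × ℝ | 0 < z.2} →
      (∫ z in {z : ℝ × ℝ | 0 < z.2},
          (τe n z * fderiv ℝ φ z (0, 1) - ve n z * fderiv ℝ φ z (1, 0))) = 0 ∧
      (∫ z in {z : ℝ × ℝ | 0 < z.2},
          (ve n z * fderiv ℝ φ z (0, 1) + pe n z * fderiv ℝ φ z (1, 0))) = 0 ∧
      (∫ z in {z : ℝ × ℝ | 0 < z.2},
          ((ve n z ^ 2 / 2 + pe n z * τe n z / (γ - 1)) * fderiv ℝ φ z (0, 1)
            + pe n z * ve n z * fderiv ℝ φ z (1, 0))) = 0) →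
  AEStronglyMeasurable τ (volume.restrict {z : ℝ × ℝ | 0 < z.2}) →
  AEStronglyMeasurable v (volume.restrict {z : ℝ × ℝ | 0 < z.2}) →
  AEStronglyMeasurable p (volume.restrict {z : ℝ × ℝ | 0 < z.2}) →
  (∃ C : ℝ, ∀ᵐ z ∂(volume.restrict {z : ℝ × ℝ | 0 < z.2}),
      |τ z| ≤ C ∧ |v z| ≤ C ∧ |p z| ≤ C) →
  (∀ g : ℝ × ℝ → ℝ, Integrable g (volume.restrict {z : ℝ × ℝ | 0 < z.2}) →
      Tendsto (fun n => ∫ z in {z : ℝ × ℝ | 0 < z.2}, τe n z * g z) atTop
        (𝓝 (∫ z in {z : ℝ × ℝ | 0 < z.2}, τ z * g z)) ∧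
      Tendsto (fun n => ∫ z in {z : ℝ × ℝ | 0 < z.2}, ve n z * g z) atTop
        (𝓝 (∫ z in {z : ℝ × ℝ | 0 < z.2}, v z * g z)) ∧
      Tendsto (fun n => ∫ z in {z : ℝ × ℝ | 0 < z.2}, pe n z * g z) atTop
        (𝓝 (∫ z in {z : ℝ × ℝ | 0 < z.2}, p z * g z))) →
  ∀ K : Set (ℝ × ℝ), IsCompact K → K ⊆ {z : ℝ × ℝ | 0 < z.2} →
    Tendsto (fun n => ∫ z in K, |ve n z - v z|) atTop (𝓝 0) ∧
    Tendsto (fun n => ∫ z in K, |pe n z - p z|) atTop (𝓝 0)) := by
  intro hmain
  set H : Set (ℝ × ℝ) := {z : ℝ × ℝ | 0 < z.2} with hH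
  have hHm : MeasurableSet H := measurableSet_lt measurable_const measurable_snd
  have hwm := Pool.Agent.X97.Osc.wv_meas
  have hcase : ∀ n z, Pool.Agent.X97.Osc.wv n z = 0 ∨ Pool.Agent.X97.Osc.wv n z = 1 :=
    fun n z => Pool.Agent.X97.Osc.sg_cases n _
  have hrl : ∀ g : ℝ × ℝ → ℝ, Integrable g (volume.restrict H) →
      Tendsto (fun n => ∫ z in H, (Pool.Agent.X97.Osc.wv n z - 1 / 2) * g z) atTop (𝓝 0) := by
    intro g hg
    have hG : Integrable (H.indicator g) := (integrable_indicator_iff hHm).mpr hg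
    refine (Pool.Agent.X97.Osc.rl hG).congr (fun n => ?_)
    rw [← integral_indicator hHm]
    congr 1
    funext z
    by_cases hz : z ∈ H
    · simp [hz]
    · simp [hz]
  have key := hmain 2 (by norm_num)
    (fun n z => 3 / 2 + Pool.Agent.X97.Osc.wv n z)
    (fun n z => 1 / 2 - Pool.Agent.X97.Osc.wv n z)
    (fun n z => 3 / 2 - Pool.Agent.X97.Osc.wv n z)
    (fun _ => 2) (fun _ => 0) (fun _ => 1) (3 / 2) (5 / 2) (1 / 2) (3 / 2) (1 / 2)
    (by norm_num) (by norm_num) (by norm_num) (by norm_num)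
    (fun n => ⟨((hwm n).const_add _).aestronglyMeasurable, ((hwm n).const_sub _).aestronglyMeasurable,
      ((hwm n).const_sub _).aestronglyMeasurable⟩)
    (fun n => ae_of_all _ fun z => by
      rcases hcase n z with h | h
      · simp only [h]; norm_num
      · simp only [h]; norm_num)
    (by
      intro n φ hφ hc hsupp
      have hout : ∀ (v : ℝ × ℝ) (z : ℝ × ℝ), z ∉ H → fderiv ℝ φ z v = 0 := by
        intro v z hz
        have h1 : z ∉ tsupport φ := fun h => hz (hsupp h)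
        have h2 : z ∉ tsupport (fderiv ℝ φ) := fun h => h1 (tsupport_fderiv_subset ℝ h)
        rw [image_eq_zero_of_notMem_tsupport h2]
        rfl
      have hcont : ∀ v : ℝ × ℝ, Continuous (fun z => fderiv ℝ φ z v) := fun v =>
        (hφ.continuous_fderiv (by simp)).clm_apply continuous_const
      have hi : ∀ v : ℝ × ℝ, Integrable (fun z => fderiv ℝ φ z v) := fun v =>
        (hcont v).integrable_of_hasCompactSupport (hc.fderiv_apply (𝕜 := ℝ) v)
      have hiw : Integrable (fun z => Pool.Agent.X97.Osc.wv n z * fderiv ℝ φ z (1, 1)) :=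
        (hi (1, 1)).bdd_mul (c := 1) (hwm n).aestronglyMeasurable
          (ae_of_all _ fun z => Pool.Agent.X97.Osc.wv_abs n z)
      have hsum : ∀ z, fderiv ℝ φ z (0, 1) + fderiv ℝ φ z (1, 0) = fderiv ℝ φ z (1, 1) := by
        intro z
        rw [← map_add]
        simp
      have hz1 := Pool.Agent.X97.Osc.integral_fderiv_zero hφ hc (0, 1)
      have hz2 := Pool.Agent.X97.Osc.integral_fderiv_zero hφ hc (1, 0)
      have hz3 := Pool.Agent.X97.Osc.transported n hφ hc
      -- general linear combination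
      have hgen : ∀ (a b c : ℝ) (F : ℝ × ℝ → ℝ),
          (∀ z, F z = a * fderiv ℝ φ z (0, 1) + b * fderiv ℝ φ z (1, 0)
            + c * (Pool.Agent.X97.Osc.wv n z * fderiv ℝ φ z (1, 1))) →
          ∫ z in H, F z = 0 := by
        intro a b c F hF
        rw [setIntegral_eq_integral_of_forall_compl_eq_zero]
        · have h1 : ∫ z, F z = ∫ z, (a * fderiv ℝ φ z (0, 1) + b * fderiv ℝ φ z (1, 0)
            + c * (Pool.Agent.X97.Osc.wv n z * fderiv ℝ φ z (1, 1))) := by
            congr 1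
            funext z
            exact hF z
          have h2 : ∫ z, (a * fderiv ℝ φ z (0, 1) + b * fderiv ℝ φ z (1, 0)
            + c * (Pool.Agent.X97.Osc.wv n z * fderiv ℝ φ z (1, 1))) =
            (∫ z, (a * fderiv ℝ φ z (0, 1) + b * fderiv ℝ φ z (1, 0))) +
            ∫ z, c * (Pool.Agent.X97.Osc.wv n z * fderiv ℝ φ z (1, 1)) :=
            integral_add (((hi _).const_mul a).add ((hi _).const_mul b)) (hiw.const_mul c)
          have h3 : ∫ z, (a * fderiv ℝ φ z (0, 1) + b * fderiv ℝ φ z (1, 0)) =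
            (∫ z, a * fderiv ℝ φ z (0, 1)) + ∫ z, b * fderiv ℝ φ z (1, 0) :=
            integral_add ((hi _).const_mul a) ((hi _).const_mul b)
          rw [h1, h2, h3, integral_const_mul, integral_const_mul, integral_const_mul, hz1, hz2, hz3]
          ring
        · intro z hz
          rw [hF z, hout _ z hz, hout _ z hz, hout _ z hz]
          ring
      refine ⟨?_, ?_, ?_⟩
      · apply hgen (3 / 2) (-(1 / 2)) 1
        intro z
        rw [← hsum z]
        ring
      · apply hgen (1 / 2) (3 / 2) (-1)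
        intro z
        rw [← hsum z]
        ring
      · apply hgen (19 / 8) (3 / 4) (-1)
        intro z
        rw [← hsum z]
        rcases hcase n z with h | h
        · rw [h]; ring
        · rw [h]; ring)
    aestronglyMeasurable_const aestronglyMeasurable_const aestronglyMeasurable_const
    ⟨2, ae_of_all _ fun z => by norm_num⟩
    (by
      intro g hg
      have h0 := hrl g hg
      have hiw : ∀ n, Integrable (fun z => (Pool.Agent.X97.Osc.wv n z - 1 / 2) * g z)
          (volume.restrict H) := fun n =>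
        hg.bdd_mul (c := 1 / 2) ((hwm n).sub_const _).aestronglyMeasurable
          (ae_of_all _ fun z => Pool.Agent.X97.Osc.wv_bdd n z)
      have hgen : ∀ (a c : ℝ) (F : ℕ → ℝ × ℝ → ℝ),
          (∀ n z, F n z = a * g z + c * ((Pool.Agent.X97.Osc.wv n z - 1 / 2) * g z)) →
          Tendsto (fun n => ∫ z in H, F n z) atTop (𝓝 (∫ z in H, a * g z)) := by
        intro a c F hF
        have h1 : ∀ n, ∫ z in H, F n z = (∫ z in H, a * g z) +
            c * ∫ z in H, (Pool.Agent.X97.Osc.wv n z - 1 / 2) * g z := by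
          intro n
          rw [← integral_const_mul, ← integral_add (hg.const_mul a) ((hiw n).const_mul c)]
          congr 1
          funext z
          exact hF n z
        simp_rw [h1]
        have h2 := (tendsto_const_nhds (x := ∫ z in H, a * g z) (f := atTop)).add (h0.const_mul c)
        rwa [mul_zero, add_zero] at h2
      refine ⟨hgen 2 1 _ fun n z => ?_, hgen 0 (-1) _ fun n z => ?_, hgen 1 (-1) _ fun n z => ?_⟩
      · ring
      · ring
      · ring)
    (Set.Icc (0 : ℝ) 1 ×ˢ Set.Icc (1 : ℝ) 2) (isCompact_Icc.prod isCompact_Icc)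
    (fun z hz => lt_of_lt_of_le one_pos hz.2.1)
  obtain ⟨h1, _⟩ := key
  have hconst : ∀ n, ∫ z in Set.Icc (0 : ℝ) 1 ×ˢ Set.Icc (1 : ℝ) 2,
      |1 / 2 - Pool.Agent.X97.Osc.wv n z - 0| = 1 / 2 := by
    intro n
    have h2 : ∀ z, |1 / 2 - Pool.Agent.X97.Osc.wv n z - 0| = 1 / 2 := by
      intro z
      rcases hcase n z with h | h
      · rw [h]; norm_num [abs_of_pos]
      · rw [h]; norm_num [abs_of_neg]
    simp_rw [h2]
    rw [setIntegral_const]
    have h3 : (volume : Measure (ℝ × ℝ)).real (Set.Icc (0 : ℝ) 1 ×ˢ Set.Icc (1 : ℝ) 2) = 1 := by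
      rw [Measure.real, Measure.volume_eq_prod, Measure.prod_prod, Real.volume_Icc, Real.volume_Icc]
      norm_num
    rw [h3]; norm_num
  have h4 : Tendsto (fun n : ℕ => (1 / 2 : ℝ)) atTop (𝓝 0) := h1.congr hconst
  have h5 := tendsto_nhds_unique h4 tendsto_const_nhds
  norm_num at h5

end Pool.Agent.S05466
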