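import Pool.Statements.S05648
import Pool.Agent.X102.PzE

set_option autoImplicit false
open MeasureTheory Filter Topology
open Pool Pool.MP_a271d0_an

namespace Pool.Agent.S05648

open Pool.Agent.X102.Pz

/-- first unit vector -/
noncomputable def e : E := EuclideanSpace.single 0 1

lemma norm_e : ‖e‖ = 1 := by simp [e]

/-- The domain: the unit ball centred at `e`. -/
def Om : Set E := Metric.ball e 1

lemma mem_Om {x : E} : x ∈ Om ↔ ‖x - e‖ ^ 2 - 1 < 0 := by
  unfold Om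
  rw [mem_ball_iff_norm]
  constructor
  · intro h
    nlinarith [norm_nonneg (x - e)]
  · intro h
    nlinarith [norm_nonneg (x - e)]

lemma star (l : ℝ) (hl : 1 < l) (x : E) (h : l • x ∈ Om) : x ∈ Om := by
  rw [mem_Om, norm_sub_sq_real, norm_e] at h ⊢
  rw [norm_smul, Real.norm_of_nonneg (by linarith), real_inner_smul_left] at h
  have h1 : l * (l * ‖x‖ ^ 2 - 2 * inner ℝ x e) < 0 := by nlinarith
  have h2 : l * ‖x‖ ^ 2 - 2 * inner ℝ x e < 0 := by
    by_contra h3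
    have := mul_nonneg (by linarith : 0 ≤ l) (not_lt.mp h3)
    linarith
  nlinarith [sq_nonneg ‖x‖]

/-- The negation of the preceding statement: For every N≥3, smooth bounded domain Ω in R^N with 0 on its boundary, s in (0,2) and 2*(s)-1<p<(N+2)/(N-2), there is an H^1_0 function u>0 on Ω weakly solving Δu - u^p + u^(2*(s)-1)/∣x∣^s = 0. -/
theorem result :
    ¬ (∀ (N : ℕ), 3 ≤ N →
  ∀ (Ω : Set (EuclideanSpace ℝ (Fin N))),
    IsOpen Ω → IsConnected Ω → Bornology.IsBounded Ω →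
    (∃ ρ : EuclideanSpace ℝ (Fin N) → ℝ,
        ContDiff ℝ ((⊤ : ℕ∞) : WithTop ℕ∞) ρ ∧ Ω = {x | ρ x < 0} ∧
        ∀ x ∈ frontier Ω, fderiv ℝ ρ x ≠ 0) →
    (0 : EuclideanSpace ℝ (Fin N)) ∈ frontier Ω →
  ∀ s : ℝ, 0 < s → s < 2 →
  ∀ p : ℝ, 2 * ((N : ℝ) - s) / ((N : ℝ) - 2) - 1 < p →
    p < ((N : ℝ) + 2) / ((N : ℝ) - 2) →
  ∃ u : EuclideanSpace ℝ (Fin N) → ℝ,
  ∃ G : EuclideanSpace ℝ (Fin N) → EuclideanSpace ℝ (Fin N),
    MemLp u 2 volume ∧ MemLp G 2 volume ∧
    (∃ φ : ℕ → EuclideanSpace ℝ (Fin N) → ℝ,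
        (∀ n, ContDiff ℝ ((⊤ : ℕ∞) : WithTop ℕ∞) (φ n) ∧
              HasCompactSupport (φ n) ∧ tsupport (φ n) ⊆ Ω) ∧
        Tendsto (fun n => eLpNorm (fun x => φ n x - u x) 2 volume) atTop (𝓝 0) ∧
        Tendsto (fun n => eLpNorm (fun x => gradient (φ n) x - G x) 2 volume)
          atTop (𝓝 0)) ∧
    (∀ᵐ x ∂(volume : Measure (EuclideanSpace ℝ (Fin N))), x ∈ Ω → 0 < u x) ∧
    ∀ ψ : EuclideanSpace ℝ (Fin N) → ℝ,
      ContDiff ℝ ((⊤ : ℕ∞) : WithTop ℕ∞) ψ → HasCompactSupport ψ → tsupport ψ ⊆ Ω →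
        Integrable (fun x => inner ℝ (G x) (gradient ψ x)) volume ∧
        Integrable (fun x => u x ^ p * ψ x) volume ∧
        Integrable (fun x => u x ^ (2 * ((N : ℝ) - s) / ((N : ℝ) - 2) - 1) * ψ x / ‖x‖ ^ s)
          volume ∧
        ∫ x, (inner ℝ (G x) (gradient ψ x) + u x ^ p * ψ x
              - u x ^ (2 * ((N : ℝ) - s) / ((N : ℝ) - 2) - 1) * ψ x / ‖x‖ ^ s) = 0) := by
  intro H
  have hne : Om.Nonempty := ⟨e, by simp [Om]⟩
  have hopen : IsOpen Om := Metric.isOpen_ball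
  have hρ : ∃ ρ : EuclideanSpace ℝ (Fin 3) → ℝ,
        ContDiff ℝ ((⊤ : ℕ∞) : WithTop ℕ∞) ρ ∧ Om = {x | ρ x < 0} ∧
        ∀ x ∈ frontier Om, fderiv ℝ ρ x ≠ 0 := by
    refine ⟨fun x => ‖x - e‖ ^ 2 - 1, ?_, ?_, ?_⟩
    · exact ((contDiff_id.sub contDiff_const).norm_sq ℝ).sub contDiff_const
    · ext x; exact mem_Om
    · intro x hx h0
      have hx' : ‖x - e‖ = 1 := by
        have : x ∈ Metric.sphere e 1 := by
          rw [← frontier_ball e one_ne_zero]; exact hx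
        rwa [mem_sphere_iff_norm] at this
      have hd : HasFDerivAt (fun x : E => ‖x - e‖ ^ 2 - 1) (2 • (innerSL ℝ (x - e))) x := by
        have h1 := ((hasFDerivAt_id x).sub_const e).norm_sq
        have h2 := h1.sub_const 1
        refine h2.congr_fderiv ?_
        ext v
        simp
      rw [hd.fderiv] at h0
      have h1 := congrArg (fun L : E →L[ℝ] ℝ => L (x - e)) h0
      simp only [smul_apply, innerSL_apply_apply, zero_apply] at h1
      rw [real_inner_self_eq_norm_sq, hx'] at h1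
      norm_num at h1
  have h0mem : (0 : EuclideanSpace ℝ (Fin 3)) ∈ frontier Om := by
    have : (0 : E) ∈ Metric.sphere e 1 := by
      rw [mem_sphere_iff_norm, zero_sub, norm_neg, norm_e]
    rw [← frontier_ball e one_ne_zero] at this
    exact this
  obtain ⟨u, G, hu2, hG2, hap, hpos, hw⟩ := H 3 le_rfl Om hopen
    ⟨hne, (convex_ball _ _).isPreconnected⟩ Metric.isBounded_ball
    hρ h0mem 1 (by norm_num) (by norm_num) 4 (by norm_num)
    (by norm_num)
  · have hHH : HH Om u G := ⟨hu2, hG2, hap⟩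
    have hzero := hHH.zero_off
    have hnn : ∀ᵐ x, 0 ≤ u x := by
      filter_upwards [hpos, hzero] with x h1 h2
      by_cases hx : x ∈ Om
      · exact (h1 hx).le
      · exact (h2 hx).ge
    have hex : (2 * (((3 : ℕ) : ℝ) - 1) / (((3 : ℕ) : ℝ) - 2) - 1) = ((3 : ℕ) : ℝ) := by norm_num
    have hex4 : (4 : ℝ) = ((4 : ℕ) : ℝ) := by norm_num
    have h0 : ∫ x, u x ^ 5 = 0 := by
      refine nonexistence star hHH hnn ?_
      intro ψ hψ
      obtain ⟨i1, i2, i3, hi⟩ := hw ψ hψ.1 hψ.2.1 hψ.2.2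
      simp only [hex] at i3 hi
      rw [hex4] at i2 hi
      simp only [Real.rpow_natCast, Real.rpow_one] at i2 i3 hi
      have i12 : Integrable (fun x => (inner ℝ (G x) (gradient ψ x) : ℝ) + u x ^ 4 * ψ x) volume :=
        i1.add i2
      rw [integral_sub i12 i3, integral_add i1 i2] at hi
      exact hi
    have h5 : 0 ≤ᵐ[volume] fun x => u x ^ 5 := by
      filter_upwards [hnn] with x hx
      exact pow_nonneg hx 5
    rw [integral_eq_zero_iff_of_nonneg_ae h5 (int_five hHH)] at h0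
    have hmeas : volume Om = 0 := by
      rw [measure_eq_zero_iff_ae_notMem]
      filter_upwards [h0, hpos] with x h1 h2 hx
      have h3 := h2 hx
      have h4 : u x ^ 5 = 0 := h1
      exact (pow_pos h3 5).ne' h4
    exact (hopen.measure_pos volume hne).ne' hmeas

end Pool.Agent.S05648
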