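import Pool.Statements.S05718
import Pool.Agent.X244.Gen

set_option autoImplicit false
open MeasureTheory Filter Topology
open Pool Pool.MP_a70d84_an

namespace Pool.Agent.S05718

/-- The negation of the preceding statement: On ℓ²(ℕ), a finite-section sequence has the form P_nKP_n+W_nK'W_n+C_n (K,K' compact, ‖C_n‖→0) iff it lies in the closed algebra generated by P_nT(a)P_n, a∈L^∞, and both s-lim A_n and s-lim W_nA_nW_n are compact. -/
theorem result :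
    ¬ (∀ (P W : ℕ → (lp (fun _ : ℕ => ℂ) 2 →L[ℂ] lp (fun _ : ℕ => ℂ) 2)),
    (∀ (n : ℕ) (x : lp (fun _ : ℕ => ℂ) 2) (j : ℕ), (P n x) j = if j ≤ n then x j else 0) →
    (∀ (n : ℕ) (x : lp (fun _ : ℕ => ℂ) 2) (j : ℕ), (W n x) j = if j ≤ n then x (n - j) else 0) →
    ∀ A : ℕ → (lp (fun _ : ℕ => ℂ) 2 →L[ℂ] lp (fun _ : ℕ => ℂ) 2),
      (∃ K K' : lp (fun _ : ℕ => ℂ) 2 →L[ℂ] lp (fun _ : ℕ => ℂ) 2,
        IsCompactOperator K ∧ IsCompactOperator K' ∧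
        ∃ C : ℕ → (lp (fun _ : ℕ => ℂ) 2 →L[ℂ] lp (fun _ : ℕ => ℂ) 2),
          (∀ n, C n = P n * C n * P n) ∧
          Tendsto (fun n => ‖C n‖) atTop (𝓝 0) ∧
          ∀ n, A n = P n * K * P n + W n * K' * W n + C n)
      ↔
      ((∀ ε : ℝ, 0 < ε →
          ∃ B ∈ NonUnitalAlgebra.adjoin ℂ
            {G : ℕ → (lp (fun _ : ℕ => ℂ) 2 →L[ℂ] lp (fun _ : ℕ => ℂ) 2) |
              ∃ a : Lp ℂ ⊤ (volume : Measure (AddCircle (1 : ℝ))),
              ∃ T : lp (fun _ : ℕ => ℂ) 2 →L[ℂ] lp (fun _ : ℕ => ℂ) 2,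
                (∀ j k : ℕ, (T (lp.single 2 k (1 : ℂ) : lp (fun _ : ℕ => ℂ) 2)) j
                    = fourierCoeff (⇑a : AddCircle (1 : ℝ) → ℂ) ((j : ℤ) - (k : ℤ))) ∧
                ∀ n, G n = P n * T * P n},
            ∀ n, ‖A n - B n‖ ≤ ε) ∧
       (∃ K : lp (fun _ : ℕ => ℂ) 2 →L[ℂ] lp (fun _ : ℕ => ℂ) 2,
          IsCompactOperator K ∧ ∀ x, Tendsto (fun n => A n x) atTop (𝓝 (K x))) ∧
       (∃ K : lp (fun _ : ℕ => ℂ) 2 →L[ℂ] lp (fun _ : ℕ => ℂ) 2,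
          IsCompactOperator K ∧
          ∀ x, Tendsto (fun n => (W n * A n * W n) x) atTop (𝓝 (K x))))) := by
  intro h
  obtain ⟨P, hP⟩ := Pool.Agent.X244.FinSec.exists_isP
  obtain ⟨W, hW⟩ := Pool.Agent.X244.FinSec.exists_isW
  have hV := Pool.Agent.X244.FinSec.isIso_VV
  obtain ⟨K, K', hK, hK', C, _, hC, hA⟩ := (h P W hP hW (fun n =>
    Pool.Agent.X244.FinSec.A1 P Pool.Agent.X244.FinSec.VV n *
      Pool.Agent.X244.FinSec.A2 P Pool.Agent.X244.FinSec.VV n)).2 ⟨fun ε hε =>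
        ⟨_, Pool.Agent.X244.FinSec.mem_adjoin P hP, fun n => by
          rw [sub_self, norm_zero]; exact hε.le⟩,
      ⟨0, isCompactOperator_zero, fun x => Pool.Agent.X244.FinSec.tendsto_A12 hP hV x⟩,
      ⟨0, isCompactOperator_zero, fun x => by
        simp only [Pool.Agent.X244.FinSec.W_A12_W hP hW hV]
        exact Pool.Agent.X244.FinSec.tendsto_A21 hP hW hV x⟩⟩
  exact Pool.Agent.X244.FinSec.not_form hP hW hV hK hK' hC hA

end Pool.Agent.S05718
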