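import Pool.Statements.S05816
import Pool.Agent.X163.CG.Op

set_option autoImplicit false
open Pool Pool.MP_ae9c87_an
open Filter Topology

namespace Pool.Agent.S05816

open MeasureTheory Pool.Agent.X163.CG

/-- The negation of the preceding statement: For every contractive strongly continuous semigroup T on a complex Hilbert space with cogenerator V = I − 2∫₀^∞ e^{−t}T(t)dt, T(t)x → 0 weakly for all x iff Vⁿx → 0 weakly for all x. -/
theorem result :
    ¬ (∀ (H : Type) [NormedAddCommGroup H] [InnerProductSpace ℂ H] [CompleteSpace H]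
      (T : ℝ → H →L[ℂ] H),
      T 0 = 1 →
      (∀ s t : ℝ, 0 ≤ s → 0 ≤ t → T (s + t) = T s * T t) →
      (∀ x : H, ContinuousOn (fun t : ℝ => T t x) (Set.Ici 0)) →
      (∀ t : ℝ, 0 ≤ t → ‖T t‖ ≤ 1) →
      ((∀ x y : H, Tendsto (fun t : ℝ => inner ℂ (T t x) y) atTop (𝓝 0)) ↔
        (∀ x y : H, Tendsto (fun n : ℕ =>
            inner ℂ ((fun z : H => z - (2 : ℂ) •
              ∫ t in Set.Ioi (0 : ℝ), ((Real.exp (-t) : ℝ) : ℂ) • T t z)^[n] x) y)
            atTop (𝓝 0)))) := by
  intro hall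
  obtain ⟨μ, hμ, f, hf1, hf2, hf3⟩ := exists_measure
  have h := hall (Lp ℂ 2 μ) (TT μ) (by rw [TT, E_zero, M_one])
    (fun s t _ _ => by rw [TT, TT, TT, E_add, M_mul])
    (fun x => by
      have h1 : Continuous fun t : ℝ => M μ (E t) := (M μ).continuous.comp E_continuous
      have h2 : Continuous fun t : ℝ => M μ (E t) x := h1.clm_apply continuous_const
      exact h2.continuousOn)
    (fun t _ => ContinuousLinearMap.opNorm_le_bound _ zero_le_one fun x => by
      rw [one_mul]; exact M_norm μ (fun y => (E_norm t y).le) x)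
  have hV : ∀ x y : Lp ℂ 2 μ, Tendsto (fun n : ℕ =>
      inner ℂ ((fun z : Lp ℂ 2 μ => z - (2 : ℂ) •
        ∫ t in Set.Ioi (0 : ℝ), ((Real.exp (-t) : ℝ) : ℂ) • TT μ t z)^[n] x) y) atTop (𝓝 0) := by
    intro x y
    simp only [cogen_iter]
    refine weak_stable μ phi (fun x => ?_) ?_ x y
    · change ‖- ph 1 0 x‖ = 1
      rw [norm_neg, norm_ph]
    · rw [tendsto_zero_iff_norm_tendsto_zero] at hf3 ⊢
      refine hf3.congr fun n => ?_
      simp only [phi_pow]
      rw [integral_const_mul, norm_mul, norm_pow, norm_neg, norm_one, one_pow, one_mul]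
  have hT := h.2 hV (vec μ 1) (vec μ 1)
  have h1 : Tendsto (fun k : ℕ => (f k : ℝ)) atTop atTop := by
    refine tendsto_natCast_atTop_atTop.comp (tendsto_atTop_mono (fun k => ?_) tendsto_id)
    exact (Nat.le_succ k).trans (hf1 k)
  have h2 := (hT.comp h1).norm
  rw [norm_zero] at h2
  have h3 : ∀ k, 2 / 9 ≤ ‖(inner ℂ (TT μ (f k) (vec μ 1)) (vec μ 1) : ℂ)‖ := by
    intro k
    have e : inner ℂ (TT μ (f k) (vec μ 1)) (vec μ 1) =
        (starRingEnd ℂ) (∫ x : unitInterval, ph 0 (f k) x ∂μ) := by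
      rw [TT, M_vec, inner_vec, ← integral_conj]
      congr 1
      funext x
      simp [E]
    rw [e, RCLike.norm_conj]
    exact hf2 k
  have h4 := ge_of_tendsto h2 (Eventually.of_forall h3)
  norm_num at h4

end Pool.Agent.S05816
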