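import Pool.Statements.S05947
import Pool.Agent.X125.Ov.Main

set_option autoImplicit false
open MeasureTheory Matrix
open Pool Pool.MP_bc76ba_an

namespace Pool.Agent.S05947

/-- For an expanding integer matrix R and finite digit set B in Z^d, if the equal-weight self-affine measure is spectral, then the pieces R^{-1}(T+b) of its attractor T pairwise meet in a set of measure zero. -/
theorem result :
  ∀ (d : ℕ) (R : Matrix (Fin d) (Fin d) ℤ) (B : Finset (Fin d → ℤ))
    (φ : (Fin d → ℤ) → (Fin d → ℝ) → (Fin d → ℝ))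
    (μ : MeasureTheory.Measure (Fin d → ℝ)),
    (∀ z : ℂ, (R.map (Int.castRingHom ℂ)).charpoly.IsRoot z → 1 < ‖z‖) →
    (∀ b x, φ b x = (R.map (Int.castRingHom ℝ))⁻¹ *ᵥ (x + fun i => (b i : ℝ))) →
    MeasureTheory.IsProbabilityMeasure μ →
    μ = ∑ b ∈ B, ((B.card : ENNReal)⁻¹) • μ.map (φ b) →
    (∃ (Λ : Set (Fin d → ℝ)) (e : Λ → MeasureTheory.Lp ℂ 2 μ),
      (∀ l : Λ, (e l : (Fin d → ℝ) → ℂ) =ᵐ[μ]
        fun x => Complex.exp (2 * Real.pi * Complex.I
          * ((∑ i, (l : Fin d → ℝ) i * x i : ℝ) : ℂ))) ∧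
      Orthonormal ℂ e ∧
      (Submodule.span ℂ (Set.range e)).topologicalClosure = ⊤) →
    ∀ T : Set (Fin d → ℝ), IsCompact T → T.Nonempty → T = ⋃ b ∈ B, φ b '' T →
    ∀ b ∈ B, ∀ b' ∈ B, b ≠ b' → μ (φ b '' T ∩ φ b' '' T) = 0 := by
  intro d R B φ μ hR hφ hprob hμ hspec T hT _ hTU b1 hb1 b2 hb2 hne
  obtain ⟨Λ, e, he, ho, hspan⟩ := hspec
  have hs := Pool.Agent.X125.Ov.specLike_of_basis μ Λ e he ho hspan
  have hne' : Nonempty {b // b ∈ B} := ⟨⟨b1, hb1⟩⟩
  have hdet : R.det ≠ 0 := by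
    intro h0
    have h1 := hR 0 (by
      rw [Polynomial.IsRoot.def, Matrix.eval_charpoly]
      have h2 : (Matrix.scalar (Fin d)) (0 : ℂ) - R.map (Int.castRingHom ℂ)
          = - R.map (Int.castRingHom ℂ) := by simp
      rw [h2, Matrix.det_neg, ← RingHom.mapMatrix_apply, ← RingHom.map_det, h0]
      simp)
    rw [norm_zero] at h1
    linarith
  have hdetR : IsUnit (R.map (Int.castRingHom ℝ)).det := by
    rw [← RingHom.mapMatrix_apply, ← RingHom.map_det]
    simpa using hdet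
  have hRφ : ∀ b x, Pool.Agent.X125.Ov.RM R (φ b x) = x + Pool.Agent.X125.Ov.zr b := by
    intro b x
    rw [hφ]
    unfold Pool.Agent.X125.Ov.RM
    rw [Matrix.mulVec_mulVec, Matrix.mul_nonsing_inv _ hdetR, Matrix.one_mulVec]
    rfl
  have hφm : ∀ b, Measurable (φ b) := by
    intro b
    have : φ b = fun x => (R.map (Int.castRingHom ℝ))⁻¹ *ᵥ (x + fun i => (b i : ℝ)) :=
      funext (hφ b)
    rw [this]
    apply Continuous.measurable
    exact Continuous.matrix_mulVec continuous_const (by fun_prop)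
  have hφR : ∀ b y, φ b (Pool.Agent.X125.Ov.RM R y - Pool.Agent.X125.Ov.zr b) = y := by
    intro b y
    rw [hφ]
    have e1 : (Pool.Agent.X125.Ov.RM R y - Pool.Agent.X125.Ov.zr b) + (fun i => (b i : ℝ))
        = Pool.Agent.X125.Ov.RM R y := by
      funext i
      simp [Pool.Agent.X125.Ov.zr]
    rw [e1]
    unfold Pool.Agent.X125.Ov.RM
    rw [Matrix.mulVec_mulVec, Matrix.nonsing_inv_mul _ hdetR, Matrix.one_mulVec]
  have hμR : μ.map (Pool.Agent.X125.Ov.RM R) = (B.card : ENNReal)⁻¹ •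
      ∑ b ∈ B, μ.map (fun x => x + Pool.Agent.X125.Ov.zr b) := by
    conv_lhs => rw [hμ]
    ext A hA
    rw [Measure.map_apply (Pool.Agent.X125.Ov.RM_meas R) hA, Measure.finsetSum_apply,
      Measure.smul_apply, Measure.finsetSum_apply, smul_eq_mul, Finset.mul_sum]
    apply Finset.sum_congr rfl
    intro b _
    rw [Measure.smul_apply, smul_eq_mul, Measure.map_apply (hφm b)
      ((Pool.Agent.X125.Ov.RM_meas R) hA), Measure.map_apply (Pool.Agent.X125.Ov.sh_meas _) hA]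
    congr 2
    ext x
    simp only [Set.mem_preimage, hRφ]
  have hTB : ∀ y, y ∈ T ↔ ∃ b ∈ B, Pool.Agent.X125.Ov.RM R y - Pool.Agent.X125.Ov.zr b ∈ T := by
    intro y
    constructor
    · intro hy
      rw [hTU] at hy
      simp only [Set.mem_iUnion, Set.mem_image] at hy
      obtain ⟨b, hb, x, hx, rfl⟩ := hy
      refine ⟨b, hb, ?_⟩
      rw [hRφ]
      simpa using hx
    · rintro ⟨b, hb, hy⟩
      rw [hTU]
      simp only [Set.mem_iUnion, Set.mem_image]
      exact ⟨b, hb, _, hy, hφR b y⟩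
  have hmain := Pool.Agent.X125.Ov.no_overlap R B μ hμR hdet hs T hT hTB b1 b2 hb1 hb2 hne
  apply measure_mono_null _ hmain
  rintro y ⟨⟨x, hx, hxy⟩, ⟨x', hx', hxy'⟩⟩
  constructor
  · rw [← hxy, hRφ]; simpa using hx
  · rw [← hxy', hRφ]; simpa using hx'

end Pool.Agent.S05947
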