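import Pool.Statements.S06025
import Pool.Agent.H780R2.CX.Main

set_option autoImplicit false
open MeasureTheory ENNReal
open Pool Pool.MP_c1e612_an

namespace Pool.Agent.S06025

theorem result :
    ∃ (X : Type) (hX : NormedAddCommGroup X) (hXs : NormedSpace ℝ X) (hXc : CompleteSpace X)
      (Y : Type) (hY : NormedAddCommGroup Y) (hYs : NormedSpace ℝ Y) (hYc : CompleteSpace Y)
      (S : X →L[ℝ] Y) (F : Set X) (C : ℝ),
      F.Nonempty ∧ Convex ℝ F ∧ 0 < C ∧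
      (∀ n : ℕ, 0 < n →
        0 < (⨅ (L : Fin n → (X →L[ℝ] ℝ)) (φ : (Fin n → ℝ) → Y),
              ⨆ f ∈ F, ‖S f - φ (fun i => L i f)‖ₑ) ∧
        (⨅ (L : Fin n → (X →L[ℝ] ℝ)) (φ : (Fin n → ℝ) → Y),
              ⨆ f ∈ F, ‖S f - φ (fun i => L i f)‖ₑ) < ⊤) ∧
      (∀ n : ℕ, 0 < n →
        (⨅ (Ω : Type) (mΩ : MeasurableSpace Ω) (P : Measure Ω)
            (_ : IsProbabilityMeasure P)
            (L : Ω → Fin (2 * n) → (X →L[ℝ] ℝ)) (φ : Ω → (Fin (2 * n) → ℝ) → Y)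
            (_ : ∀ f ∈ F, Measurable (fun ω => ‖S f - φ ω (fun i => L ω i f)‖)),
            ⨆ f ∈ F, ∫⁻ ω, ‖S f - φ ω (fun i => L ω i f)‖ₑ ∂P)
          ≤ ENNReal.ofReal (C / (n : ℝ)) *
            (⨅ (L : Fin n → (X →L[ℝ] ℝ)) (φ : (Fin n → ℝ) → Y),
              ⨆ f ∈ F, ‖S f - φ (fun i => L i f)‖ₑ)) := by
  obtain ⟨X, Y, hX, hXs, hXc, hY, hYs, hYc, S, F, hne, hconv, _, hdet, hran⟩ :=
    Pool.Agent.H780R2.CX.trivial_example
  refine ⟨X, hX, hXs, hXc, Y, hY, hYs, hYc, S, F, 1, hne, hconv, one_pos, ?_, ?_⟩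
  · intro n _
    have h := hdet n
    unfold Pool.Agent.H780R2.CX.detErr at h
    rw [h]
    exact ⟨ENNReal.ofReal_pos.2 (by positivity), ENNReal.ofReal_lt_top⟩
  · intro n hn
    refine le_trans ?_ (hran n hn)
    unfold Pool.Agent.H780R2.CX.ranErr
    refine le_iInf (fun A => ?_)
    refine iInf_le_of_le A.Ω (iInf_le_of_le A.mΩ (iInf_le_of_le A.P (iInf_le_of_le A.prob
      (iInf_le_of_le A.L (iInf_le_of_le A.φ (iInf_le_of_le ?_ le_rfl))))))
    intro f hf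
    letI := A.mΩ
    have h1 := A.meas
    have h2 : @Measurable A.Ω (A.Ω × F) A.mΩ (@Prod.instMeasurableSpace A.Ω F A.mΩ (borel F))
        (fun ω => (ω, (⟨f, hf⟩ : F))) := by
      letI : MeasurableSpace F := borel F
      exact measurable_id.prodMk measurable_const
    have h3 := h1.comp h2
    rw [← BorelSpace.measurable_eq (α := ℝ)] at h3
    exact h3

end Pool.Agent.S06025
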