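import Pool.Statements.S06166
import Pool.Agent.X221.AP.Fin

set_option autoImplicit false
open Pool Pool.MP_cc6c48_an

namespace Pool.Agent.S06166

/-- The negation of the preceding statement: For every Apollonian packing P and every Möbius group preserving P whose limit set is the closure of P, the orbit of any circle separating the limit set is either closed or dense in the space of circles meeting the limit set. -/
theorem result :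
    ¬ (∀ (P : Set (Set (OnePoint ℂ))),
  (∃ C₁ C₂ C₃ C₄ : Set (OnePoint ℂ),
    (∃ g : Matrix.GeneralLinearGroup (Fin 2) ℂ, C₁ = (fun w : OnePoint ℂ => g • w) '' (insert (OnePoint.infty : OnePoint ℂ) (Set.range (fun x : ℝ => OnePoint.some (x : ℂ))))) ∧
    (∃ g : Matrix.GeneralLinearGroup (Fin 2) ℂ, C₂ = (fun w : OnePoint ℂ => g • w) '' (insert (OnePoint.infty : OnePoint ℂ) (Set.range (fun x : ℝ => OnePoint.some (x : ℂ))))) ∧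
    (∃ g : Matrix.GeneralLinearGroup (Fin 2) ℂ, C₃ = (fun w : OnePoint ℂ => g • w) '' (insert (OnePoint.infty : OnePoint ℂ) (Set.range (fun x : ℝ => OnePoint.some (x : ℂ))))) ∧
    (∃ g : Matrix.GeneralLinearGroup (Fin 2) ℂ, C₄ = (fun w : OnePoint ℂ => g • w) '' (insert (OnePoint.infty : OnePoint ℂ) (Set.range (fun x : ℝ => OnePoint.some (x : ℂ))))) ∧
    (∃! p, p ∈ C₁ ∩ C₂) ∧ (∃! p, p ∈ C₁ ∩ C₃) ∧ (∃! p, p ∈ C₁ ∩ C₄) ∧
    (∃! p, p ∈ C₂ ∩ C₃) ∧ (∃! p, p ∈ C₂ ∩ C₄) ∧ (∃! p, p ∈ C₃ ∩ C₄) ∧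
    C₁ ∩ C₂ ∩ C₃ = ∅ ∧ C₁ ∩ C₂ ∩ C₄ = ∅ ∧ C₁ ∩ C₃ ∩ C₄ = ∅ ∧ C₂ ∩ C₃ ∩ C₄ = ∅ ∧
    P = ⋂₀ {F : Set (Set (OnePoint ℂ)) | C₁ ∈ F ∧ C₂ ∈ F ∧ C₃ ∈ F ∧ C₄ ∈ F ∧
      ∀ S ∈ F, ∀ T ∈ F, ∀ U ∈ F, ∀ V : Set (OnePoint ℂ),
        (∃ g : Matrix.GeneralLinearGroup (Fin 2) ℂ, V = (fun w : OnePoint ℂ => g • w) '' (insert (OnePoint.infty : OnePoint ℂ) (Set.range (fun x : ℝ => OnePoint.some (x : ℂ))))) →
        (∃! p, p ∈ S ∩ T) → (∃! p, p ∈ T ∩ U) → (∃! p, p ∈ S ∩ U) → S ∩ T ∩ U = ∅ →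
        (∃! p, p ∈ V ∩ S) → (∃! p, p ∈ V ∩ T) → (∃! p, p ∈ V ∩ U) → V ∈ F}) →
  ∀ Γ : Subgroup (Matrix.GeneralLinearGroup (Fin 2) ℂ),
  (∀ g ∈ Γ, ∀ S : Set (OnePoint ℂ), S ∈ P ↔ (fun w : OnePoint ℂ => g • w) '' S ∈ P) →
  (∀ z : OnePoint ℂ, derivedSet {w : OnePoint ℂ | ∃ g ∈ Γ, w = g • z} = closure (⋃₀ P)) →
  ∀ C : Set (OnePoint ℂ),
  (∃ g : Matrix.GeneralLinearGroup (Fin 2) ℂ,
    C = (fun w : OnePoint ℂ => g • w) '' (insert (OnePoint.infty : OnePoint ℂ) (Set.range (fun x : ℝ => OnePoint.some (x : ℂ)))) ∧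
    ((fun w : OnePoint ℂ => g • w) '' (OnePoint.some '' {z : ℂ | 0 < z.im}) ∩ closure (⋃₀ P)).Nonempty ∧
    ((fun w : OnePoint ℂ => g • w) '' (OnePoint.some '' {z : ℂ | z.im < 0}) ∩ closure (⋃₀ P)).Nonempty) →
  (IsClosed {h : Matrix.GeneralLinearGroup (Fin 2) ℂ | ∃ γ ∈ Γ,
      (fun w : OnePoint ℂ => h • w) '' (insert (OnePoint.infty : OnePoint ℂ) (Set.range (fun x : ℝ => OnePoint.some (x : ℂ)))) = (fun w : OnePoint ℂ => γ • w) '' C} ∨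
   ∀ h : Matrix.GeneralLinearGroup (Fin 2) ℂ,
     ((fun w : OnePoint ℂ => h • w) '' (insert (OnePoint.infty : OnePoint ℂ) (Set.range (fun x : ℝ => OnePoint.some (x : ℂ)))) ∩ closure (⋃₀ P)).Nonempty →
     h ∈ closure {h' : Matrix.GeneralLinearGroup (Fin 2) ℂ | ∃ γ ∈ Γ,
       (fun w : OnePoint ℂ => h' • w) '' (insert (OnePoint.infty : OnePoint ℂ) (Set.range (fun x : ℝ => OnePoint.some (x : ℂ)))) = (fun w : OnePoint ℂ => γ • w) '' C})) := by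
  intro h
  have e01 : Pool.Agent.X221.AP.Tg (Pool.Agent.X221.AP.Cc 0) (Pool.Agent.X221.AP.Cc 1) := by
    have := Pool.Agent.X221.AP.tg_C_C 0
    rwa [zero_add] at this
  have i1 : Pool.Agent.X221.AP.R0 ∩ Pool.Agent.X221.AP.Cc 0 ∩ Pool.Agent.X221.AP.Cc 1 = ∅ := by
    have := Pool.Agent.X221.AP.int_RCC 0
    rwa [zero_add] at this
  have i2 : Pool.Agent.X221.AP.Ln 1 ∩ Pool.Agent.X221.AP.Cc 0 ∩ Pool.Agent.X221.AP.Cc 1 = ∅ := by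
    have := Pool.Agent.X221.AP.int_LCC 0
    rwa [zero_add] at this
  have c3 : Pool.Agent.X221.AP.IsC (Pool.Agent.X221.AP.Cc 0) := by
    have := Pool.Agent.X221.AP.F0.isC (Pool.Agent.X221.AP.Cc_F0 0)
    simpa using this
  have c4 : Pool.Agent.X221.AP.IsC (Pool.Agent.X221.AP.Cc 1) := by
    have := Pool.Agent.X221.AP.F0.isC (Pool.Agent.X221.AP.Cc_F0 1)
    simpa using this
  have key := h Pool.Agent.X221.AP.P
    ⟨Pool.Agent.X221.AP.R0, Pool.Agent.X221.AP.Ln 1, Pool.Agent.X221.AP.Cc 0,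
      Pool.Agent.X221.AP.Cc 1, Pool.Agent.X221.AP.F0.isC Pool.Agent.X221.AP.R0_F0,
      Pool.Agent.X221.AP.F0.isC Pool.Agent.X221.AP.L_F0, c3, c4,
      Pool.Agent.X221.AP.tg_R_L, Pool.Agent.X221.AP.tg_R_C 0, Pool.Agent.X221.AP.tg_R_C 1,
      Pool.Agent.X221.AP.tg_L_C 0, Pool.Agent.X221.AP.tg_L_C 1, e01,
      Pool.Agent.X221.AP.int_RLC 0, Pool.Agent.X221.AP.int_RLC 1, i1, i2, rfl⟩
    Pool.Agent.X221.AP.Gam
    (fun g hg S => (Pool.Agent.X221.AP.Gam_le hg).1 S)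
    Pool.Agent.X221.AP.limit_set
    Pool.Agent.X221.AP.CC
    ⟨Pool.Agent.X221.AP.hc Pool.Agent.X221.AP.c0,
      (Pool.Agent.X221.AP.im_hc Pool.Agent.X221.AP.c0).symm,
      Pool.Agent.X221.AP.up_half, Pool.Agent.X221.AP.low_half⟩
  rcases key with hcl | hde
  · exact Pool.Agent.X221.AP.not_closed hcl
  · refine Pool.Agent.X221.AP.not_dense (hde 1 ?_)
    refine ⟨OnePoint.infty, ?_, Pool.Agent.X221.AP.R0_LP Pool.Agent.X221.AP.infty_R0⟩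
    exact ⟨OnePoint.infty, Or.inl rfl, one_smul _ _⟩

end Pool.Agent.S06166
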