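import Pool.Statements.S06280

set_option autoImplicit false
open Pool Pool.MP_d4c9a2_an

namespace Pool.Agent.S06280

open Filter Topology

/-! ### The row sums of the powers of the exponent matrix -/

/-- row sums of the powers of `[[1,0,2],[2,2,0],[1,2,2]]` -/
def W : ℕ → ℕ × ℕ × ℕ
  | 0 => (1, 1, 1)
  | k + 1 => ((W k).1 + 2 * (W k).2.2, 2 * (W k).1 + 2 * (W k).2.1,
      (W k).1 + 2 * (W k).2.1 + 2 * (W k).2.2)

lemma W_pos (k : ℕ) : 0 < (W k).1 ∧ 0 < (W k).2.1 ∧ 0 < (W k).2.2 := by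
  induction k with
  | zero => simp [W]
  | succ k ih =>
    simp only [W]
    omega

lemma W_odd (k : ℕ) : (W k).1 % 2 = 1 := by
  induction k with
  | zero => simp [W]
  | succ k ih =>
    simp only [W]
    omega

lemma W_even (k : ℕ) : (W (k + 1)).2.1 % 2 = 0 := by
  simp only [W]
  omega

lemma W_le (k : ℕ) : (W k).1 ≤ (W k).2.2 := by
  induction k with
  | zero => simp [W]
  | succ k ih =>
    simp only [W]
    omega

/-- the order of the iterates -/
def s (k : ℕ) : ℕ := min (W k).1 (W k).2.1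

/-- the difference of the first two row sums -/
def dd (k : ℕ) : ℤ := ((W k).1 : ℤ) - (W k).2.1

lemma dd_rec (k : ℕ) : dd (k + 2) = dd (k + 1) - 2 * dd k := by
  simp only [dd, W]
  push_cast
  ring

lemma dd_odd (k : ℕ) : dd (k + 1) % 2 = 1 := by
  have h1 := W_odd (k + 1)
  have h2 := W_even k
  unfold dd
  omega

/-- the complex root of `μ² = μ - 2` -/
noncomputable def μ : ℂ := ⟨1 / 2, Real.sqrt 7 / 2⟩

lemma μ_sq : μ * μ = μ - 2 := by
  have h7 : Real.sqrt 7 * Real.sqrt 7 = 7 := Real.mul_self_sqrt (by norm_num)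
  apply Complex.ext
  · simp [μ]
    nlinarith
  · simp [μ]
    ring

lemma dd_eq (k : ℕ) : (dd k : ℝ) * (Real.sqrt 7 / 2) = -(μ ^ k).im ∧
    (dd (k + 1) : ℝ) * (Real.sqrt 7 / 2) = -(μ ^ (k + 1)).im := by
  induction k with
  | zero =>
    constructor
    · simp [dd, W]
    · simp [dd, W, μ]
  | succ k ih =>
    refine ⟨ih.2, ?_⟩
    have h1 : μ ^ (k + 1 + 1) = μ ^ (k + 1) - 2 * μ ^ k := by
      have : μ ^ (k + 1 + 1) = μ ^ k * (μ * μ) := by ring
      rw [this, μ_sq]
      ring
    rw [dd_rec, h1]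
    push_cast
    simp only [Complex.sub_im, Complex.mul_im]
    simp
    linarith [ih.1, ih.2]

lemma no_const_sign {E : ℕ → ℝ} {V Q : ℝ} (hrec : ∀ j, E (j + 2) = V * E (j + 1) - Q * E j)
    (hQ : V ^ 2 < 4 * Q) (hpos : ∀ j, 0 < E j) : False := by
  have hQ0 : 0 < Q := by nlinarith [sq_nonneg V]
  have hV : 0 < V := by
    have h0 := hrec 0
    have h1 := hpos 0
    have h2 := hpos 1
    have h3 := hpos 2
    simp only [zero_add] at h0
    by_contra hcon
    push Not at hcon
    have := mul_nonpos_of_nonpos_of_nonneg hcon h2.le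
    nlinarith [mul_pos hQ0 h1]
  set δ : ℝ := (Q - V ^ 2 / 4) / V with hδ
  have hδ0 : 0 < δ := div_pos (by linarith) hV
  have key : ∀ j : ℕ, E (j + 2) ≤ (V - j * δ) * E (j + 1) := by
    intro j
    induction j with
    | zero =>
      have h0 := hrec 0
      simp only [zero_add] at h0
      simp only [Nat.cast_zero, zero_mul, sub_zero, zero_add]
      nlinarith [mul_pos hQ0 (hpos 0)]
    | succ j ih =>
      have h1 := hpos (j + 1)
      have h2 := hpos (j + 2)
      have hr := hrec (j + 1)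
      -- x = E (j+2) / E (j+1) ≤ V - jδ, and E (j+3)/E (j+2) = V - Q/x ≤ x - δ
      have h4 : (j + 1 + 2 : ℕ) = j + 3 := by ring
      have h5 : (j + 1 + 1 : ℕ) = j + 2 := by ring
      rw [h5] at hr ⊢
      set x : ℝ := E (j + 2) / E (j + 1) with hx
      have hxe : E (j + 2) = x * E (j + 1) := by
        rw [hx]
        field_simp
      have hx0 : 0 < x := div_pos h2 h1
      have hxle : x ≤ V - j * δ := by
        rw [hx, div_le_iff₀ h1]
        exact ih
      have hxV : x ≤ V := by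
        have : 0 ≤ (j : ℝ) * δ := by positivity
        linarith
      have h6 : V * x - Q ≤ (x - δ) * x := by
        have h7 : δ * V = Q - V ^ 2 / 4 := by
          rw [hδ]
          field_simp
        have h8 : δ * x ≤ Q - V ^ 2 / 4 := by
          rw [← h7]
          exact mul_le_mul_of_nonneg_left hxV hδ0.le
        nlinarith [sq_nonneg (x - V / 2)]
      have h9 : E (j + 1 + 2) ≤ (x - δ) * E (j + 2) := by
        rw [hr, hxe]
        nlinarith [mul_le_mul_of_nonneg_right h6 h1.le]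
      refine h9.trans ?_
      push_cast
      refine mul_le_mul_of_nonneg_right ?_ h2.le
      linarith
  obtain ⟨j, hj⟩ := exists_nat_gt (V / δ)
  have h1 := key j
  rw [div_lt_iff₀ hδ0] at hj
  nlinarith [hpos (j + 2), hpos (j + 1)]

lemma no_const_sign' {E : ℕ → ℝ} {V Q : ℝ}
    (hrec : ∀ j, E (j + 2) = V * E (j + 1) - Q * E j)
    (hQ : V ^ 2 < 4 * Q) (hneg : ∀ j, E j < 0) : False := by
  refine no_const_sign (E := fun j => -E j) (V := V) (Q := Q) ?_ hQ ?_
  · intro j
    show -E (j + 2) = V * -E (j + 1) - Q * -E j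
    rw [hrec]
    ring
  · intro j
    have := hneg j
    linarith

/-- the sign of `dd` is not periodic -/
lemma not_periodic (N T : ℕ) (hN : 1 ≤ N) (hT : 0 < T)
    (h : ∀ j, N ≤ j → (dd (j + T) < 0 ↔ dd j < 0)) : False := by
  set ν : ℂ := μ ^ T with hν
  have hs7 : 0 < Real.sqrt 7 := Real.sqrt_pos.2 (by norm_num)
  have hνim : ν.im ≠ 0 := by
    intro h0
    have h1 := (dd_eq T).1
    rw [← hν, h0, neg_zero] at h1
    have h2 : (dd T : ℝ) = 0 := by
      rcases mul_eq_zero.1 h1 with h | h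
      · exact h
      · exfalso
        linarith
    have h3 : dd T = 0 := by exact_mod_cast h2
    obtain ⟨t, rfl⟩ : ∃ t, T = t + 1 := ⟨T - 1, by omega⟩
    have := dd_odd t
    omega
  set E : ℕ → ℝ := fun j => -((μ ^ N * ν ^ j).im) with hE
  have hEd : ∀ j, E j = (dd (N + j * T) : ℝ) * (Real.sqrt 7 / 2) := by
    intro j
    rw [(dd_eq (N + j * T)).1, hE]
    simp only
    rw [hν, ← pow_mul, ← pow_add, mul_comm T j]
  have hν2 : ν * ν = (2 * ν.re : ℝ) * ν - (Complex.normSq ν : ℝ) := by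
    apply Complex.ext
    · simp [Complex.normSq_apply]
      ring
    · simp
      ring
  have hrec : ∀ j, E (j + 2) = (2 * ν.re) * E (j + 1) - Complex.normSq ν * E j := by
    intro j
    have h1 : μ ^ N * ν ^ (j + 2) = ((2 * ν.re : ℝ) : ℂ) * (μ ^ N * ν ^ (j + 1)) -
        ((Complex.normSq ν : ℝ) : ℂ) * (μ ^ N * ν ^ j) := by
      have : μ ^ N * ν ^ (j + 2) = μ ^ N * ν ^ j * (ν * ν) := by ring
      rw [this, hν2]
      ring
    rw [hE]
    simp only
    rw [h1, Complex.sub_im, Complex.im_ofReal_mul, Complex.im_ofReal_mul]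
    ring
  have hQ : (2 * ν.re) ^ 2 < 4 * Complex.normSq ν := by
    rw [Complex.normSq_apply]
    have : 0 < ν.im * ν.im := mul_self_pos.2 hνim
    nlinarith
  have hsign : ∀ j, (dd (N + j * T) < 0 ↔ dd N < 0) := by
    intro j
    induction j with
    | zero => simp
    | succ j ih =>
      have : N + (j + 1) * T = (N + j * T) + T := by ring
      rw [this, h _ (Nat.le_add_right _ _), ih]
  have hne : ∀ j, dd (N + j * T) ≠ 0 := by
    intro j h0
    obtain ⟨t, ht⟩ : ∃ t, N + j * T = t + 1 := ⟨N + j * T - 1, by omega⟩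
    have := dd_odd t
    rw [← ht, h0] at this
    omega
  by_cases hN0 : dd N < 0
  · refine no_const_sign' hrec hQ fun j => ?_
    rw [hEd]
    have h1 : dd (N + j * T) < 0 := (hsign j).2 hN0
    have h2 : (dd (N + j * T) : ℝ) < 0 := by exact_mod_cast h1
    exact mul_neg_of_neg_of_pos h2 (by positivity)
  · refine no_const_sign hrec hQ fun j => ?_
    rw [hEd]
    have h1 : ¬ dd (N + j * T) < 0 := fun h => hN0 ((hsign j).1 h)
    have h3 : 0 < dd (N + j * T) := lt_of_le_of_ne (not_lt.1 h1) (hne j).symm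
    have h2 : (0 : ℝ) < (dd (N + j * T) : ℝ) := by exact_mod_cast h3
    positivity

lemma parity (k : ℕ) (hk : 1 ≤ k) : (s k % 2 = 1 ↔ dd k < 0) := by
  obtain ⟨t, rfl⟩ : ∃ t, k = t + 1 := ⟨k - 1, by omega⟩
  have h1 := W_odd (t + 1)
  have h2 := W_even t
  unfold s dd
  rcases le_total (W (t + 1)).1 (W (t + 1)).2.1 with h | h
  · rw [min_eq_left h]
    constructor
    · intro _
      omega
    · intro _
      exact h1
  · rw [min_eq_right h]
    constructor
    · intro h3
      omega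
    · intro h3
      omega

lemma not_rec (d : ℕ) (a : Fin d → ℤ) (K : ℕ)
    (h : ∀ k, K ≤ k → (s (k + d) : ℤ) = ∑ i : Fin d, a i * (s (k + (i : ℕ)) : ℤ)) : False := by
  rcases Nat.eq_zero_or_pos d with rfl | hd
  · have h1 := h K le_rfl
    simp only [Finset.univ_eq_empty, Finset.sum_empty] at h1
    obtain ⟨h2, h3, -⟩ := W_pos (K + 0)
    have : 0 < s (K + 0) := lt_min h2 h3
    omega
  · -- pigeonhole
    obtain ⟨i, j, hij, heq⟩ := Finite.exists_ne_map_eq_of_infinite
      (fun t : ℕ => fun i : Fin d => ((s (K + 1 + t + (i : ℕ)) : ℤ) : ZMod 2))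
    wlog hlt : i < j generalizing i j
    · exact this j i hij.symm heq.symm (lt_of_le_of_ne (not_lt.1 hlt) hij.symm)
    have key : ∀ t : ℕ, ((s (K + 1 + i + t) : ℤ) : ZMod 2) = ((s (K + 1 + j + t) : ℤ) : ZMod 2) := by
      intro t
      induction t using Nat.strong_induction_on with
      | _ t ih =>
        by_cases htd : t < d
        · have := congrFun heq ⟨t, htd⟩
          simpa using this
        · push Not at htd
          obtain ⟨r, rfl⟩ : ∃ r, t = r + d := ⟨t - d, by omega⟩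
          have e1 := h (K + 1 + i + r) (by omega)
          have e2 := h (K + 1 + j + r) (by omega)
          rw [← add_assoc, ← add_assoc, e1, e2]
          push_cast
          refine Finset.sum_congr rfl fun l _ => ?_
          have := ih (r + (l : ℕ)) (by have := l.2; omega)
          rw [← add_assoc, ← add_assoc] at this
          push_cast at this
          rw [this]
    refine not_periodic (K + 1 + i) (j - i) (by omega) (by omega) ?_
    intro m hm
    obtain ⟨t, rfl⟩ : ∃ t, m = K + 1 + i + t := ⟨m - (K + 1 + i), by omega⟩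
    have h1 := key t
    have h2 : K + 1 + i + t + (j - i) = K + 1 + j + t := by omega
    rw [h2, ← parity _ (by omega), ← parity _ (by omega)]
    have h3 : ((s (K + 1 + i + t) : ℕ) : ZMod 2) = ((s (K + 1 + j + t) : ℕ) : ZMod 2) := by
      exact_mod_cast h1
    rw [ZMod.natCast_eq_natCast_iff'] at h3
    omega

/-! ### The monomial germ -/

/-- the germ `(z₁ z₃², z₁² z₂², z₁ z₂² z₃²)` -/
def f (z : Fin 3 → ℂ) : Fin 3 → ℂ :=
  ![z 0 * z 2 ^ 2, z 0 ^ 2 * z 1 ^ 2, z 0 * z 1 ^ 2 * z 2 ^ 2]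

/-- monomials of a given degree, as functions -/
def IsMono (w : ℕ) (h : (Fin 3 → ℂ) → ℂ) : Prop :=
  ∃ l : List (Fin 3), l.length = w ∧ h = fun z => (l.map z).prod

lemma IsMono.mul {w w' : ℕ} {h h' : (Fin 3 → ℂ) → ℂ} (h1 : IsMono w h) (h2 : IsMono w' h') :
    IsMono (w + w') (fun z => h z * h' z) := by
  obtain ⟨l, rfl, rfl⟩ := h1
  obtain ⟨l', rfl, rfl⟩ := h2
  exact ⟨l ++ l', by simp, by simp⟩

lemma IsMono.sq {w : ℕ} {h : (Fin 3 → ℂ) → ℂ} (h1 : IsMono w h) :
    IsMono (2 * w) (fun z => h z ^ 2) := by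
  have := h1.mul h1
  rw [two_mul]
  simpa only [pow_two] using this

lemma mono_contDiff (l : List (Fin 3)) : ContDiff ℂ (⊤ : ℕ∞) (fun z : Fin 3 → ℂ => (l.map z).prod) := by
  induction l with
  | nil => simpa using contDiff_const
  | cons a l ih =>
    simp only [List.map_cons, List.prod_cons]
    exact (contDiff_apply ℂ ℂ a).mul ih

lemma mono_van (l : List (Fin 3)) : ∀ m : ℕ, m < l.length →
    iteratedFDeriv ℂ m (fun z : Fin 3 → ℂ => (l.map z).prod) 0 = 0 := by
  induction l with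
  | nil =>
    intro m hm
    simp at hm
  | cons a l ih =>
    intro m hm
    simp only [List.length_cons] at hm
    simp only [List.map_cons, List.prod_cons]
    have hle := norm_iteratedFDeriv_mul_le (𝕜 := ℂ) (A := ℂ) (f := fun z : Fin 3 → ℂ => z a)
      (g := fun z : Fin 3 → ℂ => (l.map z).prod) (contDiff_apply ℂ ℂ a) (mono_contDiff l) 0
      (n := m) (by exact_mod_cast le_top)
    have hz : ∑ i ∈ Finset.range (m + 1), (m.choose i : ℝ) *
        ‖iteratedFDeriv ℂ i (fun z : Fin 3 → ℂ => z a) 0‖ *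
        ‖iteratedFDeriv ℂ (m - i) (fun z : Fin 3 → ℂ => (l.map z).prod) 0‖ = 0 := by
      refine Finset.sum_eq_zero fun i hi => ?_
      rcases Nat.eq_zero_or_pos i with rfl | hi0
      · have : ‖iteratedFDeriv ℂ 0 (fun z : Fin 3 → ℂ => z a) 0‖ = 0 := by
          rw [norm_iteratedFDeriv_zero]
          simp
        rw [this]
        simp
      · have := Finset.mem_range.1 hi
        rw [ih (m - i) (by omega)]
        simp
    rw [hz] at hle
    exact norm_le_zero_iff.1 hle

lemma iter_mono (k : ℕ) : IsMono (W k).1 (fun z => (f^[k] z) 0) ∧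
    IsMono (W k).2.1 (fun z => (f^[k] z) 1) ∧ IsMono (W k).2.2 (fun z => (f^[k] z) 2) := by
  induction k with
  | zero =>
    refine ⟨⟨[0], by simp [W], by simp⟩, ⟨[1], by simp [W], by simp⟩, ⟨[2], by simp [W], by simp⟩⟩
  | succ k ih =>
    obtain ⟨h0, h1, h2⟩ := ih
    simp only [Function.iterate_succ', Function.comp_apply]
    refine ⟨?_, ?_, ?_⟩
    · exact h0.mul h2.sq
    · exact h0.sq.mul h1.sq
    · exact (h0.mul h1.sq).mul h2.sq

lemma iter_diag (k : ℕ) (t : ℂ) : f^[k] (fun _ => t) =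
    ![t ^ (W k).1, t ^ (W k).2.1, t ^ (W k).2.2] := by
  induction k with
  | zero =>
    funext i
    fin_cases i <;> simp [W]
  | succ k ih =>
    rw [Function.iterate_succ_apply', ih]
    funext i
    fin_cases i
    · simp [f, W]
      ring
    · simp [f, W]
      ring
    · simp [f, W]
      ring

lemma f_contDiff : ContDiff ℂ (⊤ : ℕ∞) f := by
  rw [contDiff_pi]
  have hp : ∀ j : Fin 3, ContDiff ℂ (⊤ : ℕ∞) (fun z : Fin 3 → ℂ => z j) := fun j =>
    contDiff_apply ℂ ℂ j
  intro i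
  fin_cases i
  · simp only [f]
    simpa using (hp 0).mul ((hp 2).pow 2)
  · simp only [f]
    simpa using ((hp 0).pow 2).mul ((hp 1).pow 2)
  · simp only [f]
    simpa using ((hp 0).mul ((hp 1).pow 2)).mul ((hp 2).pow 2)

lemma iter_contDiff (k : ℕ) : ContDiff ℂ (⊤ : ℕ∞) (f^[k]) := by
  induction k with
  | zero => exact contDiff_id
  | succ k ih =>
    rw [Function.iterate_succ']
    exact f_contDiff.comp ih

lemma order_eq (k : ℕ) : sInf {m : ℕ | iteratedFDeriv ℂ m (f^[k]) 0 ≠ 0} = s k := by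
  have hcd : ContDiff ℂ (⊤ : ℕ∞) (f^[k]) := iter_contDiff k
  have hlow : ∀ m : ℕ, m < s k → iteratedFDeriv ℂ m (f^[k]) 0 = 0 := by
    intro m hm
    have hm0 : m < (W k).1 := lt_of_lt_of_le hm (min_le_left _ _)
    have hm1 : m < (W k).2.1 := lt_of_lt_of_le hm (min_le_right _ _)
    have hm2 : m < (W k).2.2 := lt_of_lt_of_le hm0 (W_le k)
    obtain ⟨⟨l0, hl0, he0⟩, ⟨l1, hl1, he1⟩, ⟨l2, hl2, he2⟩⟩ := iter_mono k
    have hcomp : ∀ i : Fin 3, iteratedFDeriv ℂ m (fun z => (f^[k] z) i) 0 = 0 := by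
      intro i
      fin_cases i
      · show iteratedFDeriv ℂ m (fun z => (f^[k] z) 0) 0 = 0
        rw [he0]
        exact mono_van l0 m (by omega)
      · show iteratedFDeriv ℂ m (fun z => (f^[k] z) 1) 0 = 0
        rw [he1]
        exact mono_van l1 m (by omega)
      · show iteratedFDeriv ℂ m (fun z => (f^[k] z) 2) 0 = 0
        rw [he2]
        exact mono_van l2 m (by omega)
    ext v i
    have h1 := (ContinuousLinearMap.proj (R := ℂ) (φ := fun _ : Fin 3 => ℂ) i).iteratedFDeriv_comp_left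
      (hcd.contDiffAt (x := 0)) (i := m) (by exact_mod_cast le_top)
    have h2 : (⇑(ContinuousLinearMap.proj (R := ℂ) (φ := fun _ : Fin 3 => ℂ) i) ∘ f^[k]) =
        fun z => (f^[k] z) i := rfl
    rw [h2, hcomp i] at h1
    have h3 := congrArg (fun M => M v) h1
    simpa using h3.symm
  have hup : ∃ m, m ≤ s k ∧ iteratedFDeriv ℂ m (f^[k]) 0 ≠ 0 := by
    refine ⟨s k, le_rfl, ?_⟩
    intro hzero
    -- restrict to the diagonal
    set L : ℂ →L[ℂ] (Fin 3 → ℂ) := ContinuousLinearMap.pi (fun _ => ContinuousLinearMap.id ℂ ℂ)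
      with hL
    have hLt : ∀ t : ℂ, L t = fun _ => t := by
      intro t
      rfl
    have h1 : iteratedFDeriv ℂ (s k) (f^[k] ∘ L) 0 = 0 := by
      have := L.iteratedFDeriv_comp_right hcd 0 (i := s k) (by exact_mod_cast le_top)
      rw [map_zero, hzero] at this
      rw [this]
      ext v
      simp
    -- pick the coordinate realising the minimum
    have hcoord : ∃ i : Fin 3, (fun t : ℂ => (f^[k] (L t)) i) = fun t => t ^ (s k) := by
      rcases le_total (W k).1 (W k).2.1 with h | h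
      · refine ⟨0, ?_⟩
        funext t
        rw [hLt, iter_diag]
        simp [s, min_eq_left h]
      · refine ⟨1, ?_⟩
        funext t
        rw [hLt, iter_diag]
        simp [s, min_eq_right h]
    obtain ⟨i, hi⟩ := hcoord
    have hcd2 : ContDiff ℂ (⊤ : ℕ∞) (f^[k] ∘ L) := hcd.comp L.contDiff
    have h2 := (ContinuousLinearMap.proj (R := ℂ) (φ := fun _ : Fin 3 => ℂ) i).iteratedFDeriv_comp_left
      (hcd2.contDiffAt (x := 0)) (i := s k) (by exact_mod_cast le_top)
    have h3 : (⇑(ContinuousLinearMap.proj (R := ℂ) (φ := fun _ : Fin 3 => ℂ) i) ∘ (f^[k] ∘ L)) =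
        fun t => t ^ (s k) := by
      rw [← hi]
      rfl
    rw [h3, h1] at h2
    have h4 := congrArg (fun M => M (fun _ => 1)) h2
    rw [iteratedFDeriv_apply_eq_iteratedDeriv_mul_prod] at h4
    rw [iteratedDeriv_eq_iterate, iter_deriv_pow] at h4
    simp at h4
    have h5 : ∏ i ∈ Finset.range (s k), ((s k : ℂ) - (i : ℂ)) ≠ 0 := by
      rw [Finset.prod_ne_zero_iff]
      intro i hi h0
      have h6 : ((s k : ℕ) : ℂ) = ((i : ℕ) : ℂ) := sub_eq_zero.1 h0
      have h7 : s k = i := by exact_mod_cast h6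
      have := Finset.mem_range.1 hi
      omega
    exact h5 h4
  obtain ⟨m, hm, hne⟩ := hup
  have hms : m = s k := by
    by_contra hcon
    exact hne (hlow m (lt_of_le_of_ne hm hcon))
  rw [hms] at hne
  refine le_antisymm (Nat.sInf_le hne) ?_
  refine le_csInf ⟨s k, hne⟩ ?_
  intro b hb
  by_contra hcon
  push Not at hcon
  exact hb (hlow b hcon)

lemma f_zero : f 0 = 0 := by
  funext i
  fin_cases i <;> simp [f]

lemma f_fderiv_zero : fderiv ℂ f 0 = 0 := by
  have h1 := order_eq 1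
  have h2 : (1 : ℕ) < s 1 := by
    simp [s, W]
  have h3 : iteratedFDeriv ℂ 1 (f^[1]) 0 = 0 := by
    by_contra hcon
    have := Nat.sInf_le (s := {m : ℕ | iteratedFDeriv ℂ m (f^[1]) 0 ≠ 0}) hcon
    omega
  rw [Function.iterate_one] at h3
  have h4 : ‖iteratedFDeriv ℂ 1 f 0‖ = 0 := by rw [h3, norm_zero]
  rw [norm_iteratedFDeriv_one] at h4
  exact norm_eq_zero.1 h4

lemma f_dominant (ε : ℝ) (hε : 0 < ε) :
    ∃ z : Fin 3 → ℂ, ‖z‖ < ε ∧ (fderiv ℂ f z).det ≠ 0 := by
  set t : ℝ := ε / 2 with ht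
  have ht0 : 0 < t := by positivity
  have htC : (t : ℂ) ≠ 0 := by exact_mod_cast ht0.ne'
  refine ⟨fun _ => (t : ℂ), ?_, ?_⟩
  · refine (pi_norm_lt_iff hε).2 fun i => ?_
    rw [Complex.norm_real, Real.norm_of_nonneg ht0.le]
    linarith
  · -- the Jacobian matrix at `(t, t, t)`
    set z : Fin 3 → ℂ := fun _ => (t : ℂ) with hz
    have hder : HasFDerivAt f (Matrix.toLin' (!![(t : ℂ) ^ 2, 0, 2 * t ^ 2;
        2 * t ^ 3, 2 * t ^ 3, 0; (t : ℂ) ^ 4, 2 * t ^ 4, 2 * t ^ 4])).toContinuousLinearMap z := by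
      rw [hasFDerivAt_pi']
      have hp : ∀ j : Fin 3, HasFDerivAt (fun z : Fin 3 → ℂ => z j)
          (ContinuousLinearMap.proj (R := ℂ) (φ := fun _ : Fin 3 => ℂ) j) z := fun j =>
        hasFDerivAt_apply j z
      intro i
      fin_cases i
      · have h := (hp 0).mul ((hp 2).pow 2)
        refine h.congr_fderiv ?_
        ext v
        simp [hz, Matrix.toLin'_apply, dotProduct, Fin.sum_univ_three]
        ring
      · have h := ((hp 0).pow 2).mul ((hp 1).pow 2)
        refine h.congr_fderiv ?_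
        ext v
        simp [hz, Matrix.toLin'_apply, dotProduct, Fin.sum_univ_three]
        ring
      · have h := ((hp 0).mul ((hp 1).pow 2)).mul ((hp 2).pow 2)
        refine h.congr_fderiv ?_
        ext v
        simp [hz, Matrix.toLin'_apply, dotProduct, Fin.sum_univ_three]
        ring
    rw [hder.fderiv]
    rw [ContinuousLinearMap.det]
    rw [LinearMap.coe_toContinuousLinearMap, LinearMap.det_toLin']
    rw [Matrix.det_fin_three]
    simp
    have : (t : ℂ) ^ 2 * (2 * t ^ 3) * (2 * t ^ 4) + 2 * t ^ 2 * (2 * t ^ 3) * (2 * t ^ 4) -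
        2 * t ^ 2 * (2 * t ^ 3) * t ^ 4 = 8 * t ^ 9 := by ring
    rw [this]
    exact mul_ne_zero (by norm_num) (pow_ne_zero _ htC)

/-- The negation of the preceding statement: For every holomorphic germ f of ℂⁿ fixing 0 that is non-invertible and dominant, the orders of vanishing c(f^k) of its iterates at 0 eventually satisfy a linear recursion with integer coefficients. -/
theorem result :
    ¬ (∀ (n : ℕ) (f : (Fin n → ℂ) → (Fin n → ℂ)),
      AnalyticAt ℂ f 0 → f 0 = 0 →
      (fderiv ℂ f 0).det = 0 →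
      (∀ ε : ℝ, 0 < ε → ∃ z : Fin n → ℂ, ‖z‖ < ε ∧ (fderiv ℂ f z).det ≠ 0) →
      ∃ (d : ℕ) (a : Fin d → ℤ) (K : ℕ), ∀ k : ℕ, K ≤ k →
        ((sInf {m : ℕ | iteratedFDeriv ℂ m (f^[k + d]) 0 ≠ 0} : ℕ) : ℤ) =
          ∑ i : Fin d, a i *
            ((sInf {m : ℕ | iteratedFDeriv ℂ m (f^[k + (i : ℕ)]) 0 ≠ 0} : ℕ) : ℤ)) := by
  intro h
  have han : AnalyticAt ℂ f 0 := by
    have hp : ∀ j : Fin 3, AnalyticAt ℂ (fun z : Fin 3 → ℂ => z j) 0 := fun j =>
      (ContinuousLinearMap.proj (R := ℂ) (φ := fun _ : Fin 3 => ℂ) j).analyticAt 0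
    rw [analyticAt_pi_iff]
    intro i
    fin_cases i
    · show AnalyticAt ℂ (fun z : Fin 3 → ℂ => z 0 * z 2 ^ 2) 0
      exact (hp 0).mul ((hp 2).pow 2)
    · show AnalyticAt ℂ (fun z : Fin 3 → ℂ => z 0 ^ 2 * z 1 ^ 2) 0
      exact ((hp 0).pow 2).mul ((hp 1).pow 2)
    · show AnalyticAt ℂ (fun z : Fin 3 → ℂ => z 0 * z 1 ^ 2 * z 2 ^ 2) 0
      exact ((hp 0).mul ((hp 1).pow 2)).mul ((hp 2).pow 2)
  have hdet : (fderiv ℂ f 0).det = 0 := by
    rw [f_fderiv_zero]
    rw [ContinuousLinearMap.det]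
    simp
  obtain ⟨d, a, K, hK⟩ := h 3 f han f_zero hdet f_dominant
  refine not_rec d a K fun k hk => ?_
  have := hK k hk
  simpa only [order_eq] using this

end Pool.Agent.S06280
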