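import Pool.Statements.S06499
import Pool.Agent.X100.QL.Fin

set_option autoImplicit false
open Pool Pool.MP_e53853_an

namespace Pool.Agent.S06499

open Pool.Agent.X100.QL Set Filter Topology

lemma totdisc {P : Set ℂ}
    (hP : ∀ k : ℕ, ∀ η : ℝ, 0 < η → ∃ δ : ℝ, 0 < δ ∧ δ < η ∧ ∀ z ∈ P, ∀ n : ℤ,
      ell (dir k) z ≠ n * δ) : IsTotallyDisconnected P := by
  intro t htP ht
  have key : ∀ k : ℕ, ∀ x ∈ t, ∀ y ∈ t, ¬ ell (dir k) x < ell (dir k) y := by
    intro k x hx y hy hlt
    obtain ⟨δ, h1, h2, h3⟩ := hP k (ell (dir k) y - ell (dir k) x) (by linarith)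
    -- an integer multiple of `δ` in between
    set n : ℤ := ⌊ell (dir k) y / δ⌋ with hn
    have h4 : (n : ℝ) * δ ≤ ell (dir k) y := by
      have := Int.floor_le (ell (dir k) y / δ)
      rwa [le_div_iff₀ h1] at this
    have h5 : ell (dir k) y < (n + 1) * δ := by
      have := Int.lt_floor_add_one (ell (dir k) y / δ)
      rwa [div_lt_iff₀ h1] at this
    have h6 : (n : ℝ) * δ ∈ Set.Icc (ell (dir k) x) (ell (dir k) y) := ⟨by nlinarith, h4⟩
    obtain ⟨z, hz, hz'⟩ := ht.intermediate_value hx hy (ell (dir k)).continuous.continuousOn h6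
    exact h3 z (htP hz) n hz'
  intro x hx y hy
  have d0 : dir 0 = 1 := by simp [dir]
  have d1 : dir 1 = Complex.I := by simp [dir]
  have e0 : ∀ z, ell (dir 0) z = z.re := fun z => by rw [d0, ell_apply]; simp
  have e1 : ∀ z, ell (dir 1) z = z.im := fun z => by rw [d1, ell_apply]; simp
  have a1 := key 0 x hx y hy
  have a2 := key 0 y hy x hx
  have a3 := key 1 x hx y hy
  have a4 := key 1 y hy x hx
  rw [e0, e0] at a1 a2
  rw [e1, e1] at a3 a4
  exact Complex.ext (le_antisymm (not_lt.1 a2) (not_lt.1 a1))
    (le_antisymm (not_lt.1 a4) (not_lt.1 a3))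

/-- There is a domain D, a nonempty perfect totally disconnected set P inside D, and f continuous on D, holomorphic on D minus P, not analytic at any point of P, with f(P) totally disconnected. -/
theorem result :
    ∃ (D P : Set ℂ) (f : ℂ → ℂ),
      IsOpen D ∧ IsConnected D ∧
      P ⊆ D ∧ P.Nonempty ∧ Perfect P ∧ IsTotallyDisconnected P ∧
      ContinuousOn f D ∧
      DifferentiableOn ℂ f (D \ P) ∧
      (∀ p ∈ P, ¬ AnalyticAt ℂ f p) ∧
      IsTotallyDisconnected (f '' P) := by
  obtain ⟨K, h, hKcl, hK, hLip, hdiff, z0, hz0⟩ := exists_h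
  set f : ℂ → ℂ := fun z => z + h z with hf
  have hKc : IsTotallyDisconnected K := totdisc hK
  have hfc : Continuous f := continuous_id.add hLip.continuous
  have hfA : ∀ z, AnalyticAt ℂ f z ↔ AnalyticAt ℂ h z := by
    intro z
    constructor
    · intro h1
      have h2 : AnalyticAt ℂ (fun w => f w - w) z := h1.sub analyticAt_id
      refine h2.congr (Eventually.of_forall fun w => ?_)
      simp [hf]
    · intro h1
      exact analyticAt_id.add h1
  set P : Set ℂ := {z | ¬ AnalyticAt ℂ f z} with hP
  have hPcl : IsClosed P := by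
    have : P = {z | AnalyticAt ℂ f z}ᶜ := rfl
    rw [this]
    exact (isOpen_analyticAt ℂ f).isClosed_compl
  have hPne : P.Nonempty := ⟨z0, fun h1 => hz0 ((hfA z0).1 h1)⟩
  have hPacc : Preperfect P := by
    rw [preperfect_iff_nhds]
    intro x hx U hU
    by_contra hcon
    push Not at hcon
    apply hx
    refine Complex.analyticAt_of_differentiable_on_punctured_nhds_of_continuousAt ?_
      hfc.continuousAt
    rw [eventually_nhdsWithin_iff]
    filter_upwards [hU] with w hw hwx
    have h1 : w ∉ P := fun h2 => hwx (hcon w ⟨hw, h2⟩)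
    have h2 : AnalyticAt ℂ f w := by
      by_contra h3
      exact h1 h3
    exact h2.differentiableAt
  have hsub : P ⊆ K := by
    intro z hz
    by_contra h1
    apply hz
    rw [hfA z]
    exact hdiff.analyticAt (hKcl.isOpen_compl.mem_nhds h1)
  have hPdis : IsTotallyDisconnected P := fun t ht htc => hKc t (ht.trans hsub) htc
  have hanti : AntilipschitzWith 2 f := by
    refine AntilipschitzWith.of_le_mul_dist fun x y => ?_
    have h1 : dist x y ≤ dist (f x) (f y) + dist (h x) (h y) := by
      rw [dist_eq_norm, dist_eq_norm, dist_eq_norm]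
      have h2 : x - y = (f x - f y) - (h x - h y) := by simp only [hf]; ring
      rw [h2]
      exact norm_sub_le _ _
    have h2 := hLip.dist_le_mul x y
    push_cast at h2 ⊢
    linarith
  have hemb : IsEmbedding f := by
    have h1 : LipschitzWith (1 + 1 / 2) f := LipschitzWith.id.add hLip
    exact (hanti.isUniformEmbedding h1.uniformContinuous).isEmbedding
  refine ⟨univ, P, f, isOpen_univ, isConnected_univ, subset_univ _, hPne, ⟨hPcl, hPacc⟩, hPdis,
    hfc.continuousOn, ?_, fun p hp => hp, (hemb.isTotallyDisconnected_image).2 hPdis⟩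
  intro z hz
  have h1 : AnalyticAt ℂ f z := by
    by_contra h3
    exact hz.2 h3
  exact h1.differentiableAt.differentiableWithinAt

end Pool.Agent.S06499
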