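import Pool.Statements.S06521
import Pool.Agent.X202.NearUncond

set_option autoImplicit false
open Pool Pool.MP_e7ec4f_an

namespace Pool.Agent.S06521

open Pool.Agent.X202.NearUncond in
/-- The example, over the reals. -/
theorem example_real :
    ∃ (X : Type) (_ : AddCommGroup X) (_ : Module ℝ X)
      (q : X → ℝ) (x : ℕ → X) (xs : ℕ → X →ₗ[ℝ] ℝ),
      (∀ f : X, 0 ≤ q f) ∧
      (∀ f : X, q f = 0 → f = 0) ∧
      (∀ (c : ℝ) (f : X), q (c • f) = ‖c‖ * q f) ∧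
      (∀ f g : X, q (f + g) ≤ 1 * (q f + q g)) ∧
      (∀ u : ℕ → X, (∀ ε : ℝ, 0 < ε → ∃ N : ℕ, ∀ m ≥ N, ∀ n ≥ N, q (u m - u n) < ε) →
        ∃ f : X, ∀ ε : ℝ, 0 < ε → ∃ N : ℕ, ∀ n ≥ N, q (u n - f) < ε) ∧
      (∃ B : ℝ, ∀ n : ℕ, q (x n) ≤ B) ∧
      (∃ M : ℝ, ∀ (n : ℕ) (f : X), ‖xs n f‖ ≤ M * q f) ∧
      (∀ m n : ℕ, xs m (x n) = if m = n then 1 else 0) ∧
      (∀ f : X, ∀ ε : ℝ, 0 < ε → ∃ g ∈ Submodule.span ℝ (Set.range x), q (f - g) < ε) ∧
      (∀ a : ℝ, 0 < a → a ≤ 1 → ∃ C : ℝ, ∀ f : X, (∀ n : ℕ, ‖xs n f‖ ≤ 1) →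
        ∀ A : Finset ℕ, (∀ n ∈ A, a ≤ ‖xs n f‖) →
          q (∑ n ∈ A, xs n f • x n) ≤ C * q f) ∧
      ∀ C : ℝ, ∃ f : X, ∃ A : Finset ℕ, A.Nonempty ∧
          (∀ n ∈ A, ∀ k : ℕ, k ∉ A → ‖xs k f‖ ≤ ‖xs n f‖) ∧
          (∀ n ∈ A, 1 ≤ ‖xs n f‖) ∧
            C * q f < q (∑ n ∈ A, (xs n f / ‖xs n f‖) • x n) := by
  classical
  have hinf : Infinite Ix := by
    refine Infinite.of_injective (fun m : ℕ => (⟨m, (none, ⟨0, by positivity⟩)⟩ : Ix)) ?_
    intro m m' h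
    exact (Sigma.mk.inj_iff.1 h).1
  obtain ⟨e⟩ := nonempty_equiv_of_countable (α := ℕ) (β := Ix)
  let S : Submodule ℝ L := (Submodule.span ℝ (Set.range x0)).topologicalClosure
  have hS : IsClosed (S : Set L) := Submodule.isClosed_topologicalClosure _
  have hcomp : CompleteSpace S := hS.completeSpace_coe
  have hmem : ∀ j, x0 j ∈ S := fun j =>
    (Submodule.span ℝ (Set.range x0)).le_topologicalClosure (Submodule.subset_span ⟨j, rfl⟩)
  let x : ℕ → S := fun n => ⟨x0 (e n), hmem (e n)⟩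
  let xs : ℕ → S →ₗ[ℝ] ℝ := fun n => (ev (e n)) ∘ₗ S.subtype
  have hxs : ∀ n (f : S), xs n f = ev (e n) (f : L) := fun n f => rfl
  have hsum : ∀ (A : Finset ℕ) (c : Ix → ℝ), ((∑ n ∈ A, c (e n) • x n : S) : L) =
      ∑ i ∈ A.map e.toEmbedding, c i • x0 i := by
    intro A c
    rw [Finset.sum_map, Submodule.coe_sum]
    rfl
  refine ⟨S, inferInstance, inferInstance, fun f => ‖f‖, x, xs, fun f => norm_nonneg f,
    fun f hf => norm_eq_zero.1 hf, fun c f => norm_smul c f, fun f g => ?_, fun u hu => ?_,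
    ⟨2, fun n => norm_x0_le (e n)⟩, ⟨1, fun n f => ?_⟩, fun m n => ?_, fun f ε hε => ?_,
    fun a ha ha1 => ⟨CC a, fun f hf A hA => ?_⟩, fun C => ?_⟩
  · rw [one_mul]; exact norm_add_le f g
  · have hc : CauchySeq u := by
      rw [Metric.cauchySeq_iff]
      intro ε hε
      obtain ⟨N, hN⟩ := hu ε hε
      exact ⟨N, fun m hm n hn => by rw [dist_eq_norm]; exact hN m hm n hn⟩
    obtain ⟨f, hf⟩ := cauchySeq_tendsto_of_complete hc
    refine ⟨f, fun ε hε => ?_⟩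
    obtain ⟨N, hN⟩ := Metric.tendsto_atTop.1 hf ε hε
    exact ⟨N, fun n hn => by have := hN n hn; rwa [dist_eq_norm] at this⟩
  · rw [one_mul, Real.norm_eq_abs, hxs]
    exact abs_ev_le (e n) (f : L)
  · rw [hxs]
    have h1 : ev (e m) ((x n : S) : L) = if e m = e n then 1 else 0 := ev_x0 (e m) (e n)
    rw [h1]
    simp only [EmbeddingLike.apply_eq_iff_eq]
  · have h1 : (f : L) ∈ closure (Submodule.span ℝ (Set.range x0) : Set L) := by
      have := f.2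
      rwa [← SetLike.mem_coe, Submodule.topologicalClosure_coe] at this
    obtain ⟨g, hg1, hg2⟩ := Metric.mem_closure_iff.1 h1 ε hε
    have h2 : Submodule.span ℝ (Set.range x0) =
        Submodule.map S.subtype (Submodule.span ℝ (Set.range x)) := by
      rw [Submodule.map_span, ← Set.range_comp]
      have h3 : (S.subtype ∘ x : ℕ → L) = x0 ∘ e := rfl
      rw [h3, Set.range_comp, e.surjective.range_eq, Set.image_univ]
    rw [SetLike.mem_coe, h2] at hg1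
    obtain ⟨z, hz1, hz2⟩ := hg1
    refine ⟨z, hz1, ?_⟩
    rw [dist_eq_norm, ← hz2] at hg2
    exact hg2
  · have h1 := near_uncond_L ha ha1 (f : L) (fun j => by
      have := hf (e.symm j)
      rwa [Real.norm_eq_abs, hxs, Equiv.apply_symm_apply] at this) (A.map e.toEmbedding) (by
      intro j hj
      rw [Finset.mem_map] at hj
      obtain ⟨n, hn, rfl⟩ := hj
      have := hA n hn
      rwa [Real.norm_eq_abs, hxs] at this)
    rw [← hsum A (fun j => ev j (f : L))] at h1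
    exact h1
  · -- failure of the truncation property
    set C' : ℝ := max C 0 with hC'
    obtain ⟨m, hm⟩ := exists_nat_gt (C' + 1)
    have hC0 : 0 ≤ C' := le_max_right _ _
    have hm0 : 0 < m := by
      have : (0 : ℝ) < m := by linarith
      exact_mod_cast this
    have hfS : lp.single ⊤ m (tv m) ∈ S := by
      rw [single_eq (tv m) (fun j => ev j (lp.single ⊤ m (tv m))) fun n => ev_single _ n]
      exact Submodule.sum_mem _ fun i _ => Submodule.smul_mem _ _ (hmem i)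
    set f : S := ⟨lp.single ⊤ m (tv m), hfS⟩ with hf
    set A : Finset ℕ := (blockSet m).map e.symm.toEmbedding with hA
    have hAmem : ∀ n, n ∈ A ↔ e n ∈ blockSet m := by
      intro n
      rw [hA, Finset.mem_map_equiv, Equiv.symm_symm]
    have hAmap : A.map e.toEmbedding = blockSet m := by
      ext j
      rw [Finset.mem_map_equiv, hAmem, Equiv.apply_symm_apply]
    have hpos : ∀ n ∈ A, 1 ≤ xs n f := by
      intro n hn
      rw [hAmem, mem_blockSet] at hn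
      rw [hxs]
      have key : ∀ j : Ix, j.1 = m → 1 ≤ ev j (lp.single ⊤ m (tv m)) := by
        rintro ⟨m', i⟩ h
        simp only at h
        subst h
        rw [ev_single]
        exact tv_pos i
      exact key (e n) hn
    refine ⟨f, A, ?_, fun n hn k hk => ?_, fun n hn => ?_, ?_⟩
    · refine ⟨e.symm ⟨m, (none, ⟨0, by positivity⟩)⟩, ?_⟩
      rw [hAmem, Equiv.apply_symm_apply, mem_blockSet]
    · rw [hAmem] at hk
      have h1 : xs k f = 0 := ev_single_of_notMem (tv m) hk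
      rw [h1, norm_zero]
      exact norm_nonneg _
    · rw [Real.norm_eq_abs]
      exact (hpos n hn).trans (le_abs_self _)
    · have h1 : ∑ n ∈ A, (xs n f / ‖xs n f‖) • x n = ∑ n ∈ A, (fun _ : Ix => (1 : ℝ)) (e n) • x n := by
        refine Finset.sum_congr rfl fun n hn => ?_
        have h2 : 0 < xs n f := zero_lt_one.trans_le (hpos n hn)
        rw [Real.norm_eq_abs, abs_of_pos h2, div_self h2.ne']
      have h3 : ‖∑ n ∈ A, (xs n f / ‖xs n f‖) • x n‖ = ‖ov m‖ := by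
        have h5 := hsum A (fun _ => 1)
        rw [hAmap, ← single_eq (ov m) (fun _ => 1) fun n => rfl] at h5
        rw [h1]
        change ‖((∑ n ∈ A, (fun _ : Ix => (1 : ℝ)) (e n) • x n : S) : L)‖ = ‖ov m‖
        rw [h5]
        exact lp.norm_single (by simp) _ _
      have h4 : ‖f‖ ≤ 2 ^ m := by
        have h5 : ‖f‖ = ‖tv m‖ := by
          change ‖lp.single ⊤ m (tv m)‖ = ‖tv m‖
          exact lp.norm_single (by simp) _ _
        rw [h5]
        exact norm_tv_le hm0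
      change C * ‖f‖ < ‖∑ n ∈ A, (xs n f / ‖xs n f‖) • x n‖
      rw [h3]
      have h6 := le_norm_ov hm0
      have h7 : C * ‖f‖ ≤ C' * 2 ^ m :=
        mul_le_mul (le_max_left _ _) h4 (norm_nonneg _) hC0
      have hp : (0 : ℝ) < 2 ^ m := by positivity
      nlinarith

/-- There is a real or complex quasi-Banach space with a bounded biorthogonal basis that is nearly unconditional (coordinates at least a can be projected boundedly) but not truncation quasi-greedy. -/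
theorem result :
    ∃ (𝕂 : Type) (_ : RCLike 𝕂) (X : Type) (_ : AddCommGroup X) (_ : Module 𝕂 X)
      (q : X → ℝ) (κ : ℝ) (x : ℕ → X) (xs : ℕ → X →ₗ[𝕂] 𝕂),
      (∀ f : X, 0 ≤ q f) ∧
      (∀ f : X, q f = 0 → f = 0) ∧
      (∀ (c : 𝕂) (f : X), q (c • f) = ‖c‖ * q f) ∧
      (∀ f g : X, q (f + g) ≤ κ * (q f + q g)) ∧
      (∀ u : ℕ → X, (∀ ε : ℝ, 0 < ε → ∃ N : ℕ, ∀ m ≥ N, ∀ n ≥ N, q (u m - u n) < ε) →
        ∃ f : X, ∀ ε : ℝ, 0 < ε → ∃ N : ℕ, ∀ n ≥ N, q (u n - f) < ε) ∧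
      (∃ B : ℝ, ∀ n : ℕ, q (x n) ≤ B) ∧
      (∃ M : ℝ, ∀ (n : ℕ) (f : X), ‖xs n f‖ ≤ M * q f) ∧
      (∀ m n : ℕ, xs m (x n) = if m = n then 1 else 0) ∧
      (∀ f : X, ∀ ε : ℝ, 0 < ε → ∃ g ∈ Submodule.span 𝕂 (Set.range x), q (f - g) < ε) ∧
      (∀ a : ℝ, 0 < a → a ≤ 1 → ∃ C : ℝ, ∀ f : X, (∀ n : ℕ, ‖xs n f‖ ≤ 1) →
        ∀ A : Finset ℕ, (∀ n ∈ A, a ≤ ‖xs n f‖) →
          q (∑ n ∈ A, xs n f • x n) ≤ C * q f) ∧
      ¬ (∃ C : ℝ, ∀ f : X, ∀ A : Finset ℕ, A.Nonempty →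
          (∀ n ∈ A, ∀ k : ℕ, k ∉ A → ‖xs k f‖ ≤ ‖xs n f‖) →
          ∀ t : ℝ, (∀ n ∈ A, t ≤ ‖xs n f‖) →
            t * q (∑ n ∈ A, (xs n f / ((‖xs n f‖ : ℝ) : 𝕂)) • x n) ≤ C * q f) := by
  obtain ⟨X, i1, i2, q, x, xs, h1, h2, h3, h4, h5, h6, h7, h8, h9, h10, h11⟩ := example_real
  refine ⟨ℝ, inferInstance, X, i1, i2, q, 1, x, xs, h1, h2, h3, h4, h5, h6, h7, h8, h9, h10, ?_⟩
  rintro ⟨C, hC⟩
  obtain ⟨f, A, hA, hA1, hA2, hlt⟩ := h11 C
  have := hC f A hA hA1 1 hA2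
  rw [one_mul] at this
  exact absurd hlt (not_lt.2 this)

end Pool.Agent.S06521
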