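import Pool.Statements.S06524
-- import your own Pool.Agent.* helpers here
import Pool.Agent.X93.BMO.Final

set_option autoImplicit false
open MeasureTheory Filter Topology Metric
open Pool Pool.MP_e7f1de_an

namespace Pool.Agent.S06524

open Pool.Agent.X93.BMO in
/-- The negation of the preceding statement: For every kernel homogeneous of degree -n, mean zero on the sphere, with angular part in L log L, there is C such that the principal-value operator sends each bounded compactly supported f with ∣f∣≤M to a function of BMO norm at most C·M. -/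
theorem result :
    ¬ (∀ (n : ℕ), 1 ≤ n →
    ∀ (k : EuclideanSpace ℝ (Fin n) → ℝ), Measurable k →
    (∀ x : EuclideanSpace ℝ (Fin n), x ≠ 0 → ∀ t : ℝ, 0 < t →
        k (t • x) = t ^ (-(n : ℤ)) * k x) →
    IntegrableOn k {x : EuclideanSpace ℝ (Fin n) | 1 ≤ ‖x‖ ∧ ‖x‖ ≤ 2} volume →
    (∫ x in {x : EuclideanSpace ℝ (Fin n) | 1 ≤ ‖x‖ ∧ ‖x‖ ≤ 2}, k x) = 0 →
    IntegrableOn (fun x => |k x| * max 0 (Real.log |k x|))
        {x : EuclideanSpace ℝ (Fin n) | 1 ≤ ‖x‖ ∧ ‖x‖ ≤ 2} volume →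
    ∃ C : ℝ, ∀ (f : EuclideanSpace ℝ (Fin n) → ℝ) (M : ℝ),
      Measurable f → HasCompactSupport f → (∀ x, |f x| ≤ M) →
      ∀ g : EuclideanSpace ℝ (Fin n) → ℝ,
        (∀ᵐ x ∂(volume : Measure (EuclideanSpace ℝ (Fin n))),
          Tendsto (fun ε : ℝ => ∫ y in {y : EuclideanSpace ℝ (Fin n) | ε < ‖y‖}, k y * f (x - y))
            (𝓝[>] 0) (𝓝 (g x))) →
        ∀ (c : EuclideanSpace ℝ (Fin n)) (r : ℝ), 0 < r →
          IntegrableOn g (ball c r) volume ∧
          (⨍ x in ball c r, |g x - ⨍ y in ball c r, g y|) ≤ C * M) := by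
  intro H
  obtain ⟨Om, hm, hi2, hi, h0, hbig⟩ := exists_Om
  let e : ℂ ≃ₗᵢ[ℝ] EuclideanSpace ℝ (Fin 2) := Complex.orthonormalBasisOneI.repr
  have hmp : MeasurePreserving e volume volume := e.measurePreserving
  have hemb : MeasurableEmbedding e := e.toHomeomorph.measurableEmbedding
  have hsm : Measurable e.symm := e.symm.continuous.measurable
  -- transfer of set integrals
  have hpre : ∀ S : Set ℝ, e ⁻¹' {x : EuclideanSpace ℝ (Fin 2) | ‖x‖ ∈ S} = {z : ℂ | ‖z‖ ∈ S} := by
    intro S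
    ext z
    simp
  have htr : ∀ (S : Set (EuclideanSpace ℝ (Fin 2))) (h : ℂ → ℝ),
      ∫ x in S, h (e.symm x) = ∫ z in e ⁻¹' S, h z := by
    intro S h
    rw [← hmp.setIntegral_preimage_emb hemb]
    simp
  have htrI : ∀ (S : Set (EuclideanSpace ℝ (Fin 2))) (h : ℂ → ℝ),
      IntegrableOn (fun x => h (e.symm x)) S ↔ IntegrableOn h (e ⁻¹' S) := by
    intro S h
    rw [← hmp.integrableOn_comp_preimage hemb]
    simp [Function.comp_def]
  have hann : {x : EuclideanSpace ℝ (Fin 2) | 1 ≤ ‖x‖ ∧ ‖x‖ ≤ 2}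
      = {x : EuclideanSpace ℝ (Fin 2) | ‖x‖ ∈ Set.Icc (1 : ℝ) 2} := rfl
  obtain ⟨C, hC⟩ := H 2 (by norm_num) (fun x => ker Om (e.symm x))
    ((measurable_ker hm).comp hsm)
    (by
      intro x _ t ht
      rw [map_smul]
      exact ker_smul Om _ t ht)
    (by
      rw [hann, htrI, hpre]
      exact ker_integrableOn hm hi one_pos)
    (by
      rw [hann, htr, hpre]
      exact ker_int_zero h0 measurableSet_Icc)
    (by
      rw [hann, htrI _ (fun z => |ker Om z| * max 0 (Real.log |ker Om z|)), hpre]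
      exact ker_log_integrableOn hm hi2 one_pos)
  obtain ⟨m, hmC⟩ := hbig (5 * (Real.pi * C))
  have hFL := F_lip m
  obtain ⟨hG1, hG2⟩ := hC (fun x => F m (e.symm x)) 1 ((continuous_F m).measurable.comp hsm)
    (by
      apply HasCompactSupport.intro (isCompact_closedBall (0 : EuclideanSpace ℝ (Fin 2)) (2 * (Nn m : ℝ)))
      intro x hx
      apply F_zero_large
      rw [mem_closedBall_zero_iff, not_le] at hx
      rw [e.symm.norm_map]
      exact hx.le)
    (fun x => F_abs_le m _)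
    (fun x => G Om (F m) (e.symm x))
    (by
      refine Eventually.of_forall (fun x => ?_)
      have h1 := pv_tendsto hm hi h0 (LL_nonneg m) (F_abs_le m) (F_lip m) (F_zero_large m)
        (e.symm x)
      refine h1.congr (fun ε => ?_)
      have h2 := htr {y : EuclideanSpace ℝ (Fin 2) | ε < ‖y‖}
        (fun z => ker Om z * F m (e.symm x - z))
      have h3 : e ⁻¹' {y : EuclideanSpace ℝ (Fin 2) | ε < ‖y‖} = {z : ℂ | ε < ‖z‖} := hpre (Set.Ioi ε)
      rw [h3] at h2
      rw [← h2]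
      simp_rw [map_sub])
    0 1 one_pos
  have hball : e ⁻¹' (ball (0 : EuclideanSpace ℝ (Fin 2)) 1) = ball (0 : ℂ) 1 := by
    ext z
    simp
  rw [htrI, hball] at hG1
  set a : ℝ := ⨍ y in ball (0 : EuclideanSpace ℝ (Fin 2)) 1, G Om (F m) (e.symm y) with ha
  have hvol : (volume (ball (0 : EuclideanSpace ℝ (Fin 2)) 1)).toReal = Real.pi := by
    rw [← hmp.measure_preimage measurableSet_ball.nullMeasurableSet, hball, volume_ball_one]
  rw [setAverage_eq, Measure.real, hvol, htr _ (fun z => |G Om (F m) z - a|), hball, smul_eq_mul,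
    mul_one] at hG2
  have hpi := Real.pi_pos
  have h5 : ∫ x in ball (0 : ℂ) 1, |G Om (F m) x - a| ≤ Real.pi * C := by
    rw [inv_mul_le_iff₀ hpi] at hG2
    exact hG2
  have h6 := upper a hG1
  have h7 := le_abs_self (∫ x in ball (0 : ℂ) 1, (G Om (F m) (x / 2) - G Om (F m) x))
  linarith

end Pool.Agent.S06524
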