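import Pool.Statements.S06574
import Pool.Agent.X153.C11.Main

set_option autoImplicit false
open Pool Pool.MP_ebd05c_an

namespace Pool.Agent.S06574

/-- The negation of the preceding statement: Every power bounded operator T on a complex Hilbert space such that, for each nonzero h, neither ‖Tⁿh‖ nor ‖T*ⁿh‖ tends to 0, is similar via some invertible bounded S to an operator STS⁻¹ of norm at most 1. -/
theorem result :
    ¬ (∀ (H : Type) [NormedAddCommGroup H] [InnerProductSpace ℂ H] [CompleteSpace H]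
      (T : H →L[ℂ] H),
      (∃ C : ℝ, ∀ n : ℕ, ‖T ^ n‖ ≤ C) →
      (∀ h : H, h ≠ 0 →
        ¬ Filter.Tendsto (fun n : ℕ => ‖(T ^ n) h‖) Filter.atTop (nhds 0)) →
      (∀ h : H, h ≠ 0 →
        ¬ Filter.Tendsto (fun n : ℕ => ‖((ContinuousLinearMap.adjoint T) ^ n) h‖)
          Filter.atTop (nhds 0)) →
      ∃ S : H ≃L[ℂ] H,
        ‖(S : H →L[ℂ] H).comp (T.comp (S.symm : H →L[ℂ] H))‖ ≤ 1) := by
  exact Pool.Agent.X153.C11.main

end Pool.Agent.S06574
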