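import Pool.Statements.S06632
import Pool.Agent.Helper841.SnowC7

set_option autoImplicit false
open Pool Pool.MP_efb015_an

namespace Pool.Agent.S06632

/-- The negation of the preceding statement: For every exponent q with 2 < q < ∞, real L_q[0,1] admits a coarse embedding into ℓ_q, or it admits a uniform embedding (injective, uniformly continuous, with uniformly continuous inverse on the image) into ℓ_q. -/
theorem result :
    ¬ (∀ (p : ENNReal) [Fact (1 ≤ p)], (2 : ENNReal) < p → p ≠ ⊤ →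
      (∃ f : MeasureTheory.Lp ℝ p ((MeasureTheory.volume : MeasureTheory.Measure ℝ).restrict (Set.Icc 0 1)) →
            lp (fun _ : ℕ => ℝ) p,
          ∃ ρ₁ ρ₂ : ℝ → ℝ, MonotoneOn ρ₁ (Set.Ici 0) ∧ MonotoneOn ρ₂ (Set.Ici 0) ∧
            Filter.Tendsto ρ₁ Filter.atTop Filter.atTop ∧
            ∀ x y, ρ₁ (dist x y) ≤ dist (f x) (f y) ∧ dist (f x) (f y) ≤ ρ₂ (dist x y)) ∨
      (∃ f : MeasureTheory.Lp ℝ p ((MeasureTheory.volume : MeasureTheory.Measure ℝ).restrict (Set.Icc 0 1)) →
            lp (fun _ : ℕ => ℝ) p,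
          IsUniformEmbedding f)) := by
  intro h
  have : Fact ((1 : ENNReal) ≤ 3) := ⟨by norm_num⟩
  have h2 : (2 : ENNReal) < 3 := by norm_num
  have h3 : (3 : ENNReal) ≠ ⊤ := by norm_num
  rcases h 3 h2 h3 with ⟨f, ρ₁, ρ₂, m1, m2, hlim, hf⟩ | hu
  · apply Pool.Agent.Helper841.Snow.no_coarse h2 h3
    refine ⟨f, fun t => ρ₁ (max t 0), fun t => ρ₂ (max t 0), ?_, ?_, ?_, ?_⟩
    · intro a b hab
      exact m1 (Set.mem_Ici.2 (le_max_right _ _)) (Set.mem_Ici.2 (le_max_right _ _))
        (max_le_max_right 0 hab)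
    · intro a b hab
      exact m2 (Set.mem_Ici.2 (le_max_right _ _)) (Set.mem_Ici.2 (le_max_right _ _))
        (max_le_max_right 0 hab)
    · refine hlim.congr' ?_
      filter_upwards [Filter.eventually_ge_atTop (0 : ℝ)] with t ht
      rw [max_eq_left ht]
    · intro x y
      simp only [max_eq_left dist_nonneg]
      exact hf x y
  · exact Pool.Agent.Helper841.Snow.no_uniform h2 h3 hu

end Pool.Agent.S06632
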