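import Pool.Statements.S06852
import Pool.Agent.X207.FRFinal

set_option autoImplicit false
open Pool Pool.MP_ff6aad_an

namespace Pool.Agent.S06852

/-- The negation of the preceding statement: On a separable infinite-dimensional Hilbert space, if A has a norm-one state killing all commutators AX−XA and all compacts, then for every ε>0 some finite-rank F with norm below ε makes A−F have a nonzero finite-dimensional reducing subspace. -/
theorem result :
    ¬ (∀ (H : Type) [NormedAddCommGroup H] [InnerProductSpace ℂ H] [CompleteSpace H]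
      [TopologicalSpace.SeparableSpace H], ¬ FiniteDimensional ℂ H →
    ∀ A : H →L[ℂ] H,
      (∃ f : (H →L[ℂ] H) →L[ℂ] ℂ, f 1 = 1 ∧ ‖f‖ = 1 ∧
        (∀ X : H →L[ℂ] H, f (A * X - X * A) = 0) ∧
        (∀ K : H →L[ℂ] H, IsCompactOperator K → f K = 0)) →
      ∀ ε : ℝ, 0 < ε →
        ∃ F : H →L[ℂ] H, FiniteDimensional ℂ (LinearMap.range (F : H →ₗ[ℂ] H)) ∧ ‖F‖ < ε ∧
          ∃ M : Submodule ℂ H, M ≠ ⊥ ∧ FiniteDimensional ℂ M ∧
            (∀ x ∈ M, (A - F) x ∈ M) ∧
            (∀ x ∈ M, (ContinuousLinearMap.adjoint (A - F)) x ∈ M)) := by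
  intro h
  obtain ⟨A, hf, hno⟩ := Pool.Agent.X207.FR.main_example
  haveI := Pool.Agent.X207.FR.separable_HS
  have hinf : ¬ FiniteDimensional ℂ Pool.Agent.X207.FR.HS := by
    intro hfd
    obtain ⟨f, hf1, _, _, hfK⟩ := hf
    haveI : LocallyCompactSpace Pool.Agent.X207.FR.HS := by
      haveI : ProperSpace Pool.Agent.X207.FR.HS := FiniteDimensional.proper ℂ _
      infer_instance
    have h1 := hfK 1 (isCompactOperator_id (E := Pool.Agent.X207.FR.HS))
    rw [hf1] at h1
    exact one_ne_zero h1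
  obtain ⟨F, _, hF, M, hM, hMfd, h1, h2⟩ := h Pool.Agent.X207.FR.HS hinf A hf (1 / 2000000) (by norm_num)
  exact hM (hno F hF M hMfd h1 h2)

end Pool.Agent.S06852
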