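import Pool.Statements.S07056

set_option autoImplicit false
open Pool Pool.MP_0959cd_co

namespace Pool.Agent.S07056

/-- The weights (in units of 1/21) of a digraph on seven vertices with hubs `0` and `1` in which
every vertex has total out-weight 21 and every cycle has weight 20. -/
def W : Fin 7 → Fin 7 → ℕ := ![
  ![0, 9, 4, 4, 4, 0, 0],
  ![11, 0, 0, 0, 0, 5, 5],
  ![16, 5, 0, 0, 0, 0, 0],
  ![16, 5, 0, 0, 0, 0, 0],
  ![16, 5, 0, 0, 0, 0, 0],
  ![6, 15, 0, 0, 0, 0, 0],
  ![6, 15, 0, 0, 0, 0, 0]]

/-- The number of the hub indicator. -/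
def hub (v : Fin 7) : ℕ := if v = 0 ∨ v = 1 then 1 else 0

/-- The weights on the disjoint union of the reversed digraph (`false`) and the digraph (`true`),
all pairs from the first to the second having weight 1 (= 21 units). -/
def P : Bool × Fin 7 → Bool × Fin 7 → ℕ
  | (false, u), (false, v) => W v u
  | (true, u), (true, v) => W u v
  | (false, _), (true, _) => 21
  | (true, _), (false, _) => 0

lemma W_out (u : Fin 7) : ∑ v, W u v = 21 := by
  revert u; decide

lemma W_le (u v : Fin 7) : W u v ≤ 21 := by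
  revert u v; decide

lemma W_hub (u v : Fin 7) (h : 0 < W u v) : 1 ≤ hub u + hub v := by
  revert u v; decide

lemma P_le (x y : Bool × Fin 7) : P x y ≤ 21 := by
  obtain ⟨a, u⟩ := x
  obtain ⟨b, v⟩ := y
  cases a <;> cases b <;> simp only [P]
  · exact W_le v u
  · exact le_rfl
  · exact Nat.zero_le _
  · exact W_le u v

lemma cyc2 : ∀ a b : Fin 7, W a b + W b a ≤ 20 := by decide

lemma cyc3 : ∀ a b c : Fin 7, a ≠ b → b ≠ c → a ≠ c →
    0 < W a b → 0 < W b c → 0 < W c a → W a b + W b c + W c a ≤ 20 := by decide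

lemma cyc4 : ∀ a b c d : Fin 7, a ≠ c → b ≠ d →
    0 < W a b → 0 < W b c → 0 < W c d → 0 < W d a →
    W a b + W b c + W c d + W d a ≤ 20 := by decide

/-- The indicator of the second side. -/
def side (x : Bool × Fin 7) : ℕ := if x.1 then 1 else 0

lemma side_le (x y : Bool × Fin 7) (h : 0 < P x y) : side x ≤ side y := by
  obtain ⟨a, u⟩ := x
  obtain ⟨b, v⟩ := y
  cases a <;> cases b <;> simp_all [P, side]

lemma main_cycle (k : ℕ) (c : Fin (k + 2) → Bool × Fin 7) (hc : Function.Injective c)
    (h : ∀ i, 0 < P (c i) (c (i + 1))) : ∑ i, P (c i) (c (i + 1)) ≤ 20 := by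
  classical
  -- all vertices are on the same side
  have hsum : ∑ i, side (c (i + 1)) = ∑ i, side (c i) :=
    Fintype.sum_equiv (Equiv.addRight 1) _ _ (fun i => rfl)
  have hside : ∀ i, side (c i) = side (c (i + 1)) := by
    by_contra hcon
    push Not at hcon
    obtain ⟨i, hi⟩ := hcon
    have : ∑ i, side (c i) < ∑ i, side (c (i + 1)) :=
      Finset.sum_lt_sum (fun j _ => side_le _ _ (h j)) ⟨i, Finset.mem_univ _,
        lt_of_le_of_ne (side_le _ _ (h i)) hi⟩
    omega
  have hconst : ∀ i, (c i).1 = (c 0).1 := by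
    intro i
    induction i using Fin.induction with
    | zero => rfl
    | succ i ih =>
      rw [← ih]
      have h1 := hside i.castSucc
      rw [Fin.coeSucc_eq_succ] at h1
      unfold side at h1
      cases h3 : (c i.castSucc).1 <;> cases h4 : (c i.succ).1
      · rfl
      · rw [h3, h4] at h1
        exact absurd h1 (by decide)
      · rw [h3, h4] at h1
        exact absurd h1 (by decide)
      · rfl
  -- the number of hubs
  have hhub : ∀ i, 1 ≤ hub (c i).2 + hub (c (i + 1)).2 := by
    intro i
    have h1 := h i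
    have h2 := hconst i
    have h3 := hconst (i + 1)
    cases h4 : (c 0).1
    · rw [h4] at h2 h3
      have e1 : c i = (false, (c i).2) := Prod.ext h2 rfl
      have e2 : c (i + 1) = (false, (c (i + 1)).2) := Prod.ext h3 rfl
      rw [e1, e2] at h1
      have := W_hub _ _ h1
      omega
    · rw [h4] at h2 h3
      have e1 : c i = (true, (c i).2) := Prod.ext h2 rfl
      have e2 : c (i + 1) = (true, (c (i + 1)).2) := Prod.ext h3 rfl
      rw [e1, e2] at h1
      have := W_hub _ _ h1
      omega
  have hinj : Function.Injective (fun i => (c i).2) := by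
    intro i j hij
    apply hc
    exact Prod.ext ((hconst i).trans (hconst j).symm) hij
  have hcount : ∑ i, hub (c i).2 ≤ 2 := by
    have h1 : ∑ i, hub (c i).2 = (Finset.univ.filter (fun i => (c i).2 = 0 ∨ (c i).2 = 1)).card := by
      rw [Finset.card_filter]
      rfl
    rw [h1]
    calc (Finset.univ.filter (fun i => (c i).2 = 0 ∨ (c i).2 = 1)).card
        = ((Finset.univ.filter (fun i => (c i).2 = 0 ∨ (c i).2 = 1)).image
            (fun i => (c i).2)).card := (Finset.card_image_of_injective _ hinj).symm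
      _ ≤ ({0, 1} : Finset (Fin 7)).card := by
          apply Finset.card_le_card
          intro x hx
          simp only [Finset.mem_image, Finset.mem_filter, Finset.mem_univ, true_and] at hx
          obtain ⟨i, hi, rfl⟩ := hx
          simpa using hi
      _ = 2 := by decide
  have hk : k + 2 ≤ 4 := by
    have h1 : ∑ i : Fin (k + 2), 1 ≤ ∑ i, (hub (c i).2 + hub (c (i + 1)).2) :=
      Finset.sum_le_sum fun i _ => hhub i
    have h2 : ∑ i, hub (c (i + 1)).2 = ∑ i, hub (c i).2 :=
      Fintype.sum_equiv (Equiv.addRight 1) _ _ (fun i => rfl)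
    rw [Finset.sum_add_distrib, h2] at h1
    simp only [Finset.sum_const, Finset.card_univ, Fintype.card_fin, smul_eq_mul, mul_one] at h1
    omega
  -- the value of `P` along the cycle
  have hP : (∀ i, P (c i) (c (i + 1)) = W (c i).2 (c (i + 1)).2) ∨
      (∀ i, P (c i) (c (i + 1)) = W (c (i + 1)).2 (c i).2) := by
    cases h4 : (c 0).1
    · right
      intro i
      have h2 := hconst i
      have h3 := hconst (i + 1)
      rw [h4] at h2 h3
      have e1 : c i = (false, (c i).2) := Prod.ext h2 rfl
      have e2 : c (i + 1) = (false, (c (i + 1)).2) := Prod.ext h3 rfl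
      conv_lhs => rw [e1, e2]
      rfl
    · left
      intro i
      have h2 := hconst i
      have h3 := hconst (i + 1)
      rw [h4] at h2 h3
      have e1 : c i = (true, (c i).2) := Prod.ext h2 rfl
      have e2 : c (i + 1) = (true, (c (i + 1)).2) := Prod.ext h3 rfl
      conv_lhs => rw [e1, e2]
      rfl
  have hk' : k = 0 ∨ k = 1 ∨ k = 2 := by omega
  rcases hk' with rfl | rfl | rfl
  · -- cycles of length 2
    rw [Fin.sum_univ_two]
    have e : (1 : Fin 2) + 1 = 0 := rfl
    rcases hP with hP | hP
    · rw [hP 0, hP 1, e]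
      exact cyc2 _ _
    · rw [hP 0, hP 1, e]
      have := cyc2 (c 0).2 (c 1).2
      simp only [zero_add]
      omega
  · rw [Fin.sum_univ_three]
    have e0 : (0 : Fin 3) + 1 = 1 := rfl
    have e1 : (1 : Fin 3) + 1 = 2 := rfl
    have e2 : (2 : Fin 3) + 1 = 0 := rfl
    have n1 : (c 0).2 ≠ (c 1).2 := fun hh => by have := hinj hh; revert this; decide
    have n2 : (c 1).2 ≠ (c 2).2 := fun hh => by have := hinj hh; revert this; decide
    have n3 : (c 0).2 ≠ (c 2).2 := fun hh => by have := hinj hh; revert this; decide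
    have p0 := h 0
    have p1 := h 1
    have p2 := h 2
    rcases hP with hP | hP
    · rw [hP 0, e0] at p0
      rw [hP 1, e1] at p1
      rw [hP 2, e2] at p2
      rw [hP 0, hP 1, hP 2, e0, e1, e2]
      exact cyc3 _ _ _ n1 n2 n3 p0 p1 p2
    · rw [hP 0, e0] at p0
      rw [hP 1, e1] at p1
      rw [hP 2, e2] at p2
      rw [hP 0, hP 1, hP 2, e0, e1, e2]
      have := cyc3 (c 2).2 (c 1).2 (c 0).2 n2.symm n1.symm n3.symm p1 p0 p2
      omega
  · rw [Fin.sum_univ_four]
    have e0 : (0 : Fin 4) + 1 = 1 := rfl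
    have e1 : (1 : Fin 4) + 1 = 2 := rfl
    have e2 : (2 : Fin 4) + 1 = 3 := rfl
    have e3 : (3 : Fin 4) + 1 = 0 := rfl
    have n1 : (c 0).2 ≠ (c 2).2 := fun hh => by have := hinj hh; revert this; decide
    have n2 : (c 1).2 ≠ (c 3).2 := fun hh => by have := hinj hh; revert this; decide
    have p0 := h 0
    have p1 := h 1
    have p2 := h 2
    have p3 := h 3
    rcases hP with hP | hP
    · rw [hP 0, e0] at p0
      rw [hP 1, e1] at p1
      rw [hP 2, e2] at p2
      rw [hP 3, e3] at p3
      rw [hP 0, hP 1, hP 2, hP 3, e0, e1, e2, e3]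
      exact cyc4 _ _ _ _ n1 n2 p0 p1 p2 p3
    · rw [hP 0, e0] at p0
      rw [hP 1, e1] at p1
      rw [hP 2, e2] at p2
      rw [hP 3, e3] at p3
      rw [hP 0, hP 1, hP 2, hP 3, e0, e1, e2, e3]
      have := cyc4 (c 3).2 (c 2).2 (c 1).2 (c 0).2 n2.symm n1.symm p2 p1 p0 p3
      omega

lemma out_sum (x : Bool × Fin 7) : 21 ≤ ∑ y, P x y := by
  obtain ⟨a, u⟩ := x
  rw [Fintype.sum_prod_type]
  simp only [Fintype.sum_bool]
  cases a
  · have : ∑ v : Fin 7, P (false, u) (true, v) = 147 := by simp [P]
    omega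
  · have : ∑ v : Fin 7, P (true, u) (true, v) = 21 := W_out u
    omega

lemma in_sum (x : Bool × Fin 7) : 21 ≤ ∑ y, P y x := by
  obtain ⟨a, u⟩ := x
  rw [Fintype.sum_prod_type]
  simp only [Fintype.sum_bool]
  cases a
  · have : ∑ v : Fin 7, P (false, v) (false, u) = 21 := W_out u
    omega
  · have : ∑ v : Fin 7, P (false, v) (true, u) = 147 := by simp [P]
    omega

/-- The negation of the preceding statement: In every finite nonempty loopless digraph with arc weights in [0,1] where each vertex has total out-weight at least 1 and total in-weight at least 1, some directed cycle has total weight at least 1. -/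
theorem result :
    ¬ (∀ (V : Type) [Fintype V] [Nonempty V] (G : Digraph V) (p : V → V → ℝ),
      (∀ v, ¬ G.Adj v v) →
      (∀ u v, 0 ≤ p u v ∧ p u v ≤ 1) →
      (∀ u v, ¬ G.Adj u v → p u v = 0) →
      (∀ u, 1 ≤ ∑ v, p u v) →
      (∀ u, 1 ≤ ∑ v, p v u) →
      ∃ (k : ℕ) (c : Fin (k + 2) → V),
        Function.Injective c ∧
        (∀ i, G.Adj (c i) (c (i + 1))) ∧
        1 ≤ ∑ i, p (c i) (c (i + 1))) := by
  intro hall
  obtain ⟨k, c, hc, hadj, hsum⟩ := hall (Bool × Fin 7) ⟨fun x y => 0 < P x y⟩
    (fun x y => (P x y : ℝ) / 21)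
    (by
      rintro ⟨a, u⟩
      cases a <;> revert u <;> decide)
    (by
      intro u v
      constructor
      · positivity
      · rw [div_le_one (by norm_num)]
        exact_mod_cast P_le u v)
    (by
      intro u v huv
      have h0 : P u v = 0 := by
        by_contra hne
        exact huv (Nat.pos_of_ne_zero hne)
      simp [h0])
    (by
      intro u
      rw [← Finset.sum_div, le_div_iff₀ (by norm_num), one_mul]
      exact_mod_cast out_sum u)
    (by
      intro u
      rw [← Finset.sum_div, le_div_iff₀ (by norm_num), one_mul]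
      exact_mod_cast in_sum u)
  have h1 := main_cycle k c hc hadj
  rw [← Finset.sum_div, le_div_iff₀ (by norm_num), one_mul] at hsum
  have h2 : (21 : ℕ) ≤ ∑ i, P (c i) (c (i + 1)) := by exact_mod_cast hsum
  omega

end Pool.Agent.S07056
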