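import Pool.Statements.S07114
-- import your own Pool.Agent.* helpers here

set_option autoImplicit false
open Filter Topology
open Pool Pool.MP_0b90e2_co

namespace Pool.Agent.S07114

open Classical in
/-- Edge colouring: cross pairs coloured freely, inner pairs coloured 0. -/
noncomputable def col (m : ℕ) (g : Fin m × Fin m → Fin 25)
    (e : {e : Sym2 (Fin (m + m)) // ¬ e.IsDiag}) : Fin 25 :=
  if h : ∃ p : Fin m × Fin m, e.1 = s(Fin.castAdd m p.1, Fin.natAdd m p.2) then g h.choose else 0

lemma cross_inj {m : ℕ} {p q : Fin m × Fin m}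
    (h : s(Fin.castAdd m p.1, Fin.natAdd m p.2) = s(Fin.castAdd m q.1, Fin.natAdd m q.2)) :
    p = q := by
  rw [Sym2.eq_iff] at h
  rcases h with ⟨h1, h2⟩ | ⟨h1, h2⟩
  · ext
    · have := congrArg Fin.val h1; simpa using this
    · have := congrArg Fin.val h2; simpa using this
  · exfalso
    have h3 := congrArg Fin.val h1
    have := p.1.2
    simp at h3
    omega

lemma cross_not_diag {m : ℕ} (p : Fin m × Fin m) :
    ¬ (s(Fin.castAdd m p.1, Fin.natAdd m p.2) : Sym2 (Fin (m + m))).IsDiag := by
  rw [Sym2.mk_isDiag_iff]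
  intro h
  have h3 := congrArg Fin.val h
  have := p.1.2
  simp at h3
  omega

lemma col_cross {m : ℕ} (g : Fin m × Fin m → Fin 25) (p : Fin m × Fin m) :
    col m g ⟨s(Fin.castAdd m p.1, Fin.natAdd m p.2), cross_not_diag p⟩ = g p := by
  have h : ∃ q : Fin m × Fin m,
      (s(Fin.castAdd m p.1, Fin.natAdd m p.2) : Sym2 (Fin (m + m)))
        = s(Fin.castAdd m q.1, Fin.natAdd m q.2) := ⟨p, rfl⟩
  unfold col
  rw [dif_pos h]
  congr 1
  exact (cross_inj h.choose_spec).symm

lemma col_good {m : ℕ} (g : Fin m × Fin m → Fin 25) (S : Finset (Fin (m + m))) (hS : S.card = 4) :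
    ((Finset.univ.filter
      (fun e : {e : Sym2 (Fin (m + m)) // ¬ e.IsDiag} => e.1 ∈ S.sym2)).image (col m g)).card < 6 := by
  classical
  set F := Finset.univ.filter
      (fun e : {e : Sym2 (Fin (m + m)) // ¬ e.IsDiag} => e.1 ∈ S.sym2) with hF
  let cr : {e : Sym2 (Fin (m + m)) // ¬ e.IsDiag} → Prop :=
    fun e => ∃ p : Fin m × Fin m, e.1 = s(Fin.castAdd m p.1, Fin.natAdd m p.2)
  have h1 : F.image (col m g) ⊆ insert 0 ((F.filter cr).image (col m g)) := by
    intro x hx
    rw [Finset.mem_image] at hx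
    obtain ⟨e, he, rfl⟩ := hx
    by_cases hc : cr e
    · exact Finset.mem_insert_of_mem (Finset.mem_image_of_mem _ (Finset.mem_filter.mpr ⟨he, hc⟩))
    · have : col m g e = 0 := by
        unfold col
        rw [dif_neg hc]
      rw [this]
      exact Finset.mem_insert_self _ _
  set A := S.filter (fun v => v.val < m) with hA
  set B := S.filter (fun v => ¬ v.val < m) with hB
  have hAB : A.card + B.card = 4 := by
    rw [hA, hB, Finset.card_filter_add_card_filter_not, hS]
  have h2 : (F.filter cr).card ≤ A.card * B.card := by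
    rw [← Finset.card_product, ← Finset.card_image_of_injective (F.filter cr) Subtype.val_injective]
    refine le_trans (Finset.card_le_card ?_)
      (Finset.card_image_le (s := A ×ˢ B) (f := fun p => s(p.1, p.2)))
    intro x hx
    rw [Finset.mem_image] at hx
    obtain ⟨e, he, rfl⟩ := hx
    rw [Finset.mem_filter] at he
    obtain ⟨he1, p, hp⟩ := he
    rw [hF, Finset.mem_filter] at he1
    have he2 := he1.2
    rw [hp, Finset.mk_mem_sym2_iff] at he2
    rw [Finset.mem_image]
    refine ⟨(Fin.castAdd m p.1, Fin.natAdd m p.2), ?_, hp.symm⟩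
    rw [Finset.mem_product]
    constructor
    · rw [hA, Finset.mem_filter]
      exact ⟨he2.1, by simp⟩
    · rw [hB, Finset.mem_filter]
      exact ⟨he2.2, by simp⟩
  have h3 : A.card * B.card ≤ 4 := by
    have hb : B.card = 4 - A.card := by omega
    have ha : A.card ≤ 4 := by omega
    rw [hb]
    interval_cases A.card <;> simp
  calc (F.image (col m g)).card ≤ (insert 0 ((F.filter cr).image (col m g))).card :=
        Finset.card_le_card h1
    _ ≤ ((F.filter cr).image (col m g)).card + 1 := Finset.card_insert_le _ _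
    _ ≤ (F.filter cr).card + 1 := by
        have := Finset.card_image_le (s := F.filter cr) (f := col m g)
        omega
    _ < 6 := by omega

/-- The negation of the preceding statement: For all k≥3, 3≤s≤C(k,2), r≥s: the number of r-colorings of the edges of K_n in which every k-vertex set spans fewer than s colors, divided by C(r,s-1)·(s-1)^{C(n,2)}, tends to 1 as n→∞. -/
theorem result :
    ¬ (∀ k s r : ℕ, 3 ≤ k → 3 ≤ s → s ≤ k.choose 2 → s ≤ r →
      Tendsto
        (fun n : ℕ =>
          (Nat.card {c : {e : Sym2 (Fin n) // ¬ e.IsDiag} → Fin r //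
              ∀ S : Finset (Fin n), S.card = k →
                ((Finset.univ.filter
                    (fun e : {e : Sym2 (Fin n) // ¬ e.IsDiag} => e.1 ∈ S.sym2)).image c).card < s} : ℝ)
            / ((r.choose (s - 1) : ℝ) * ((s : ℝ) - 1) ^ (n.choose 2)))
        atTop (𝓝 1)) := by
  intro H
  have h0 := H 4 6 25 (by norm_num) (by norm_num) (by decide) (by norm_num)
  -- eventually the value is < 2
  have h1 := h0.eventually (gt_mem_nhds (show (1 : ℝ) < 2 by norm_num))
  rw [eventually_atTop] at h1
  obtain ⟨N, hN⟩ := h1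
  set m := max N 8 with hm
  have hmN : N ≤ m + m := by
    have := le_max_left N 8
    omega
  have hm8 : 8 ≤ m := le_max_right N 8
  have h2 := hN (m + m) hmN
  have hcard : (25 : ℝ) ^ (m * m) ≤
      (Nat.card {c : {e : Sym2 (Fin (m + m)) // ¬ e.IsDiag} → Fin 25 //
              ∀ S : Finset (Fin (m + m)), S.card = 4 →
                ((Finset.univ.filter
                    (fun e : {e : Sym2 (Fin (m + m)) // ¬ e.IsDiag} => e.1 ∈ S.sym2)).image c).card < 6} : ℝ) := by
    have h3 : Nat.card (Fin m × Fin m → Fin 25) ≤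
      Nat.card {c : {e : Sym2 (Fin (m + m)) // ¬ e.IsDiag} → Fin 25 //
              ∀ S : Finset (Fin (m + m)), S.card = 4 →
                ((Finset.univ.filter
                    (fun e : {e : Sym2 (Fin (m + m)) // ¬ e.IsDiag} => e.1 ∈ S.sym2)).image c).card < 6} := by
      refine Nat.card_le_card_of_injective
        (fun g => ⟨col m g, fun S hS => ?_⟩) ?_
      · convert col_good g S hS
      · intro g g' hgg
        have h4 : col m g = col m g' := congrArg Subtype.val hgg
        funext p
        rw [← col_cross g p, ← col_cross g' p, h4]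
    have h5 : Nat.card (Fin m × Fin m → Fin 25) = 25 ^ (m * m) := by
      simp [Nat.card_eq_fintype_card]
    rw [h5] at h3
    exact_mod_cast h3
  have hch : (m + m).choose 2 + m = 2 * (m * m) := by
    rw [Nat.choose_two_right]
    have h6 : (m + m) * (m + m - 1) = 2 * (m * (m + m - 1)) := by ring
    rw [h6, Nat.mul_div_cancel_left _ (by norm_num)]
    obtain ⟨j, hj⟩ : ∃ j, m = j + 1 := ⟨m - 1, by omega⟩
    rw [hj]
    have : j + 1 + (j + 1) - 1 = 2 * j + 1 := by omega
    rw [this]
    ring
  have hpow : (25 : ℝ) ^ (m * m) = (5 : ℝ) ^ ((m + m).choose 2) * 5 ^ m := by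
    rw [← pow_add, hch, show (25 : ℝ) = 5 ^ 2 by norm_num, ← pow_mul]
  have hchoose : ((25 : ℕ).choose (6 - 1) : ℝ) = 53130 := by
    norm_num [Nat.choose]
  have h5m : (390625 : ℝ) ≤ 5 ^ m := by
    calc (390625 : ℝ) = 5 ^ 8 := by norm_num
      _ ≤ 5 ^ m := pow_le_pow_right₀ (by norm_num) hm8
  have hpos : (0 : ℝ) < (5 : ℝ) ^ ((m + m).choose 2) := by positivity
  have hs : ((6 : ℕ) : ℝ) - 1 = 5 := by norm_num
  rw [hchoose, hs, div_lt_iff₀ (by positivity)] at h2
  have h7 : (5 : ℝ) ^ ((m + m).choose 2) * 5 ^ m < 2 * (53130 * 5 ^ ((m + m).choose 2)) :=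
    lt_of_le_of_lt (by rw [← hpow]; exact hcard) h2
  nlinarith

end Pool.Agent.S07114
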