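import Pool.Statements.S07160
-- import your own Pool.Agent.* helpers here

set_option autoImplicit false
open Pool Pool.MP_0cd801_co

namespace Pool.Agent.S07160

/-- Out-neighbours of a 3-diregular oriented graph on 13 vertices without a Hamilton cycle. -/
def out (v : Fin 13) : List (Fin 13) :=
  match v with
  | 0 => [7, 9, 11]
  | 1 => [0, 10, 12]
  | 2 => [1, 6, 7]
  | 3 => [5, 6, 9]
  | 4 => [2, 3, 10]
  | 5 => [4, 8, 10]
  | 6 => [1, 5, 11]
  | 7 => [1, 4, 9]
  | 8 => [3, 6, 11]
  | 9 => [2, 8, 12]
  | 10 => [0, 3, 8]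
  | 11 => [5, 7, 12]
  | 12 => [0, 2, 4]

/-- Exhaustive search: can a path that ends in `v` and has used the vertices `vis` be continued by
`k` further new vertices such that the last vertex has an arc to `0`? -/
def srch : ℕ → Fin 13 → List (Fin 13) → Bool
  | 0, v, _ => (out v).contains 0
  | k + 1, v, vis => (out v).any (fun w => !(vis.contains w) && srch k w (w :: vis))

theorem srch_false : srch 12 0 [0] = false := by decide +kernel

theorem srch_true (p : ℕ → Fin 13) (hp13 : p 13 = 0)
    (harc : ∀ i, p (i + 1) ∈ out (p i))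
    (hinj : ∀ i j, i ≤ 12 → j ≤ 12 → p i = p j → i = j) :
    ∀ k i, i + k = 12 → ∀ vis : List (Fin 13), (∀ x ∈ vis, ∃ j, j ≤ i ∧ p j = x) →
      srch k (p i) vis = true := by
  intro k
  induction k with
  | zero =>
    intro i hi vis _
    have h := harc i
    have hi' : i = 12 := by omega
    subst hi'
    rw [hp13] at h
    simpa [srch] using h
  | succ k ih =>
    intro i hi vis hvis
    have h := harc i
    have hnew : p (i + 1) ∉ vis := by
      intro hmem
      obtain ⟨j, hj, hjx⟩ := hvis _ hmem
      have := hinj j (i + 1) (by omega) (by omega) hjx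
      omega
    have hrec := ih (i + 1) (by omega) (p (i + 1) :: vis) (by
      intro x hx
      rcases List.mem_cons.1 hx with hx | hx
      · exact ⟨i + 1, le_refl _, hx.symm⟩
      · obtain ⟨j, hj, hjx⟩ := hvis x hx
        exact ⟨j, by omega, hjx⟩)
    simp only [srch, List.any_eq_true]
    refine ⟨p (i + 1), h, ?_⟩
    simp only [Bool.and_eq_true, Bool.not_eq_true']
    refine ⟨?_, hrec⟩
    simpa using hnew

/-- The negation of the preceding statement: For every d > 2 and n ≤ 4d+1, every oriented graph on n vertices in which each vertex has in-degree d and out-degree d has a directed Hamilton cycle, i.e. a cyclic ordering of all n vertices with an arc from each vertex to the next. -/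
theorem result :
    ¬ (∀ (d n : ℕ), 2 < d → n ≤ 4 * d + 1 →
      ∀ G : Digraph (Fin n),
        (∀ u v : Fin n, G.Adj u v → ¬ G.Adj v u) →
        (∀ v : Fin n, Set.ncard {u : Fin n | G.Adj v u} = d) →
        (∀ v : Fin n, Set.ncard {u : Fin n | G.Adj u v} = d) →
        ∃ f : Fin n → Fin n, Function.Bijective f ∧
          ∀ i j : Fin n, j.val = (i.val + 1) % n → G.Adj (f i) (f j)) := by
  intro H
  obtain ⟨f, ⟨finj, fsurj⟩, harc⟩ := H 3 13 (by norm_num) (by norm_num)
    ⟨fun u v => v ∈ out u⟩
    (by decide +kernel)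
    (by
      intro v
      rw [Set.ncard_eq_toFinset_card']
      revert v
      decide +kernel)
    (by
      intro v
      rw [Set.ncard_eq_toFinset_card']
      revert v
      decide +kernel)
  obtain ⟨i0, hi0⟩ := fsurj 0
  let p : ℕ → Fin 13 := fun j => f ⟨(j + i0.val) % 13, Nat.mod_lt _ (by norm_num)⟩
  have hp0 : p 0 = 0 := by
    have : (⟨(0 + i0.val) % 13, Nat.mod_lt _ (by norm_num)⟩ : Fin 13) = i0 := by
      apply Fin.ext
      have := i0.isLt
      simp only
      omega
    show f _ = 0
    rw [this]
    exact hi0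
  have hp13 : p 13 = 0 := by
    have : (⟨(13 + i0.val) % 13, Nat.mod_lt _ (by norm_num)⟩ : Fin 13) = i0 := by
      apply Fin.ext
      have := i0.isLt
      simp only
      omega
    show f _ = 0
    rw [this]
    exact hi0
  have harc' : ∀ i, p (i + 1) ∈ out (p i) := by
    intro i
    exact harc ⟨(i + i0.val) % 13, Nat.mod_lt _ (by norm_num)⟩
      ⟨(i + 1 + i0.val) % 13, Nat.mod_lt _ (by norm_num)⟩ (by simp only; omega)
  have hinj' : ∀ i j, i ≤ 12 → j ≤ 12 → p i = p j → i = j := by
    intro i j hi hj hij
    have h := finj hij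
    have h2 := congrArg Fin.val h
    simp only at h2
    have := i0.isLt
    omega
  have h1 := srch_true p hp13 harc' hinj' 12 0 (by norm_num) [0] (by
    intro x hx
    rw [List.mem_singleton] at hx
    exact ⟨0, le_refl _, by rw [hp0, hx]⟩)
  rw [hp0, srch_false] at h1
  exact Bool.noConfusion h1

end Pool.Agent.S07160
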