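import Pool.Statements.S07181
import Pool.Agent.Y302.EG.Ros

set_option autoImplicit false
open Pool Pool.MP_0dd31c_co

namespace Pool.Agent.S07181

open Finset

/-- the colour of position `j` when the pairs are coloured by `c` -/
def pc (c : ℕ → Bool) (j : ℕ) : Bool := xor (c (j / 2)) (decide (j % 2 = 1))

theorem pc_even (c : ℕ → Bool) (m : ℕ) : pc c (2 * m) = c m := by
  unfold pc
  have h1 : 2 * m / 2 = m := by omega
  have h2 : 2 * m % 2 = 0 := by omega
  simp [h1]

theorem pc_odd (c : ℕ → Bool) (m : ℕ) : pc c (2 * m + 1) = !(c m) := by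
  unfold pc
  have h1 : (2 * m + 1) / 2 = m := by omega
  have h2 : (2 * m + 1) % 2 = 1 := by omega
  simp [h1]

theorem half_even (c : ℕ → Bool) (b : Bool) (m : ℕ) :
    ((range (2 * m)).filter (fun j => pc c j = b)).card = m := by
  induction m with
  | zero => simp
  | succ m ih =>
    have h : 2 * (m + 1) = 2 * m + 1 + 1 := by ring
    rw [h, range_add_one, filter_insert, range_add_one, filter_insert, pc_even, pc_odd]
    have n1 : 2 * m ∉ (range (2 * m)).filter (fun j => pc c j = b) := by simp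
    have n2 : 2 * m + 1 ∉ (range (2 * m)).filter (fun j => pc c j = b) := by simp
    cases hc : c m <;> cases b <;> simp [card_insert_of_notMem, ih]

theorem half (c : ℕ → Bool) (k : ℕ) :
    ∃ b : Bool, ((range k).filter (fun j => pc c j = b)).card = k / 2 := by
  rcases Nat.even_or_odd' k with ⟨m, rfl | rfl⟩
  · exact ⟨true, by rw [half_even]; omega⟩
  · refine ⟨!(c m), ?_⟩
    rw [range_add_one, filter_insert, pc_even]
    have : ¬ (c m = !(c m)) := by cases c m <;> simp
    rw [if_neg this, half_even]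
    omega

theorem numeric (c : ℝ) (h1 : 1 < c) (h2 : c < 2) :
    ∃ n₀ : ℕ, 1 ≤ n₀ ∧ ∀ n : ℕ, n₀ ≤ n →
      4 * c ^ n * (((c + 2) / 2)⁻¹) ^ (n - 1) ≤ 2 - (c + 2) / 2 := by
  set β : ℝ := (c + 2) / 2 with hβ
  have hβ0 : 0 < β := by rw [hβ]; linarith
  have hcβ : c < β := by rw [hβ]; linarith
  have hβ2 : β < 2 := by rw [hβ]; linarith
  have hr0 : 0 ≤ c / β := by positivity
  have hr1 : c / β < 1 := by rw [div_lt_one hβ0]; exact hcβ
  have ht := tendsto_pow_atTop_nhds_zero_of_lt_one hr0 hr1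
  have hε : 0 < (2 - β) / (4 * β) := by
    apply div_pos <;> linarith
  have hev := (ht.eventually (gt_mem_nhds hε)).exists_forall_of_atTop
  obtain ⟨N, hN⟩ := hev
  refine ⟨max N 1, le_max_right _ _, ?_⟩
  intro n hn
  have hnN : N ≤ n := le_trans (le_max_left _ _) hn
  have hn1 : 1 ≤ n := le_trans (le_max_right _ _) hn
  have h := hN n hnN
  have e1 : (β⁻¹) ^ (n - 1) = β * (β⁻¹) ^ n := by
    obtain ⟨m, rfl⟩ : ∃ m, n = m + 1 := ⟨n - 1, by omega⟩
    rw [Nat.add_sub_cancel, pow_succ]
    field_simp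
  rw [e1]
  have e2 : 4 * c ^ n * (β * (β⁻¹) ^ n) = 4 * β * (c / β) ^ n := by
    rw [div_eq_mul_inv, mul_pow]
    ring
  rw [e2]
  have h4 : 0 < 4 * β := by linarith
  rw [lt_div_iff₀ h4] at h
  linarith

/-- For every c in (1,2) there is n0 such that for n ≥ n0 every n-uniform finite hypergraph with all degrees at most c^n has a red set of exactly half (floor) of its vertices such that no edge is all red or all blue. -/
theorem result :
    ∀ c : ℝ, 1 < c → c < 2 →
      ∃ n₀ : ℕ, ∀ n : ℕ, n₀ ≤ n →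
        ∀ F : Finset (Finset ℕ),
          (∀ A ∈ F, A.card = n) →
          (∀ v : ℕ, ((F.filter (fun A => v ∈ A)).card : ℝ) ≤ c ^ n) →
          ∃ R : Finset ℕ, R ⊆ F.biUnion id ∧
            R.card = (F.biUnion id).card / 2 ∧
            ∀ A ∈ F, (A ∩ R).Nonempty ∧ ¬ A ⊆ R := by
  intro c h1 h2
  obtain ⟨n₀, hn₀1, hn₀⟩ := numeric c h1 h2
  refine ⟨n₀, ?_⟩
  intro n hn F hF hdeg
  classical
  obtain ⟨V, hV⟩ : ∃ V : Finset ℕ, V = F.biUnion id := ⟨_, rfl⟩
  rw [← hV]
  have hAV : ∀ A ∈ F, A ⊆ V := by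
    intro A hA v hv
    rw [hV, mem_biUnion]
    exact ⟨A, hA, hv⟩
  obtain ⟨k, hk⟩ : ∃ k, k = V.card := ⟨_, rfl⟩
  -- a bijection between `V` and `range k`
  obtain ⟨idx, vert, hidx, hvert, hvi, hiv⟩ : ∃ (idx vert : ℕ → ℕ),
      (∀ v ∈ V, idx v < k) ∧ (∀ j < k, vert j ∈ V) ∧ (∀ v ∈ V, vert (idx v) = v) ∧
      (∀ j < k, idx (vert j) = j) := by
    have e : V ≃ Fin k := V.equivFinOfCardEq hk.symm
    refine ⟨fun v => if h : v ∈ V then (e ⟨v, h⟩).1 else 0,
      fun j => if h : j < k then (e.symm ⟨j, h⟩).1 else 0, ?_, ?_, ?_, ?_⟩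
    · intro v hv; simp [hv]
    · intro j hj; simp [hj]
    · intro v hv; simp [hv]
    · intro j hj; simp [hj]
  -- pairs touched by a hyperedge
  let pr : ℕ → Fin (k + 1) := fun v => if h : idx v / 2 < k + 1 then ⟨idx v / 2, h⟩ else 0
  have hpr : ∀ v ∈ V, (pr v).1 = idx v / 2 := by
    intro v hv
    have h : idx v / 2 < k + 1 := by have := hidx v hv; omega
    simp only [pr, dif_pos h]
  let ext : (Fin (k + 1) → Bool) → ℕ → Bool := fun c i => if h : i < k + 1 then c ⟨i, h⟩ else false
  let colr : (Fin (k + 1) → Bool) → ℕ → Bool := fun c v => pc (ext c) (idx v)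
  have hcolr : ∀ c, ∀ v ∈ V, colr c v = xor (c (pr v)) (decide (idx v % 2 = 1)) := by
    intro c v hv
    have h : idx v / 2 < k + 1 := by have := hidx v hv; omega
    simp only [colr, pc, ext, pr, dif_pos h]
  let T : Finset ℕ → Finset (Fin (k + 1)) := fun A => A.image pr
  -- Rosenfeld
  have hβ1 : (1 : ℝ) ≤ (c + 2) / 2 := by linarith
  have hβ0 : (0 : ℝ) < (c + 2) / 2 := by linarith
  haveI instB : Fintype {A : Finset ℕ // A ∈ F ∧ (T A).card = n} :=
    Fintype.subtype (F.filter (fun A => (T A).card = n)) (by intro A; simp)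
  have hav : Pool.Agent.Y269.EG.Avoidable ((c + 2) / 2) (2 - (c + 2) / 2)
      (fun x : Fin (k + 1) → Bool => ∀ A ∈ F, (T A).card = n →
        ∀ b : Bool, ∃ v ∈ A, colr x v ≠ b) := by
    refine ⟨{A : Finset ℕ // A ∈ F ∧ (T A).card = n}, fun A => T A.1,
      fun A x => ∃ b : Bool, ∀ v ∈ A.1, colr x v = b,
      fun e => {p : {A : Finset ℕ // A ∈ F ∧ (T A).card = n} × Bool // e ∈ T p.1.1},
      fun e => inferInstance, fun e κ => T κ.1.1.1, fun e κ x => ∀ v ∈ κ.1.1.1, colr x v = κ.1.2,
      ?_, ?_, ?_, ?_, ?_, ?_, ?_⟩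
    · rintro ⟨A, hA, hAn⟩
      rw [← card_pos, hAn]
      omega
    · rintro ⟨A, hA, hAn⟩ x x' hx ⟨b, hb⟩
      refine ⟨b, ?_⟩
      intro v hv
      have hvV := hAV A hA hv
      rw [hcolr _ v hvV, ← hx (pr v) (mem_image_of_mem _ hv), ← hcolr _ v hvV]
      exact hb v hv
    · rintro e ⟨κ, hκ⟩
      exact hκ
    · rintro A e x he ⟨b, hb⟩
      exact ⟨⟨(A, b), he⟩, Subset.refl _, hb⟩
    · rintro e ⟨⟨⟨A, hA, hAn⟩, b⟩, hκ⟩ x x' hx hx' hout
      funext i
      by_cases hi : i ∈ T A
      · obtain ⟨v, hv, rfl⟩ := mem_image.mp hi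
        have hvV := hAV A hA hv
        have e1 := hx v hv
        have e2 := hx' v hv
        simp only at e1 e2
        rw [hcolr _ v hvV] at e1 e2
        revert e1 e2
        cases x (pr v) <;> cases x' (pr v) <;> cases b <;> cases decide (idx v % 2 = 1) <;> simp
      · exact hout i hi
    · intro e
      have hcard : (Fintype.card {p : {A : Finset ℕ // A ∈ F ∧ (T A).card = n} × Bool //
          e ∈ T p.1.1} : ℝ) ≤ 4 * c ^ n := by
        have hS : Fintype.card {p : {A : Finset ℕ // A ∈ F ∧ (T A).card = n} × Bool //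
            e ∈ T p.1.1} ≤ ((F.filter (fun A => vert (2 * e.1) ∈ A) ∪
              F.filter (fun A => vert (2 * e.1 + 1) ∈ A)) ×ˢ (univ : Finset Bool)).card := by
          rw [← card_univ]
          apply card_le_card_of_injOn (fun κ => (κ.1.1.1, κ.1.2))
          · rintro ⟨⟨⟨A, hA, hAn⟩, b⟩, hκ⟩ _
            simp only [coe_product, coe_univ, Set.mem_prod, Set.mem_univ, and_true,
              mem_coe, mem_union, mem_filter]
            obtain ⟨v, hv, hve⟩ := mem_image.mp hκ
            have hvV := hAV A hA hv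
            have hq : idx v / 2 = e.1 := by rw [← hpr v hvV, hve]
            have hor : idx v = 2 * e.1 ∨ idx v = 2 * e.1 + 1 := by omega
            rcases hor with h | h
            · left
              refine ⟨hA, ?_⟩
              rw [← h, hvi v hvV]
              exact hv
            · right
              refine ⟨hA, ?_⟩
              rw [← h, hvi v hvV]
              exact hv
          · rintro ⟨⟨⟨A, hA, hAn⟩, b⟩, hκ⟩ _ ⟨⟨⟨A', hA', hAn'⟩, b'⟩, hκ'⟩ _ heq
            simp only [Prod.mk.injEq] at heq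
            obtain ⟨rfl, rfl⟩ := heq
            rfl
        have h1' := hdeg (vert (2 * e.1))
        have h2' := hdeg (vert (2 * e.1 + 1))
        have h3 : (((F.filter (fun A => vert (2 * e.1) ∈ A) ∪
              F.filter (fun A => vert (2 * e.1 + 1) ∈ A)) ×ˢ (univ : Finset Bool)).card : ℝ) ≤
              4 * c ^ n := by
          rw [card_product, card_univ, Fintype.card_bool, Nat.cast_mul]
          have h4 : ((F.filter (fun A => vert (2 * e.1) ∈ A) ∪
              F.filter (fun A => vert (2 * e.1 + 1) ∈ A)).card : ℝ) ≤ c ^ n + c ^ n := by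
            have h5 := card_union_le (F.filter (fun A => vert (2 * e.1) ∈ A))
              (F.filter (fun A => vert (2 * e.1 + 1) ∈ A))
            have h6 : ((F.filter (fun A => vert (2 * e.1) ∈ A) ∪
              F.filter (fun A => vert (2 * e.1 + 1) ∈ A)).card : ℝ) ≤
              ((F.filter (fun A => vert (2 * e.1) ∈ A)).card : ℝ) +
              ((F.filter (fun A => vert (2 * e.1 + 1) ∈ A)).card : ℝ) := by exact_mod_cast h5
            linarith
          push_cast
          linarith
        exact le_trans (by exact_mod_cast hS) h3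
      have hsum : ∑ κ : {p : {A : Finset ℕ // A ∈ F ∧ (T A).card = n} × Bool // e ∈ T p.1.1},
          (((c + 2) / 2)⁻¹) ^ ((T κ.1.1.1).card - 1) =
          (Fintype.card {p : {A : Finset ℕ // A ∈ F ∧ (T A).card = n} × Bool //
          e ∈ T p.1.1} : ℝ) * (((c + 2) / 2)⁻¹) ^ (n - 1) := by
        rw [← card_univ, ← nsmul_eq_mul, ← sum_const]
        apply sum_congr rfl
        rintro ⟨⟨⟨A, hA, hAn⟩, b⟩, hκ⟩ _
        rw [hAn]
      rw [hsum]
      refine le_trans (mul_le_mul_of_nonneg_right hcard (by positivity)) ?_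
      exact hn₀ n hn
    · intro x hx A hA hAn b
      by_contra hcon
      push Not at hcon
      exact hx ⟨A, hA, hAn⟩ ⟨b, hcon⟩
  obtain ⟨x, hx⟩ := Pool.Agent.Y302.EG.rosenfeld hβ1 hav (by simp)
  obtain ⟨b, hb⟩ := half (ext x) k
  -- the red set
  have hnm : ∀ A ∈ F, ∀ b : Bool, ∃ v ∈ A, colr x v ≠ b := by
    intro A hA b
    by_cases hAn : (T A).card = n
    · exact hx A hA hAn b
    · have hlt : (A.image pr).card < A.card := by
        rw [hF A hA]
        exact lt_of_le_of_ne (hF A hA ▸ card_image_le) hAn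
      obtain ⟨v, hv, w, hw, hvw, hpvw⟩ := exists_ne_map_eq_of_card_lt_of_maps_to hlt
        (fun v hv => mem_image_of_mem pr hv)
      have hvV := hAV A hA hv
      have hwV := hAV A hA hw
      have hne : idx v ≠ idx w := fun h => hvw (by rw [← hvi v hvV, ← hvi w hwV, h])
      have hq : idx v / 2 = idx w / 2 := by rw [← hpr v hvV, ← hpr w hwV, hpvw]
      by_contra hcon
      push Not at hcon
      have e1 := hcon v hv
      have e2 := hcon w hw
      rw [hcolr _ v hvV] at e1
      rw [hcolr _ w hwV, ← hpvw] at e2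
      have hpar : (decide (idx v % 2 = 1)) ≠ (decide (idx w % 2 = 1)) := by
        intro h
        rw [decide_eq_decide] at h
        omega
      revert e1 e2 hpar
      generalize decide (idx v % 2 = 1) = p
      generalize decide (idx w % 2 = 1) = q
      cases x (pr v) <;> cases p <;> cases q <;> cases b <;> simp
  refine ⟨V.filter (fun v => colr x v = b), filter_subset _ _, ?_, ?_⟩
  · rw [← hk, ← hb]
    apply card_bij (fun v _ => idx v)
    · intro v hv
      rw [mem_filter] at hv ⊢
      exact ⟨mem_range.mpr (hidx v hv.1), hv.2⟩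
    · intro v hv w hw h
      rw [mem_filter] at hv hw
      rw [← hvi v hv.1, ← hvi w hw.1, h]
    · intro j hj
      rw [mem_filter, mem_range] at hj
      refine ⟨vert j, ?_, hiv j hj.1⟩
      rw [mem_filter]
      refine ⟨hvert j hj.1, ?_⟩
      simp only [colr]
      rw [hiv j hj.1]
      exact hj.2
  · intro A hA
    constructor
    · obtain ⟨v, hv, hvb⟩ := hnm A hA (!b)
      refine ⟨v, mem_inter.mpr ⟨hv, mem_filter.mpr ⟨hAV A hA hv, ?_⟩⟩⟩
      revert hvb
      cases colr x v <;> cases b <;> simp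
    · intro hsub
      obtain ⟨v, hv, hvb⟩ := hnm A hA b
      exact hvb (mem_filter.mp (hsub hv)).2

end Pool.Agent.S07181
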