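import Pool.Statements.S07316
import Pool.Agent.X80.QR.Chain
import Pool.Agent.X80.QR.Dense

set_option autoImplicit false
open Pool Pool.MP_150b74_co

namespace Pool.Agent.S07316

/-- growth: `2 ^ j` beats powers of `12 j + 11` -/
theorem growth (C D : ℝ) : ∃ j : ℕ, C * ((12 * j + 11 : ℕ) : ℝ) ^ D < 2 ^ j * Real.log 2 := by
  obtain ⟨d, hd⟩ := exists_nat_ge D
  have hlog : (0 : ℝ) < Real.log 2 := Real.log_pos (by norm_num)
  have ht := tendsto_pow_const_div_const_pow_of_one_lt d (r := (2 : ℝ)) (by norm_num)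
  have hpos : 0 < Real.log 2 / ((|C| + 1) * 23 ^ d) := by positivity
  have hev := (ht.eventually (gt_mem_nhds hpos)).and (Filter.eventually_ge_atTop 1)
  obtain ⟨j, hj, hj1⟩ := hev.exists
  refine ⟨j, ?_⟩
  have hj1' : (1 : ℝ) ≤ j := by exact_mod_cast hj1
  have h1 : ((12 * j + 11 : ℕ) : ℝ) ^ D ≤ (23 * (j : ℝ)) ^ d := by
    have e1 : (1 : ℝ) ≤ ((12 * j + 11 : ℕ) : ℝ) := by push_cast; linarith
    calc ((12 * j + 11 : ℕ) : ℝ) ^ D ≤ ((12 * j + 11 : ℕ) : ℝ) ^ (d : ℝ) :=
          Real.rpow_le_rpow_of_exponent_le e1 hd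
      _ = ((12 * j + 11 : ℕ) : ℝ) ^ d := Real.rpow_natCast _ _
      _ ≤ (23 * (j : ℝ)) ^ d := by
          apply pow_le_pow_left₀ (by positivity)
          push_cast
          linarith
  have h2 : C * ((12 * j + 11 : ℕ) : ℝ) ^ D ≤ (|C| + 1) * (23 * (j : ℝ)) ^ d := by
    have e0 : 0 ≤ ((12 * j + 11 : ℕ) : ℝ) ^ D := Real.rpow_nonneg (by positivity) _
    calc C * ((12 * j + 11 : ℕ) : ℝ) ^ D ≤ (|C| + 1) * ((12 * j + 11 : ℕ) : ℝ) ^ D := by
          apply mul_le_mul_of_nonneg_right _ e0
          linarith [le_abs_self C]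
      _ ≤ (|C| + 1) * (23 * (j : ℝ)) ^ d := by
          apply mul_le_mul_of_nonneg_left h1
          positivity
  refine lt_of_le_of_lt h2 ?_
  rw [div_lt_div_iff₀ (by positivity) (by positivity)] at hj
  rw [mul_pow]
  nlinarith

/-- The negation of the preceding statement: For r≥3, q≥2, ε>0 there is D such that for every ρ in [0,1]^q with sum below q−ε, some C gives, for all k≥1, an n with ln n ≤ C·k^D where every q-colouring of r-sets of [n] has an S of size ≥k and colour j with min colour-j degree in S ≥ ρ_j·C(∣S∣−1,r−1). -/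
theorem result :
    ¬ (∀ r q : ℕ, 3 ≤ r → 2 ≤ q → ∀ ε : ℝ, 0 < ε →
      ∃ D : ℝ, ∀ ρ : Fin q → ℝ, (∀ i, 0 ≤ ρ i ∧ ρ i ≤ 1) → ∑ i, ρ i < (q : ℝ) - ε →
        ∃ C : ℝ, ∀ k : ℕ, 1 ≤ k → ∃ n : ℕ, Real.log (n : ℝ) ≤ C * (k : ℝ) ^ D ∧
          ∀ φ : Finset (Fin n) → Fin q, ∃ S : Finset (Fin n), k ≤ S.card ∧ ∃ j : Fin q,
            ∀ v ∈ S, ρ j * (((S.card - 1).choose (r - 1) : ℕ) : ℝ) ≤
              (((S.powersetCard r).filter (fun e => v ∈ e ∧ φ e = j)).card : ℝ)) := by
  classical
  intro hall
  obtain ⟨D, hD⟩ := hall 4 2 (by norm_num) le_rfl (1 / 37) (by norm_num)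
  obtain ⟨C, hC⟩ := hD ![1, 35 / 36] (by
    intro i
    fin_cases i <;> norm_num) (by
    rw [Fin.sum_univ_two]
    norm_num)
  obtain ⟨j, hj⟩ := growth C D
  obtain ⟨n, hn, hφ⟩ := hC (12 * j + 11) (by omega)
  -- `n` is at most `2 ^ 2 ^ j`
  have hnle : n ≤ 2 ^ 2 ^ j := by
    by_contra hcon
    rw [not_le] at hcon
    have h1 : Real.log (((2 ^ 2 ^ j : ℕ) : ℝ)) ≤ Real.log (n : ℝ) := by
      apply Real.log_le_log (by positivity)
      exact_mod_cast hcon.le
    have h2 : Real.log (((2 ^ 2 ^ j : ℕ) : ℝ)) = 2 ^ j * Real.log 2 := by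
      push_cast
      rw [Real.log_pow]
      push_cast
      ring
    linarith
  obtain ⟨c, hc1, hc0⟩ := Pool.Agent.X80.QR.off_diagonal j
  obtain ⟨S, hS, i, hi⟩ := hφ fun e => if c (e.map Fin.valEmbedding) = true then 1 else 0
  have hsub : ∀ T : Finset (Fin n), T.map Fin.valEmbedding ⊆ Finset.range (2 ^ 2 ^ j) := by
    intro T y hy
    obtain ⟨x, -, rfl⟩ := Finset.mem_map.1 hy
    exact Finset.mem_range.2 (lt_of_lt_of_le x.2 hnle)
  -- subsets of the image are images
  have hpull : ∀ (T : Finset (Fin n)) (e : Finset ℕ), e ⊆ T.map Fin.valEmbedding →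
      ∃ e' ⊆ T, e'.map Fin.valEmbedding = e ∧ e'.card = e.card := by
    intro T e he
    have hde : (T.filter fun x : Fin n => (x : ℕ) ∈ e).map Fin.valEmbedding = e := by
      ext y
      simp only [Finset.mem_map, Finset.mem_filter, Fin.valEmbedding_apply]
      constructor
      · rintro ⟨x, hx, rfl⟩
        exact hx.2
      · intro hy
        obtain ⟨x, hx, rfl⟩ := Finset.mem_map.1 (he hy)
        exact ⟨x, ⟨hx, hy⟩, rfl⟩
    refine ⟨_, Finset.filter_subset _ _, hde, ?_⟩
    conv_rhs => rw [← hde]
    rw [Finset.card_map]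
  have hcases : i = 0 ∨ i = 1 := by
    fin_cases i
    · exact Or.inl rfl
    · exact Or.inr rfl
  rcases hcases with rfl | rfl
  · -- all quadruples of `S` have the colour `0`
    obtain ⟨T, hT, hTc⟩ := Finset.exists_subset_card_eq hS
    apply hc0 (T.map Fin.valEmbedding) (hsub T) (by rw [Finset.card_map, hTc])
    intro e he hek
    obtain ⟨e', he', hmap, hcard⟩ := hpull T e he
    rw [hek] at hcard
    obtain ⟨v, hv⟩ : e'.Nonempty := by
      rw [← Finset.card_pos, hcard]
      norm_num
    have h1 := hi v (hT (he' hv))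
    simp only [Matrix.cons_val_zero, one_mul] at h1
    have h2 : (S.card - 1).choose (4 - 1) ≤ ((S.powersetCard 4).filter (fun e => v ∈ e ∧
        (if c (e.map Fin.valEmbedding) = true then (1 : Fin 2) else 0) = 0)).card := by
      exact_mod_cast h1
    have h3 : ((S.powersetCard 4).filter (fun e => v ∈ e)).card = (S.card - 1).choose 3 := by
      have h4 : ((S.erase v).powersetCard 3).card = (S.card - 1).choose 3 := by
        rw [Finset.card_powersetCard, Finset.card_erase_of_mem (hT (he' hv))]
      rw [← h4]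
      apply Finset.card_bij (fun e _ => e.erase v)
      · intro e he
        rw [Finset.mem_filter, Finset.mem_powersetCard] at he
        rw [Finset.mem_powersetCard]
        exact ⟨Finset.erase_subset_erase v he.1.1, by
          rw [Finset.card_erase_of_mem he.2, he.1.2]⟩
      · intro e he e2 he2 heq
        rw [Finset.mem_filter] at he he2
        rw [← Finset.insert_erase he.2, ← Finset.insert_erase he2.2, heq]
      · intro e he
        rw [Finset.mem_powersetCard] at he
        have hve : v ∉ e := fun h => Finset.notMem_erase v S (he.1 h)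
        refine ⟨insert v e, ?_, Finset.erase_insert hve⟩
        rw [Finset.mem_filter, Finset.mem_powersetCard]
        refine ⟨⟨Finset.insert_subset (hT (he' hv)) (he.1.trans (Finset.erase_subset _ _)), ?_⟩,
          Finset.mem_insert_self _ _⟩
        rw [Finset.card_insert_of_notMem hve, he.2]
    have h4 : (S.powersetCard 4).filter (fun e => v ∈ e ∧
        (if c (e.map Fin.valEmbedding) = true then (1 : Fin 2) else 0) = 0) =
        (S.powersetCard 4).filter (fun e => v ∈ e) := by
      apply Finset.eq_of_subset_of_card_le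
      · intro e he
        rw [Finset.mem_filter] at he ⊢
        exact ⟨he.1, he.2.1⟩
      · rw [h3]
        exact h2
    have h5 : e' ∈ (S.powersetCard 4).filter (fun e => v ∈ e) := by
      rw [Finset.mem_filter, Finset.mem_powersetCard]
      exact ⟨⟨he'.trans hT, hcard⟩, hv⟩
    rw [← h4, Finset.mem_filter] at h5
    rw [← hmap]
    have h6 := h5.2.2
    by_cases hce : c (e'.map Fin.valEmbedding) = true
    · rw [if_pos hce] at h6
      exact absurd h6 (by decide)
    · simpa using hce
  · -- the quadruples of colour `1` are too dense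
    have hd := Pool.Agent.X80.QR.degree_density S
      (fun e => (if c (e.map Fin.valEmbedding) = true then (1 : Fin 2) else 0) = 1) (35 / 36)
      (by omega) (by
        intro v hv
        have := hi v hv
        simpa using this)
    have hf := Pool.Agent.X80.QR.few_missing S
      (fun e => (if c (e.map Fin.valEmbedding) = true then (1 : Fin 2) else 0) = 1) (by omega) (by
        intro T hT hTc
        by_contra hcon
        push Not at hcon
        apply hc1 (T.map Fin.valEmbedding) (hsub T) (by rw [Finset.card_map, hTc])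
        intro e he hek
        obtain ⟨e', he', hmap, hcard⟩ := hpull T e he
        have h1 := hcon e' he' (by rw [hcard, hek])
        rw [← hmap]
        by_contra hne
        rw [if_neg hne] at h1
        exact absurd h1 (by decide))
    have hsplit := Finset.card_filter_add_card_filter_not (s := S.powersetCard 4)
      (fun e => (if c (e.map Fin.valEmbedding) = true then (1 : Fin 2) else 0) = 1)
    rw [Finset.card_powersetCard] at hsplit
    have hpos : 0 < S.card.choose 4 := Nat.choose_pos (by omega)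
    have hposR : (0 : ℝ) < (S.card.choose 4 : ℕ) := by exact_mod_cast hpos
    have hsplitR : ((((S.powersetCard 4).filter (fun e =>
        (if c (e.map Fin.valEmbedding) = true then (1 : Fin 2) else 0) = 1)).card : ℕ) : ℝ) +
        ((((S.powersetCard 4).filter (fun e =>
        ¬ (if c (e.map Fin.valEmbedding) = true then (1 : Fin 2) else 0) = 1)).card : ℕ) : ℝ) =
        ((S.card.choose 4 : ℕ) : ℝ) := by exact_mod_cast hsplit
    have hfR : ((S.card.choose 4 : ℕ) : ℝ) ≤ 35 * ((((S.powersetCard 4).filter (fun e =>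
        ¬ (if c (e.map Fin.valEmbedding) = true then (1 : Fin 2) else 0) = 1)).card : ℕ) : ℝ) := by
      exact_mod_cast hf
    linarith

end Pool.Agent.S07316
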