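import Pool.Statements.S07487
import Pool.Agent.Results.MP_1cfd87_co.ZeroCriterion

set_option autoImplicit false
open Pool Pool.MP_1cfd87_co

namespace Pool.Agent.S07487

open SimpleGraph Filter Topology Pool.Agent.Helper539

theorem contained_iff {V W : Type*} (G : SimpleGraph V) (R : SimpleGraph W) :
    G ⊑ R ↔ ∃ f : V → W, Function.Injective f ∧ ∀ a b, G.Adj a b → R.Adj (f a) (f b) := by
  constructor
  · rintro ⟨⟨f, hf⟩⟩
    exact ⟨f, hf, fun a b h => f.map_adj h⟩
  · rintro ⟨f, hf, h⟩
    exact ⟨⟨⟨f, fun {a b} hab => h a b hab⟩, hf⟩⟩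

theorem matching_iff {m : ℕ} (t : ℕ) (F R : SimpleGraph (Fin m)) :
    matchingGraph t ⊑ (F \ R) ↔
      ∃ g : Fin t ⊕ Fin t → Fin m, Function.Injective g ∧
        ∀ i, F.Adj (g (Sum.inl i)) (g (Sum.inr i)) ∧
          ¬ R.Adj (g (Sum.inl i)) (g (Sum.inr i)) := by
  rw [contained_iff]
  constructor
  · rintro ⟨f, hf, h⟩
    refine ⟨Sum.elim (fun i => f (i, false)) (fun i => f (i, true)), ?_, ?_⟩
    · rintro (a | a) (b | b) hab
      · simp only [Sum.elim_inl] at hab
        have := hf hab
        simp only [Prod.mk.injEq, and_true] at this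
        rw [this]
      · simp only [Sum.elim_inl, Sum.elim_inr] at hab
        have := hf hab
        simp at this
      · simp only [Sum.elim_inl, Sum.elim_inr] at hab
        have := hf hab
        simp at this
      · simp only [Sum.elim_inr] at hab
        have := hf hab
        simp only [Prod.mk.injEq, and_true] at this
        rw [this]
    · intro i
      have := h (i, false) (i, true) ⟨rfl, by simp⟩
      rw [sdiff_adj] at this
      exact this
  · rintro ⟨g, hg, h⟩
    refine ⟨fun p => if p.2 then g (Sum.inr p.1) else g (Sum.inl p.1), ?_, ?_⟩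
    · rintro ⟨a, sa⟩ ⟨b, sb⟩ hab
      cases sa <;> cases sb
      · simp only [Bool.false_eq_true, ↓reduceIte] at hab
        have := hg hab
        simp only [Sum.inl.injEq] at this
        rw [this]
      · simp only [Bool.false_eq_true, ↓reduceIte] at hab
        have := hg hab
        simp at this
      · simp only [Bool.false_eq_true, ↓reduceIte] at hab
        have := hg hab
        simp at this
      · simp only [↓reduceIte] at hab
        have := hg hab
        simp only [Sum.inr.injEq] at this
        rw [this]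
    · rintro ⟨a, sa⟩ ⟨b, sb⟩ ⟨h1, h2⟩
      simp only at h1 h2
      subst h1
      cases sa <;> cases sb
      · exact absurd rfl h2
      · simp only [Bool.false_eq_true, ↓reduceIte, sdiff_adj]
        exact h a
      · simp only [Bool.false_eq_true, ↓reduceIte, sdiff_adj]
        exact ⟨(h a).1.symm, fun hh => (h a).2 hh.symm⟩
      · exact absurd rfl h2

/-- For any sequence of graphs without isolated vertices, with at least one edge, bounded max degree and vertex count tending to infinity, the limsup over t of the size Ramsey number of (G_n, tK_2) divided by t times ∣E(G_n)∣ tends to 0. -/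
theorem result :
  ∀ (k : ℕ → ℕ) (G : ∀ n, SimpleGraph (Fin (k n))),
    Filter.Tendsto k Filter.atTop Filter.atTop →
    (∃ D : ℕ, ∀ n v, ((G n).neighborSet v).ncard ≤ D) →
    (∀ n, ∃ v w, (G n).Adj v w) →
    (∀ n v, ∃ w, (G n).Adj v w) →
    ∀ ε : ℝ, 0 < ε → ∃ N : ℕ, ∀ n ≥ N, ∃ T : ℕ, ∀ t ≥ T,
      ((sInf {e : ℕ | ∃ (m : ℕ) (F : SimpleGraph (Fin m)), F.edgeSet.ncard = e ∧
          ∀ R : SimpleGraph (Fin m), R ≤ F →
            (∃ f : Fin (k n) → Fin m, Function.Injective f ∧
                ∀ a b, (G n).Adj a b → R.Adj (f a) (f b)) ∨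
            (∃ g : Fin t ⊕ Fin t → Fin m, Function.Injective g ∧
                ∀ i, F.Adj (g (Sum.inl i)) (g (Sum.inr i)) ∧
                  ¬ R.Adj (g (Sum.inl i)) (g (Sum.inr i)))} : ℕ) : ℝ)
        / ((t : ℝ) * (((G n).edgeSet.ncard : ℕ) : ℝ)) ≤ ε := by
  classical
  intro k G hk ⟨D, hD⟩ hedge hiso ε hε
  have hset : ∀ n t, ({e : ℕ | ∃ (m : ℕ) (F : SimpleGraph (Fin m)), F.edgeSet.ncard = e ∧
          ∀ R : SimpleGraph (Fin m), R ≤ F →
            (∃ f : Fin (k n) → Fin m, Function.Injective f ∧
                ∀ a b, (G n).Adj a b → R.Adj (f a) (f b)) ∨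
            (∃ g : Fin t ⊕ Fin t → Fin m, Function.Injective g ∧
                ∀ i, F.Adj (g (Sum.inl i)) (g (Sum.inr i)) ∧
                  ¬ R.Adj (g (Sum.inl i)) (g (Sum.inr i)))} : Set ℕ) =
      {e | ∃ (N : ℕ) (F : SimpleGraph (Fin N)), F.edgeSet.ncard = e ∧
        Arrows F (G n) (matchingGraph t)} := by
    intro n t
    ext e
    simp only [Set.mem_ofPred_eq, Arrows, contained_iff (G n), matching_iff]
  obtain ⟨ρ, hρ, hiff⟩ := Pool.Agent.Results.MP_1cfd87_co.ZeroCriterion.result
    (fun n => Fin (k n)) G (fun n => by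
      obtain ⟨v, w, h⟩ := hedge n
      exact ⟨s(v, w), h⟩) hiso
  -- number of edges
  have hcount : ∀ n, (k n : ℝ) ≤ 2 * ((G n).edgeSet.ncard : ℝ) := by
    intro n
    have h1 := (G n).sum_degrees_eq_twice_card_edges
    have h2 : (G n).edgeFinset.card = (G n).edgeSet.ncard := by
      rw [← Set.ncard_coe_finset]
      congr 1
      ext e
      simp
    have h3 : k n ≤ ∑ v, (G n).degree v := by
      calc k n = ∑ v : Fin (k n), 1 := by simp
        _ ≤ ∑ v, (G n).degree v := by
          refine Finset.sum_le_sum fun v _ => ?_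
          obtain ⟨w, hw⟩ := hiso n v
          rw [Nat.one_le_iff_ne_zero, ← Nat.pos_iff_ne_zero]
          rw [SimpleGraph.degree_pos_iff_exists_adj]
          exact ⟨w, hw⟩
    rw [h1, h2] at h3
    exact_mod_cast h3
  have hmax : ∀ n, (((G n).maxDegree : ℕ) : ℝ) ≤ D := by
    intro n
    have : (G n).maxDegree ≤ D := by
      refine SimpleGraph.maxDegree_le_of_forall_degree_le _ _ ?_
      intro v
      have h1 := hD n v
      rw [← SimpleGraph.card_neighborFinset_eq_degree, ← Set.ncard_coe_finset]
      refine le_trans (le_of_eq ?_) h1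
      congr 1
      ext w
      simp
    exact_mod_cast this
  have hlim : Tendsto (fun n => ((G n).maxDegree : ℝ) / (G n).edgeSet.ncard) atTop (𝓝 0) := by
    have hkR : Tendsto (fun n => (k n : ℝ)) atTop atTop := tendsto_natCast_atTop_atTop.comp hk
    have hlim2 : Tendsto (fun n => (2 * (D : ℝ)) / (k n : ℝ)) atTop (𝓝 0) :=
      hkR.const_div_atTop _
    refine squeeze_zero' (Eventually.of_forall fun n => by positivity) ?_ hlim2
    filter_upwards [hkR.eventually_gt_atTop 0] with n hn
    have h1 := hcount n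
    have h2 := hmax n
    have h3 : (0 : ℝ) < (G n).edgeSet.ncard := by linarith
    rw [div_le_div_iff₀ h3 hn]
    have h4 : (0 : ℝ) ≤ D := Nat.cast_nonneg _
    nlinarith
  have hρ0 := hiff.2 hlim
  obtain ⟨N, hN⟩ := ((tendsto_order.1 hρ0).2 ε hε).exists_forall_of_atTop
  refine ⟨N, fun n hn => ?_⟩
  obtain ⟨T, hT⟩ := ((tendsto_order.1 (hρ n)).2 ε (hN n hn)).exists_forall_of_atTop
  refine ⟨T, fun t ht => ?_⟩
  rw [hset n t]
  exact (hT t ht).le

end Pool.Agent.S07487
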