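import Pool.Statements.S07574
-- import your own Pool.Agent.* helpers here

set_option autoImplicit false
open Pool Pool.MP_1f8616_co

namespace Pool.Agent.S07574

/-- A chain in the disjoint sum of the chains `Fin (n + 1)` is finite. -/
theorem chain_finite {C : Set (Σ n : ℕ, Fin (n + 1))} (hC : IsChain (· ≤ ·) C) : C.Finite := by
  rcases C.eq_empty_or_nonempty with rfl | ⟨x, hx⟩
  · exact Set.finite_empty
  · have h : C ⊆ Set.range (fun i : Fin (x.1 + 1) => (⟨x.1, i⟩ : Σ n : ℕ, Fin (n + 1))) := by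
      intro y hy
      have h1 : y.1 = x.1 := by
        by_cases hxy : y = x
        · rw [hxy]
        · rcases hC hy hx hxy with h | h
          · exact (Sigma.le_def.1 h).1
          · exact (Sigma.le_def.1 h).1.symm
      obtain ⟨n, i⟩ := y
      simp only at h1
      subst h1
      exact ⟨i, rfl⟩
    exact (Set.finite_range _).subset h

/-- The negation of the preceding statement: Every countable poset with no saturated chain (or its reverse) that is an ω-indexed linear sum of infinite co-wellfounded chains has, for each k≥2, k disjoint chains and a partition into antichains where each antichain A meets at least min(∣A∣,k) chains. -/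
theorem result :
    ¬ (∀ (α : Type) [PartialOrder α] [Countable α],
    (¬ ∃ C : Set α, IsChain (· ≤ ·) C ∧
        (∀ x, x ∉ C → ∀ y ∈ C, ∀ z ∈ C, y < x → x < z → ¬ IsChain (· ≤ ·) (insert x C)) ∧
        ∃ f : α → ℕ,
          ((∀ x ∈ C, ∀ y ∈ C, x ≤ y → f x ≤ f y) ∧
            ∀ i : ℕ, Set.Infinite {x | x ∈ C ∧ f x = i} ∧
              ¬ ∃ s : ℕ → α, StrictMono s ∧ ∀ n, s n ∈ C ∧ f (s n) = i) ∨
          ((∀ x ∈ C, ∀ y ∈ C, x ≤ y → f y ≤ f x) ∧
            ∀ i : ℕ, Set.Infinite {x | x ∈ C ∧ f x = i} ∧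
              ¬ ∃ s : ℕ → α, StrictAnti s ∧ ∀ n, s n ∈ C ∧ f (s n) = i)) →
    ∀ k : ℕ, 2 ≤ k →
      ∃ C : Fin k → Set α, (∀ j, IsChain (· ≤ ·) (C j)) ∧
        Pairwise (fun i j => Disjoint (C i) (C j)) ∧
        ∃ g : α → ℕ, ∀ i : ℕ, IsAntichain (· ≤ ·) {x | g x = i} ∧
          min (Set.encard {x | g x = i}) (k : ℕ∞) ≤
            Set.encard {j : Fin k | (C j ∩ {x | g x = i}).Nonempty}) := by
  intro H
  obtain ⟨C, hC, -, g, hg⟩ := H (Σ n : ℕ, Fin (n + 1)) (by
    rintro ⟨C, hC, -, f, ⟨-, h⟩ | ⟨-, h⟩⟩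
    · exact (h 0).1 ((chain_finite hC).subset fun x hx => hx.1)
    · exact (h 0).1 ((chain_finite hC).subset fun x hx => hx.1)) 2 le_rfl
  have hfin : (⋃ j, C j).Finite := Set.finite_iUnion fun j => chain_finite (hC j)
  have hrange : Set.range g ⊆ g '' (⋃ j, C j) := by
    rintro _ ⟨x, rfl⟩
    have h1 : (1 : ℕ∞) ≤ min (Set.encard {y | g y = g x}) ((2 : ℕ) : ℕ∞) := by
      apply le_min
      · exact Set.one_le_encard_iff_nonempty.2 ⟨x, rfl⟩
      · norm_num
    obtain ⟨j, y, hy1, hy2⟩ := Set.one_le_encard_iff_nonempty.1 (h1.trans (hg (g x)).2)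
    exact ⟨y, Set.mem_iUnion.2 ⟨j, hy1⟩, hy2⟩
  have hrf : (Set.range g).Finite := (hfin.image g).subset hrange
  -- the chain with one more element than there are levels
  let n := (Set.range g).ncard
  have hinj : Function.Injective (fun i : Fin (n + 1) => g ⟨n, i⟩) := by
    intro i i' hii
    by_contra hne
    simp only at hii
    have h2 := (hg (g ⟨n, i'⟩)).1
    have hne' : (⟨n, i⟩ : Σ n : ℕ, Fin (n + 1)) ≠ ⟨n, i'⟩ := by
      intro h
      exact hne (by simpa using h)
    rcases le_total i i' with h | h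
    · exact h2 hii rfl hne' (Sigma.mk_le_mk_iff.2 h)
    · exact h2 rfl hii hne'.symm (Sigma.mk_le_mk_iff.2 h)
  have h3 : Set.range (fun i : Fin (n + 1) => g ⟨n, i⟩) ⊆ Set.range g := by
    rintro _ ⟨i, rfl⟩
    exact ⟨_, rfl⟩
  have h4 := Set.ncard_le_ncard h3 hrf
  rw [← Set.image_univ, Set.ncard_image_of_injective _ hinj, Set.ncard_univ, Nat.card_eq_fintype_card,
    Fintype.card_fin] at h4
  exact absurd h4 (Nat.not_succ_le_self n)

end Pool.Agent.S07574
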