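import Pool.Statements.S07874
import Pool.Agent.Results.MP_2d87f2_co.Blowup
-- import your own Pool.Agent.* helpers here

set_option autoImplicit false
open Pool Pool.MP_2d87f2_co

namespace Pool.Agent.S07874

open Pool.Agent.Results.MP_2d87f2_co.Blowup in
/-- The blown-up free group is infinite. -/
theorem infiniteW (m : ℕ) [NeZero m] : Infinite (W m) := by
  have h1 : Infinite F := by
    rw [← not_finite_iff_infinite]
    intro hf
    have h2 : Function.Injective (fun q : F × Bool => child q.1 q.2) := by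
      rintro ⟨v, b⟩ ⟨w, c⟩ h
      obtain ⟨rfl, rfl⟩ := child_injective _ _ _ _ h
      rfl
    have h3 := Nat.card_le_card_of_injective _ h2
    rw [Nat.card_prod] at h3
    have h4 : 0 < Nat.card F := Nat.card_pos
    have h5 : Nat.card Bool = 2 := by simp
    rw [h5] at h3
    omega
  infer_instance

open Pool.Agent.Results.MP_2d87f2_co.Blowup in
/-- The ordered-pair boundary dominates the edge boundary. -/
theorem boundary_pairs (m : ℕ) (A : Finset (W m)) :
    m * A.card ≤ Set.ncard {p : W m × W m | p.1 ∈ A ∧ p.2 ∉ A ∧ (gr m).Adj p.1 p.2} := by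
  refine (boundary_lower m A).trans ?_
  have hfin : {p : W m × W m | p.1 ∈ A ∧ p.2 ∉ A ∧ (gr m).Adj p.1 p.2}.Finite := by
    have h1 : (⋃ x ∈ A, (fun y => (x, y)) '' (gr m).neighborSet x).Finite :=
      Set.Finite.biUnion A.finite_toSet (fun x _ => (locFinite m x).image _)
    refine h1.subset ?_
    rintro ⟨x, y⟩ ⟨hx, -, hxy⟩
    rw [Set.mem_iUnion₂]
    exact ⟨x, hx, y, hxy, rfl⟩
  have himg : edgeBoundary (gr m) A ⊆
      (fun p : W m × W m => s(p.1, p.2)) ''
        {p : W m × W m | p.1 ∈ A ∧ p.2 ∉ A ∧ (gr m).Adj p.1 p.2} := by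
    rintro e ⟨he, u, hu, v, hv, rfl⟩
    exact ⟨(u, v), ⟨hu, hv, he⟩, rfl⟩
  exact (Set.ncard_le_ncard himg (hfin.image _)).trans (Set.ncard_image_le hfin)

open Pool.Agent.Results.MP_2d87f2_co.Blowup in
/-- The number of points of a net within distance `2k` of a point of the net is at most the size of
a ball of the free group. -/
theorem single_upper (m k : ℕ) [NeZero m] (hk : 2 ≤ k) (S : Set (W m))
    (hS : Separated (gr m) k S) (s : W m) (_hs : s ∈ S) :
    Set.ncard {p : W m × W m | p.1 ∈ ({s} : Finset (W m)) ∧ p.2 ∈ S ∧ p.2 ∉ ({s} : Finset (W m)) ∧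
      (gr m).dist p.1 p.2 ≤ 2 * k} ≤ ballCard (2 * k) := by
  have hsep : ∀ y ∈ S, ∀ y' ∈ S, y.1 = y'.1 → y = y' := by
    intro y hy y' hy' h
    by_contra hne
    have h1 := hS _ hy _ hy' hne
    have h2 : (gr m).Adj y y' := by
      rw [gr_adj]
      refine ⟨hne, ?_⟩
      rw [h]
      simp
    rw [SimpleGraph.dist_eq_one_iff_adj.2 h2] at h1
    omega
  refine Set.ncard_le_ncard_of_injOn (fun p => p.2.1 * s.1⁻¹) ?_ ?_ (ball_finite _)
  · rintro ⟨x, y⟩ ⟨hx, hy, -, hd⟩
    have hx' : x = s := Finset.mem_singleton.1 hx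
    subst hx'
    exact (norm_le_dist m _ _).trans hd
  · rintro ⟨x, y⟩ ⟨hx, hy, -, hd⟩ ⟨x', y'⟩ ⟨hx', hy', -, hd'⟩ h
    have h1 : x = s := Finset.mem_singleton.1 hx
    have h2 : x' = s := Finset.mem_singleton.1 hx'
    have h3 : y.1 = y'.1 := mul_right_cancel h
    rw [h1, h2, hsep y hy y' hy' h3]


/-- The negation of the preceding statement: For every infinite connected locally finite vertex-transitive graph G, every k ≥ 1 and every maximal k-separated vertex set S, the Cheeger constant of the graph on S joining points at distance ≤ 2k is at least the Cheeger constant of G. -/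
theorem result :
    ¬ (∀ (V : Type) (G : SimpleGraph V), Infinite V → G.Connected →
      (∀ v : V, (G.neighborSet v).Finite) →
      (∀ u v : V, ∃ φ : G ≃g G, φ u = v) →
      ∀ k : ℕ, 1 ≤ k →
      ∀ S : Set V,
        (∀ u ∈ S, ∀ v ∈ S, u ≠ v → k ≤ G.dist u v) →
        (∀ w : V, w ∉ S → ∃ u ∈ S, G.dist w u < k) →
        sInf {r : ℝ | ∃ A : Finset V, A.Nonempty ∧
            r = (Set.ncard {p : V × V | p.1 ∈ A ∧ p.2 ∉ A ∧ G.Adj p.1 p.2} : ℝ)
              / (A.card : ℝ)}
          ≤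
        sInf {r : ℝ | ∃ A : Finset V, A.Nonempty ∧ (↑A : Set V) ⊆ S ∧
            r = (Set.ncard {p : V × V | p.1 ∈ A ∧ p.2 ∈ S ∧ p.2 ∉ A ∧
                  G.dist p.1 p.2 ≤ 2 * k} : ℝ)
              / (A.card : ℝ)}) := by
  intro h
  obtain ⟨m, hm⟩ := exists_nat_gt ((Pool.Agent.Results.MP_2d87f2_co.Blowup.ballCard (2 * 2) : ℝ))
  have hm0 : 0 < m := by
    have h1 : (0 : ℝ) ≤ (Pool.Agent.Results.MP_2d87f2_co.Blowup.ballCard (2 * 2) : ℝ) := by
      positivity
    exact_mod_cast h1.trans_lt hm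
  have : NeZero m := ⟨hm0.ne'⟩
  obtain ⟨S, hS⟩ := Pool.Agent.Results.MP_2d87f2_co.Blowup.exists_net
    (Pool.Agent.Results.MP_2d87f2_co.Blowup.gr m) 2
  have hmax : ∀ w, w ∉ S → ∃ u ∈ S,
      (Pool.Agent.Results.MP_2d87f2_co.Blowup.gr m).dist w u < 2 := by
    intro w hw
    by_contra hcon
    push Not at hcon
    have h1 : Pool.Agent.Results.MP_2d87f2_co.Blowup.Separated
        (Pool.Agent.Results.MP_2d87f2_co.Blowup.gr m) 2 (insert w S) := by
      intro u hu v hv huv
      rcases hu with rfl | hu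
      · rcases hv with rfl | hv
        · exact absurd rfl huv
        · exact hcon v hv
      · rcases hv with rfl | hv
        · rw [SimpleGraph.dist_comm]
          exact hcon u hu
        · exact hS.1 u hu v hv huv
    exact hw (hS.2 h1 (Set.subset_insert w S) (Set.mem_insert w S))
  have hne : S.Nonempty := by
    by_contra hcon
    rw [Set.not_nonempty_iff_eq_empty] at hcon
    obtain ⟨u, hu, -⟩ := hmax ((1 : Pool.Agent.Results.MP_2d87f2_co.Blowup.F), (0 : Fin m))
      (by rw [hcon]; exact Set.notMem_empty _)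
    rw [hcon] at hu
    exact hu
  obtain ⟨s, hs⟩ := hne
  have key := h (Pool.Agent.Results.MP_2d87f2_co.Blowup.W m)
    (Pool.Agent.Results.MP_2d87f2_co.Blowup.gr m) (infiniteW m)
    (Pool.Agent.Results.MP_2d87f2_co.Blowup.connected m)
    (Pool.Agent.Results.MP_2d87f2_co.Blowup.locFinite m)
    (Pool.Agent.Results.MP_2d87f2_co.Blowup.transitive m) 2 (by norm_num) S hS.1 hmax
  have hlow : (m : ℝ) ≤ sInf {r : ℝ | ∃ A : Finset (Pool.Agent.Results.MP_2d87f2_co.Blowup.W m),
      A.Nonempty ∧ r = (Set.ncard {p : Pool.Agent.Results.MP_2d87f2_co.Blowup.W m ×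
        Pool.Agent.Results.MP_2d87f2_co.Blowup.W m | p.1 ∈ A ∧ p.2 ∉ A ∧
          (Pool.Agent.Results.MP_2d87f2_co.Blowup.gr m).Adj p.1 p.2} : ℝ) / (A.card : ℝ)} := by
    refine le_csInf ⟨_, {s}, Finset.singleton_nonempty _, rfl⟩ ?_
    rintro r ⟨A, hA, rfl⟩
    have h1 : (0 : ℝ) < A.card := by exact_mod_cast hA.card_pos
    rw [le_div_iff₀ h1]
    exact_mod_cast boundary_pairs m A
  refine absurd (hlow.trans key) (not_le.2 (lt_of_le_of_lt ?_ hm))
  have hbdd : BddBelow {r : ℝ | ∃ A : Finset (Pool.Agent.Results.MP_2d87f2_co.Blowup.W m),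
      A.Nonempty ∧ (↑A : Set (Pool.Agent.Results.MP_2d87f2_co.Blowup.W m)) ⊆ S ∧
      r = (Set.ncard {p : Pool.Agent.Results.MP_2d87f2_co.Blowup.W m ×
        Pool.Agent.Results.MP_2d87f2_co.Blowup.W m | p.1 ∈ A ∧ p.2 ∈ S ∧ p.2 ∉ A ∧
          (Pool.Agent.Results.MP_2d87f2_co.Blowup.gr m).dist p.1 p.2 ≤ 2 * 2} : ℝ)
            / (A.card : ℝ)} := by
    refine ⟨0, ?_⟩
    rintro r ⟨A, -, -, rfl⟩
    positivity
  refine (csInf_le hbdd ⟨{s}, Finset.singleton_nonempty _, ?_, rfl⟩).trans ?_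
  · intro x hx
    have : x = s := by simpa using hx
    rw [this]
    exact hs
  · rw [Finset.card_singleton, Nat.cast_one, div_one]
    exact_mod_cast single_upper m 2 le_rfl S hS.1 s hs

end Pool.Agent.S07874
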