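import Pool.Statements.S07891
-- import your own Pool.Agent.* helpers here

set_option autoImplicit false
open Pool Pool.MP_2e1090_co

namespace Pool.Agent.S07891


open Finset

/-- The values `w + 1` as base-16 digits, indexed by the bit masks of the 3-element sets. -/
def tabN : ℕ := 279095111627852376407822673918065072906708122163311893103309999296397196105385284732488995167161887994502694630767163206723024676322090844329268120690641151844383201447864902345663532970770757083448877602590227177351366738808893398423673129492701515966219257695824668122734894664112497102501177011452381584702232371804176702372016393965009140272156163471338708228649305856921865445758945036116752780748299315073903471102872518824416164959660937051802432115042936864996116872190770467599076234890702045822201806504137060827375214865850302464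

/-- Table lookup. -/
def tN (m : ℕ) : ℕ := Nat.land (Nat.shiftRight tabN (Nat.mul 4 m)) 15

/-- Bit mask of a finite set. -/
def msk (B : Finset (Fin 9)) : ℕ := ∑ i ∈ B, 2 ^ (i : ℕ)

/-- The tropical Pluecker vector. -/
noncomputable def w (B : Finset (Fin 9)) : ℝ := (tN (msk B) : ℝ) - 1

/-- Mask of three elements. -/
def m3 (i j k : Fin 9) : ℕ := 2 ^ (i : ℕ) + 2 ^ (j : ℕ) + 2 ^ (k : ℕ)

theorem msk_insert {i j k : Fin 9} (hij : i ≠ j) (hik : i ≠ k) (hjk : j ≠ k) :
    msk (insert i (insert j {k})) = m3 i j k := by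
  unfold msk m3
  rw [Finset.sum_insert (by simp [hij, hik]), Finset.sum_insert (by simp [hjk]),
    Finset.sum_singleton]
  ring

theorem w_insert {i j k : Fin 9} (hij : i ≠ j) (hik : i ≠ k) (hjk : j ≠ k) :
    w (insert i (insert j {k})) = (tN (m3 i j k) : ℝ) - 1 := by
  unfold w
  rw [msk_insert hij hik hjk]

/-! ### The three-term relations, checked on powers of two -/

/-- The three-term relation for the elements with weights `s, i, j, k, l`. -/
def rel3 (s i j k l : ℕ) : Bool :=
  let x := tN (s + i + j) + tN (s + k + l)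
  let y := tN (s + i + k) + tN (s + j + l)
  let z := tN (s + i + l) + tN (s + j + k)
  (Nat.beq x y && Nat.ble x z) || (Nat.beq x z && Nat.ble x y) || (Nat.beq y z && Nat.ble y x)

/-- The weights. -/
def pw : List ℕ := [1, 2, 4, 8, 16, 32, 64, 128, 256]

/-- All the three-term relations. -/
def relAll : Bool :=
  pw.all fun s => pw.all fun i => Nat.beq s i || pw.all fun j => Nat.beq s j || Nat.beq i j ||
    pw.all fun k => Nat.beq s k || Nat.beq i k || Nat.beq j k ||
      pw.all fun l => Nat.beq s l || Nat.beq i l || Nat.beq j l || Nat.beq k l || rel3 s i j k l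

theorem relAll_true : relAll = true := by decide +kernel

theorem pw_mem (i : Fin 9) : 2 ^ (i : ℕ) ∈ pw := by revert i; decide

theorem beq_false_of_ne {i j : Fin 9} (h : i ≠ j) : Nat.beq (2 ^ (i : ℕ)) (2 ^ (j : ℕ)) = false := by
  rw [Bool.eq_false_iff]
  intro hb
  apply h
  have := Nat.eq_of_beq_eq_true hb
  exact Fin.ext (Nat.pow_right_injective (le_refl 2) this)

theorem rel3_of_ne {s i j k l : Fin 9} (h1 : s ≠ i) (h2 : s ≠ j) (h3 : s ≠ k) (h4 : s ≠ l)
    (h5 : i ≠ j) (h6 : i ≠ k) (h7 : i ≠ l) (h8 : j ≠ k) (h9 : j ≠ l) (h10 : k ≠ l) :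
    rel3 (2 ^ (s : ℕ)) (2 ^ (i : ℕ)) (2 ^ (j : ℕ)) (2 ^ (k : ℕ)) (2 ^ (l : ℕ)) = true := by
  have h := relAll_true
  unfold relAll at h
  have a1 := List.all_eq_true.1 h _ (pw_mem s)
  have a2 := List.all_eq_true.1 a1 _ (pw_mem i)
  rw [beq_false_of_ne h1, Bool.false_or] at a2
  have a3 := List.all_eq_true.1 a2 _ (pw_mem j)
  rw [beq_false_of_ne h2, beq_false_of_ne h5, Bool.false_or, Bool.false_or] at a3
  have a4 := List.all_eq_true.1 a3 _ (pw_mem k)
  rw [beq_false_of_ne h3, beq_false_of_ne h6, beq_false_of_ne h8, Bool.false_or, Bool.false_or,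
    Bool.false_or] at a4
  have a5 := List.all_eq_true.1 a4 _ (pw_mem l)
  rw [beq_false_of_ne h4, beq_false_of_ne h7, beq_false_of_ne h9, beq_false_of_ne h10,
    Bool.false_or, Bool.false_or, Bool.false_or, Bool.false_or] at a5
  exact a5

/-- Three-term relation for three real numbers. -/
def Tri (x y z : ℝ) : Prop := (x = y ∧ x ≤ z) ∨ (x = z ∧ x ≤ y) ∨ (y = z ∧ y ≤ x)

theorem tri_w {s i j k l : Fin 9} (h1 : s ≠ i) (h2 : s ≠ j) (h3 : s ≠ k) (h4 : s ≠ l)
    (h5 : i ≠ j) (h6 : i ≠ k) (h7 : i ≠ l) (h8 : j ≠ k) (h9 : j ≠ l) (h10 : k ≠ l) :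
    Tri (w (insert i (insert j {s})) + w (insert k (insert l {s})))
      (w (insert i (insert k {s})) + w (insert j (insert l {s})))
      (w (insert i (insert l {s})) + w (insert j (insert k {s}))) := by
  have hr := rel3_of_ne h1 h2 h3 h4 h5 h6 h7 h8 h9 h10
  rw [w_insert h5 h1.symm h2.symm, w_insert h10 h3.symm h4.symm, w_insert h6 h1.symm h3.symm,
    w_insert h9 h2.symm h4.symm, w_insert h7 h1.symm h4.symm, w_insert h8 h2.symm h3.symm]
  unfold rel3 at hr
  have e : ∀ a b c : Fin 9, 2 ^ (a : ℕ) + 2 ^ (b : ℕ) + 2 ^ (c : ℕ) = m3 b c a := by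
    intro a b c; unfold m3; ring
  simp only [e, Bool.or_eq_true, Bool.and_eq_true, Nat.ble_eq] at hr
  unfold Tri
  rcases hr with (⟨p, q⟩ | ⟨p, q⟩) | ⟨p, q⟩
  · left
    have p' : ((tN (m3 i j s) : ℝ)) + tN (m3 k l s) = tN (m3 i k s) + tN (m3 j l s) := by
      exact_mod_cast Nat.eq_of_beq_eq_true p
    have q' : ((tN (m3 i j s) : ℝ)) + tN (m3 k l s) ≤ tN (m3 i l s) + tN (m3 j k s) := by
      exact_mod_cast q
    constructor <;> linarith
  · right; left
    have p' : ((tN (m3 i j s) : ℝ)) + tN (m3 k l s) = tN (m3 i l s) + tN (m3 j k s) := by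
      exact_mod_cast Nat.eq_of_beq_eq_true p
    have q' : ((tN (m3 i j s) : ℝ)) + tN (m3 k l s) ≤ tN (m3 i k s) + tN (m3 j l s) := by
      exact_mod_cast q
    constructor <;> linarith
  · right; right
    have p' : ((tN (m3 i k s) : ℝ)) + tN (m3 j l s) = tN (m3 i l s) + tN (m3 j k s) := by
      exact_mod_cast Nat.eq_of_beq_eq_true p
    have q' : ((tN (m3 i k s) : ℝ)) + tN (m3 j l s) ≤ tN (m3 i j s) + tN (m3 k l s) := by
      exact_mod_cast q
    constructor <;> linarith

/-! ### Cells -/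

/-- The sets minimal for `v` after subtracting the linear form `c`. -/
def Cell (v : Finset (Fin 9) → ℝ) (c : Fin 9 → ℝ) : Set (Finset (Fin 9)) :=
  {B | B.card = 3 ∧ ∀ B' : Finset (Fin 9), B'.card = 3 → v B - ∑ i ∈ B, c i ≤ v B' - ∑ i ∈ B', c i}

theorem tN_le (m : ℕ) : (tN m : ℝ) ≤ 15 := by
  have : tN m ≤ 15 := Nat.and_le_right
  exact_mod_cast this

theorem card3 {i j k : Fin 9} (hij : i ≠ j) (hik : i ≠ k) (hjk : j ≠ k) :
    (insert i (insert j {k}) : Finset (Fin 9)).card = 3 := by
  rw [Finset.card_insert_of_notMem (by simp [hij, hik]),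
    Finset.card_insert_of_notMem (by simp [hjk]), Finset.card_singleton]

theorem sum3 {i j k : Fin 9} (c : Fin 9 → ℝ) (hij : i ≠ j) (hik : i ≠ k) (hjk : j ≠ k) :
    ∑ x ∈ (insert i (insert j {k}) : Finset (Fin 9)), c x = c i + c j + c k := by
  rw [Finset.sum_insert (by simp [hij, hik]), Finset.sum_insert (by simp [hjk]),
    Finset.sum_singleton]
  ring

theorem octa {v : Finset (Fin 9) → ℝ} (hv : ∀ c, ∃ c', Cell w c ⊆ Cell v c')
    {s a b c e : Fin 9} (h1 : s ≠ a) (h2 : s ≠ b) (h3 : s ≠ c) (h4 : s ≠ e)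
    (h5 : a ≠ b) (h6 : a ≠ c) (h7 : a ≠ e) (h8 : b ≠ c) (h9 : b ≠ e) (h10 : c ≠ e)
    (heq : w (insert a (insert b {s})) + w (insert c (insert e {s})) =
      w (insert a (insert c {s})) + w (insert b (insert e {s})))
    (hle : w (insert a (insert b {s})) + w (insert c (insert e {s})) ≤
      w (insert a (insert e {s})) + w (insert b (insert c {s}))) :
    v (insert a (insert b {s})) + v (insert c (insert e {s})) =
      v (insert a (insert c {s})) + v (insert b (insert e {s})) ∧
    v (insert a (insert b {s})) + v (insert c (insert e {s})) ≤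
      v (insert a (insert e {s})) + v (insert b (insert c {s})) := by
  classical
  -- the linear form
  set wab := w (insert a (insert b {s})) with hwab
  set wce := w (insert c (insert e {s})) with hwce
  set wac := w (insert a (insert c {s})) with hwac
  set wbe := w (insert b (insert e {s})) with hwbe
  set wae := w (insert a (insert e {s})) with hwae
  set wbc := w (insert b (insert c {s})) with hwbc
  have bd : ∀ B, -1 ≤ w B ∧ w B ≤ 14 := by
    intro B
    unfold w
    have := tN_le (msk B)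
    have h0 : (0 : ℝ) ≤ (tN (msk B) : ℝ) := Nat.cast_nonneg _
    constructor <;> linarith
  set t : ℝ := (wae - wbe + wab) / 2 with ht
  let C : Fin 9 → ℝ := fun x => if x = s then 1000 else if x = a then t else
    if x = b then wab - t else if x = c then wac - t else if x = e then wbe - wab + t else -1000
  have Cs : C s = 1000 := if_pos rfl
  have Ca : C a = t := by
    show (if a = s then _ else _) = _
    rw [if_neg h1.symm, if_pos rfl]
  have Cb : C b = wab - t := by
    show (if b = s then _ else _) = _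
    rw [if_neg h2.symm, if_neg h5.symm, if_pos rfl]
  have Cc : C c = wac - t := by
    show (if c = s then _ else _) = _
    rw [if_neg h3.symm, if_neg h6.symm, if_neg h8.symm, if_pos rfl]
  have Ce : C e = wbe - wab + t := by
    show (if e = s then _ else _) = _
    rw [if_neg h4.symm, if_neg h7.symm, if_neg h9.symm, if_neg h10.symm, if_pos rfl]
  have Co : ∀ x, x ≠ s → x ≠ a → x ≠ b → x ≠ c → x ≠ e → C x = -1000 := by
    intro x x1 x2 x3 x4 x5
    show (if x = s then _ else _) = _
    rw [if_neg x1, if_neg x2, if_neg x3, if_neg x4, if_neg x5]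
  have bt : -15 ≤ t ∧ t ≤ 15 := by
    have b1 := bd (insert a (insert e {s}))
    have b2 := bd (insert b (insert e {s}))
    have b3 := bd (insert a (insert b {s}))
    rw [← hwae] at b1; rw [← hwbe] at b2; rw [← hwab] at b3
    constructor <;> linarith
  have Cle : ∀ x, x ≠ s → C x ≤ 40 := by
    intro x hx
    have b2 := bd (insert b (insert e {s}))
    have b3 := bd (insert a (insert b {s}))
    have b4 := bd (insert a (insert c {s}))
    rw [← hwbe] at b2; rw [← hwab] at b3; rw [← hwac] at b4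
    by_cases xa : x = a
    · rw [xa, Ca]; linarith
    by_cases xb : x = b
    · rw [xb, Cb]; linarith
    by_cases xc : x = c
    · rw [xc, Cc]; linarith
    by_cases xe : x = e
    · rw [xe, Ce]; linarith
    rw [Co x hx xa xb xc xe]; norm_num
  -- all sets have value at least -1000
  have lower : ∀ B' : Finset (Fin 9), B'.card = 3 → -1000 ≤ w B' - ∑ i ∈ B', C i := by
    intro B' hB'
    by_cases hs : s ∈ B'
    · have hcard : (B'.erase s).card = 2 := by rw [Finset.card_erase_of_mem hs, hB']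
      obtain ⟨y, z, hyz, hBe⟩ := Finset.card_eq_two.1 hcard
      have hB : B' = insert y (insert z {s}) := by
        have h0 := Finset.insert_erase hs
        rw [hBe] at h0
        rw [← h0]
        ext x; simp only [Finset.mem_insert, Finset.mem_singleton]; tauto
      have hys : y ≠ s := by
        have : y ∈ B'.erase s := by rw [hBe]; simp
        exact (Finset.mem_erase.1 this).1
      have hzs : z ≠ s := by
        have : z ∈ B'.erase s := by rw [hBe]; simp
        exact (Finset.mem_erase.1 this).1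
      rw [hB, sum3 C hyz hys hzs, Cs]
      have comm : ∀ p q : Fin 9, (insert p (insert q {s}) : Finset (Fin 9)) =
          insert q (insert p {s}) := fun p q => Finset.insert_comm _ _ _
      have by1 := (bd (insert y (insert z {s}))).1
      by_cases hy : y = a ∨ y = b ∨ y = c ∨ y = e
      · by_cases hz : z = a ∨ z = b ∨ z = c ∨ z = e
        · rcases hy with rfl | rfl | rfl | rfl <;> rcases hz with rfl | rfl | rfl | rfl
          · exact absurd rfl hyz
          · rw [← hwab, Ca, Cb]; linarith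
          · rw [← hwac, Ca, Cc]; linarith
          · rw [← hwae, Ca, Ce]; linarith
          · rw [comm, ← hwab, Ca, Cb]; linarith
          · exact absurd rfl hyz
          · rw [← hwbc, Cb, Cc]; linarith
          · rw [← hwbe, Cb, Ce]; linarith
          · rw [comm, ← hwac, Ca, Cc]; linarith
          · rw [comm, ← hwbc, Cb, Cc]; linarith
          · exact absurd rfl hyz
          · rw [← hwce, Cc, Ce]; linarith
          · rw [comm, ← hwae, Ca, Ce]; linarith
          · rw [comm, ← hwbe, Cb, Ce]; linarith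
          · rw [comm, ← hwce, Cc, Ce]; linarith
          · exact absurd rfl hyz
        · push Not at hz
          have h11 := Co z hzs hz.1 hz.2.1 hz.2.2.1 hz.2.2.2
          have h12 := Cle y hys
          rw [h11]; linarith
      · push Not at hy
        have h11 := Co y hys hy.1 hy.2.1 hy.2.2.1 hy.2.2.2
        have h12 := Cle z hzs
        rw [h11]; linarith
    · have h11 : ∑ i ∈ B', C i ≤ ∑ i ∈ B', (40 : ℝ) := by
        apply Finset.sum_le_sum
        intro x hx
        exact Cle x (fun h => hs (h ▸ hx))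
      rw [Finset.sum_const, hB'] at h11
      have h12 := (bd B').1
      norm_num at h11
      linarith
  -- five sets in the cell
  have mem : ∀ y z : Fin 9, y ≠ z → y ≠ s → z ≠ s →
      w (insert y (insert z {s})) - (C y + C z) = 0 → insert y (insert z {s}) ∈ Cell w C := by
    intro y z hyz hys hzs h0
    refine ⟨card3 hyz hys hzs, fun B' hB' => ?_⟩
    rw [sum3 C hyz hys hzs, Cs]
    have := lower B' hB'
    linarith
  obtain ⟨c', hc'⟩ := hv C
  have mab := hc' (mem a b h5 h1.symm h2.symm (by rw [← hwab, Ca, Cb]; ring))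
  have mac := hc' (mem a c h6 h1.symm h3.symm (by rw [← hwac, Ca, Cc]; ring))
  have mbe := hc' (mem b e h9 h2.symm h4.symm (by rw [← hwbe, Cb, Ce]; ring))
  have mce := hc' (mem c e h10 h3.symm h4.symm (by rw [← hwce, Cc, Ce]; linarith))
  have mae := hc' (mem a e h7 h1.symm h4.symm (by rw [← hwae, Ca, Ce, ht]; ring))
  have q1 := mab.2 _ mac.1
  have q2 := mac.2 _ mab.1
  have q3 := mab.2 _ mbe.1
  have q4 := mbe.2 _ mab.1
  have q5 := mab.2 _ mce.1
  have q6 := mce.2 _ mab.1
  have q7 := mab.2 _ mae.1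
  have q8 := mae.2 _ mab.1
  have q9 := mab.2 _ (card3 h8 h2.symm h3.symm)
  rw [sum3 c' h5 h1.symm h2.symm, sum3 c' h6 h1.symm h3.symm] at q1
  rw [sum3 c' h5 h1.symm h2.symm, sum3 c' h6 h1.symm h3.symm] at q2
  rw [sum3 c' h5 h1.symm h2.symm, sum3 c' h9 h2.symm h4.symm] at q3
  rw [sum3 c' h5 h1.symm h2.symm, sum3 c' h9 h2.symm h4.symm] at q4
  rw [sum3 c' h5 h1.symm h2.symm, sum3 c' h10 h3.symm h4.symm] at q5
  rw [sum3 c' h5 h1.symm h2.symm, sum3 c' h10 h3.symm h4.symm] at q6
  rw [sum3 c' h5 h1.symm h2.symm, sum3 c' h7 h1.symm h4.symm] at q7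
  rw [sum3 c' h5 h1.symm h2.symm, sum3 c' h7 h1.symm h4.symm] at q8
  rw [sum3 c' h5 h1.symm h2.symm, sum3 c' h8 h2.symm h3.symm] at q9
  constructor
  · linarith
  · linarith

/-! ### Propagation -/

/-- The set with a given mask. -/
def Fs (m : ℕ) : Finset (Fin 9) := Finset.univ.filter (fun i : Fin 9 => m.testBit (i : ℕ) = true)

theorem Fs_m3 : ∀ i j k : Fin 9, i ≠ j → i ≠ k → j ≠ k → Fs (m3 i j k) = insert i (insert j {k}) := by
  decide +kernel

/-- The check of one step: the five elements are distinct and the first two terms of the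
three-term relation are equal and minimal. -/
def okq (s a b c e : Fin 9) : Bool :=
  decide (s ≠ a) && decide (s ≠ b) && decide (s ≠ c) && decide (s ≠ e) && decide (a ≠ b) &&
  decide (a ≠ c) && decide (a ≠ e) && decide (b ≠ c) && decide (b ≠ e) && decide (c ≠ e) &&
  decide (tN (m3 a b s) + tN (m3 c e s) = tN (m3 a c s) + tN (m3 b e s)) &&
  decide (tN (m3 a b s) + tN (m3 c e s) ≤ tN (m3 a e s) + tN (m3 b c s))

theorem okq_spec {v : Finset (Fin 9) → ℝ} (hv : ∀ c, ∃ c', Cell w c ⊆ Cell v c')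
    {s a b c e : Fin 9} (h : okq s a b c e = true) :
    (v (Fs (m3 a b s)) + v (Fs (m3 c e s)) = v (Fs (m3 a c s)) + v (Fs (m3 b e s)) ∧
    v (Fs (m3 a b s)) + v (Fs (m3 c e s)) ≤ v (Fs (m3 a e s)) + v (Fs (m3 b c s))) ∧
    ((tN (m3 a b s) : ℝ) + tN (m3 c e s) = tN (m3 a c s) + tN (m3 b e s)) ∧
    (a ≠ b ∧ a ≠ s ∧ b ≠ s) ∧ (c ≠ e ∧ c ≠ s ∧ e ≠ s) ∧ (a ≠ c ∧ b ≠ e) := by
  unfold okq at h
  simp only [Bool.and_eq_true, decide_eq_true_eq] at h
  obtain ⟨⟨⟨⟨⟨⟨⟨⟨⟨⟨⟨h1, h2⟩, h3⟩, h4⟩, h5⟩, h6⟩, h7⟩, h8⟩, h9⟩, h10⟩, h11⟩, h12⟩ := h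
  have h11' : (tN (m3 a b s) : ℝ) + tN (m3 c e s) = tN (m3 a c s) + tN (m3 b e s) := by
    exact_mod_cast h11
  have h12' : (tN (m3 a b s) : ℝ) + tN (m3 c e s) ≤ tN (m3 a e s) + tN (m3 b c s) := by
    exact_mod_cast h12
  refine ⟨?_, h11', ⟨h5, h1.symm, h2.symm⟩, ⟨h10, h3.symm, h4.symm⟩, h6, h9⟩
  rw [Fs_m3 _ _ _ h5 h1.symm h2.symm, Fs_m3 _ _ _ h10 h3.symm h4.symm,
    Fs_m3 _ _ _ h6 h1.symm h3.symm, Fs_m3 _ _ _ h9 h2.symm h4.symm,
    Fs_m3 _ _ _ h7 h1.symm h4.symm, Fs_m3 _ _ _ h8 h2.symm h3.symm]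
  refine octa hv h1 h2 h3 h4 h5 h6 h7 h8 h9 h10 ?_ ?_
  · rw [w_insert h5 h1.symm h2.symm, w_insert h10 h3.symm h4.symm, w_insert h6 h1.symm h3.symm,
      w_insert h9 h2.symm h4.symm]
    linarith
  · rw [w_insert h5 h1.symm h2.symm, w_insert h10 h3.symm h4.symm, w_insert h7 h1.symm h4.symm,
      w_insert h8 h2.symm h3.symm]
    linarith

/-- All masks of 3-element subsets. -/
def all84 : List ℕ :=
  [7, 11, 13, 14, 19, 21, 22, 25, 26, 28, 35, 37, 38, 41, 42, 44,
   49, 50, 52, 56, 67, 69, 70, 73, 74, 76, 81, 82, 84, 88, 97, 98,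
   100, 104, 112, 131, 133, 134, 137, 138, 140, 145, 146, 148, 152, 161, 162, 164,
   168, 176, 193, 194, 196, 200, 208, 224, 259, 261, 262, 265, 266, 268, 273, 274,
   276, 280, 289, 290, 292, 296, 304, 321, 322, 324, 328, 336, 352, 385, 386, 388,
   392, 400, 416, 448]

theorem all84_mem : ∀ i j k : Fin 9, i ≠ j → i ≠ k → j ≠ k → m3 i j k ∈ all84 := by
  decide +kernel

/-- Run the propagation. -/
def chain : List (Fin 9 × Fin 9 × Fin 9 × Fin 9 × Fin 9) → List ℕ → Bool
  | [], K => all84.all (fun m => K.contains m)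
  | (s, a, b, c, e) :: rest, K => okq s a b c e && K.contains (m3 c e s) &&
      K.contains (m3 a c s) && K.contains (m3 b e s) && chain rest (m3 a b s :: K)

/-- The masks of the ten sets which determine everything. -/
def K0 : List ℕ := [7, 11, 19, 35, 67, 131, 259, 13, 14, 21]

/-- The steps of the propagation. -/
def steps : List (Fin 9 × Fin 9 × Fin 9 × Fin 9 × Fin 9) :=
  [(0, 2, 6, 3, 1), (0, 2, 8, 4, 1), (0, 3, 4, 1, 2), (0, 3, 5, 2, 1), (0, 3, 6, 1, 2),
   (0, 3, 7, 2, 1), (0, 3, 8, 1, 2), (0, 4, 5, 2, 1), (0, 4, 6, 2, 1), (0, 4, 7, 2, 1),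
   (0, 4, 8, 1, 2), (0, 5, 6, 1, 2), (0, 5, 8, 1, 2), (0, 6, 7, 1, 3), (0, 6, 8, 1, 2),
   (0, 7, 8, 1, 2), (1, 2, 8, 3, 0), (1, 3, 4, 2, 0), (1, 3, 5, 2, 0), (1, 3, 6, 2, 0),
   (1, 3, 7, 2, 0), (1, 3, 8, 0, 2), (1, 4, 8, 0, 2), (1, 5, 8, 0, 2), (1, 6, 8, 0, 2),
   (1, 7, 8, 0, 2), (2, 3, 4, 1, 0), (2, 3, 6, 1, 0), (2, 3, 8, 1, 0), (2, 4, 8, 0, 1),
   (2, 6, 8, 0, 1), (3, 4, 5, 0, 1), (3, 4, 6, 0, 1), (3, 4, 7, 0, 1), (3, 4, 8, 0, 1),
   (3, 5, 6, 0, 1), (3, 5, 8, 0, 2), (3, 6, 7, 0, 1), (3, 6, 8, 0, 2), (3, 7, 8, 0, 2),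
   (4, 5, 8, 0, 1), (4, 6, 8, 0, 1), (4, 7, 8, 0, 1), (5, 1, 6, 8, 0), (5, 4, 6, 0, 1),
   (5, 6, 8, 0, 1), (6, 2, 5, 0, 1), (6, 5, 7, 1, 0), (6, 7, 8, 0, 1), (7, 1, 5, 0, 6),
   (7, 3, 5, 0, 1), (7, 4, 5, 0, 1), (7, 5, 8, 1, 0), (8, 2, 5, 0, 6), (1, 2, 5, 0, 6),
   (1, 4, 2, 0, 5), (1, 4, 5, 0, 2), (1, 4, 6, 0, 5), (1, 4, 7, 0, 5), (2, 1, 6, 4, 0),
   (2, 3, 5, 0, 1), (2, 4, 5, 0, 1), (2, 4, 6, 0, 1), (4, 2, 7, 6, 0), (4, 6, 7, 0, 2),
   (6, 1, 7, 0, 4), (6, 2, 7, 0, 1), (7, 0, 2, 3, 4), (7, 1, 2, 0, 4), (7, 2, 3, 0, 1),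
   (7, 2, 5, 0, 1), (7, 2, 8, 0, 3), (0, 2, 5, 7, 1), (0, 5, 7, 1, 2)]

theorem chain_true : chain steps K0 = true := by decide +kernel

theorem tN_eq_w {i j k : Fin 9} (hij : i ≠ j) (hik : i ≠ k) (hjk : j ≠ k) :
    (tN (m3 i j k) : ℝ) = w (Fs (m3 i j k)) + 1 := by
  rw [Fs_m3 _ _ _ hij hik hjk, w_insert hij hik hjk]; ring

/-- Difference of `v` and a combination of `w` and a linear form. -/
noncomputable def dif (v : Finset (Fin 9) → ℝ) (l : ℝ) (a : Fin 9 → ℝ) (m : ℕ) : ℝ :=
  v (Fs m) - l * w (Fs m) - ∑ i ∈ Fs m, a i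

theorem chain_spec {v : Finset (Fin 9) → ℝ} (hv : ∀ c, ∃ c', Cell w c ⊆ Cell v c') (l : ℝ)
    (al : Fin 9 → ℝ) : ∀ (st : List (Fin 9 × Fin 9 × Fin 9 × Fin 9 × Fin 9)) (K : List ℕ),
    chain st K = true → (∀ m ∈ K, dif v l al m = 0) → ∀ m ∈ all84, dif v l al m = 0
  | [], K, h, hK => by
      intro m hm
      unfold chain at h
      have := List.all_eq_true.1 h m hm
      exact hK m (List.contains_iff_mem.1 this)
  | (s, a, b, c, e) :: rest, K, h, hK => by
      unfold chain at h
      simp only [Bool.and_eq_true, List.contains_iff_mem] at h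
      obtain ⟨⟨⟨⟨h1, h2⟩, h3⟩, h4⟩, h5⟩ := h
      refine chain_spec hv l al rest _ h5 ?_
      intro m hm
      rcases List.mem_cons.1 hm with rfl | hm
      · obtain ⟨⟨g1, -⟩, g2, ⟨d1, d2, d3⟩, ⟨d4, d5, d6⟩, d7, d8⟩ := okq_spec hv h1
        have k2 := hK _ h2
        have k3 := hK _ h3
        have k4 := hK _ h4
        rw [tN_eq_w d1 d2 d3, tN_eq_w d4 d5 d6, tN_eq_w d7 d2 d5, tN_eq_w d8 d3 d6] at g2
        unfold dif at k2 k3 k4 ⊢
        rw [Fs_m3 _ _ _ d4 d5 d6] at k2 g1 g2
        rw [Fs_m3 _ _ _ d7 d2 d5] at k3 g1 g2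
        rw [Fs_m3 _ _ _ d8 d3 d6] at k4 g1 g2
        rw [Fs_m3 _ _ _ d1 d2 d3] at g1 g2 ⊢
        rw [sum3 al d4 d5 d6] at k2
        rw [sum3 al d7 d2 d5] at k3
        rw [sum3 al d8 d3 d6] at k4
        rw [sum3 al d1 d2 d3]
        have g2' : l * w (insert a (insert b {s})) = l * w (insert a (insert c {s})) +
            l * w (insert b (insert e {s})) - l * w (insert c (insert e {s})) := by
          have : w (insert a (insert b {s})) = w (insert a (insert c {s})) +
            w (insert b (insert e {s})) - w (insert c (insert e {s})) := by linarith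
          rw [this]; ring
        linarith
      · exact hK m hm

theorem exists_mask {B : Finset (Fin 9)} (hB : B.card = 3) : ∃ m ∈ all84, B = Fs m := by
  obtain ⟨i, j, k, hij, hik, hjk, rfl⟩ := Finset.card_eq_three.1 hB
  exact ⟨m3 i j k, all84_mem i j k hij hik hjk, (Fs_m3 i j k hij hik hjk).symm⟩

/-- Every `v` whose subdivision is refined by the one of `w` is a nonnegative multiple of `w` plus
a linear form. -/
theorem rigid {v : Finset (Fin 9) → ℝ} (hv : ∀ c, ∃ c', Cell w c ⊆ Cell v c') :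
    ∃ (l : ℝ) (al : Fin 9 → ℝ), 0 ≤ l ∧
      ∀ B : Finset (Fin 9), B.card = 3 → v B = l * w B + ∑ i ∈ B, al i := by
  set A : ℝ := (2 * v (Fs 7) + 2 * v (Fs 11) - v (Fs 13) - v (Fs 14)) / 3 with hA
  set a2 : ℝ := v (Fs 7) - A with h2
  set a3 : ℝ := v (Fs 11) - A with h3
  set a4 : ℝ := v (Fs 19) - A with h4
  set a5 : ℝ := v (Fs 35) - A with h5
  set a6 : ℝ := v (Fs 67) - A with h6
  set a7 : ℝ := v (Fs 131) - A with h7
  set a8 : ℝ := v (Fs 259) - A with h8
  set a0 : ℝ := v (Fs 13) - a2 - a3 with h0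
  set a1 : ℝ := v (Fs 14) - a2 - a3 with h1
  set l : ℝ := a0 + a2 + a4 - v (Fs 21) with hl
  let al : Fin 9 → ℝ := ![a0, a1, a2, a3, a4, a5, a6, a7, a8]
  have e7 : Fs 7 = insert 0 (insert 1 {2}) := by decide +kernel
  have e11 : Fs 11 = insert 0 (insert 1 {3}) := by decide +kernel
  have e19 : Fs 19 = insert 0 (insert 1 {4}) := by decide +kernel
  have e35 : Fs 35 = insert 0 (insert 1 {5}) := by decide +kernel
  have e67 : Fs 67 = insert 0 (insert 1 {6}) := by decide +kernel
  have e131 : Fs 131 = insert 0 (insert 1 {7}) := by decide +kernel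
  have e259 : Fs 259 = insert 0 (insert 1 {8}) := by decide +kernel
  have e13 : Fs 13 = insert 0 (insert 2 {3}) := by decide +kernel
  have e14 : Fs 14 = insert 1 (insert 2 {3}) := by decide +kernel
  have e21 : Fs 21 = insert 0 (insert 2 {4}) := by decide +kernel
  have wval : ∀ i j k : Fin 9, i ≠ j → i ≠ k → j ≠ k → ∀ q : ℕ, tN (m3 i j k) = q →
      w (insert i (insert j {k})) = (q : ℝ) - 1 := by
    intro i j k hij hik hjk q hq
    rw [w_insert hij hik hjk, hq]
  have base : ∀ m ∈ K0, dif v l al m = 0 := by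
    intro m hm
    unfold K0 at hm
    simp only [List.mem_cons, List.not_mem_nil, or_false] at hm
    rcases hm with rfl | rfl | rfl | rfl | rfl | rfl | rfl | rfl | rfl | rfl
    · unfold dif
      rw [e7, wval 0 1 2 (by decide) (by decide) (by decide) 1 (by decide +kernel),
        sum3 al (by decide) (by decide) (by decide), ← e7]
      show v (Fs 7) - l * ((1 : ℕ) - 1) - (a0 + a1 + a2) = 0
      push_cast
      rw [h0, h1, h2, h3, hA]; ring
    · unfold dif
      rw [e11, wval 0 1 3 (by decide) (by decide) (by decide) 1 (by decide +kernel),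
        sum3 al (by decide) (by decide) (by decide), ← e11]
      show v (Fs 11) - l * ((1 : ℕ) - 1) - (a0 + a1 + a3) = 0
      push_cast
      rw [h0, h1, h2, h3, hA]; ring
    · unfold dif
      rw [e19, wval 0 1 4 (by decide) (by decide) (by decide) 1 (by decide +kernel),
        sum3 al (by decide) (by decide) (by decide), ← e19]
      show v (Fs 19) - l * ((1 : ℕ) - 1) - (a0 + a1 + a4) = 0
      push_cast
      rw [h0, h1, h2, h3, h4, hA]; ring
    · unfold dif
      rw [e35, wval 0 1 5 (by decide) (by decide) (by decide) 1 (by decide +kernel),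
        sum3 al (by decide) (by decide) (by decide), ← e35]
      show v (Fs 35) - l * ((1 : ℕ) - 1) - (a0 + a1 + a5) = 0
      push_cast
      rw [h0, h1, h2, h3, h5, hA]; ring
    · unfold dif
      rw [e67, wval 0 1 6 (by decide) (by decide) (by decide) 1 (by decide +kernel),
        sum3 al (by decide) (by decide) (by decide), ← e67]
      show v (Fs 67) - l * ((1 : ℕ) - 1) - (a0 + a1 + a6) = 0
      push_cast
      rw [h0, h1, h2, h3, h6, hA]; ring
    · unfold dif
      rw [e131, wval 0 1 7 (by decide) (by decide) (by decide) 1 (by decide +kernel),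
        sum3 al (by decide) (by decide) (by decide), ← e131]
      show v (Fs 131) - l * ((1 : ℕ) - 1) - (a0 + a1 + a7) = 0
      push_cast
      rw [h0, h1, h2, h3, h7, hA]; ring
    · unfold dif
      rw [e259, wval 0 1 8 (by decide) (by decide) (by decide) 1 (by decide +kernel),
        sum3 al (by decide) (by decide) (by decide), ← e259]
      show v (Fs 259) - l * ((1 : ℕ) - 1) - (a0 + a1 + a8) = 0
      push_cast
      rw [h0, h1, h2, h3, h8, hA]; ring
    · unfold dif
      rw [e13, wval 0 2 3 (by decide) (by decide) (by decide) 1 (by decide +kernel),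
        sum3 al (by decide) (by decide) (by decide), ← e13]
      show v (Fs 13) - l * ((1 : ℕ) - 1) - (a0 + a2 + a3) = 0
      push_cast
      rw [h0]; ring
    · unfold dif
      rw [e14, wval 1 2 3 (by decide) (by decide) (by decide) 1 (by decide +kernel),
        sum3 al (by decide) (by decide) (by decide), ← e14]
      show v (Fs 14) - l * ((1 : ℕ) - 1) - (a1 + a2 + a3) = 0
      push_cast
      rw [h1]; ring
    · unfold dif
      rw [e21, wval 0 2 4 (by decide) (by decide) (by decide) 0 (by decide +kernel),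
        sum3 al (by decide) (by decide) (by decide), ← e21]
      show v (Fs 21) - l * ((0 : ℕ) - 1) - (a0 + a2 + a4) = 0
      push_cast
      rw [hl]; ring
  have hall := chain_spec hv l al steps K0 chain_true base
  have hform : ∀ B : Finset (Fin 9), B.card = 3 → v B = l * w B + ∑ i ∈ B, al i := by
    intro B hB
    obtain ⟨m, hm, rfl⟩ := exists_mask hB
    have := hall m hm
    unfold dif at this
    linarith
  refine ⟨l, al, ?_, hform⟩
  -- an octahedron with gap one
  have hq := (okq_spec hv (s := 0) (a := 1) (b := 2) (c := 3) (e := 4) (by decide +kernel)).1.2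
  rw [Fs_m3 _ _ _ (by decide) (by decide) (by decide), Fs_m3 _ _ _ (by decide) (by decide) (by decide),
    Fs_m3 _ _ _ (by decide) (by decide) (by decide), Fs_m3 _ _ _ (by decide) (by decide) (by decide),
    hform _ (card3 (by decide) (by decide) (by decide)),
    hform _ (card3 (by decide) (by decide) (by decide)),
    hform _ (card3 (by decide) (by decide) (by decide)),
    hform _ (card3 (by decide) (by decide) (by decide)),
    sum3 al (by decide) (by decide) (by decide), sum3 al (by decide) (by decide) (by decide),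
    sum3 al (by decide) (by decide) (by decide), sum3 al (by decide) (by decide) (by decide),
    wval 1 2 0 (by decide) (by decide) (by decide) 1 (by decide +kernel),
    wval 3 4 0 (by decide) (by decide) (by decide) 0 (by decide +kernel),
    wval 1 4 0 (by decide) (by decide) (by decide) 1 (by decide +kernel),
    wval 2 3 0 (by decide) (by decide) (by decide) 1 (by decide +kernel)] at hq
  push_cast at hq
  linarith

theorem not_trivial_w : ¬ ∃ c : Fin 9 → ℝ, ∀ B : Finset (Fin 9), B.card = 3 →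
    ∀ B' : Finset (Fin 9), B'.card = 3 → w B - ∑ i ∈ B, c i ≤ w B' - ∑ i ∈ B', c i := by
  rintro ⟨c, hc⟩
  have key : ∀ i j k i' j' k' : Fin 9, ∀ (hij : i ≠ j) (hik : i ≠ k) (hjk : j ≠ k) (hij' : i' ≠ j')
      (hik' : i' ≠ k') (hjk' : j' ≠ k'), (tN (m3 i j k) : ℝ) - (c i + c j + c k) =
        tN (m3 i' j' k') - (c i' + c j' + c k') := by
    intro i j k i' j' k' hij hik hjk hij' hik' hjk'
    have p1 := hc _ (card3 hij hik hjk) _ (card3 hij' hik' hjk')
    have p2 := hc _ (card3 hij' hik' hjk') _ (card3 hij hik hjk)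
    rw [w_insert hij hik hjk, w_insert hij' hik' hjk', sum3 c hij hik hjk,
      sum3 c hij' hik' hjk'] at p1
    rw [w_insert hij hik hjk, w_insert hij' hik' hjk', sum3 c hij hik hjk,
      sum3 c hij' hik' hjk'] at p2
    linarith
  have t1 := key 1 2 0 1 4 0 (by decide) (by decide) (by decide) (by decide) (by decide) (by decide)
  have t2 := key 3 4 0 2 3 0 (by decide) (by decide) (by decide) (by decide) (by decide) (by decide)
  have q1 : tN (m3 1 2 0) = 1 := by decide +kernel
  have q2 : tN (m3 3 4 0) = 0 := by decide +kernel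
  have q3 : tN (m3 1 4 0) = 1 := by decide +kernel
  have q4 : tN (m3 2 3 0) = 1 := by decide +kernel
  rw [q1, q3] at t1
  rw [q2, q4] at t2
  push_cast at t1 t2
  linarith

theorem cell_w_ne {v : Finset (Fin 9) → ℝ} {al : Fin 9 → ℝ}
    (h : ∀ B : Finset (Fin 9), B.card = 3 → v B = ∑ i ∈ B, al i)
    (h2 : ∃ c', Cell v al = Cell w c') : False := by
  obtain ⟨c', hc'⟩ := h2
  apply not_trivial_w
  refine ⟨c', fun B hB B' hB' => ?_⟩
  have : B ∈ Cell v al := by
    refine ⟨hB, fun B'' hB'' => ?_⟩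
    rw [h B hB, h B'' hB'']; simp
  rw [hc'] at this
  exact this.2 B' hB'

theorem eRk_le_three (M : Matroid (Fin 9)) (s a : Fin 9) (X : Set (Fin 9)) :
    (M.eRk (insert a X)).toNat ≤ (M.eRk X).toNat + 1 := by
  have h := M.eRk_insert_le_add_one a X
  have hfin : M.eRk X ≠ ⊤ := by
    have : M.eRk X ≤ X.encard := M.eRk_le_encard X
    exact ne_top_of_le_ne_top (Set.toFinite X).encard_lt_top.ne this
  have h1 : (M.eRk (insert a X)).toNat ≤ (M.eRk X + 1).toNat := by
    apply ENat.toNat_le_toNat h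
    intro htop
    rcases (ENat.add_eq_top).1 htop with h2 | h2
    · exact hfin h2
    · exact absurd h2 (by decide)
  rwa [ENat.toNat_add hfin (by decide)] at h1

theorem eRk_mono' (M : Matroid (Fin 9)) {X Y : Set (Fin 9)} (h : X ⊆ Y) :
    (M.eRk X).toNat ≤ (M.eRk Y).toNat := by
  apply ENat.toNat_le_toNat (M.eRk_mono h)
  have : M.eRk Y ≤ Y.encard := M.eRk_le_encard Y
  exact ne_top_of_le_ne_top (Set.toFinite Y).encard_lt_top.ne this

theorem not_corank (M : Matroid (Fin 9))
    (h1 : ∀ c : Fin 9 → ℝ, ∃ c' : Fin 9 → ℝ, Cell w c =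
      Cell (fun B => (((3 : ℕ) : ℝ) - ((M.eRk (B : Set (Fin 9))).toNat : ℝ))) c')
    (h2 : ∀ c : Fin 9 → ℝ, ∃ c' : Fin 9 → ℝ,
      Cell (fun B => (((3 : ℕ) : ℝ) - ((M.eRk (B : Set (Fin 9))).toNat : ℝ))) c = Cell w c') :
    False := by
  set v : Finset (Fin 9) → ℝ := fun B => (((3 : ℕ) : ℝ) - ((M.eRk (B : Set (Fin 9))).toNat : ℝ))
    with hv
  obtain ⟨l, al, hl, hform⟩ := rigid (v := v) (fun c => by
    obtain ⟨c', hc'⟩ := h1 c
    exact ⟨c', hc'.subset⟩)
  have vform : ∀ i j k : Fin 9, i ≠ j → i ≠ k → j ≠ k →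
      v (insert i (insert j {k})) = l * (tN (m3 i j k) - 1) + (al i + al j + al k) := by
    intro i j k hij hik hjk
    rw [hform _ (card3 hij hik hjk), w_insert hij hik hjk, sum3 al hij hik hjk]
  let r : Fin 9 → Fin 9 → Fin 9 → ℕ := fun i j k => (M.eRk ({i, j, k} : Set (Fin 9))).toNat
  have vr : ∀ i j k : Fin 9, v (insert i (insert j {k})) = 3 - (r i j k : ℝ) := by
    intro i j k
    show (((3 : ℕ) : ℝ) - ((M.eRk ((insert i (insert j {k}) : Finset (Fin 9)) : Set (Fin 9))).toNat : ℝ)) = _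
    rw [Finset.coe_insert, Finset.coe_insert, Finset.coe_singleton]
    norm_num
    rfl
  -- gap one octahedron: `l` is a natural number
  have u1 := vform 1 2 0 (by decide) (by decide) (by decide)
  have u2 := vform 3 4 0 (by decide) (by decide) (by decide)
  have u3 := vform 1 4 0 (by decide) (by decide) (by decide)
  have u4 := vform 2 3 0 (by decide) (by decide) (by decide)
  rw [vr] at u1 u2 u3 u4
  have q1 : tN (m3 1 2 0) = 1 := by decide +kernel
  have q2 : tN (m3 3 4 0) = 0 := by decide +kernel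
  have q3 : tN (m3 1 4 0) = 1 := by decide +kernel
  have q4 : tN (m3 2 3 0) = 1 := by decide +kernel
  rw [q1] at u1; rw [q2] at u2; rw [q3] at u3; rw [q4] at u4
  push_cast at u1 u2 u3 u4
  have hlint : l = ((((r 1 2 0 : ℤ) + r 3 4 0) - r 1 4 0 - r 2 3 0 : ℤ) : ℝ) := by
    push_cast
    linarith
  -- gap three octahedron
  have w1 := vform 1 2 0 (by decide) (by decide) (by decide)
  have w2 := vform 5 4 0 (by decide) (by decide) (by decide)
  have w3 := vform 1 4 0 (by decide) (by decide) (by decide)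
  have w4 := vform 2 5 0 (by decide) (by decide) (by decide)
  rw [vr] at w1 w2 w3 w4
  have p1 : tN (m3 1 2 0) = 1 := by decide +kernel
  have p2 : tN (m3 5 4 0) = 0 := by decide +kernel
  have p3 : tN (m3 1 4 0) = 1 := by decide +kernel
  have p4 : tN (m3 2 5 0) = 3 := by decide +kernel
  rw [p1] at w1; rw [p2] at w2; rw [p3] at w3; rw [p4] at w4
  push_cast at w1 w2 w3 w4
  -- rank bounds
  have b1 : r 1 2 0 ≤ r 1 4 0 + 1 := by
    have c1 : ({1, 2, 0} : Set (Fin 9)) = insert 2 {1, 0} := Set.insert_comm _ _ _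
    show (M.eRk {1, 2, 0}).toNat ≤ _
    rw [c1]
    refine (eRk_le_three M 0 _ _).trans (Nat.add_le_add_right (eRk_mono' M ?_) 1)
    intro x hx
    rcases hx with rfl | rfl <;> simp
  have b2 : r 5 4 0 ≤ r 2 5 0 + 1 := by
    have c1 : ({5, 4, 0} : Set (Fin 9)) = insert 4 {5, 0} := Set.insert_comm _ _ _
    show (M.eRk {5, 4, 0}).toNat ≤ _
    rw [c1]
    refine (eRk_le_three M 0 _ _).trans (Nat.add_le_add_right (eRk_mono' M ?_) 1)
    intro x hx
    rcases hx with rfl | rfl <;> simp
  have b1' : (r 1 2 0 : ℝ) ≤ r 1 4 0 + 1 := by exact_mod_cast b1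
  have b2' : (r 5 4 0 : ℝ) ≤ r 2 5 0 + 1 := by exact_mod_cast b2
  have hl3 : 3 * l ≤ 2 := by linarith
  have hl1 : l < 1 := by linarith
  have hl0 : l = 0 := by
    rw [hlint] at hl1 hl ⊢
    have k1 : ((((r 1 2 0 : ℤ) + r 3 4 0) - r 1 4 0 - r 2 3 0 : ℤ)) < 1 := by
      exact_mod_cast hl1
    have k2 : 0 ≤ ((((r 1 2 0 : ℤ) + r 3 4 0) - r 1 4 0 - r 2 3 0 : ℤ)) := by
      exact_mod_cast hl
    have k3 : ((((r 1 2 0 : ℤ) + r 3 4 0) - r 1 4 0 - r 2 3 0 : ℤ)) = 0 := by
      omega
    rw [k3]; simp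
  refine cell_w_ne (v := v) (al := al) ?_ (h2 al)
  intro B hB
  rw [hform B hB, hl0]; ring

theorem result :
    ∃ d n : ℕ, ∃ w : Finset (Fin n) → ℝ,
      (∀ (S : Finset (Fin n)) (i j k l : Fin n), S.card + 2 = d →
        i ∉ S → j ∉ S → k ∉ S → l ∉ S →
        i ≠ j → i ≠ k → i ≠ l → j ≠ k → j ≠ l → k ≠ l →
        ((w (insert i (insert j S)) + w (insert k (insert l S))
            = w (insert i (insert k S)) + w (insert j (insert l S)) ∧
          w (insert i (insert j S)) + w (insert k (insert l S))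
            ≤ w (insert i (insert l S)) + w (insert j (insert k S))) ∨
         (w (insert i (insert j S)) + w (insert k (insert l S))
            = w (insert i (insert l S)) + w (insert j (insert k S)) ∧
          w (insert i (insert j S)) + w (insert k (insert l S))
            ≤ w (insert i (insert k S)) + w (insert j (insert l S))) ∨
         (w (insert i (insert k S)) + w (insert j (insert l S))
            = w (insert i (insert l S)) + w (insert j (insert k S)) ∧
          w (insert i (insert k S)) + w (insert j (insert l S))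
            ≤ w (insert i (insert j S)) + w (insert k (insert l S))))) ∧
      (¬ ∃ c : Fin n → ℝ, ∀ B : Finset (Fin n), B.card = d →
          ∀ B' : Finset (Fin n), B'.card = d →
            w B - ∑ i ∈ B, c i ≤ w B' - ∑ i ∈ B', c i) ∧
      (∀ v : Finset (Fin n) → ℝ,
        (∀ (S : Finset (Fin n)) (i j k l : Fin n), S.card + 2 = d →
          i ∉ S → j ∉ S → k ∉ S → l ∉ S →
          i ≠ j → i ≠ k → i ≠ l → j ≠ k → j ≠ l → k ≠ l →
          ((v (insert i (insert j S)) + v (insert k (insert l S))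
              = v (insert i (insert k S)) + v (insert j (insert l S)) ∧
            v (insert i (insert j S)) + v (insert k (insert l S))
              ≤ v (insert i (insert l S)) + v (insert j (insert k S))) ∨
           (v (insert i (insert j S)) + v (insert k (insert l S))
              = v (insert i (insert l S)) + v (insert j (insert k S)) ∧
            v (insert i (insert j S)) + v (insert k (insert l S))
              ≤ v (insert i (insert k S)) + v (insert j (insert l S))) ∨
           (v (insert i (insert k S)) + v (insert j (insert l S))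
              = v (insert i (insert l S)) + v (insert j (insert k S)) ∧
            v (insert i (insert k S)) + v (insert j (insert l S))
              ≤ v (insert i (insert j S)) + v (insert k (insert l S))))) →
        (∀ c : Fin n → ℝ, ∃ c' : Fin n → ℝ,
          {B : Finset (Fin n) | B.card = d ∧ ∀ B' : Finset (Fin n), B'.card = d →
              w B - ∑ i ∈ B, c i ≤ w B' - ∑ i ∈ B', c i} ⊆
          {B : Finset (Fin n) | B.card = d ∧ ∀ B' : Finset (Fin n), B'.card = d →
              v B - ∑ i ∈ B, c' i ≤ v B' - ∑ i ∈ B', c' i}) →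
        (∃ c : Fin n → ℝ, ∀ B : Finset (Fin n), B.card = d →
          ∀ B' : Finset (Fin n), B'.card = d →
            v B - ∑ i ∈ B, c i ≤ v B' - ∑ i ∈ B', c i) ∨
        ((∀ c : Fin n → ℝ, ∃ c' : Fin n → ℝ,
          {B : Finset (Fin n) | B.card = d ∧ ∀ B' : Finset (Fin n), B'.card = d →
              w B - ∑ i ∈ B, c i ≤ w B' - ∑ i ∈ B', c i} =
          {B : Finset (Fin n) | B.card = d ∧ ∀ B' : Finset (Fin n), B'.card = d →
              v B - ∑ i ∈ B, c' i ≤ v B' - ∑ i ∈ B', c' i}) ∧
         (∀ c : Fin n → ℝ, ∃ c' : Fin n → ℝ,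
          {B : Finset (Fin n) | B.card = d ∧ ∀ B' : Finset (Fin n), B'.card = d →
              v B - ∑ i ∈ B, c i ≤ v B' - ∑ i ∈ B', c i} =
          {B : Finset (Fin n) | B.card = d ∧ ∀ B' : Finset (Fin n), B'.card = d →
              w B - ∑ i ∈ B, c' i ≤ w B' - ∑ i ∈ B', c' i}))) ∧
      (¬ ∃ M : Matroid (Fin n), M.E = Set.univ ∧ M.eRank = (d : ℕ∞) ∧
        (∀ c : Fin n → ℝ, ∃ c' : Fin n → ℝ,
          {B : Finset (Fin n) | B.card = d ∧ ∀ B' : Finset (Fin n), B'.card = d →
              w B - ∑ i ∈ B, c i ≤ w B' - ∑ i ∈ B', c i} =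
          {B : Finset (Fin n) | B.card = d ∧ ∀ B' : Finset (Fin n), B'.card = d →
              ((d : ℝ) - ((M.eRk (B : Set (Fin n))).toNat : ℝ)) - ∑ i ∈ B, c' i ≤
              ((d : ℝ) - ((M.eRk (B' : Set (Fin n))).toNat : ℝ)) - ∑ i ∈ B', c' i}) ∧
        (∀ c : Fin n → ℝ, ∃ c' : Fin n → ℝ,
          {B : Finset (Fin n) | B.card = d ∧ ∀ B' : Finset (Fin n), B'.card = d →
              ((d : ℝ) - ((M.eRk (B : Set (Fin n))).toNat : ℝ)) - ∑ i ∈ B, c i ≤
              ((d : ℝ) - ((M.eRk (B' : Set (Fin n))).toNat : ℝ)) - ∑ i ∈ B', c i} =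
          {B : Finset (Fin n) | B.card = d ∧ ∀ B' : Finset (Fin n), B'.card = d →
              w B - ∑ i ∈ B, c' i ≤ w B' - ∑ i ∈ B', c' i}))  := by
  refine ⟨3, 9, w, ?_, not_trivial_w, ?_, ?_⟩
  · intro S i j k l hS hi hj hk hl hij hik hil hjk hjl hkl
    have hS1 : S.card = 1 := by omega
    obtain ⟨s, rfl⟩ := Finset.card_eq_one.1 hS1
    rw [Finset.mem_singleton] at hi hj hk hl
    exact tri_w (Ne.symm hi) (Ne.symm hj) (Ne.symm hk) (Ne.symm hl) hij hik hil hjk hjl hkl
  · intro v _ hv
    obtain ⟨l, al, hl, hform⟩ := rigid (v := v) hv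
    rcases eq_or_lt_of_le hl with h0 | hpos
    · left
      refine ⟨al, fun B hB B' hB' => ?_⟩
      rw [hform B hB, hform B' hB', ← h0]; simp
    · right
      constructor
      · intro c
        refine ⟨fun i => l * c i + al i, ?_⟩
        ext B
        constructor
        · rintro ⟨hB, h⟩
          refine ⟨hB, fun B' hB' => ?_⟩
          have h1 := mul_le_mul_of_nonneg_left (h B' hB') hl
          rw [hform B hB, hform B' hB', Finset.sum_add_distrib, Finset.sum_add_distrib,
            ← Finset.mul_sum, ← Finset.mul_sum]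
          linarith
        · rintro ⟨hB, h⟩
          refine ⟨hB, fun B' hB' => ?_⟩
          have h1 := h B' hB'
          rw [hform B hB, hform B' hB', Finset.sum_add_distrib, Finset.sum_add_distrib,
            ← Finset.mul_sum, ← Finset.mul_sum] at h1
          have h2 : l * (w B - ∑ i ∈ B, c i) ≤ l * (w B' - ∑ i ∈ B', c i) := by linarith
          exact le_of_mul_le_mul_left h2 hpos
      · intro c
        refine ⟨fun i => (c i - al i) / l, ?_⟩
        have hc : ∀ B : Finset (Fin 9), ∑ i ∈ B, c i =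
            l * ∑ i ∈ B, ((c i - al i) / l) + ∑ i ∈ B, al i := by
          intro B
          rw [Finset.mul_sum, ← Finset.sum_add_distrib]
          refine Finset.sum_congr rfl (fun i _ => ?_)
          field_simp
          ring
        ext B
        constructor
        · rintro ⟨hB, h⟩
          refine ⟨hB, fun B' hB' => ?_⟩
          have h1 := h B' hB'
          rw [hform B hB, hform B' hB', hc B, hc B'] at h1
          have h2 : l * (w B - ∑ i ∈ B, ((c i - al i) / l)) ≤
              l * (w B' - ∑ i ∈ B', ((c i - al i) / l)) := by linarith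
          exact le_of_mul_le_mul_left h2 hpos
        · rintro ⟨hB, h⟩
          refine ⟨hB, fun B' hB' => ?_⟩
          have h1 := mul_le_mul_of_nonneg_left (h B' hB') hl
          rw [hform B hB, hform B' hB', hc B, hc B']
          linarith
  · rintro ⟨M, -, -, h1, h2⟩
    exact not_corank M h1 h2

end Pool.Agent.S07891
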