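import Pool.Statements.S07942
-- import your own Pool.Agent.* helpers here

set_option autoImplicit false
open Pool Pool.MP_30ed83_co

namespace Pool.Agent.S07942

/-- a closed walk of length `l` given by its sequence of vertices -/
def Loop {V : Type} (G : SimpleGraph V) (l : ℕ) (f : ℕ → V) : Prop :=
  f l = f 0 ∧ ∀ i < l, G.Adj (f i) (f (i + 1))

lemma loop_of_not_colorable {V : Type} (G : SimpleGraph V) (h : ¬ G.Colorable 2) :
    ∃ l f, Odd l ∧ Loop G l f := by
  rw [SimpleGraph.two_colorable_iff_forall_loop_even] at h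
  push Not at h
  obtain ⟨u, w, hw⟩ := h
  refine ⟨w.length, w.getVert, by simpa using hw, ?_, ?_⟩
  · simp
  · intro i hi
    exact w.adj_getVert_succ hi

lemma not_colorable_of_loop {V : Type} (G : SimpleGraph V) (l : ℕ) (f : ℕ → V) (hl : Odd l)
    (h : Loop G l f) : ¬ G.Colorable 2 := by
  rintro ⟨c⟩
  have key : ∀ i ≤ l, (c (f i) = c (f 0) ↔ Even i) := by
    intro i
    induction i with
    | zero => simp
    | succ i ih =>
      intro hi
      have h1 := ih (by omega)
      have h2 := c.valid (h.2 i (by omega))
      rw [Nat.even_add_one, ← h1]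
      constructor
      · intro h3 h4
        exact h2 (h4.trans h3.symm)
      · intro h3
        generalize c (f i) = a at *
        generalize c (f (i+1)) = b at *
        generalize c (f 0) = d at *
        revert h2 h3
        clear h1 ih
        revert a b d
        decide
  have := (key l le_rfl).1 (by rw [h.1])
  exact (Nat.not_even_iff_odd.2 hl) this

lemma chord {V : Type} (G : SimpleGraph V) (l : ℕ) (f : ℕ → V) (hl : Odd l)
    (h : Loop G l f) (hmin : ∀ l' f', Odd l' → Loop G l' f' → l ≤ l')
    (i j : ℕ) (hij : i < j) (hj : j < l) (hadj : G.Adj (f i) (f j)) :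
    j = i + 1 ∨ (i = 0 ∧ j + 1 = l) := by
  rcases Nat.even_or_odd (j - i) with he | ho
  · -- closed walk f i ... f j, f i  has odd length j - i + 1
    have := hmin (j - i + 1) (fun t => if t ≤ j - i then f (i + t) else f i) he.add_one ⟨by simp, ?_⟩
    · right; omega
    · intro t ht
      have ht' : t ≤ j - i := by omega
      simp only [ht', if_true]
      by_cases h1 : t + 1 ≤ j - i
      · simp only [h1, if_true]
        exact h.2 (i + t) (by omega)
      · simp only [h1, if_false]
        have : i + t = j := by omega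
        rw [this]; exact hadj.symm
  · have := hmin (i + 1 + (l - j)) (fun t => if t ≤ i then f t else f (t + j - i - 1)) ?_ ⟨?_, ?_⟩
    · left; omega
    · rcases hl with ⟨a, ha⟩
      rcases ho with ⟨b, hb⟩
      exact ⟨a - b, by omega⟩
    · have h1 : ¬ (i + 1 + (l - j) ≤ i) := by omega
      simp only [h1, if_false, Nat.zero_le, if_true]
      have : i + 1 + (l - j) + j - i - 1 = l := by omega
      rw [this, h.1]
    · intro t ht
      by_cases h1 : t + 1 ≤ i
      · have h2 : t ≤ i := by omega
        simp only [h1, h2, if_true]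
        exact h.2 t (by omega)
      · by_cases h2 : t ≤ i
        · have h3 : t = i := by omega
          subst h3
          simp only [h1, if_false, le_refl, if_true]
          have : t + 1 + j - t - 1 = j := by omega
          rw [this]; exact hadj
        · simp only [h1, h2, if_false]
          have : t + 1 + j - i - 1 = (t + j - i - 1) + 1 := by omega
          rw [this]
          exact h.2 _ (by omega)

/-- the claw -/
def F : SimpleGraph (Fin 4) where
  Adj a b := (a = 0 ∧ b ≠ 0) ∨ (b = 0 ∧ a ≠ 0)
  symm := ⟨fun a b h => h.symm⟩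
  loopless := ⟨fun a h => by rcases h with ⟨h1, h2⟩ | ⟨h1, h2⟩ <;> exact h2 h1⟩

lemma F_col : F.Colorable 2 :=
  ⟨SimpleGraph.Coloring.mk (fun v => if v = 0 then 0 else 1) (by
    intro a b h
    rcases h with ⟨h1, h2⟩ | ⟨h1, h2⟩ <;> simp [h1, h2])⟩

/-- The negation of the preceding statement: For every finite graph F with an edge and every r, some finite graph G has chromatic number above r and clique number equal to F's, and every induced subgraph of G with no induced copy of F has chromatic number at most that of F. -/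
theorem result :
    ¬ (∀ (n : ℕ) (F : SimpleGraph (Fin n)), F ≠ ⊥ →
      ∀ r : ℕ, ∃ (m : ℕ) (G : SimpleGraph (Fin m)),
        (r : ℕ∞) < G.chromaticNumber ∧
        G.cliqueNum = F.cliqueNum ∧
        ∀ s : Set (Fin m), ¬ F.IsIndContained (G.induce s) →
          (G.induce s).chromaticNumber ≤ F.chromaticNumber) := by
  intro H
  obtain ⟨m, G, hχ, -, hG⟩ := H 4 F (by
    intro h
    have : F.Adj 0 1 := Or.inl ⟨rfl, by decide⟩
    rw [h] at this
    exact this) 2
  have hnc : ¬ G.Colorable 2 := by
    intro hc
    exact absurd hχ (not_lt.2 hc.chromaticNumber_le)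
  classical
  have hex : ∃ l, Odd l ∧ ∃ f, Loop G l f := by
    obtain ⟨l, f, h1, h2⟩ := loop_of_not_colorable G hnc
    exact ⟨l, h1, f, h2⟩
  obtain ⟨hl, f, hf⟩ := Nat.find_spec hex
  set l := Nat.find hex with hldef
  have hmin : ∀ l' f', Odd l' → Loop G l' f' → l ≤ l' := by
    intro l' f' h1 h2
    exact Nat.find_min' hex ⟨h1, f', h2⟩
  let s : Set (Fin m) := {x | ∃ i < l, f i = x}
  have hlpos : 0 < l := hl.pos
  have hs := hG s ?_
  · -- G.induce s is 2-colourable, contradiction
    have hc : (G.induce s).Colorable 2 := by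
      rw [← SimpleGraph.chromaticNumber_le_iff_colorable]
      exact hs.trans F_col.chromaticNumber_le
    let g : ℕ → s := fun i => if h : i < l then ⟨f i, i, h, rfl⟩ else ⟨f 0, 0, hlpos, rfl⟩
    have hg : ∀ i ≤ l, (g i : Fin m) = f i := by
      intro i hi
      by_cases h : i < l
      · simp [g, h]
      · have : i = l := by omega
        subst this
        simp [g, hf.1]
    refine not_colorable_of_loop (G.induce s) l g hl ⟨?_, ?_⟩ hc
    · apply Subtype.ext
      rw [hg l le_rfl, hg 0 (by omega), hf.1]
    · intro i hi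
      rw [SimpleGraph.comap_adj]
      show G.Adj (g i : Fin m) (g (i + 1) : Fin m)
      rw [hg i (by omega), hg (i + 1) (by omega)]
      exact hf.2 i hi
  · rintro ⟨e⟩
    have hch : ∀ i < l, ∀ j < l, G.Adj (f i) (f j) →
        j = i + 1 ∨ i = j + 1 ∨ (i = 0 ∧ j + 1 = l) ∨ (j = 0 ∧ i + 1 = l) := by
      intro i hi j hj hadj
      rcases Nat.lt_trichotomy i j with h | h | h
      · rcases chord G l f hl hf hmin i j h hj hadj with h | h
        · exact Or.inl h
        · exact Or.inr (Or.inr (Or.inl h))
      · subst h; exact absurd hadj (G.loopless.irrefl _)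
      · rcases chord G l f hl hf hmin j i h hi hadj.symm with h | h
        · exact Or.inr (Or.inl h)
        · exact Or.inr (Or.inr (Or.inr h))
    obtain ⟨i, hi, hi'⟩ := (e 0).2
    obtain ⟨j1, hj1, hj1'⟩ := (e 1).2
    obtain ⟨j2, hj2, hj2'⟩ := (e 2).2
    obtain ⟨j3, hj3, hj3'⟩ := (e 3).2
    have a1 : G.Adj (f i) (f j1) := by
      rw [hi', hj1']; exact e.map_rel_iff.2 (Or.inl ⟨rfl, by decide⟩ : F.Adj 0 1)
    have a2 : G.Adj (f i) (f j2) := by
      rw [hi', hj2']; exact e.map_rel_iff.2 (Or.inl ⟨rfl, by decide⟩ : F.Adj 0 2)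
    have a3 : G.Adj (f i) (f j3) := by
      rw [hi', hj3']; exact e.map_rel_iff.2 (Or.inl ⟨rfl, by decide⟩ : F.Adj 0 3)
    have n12 : j1 ≠ j2 := by
      rintro rfl
      exact absurd (e.injective (Subtype.ext (hj1'.symm.trans hj2'))) (by decide)
    have n13 : j1 ≠ j3 := by
      rintro rfl
      exact absurd (e.injective (Subtype.ext (hj1'.symm.trans hj3'))) (by decide)
    have n23 : j2 ≠ j3 := by
      rintro rfl
      exact absurd (e.injective (Subtype.ext (hj2'.symm.trans hj3'))) (by decide)
    have b1 := hch i hi j1 hj1 a1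
    have b2 := hch i hi j2 hj2 a2
    have b3 := hch i hi j3 hj3 a3
    omega

end Pool.Agent.S07942
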