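import Pool.Statements.S08250
-- import your own Pool.Agent.* helpers here
import Pool.Agent.X189.FZ.CertA
import Pool.Agent.X189.FZ.CertB

set_option autoImplicit false
open Pool Pool.MP_3d2668_co

namespace Pool.Agent.S08250

open Pool.Agent.X189.FZ

/-- induced paths on five vertices, in words -/
theorem p5_of_isEmpty {V : Type} (G : SimpleGraph V) (h : IsEmpty (SimpleGraph.pathGraph 5 ↪g G))
    (a b x d f : V) (e1 : G.Adj a b) (e2 : G.Adj b x) (e3 : G.Adj x d) (e4 : G.Adj d f)
    (n1 : ¬ G.Adj a x) (n2 : ¬ G.Adj a d) (n3 : ¬ G.Adj a f) (n4 : ¬ G.Adj b d)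
    (n5 : ¬ G.Adj b f) (n6 : ¬ G.Adj x f) : False := by
  have ab : a ≠ b := e1.ne
  have ax : a ≠ x := fun h => n2 (h ▸ e3)
  have ad : a ≠ d := fun h => n4 (h ▸ e1.symm)
  have af : a ≠ f := fun h => n5 (h ▸ e1.symm)
  have bx : b ≠ x := e2.ne
  have bd : b ≠ d := fun h => n2 (h ▸ e1)
  have bf : b ≠ f := fun h => n3 (h ▸ e1)
  have xd : x ≠ d := e3.ne
  have xf : x ≠ f := fun h => n5 (h ▸ e2)
  have df : d ≠ f := e4.ne
  have n1' : ¬ G.Adj x a := fun h => n1 h.symm
  have n2' : ¬ G.Adj d a := fun h => n2 h.symm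
  have n3' : ¬ G.Adj f a := fun h => n3 h.symm
  have n4' : ¬ G.Adj d b := fun h => n4 h.symm
  have n5' : ¬ G.Adj f b := fun h => n5 h.symm
  have n6' : ¬ G.Adj f x := fun h => n6 h.symm
  let g : Fin 5 → V := ![a, b, x, d, f]
  have hinj : Function.Injective g := by
    intro i j hij
    fin_cases i <;> fin_cases j <;> simp [g] at hij ⊢ <;>
      first | exact absurd hij (by assumption) | exact absurd hij.symm (by assumption)
  refine h.false ⟨⟨g, hinj⟩, ?_⟩
  intro i j
  show G.Adj (g i) (g j) ↔ (SimpleGraph.pathGraph 5).Adj i j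
  rw [SimpleGraph.pathGraph_adj]
  have s1 := e1.symm
  have s2 := e2.symm
  have s3 := e3.symm
  have s4 := e4.symm
  fin_cases i <;> fin_cases j <;> simp [g, *]

/-- The negation of the preceding statement: There is a finite nonempty graph that is 3-colourable, has no induced 5-vertex path, and has a proper 4-colouring in which every vertex has neighbours of all three colours other than its own. -/
theorem result :
    ¬ (∃ (V : Type) (_ : Fintype V) (_ : Nonempty V) (G : SimpleGraph V),
      G.Colorable 3 ∧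
      IsEmpty (SimpleGraph.pathGraph 5 ↪g G) ∧
      ∃ c : G.Coloring (Fin 4), ∀ v : V, ∀ i : Fin 4, i ≠ c v →
        ∃ w : V, G.Adj v w ∧ c w = i) := by
  rintro ⟨V, _, ⟨r⟩, G, ⟨C⟩, hP, c, hfr⟩
  classical
  have p5 := p5_of_isEmpty G hP
  -- dominating neighbours
  have hm : ∀ (u : V) (b : Fin 4), ∃ t : V, b ≠ c u → (G.Adj u t ∧ c t = b ∧
      ∀ w x, c w = c t → c x = c u → G.Adj u w → G.Adj w x → G.Adj t x) := by
    intro u b
    by_cases hb : b ≠ c u
    swap
    · exact ⟨u, fun h => absurd h hb⟩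
    obtain ⟨w0, hw0, hw0c⟩ := hfr u b hb
    let S : Finset V := Finset.univ.filter (fun t => G.Adj u t ∧ c t = b)
    let f : V → ℕ := fun t => (Finset.univ.filter (fun x => c x = c u ∧ G.Adj t x)).card
    have hS : S.Nonempty := ⟨w0, by simp [S, hw0, hw0c]⟩
    obtain ⟨t, htS, hmax⟩ := Finset.exists_max_image S f hS
    have htS' : G.Adj u t ∧ c t = b := by simpa [S] using htS
    refine ⟨t, fun _ => ⟨htS'.1, htS'.2, ?_⟩⟩
    intro w x hw hx huw hwx
    by_contra htx
    have hwS : w ∈ S := by simp [S, huw, hw, htS'.2]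
    have hle := hmax w hwS
    -- there is z adjacent to t, not to w
    have hz : ∃ z, (c z = c u ∧ G.Adj t z) ∧ ¬ G.Adj w z := by
      by_contra hcon
      push Not at hcon
      have hsub : Finset.univ.filter (fun x => c x = c u ∧ G.Adj t x) ⊂
          Finset.univ.filter (fun x => c x = c u ∧ G.Adj w x) := by
        rw [Finset.ssubset_iff_of_subset]
        · refine ⟨x, by simp [hx, hwx], by simp [htx]⟩
        · intro z hz
          simp only [Finset.mem_filter, Finset.mem_univ, true_and] at hz ⊢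
          exact ⟨hz.1, hcon z hz⟩
      have := Finset.card_lt_card hsub
      have h2 : f w ≤ f t := hle
      simp only [f] at h2
      omega
    obtain ⟨z, ⟨hzc, htz⟩, hwz⟩ := hz
    -- induced path x w u t z
    have hcol : ∀ {p q : V}, c p = c q → ¬ G.Adj p q := fun h hadj => c.valid hadj h
    exact p5 x w u t z hwx.symm huw.symm htS'.1 htz (hcol hx) (fun h => htx h.symm)
      (hcol (hx.trans hzc.symm)) (hcol hw) hwz (hcol hzc.symm)
  choose m hm using hm
  have tri0 : ∀ y p q s : Fin 3, p ≠ y → q ≠ y → s ≠ y → p = q ∨ p = s ∨ q = s := by decide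
  have three0 : ∀ a : Fin 4, ∃ x1 x2 x3 : Fin 4, x1 ≠ a ∧ x2 ≠ a ∧ x3 ≠ a ∧ x1 ≠ x2 ∧ x1 ≠ x3 ∧
      x2 ≠ x3 := by decide
  -- three other colours, two of them with the same label of the dominating neighbour
  have hk : ∀ (a : Fin 4) (g : Fin 4 → Fin 3) (y : Fin 3), (∀ b, b ≠ a → g b ≠ y) →
      ∃ k1 k2 k3 : Fin 4, k1 ≠ a ∧ k2 ≠ a ∧ k3 ≠ a ∧ k1 ≠ k2 ∧ k1 ≠ k3 ∧ k2 ≠ k3 ∧ g k1 = g k2 := by
    intro a g y hg
    have tri : ∀ p q s : Fin 3, p ≠ y → q ≠ y → s ≠ y → p = q ∨ p = s ∨ q = s := tri0 y
    have three := three0 a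
    obtain ⟨x1, x2, x3, h1, h2, h3, h12, h13, h23⟩ := three
    rcases tri (g x1) (g x2) (g x3) (hg _ h1) (hg _ h2) (hg _ h3) with h | h | h
    · exact ⟨x1, x2, x3, h1, h2, h3, h12, h13, h23, h⟩
    · exact ⟨x1, x3, x2, h1, h3, h2, h13, h12, h23.symm, h⟩
    · exact ⟨x2, x3, x1, h2, h3, h1, h23, h12.symm, h13.symm, h⟩
  obtain ⟨k1, k2, k3, h1, h2, h3, h12, h13, h23, heq⟩ :=
    hk (c r) (fun b => C (m r b)) (C r) (fun b hb h => C.valid (hm r b hb).1 h.symm)
  let k : ℕ → Fin 4 := fun n => [c r, k1, k2, k3].getD n 0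
  have k0' : k 0 = c r := rfl
  have k1' : k 1 = k1 := rfl
  have k2' : k 2 = k2 := rfl
  have k3' : k 3 = k3 := rfl
  -- the terms
  let words : List (List ℕ) := [[], [1], [2], [3], [1, 2], [1, 3], [2, 1], [2, 3], [3, 1], [3, 2],
    [1, 2, 0], [1, 2, 3], [1, 3, 0], [1, 3, 2], [2, 1, 0], [2, 1, 3], [2, 3, 0], [2, 3, 1],
    [3, 1, 0], [3, 1, 2], [3, 2, 0], [3, 2, 1]]
  let v : ℕ → V := fun n => (words.getD n []).foldl (fun u b => m u (k b)) r
  have step : ∀ i, 1 ≤ i → i < 22 → v i = m (v (par i)) (k (col i)) := by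
    intro i hi1 hi2
    interval_cases i <;> rfl
  have hcol : ∀ i, i < 22 → c (v i) = k (col i) := by
    intro i
    induction i using Nat.strong_induction_on with
    | _ i ih =>
      intro hi
      rcases Nat.eq_zero_or_pos i with rfl | hpos
      · rfl
      · have hp : par i < i := by interval_cases i <;> decide
        have hpc := ih (par i) hp (by omega)
        have hne : k (col i) ≠ c (v (par i)) := by
          rw [hpc]
          interval_cases i <;> simp only [col, par, colL, parL, List.getD, List.getElem?_cons_succ, List.getElem?_cons_zero, Option.getD_some, k] <;>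
            first | exact h1 | exact h2 | exact h3 | exact h1.symm | exact h2.symm | exact h3.symm | exact h12 | exact h13 | exact h23 | exact h12.symm | exact h13.symm | exact h23.symm
        rw [step i hpos hi]
        exact (hm _ _ hne).2.1
  have hne : ∀ i, 1 ≤ i → i < 22 → k (col i) ≠ c (v (par i)) := by
    intro i hpos hi
    have hp : par i < 22 := by interval_cases i <;> decide
    rw [hcol _ hp]
    interval_cases i <;> simp only [col, par, colL, parL, List.getD, List.getElem?_cons_succ, List.getElem?_cons_zero, Option.getD_some, k] <;>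
      first | exact h1 | exact h2 | exact h3 | exact h1.symm | exact h2.symm | exact h3.symm | exact h12 | exact h13 | exact h23 | exact h12.symm | exact h13.symm | exact h23.symm
  -- labels
  have c1 : C (m r k1) ≠ C r := fun h => C.valid (hm r k1 h1).1 h.symm
  have c3 : C (m r k3) ≠ C r := fun h => C.valid (hm r k3 h3).1 h.symm
  have hthird : ∀ p q : Fin 3, p ≠ q → ∃ s : Fin 3, s ≠ p ∧ s ≠ q ∧ ∀ x, x = p ∨ x = q ∨ x = s := by
    decide
  obtain ⟨l2, hl2a, hl2b, hall⟩ := hthird (C r) (C (m r k1)) c1.symm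
  let l : ℕ → Fin 3 := fun n => [C r, C (m r k1), l2].getD n 0
  have common : ∀ u3 : ℕ, C (m r k3) = l u3 → Model G (fun x => C x) (fun x => c x) k l v u3 := by
    intro u3 hu3
    exact
      { p5 := p5
        hc := fun a b h => c.valid h
        hC := fun a b h => C.valid h
        hcol := hcol
        hpar := by
          intro i hi1 hi2
          have := (hm (v (par i)) (k (col i)) (hne i hi1 hi2)).1
          rw [← step i hi1 hi2] at this
          exact this
        hdom := by
          intro i hi1 hi2 w x hw hx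
          have := (hm (v (par i)) (k (col i)) (hne i hi1 hi2)).2.2 w x
          rw [← step i hi1 hi2] at this
          exact this hw hx
        hl := hall
        hl01 := c1.symm
        hl02 := hl2a.symm
        hl12 := hl2b.symm
        h0 := rfl
        h1 := rfl
        h2 := heq.symm
        h3 := hu3 }
  rcases hall (C (m r k3)) with h | h | h
  · exact c3 h
  · exact (common 1 h).false _ _ CertA.ok
  · exact (common 2 h).false _ _ CertB.ok

end Pool.Agent.S08250
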