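import Pool.Statements.S08268

set_option autoImplicit false
open Pool Pool.MP_3df3be_co

namespace Pool.Agent.S08268

/-- On a finite set, an injective map sending `A` into `B` with `B.card ≤ A.card` has image `B`. -/
theorem image_eq {f : Fin 8 → Fin 8} (hf : Function.Injective f) {A B : Finset (Fin 8)}
    (hAB : ∀ a ∈ A, f a ∈ B) (hc : B.card ≤ A.card) : A.image f = B := by
  apply Finset.eq_of_subset_of_card_le
  · intro x hx
    obtain ⟨a, ha, rfl⟩ := Finset.mem_image.1 hx
    exact hAB a ha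
  · rw [Finset.card_image_of_injective _ hf]; exact hc

/-- An element outside `A` is sent outside `B` when `f` maps `A` onto `B`. -/
theorem not_mem_of {f : Fin 8 → Fin 8} (hf : Function.Injective f) {A B : Finset (Fin 8)}
    (hAB : ∀ a ∈ A, f a ∈ B) (hc : B.card ≤ A.card) {x : Fin 8} (hx : x ∉ A) : f x ∉ B := by
  rw [← image_eq hf hAB hc]
  intro h
  obtain ⟨a, ha, hfa⟩ := Finset.mem_image.1 h
  exact hx (hf hfa ▸ ha)

/-- Main counting step: a `3 × 3` subsquare cannot lie in four rows whose entries in its columns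
use only four symbols. -/
theorem no_block {L : Fin 8 → Fin 8 → Fin 8} (hr : ∀ i, Function.Injective (L i))
    (hcol : ∀ j, Function.Injective (fun i => L i j)) {R C S X T : Finset (Fin 8)}
    (hR : R.card = 3) (hC : C.card = 3) (hS : S.card = 3) (hX : X.card = 4) (hT : T.card = 4)
    (hRX : R ⊆ X) (h : ∀ r ∈ R, ∀ c ∈ C, L r c ∈ S) (hXT : ∀ r ∈ X, ∀ c ∈ C, L r c ∈ T) :
    False := by
  have hne : (X \ R).Nonempty := by
    rw [← Finset.card_pos, Finset.card_sdiff_of_subset hRX, hX, hR]; norm_num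
  obtain ⟨r, hrm⟩ := hne
  obtain ⟨hrX, hrR⟩ := Finset.mem_sdiff.1 hrm
  have hRne : R.Nonempty := by rw [← Finset.card_pos, hR]; norm_num
  obtain ⟨r0, hr0⟩ := hRne
  have hST : S ⊆ T := by
    rw [← image_eq (hr r0) (h r0 hr0) (by rw [hS, hC])]
    intro x hx
    obtain ⟨c, hc, rfl⟩ := Finset.mem_image.1 hx
    exact hXT r0 (hRX hr0) c hc
  have hsub : C.image (L r) ⊆ T \ S := by
    intro x hx
    obtain ⟨c, hc, rfl⟩ := Finset.mem_image.1 hx
    refine Finset.mem_sdiff.2 ⟨hXT r hrX c hc, ?_⟩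
    exact not_mem_of (hcol c) (fun a ha => h a ha c hc) (by rw [hS, hR]) hrR
  have := Finset.card_le_card hsub
  rw [Finset.card_image_of_injective _ (hr r), Finset.card_sdiff_of_subset hST, hC, hT, hS] at this
  omega

/-- The negation of the preceding statement: For every n there is a latin square of order n such that, for each m with 1 ≤ m and 2m ≤ n, some m rows and m columns meet in an m×m subarray using only m symbols, i.e. a latin subsquare of order m. -/
theorem result :
    ¬ (∀ n : ℕ, ∃ L : Fin n → Fin n → Fin n,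
      (∀ i : Fin n, Function.Bijective (L i)) ∧
      (∀ j : Fin n, Function.Bijective (fun i : Fin n => L i j)) ∧
      ∀ m : ℕ, 1 ≤ m → 2 * m ≤ n →
        ∃ R C S : Finset (Fin n),
          R.card = m ∧ C.card = m ∧ S.card = m ∧
          ∀ r ∈ R, ∀ c ∈ C, L r c ∈ S) := by
  intro H
  obtain ⟨L, hrow, hcol, hsub⟩ := H 8
  obtain ⟨R4, C4, S4, hR4, hC4, hS4, h4⟩ := hsub 4 (by norm_num) (by norm_num)
  obtain ⟨R, C, S, hR, hC, hS, h3⟩ := hsub 3 (by norm_num) (by norm_num)
  have hr : ∀ i, Function.Injective (L i) := fun i => (hrow i).1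
  have hc : ∀ j, Function.Injective (fun i => L i j) := fun j => (hcol j).1
  -- the four blocks
  have b1 : ∀ r ∈ R4, ∀ c, c ∉ C4 → L r c ∉ S4 := fun r hr4 c hc4 =>
    not_mem_of (hr r) (h4 r hr4) (by rw [hS4, hC4]) hc4
  have b2 : ∀ r, r ∉ R4 → ∀ c ∈ C4, L r c ∉ S4 := fun r hr4 c hc4 =>
    not_mem_of (hc c) (fun a ha => h4 a ha c hc4) (by rw [hS4, hR4]) hr4
  have b3 : ∀ r, r ∉ R4 → ∀ c, c ∉ C4 → L r c ∈ S4 := by
    intro r hr4 c hc4
    have := not_mem_of (B := S4ᶜ) (hr r) (fun a ha => Finset.mem_compl.2 (b2 r hr4 a ha))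
      (by rw [Finset.card_compl, hS4, hC4, Fintype.card_fin]) hc4
    simpa using this
  -- row counting
  have cnt1 : ∀ r ∈ R, r ∈ R4 → (C.filter (· ∈ C4)).card = (S.filter (· ∈ S4)).card := by
    intro r hrR hr4
    rw [← image_eq (hr r) (h3 r hrR) (by rw [hS, hC]), Finset.filter_image,
      Finset.card_image_of_injective _ (hr r)]
    congr 1
    apply Finset.filter_congr
    intro c _
    constructor
    · intro hc4; exact h4 r hr4 c hc4
    · intro hs; by_contra hc4; exact b1 r hr4 c hc4 hs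
  have cnt2 : ∀ r ∈ R, r ∉ R4 → (C.filter (· ∈ C4)).card = (S.filter (¬ · ∈ S4)).card := by
    intro r hrR hr4
    rw [← image_eq (hr r) (h3 r hrR) (by rw [hS, hC]), Finset.filter_image,
      Finset.card_image_of_injective _ (hr r)]
    congr 1
    apply Finset.filter_congr
    intro c _
    constructor
    · intro hc4; exact b2 r hr4 c hc4
    · intro hs; by_contra hc4; exact hs (b3 r hr4 c hc4)
  have cnt1' : ∀ c ∈ C, c ∈ C4 → (R.filter (· ∈ R4)).card = (S.filter (· ∈ S4)).card := by
    intro c hcC hc4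
    have hi : R.image (fun i => L i c) = S :=
      image_eq (hc c) (fun a ha => h3 a ha c hcC) (by rw [hS, hR])
    rw [← hi, Finset.filter_image, Finset.card_image_of_injective _ (hc c)]
    congr 1
    apply Finset.filter_congr
    intro r _
    constructor
    · intro hr4; exact h4 r hr4 c hc4
    · intro hs; by_contra hr4; exact b2 r hr4 c hc4 hs
  have cnt2' : ∀ c ∈ C, c ∉ C4 → (R.filter (· ∈ R4)).card = (S.filter (¬ · ∈ S4)).card := by
    intro c hcC hc4
    have hi : R.image (fun i => L i c) = S :=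
      image_eq (hc c) (fun a ha => h3 a ha c hcC) (by rw [hS, hR])
    rw [← hi, Finset.filter_image, Finset.card_image_of_injective _ (hc c)]
    congr 1
    apply Finset.filter_congr
    intro r _
    constructor
    · intro hr4; exact b1 r hr4 c hc4
    · intro hs; by_contra hr4; exact hs (b3 r hr4 c hc4)
  have hsum : (S.filter (· ∈ S4)).card + (S.filter (¬ · ∈ S4)).card = 3 := by
    rw [Finset.card_filter_add_card_filter_not, hS]
  have rowsame : (∀ r ∈ R, r ∈ R4) ∨ (∀ r ∈ R, r ∉ R4) := by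
    by_contra hcon
    push Not at hcon
    obtain ⟨⟨r, hrR, hr4⟩, ⟨r', hrR', hr4'⟩⟩ := hcon
    have e1 := cnt2 r hrR hr4
    have e2 := cnt1 r' hrR' hr4'
    omega
  have colsame : (∀ c ∈ C, c ∈ C4) ∨ (∀ c ∈ C, c ∉ C4) := by
    by_contra hcon
    push Not at hcon
    obtain ⟨⟨c, hcC, hc4⟩, ⟨c', hcC', hc4'⟩⟩ := hcon
    have e1 := cnt2' c hcC hc4
    have e2 := cnt1' c' hcC' hc4'
    omega
  have hR4c : R4ᶜ.card = 4 := by rw [Finset.card_compl, hR4, Fintype.card_fin]
  have hS4c : S4ᶜ.card = 4 := by rw [Finset.card_compl, hS4, Fintype.card_fin]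
  rcases rowsame with hrs | hrs <;> rcases colsame with hcs | hcs
  · exact no_block hr hc hR hC hS hR4 hS4 hrs h3 (fun r hr' c hc' => h4 r hr' c (hcs c hc'))
  · exact no_block hr hc hR hC hS hR4 hS4c hrs h3
      (fun r hr' c hc' => Finset.mem_compl.2 (b1 r hr' c (hcs c hc')))
  · exact no_block hr hc hR hC hS hR4c hS4c (fun r h => Finset.mem_compl.2 (hrs r h)) h3
      (fun r hr' c hc' => Finset.mem_compl.2 (b2 r (Finset.mem_compl.1 hr') c (hcs c hc')))
  · exact no_block hr hc hR hC hS hR4c hS4 (fun r h => Finset.mem_compl.2 (hrs r h)) h3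
      (fun r hr' c hc' => b3 r (Finset.mem_compl.1 hr') c (hcs c hc'))

end Pool.Agent.S08268
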