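-- Proof of the frozen statement S08467, built on the starting file
-- Pool/Agent/Results/MP_45c2e2_co/TwoThirds.lean (r_d(N) >= N^(d-100) for d <= 288 and N large).
import Pool.Statements.S08467
import Pool.Agent.Results.MP_45c2e2_co.TwoThirds

set_option autoImplicit false
open Pool Pool.MP_45c2e2_co

namespace Pool.Agent.S08467

open Module Pool.Agent.Results.MP_45c2e2_co.TwoThirds in
/-- A subspace of dimension at most two is contained in one of dimension exactly two. -/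
theorem exists_ge_finrank_two {V : Type*} [AddCommGroup V] [Module ℝ V] [FiniteDimensional ℝ V]
    (hV : 2 ≤ finrank ℝ V) : ∀ (j : ℕ) (W : Submodule ℝ V), finrank ℝ W + j = 2 →
    ∃ W' : Submodule ℝ V, W ≤ W' ∧ finrank ℝ W' = 2 := by
  intro j
  induction j with
  | zero => intro W hW; exact ⟨W, le_refl _, by simpa using hW⟩
  | succ j ih =>
    intro W hW
    have hne : W ≠ ⊤ := by
      rintro rfl
      rw [finrank_top] at hW
      omega
    obtain ⟨v, hv⟩ : ∃ v, v ∉ W := by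
      by_contra hcon
      push Not at hcon
      exact hne (eq_top_iff.2 fun x _ => hcon x)
    have h1 := Submodule.finrank_sup_span_singleton (K := ℝ) hv
    obtain ⟨W', hW', h2⟩ := ih (W ⊔ Submodule.span ℝ {v}) (by rw [h1]; omega)
    exact ⟨W', le_trans le_sup_left hW', h2⟩

open Module Pool.Agent.Results.MP_45c2e2_co.TwoThirds in
theorem aux (N : ℕ) (hr : (N : ℝ) ^ (((288 : ℕ) : ℝ) - 100) ≤ (r 288 N : ℝ)) :
      ∃ A : Finset (Fin 288 → ℝ),
        (∀ x ∈ A, ∀ i : Fin 288, ∃ k : ℕ, 1 ≤ k ∧ k ≤ N ∧ x i = (k : ℝ)) ∧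
        (∀ S : Finset (Fin 288 → ℝ), S ⊆ A → S.card = 5 →
          ¬ Coplanar ℝ (S : Set (Fin 288 → ℝ))) ∧
        N ^ (288 - 100) ≤ A.card := by
  classical
  have hmem : r 288 N ∈ {n | ∃ A : Finset (Fin 288 → ℤ), (∀ a ∈ A, ∀ i, 1 ≤ a i ∧ a i ≤ N) ∧
      NoFive (A : Set (Fin 288 → ℤ)) ∧ A.card = n} := by
    apply Nat.sSup_mem _ (r_bdd 288 N)
    refine ⟨0, ∅, by simp, ?_, by simp⟩
    intro P _
    simp
  obtain ⟨A, hA1, hA2, hA3⟩ := hmem
  let f : (Fin 288 → ℤ) → (Fin 288 → ℝ) := fun a i => (a i : ℝ)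
  have hf : Function.Injective f := by
    intro a b hab
    funext i
    have h : ((a i : ℤ) : ℝ) = ((b i : ℤ) : ℝ) := congrFun hab i
    exact_mod_cast h
  refine ⟨A.map ⟨f, hf⟩, ?_, ?_, ?_⟩
  · intro x hx i
    rw [Finset.mem_map] at hx
    obtain ⟨a, ha, rfl⟩ := hx
    obtain ⟨h1, h2⟩ := hA1 a ha i
    refine ⟨(a i).toNat, by omega, by omega, ?_⟩
    have h3 : ((a i).toNat : ℤ) = a i := Int.toNat_of_nonneg (by omega)
    show ((a i : ℤ) : ℝ) = _
    exact_mod_cast h3.symm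
  · intro S hS hcard hcop
    have hSne : S.Nonempty := by rw [← Finset.card_pos]; omega
    obtain ⟨p, hp⟩ := hSne
    have hfr : finrank ℝ (vectorSpan ℝ (S : Set (Fin 288 → ℝ))) ≤ 2 := by
      have := hcop.finrank_le_two
      exact this
    obtain ⟨W', hW', hW2⟩ := exists_ge_finrank_two (V := Fin 288 → ℝ) (by simp)
      (2 - finrank ℝ (vectorSpan ℝ (S : Set (Fin 288 → ℝ))))
      (vectorSpan ℝ (S : Set (Fin 288 → ℝ))) (by omega)
    have key := hA2 (AffineSubspace.mk' p W') (by rw [AffineSubspace.direction_mk']; exact hW2)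
    -- the preimage of S
    let T : Finset (Fin 288 → ℤ) := A.filter (fun a => f a ∈ S)
    have hT : T.map ⟨f, hf⟩ = S := by
      ext x
      rw [Finset.mem_map]
      constructor
      · rintro ⟨a, ha, rfl⟩
        exact (Finset.mem_filter.1 ha).2
      · intro hx
        obtain ⟨a, ha, rfl⟩ := Finset.mem_map.1 (hS hx)
        exact ⟨a, Finset.mem_filter.2 ⟨ha, hx⟩, rfl⟩
    have hTc : T.card = 5 := by rw [← hcard, ← hT, Finset.card_map]
    have hsub : (T : Set (Fin 288 → ℤ)) ⊆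
        {a | a ∈ (A : Set (Fin 288 → ℤ)) ∧ (fun i => (a i : ℝ)) ∈ AffineSubspace.mk' p W'} := by
      intro a ha
      have ha' := Finset.mem_filter.1 (Finset.mem_coe.1 ha)
      refine ⟨ha'.1, ?_⟩
      rw [AffineSubspace.mem_mk']
      apply hW'
      exact vsub_mem_vectorSpan ℝ (Finset.mem_coe.2 ha'.2) (Finset.mem_coe.2 hp)
    have h5 := (Set.encard_le_encard hsub).trans key
    rw [Set.encard_coe_eq_coe_finsetCard, hTc] at h5
    norm_num at h5
  · rw [Finset.card_map, hA3]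
    have h1 : ((N ^ (288 - 100) : ℕ) : ℝ) ≤ (r 288 N : ℝ) := by
      refine le_trans (le_of_eq ?_) hr
      have h2 : (((288 : ℕ) : ℝ) - 100) = ((188 : ℕ) : ℝ) := by norm_num
      rw [h2, Real.rpow_natCast]
      push_cast
      norm_num
    exact_mod_cast h1

/-- There is a dimension d > 100 such that for all large N, some subset of the grid {1..N}^d with at least N^(d-100) points has no 5 distinct points on a common 2-plane. -/
theorem result :
    ∃ d : ℕ, 100 < d ∧ ∃ N₀ : ℕ, ∀ N : ℕ, N₀ ≤ N →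
      ∃ A : Finset (Fin d → ℝ),
        (∀ x ∈ A, ∀ i : Fin d, ∃ k : ℕ, 1 ≤ k ∧ k ≤ N ∧ x i = (k : ℝ)) ∧
        (∀ S : Finset (Fin d → ℝ), S ⊆ A → S.card = 5 →
          ¬ Coplanar ℝ (S : Set (Fin d → ℝ))) ∧
        N ^ (d - 100) ≤ A.card := by
  refine ⟨288, by norm_num, ?_⟩
  obtain ⟨N₀, hN₀⟩ := Pool.Agent.Results.MP_45c2e2_co.TwoThirds.result.2 288 (le_refl _)
  exact ⟨N₀, fun N hN => aux N (hN₀ N hN)⟩

end Pool.Agent.S08467
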