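import Pool.Statements.S08686
-- import your own Pool.Agent.* helpers here

set_option autoImplicit false
open Pool Pool.MP_4e7ec3_co

namespace Pool.Agent.S08686

/-- The block map on indices: blocks of six indices, the two anchors `6m+1` and `6m+4`. -/
def t (j : ℕ) : ℕ := if j % 6 < 3 then 6 * (j / 6) + 4 else 6 * (j / 6) + 1

/-- The grid `{j/17 : j = 0, …, 17}`. -/
noncomputable def G : Finset ℝ := (Finset.range 18).image (fun j : ℕ => (j : ℝ) / 17)

/-- The self-map of the grid induced by the block map. -/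
noncomputable def TT (x : ℝ) : ℝ := (t ⌊17 * x + 1 / 2⌋₊ : ℝ) / 17

theorem mem_G {j : ℕ} (h : j < 18) : ((j : ℝ) / 17) ∈ G :=
  Finset.mem_image.2 ⟨j, Finset.mem_range.2 h, rfl⟩

theorem of_mem_G {x : ℝ} (h : x ∈ G) : ∃ j : ℕ, j < 18 ∧ x = (j : ℝ) / 17 := by
  obtain ⟨j, hj, rfl⟩ := Finset.mem_image.1 h
  exact ⟨j, Finset.mem_range.1 hj, rfl⟩

theorem TT_grid (j : ℕ) : TT ((j : ℝ) / 17) = (t j : ℝ) / 17 := by
  unfold TT
  have : ⌊17 * ((j : ℝ) / 17) + 1 / 2⌋₊ = j := by
    rw [Nat.floor_eq_iff (by positivity)]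
    constructor <;> nlinarith
  rw [this]

theorem step_index {j m : ℕ} (hj : j < 18)
    (hstep : ((m : ℝ) / 17) = TT ((j : ℝ) / 17) ∨
      (((m : ℝ) / 17) ∈ G ∧ ((m : ℝ) / 17) < TT ((j : ℝ) / 17) ∧
        ∀ r ∈ G, r < TT ((j : ℝ) / 17) → r ≤ ((m : ℝ) / 17)) ∨
      (((m : ℝ) / 17) ∈ G ∧ TT ((j : ℝ) / 17) < ((m : ℝ) / 17) ∧
        ∀ r ∈ G, TT ((j : ℝ) / 17) < r → ((m : ℝ) / 17) ≤ r)) :
    m < 18 ∧ m / 6 = j / 6 := by
  rw [TT_grid] at hstep
  have h17 : (0 : ℝ) < 17 := by norm_num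
  have ht : t j = 6 * (j / 6) + 4 ∨ t j = 6 * (j / 6) + 1 := by
    unfold t; split_ifs <;> simp
  rcases hstep with h | ⟨_, hlt, hmax⟩ | ⟨_, hlt, hmin⟩
  · have : (m : ℝ) = t j := by
      have := congrArg (fun z => z * 17) h
      simpa using this
    have : m = t j := by exact_mod_cast this
    omega
  · rw [div_lt_div_iff_of_pos_right h17] at hlt
    have h1 : m < t j := by exact_mod_cast hlt
    have h2 : ((t j - 1 : ℕ) : ℝ) / 17 ≤ (m : ℝ) / 17 := by
      apply hmax
      · exact mem_G (by omega)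
      · rw [div_lt_div_iff_of_pos_right h17]
        have : t j - 1 < t j := by omega
        exact_mod_cast this
    rw [div_le_div_iff_of_pos_right h17] at h2
    have h3 : t j - 1 ≤ m := by exact_mod_cast h2
    omega
  · rw [div_lt_div_iff_of_pos_right h17] at hlt
    have h1 : t j < m := by exact_mod_cast hlt
    have h2 : (m : ℝ) / 17 ≤ ((t j + 1 : ℕ) : ℝ) / 17 := by
      apply hmin
      · exact mem_G (by omega)
      · rw [div_lt_div_iff_of_pos_right h17]
        have : t j < t j + 1 := by omega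
        exact_mod_cast this
    rw [div_le_div_iff_of_pos_right h17] at h2
    have h3 : m ≤ t j + 1 := by exact_mod_cast h2
    omega

/-- The negation of the preceding statement: There is a constant k such that for every finite F in [0,1] containing 0 and 1, every ε>0, and every T:F→F moving each point by more than ε, some p₀ in F reaches a point at distance at least 1/3 in at most k/ε steps, each step going to T(p) or a neighbour of T(p) in F. -/
theorem result :
    ¬ (∃ k : ℝ, ∀ (F : Finset ℝ) (ε : ℝ) (T : ℝ → ℝ),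
      (∀ p ∈ F, 0 ≤ p ∧ p ≤ 1) → (0 : ℝ) ∈ F → (1 : ℝ) ∈ F → 0 < ε →
      (∀ p ∈ F, T p ∈ F ∧ ε < |p - T p|) →
      ∃ p₀ ∈ F, ∃ n : ℕ, (n : ℝ) ≤ k / ε ∧
        ∃ x : ℕ → ℝ, x 0 = p₀ ∧
          (∀ i < n,
            x (i + 1) = T (x i) ∨
            (x (i + 1) ∈ F ∧ x (i + 1) < T (x i) ∧
              ∀ r ∈ F, r < T (x i) → r ≤ x (i + 1)) ∨
            (x (i + 1) ∈ F ∧ T (x i) < x (i + 1) ∧
              ∀ r ∈ F, T (x i) < r → x (i + 1) ≤ r)) ∧
          1 / 3 ≤ |x n - p₀|) := by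
  rintro ⟨k, hk⟩
  obtain ⟨p₀, hp₀, n, -, x, hx0, hstep, hfar⟩ := hk G (1 / 17) TT
    (by
      intro p hp
      obtain ⟨j, hj, rfl⟩ := of_mem_G hp
      constructor
      · positivity
      · rw [div_le_one (by norm_num)]
        have : j ≤ 17 := by omega
        exact_mod_cast this)
    (by simpa using mem_G (j := 0) (by norm_num))
    (by simpa using mem_G (j := 17) (by norm_num))
    (by norm_num)
    (by
      intro p hp
      obtain ⟨j, hj, rfl⟩ := of_mem_G hp
      rw [TT_grid]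
      have ht : t j < 18 := by unfold t; split_ifs <;> omega
      refine ⟨mem_G ht, ?_⟩
      rw [← sub_div, abs_div, abs_of_pos (by norm_num : (0 : ℝ) < 17)]
      rw [div_lt_div_iff_of_pos_right (by norm_num)]
      rcases (show j + 2 ≤ t j ∨ t j + 2 ≤ j by unfold t; split_ifs <;> omega) with h | h
      · have : (j : ℝ) + 2 ≤ t j := by exact_mod_cast h
        rw [abs_sub_comm, abs_of_nonneg (by linarith)]
        linarith
      · have : (t j : ℝ) + 2 ≤ j := by exact_mod_cast h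
        rw [abs_of_nonneg (by linarith)]
        linarith)
  obtain ⟨j₀, hj₀, rfl⟩ := of_mem_G hp₀
  have key : ∀ i ≤ n, ∃ j : ℕ, j < 18 ∧ j / 6 = j₀ / 6 ∧ x i = (j : ℝ) / 17 := by
    intro i
    induction i with
    | zero => intro _; exact ⟨j₀, hj₀, rfl, hx0⟩
    | succ i ih =>
      intro hi
      obtain ⟨j, hj, hb, hxj⟩ := ih (by omega)
      have hs := hstep i (by omega)
      have hG : x (i + 1) ∈ G := by
        rcases hs with h | h | h
        · rw [h, hxj, TT_grid]
          exact mem_G (by unfold t; split_ifs <;> omega)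
        · exact h.1
        · exact h.1
      obtain ⟨m, hm, hxm⟩ := of_mem_G hG
      rw [hxm, hxj] at hs
      obtain ⟨h1, h2⟩ := step_index hj hs
      exact ⟨m, h1, by omega, hxm⟩
  obtain ⟨j, hj, hb, hxj⟩ := key n le_rfl
  rw [hxj, ← sub_div, abs_div, abs_of_pos (by norm_num : (0 : ℝ) < 17)] at hfar
  have h5 : |(j : ℝ) - j₀| ≤ 5 := by
    rw [abs_le]
    have h1 : j ≤ j₀ + 5 := by omega
    have h2 : j₀ ≤ j + 5 := by omega
    have h1' : (j : ℝ) ≤ j₀ + 5 := by exact_mod_cast h1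
    have h2' : (j₀ : ℝ) ≤ j + 5 := by exact_mod_cast h2
    constructor <;> linarith
  have : |(j : ℝ) - j₀| / 17 ≤ 5 / 17 := by gcongr
  norm_num at hfar this
  linarith

end Pool.Agent.S08686
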