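import Pool.Statements.S08708
-- import your own Pool.Agent.* helpers here

set_option autoImplicit false
open Pool Pool.MP_4f9096_co

namespace Pool.Agent.S08708

/-- A 5 × 5 array in which every symbol occurs at most four times, without a latin transversal. -/
def arr : Fin 5 → Fin 5 → ℕ :=
  ![![4, 0, 0, 2, 3], ![3, 1, 1, 5, 5], ![4, 0, 0, 2, 3], ![1, 6, 6, 1, 2], ![6, 5, 5, 4, 6]]

theorem arr_le : ∀ p : Fin 5 × Fin 5, arr p.1 p.2 ≤ 6 := by decide

theorem arr_count (s : ℕ) :
    (Finset.univ.filter (fun p : Fin 5 × Fin 5 => arr p.1 p.2 = s)).card ≤ 5 - 1 := by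
  by_cases hs : s ≤ 6
  · interval_cases s <;> decide +kernel
  · have : (Finset.univ.filter (fun p : Fin 5 × Fin 5 => arr p.1 p.2 = s)) = ∅ := by
      apply Finset.filter_eq_empty_iff.2
      intro p _ hp
      have := arr_le p
      omega
    rw [this]
    simp

theorem arr_no : ∀ σ : Equiv.Perm (Fin 5), ¬ Function.Injective (fun i : Fin 5 => arr i (σ i)) := by
  decide +kernel

/-- The negation of the preceding statement: For every n and every n×n array of natural-number symbols in which each symbol occurs in at most n−1 cells, there is a permutation σ such that the entries A(i, σ(i)) are pairwise distinct. -/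
theorem result :
    ¬ (∀ (n : ℕ) (A : Fin n → Fin n → ℕ),
      (∀ s : ℕ, (Finset.univ.filter (fun p : Fin n × Fin n => A p.1 p.2 = s)).card ≤ n - 1) →
      ∃ σ : Equiv.Perm (Fin n), Function.Injective (fun i : Fin n => A i (σ i))) := by
  intro h
  obtain ⟨σ, hσ⟩ := h 5 arr arr_count
  exact arr_no σ hσ

end Pool.Agent.S08708
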