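import Pool.Statements.S08825
import Pool.Agent.X57.PP.Final

set_option autoImplicit false
open Pool Pool.MP_5651c1_co

namespace Pool.Agent.S08825

/-- For every t there is c>0 such that every finite path-pairable graph on n≥2 vertices with no K_t minor has a vertex of degree at least c·n. -/
theorem result :
    ∀ t : ℕ, ∃ c : ℝ, 0 < c ∧
      ∀ (V : Type) [Fintype V] (G : SimpleGraph V) [DecidableRel G.Adj],
        2 ≤ Fintype.card V →
        (∀ (k : ℕ) (s r : Fin k → V), Function.Injective (Sum.elim s r) →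
          ∃ p : (i : Fin k) → G.Walk (s i) (r i),
            (∀ i, (p i).IsPath) ∧
            ∀ i j, i ≠ j → ∀ e ∈ (p i).edges, e ∉ (p j).edges) →
        (¬ ∃ f : Fin t → Set V,
            (∀ i, (G.induce (f i)).Connected) ∧
            (∀ i j, i ≠ j → Disjoint (f i) (f j)) ∧
            (∀ i j, i ≠ j → ∃ u ∈ f i, ∃ v ∈ f j, G.Adj u v)) →
        ∃ v : V, c * (Fintype.card V : ℝ) ≤ (G.degree v : ℝ) := by
  intro t
  have hK : 0 < Pool.Agent.X57.PP.KK t := by
    unfold Pool.Agent.X57.PP.KK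
    positivity
  have hKr : (0 : ℝ) < (Pool.Agent.X57.PP.KK t : ℝ) := by exact_mod_cast hK
  refine ⟨1 / (Pool.Agent.X57.PP.KK t : ℝ), by positivity, ?_⟩
  intro V _ G _ hn hpp hno
  classical
  obtain ⟨v, hv⟩ := Pool.Agent.X57.PP.main_nat G t hn hpp hno
  refine ⟨v, ?_⟩
  rw [one_div, inv_mul_le_iff₀ hKr]
  exact_mod_cast hv

end Pool.Agent.S08825
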