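import Pool.Statements.S09515
import Pool.Agent.X161.CS.Non

set_option autoImplicit false
open Pool Pool.MP_7470ba_co

namespace Pool.Agent.S09515

/-- For some d there is a finite pure d-dimensional simplicial complex whose realization is homeomorphic to the d-sphere, which is constructible, and whose facets admit no shelling order. -/
theorem result :
  ∃ (d n : ℕ) (F : Finset (Finset (Fin n))),
    (∀ σ ∈ F, σ.card = d + 1) ∧
    Nonempty ({x : Fin n → ℝ | (∀ i, 0 ≤ x i) ∧ ∑ i, x i = 1 ∧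
        ∃ σ ∈ F, ∀ i, x i ≠ 0 → i ∈ σ} ≃ₜ
      Metric.sphere (0 : EuclideanSpace ℝ (Fin (d + 1))) 1) ∧
    (∀ P : ℕ → Finset (Finset (Fin n)) → Prop,
      (∀ σ : Finset (Fin n), P σ.card {σ}) →
      (∀ (k : ℕ) (F₁ F₂ G : Finset (Finset (Fin n))), 1 ≤ k →
        (∀ σ ∈ F₁, σ.card = k) → (∀ σ ∈ F₂, σ.card = k) → P k F₁ → P k F₂ →
        (∀ γ ∈ G, γ.card = k - 1) →
        (∀ ρ : Finset (Fin n), (∃ γ ∈ G, ρ ⊆ γ) ↔
          (∃ σ ∈ F₁, ∃ τ ∈ F₂, ρ ⊆ σ ∧ ρ ⊆ τ)) →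
        P (k - 1) G → P k (F₁ ∪ F₂)) →
      P (d + 1) F) ∧
    ¬ ∃ L : List (Finset (Fin n)), L.Nodup ∧ L.toFinset = F ∧
      ∀ i j : Fin L.length, i < j → ∃ k : Fin L.length, k < j ∧
        L.get i ∩ L.get j ⊆ L.get k ∩ L.get j ∧ (L.get j \ L.get k).card = 1 := by
  refine ⟨3, 24, Pool.Agent.X161.CS.fm 24 Pool.Agent.X161.CS.LS,
    Pool.Agent.X161.CS.cst.1, Pool.Agent.X161.CS.sphere, ?_, ?_⟩
  · intro P h1 h2
    exact Pool.Agent.X161.CS.cst.2 P ⟨h1, h2⟩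
  · rintro ⟨L, -, hL, h⟩
    have hs := Pool.Agent.X161.CS.shell_of_get L h L.length le_rfl
    rw [List.take_length] at hs
    refine Pool.Agent.X161.CS.no_shell L.reverse hs (fun F => ?_)
    rw [List.mem_reverse, ← hL, List.mem_toFinset]

end Pool.Agent.S09515
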