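-- Proof of frozen statement S09613: arbitrarily long extremal square-free permutations.
import Pool.Statements.S09613
import Pool.Agent.X37.Ext4

set_option autoImplicit false
open Pool Pool.MP_78b1ee_co

namespace Pool.Agent.S09613

open Pool.Agent.X37.Ext

theorem getD_map (f : ℕ → ℚ) {n j : ℕ} (h : j < n) :
    ((List.range n).map f).getD j 0 = f j := by
  rw [List.getD_eq_getElem?_getD, List.getElem?_map, List.getElem?_range h]
  rfl

theorem getD_ins (f : ℕ → ℚ) {n p j : ℕ} (x : ℚ) (hp : p ≤ n) (h : j < n + 1) :
    (((List.range n).map f).take p ++ x :: ((List.range n).map f).drop p).getD j 0 =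
      ins f p x j := by
  have hl : (((List.range n).map f).take p).length = p := by
    rw [List.length_take, List.length_map, List.length_range]
    omega
  rw [List.getD_eq_getElem?_getD]
  rcases lt_trichotomy j p with h1 | h1 | h1
  · rw [List.getElem?_append_left (by omega), List.getElem?_take_of_lt h1, ins_lt _ _ h1,
      List.getElem?_map, List.getElem?_range (by omega)]
    rfl
  · subst h1
    rw [List.getElem?_append_right (by omega), hl, Nat.sub_self, ins_eq]
    rfl
  · obtain ⟨i, rfl⟩ : ∃ i, j = i + 1 := ⟨j - 1, by omega⟩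
    rw [List.getElem?_append_right (by omega), hl, show i + 1 - p = (i - p) + 1 by omega,
      List.getElem?_cons_succ, List.getElem?_drop, show p + (i - p) = i by omega,
      List.getElem?_map, List.getElem?_range (by omega), ins_gt _ _ (by omega)]
    rfl

/-- For every N there is a list of distinct rationals of length at least N with no two adjacent order-isomorphic blocks of length at least 2, such that inserting any new value at any position creates such a pair. -/
theorem result :
    ∀ N : ℕ, ∃ w : List ℚ, N ≤ w.length ∧ w.Nodup ∧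
      (¬ ∃ i ℓ : ℕ, 2 ≤ ℓ ∧ i + 2 * ℓ ≤ w.length ∧
          ∀ a < ℓ, ∀ b < ℓ,
            (w.getD (i + a) 0 < w.getD (i + b) 0 ↔
              w.getD (i + ℓ + a) 0 < w.getD (i + ℓ + b) 0)) ∧
      ∀ p : ℕ, p ≤ w.length → ∀ x : ℚ, x ∉ w →
        ∃ i ℓ : ℕ, 2 ≤ ℓ ∧ i + 2 * ℓ ≤ w.length + 1 ∧
          ∀ a < ℓ, ∀ b < ℓ,
            ((w.take p ++ x :: w.drop p).getD (i + a) 0 <
                (w.take p ++ x :: w.drop p).getD (i + b) 0 ↔
              (w.take p ++ x :: w.drop p).getD (i + ℓ + a) 0 <
                (w.take p ++ x :: w.drop p).getD (i + ℓ + b) 0) := by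
  intro N
  obtain ⟨t, ht, w, hw⟩ := exists_good N
  have hlen : ((List.range (16 * t + 29)).map (F t w)).length = 16 * t + 29 := by
    rw [List.length_map, List.length_range]
  refine ⟨(List.range (16 * t + 29)).map (F t w), ?_, ?_, ?_, ?_⟩
  · rw [hlen]
    omega
  · refine List.Nodup.map_on ?_ List.nodup_range
    intro a ha b hb h
    rw [List.mem_range] at ha hb
    exact F_inj hw ha hb h
  · rintro ⟨i, ℓ, h2, hi, h⟩
    rw [hlen] at hi
    refine F_sqFree hw i ℓ h2 hi ?_
    intro a ha b hb
    have := h a ha b hb
    rw [getD_map _ (by omega), getD_map _ (by omega), getD_map _ (by omega),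
      getD_map _ (by omega)] at this
    exact this
  · intro p hp x hx
    rw [hlen] at hp ⊢
    have hx' : ∀ j < 16 * t + 29, x ≠ F t w j := by
      intro j hj e
      exact hx (List.mem_map.2 ⟨j, List.mem_range.2 hj, e.symm⟩)
    obtain ⟨i, ℓ, h2, hi, h⟩ := hasSq_ins hw p hp x hx'
    refine ⟨i, ℓ, h2, hi, ?_⟩
    intro a ha b hb
    rw [getD_ins _ _ hp (by omega), getD_ins _ _ hp (by omega), getD_ins _ _ hp (by omega),
      getD_ins _ _ hp (by omega)]
    exact h a ha b hb

end Pool.Agent.S09613
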