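import Pool.Statements.S09825
import Pool.Agent.X45.HypDeg

set_option autoImplicit false
open Classical
open Pool Pool.MP_837616_co

namespace Pool.Agent.S09825

open Finset Pool.Agent.X45

/-- Near pairs. -/
noncomputable def NP {n : ℕ} (t : ℤ) (H : Finset (Finset (Fin n))) : Finset (Fin n × Fin n) :=
  (univ : Finset (Fin n)).offDiag.filter (fun p => |(dg H p.1 : ℤ) - dg H p.2| ≤ t)

/-- Near triples. -/
def Tri {n : ℕ} (t : ℤ) (H : Finset (Finset (Fin n))) : Prop :=
  ∃ a b c : Fin n, a ≠ b ∧ a ≠ c ∧ b ≠ c ∧ |(dg H a : ℤ) - dg H c| ≤ t ∧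
    |(dg H b : ℤ) - dg H c| ≤ t

/-- Controlled hypergraphs. -/
noncomputable def BB (n K j : ℕ) : Finset (Finset (Finset (Fin n))) :=
  (EU n 5).powerset.filter (fun H => ¬ Tri (1 + j) H ∧ (NP (1 + j) H).card ≤ K ∧
    (NP 0 H).card ≤ j)

lemma flip_dg {n : ℕ} (H : Finset (Finset (Fin n))) (e : Finset (Fin n)) (x : Fin n) :
    (dg (symmDiff H {e}) x : ℤ) = dg H x + (if x ∈ e then (if e ∈ H then -1 else 1) else 0) := by
  by_cases he : e ∈ H
  · have h1 : symmDiff H {e} = H.erase e := by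
      ext f
      rw [mem_symmDiff, mem_singleton, mem_erase]
      constructor
      · rintro (h | h)
        · exact ⟨h.2, h.1⟩
        · exact absurd (h.1 ▸ he) h.2
      · rintro ⟨h, h'⟩
        exact Or.inl ⟨h', h⟩
    rw [h1]
    unfold dg
    by_cases hx : x ∈ e
    · have h2 : (H.erase e).filter (fun f => x ∈ f) = (H.filter (fun f => x ∈ f)).erase e := by
        ext f; simp only [mem_filter, mem_erase]; tauto
      rw [h2, card_erase_of_mem (mem_filter.2 ⟨he, hx⟩)]
      have h3 : 0 < (H.filter (fun f => x ∈ f)).card := card_pos.2 ⟨e, mem_filter.2 ⟨he, hx⟩⟩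
      simp only [hx, he, if_true]
      omega
    · have h2 : (H.erase e).filter (fun f => x ∈ f) = (H.filter (fun f => x ∈ f)) := by
        ext f; simp only [mem_filter, mem_erase]
        constructor
        · rintro ⟨⟨_, h⟩, h'⟩; exact ⟨h, h'⟩
        · rintro ⟨h, h'⟩
          refine ⟨⟨?_, h⟩, h'⟩
          rintro rfl
          exact hx h'
      rw [h2]
      simp [hx]
  · have h1 : symmDiff H {e} = insert e H := by
      ext f
      rw [mem_symmDiff, mem_singleton, mem_insert]
      constructor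
      · rintro (h | h)
        · exact Or.inr h.1
        · exact Or.inl h.1
      · rintro (h | h)
        · subst h; exact Or.inr ⟨rfl, he⟩
        · refine Or.inl ⟨h, ?_⟩
          rintro rfl
          exact he h
    rw [h1]
    unfold dg
    by_cases hx : x ∈ e
    · rw [filter_insert, if_pos hx, card_insert_of_notMem (fun h => he (mem_filter.1 h).1)]
      simp [hx, he]
    · rw [filter_insert, if_neg hx]
      simp [hx]

lemma NP_mono {n : ℕ} {s t : ℤ} (hst : s ≤ t) (H : Finset (Finset (Fin n))) : NP s H ⊆ NP t H := by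
  intro p hp
  unfold NP at hp ⊢
  rw [mem_filter] at hp ⊢
  exact ⟨hp.1, hp.2.trans hst⟩

lemma Tri_mono {n : ℕ} {s t : ℤ} (hst : s ≤ t) {H : Finset (Finset (Fin n))} (h : Tri s H) :
    Tri t H := by
  obtain ⟨a, b, c, h1, h2, h3, h4, h5⟩ := h
  exact ⟨a, b, c, h1, h2, h3, h4.trans hst, h5.trans hst⟩

lemma flip_abs {n : ℕ} (H : Finset (Finset (Fin n))) (e : Finset (Fin n)) (x y : Fin n) (t : ℤ)
    (h : |(dg (symmDiff H {e}) x : ℤ) - dg (symmDiff H {e}) y| ≤ t) :
    |(dg H x : ℤ) - dg H y| ≤ t + 1 := by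
  rw [flip_dg, flip_dg] at h
  rw [abs_le] at h ⊢
  split_ifs at h <;> omega

lemma flip_NP {n : ℕ} (H : Finset (Finset (Fin n))) (e : Finset (Fin n)) (t : ℤ) :
    NP t (symmDiff H {e}) ⊆ NP (t + 1) H := by
  intro p hp
  unfold NP at hp ⊢
  rw [mem_filter] at hp ⊢
  exact ⟨hp.1, flip_abs H e _ _ t hp.2⟩

lemma flip_Tri {n : ℕ} (H : Finset (Finset (Fin n))) (e : Finset (Fin n)) (t : ℤ)
    (h : Tri t (symmDiff H {e})) : Tri (t + 1) H := by
  obtain ⟨a, b, c, h1, h2, h3, h4, h5⟩ := h
  exact ⟨a, b, c, h1, h2, h3, flip_abs H e _ _ t h4, flip_abs H e _ _ t h5⟩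

/-- Valid edges to flip. -/
noncomputable def VE {n : ℕ} (t : ℤ) (H : Finset (Finset (Fin n))) : Finset (Finset (Fin n)) :=
  (EU n 5).filter (fun e => ∃ u v : Fin n, u ≠ v ∧ dg H u = dg H v ∧ u ∈ e ∧
    ∀ w ∈ e, w ≠ u → w ∉ (NP t H).image Prod.fst)

lemma VE_card {n : ℕ} (t : ℤ) (ht : 0 ≤ t) (H : Finset (Finset (Fin n)))
    (hY : 0 < (NP 0 H).card) (K : ℕ) (hK : (NP t H).card ≤ K) :
    (n - K).choose 4 ≤ (VE t H).card := by
  obtain ⟨⟨u, v⟩, hp⟩ := card_pos.1 hY
  have hp' := hp
  unfold NP at hp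
  rw [mem_filter, mem_offDiag] at hp
  obtain ⟨⟨_, _, huv⟩, hd⟩ := hp
  simp only at huv hd
  have hd' : dg H u = dg H v := by
    rw [abs_le] at hd
    omega
  set Z := (NP t H).image Prod.fst with hZ
  have huZ : u ∈ Z := mem_image.2 ⟨(u, v), NP_mono ht H hp', rfl⟩
  have hZc : Z.card ≤ K := card_image_le.trans hK
  have h := card_edges (n := n) 5 {u} (Z.erase u) (by simp) (by simp)
  rw [card_singleton, card_erase_of_mem huZ] at h
  have hZ1 : 1 ≤ Z.card := card_pos.2 ⟨u, huZ⟩
  have h1 : 1 + (Z.card - 1) = Z.card := by omega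
  rw [h1] at h
  calc (n - K).choose 4 ≤ (n - Z.card).choose (5 - 1) := Nat.choose_le_choose _ (by omega)
    _ = _ := h.symm
    _ ≤ _ := by
      refine card_le_card ?_
      intro e he
      rw [mem_filter] at he
      obtain ⟨he1, he2, he3⟩ := he
      unfold VE
      rw [mem_filter]
      refine ⟨he1, u, v, huv, hd', by simpa using he2, ?_⟩
      intro w hw hwu hwZ
      exact (disjoint_left.1 he3) hw (mem_erase.2 ⟨hwu, hwZ⟩)

lemma symmDiff_singleton_inj {n : ℕ} (H : Finset (Finset (Fin n))) :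
    Function.Injective (fun e : Finset (Fin n) => symmDiff H {e}) := by
  intro e f h
  have := symmDiff_right_injective H h
  simpa using this

/-- One flip reduces the number of coincidences. -/
lemma flip_good {n : ℕ} (t : ℤ) (ht : 1 ≤ t) (H : Finset (Finset (Fin n))) (hT : ¬ Tri t H)
    (e : Finset (Fin n)) (he : e ∈ VE t H) :
    (NP 0 (symmDiff H {e})).card < (NP 0 H).card := by
  unfold VE at he
  rw [mem_filter] at he
  obtain ⟨_, u, v, huv, hd, hue, hw⟩ := he
  have hvZ : v ∈ (NP t H).image Prod.fst := by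
    refine mem_image.2 ⟨(v, u), ?_, rfl⟩
    unfold NP
    rw [mem_filter, mem_offDiag]
    refine ⟨⟨mem_univ _, mem_univ _, huv.symm⟩, ?_⟩
    simp only
    rw [hd]; simp; omega
  have hve : v ∉ e := fun h => hw v h huv.symm hvZ
  have huvmem : (u, v) ∈ NP 0 H := by
    unfold NP
    rw [mem_filter, mem_offDiag]
    refine ⟨⟨mem_univ _, mem_univ _, huv⟩, ?_⟩
    simp only
    rw [hd]; simp
  refine card_lt_card ?_
  rw [ssubset_iff_of_subset]
  · refine ⟨(u, v), huvmem, ?_⟩
    unfold NP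
    rw [mem_filter]
    rintro ⟨_, h⟩
    simp only at h
    rw [flip_dg, flip_dg, if_pos hue, if_neg hve, hd, abs_le] at h
    split_ifs at h <;> omega
  · -- auxiliary: asymmetric case impossible
    have aux : ∀ x y : Fin n, x ≠ y → x ∈ e → y ∉ e →
        |(dg H x : ℤ) - dg H y| ≠ 1 := by
      intro x y hxy hx hy h1
      have hxZ : x ∈ (NP t H).image Prod.fst := by
        refine mem_image.2 ⟨(x, y), ?_, rfl⟩
        unfold NP
        rw [mem_filter, mem_offDiag]
        exact ⟨⟨mem_univ _, mem_univ _, hxy⟩, by simp only; omega⟩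
      have hxu : x = u := by
        by_contra hne
        exact hw x hx hne hxZ
      subst hxu
      apply hT
      refine ⟨v, y, x, ?_, huv.symm, hxy.symm, ?_, ?_⟩
      · rintro rfl
        rw [hd] at h1
        simp at h1
      · rw [hd]; simp; omega
      · rw [abs_sub_comm]; omega
    intro p hp
    unfold NP at hp ⊢
    rw [mem_filter, mem_offDiag] at hp ⊢
    obtain ⟨⟨h1, h2, h3⟩, h4⟩ := hp
    refine ⟨⟨h1, h2, h3⟩, ?_⟩
    rw [flip_dg, flip_dg] at h4
    have a1 := aux p.1 p.2 h3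
    have a2 := aux p.2 p.1 h3.symm
    by_cases hx : p.1 ∈ e
    · by_cases hy : p.2 ∈ e
      · rw [if_pos hx, if_pos hy] at h4
        rw [abs_le] at h4 ⊢
        omega
      · exfalso
        apply a1 hx hy
        rw [if_pos hx, if_neg hy, abs_le] at h4
        split_ifs at h4
        · have : (dg H p.1 : ℤ) - dg H p.2 = 1 := by omega
          rw [this]; norm_num
        · have : (dg H p.1 : ℤ) - dg H p.2 = -1 := by omega
          rw [this]; norm_num
    · by_cases hy : p.2 ∈ e
      · exfalso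
        apply a2 hy hx
        rw [if_neg hx, if_pos hy, abs_le] at h4
        split_ifs at h4
        · have : (dg H p.2 : ℤ) - dg H p.1 = 1 := by omega
          rw [this]; norm_num
        · have : (dg H p.2 : ℤ) - dg H p.1 = -1 := by omega
          rw [this]; norm_num
      · rw [if_neg hx, if_neg hy] at h4
        rw [abs_le] at h4 ⊢
        omega

lemma symmDiff_mem_EU {n : ℕ} {H : Finset (Finset (Fin n))} {e : Finset (Fin n)}
    (hH : H ⊆ EU n 5) (he : e ∈ EU n 5) : symmDiff H {e} ⊆ EU n 5 := by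
  intro f hf
  rw [mem_symmDiff, mem_singleton] at hf
  rcases hf with h | h
  · exact hH h.1
  · rw [h.1]; exact he

/-- Double counting step. -/
lemma step {n K j : ℕ} (hn : (n - 1).choose 4 ≤ 2 * (n - K).choose 4)
    (hn0 : 0 < (n - K).choose 4) :
    (BB n K (j + 1)).card ≤ (2 * K + 1) * (BB n K j).card := by
  set t : ℤ := 1 + ((j + 1 : ℕ) : ℤ) with ht
  have ht' : t = (1 + (j : ℤ)) + 1 := by rw [ht]; push_cast; ring
  set S := (BB n K (j + 1)).filter (fun H => (NP 0 H).card = j + 1) with hS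
  have h1 : BB n K (j + 1) ⊆ S ∪ BB n K j := by
    intro H hH
    rw [mem_union]
    by_cases h : (NP 0 H).card = j + 1
    · exact Or.inl (mem_filter.2 ⟨hH, h⟩)
    · right
      unfold BB at hH ⊢
      rw [mem_filter] at hH ⊢
      obtain ⟨a1, a2, a3, a4⟩ := hH
      refine ⟨a1, fun hT => a2 (Tri_mono ?_ hT), (card_le_card (NP_mono ?_ H)).trans a3, by omega⟩
      · push_cast; omega
      · push_cast; omega
  have h2 : S.card * (n - K).choose 4 ≤ (BB n K j).card * (K * (n - 1).choose 4) := by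
    refine card_mul_le_card_mul (fun H H' => ∃ e ∈ VE t H, H' = symmDiff H {e}) ?_ ?_
    · intro H hH
      rw [hS, mem_filter] at hH
      obtain ⟨hB, hY⟩ := hH
      unfold BB at hB
      rw [mem_filter, mem_powerset] at hB
      obtain ⟨a1, a2, a3, a4⟩ := hB
      have hcard := VE_card t (by omega) H (by omega) K a3
      refine hcard.trans ?_
      rw [← card_image_of_injective (VE t H) (symmDiff_singleton_inj H)]
      refine card_le_card ?_
      intro H' hH'
      obtain ⟨e, he, rfl⟩ := mem_image.1 hH'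
      rw [mem_bipartiteAbove]
      refine ⟨?_, e, he, rfl⟩
      unfold BB
      rw [mem_filter, mem_powerset]
      have he' : e ∈ EU n 5 := (mem_filter.1 he).1
      refine ⟨symmDiff_mem_EU a1 he', ?_, ?_, ?_⟩
      · intro hT
        have := flip_Tri H e _ hT
        rw [← ht'] at this
        exact a2 this
      · have := flip_NP H e (1 + (j : ℤ))
        rw [← ht'] at this
        exact (card_le_card this).trans a3
      · have := flip_good t (by omega) H a2 e he
        omega
    · intro H' hH'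
      unfold BB at hH'
      rw [mem_filter] at hH'
      obtain ⟨b1, b2, b3, b4⟩ := hH'
      have hsub : (S.bipartiteBelow (fun H H' => ∃ e ∈ VE t H, H' = symmDiff H {e}) H') ⊆
          (NP (1 + (j : ℤ)) H').biUnion (fun p => ((EU n 5).filter (fun e => p.1 ∈ e)).image
            (fun e => symmDiff H' {e})) := by
        intro H hH
        rw [mem_bipartiteBelow] at hH
        obtain ⟨_, e, he, rfl⟩ := hH
        rw [mem_biUnion]
        unfold VE at he
        rw [mem_filter] at he
        obtain ⟨he0, u, v, huv, hd, hue, hw⟩ := he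
        have hvZ : v ∈ (NP t H).image Prod.fst := by
          refine mem_image.2 ⟨(v, u), ?_, rfl⟩
          unfold NP
          rw [mem_filter, mem_offDiag]
          refine ⟨⟨mem_univ _, mem_univ _, huv.symm⟩, ?_⟩
          simp only
          rw [hd]; simp; omega
        have hve : v ∉ e := fun h => hw v h huv.symm hvZ
        refine ⟨(u, v), ?_, mem_image.2 ⟨e, mem_filter.2 ⟨he0, hue⟩, ?_⟩⟩
        · unfold NP
          rw [mem_filter, mem_offDiag]
          refine ⟨⟨mem_univ _, mem_univ _, huv⟩, ?_⟩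
          simp only
          rw [flip_dg, flip_dg, if_pos hue, if_neg hve, hd, abs_le]
          split_ifs <;> omega
        · simp
      refine (card_le_card hsub).trans ?_
      refine card_biUnion_le.trans ?_
      calc _ ≤ ∑ _p ∈ NP (1 + (j : ℤ)) H', (n - 1).choose 4 := by
            refine sum_le_sum fun p _ => card_image_le.trans ?_
            have h := card_edges (n := n) 5 {p.1} ∅ (by simp) (by simp)
            rw [card_singleton, card_empty] at h
            simp only [add_zero] at h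
            rw [← show (5 - 1 : ℕ) = 4 from rfl, ← h]
            refine card_le_card ?_
            intro e he
            rw [mem_filter] at he ⊢
            exact ⟨he.1, by simpa using he.2, by simp⟩
        _ = (NP (1 + (j : ℤ)) H').card * (n - 1).choose 4 := by rw [sum_const, smul_eq_mul]
        _ ≤ K * (n - 1).choose 4 := Nat.mul_le_mul_right _ b3
  have h3 : S.card ≤ 2 * K * (BB n K j).card := by
    have : S.card * (n - K).choose 4 ≤ (2 * K * (BB n K j).card) * (n - K).choose 4 := by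
      calc _ ≤ _ := h2
        _ ≤ (BB n K j).card * (K * (2 * (n - K).choose 4)) := by gcongr
        _ = _ := by ring
    exact Nat.le_of_mul_le_mul_right this hn0
  calc (BB n K (j + 1)).card ≤ (S ∪ BB n K j).card := card_le_card h1
    _ ≤ S.card + (BB n K j).card := card_union_le _ _
    _ ≤ 2 * K * (BB n K j).card + (BB n K j).card := by omega
    _ = _ := by ring

lemma steps {n K : ℕ} (hn : (n - 1).choose 4 ≤ 2 * (n - K).choose 4)
    (hn0 : 0 < (n - K).choose 4) (j : ℕ) :
    (BB n K j).card ≤ (2 * K + 1) ^ j * (BB n K 0).card := by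
  induction j with
  | zero => simp
  | succ j ih =>
    calc _ ≤ (2 * K + 1) * (BB n K j).card := step hn hn0
      _ ≤ (2 * K + 1) * ((2 * K + 1) ^ j * (BB n K 0).card) := by gcongr
      _ = _ := by ring

/-- First moment for near pairs. -/
lemma sum_NP_le (n t : ℕ) :
    ∑ H ∈ (EU n 5).powerset, ((NP t H).card : ℝ) ≤
      (n : ℝ) ^ 2 * ((2 * t + 1) * qm (2 * (n - 2).choose 4)) * 2 ^ (n.choose 5) := by
  have h1 : ∑ H ∈ (EU n 5).powerset, ((NP t H).card : ℝ) =
      ∑ p ∈ (univ : Finset (Fin n)).offDiag,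
        (((EU n 5).powerset.filter (fun H => |(dg H p.1 : ℤ) - dg H p.2| ≤ t)).card : ℝ) := by
    unfold NP
    simp_rw [card_filter]
    push_cast
    rw [sum_comm]
  rw [h1]
  have h2 : ∀ p ∈ (univ : Finset (Fin n)).offDiag,
      (((EU n 5).powerset.filter (fun H => |(dg H p.1 : ℤ) - dg H p.2| ≤ t)).card : ℝ) ≤
      ((2 * t + 1) * qm (2 * (n - 2).choose 4)) * 2 ^ (n.choose 5) := by
    intro p hp
    have hne : p.1 ≠ p.2 := (mem_offDiag.1 hp).2.2
    have h3 : (EU n 5).powerset.filter (fun H => |(dg H p.1 : ℤ) - dg H p.2| ≤ t) ⊆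
        (Icc (-(t : ℤ)) t).biUnion
          (fun c => (EU n 5).powerset.filter (fun H => (dg H p.1 : ℤ) - dg H p.2 = c)) := by
      intro H hH
      rw [mem_filter] at hH
      rw [mem_biUnion]
      exact ⟨_, mem_Icc.2 (abs_le.1 hH.2), mem_filter.2 ⟨hH.1, rfl⟩⟩
    have h4 := (card_le_card h3).trans card_biUnion_le
    calc _ ≤ ((∑ c ∈ Icc (-(t : ℤ)) t, ((EU n 5).powerset.filter
              (fun H => (dg H p.1 : ℤ) - dg H p.2 = c)).card : ℕ) : ℝ) := by exact_mod_cast h4
      _ ≤ ∑ c ∈ Icc (-(t : ℤ)) t, qm (2 * (n - 2).choose 4) * 2 ^ (n.choose 5) := by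
          push_cast
          exact sum_le_sum fun c _ => single_upper (by norm_num) hne c
      _ = _ := by
          rw [sum_const, nsmul_eq_mul]
          have : ((Icc (-(t : ℤ)) t).card : ℝ) = 2 * t + 1 := by
            rw [Int.card_Icc]
            have : ((t : ℤ) + 1 - -(t : ℤ)).toNat = 2 * t + 1 := by omega
            rw [this]; push_cast; ring
          rw [this]; ring
  calc _ ≤ ∑ p ∈ (univ : Finset (Fin n)).offDiag,
        ((2 * t + 1) * qm (2 * (n - 2).choose 4)) * 2 ^ (n.choose 5) := sum_le_sum h2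
    _ = ((univ : Finset (Fin n)).offDiag.card : ℝ) *
        (((2 * t + 1) * qm (2 * (n - 2).choose 4)) * 2 ^ (n.choose 5)) := by
        rw [sum_const, nsmul_eq_mul]
    _ ≤ (n : ℝ) ^ 2 * (((2 * t + 1) * qm (2 * (n - 2).choose 4)) * 2 ^ (n.choose 5)) := by
        have := qm_nonneg (2 * (n - 2).choose 4)
        refine mul_le_mul_of_nonneg_right ?_ (by positivity)
        rw [offDiag_card, card_univ, Fintype.card_fin]
        have : n * n - n ≤ n ^ 2 := by rw [sq]; exact Nat.sub_le _ _
        exact_mod_cast this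
    _ = _ := by ring

/-- First moment for near triples. -/
lemma card_Tri_le (n t : ℕ) :
    (((EU n 5).powerset.filter (fun H => Tri (t : ℤ) H)).card : ℝ) ≤
      (n : ℝ) ^ 3 * ((2 * t + 1) ^ 2 * qm ((n - 3).choose 4) ^ 2) * 2 ^ (n.choose 5) := by
  let R : Finset (Fin n × Fin n × Fin n) :=
    univ.filter (fun q => q.1 ≠ q.2.1 ∧ q.1 ≠ q.2.2 ∧ q.2.1 ≠ q.2.2)
  have h1 : (EU n 5).powerset.filter (fun H => Tri (t : ℤ) H) ⊆
      (R ×ˢ (Icc (-(t : ℤ)) t ×ˢ Icc (-(t : ℤ)) t)).biUnion (fun q =>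
        (EU n 5).powerset.filter (fun H => (dg H q.1.1 : ℤ) - dg H q.1.2.2 = q.2.1 ∧
          (dg H q.1.2.1 : ℤ) - dg H q.1.2.2 = q.2.2)) := by
    intro H hH
    rw [mem_filter] at hH
    obtain ⟨hH1, a, b, c, h1, h2, h3, h4, h5⟩ := hH
    rw [mem_biUnion]
    refine ⟨((a, b, c), ((dg H a : ℤ) - dg H c, (dg H b : ℤ) - dg H c)), ?_, ?_⟩
    · rw [mem_product, mem_product]
      exact ⟨mem_filter.2 ⟨mem_univ _, h1, h2, h3⟩, mem_Icc.2 (abs_le.1 h4),
        mem_Icc.2 (abs_le.1 h5)⟩
    · exact mem_filter.2 ⟨hH1, rfl, rfl⟩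
  have h2 := (card_le_card h1).trans card_biUnion_le
  have hI : ((Icc (-(t : ℤ)) t).card : ℝ) = 2 * t + 1 := by
    rw [Int.card_Icc]
    have : ((t : ℤ) + 1 - -(t : ℤ)).toNat = 2 * t + 1 := by omega
    rw [this]; push_cast; ring
  calc _ ≤ ((∑ q ∈ (R ×ˢ (Icc (-(t : ℤ)) t ×ˢ Icc (-(t : ℤ)) t)),
        ((EU n 5).powerset.filter (fun H => (dg H q.1.1 : ℤ) - dg H q.1.2.2 = q.2.1 ∧
          (dg H q.1.2.1 : ℤ) - dg H q.1.2.2 = q.2.2)).card : ℕ) : ℝ) := by exact_mod_cast h2
    _ ≤ ∑ q ∈ (R ×ˢ (Icc (-(t : ℤ)) t ×ˢ Icc (-(t : ℤ)) t)),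
        qm ((n - 3).choose 4) * qm ((n - 3).choose 4) * 2 ^ (n.choose 5) := by
        push_cast
        refine sum_le_sum fun q hq => ?_
        rw [mem_product] at hq
        obtain ⟨_, b1, b2, b3⟩ := mem_filter.1 hq.1
        exact overlap_upper (by norm_num) b1 b2 b3 _ _
    _ = (R.card : ℝ) * ((2 * t + 1) * (2 * t + 1)) *
        (qm ((n - 3).choose 4) * qm ((n - 3).choose 4) * 2 ^ (n.choose 5)) := by
        rw [sum_const, nsmul_eq_mul, card_product, card_product]
        push_cast
        rw [hI]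
    _ ≤ (n : ℝ) ^ 3 * ((2 * t + 1) * (2 * t + 1)) *
        (qm ((n - 3).choose 4) * qm ((n - 3).choose 4) * 2 ^ (n.choose 5)) := by
        have := qm_nonneg ((n - 3).choose 4)
        have hR : (R.card : ℝ) ≤ (n : ℝ) ^ 3 := by
          have : R.card ≤ n ^ 3 := by
            calc R.card ≤ (univ : Finset (Fin n × Fin n × Fin n)).card :=
                  card_le_card (filter_subset _ _)
              _ = n ^ 3 := by simp; ring
          exact_mod_cast this
        gcongr
    _ = _ := by ring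

lemma choose4_lower (n c : ℕ) (hn : 1000000 ≤ n) (hc : c ≤ 819) :
    (n : ℝ) ^ 4 * (4 / 5) / 24 ≤ ((n - c).choose 4 : ℝ) := by
  have h := Nat.pow_le_choose (α := ℝ) 4 (n - c)
  have h1 : ((n - c + 1 - 4 : ℕ) : ℝ) = n - (c + 3) := by
    have : n - c + 1 - 4 = n - (c + 3) := by omega
    rw [this, Nat.cast_sub (by omega)]; push_cast; ring
  have hnR : (1000000 : ℝ) ≤ n := by exact_mod_cast hn
  have hcR : (c : ℝ) ≤ 819 := by exact_mod_cast hc
  rw [h1] at h
  have h2 : (Nat.factorial 4 : ℝ) = 24 := by norm_num [Nat.factorial]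
  rw [h2] at h
  refine le_trans ?_ h
  have h3 : (19 / 20 : ℝ) * n ≤ n - (c + 3) := by linarith
  have h4 : ((19 / 20 : ℝ) * n) ^ 4 ≤ (n - (c + 3)) ^ 4 := by
    have : (0 : ℝ) ≤ 19 / 20 * n := by positivity
    gcongr
  have h5 : (n : ℝ) ^ 4 * (4 / 5) ≤ ((19 / 20 : ℝ) * n) ^ 4 := by
    have : (0 : ℝ) ≤ (n : ℝ) ^ 4 := by positivity
    rw [mul_pow]; norm_num
    linarith
  linarith

lemma choose4_upper (n : ℕ) : ((n - 1).choose 4 : ℝ) ≤ (n : ℝ) ^ 4 / 24 := by
  have h := Nat.choose_le_pow_div (α := ℝ) 4 (n - 1)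
  have h2 : (Nat.factorial 4 : ℝ) = 24 := by norm_num [Nat.factorial]
  rw [h2] at h
  refine h.trans ?_
  have : ((n - 1 : ℕ) : ℝ) ≤ n := by exact_mod_cast Nat.sub_le _ _
  gcongr

/-- Exceptional set 1. -/
noncomputable def A1 (n : ℕ) : Finset (Finset (Finset (Fin n))) :=
  (EU n 5).powerset.filter (fun H => Tri ((20 : ℕ) : ℤ) H)

/-- Exceptional set 2. -/
noncomputable def A2 (n : ℕ) : Finset (Finset (Finset (Fin n))) :=
  (EU n 5).powerset.filter (fun H => 20 ≤ (NP 0 H).card)

/-- Exceptional set 3. -/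
noncomputable def A3 (n : ℕ) : Finset (Finset (Finset (Fin n))) :=
  (EU n 5).powerset.filter (fun H => 820 ≤ (NP 20 H).card)

/-- There is c > 0 such that for all large n, at least a c fraction of the 5-uniform hypergraphs on n labeled vertices have pairwise distinct vertex degrees. -/
theorem result :
    ∃ c : ℝ, 0 < c ∧ ∃ N : ℕ, ∀ n : ℕ, N ≤ n →
      c ≤ ((((Finset.univ : Finset (Fin n)).powersetCard 5).powerset.filter
              (fun H => Function.Injective
                (fun v : Fin n => (H.filter (fun e => v ∈ e)).card))).card : ℝ)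
            / (2 : ℝ) ^ (n.choose 5) := by
  refine ⟨1 / (4 * (2 * 819 + 1) ^ 19), by positivity, 1000000, fun n hn => ?_⟩
  have hnR : (1000000 : ℝ) ≤ n := by exact_mod_cast hn
  have hn4 : (0 : ℝ) < (n : ℝ) ^ 4 := by positivity
  have a1 := choose4_lower n 2 hn (by norm_num)
  have a2 := choose4_lower n 3 hn (by norm_num)
  have a3 := choose4_lower n 819 hn (by norm_num)
  have a4 := choose4_upper n
  set Ω : ℝ := (2 : ℝ) ^ (n.choose 5) with hΩ
  have hΩ0 : 0 < Ω := by positivity
  -- first moment constants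
  have b1 : (n : ℝ) ^ 2 * qm (2 * (n - 2).choose 4) ≤ 5 := by
    have h1 := qm_sq_mul_le ((n - 2).choose 4)
    have h2 := qm_nonneg (2 * (n - 2).choose 4)
    set q := qm (2 * (n - 2).choose 4)
    have h3 : ((n : ℝ) ^ 2 * q) ^ 2 ≤ 5 ^ 2 := by
      calc ((n : ℝ) ^ 2 * q) ^ 2 = q ^ 2 * (n : ℝ) ^ 4 := by ring
        _ ≤ q ^ 2 * (25 * (2 * ((n - 2).choose 4 : ℝ) + 1)) := by
            refine mul_le_mul_of_nonneg_left ?_ (sq_nonneg _)
            linarith
        _ = 25 * (q ^ 2 * (2 * ((n - 2).choose 4 : ℝ) + 1)) := by ring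
        _ ≤ 25 * 1 := by gcongr
        _ = 5 ^ 2 := by norm_num
    exact le_of_sq_le_sq h3 (by norm_num)
  have b2 : (n : ℝ) ^ 3 * ((2 * (20 : ℕ) + 1) ^ 2 * qm ((n - 3).choose 4) ^ 2) ≤ 1 / 4 := by
    have h1 := qm_sq_le ((n - 3).choose 4)
    set q := qm ((n - 3).choose 4)
    have h2 : q ^ 2 * ((n : ℝ) ^ 4 * (4 / 5) / 24) ≤ 1 := by
      refine le_trans ?_ h1
      gcongr
    have h3 : q ^ 2 * (n : ℝ) ^ 3 * n ≤ 30 := by
      have : q ^ 2 * ((n : ℝ) ^ 4 * (4 / 5) / 24) = (q ^ 2 * (n : ℝ) ^ 3 * n) / 30 := by ring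
      rw [this] at h2
      linarith
    have h4 : 0 ≤ q ^ 2 * (n : ℝ) ^ 3 := by positivity
    have h5 : q ^ 2 * (n : ℝ) ^ 3 * 1000000 ≤ 30 :=
      le_trans (mul_le_mul_of_nonneg_left hnR h4) h3
    push_cast
    linarith
  have cU : ((EU n 5).powerset.card : ℝ) = Ω := by
    rw [card_powerset, card_EU]; push_cast; rfl
  -- tail bounds
  have m1 : ((A1 n).card : ℝ) ≤
      1 / 4 * Ω := by
    refine (card_Tri_le n 20).trans ?_
    gcongr
  have m2 : ((A2 n).card : ℝ) ≤
      1 / 4 * Ω := by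
    have h1 := sum_NP_le n 0
    have h2 : ((A2 n).card : ℝ) * 20 ≤
        ∑ H ∈ (EU n 5).powerset, ((NP ((0 : ℕ) : ℤ) H).card : ℝ) := by
      calc _ = ∑ _H ∈ (A2 n), (20 : ℝ) := by
            rw [sum_const, nsmul_eq_mul]
        _ ≤ ∑ H ∈ (A2 n),
            ((NP ((0 : ℕ) : ℤ) H).card : ℝ) := by
            refine sum_le_sum fun H hH => ?_
            exact_mod_cast (mem_filter.1 hH).2
        _ ≤ _ := sum_le_sum_of_subset_of_nonneg (filter_subset _ _)
            fun _ _ _ => Nat.cast_nonneg _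
    have h3 : (n : ℝ) ^ 2 * ((2 * (0 : ℕ) + 1) * qm (2 * (n - 2).choose 4)) * Ω ≤ 5 * Ω := by
      refine mul_le_mul_of_nonneg_right ?_ hΩ0.le
      push_cast
      linarith
    linarith
  have m3 : ((A3 n).card : ℝ) ≤
      1 / 4 * Ω := by
    have h1 := sum_NP_le n 20
    have h2 : ((A3 n).card : ℝ) * 820 ≤
        ∑ H ∈ (EU n 5).powerset, ((NP ((20 : ℕ) : ℤ) H).card : ℝ) := by
      calc _ = ∑ _H ∈ (A3 n), (820 : ℝ) := by
            rw [sum_const, nsmul_eq_mul]
        _ ≤ ∑ H ∈ (A3 n),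
            ((NP ((20 : ℕ) : ℤ) H).card : ℝ) := by
            refine sum_le_sum fun H hH => ?_
            exact_mod_cast (mem_filter.1 hH).2
        _ ≤ _ := sum_le_sum_of_subset_of_nonneg (filter_subset _ _)
            fun _ _ _ => Nat.cast_nonneg _
    have h3 : (n : ℝ) ^ 2 * ((2 * (20 : ℕ) + 1) * qm (2 * (n - 2).choose 4)) * Ω ≤ 205 * Ω := by
      refine mul_le_mul_of_nonneg_right ?_ hΩ0.le
      push_cast
      linarith
    linarith
  have m4 : 1 / 4 * Ω ≤ ((BB n 819 19).card : ℝ) := by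
    have hsub : (EU n 5).powerset ⊆ BB n 819 19 ∪
        ((A1 n) ∪
        ((A2 n) ∪
        (A3 n))) := by
      intro H hH
      rw [mem_union, mem_union, mem_union]
      unfold A1 A2 A3
      rw [mem_filter, mem_filter, mem_filter]
      by_cases h1 : Tri ((20 : ℕ) : ℤ) H
      · exact Or.inr (Or.inl ⟨hH, h1⟩)
      · by_cases h2 : 20 ≤ (NP 0 H).card
        · exact Or.inr (Or.inr (Or.inl ⟨hH, h2⟩))
        · by_cases h3 : 820 ≤ (NP 20 H).card
          · exact Or.inr (Or.inr (Or.inr ⟨hH, h3⟩))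
          · left
            unfold BB
            rw [mem_filter]
            have e : (1 : ℤ) + ((19 : ℕ) : ℤ) = 20 := by norm_num
            rw [e]
            exact ⟨hH, h1, by omega, by omega⟩
    have h1 := (card_le_card hsub).trans (card_union_le _ _)
    have h2 := card_union_le (A1 n)
      ((A2 n) ∪
        (A3 n))
    have h3 := card_union_le (A2 n)
        (A3 n)
    have h4 : ((EU n 5).powerset.card : ℝ) ≤ (BB n 819 19).card +
        ((A1 n).card +
        ((A2 n).card +
        (A3 n).card)) := by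
      exact_mod_cast h1.trans (Nat.add_le_add_left (h2.trans (Nat.add_le_add_left h3 _)) _)
    rw [cU] at h4
    linarith
  -- apply the switching
  have s1 : (n - 1).choose 4 ≤ 2 * (n - 819).choose 4 := by
    have : ((n - 1).choose 4 : ℝ) ≤ 2 * ((n - 819).choose 4 : ℝ) := by linarith
    exact_mod_cast this
  have s2 : 0 < (n - 819).choose 4 := Nat.choose_pos (by omega)
  have s3 := steps s1 s2 19
  have s4 : ((BB n 819 19).card : ℝ) ≤ (2 * 819 + 1) ^ 19 * ((BB n 819 0).card : ℝ) := by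
    exact_mod_cast s3
  have s5 : BB n 819 0 ⊆ (((Finset.univ : Finset (Fin n)).powersetCard 5).powerset.filter
              (fun H => Function.Injective
                (fun v : Fin n => (H.filter (fun e => v ∈ e)).card))) := by
    intro H hH
    unfold BB at hH
    rw [mem_filter] at hH ⊢
    obtain ⟨h1, _, _, h2⟩ := hH
    refine ⟨h1, ?_⟩
    intro v w hvw
    by_contra hne
    have h3 : (v, w) ∈ NP 0 H := by
      unfold NP
      rw [mem_filter, mem_offDiag]
      refine ⟨⟨mem_univ _, mem_univ _, hne⟩, ?_⟩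
      have h4 : dg H v = dg H w := hvw
      simp only
      rw [h4]; simp
    have h5 : 0 < (NP 0 H).card := card_pos.2 ⟨_, h3⟩
    omega
  have s6 : ((BB n 819 0).card : ℝ) ≤
      ((((Finset.univ : Finset (Fin n)).powersetCard 5).powerset.filter
              (fun H => Function.Injective
                (fun v : Fin n => (H.filter (fun e => v ∈ e)).card))).card : ℝ) := by
    exact_mod_cast card_le_card s5
  rw [div_le_div_iff₀ (by positivity) hΩ0]
  have s7 : 1 / 4 * Ω ≤ (2 * 819 + 1) ^ 19 *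
      ((((Finset.univ : Finset (Fin n)).powersetCard 5).powerset.filter
              (fun H => Function.Injective
                (fun v : Fin n => (H.filter (fun e => v ∈ e)).card))).card : ℝ) := by
    refine m4.trans (s4.trans ?_)
    gcongr
  linarith

end Pool.Agent.S09825
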