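import Pool.Statements.S09874

set_option autoImplicit false
open Pool Pool.MP_85fffe_co

namespace Pool.Agent.S09874

/-- the point `u + k 2^v` -/
noncomputable def pt (k u v : ℕ) : ℝ := ((u + k * 2 ^ v : ℕ) : ℝ)

/-- the host set `{u + k 2^v : u ≠ v, u, v < k}` -/
noncomputable def host (k : ℕ) : Finset ℝ :=
  ((Finset.range k).offDiag).image (fun p => pt k p.1 p.2)

/-- the pattern attached to `T` -/
noncomputable def pat (k : ℕ) (T : Finset ℕ) : Finset ℝ :=
  (insert 1 T).image (fun u => pt k u 0)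

theorem pt_mem {k u v : ℕ} (hu : u < k) (hv : v < k) (h : u ≠ v) : pt k u v ∈ host k := by
  unfold host
  rw [Finset.mem_image]
  exact ⟨(u, v), by simp [Finset.mem_offDiag, hu, hv, h], rfl⟩

theorem mem_host {k : ℕ} {x : ℝ} (h : x ∈ host k) :
    ∃ u v : ℕ, u < k ∧ v < k ∧ u ≠ v ∧ x = pt k u v := by
  unfold host at h
  rw [Finset.mem_image] at h
  obtain ⟨⟨u, v⟩, h1, h2⟩ := h
  simp only [Finset.mem_offDiag, Finset.mem_range] at h1
  exact ⟨u, v, h1.1, h1.2.1, h1.2.2, h2.symm⟩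

theorem key {k u v j u' v' : ℕ} (hu : u < k) (hu' : u' < k) (hj : j ≠ 0)
    (h : pt k u v + (pt k 0 j - pt k 0 0) = pt k u' v') : u = u' ∧ v = 0 ∧ v' = j := by
  unfold pt at h
  have h2 : u + k * 2 ^ v + k * 2 ^ j = u' + k * 2 ^ v' + k * 2 ^ 0 := by
    have h3 : ((u + k * 2 ^ v : ℕ) : ℝ) + ((0 + k * 2 ^ j : ℕ) : ℝ) =
      ((u' + k * 2 ^ v' : ℕ) : ℝ) + ((0 + k * 2 ^ 0 : ℕ) : ℝ) := by linarith
    simp only [zero_add] at h3
    exact_mod_cast h3
  have hk : 0 < k := by omega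
  have h4 : u + k * (2 ^ v + 2 ^ j) = u' + k * (2 ^ v' + 1) := by
    rw [pow_zero] at h2
    rw [mul_add, mul_add]; omega
  have h5 : u = u' := by
    have := congrArg (· % k) h4
    simpa [Nat.add_mul_mod_self_left, Nat.mod_eq_of_lt hu, Nat.mod_eq_of_lt hu'] using this
  subst h5
  have h6 : 2 ^ v + 2 ^ j = 2 ^ v' + 1 := by
    have : k * (2 ^ v + 2 ^ j) = k * (2 ^ v' + 1) := by omega
    exact Nat.eq_of_mul_eq_mul_left hk this
  obtain ⟨j', rfl⟩ := Nat.exists_eq_succ_of_ne_zero hj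
  have hv : v = 0 := by
    by_contra hv
    obtain ⟨w, rfl⟩ := Nat.exists_eq_succ_of_ne_zero hv
    rcases Nat.eq_zero_or_pos v' with h7 | h7
    · subst h7
      have e1 : 1 ≤ 2 ^ w := Nat.one_le_two_pow
      have e2 : 1 ≤ 2 ^ j' := Nat.one_le_two_pow
      rw [Nat.pow_succ, Nat.pow_succ] at h6
      omega
    · obtain ⟨w', rfl⟩ := Nat.exists_eq_succ_of_ne_zero h7.ne'
      rw [Nat.pow_succ, Nat.pow_succ, Nat.pow_succ] at h6
      omega
  subst hv
  refine ⟨rfl, rfl, ?_⟩
  have h8 : 2 ^ (j'.succ) = 2 ^ v' := by rw [pow_zero] at h6; omega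
  exact (Nat.pow_right_injective (le_refl 2) h8).symm

theorem trans_sub {k j : ℕ} {T : Finset ℕ} (hT : T ⊆ Finset.Ico 2 (k - 1)) (hk : 3 ≤ k)
    (hj : j < k) (hj1 : j ≠ 1) (hjT : j ∉ T) :
    (pat k T).image (· + (pt k 0 j - pt k 0 0)) ⊆ host k := by
  intro x hx
  rw [Finset.mem_image] at hx
  obtain ⟨y, hy, rfl⟩ := hx
  unfold pat at hy
  rw [Finset.mem_image] at hy
  obtain ⟨u, hu, rfl⟩ := hy
  have hu' : u < k ∧ u ≠ j := by
    rw [Finset.mem_insert] at hu
    rcases hu with rfl | hu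
    · exact ⟨by omega, fun h => hj1 h.symm⟩
    · have := Finset.mem_Ico.1 (hT hu)
      exact ⟨by omega, fun h => hjT (h ▸ hu)⟩
  have : pt k u 0 + (pt k 0 j - pt k 0 0) = pt k u j := by
    unfold pt; push_cast; ring
  show pt k u 0 + (pt k 0 j - pt k 0 0) ∈ host k
  rw [this]
  exact pt_mem hu'.1 hj hu'.2

theorem pt_inj {k u u' : ℕ} (h : pt k u 0 = pt k u' 0) : u = u' := by
  unfold pt at h
  have : u + k * 2 ^ 0 = u' + k * 2 ^ 0 := by exact_mod_cast h
  omega

theorem result :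
    ¬ (∃ C : ℕ, ∀ X : Finset ℝ, ∀ S : Finset (Finset ℝ),
      (∀ A ∈ S,
        A.Nonempty ∧ A ⊆ X ∧
        (∃ t : ℝ, t ≠ 0 ∧ A.image (· + t) ⊆ X) ∧
        (∀ B : Finset ℝ, A ⊂ B →
          ¬ (∀ t : ℝ, A.image (· + t) ⊆ X → B.image (· + t) ⊆ X))) →
      (∀ A ∈ S, ∀ B ∈ S, ∀ t : ℝ, B = A.image (· + t) → A = B) →
      S.card ≤ C * X.card) := by
  rintro ⟨C, hC⟩
  obtain ⟨k, hk3, hk⟩ : ∃ k : ℕ, 3 ≤ k ∧ C * (k * k) < 2 ^ (k - 3) := by
    refine ⟨3 * (9 * C) + 3, by omega, ?_⟩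
    have h1 : 9 * C + 1 ≤ 2 ^ (9 * C) := Nat.lt_two_pow_self
    have h2 : 2 ^ (3 * (9 * C) + 3 - 3) = (2 ^ (9 * C)) ^ 3 := by
      rw [Nat.add_sub_cancel, mul_comm, pow_mul]
    rw [h2]
    have h3 : (9 * C + 1) ^ 3 ≤ (2 ^ (9 * C)) ^ 3 := Nat.pow_le_pow_left h1 3
    nlinarith [sq_nonneg (9 * C + 1)]
  have hcardX : (host k).card ≤ k * k := by
    unfold host
    refine Finset.card_image_le.trans ?_
    rw [Finset.offDiag_card, Finset.card_range]
    exact Nat.sub_le _ _
  have hinj : Set.InjOn (pat k) (Finset.Ico 2 (k - 1)).powerset := by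
    intro T hT T' hT' h
    simp only [Finset.coe_powerset, Set.mem_preimage, Set.mem_powerset_iff, Finset.coe_subset] at hT hT'
    unfold pat at h
    have h1 : insert 1 T = insert 1 T' := by
      apply Finset.image_injective (f := fun u => pt k u 0) (fun a b hab => pt_inj hab) h
    have n1 : 1 ∉ T := fun h => by have := Finset.mem_Ico.1 (hT h); omega
    have n2 : 1 ∉ T' := fun h => by have := Finset.mem_Ico.1 (hT' h); omega
    rw [← Finset.erase_insert n1, ← Finset.erase_insert n2, h1]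
  have key2 := hC (host k) ((Finset.Ico 2 (k - 1)).powerset.image (pat k)) ?_ ?_
  · rw [Finset.card_image_of_injOn hinj, Finset.card_powerset, Nat.card_Ico] at key2
    have h1 : k - 1 - 2 = k - 3 := by omega
    rw [h1] at key2
    have h2 : C * (host k).card ≤ C * (k * k) := Nat.mul_le_mul_left _ hcardX
    omega
  · intro A hA
    rw [Finset.mem_image] at hA
    obtain ⟨T, hT, rfl⟩ := hA
    rw [Finset.mem_powerset] at hT
    have hTn : ∀ u ∈ T, 2 ≤ u ∧ u < k - 1 := fun u hu => Finset.mem_Ico.1 (hT hu)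
    refine ⟨⟨pt k 1 0, by unfold pat; simp⟩, ?_, ⟨pt k 0 (k - 1) - pt k 0 0, ?_, ?_⟩, ?_⟩
    · have := trans_sub (j := 0) hT hk3 (by omega) (by omega) (fun h => by have := hTn _ h; omega)
      simpa using this
    · unfold pt
      have e1 : 2 ≤ 2 ^ (k - 1) := by
        calc 2 = 2 ^ 1 := rfl
          _ ≤ 2 ^ (k - 1) := Nat.pow_le_pow_right (by norm_num) (by omega)
      have e2 : (0 + k * 2 ^ 0 : ℕ) < (0 + k * 2 ^ (k - 1) : ℕ) := by
        rw [pow_zero]; nlinarith
      have e3 : ((0 + k * 2 ^ 0 : ℕ) : ℝ) < ((0 + k * 2 ^ (k - 1) : ℕ) : ℝ) := by exact_mod_cast e2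
      exact (sub_pos.2 e3).ne'
    · exact trans_sub (j := k - 1) hT hk3 (by omega) (by omega) (fun h => by have := hTn _ h; omega)
    · intro B hB hall
      obtain ⟨b, hbB, hbA⟩ := Finset.exists_of_ssubset hB
      have hjk := hall _ (trans_sub (j := k - 1) hT hk3 (by omega) (by omega)
        (fun h => by have := hTn _ h; omega))
      have h0 := hall _ (trans_sub (j := 0) hT hk3 (by omega) (by omega)
        (fun h => by have := hTn _ h; omega))
      have hb0 : b ∈ host k := by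
        have := h0 (Finset.mem_image_of_mem _ hbB)
        simpa using this
      obtain ⟨u, v, hu, hv, huv, rfl⟩ := mem_host hb0
      have hb1 : pt k u v + (pt k 0 (k - 1) - pt k 0 0) ∈ host k :=
        hjk (Finset.mem_image_of_mem _ hbB)
      obtain ⟨u', v', hu', hv', huv', he⟩ := mem_host hb1
      obtain ⟨-, rfl, -⟩ := key hu hu' (by omega) he
      apply hbA
      unfold pat
      apply Finset.mem_image_of_mem
      by_contra hcon
      rw [Finset.mem_insert, not_or] at hcon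
      -- the translate at `j = u`
      have hu0 : u ≠ 0 := huv
      have hju := hall _ (trans_sub (j := u) hT hk3 hu hcon.1 hcon.2)
      have hb2 : pt k u 0 + (pt k 0 u - pt k 0 0) ∈ host k :=
        hju (Finset.mem_image_of_mem _ hbB)
      obtain ⟨u2, v2, hu2, hv2, huv2, he2⟩ := mem_host hb2
      obtain ⟨e1, -, e3⟩ := key hu hu2 hu0 he2
      exact huv2 (by rw [← e1, e3])
  · intro A hA B hB t hBA
    rw [Finset.mem_image] at hA hB
    obtain ⟨T, hT, rfl⟩ := hA
    obtain ⟨T', hT', rfl⟩ := hB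
    rw [Finset.mem_powerset] at hT hT'
    -- both patterns have minimum `pt k 1 0`
    have hmin : ∀ T : Finset ℕ, T ⊆ Finset.Ico 2 (k - 1) → ∀ x ∈ pat k T, pt k 1 0 ≤ x := by
      intro T hT x hx
      unfold pat at hx
      rw [Finset.mem_image] at hx
      obtain ⟨u, hu, rfl⟩ := hx
      have : 1 ≤ u := by
        rw [Finset.mem_insert] at hu
        rcases hu with rfl | hu
        · exact le_refl _
        · have := Finset.mem_Ico.1 (hT hu); omega
      unfold pt
      exact_mod_cast Nat.add_le_add_right this _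
    have m1 : pt k 1 0 ∈ pat k T := by unfold pat; simp
    have m2 : pt k 1 0 ∈ pat k T' := by unfold pat; simp
    have ht : t = 0 := by
      have h1 : pt k 1 0 + t ∈ pat k T' := by
        rw [hBA]; exact Finset.mem_image_of_mem _ m1
      have h2 := hmin T' hT' _ h1
      rw [hBA, Finset.mem_image] at m2
      obtain ⟨y, hy, hyt⟩ := m2
      have h3 := hmin T hT _ hy
      linarith
    subst ht
    rw [hBA]
    simp

end Pool.Agent.S09874
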