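import Pool.Statements.S09932
import Pool.Agent.X75.KArc

set_option autoImplicit false
open Pool Pool.MP_883534_co

namespace Pool.Agent.S09932

/-- The negation of the preceding statement: In any k-arc-strong tournament (k≥1), for every spanning subdigraph with all in- and out-degrees at least k there is a spanning k-arc-strong subdigraph with at most as many arcs; that is, the two minimum arc counts coincide. -/
theorem result :
    ¬ (∀ (n k : ℕ) (A : Finset (Fin n × Fin n)), 1 ≤ k →
      (∀ u : Fin n, (u, u) ∉ A) →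
      (∀ u v : Fin n, u ≠ v → ((u, v) ∈ A ↔ (v, u) ∉ A)) →
      (∀ S : Finset (Fin n), S.Nonempty → S ≠ Finset.univ →
          k ≤ (A.filter (fun e => e.1 ∈ S ∧ e.2 ∉ S)).card) →
      ∀ B ⊆ A,
        (∀ v : Fin n, k ≤ (B.filter (fun e => e.1 = v)).card ∧
                      k ≤ (B.filter (fun e => e.2 = v)).card) →
        ∃ C ⊆ A, C.card ≤ B.card ∧
          ∀ S : Finset (Fin n), S.Nonempty → S ≠ Finset.univ →
            k ≤ (C.filter (fun e => e.1 ∈ S ∧ e.2 ∉ S)).card) := by
  intro H
  obtain ⟨C, hCA, hcard, hC⟩ := H 26 5 X75.KArc.arcs (by norm_num) X75.KArc.irrefl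
    X75.KArc.tournament X75.KArc.arc_strong X75.KArc.arcsB X75.KArc.arcsB_subset
    X75.KArc.arcsB_deg
  have h1 := X75.KArc.lower C hCA hC
  have h2 := X75.KArc.arcsB_card
  omega

end Pool.Agent.S09932
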