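import Pool.Statements.S09946
import Pool.Agent.X51.Girth.Family

set_option autoImplicit false
open Pool Pool.MP_8888ff_co

namespace Pool.Agent.S09946

/-- The negation of the preceding statement: For every graph family whose members all contain a cycle and one is bipartite, some c>0 ensures every graph with min degree δ≥1 and max degree Δ has a spanning F-free subgraph of min degree at least c·ex(K_Δ,F)·δ/Δ². -/
theorem result :
    ¬ (∀ F : Set (Σ k : ℕ, SimpleGraph (Fin k)),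
      (∀ p ∈ F, ¬ p.2.IsAcyclic) →
      (∃ p ∈ F, p.2.Colorable 2) →
      ∃ c : ℝ, 0 < c ∧
        ∀ δ Δ : ℕ, 1 ≤ δ → δ ≤ Δ →
          ∀ n : ℕ, ∀ G : SimpleGraph (Fin n),
            (∀ v, δ ≤ (G.neighborSet v).ncard) →
            (∃ v, (G.neighborSet v).ncard = δ) →
            (∀ v, (G.neighborSet v).ncard ≤ Δ) →
            (∃ v, (G.neighborSet v).ncard = Δ) →
            ∀ T : SimpleGraph (Fin Δ),
              (∀ p ∈ F, ¬ p.2.IsContained T) →
              ∃ H : SimpleGraph (Fin n), H ≤ G ∧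
                (∀ p ∈ F, ¬ p.2.IsContained H) ∧
                ∀ v, c * (T.edgeSet.ncard : ℝ) * (δ : ℝ) / (Δ : ℝ) ^ 2
                  ≤ ((H.neighborSet v).ncard : ℝ)) := by
  intro hall
  obtain ⟨c, hc, hmain⟩ := hall Pool.Agent.X51.Girth.Fam Pool.Agent.X51.Girth.fam_cyclic
    Pool.Agent.X51.Girth.fam_bipartite
  obtain ⟨i, hi⟩ := exists_nat_gt (2 / c)
  have hD : 1 ≤ Pool.Agent.X51.Girth.D i := by
    have := Pool.Agent.X51.Girth.s_lt_D i
    omega
  have v0 : Fin (Pool.Agent.X51.Girth.N (Pool.Agent.X51.Girth.D i) (Pool.Agent.X51.Girth.D i)) :=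
    ⟨0, Pool.Agent.X51.Girth.N_pos _ _⟩
  obtain ⟨H, hH, hfree, hdeg⟩ := hmain (Pool.Agent.X51.Girth.D i) (Pool.Agent.X51.Girth.D i) hD
    le_rfl _ (Pool.Agent.X51.Girth.X (Pool.Agent.X51.Girth.D i) (Pool.Agent.X51.Girth.D i))
    (fun v => (Pool.Agent.X51.Girth.X_reg _ _ v).ge)
    ⟨v0, Pool.Agent.X51.Girth.X_reg _ _ v0⟩
    (fun v => (Pool.Agent.X51.Girth.X_reg _ _ v).le)
    ⟨v0, Pool.Agent.X51.Girth.X_reg _ _ v0⟩
    (Pool.Agent.X51.Girth.T i) (Pool.Agent.X51.Girth.T_free' i)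
  have hdeg2 : ∀ v, 2 ≤ (H.neighborSet v).ncard := by
    intro v
    have h1 := hdeg v
    have h2 := Pool.Agent.X51.Girth.T_edges i
    have h3 : (2 : ℝ) * ((Pool.Agent.X51.Girth.T i).edgeSet.ncard : ℝ) =
        (Pool.Agent.X51.Girth.D i : ℝ) * ((Pool.Agent.X51.Girth.s i : ℝ) + i + 1) := by
      exact_mod_cast h2
    set E : ℝ := ((Pool.Agent.X51.Girth.T i).edgeSet.ncard : ℝ) with hE
    set Dr : ℝ := (Pool.Agent.X51.Girth.D i : ℝ) with hDr
    have hDpos : (0 : ℝ) < Dr := by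
      rw [hDr]
      exact_mod_cast hD
    have h4 : c * E * Dr / Dr ^ 2 = c * ((Pool.Agent.X51.Girth.s i : ℝ) + i + 1) / 2 := by
      have h5 : E = Dr * ((Pool.Agent.X51.Girth.s i : ℝ) + i + 1) / 2 := by linarith
      rw [h5]
      field_simp
    rw [h4] at h1
    have h6 : 1 < c * ((Pool.Agent.X51.Girth.s i : ℝ) + i + 1) / 2 := by
      have h7 : 2 < c * i := by
        rw [div_lt_iff₀ hc] at hi
        linarith
      have h8 : (0 : ℝ) ≤ (Pool.Agent.X51.Girth.s i : ℝ) := Nat.cast_nonneg _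
      nlinarith
    have h9 : (1 : ℝ) < ((H.neighborSet v).ncard : ℝ) := lt_of_lt_of_le h6 h1
    have h10 : 1 < (H.neighborSet v).ncard := by exact_mod_cast h9
    omega
  obtain ⟨p, hp, hcon⟩ := Pool.Agent.X51.Girth.H_not_free i H hH hdeg2
  exact hfree p hp hcon

end Pool.Agent.S09946
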