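import Pool.Statements.S10311
-- import your own Pool.Agent.* helpers here
import Pool.Agent.H176R2.R5.FN
import Pool.Agent.H176R2.R5.GV

set_option autoImplicit false
open Pool Pool.MP_98a5df_co

namespace Pool.Agent.S10311

open H176R2.R5

/-- the ordered pairs which are edges of `G` -/
def pr {n : ℕ} (G : SimpleGraph (Fin n)) : Set (Fin n × Fin n) := {e | e.1 < e.2 ∧ G.Adj e.1 e.2}

theorem gr_pr {n : ℕ} (G : SimpleGraph (Fin n)) : OR.gr (pr G) = G := by
  ext a b
  constructor
  · rintro ⟨-, h | h⟩
    · exact h.2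
    · exact h.2.symm
  · intro h
    refine ⟨h.ne, ?_⟩
    rcases lt_or_gt_of_ne h.ne with h1 | h1
    · exact Or.inl ⟨h1, h⟩
    · exact Or.inr ⟨h1, h.symm⟩

/-- Every finite 5-regular graph in which each set of k≥3 vertices spans at most 3k−6 edges has a placement in R^3 whose rigidity matrix has linearly independent rows. -/
theorem result :
    ∀ (n : ℕ) (G : SimpleGraph (Fin n)) [DecidableRel G.Adj],
      G.IsRegularOfDegree 5 →
      (∀ S : Finset (Fin n), 3 ≤ S.card →
        (Finset.univ.filter (fun e : Fin n × Fin n =>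
          e.1 ∈ S ∧ e.2 ∈ S ∧ e.1 < e.2 ∧ G.Adj e.1 e.2)).card ≤ 3 * S.card - 6) →
      ∃ p : Fin n → Fin 3 → ℝ,
        LinearIndependent ℝ
          (fun e : {e : Fin n × Fin n // e.1 < e.2 ∧ G.Adj e.1 e.2} =>
            (fun (w : Fin n) (i : Fin 3) =>
              if w = e.val.1 then p e.val.1 i - p e.val.2 i
              else if w = e.val.2 then p e.val.2 i - p e.val.1 i
              else 0)) := by
  intro n G _ hreg hS
  have hlt : ∀ e ∈ pr G, e.1 < e.2 := fun e he => he.1
  obtain ⟨p, hp⟩ := exists_gen (V := Fin n)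
  refine ⟨p, ?_⟩
  have key : Ind p (OR.gr (pr G)) := by
    refine main hp ?_ ?_
    · intro X hX
      rw [OR.i2_gr hlt X]
      have h1 : (pr G ∩ {e | e.1 ∈ X ∧ e.2 ∈ X ∧ e.1 < e.2}) =
          ((Finset.univ.filter (fun e : Fin n × Fin n =>
            e.1 ∈ X ∧ e.2 ∈ X ∧ e.1 < e.2 ∧ G.Adj e.1 e.2) : Finset (Fin n × Fin n)) :
            Set (Fin n × Fin n)) := by
        ext e
        simp only [pr, Set.mem_inter_iff, Set.mem_ofPred_eq, Finset.coe_filter, Finset.mem_univ,
          true_and]
        tauto
      rw [h1, Set.ncard_coe_finset]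
      have := hS X hX
      omega
    · intro a
      rw [gr_pr]
      have h1 : dg G Finset.univ a = G.degree a := by
        unfold dg
        rw [← SimpleGraph.card_neighborFinset_eq_degree]
        congr 1
        ext b
        simp
      rw [h1, hreg a]
  exact (OR.ind_iff hlt p
    (fun (e : pr G) (w : Fin n) (i : Fin 3) =>
              if w = e.1.1 then p e.1.1 i - p e.1.2 i
              else if w = e.1.2 then p e.1.2 i - p e.1.1 i
              else 0) (fun e v k => rfl)).2 key

end Pool.Agent.S10311
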