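import Pool.Statements.S10411

set_option autoImplicit false
open Pool Pool.MP_9d9bd3_co

namespace Pool.Agent.S10411

/-!
The incidence pattern of the Moebius-Kantor configuration (points `0..7`, lines `8..15`, point `i` on
line `8+l` iff `i - l` is `0`, `1` or `3` modulo `8`) with all point-point and line-line pairs adjacent.
-/

/-- point-line incidence -/
def inc (i j : Fin 16) : Bool :=
  decide (i.val < 8 ∧ 8 ≤ j.val ∧ ((i.val + 16 - j.val) % 8 = 0 ∨ (i.val + 16 - j.val) % 8 = 1 ∨
    (i.val + 16 - j.val) % 8 = 3))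

/-- The graph. -/
def G : SimpleGraph (Fin 16) where
  Adj i j := i ≠ j ∧ inc i j = false ∧ inc j i = false
  symm := ⟨fun _ _ h => ⟨h.1.symm, h.2.2, h.2.1⟩⟩
  loopless := ⟨fun _ h => h.1 rfl⟩

instance decAdj (i j : Fin 16) : Decidable (G.Adj i j) :=
  inferInstanceAs (Decidable (i ≠ j ∧ inc i j = false ∧ inc j i = false))

def U1 : Matrix (Fin 16) (Fin 3) ℤ :=
  !![1, 0, 0; 0, 1, 0; 0, 0, 1; 1, 1, 0; 0, 1, 1; 1, 1, 1; 1, 1, 0; 1, 0, 0; -1, 1, 0; -1, 2, -1;
    -3, 6, -2; -4, 7, -2; 3, -5, 1; 3, -5, 1; 1, -1, 0; 2, -4, 1]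

def U2 : Matrix (Fin 16) (Fin 3) ℤ :=
  !![0, 0, 0; 0, 0, 0; 0, 0, 0; 0, 0, 0; 0, 0, 0; 0, 0, 1; 0, 1, 1; 0, 0, 1; 0, 0, 0; 0, 0, 0;
    0, 0, 0; 0, 0, 0; -1, 2, -1; 2, -4, 1; -1, 2, -1; 0, 0, 0]

def Q : Matrix (Fin 3) (Fin 3) ℤ := !![-1, -1, -2; -1, -1, -1; -2, -1, 0]

def Pm : Matrix (Fin 16) (Fin 16) ℤ := U1 * Q * U1.transpose - U2 * Q * U2.transpose
def Qm : Matrix (Fin 16) (Fin 16) ℤ :=
  U1 * Q * U2.transpose + U2 * Q * U1.transpose - U2 * Q * U2.transpose

lemma pattern : ∀ i j : Fin 16, i ≠ j → ((Pm i j ≠ 0 ∨ Qm i j ≠ 0) ↔ G.Adj i j) := by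
  decide +kernel

/-- primitive cube root of unity -/
noncomputable def w : ℂ := ⟨-1 / 2, Real.sqrt 3 / 2⟩

lemma w_sq : w * w = -1 - w := by
  have h3 : Real.sqrt 3 * Real.sqrt 3 = 3 := Real.mul_self_sqrt (by norm_num)
  apply Complex.ext
  · simp [w]; nlinarith
  · simp [w]; ring

lemma w_indep (a b : ℤ) (h : (a : ℂ) + w * (b : ℂ) = 0) : a = 0 ∧ b = 0 := by
  have him := congrArg Complex.im h
  have hre := congrArg Complex.re h
  simp [w] at him hre
  have hs : Real.sqrt 3 ≠ 0 := by positivity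
  have hb : b = 0 := by
    simpa using him
  subst hb
  simp at hre
  exact ⟨hre, rfl⟩

noncomputable def Uc : Matrix (Fin 16) (Fin 3) ℂ :=
  U1.map (Int.cast : ℤ → ℂ) + w • U2.map (Int.cast : ℤ → ℂ)

noncomputable def B : Matrix (Fin 16) (Fin 16) ℂ := Uc * (Q.map (Int.cast : ℤ → ℂ)) * Uc.transpose

lemma B_eq : B = Pm.map (Int.cast : ℤ → ℂ) + w • Qm.map (Int.cast : ℤ → ℂ) := by
  have e : ∀ (X Y : Matrix (Fin 16) (Fin 3) ℤ),
      (X * Q * Y.transpose).map (Int.cast : ℤ → ℂ) =
        X.map (Int.cast : ℤ → ℂ) * Q.map (Int.cast : ℤ → ℂ) * (Y.map (Int.cast : ℤ → ℂ)).transpose := by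
    intro X Y
    ext i j
    simp [Matrix.mul_apply]
  have hP : Pm.map (Int.cast : ℤ → ℂ) =
      U1.map (Int.cast : ℤ → ℂ) * Q.map (Int.cast : ℤ → ℂ) * (U1.map (Int.cast : ℤ → ℂ)).transpose
      - U2.map (Int.cast : ℤ → ℂ) * Q.map (Int.cast : ℤ → ℂ) * (U2.map (Int.cast : ℤ → ℂ)).transpose := by
    rw [← e, ← e, Pm]; ext i j; simp
  have hQ : Qm.map (Int.cast : ℤ → ℂ) =
      U1.map (Int.cast : ℤ → ℂ) * Q.map (Int.cast : ℤ → ℂ) * (U2.map (Int.cast : ℤ → ℂ)).transpose
      + U2.map (Int.cast : ℤ → ℂ) * Q.map (Int.cast : ℤ → ℂ) * (U1.map (Int.cast : ℤ → ℂ)).transpose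
      - U2.map (Int.cast : ℤ → ℂ) * Q.map (Int.cast : ℤ → ℂ) * (U2.map (Int.cast : ℤ → ℂ)).transpose := by
    rw [← e, ← e, ← e, Qm]; ext i j; simp
  rw [hP, hQ, B, Uc, Matrix.transpose_add, Matrix.transpose_smul]
  generalize U1.map (Int.cast : ℤ → ℂ) = X
  generalize U2.map (Int.cast : ℤ → ℂ) = Y
  generalize Q.map (Int.cast : ℤ → ℂ) = S
  rw [Matrix.add_mul, Matrix.add_mul, Matrix.mul_add, Matrix.mul_add, Matrix.smul_mul,
    Matrix.smul_mul, Matrix.smul_mul, Matrix.mul_smul, Matrix.mul_smul, smul_smul, w_sq, sub_smul,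
    neg_smul, one_smul, smul_sub, smul_add]
  abel

lemma B_symm : B.IsSymm := by
  have hQ : (Q.map (Int.cast : ℤ → ℂ)).transpose = Q.map (Int.cast : ℤ → ℂ) := by
    rw [← Matrix.transpose_map]
    congr 1
    decide
  unfold Matrix.IsSymm B
  rw [Matrix.transpose_mul, Matrix.transpose_mul, Matrix.transpose_transpose, hQ, Matrix.mul_assoc]

lemma B_rank : B.rank ≤ 3 := by
  unfold B
  rw [Matrix.mul_assoc]
  refine (Matrix.rank_mul_le_left _ _).trans ?_
  exact (Matrix.rank_le_width _)

lemma B_pattern : ∀ i j : Fin 16, i ≠ j → (B i j ≠ 0 ↔ G.Adj i j) := by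
  intro i j hij
  rw [← pattern i j hij, B_eq]
  simp only [Matrix.add_apply, Matrix.map_apply, Matrix.smul_apply, smul_eq_mul]
  constructor
  · intro h
    by_contra hc
    push Not at hc
    apply h
    rw [hc.1, hc.2]; simp
  · intro h h0
    obtain ⟨h1, h2⟩ := w_indep _ _ h0
    rcases h with h | h
    · exact h h1
    · exact h h2

lemma real_rank (A : Matrix (Fin 16) (Fin 16) ℝ)
    (hA : ∀ i j : Fin 16, i ≠ j → (A i j ≠ 0 ↔ G.Adj i j)) : 3 < A.rank := by
  by_contra hr
  push Not at hr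
  have hz : ∀ i j : Fin 16, i ≠ j → ¬ G.Adj i j → A i j = 0 := fun i j h h' => by
    by_contra hc; exact h' ((hA i j h).1 hc)
  have hn : ∀ i j : Fin 16, i ≠ j → G.Adj i j → A i j ≠ 0 := fun i j h h' => (hA i j h).2 h'
  -- the three base rows are independent
  set v : Fin 3 → (Fin 16 → ℝ) := ![A 0, A 1, A 2] with hv
  have hli : LinearIndependent ℝ v := by
    rw [Fintype.linearIndependent_iff]
    intro g hg
    have key : ∀ j : Fin 16, g 0 * A 0 j + g 1 * A 1 j + g 2 * A 2 j = 0 := by
      intro j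
      have := congrFun hg j
      simpa [hv, Fin.sum_univ_three] using this
    have k0 := key 8
    have k1 := key 9
    have k7 := key 15
    rw [hz 0 8 (by decide) (by decide), hz 1 8 (by decide) (by decide)] at k0
    rw [hz 1 9 (by decide) (by decide), hz 2 9 (by decide) (by decide)] at k1
    rw [hz 0 15 (by decide) (by decide), hz 2 15 (by decide) (by decide)] at k7
    have n0 := hn 2 8 (by decide) (by decide)
    have n1 := hn 0 9 (by decide) (by decide)
    have n7 := hn 1 15 (by decide) (by decide)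
    intro i
    fin_cases i
    · simpa [n1] using k1
    · simpa [n7] using k7
    · simpa [n0] using k0
  have hspan : Submodule.span ℝ (Set.range v) = Submodule.span ℝ (Set.range A.row) := by
    apply Submodule.eq_of_le_of_finrank_le
    · apply Submodule.span_mono
      rintro x ⟨i, rfl⟩
      fin_cases i
      · exact ⟨0, rfl⟩
      · exact ⟨1, rfl⟩
      · exact ⟨2, rfl⟩
    · rw [finrank_span_eq_card hli, ← Matrix.rank_eq_finrank_span_row]
      simpa using hr
  have hmem : ∀ p : Fin 16, ∃ a b c : ℝ, ∀ j, A p j = a * A 0 j + b * A 1 j + c * A 2 j := by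
    intro p
    have : A p ∈ Submodule.span ℝ (Set.range v) := by
      rw [hspan]; exact Submodule.subset_span ⟨p, rfl⟩
    rw [Submodule.mem_span_range_iff_exists_fun] at this
    obtain ⟨c, hc⟩ := this
    refine ⟨c 0, c 1, c 2, fun j => ?_⟩
    rw [← hc]
    simp [hv, Fin.sum_univ_three]
  obtain ⟨a3, b3, c3, h3⟩ := hmem 3
  obtain ⟨a4, b4, c4, h4⟩ := hmem 4
  obtain ⟨a5, b5, c5, h5⟩ := hmem 5
  obtain ⟨a6, b6, c6, h6⟩ := hmem 6
  obtain ⟨a7, b7, c7, h7⟩ := hmem 7
  -- column 8 (line 0 = {0,1,3})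
  have z := hz
  have e3 := h3 8
  rw [z 3 8 (by decide) (by decide), z 0 8 (by decide) (by decide), z 1 8 (by decide) (by decide)] at e3
  have n0 := hn 2 8 (by decide) (by decide)
  have hc3 : c3 = 0 := by
    have : c3 * A 2 8 = 0 := by linarith
    exact (mul_eq_zero.1 this).resolve_right n0
  -- column 9 (line 1 = {1,2,4})
  have e4 := h4 9
  rw [z 4 9 (by decide) (by decide), z 1 9 (by decide) (by decide), z 2 9 (by decide) (by decide)] at e4
  have n1 := hn 0 9 (by decide) (by decide)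
  have ha4 : a4 = 0 := by
    have : a4 * A 0 9 = 0 := by linarith
    exact (mul_eq_zero.1 this).resolve_right n1
  -- column 15 (line 7 = {7,0,2})
  have e7 := h7 15
  rw [z 7 15 (by decide) (by decide), z 0 15 (by decide) (by decide), z 2 15 (by decide) (by decide)] at e7
  have n7 := hn 1 15 (by decide) (by decide)
  have hb7 : b7 = 0 := by
    have : b7 * A 1 15 = 0 := by linarith
    exact (mul_eq_zero.1 this).resolve_right n7
  subst hc3 ha4 hb7
  -- column 10 (line 2 = {2,3,5})
  have f3 := h3 10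
  have f5 := h5 10
  rw [z 3 10 (by decide) (by decide), z 2 10 (by decide) (by decide)] at f3
  rw [z 5 10 (by decide) (by decide), z 2 10 (by decide) (by decide)] at f5
  -- column 11 (line 3 = {3,4,6})
  have g3 := h3 11
  have g4 := h4 11
  have g6 := h6 11
  rw [z 3 11 (by decide) (by decide)] at g3
  rw [z 4 11 (by decide) (by decide)] at g4
  rw [z 6 11 (by decide) (by decide)] at g6
  -- column 12 (line 4 = {4,5,7})
  have i4 := h4 12
  have i5 := h5 12
  have i7 := h7 12
  rw [z 4 12 (by decide) (by decide)] at i4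
  rw [z 5 12 (by decide) (by decide)] at i5
  rw [z 7 12 (by decide) (by decide)] at i7
  -- column 13 (line 5 = {5,6,0})
  have j5 := h5 13
  have j6 := h6 13
  rw [z 5 13 (by decide) (by decide), z 0 13 (by decide) (by decide)] at j5
  rw [z 6 13 (by decide) (by decide), z 0 13 (by decide) (by decide)] at j6
  -- column 14 (line 6 = {6,7,1})
  have k6 := h6 14
  have k7 := h7 14
  rw [z 6 14 (by decide) (by decide), z 1 14 (by decide) (by decide)] at k6
  rw [z 7 14 (by decide) (by decide), z 1 14 (by decide) (by decide)] at k7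
  -- nonvanishing entries
  have m0_10 := hn 0 10 (by decide) (by decide)
  have m1_10 := hn 1 10 (by decide) (by decide)
  have m0_11 := hn 0 11 (by decide) (by decide)
  have m1_11 := hn 1 11 (by decide) (by decide)
  have m2_11 := hn 2 11 (by decide) (by decide)
  have m0_12 := hn 0 12 (by decide) (by decide)
  have m1_12 := hn 1 12 (by decide) (by decide)
  have m2_12 := hn 2 12 (by decide) (by decide)
  have m1_13 := hn 1 13 (by decide) (by decide)
  have m2_13 := hn 2 13 (by decide) (by decide)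
  have m0_14 := hn 0 14 (by decide) (by decide)
  have m2_14 := hn 2 14 (by decide) (by decide)
  -- nonvanishing coordinates
  have na3 : a3 ≠ 0 := by
    rintro rfl
    have := h3 9
    rw [z 1 9 (by decide) (by decide), z 2 9 (by decide) (by decide)] at this
    exact hn 3 9 (by decide) (by decide) (by linarith)
  have nb3 : b3 ≠ 0 := by
    rintro rfl
    have := h3 15
    rw [z 0 15 (by decide) (by decide), z 2 15 (by decide) (by decide)] at this
    exact hn 3 15 (by decide) (by decide) (by linarith)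
  have nb4 : b4 ≠ 0 := by
    rintro rfl
    have := h4 15
    rw [z 0 15 (by decide) (by decide), z 2 15 (by decide) (by decide)] at this
    exact hn 4 15 (by decide) (by decide) (by linarith)
  have nc4 : c4 ≠ 0 := by
    rintro rfl
    have := h4 8
    rw [z 0 8 (by decide) (by decide), z 1 8 (by decide) (by decide)] at this
    exact hn 4 8 (by decide) (by decide) (by linarith)
  have na7 : a7 ≠ 0 := by
    rintro rfl
    have := h7 9
    rw [z 1 9 (by decide) (by decide), z 2 9 (by decide) (by decide)] at this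
    exact hn 7 9 (by decide) (by decide) (by linarith)
  have nc7 : c7 ≠ 0 := by
    rintro rfl
    have := h7 8
    rw [z 0 8 (by decide) (by decide), z 1 8 (by decide) (by decide)] at this
    exact hn 7 8 (by decide) (by decide) (by linarith)
  have na5 : a5 ≠ 0 := by
    rintro rfl
    have := h5 9
    rw [z 1 9 (by decide) (by decide), z 2 9 (by decide) (by decide)] at this
    exact hn 5 9 (by decide) (by decide) (by linarith)
  have na6 : a6 ≠ 0 := by
    rintro rfl
    have := h6 9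
    rw [z 1 9 (by decide) (by decide), z 2 9 (by decide) (by decide)] at this
    exact hn 6 9 (by decide) (by decide) (by linarith)
  -- ratios
  -- m = b3/a3, k = c4/b4, n = c7/a7
  have r5 : a3 * b5 = b3 * a5 := by
    have h : (a3 * b5 - b3 * a5) * A 1 10 = 0 := by linear_combination (-a3) * f5 + a5 * f3
    have := (mul_eq_zero.1 h).resolve_right m1_10
    linarith
  -- column 11: a3 x + b3 y = 0, b4 y + c4 z = 0, a6 x + b6 y + c6 z = 0
  have r6 : c6 * a3 * b4 = c4 * (b6 * a3 - a6 * b3) := by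
    have h : (c6 * a3 * b4 - c4 * (b6 * a3 - a6 * b3)) * A 2 11 = 0 := by
      linear_combination (-a3 * b4) * g6 + (a6 * b4) * g3 + (a3 * b6 - a6 * b3) * g4
    have := (mul_eq_zero.1 h).resolve_right m2_11
    linarith
  -- column 12: b4 y + c4 z = 0, a7 x + c7 z = 0, a5 x + b5 y + c5 z = 0
  have r5' : c5 * a7 * b4 = a5 * c7 * b4 + b5 * c4 * a7 := by
    have h : (c5 * a7 * b4 - (a5 * c7 * b4 + b5 * c4 * a7)) * A 2 12 = 0 := by
      linear_combination (-a7 * b4) * i5 + (a5 * b4) * i7 + (b5 * a7) * i4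
    have := (mul_eq_zero.1 h).resolve_right m2_12
    linarith
  -- column 13
  have r56 : b5 * c6 = c5 * b6 := by
    have h : (b5 * c6 - c5 * b6) * A 2 13 = 0 := by linear_combination (-b5) * j6 + b6 * j5
    have := (mul_eq_zero.1 h).resolve_right m2_13
    linarith
  -- column 14
  have r67 : a7 * c6 = c7 * a6 := by
    have h : (a7 * c6 - c7 * a6) * A 2 14 = 0 := by linear_combination (-a7) * k6 + a6 * k7
    have := (mul_eq_zero.1 h).resolve_right m2_14
    linarith
  -- pass to ratios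
  set m := b3 / a3 with hm
  set k := c4 / b4 with hk
  set n := c7 / a7 with hnn
  have E1 : b5 = m * a5 := by rw [hm]; field_simp; linarith
  have E2 : c6 = n * a6 := by rw [hnn]; field_simp; linarith
  have E3 : c6 = k * (b6 - a6 * m) := by
    rw [hk, hm]; field_simp; linarith
  have E4 : c5 = a5 * n + b5 * k := by
    rw [hk, hnn]; field_simp; linarith
  have nk : k ≠ 0 := div_ne_zero nc4 nb4
  have nn : n ≠ 0 := div_ne_zero nc7 na7
  have nm : m ≠ 0 := div_ne_zero nb3 na3
  have E5 : k * b6 = a6 * (n + k * m) := by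
    have : n * a6 = k * (b6 - a6 * m) := E2 ▸ E3
    linarith
  have E6 : (n * (m * k) - (n + m * k) ^ 2) * (a5 * a6) = 0 := by
    have h1 : m * a5 * (n * a6) = (a5 * n + m * a5 * k) * b6 := by
      rw [← E1, ← E2, ← E4]; exact r56
    have h2 : k * (m * a5 * (n * a6)) = (a5 * n + m * a5 * k) * (a6 * (n + k * m)) := by
      rw [← E5, h1]; ring
    linear_combination h2
  have E7 : n * (m * k) - (n + m * k) ^ 2 = 0 :=
    (mul_eq_zero.1 E6).resolve_right (mul_ne_zero na5 na6)
  have h8 : (n / 2 + m * k) ^ 2 + 3 / 4 * n ^ 2 = 0 := by linear_combination (-1 : ℝ) * E7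
  have h9 : 0 < n ^ 2 := by positivity
  have h10 : 0 ≤ (n / 2 + m * k) ^ 2 := sq_nonneg _
  linarith

/-- There is a finite simple graph G and a complex symmetric matrix with G's off-diagonal nonzero pattern whose rank is below the rank of every real symmetric matrix with that pattern, i.e. real minimum rank exceeds complex minimum rank. -/
theorem result :
    ∃ n : ℕ, ∃ G : SimpleGraph (Fin n), ∃ B : Matrix (Fin n) (Fin n) ℂ,
      B.IsSymm ∧ (∀ i j : Fin n, i ≠ j → (B i j ≠ 0 ↔ G.Adj i j)) ∧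
      ∀ A : Matrix (Fin n) (Fin n) ℝ, A.IsSymm →
        (∀ i j : Fin n, i ≠ j → (A i j ≠ 0 ↔ G.Adj i j)) →
        B.rank < A.rank := by
  exact ⟨16, G, B, B_symm, B_pattern, fun A _ hA => lt_of_le_of_lt B_rank (real_rank A hA)⟩

end Pool.Agent.S10411
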