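import Pool.Statements.S11006
import Pool.Agent.X231.Oct

set_option autoImplicit false
open scoped Pointwise
open Pool Pool.MP_b7cbb2_co

open Pool.Agent.X231

namespace Pool.Agent.S11006

/-- The negation of the preceding statement: For any finite group acting linearly on Z^n and invariant lattice polytope P whose equivariant h*-series is a polynomial, every coefficient with positive h*_i has nonzero sum over the group, i.e. contains the trivial representation. -/
theorem result :
    ¬ (∀ (G : Type) [Group G] [Fintype G] (n : ℕ)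
      (ρ : G →* Matrix.GeneralLinearGroup (Fin n) ℤ)
      (V : Finset (Fin n → ℤ)) (P : Set (Fin n → ℝ)),
      V.Nonempty →
      (∀ g : G, ∀ v ∈ V,
        Matrix.mulVec (ρ g : Matrix (Fin n) (Fin n) ℤ) v ∈ V) →
      P = convexHull ℝ
        ((fun v : Fin n → ℤ => fun j => ((v j : ℤ) : ℝ)) '' (V : Set (Fin n → ℤ))) →
      ∀ (d : ℕ) (ι : (Fin d → ℤ) →ₗ[ℤ] (Fin n → ℤ))
        (σ : G → Matrix (Fin d) (Fin d) ℤ) (Φ : G → PowerSeries ℤ),
      Function.Injective ι →
      (∀ x : Fin n → ℤ,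
        (∃ y : Fin d → ℤ, ι y = x) ↔
          (fun j => ((x j : ℤ) : ℝ)) ∈ vectorSpan ℝ P) →
      (∀ (g : G) (y : Fin d → ℤ),
        ι (Matrix.mulVec (σ g) y) =
          Matrix.mulVec (ρ g : Matrix (Fin n) (Fin n) ℤ) (ι y)) →
      (∀ g : G, Φ g =
        PowerSeries.mk (fun m : ℕ =>
          ((Set.ncard {x : Fin n → ℤ |
              (fun j => ((x j : ℤ) : ℝ)) ∈ (m : ℝ) • P ∧
              Matrix.mulVec (ρ g : Matrix (Fin n) (Fin n) ℤ) x = x} : ℕ) : ℤ))
        * (1 - PowerSeries.X)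
        * ((Matrix.det (1 - (Polynomial.X : Polynomial ℤ) •
              (σ g).map Polynomial.C) : Polynomial ℤ) : PowerSeries ℤ)) →
      (∃ N : ℕ, ∀ g : G, ∀ i : ℕ, N ≤ i →
        PowerSeries.coeff (R := ℤ) i (Φ g) = 0) →
      ∀ i : ℕ, 0 < PowerSeries.coeff (R := ℤ) i (Φ 1) →
        (∑ g : G, PowerSeries.coeff (R := ℤ) i (Φ g)) ≠ 0) := by
  intro hall
  have hone : Oct.Phi 1 = 1 + 2 * PowerSeries.X + PowerSeries.X ^ 2 := Oct.Phi0
  have hcases : ∀ g : Multiplicative (ZMod 3),
      g = 1 ∨ g = Multiplicative.ofAdd 1 ∨ g = Multiplicative.ofAdd 2 := by decide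
  have hρ : ∀ g, ((MonoidHom.toHomUnits Oct.cycHom g : (Matrix (Fin 3) (Fin 3) ℤ)ˣ) :
      Matrix (Fin 3) (Fin 3) ℤ) = Oct.cyc g := fun g => rfl
  have key := hall (Multiplicative (ZMod 3)) 3 (MonoidHom.toHomUnits Oct.cycHom) Oct.V Oct.P
    ⟨![1,0,0], by decide⟩ (fun g v hv => Oct.V_inv g v hv) rfl 3 LinearMap.id Oct.cyc Oct.Phi
    Function.injective_id
    (fun x => ⟨fun _ => by rw [Oct.span_top]; trivial, fun _ => ⟨x, rfl⟩⟩)
    (fun g y => rfl) (fun g => rfl)
    ⟨3, fun g i hi => by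
      have e0 : i ≠ 0 := by omega
      have e1 : i ≠ 1 := by omega
      have e2 : i ≠ 2 := by omega
      rcases hcases g with rfl | rfl | rfl
      · rw [Oct.Phi0, two_mul]
        simp [PowerSeries.coeff_one, PowerSeries.coeff_X,
          PowerSeries.coeff_X_pow, e0, e1, e2]
      · rw [Oct.Phi1]
        simp [PowerSeries.coeff_one, PowerSeries.coeff_X,
          PowerSeries.coeff_X_pow, e0, e1, e2]
      · rw [Oct.Phi2]
        simp [PowerSeries.coeff_one, PowerSeries.coeff_X,
          PowerSeries.coeff_X_pow, e0, e1, e2]⟩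
    1
  have c0 : PowerSeries.coeff 1 (Oct.Phi 1) = 2 := by
    rw [Oct.Phi0, two_mul]
    simp [PowerSeries.coeff_one, PowerSeries.coeff_X,
          PowerSeries.coeff_X_pow]
  have c1 : PowerSeries.coeff 1 (Oct.Phi (Multiplicative.ofAdd 1)) = -1 := by
    rw [Oct.Phi1]
    simp [PowerSeries.coeff_one, PowerSeries.coeff_X, PowerSeries.coeff_X_pow]
  have c2 : PowerSeries.coeff 1 (Oct.Phi (Multiplicative.ofAdd 2)) = -1 := by
    rw [Oct.Phi2]
    simp [PowerSeries.coeff_one, PowerSeries.coeff_X, PowerSeries.coeff_X_pow]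
  refine key (by rw [c0]; norm_num) ?_
  have hu : (Finset.univ : Finset (Multiplicative (ZMod 3))) =
      {1, Multiplicative.ofAdd 1, Multiplicative.ofAdd 2} := by decide
  rw [hu, Finset.sum_insert (by decide), Finset.sum_insert (by decide), Finset.sum_singleton,
    c0, c1, c2]
  norm_num

end Pool.Agent.S11006
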