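import Pool.Statements.S11127
import Pool.Agent.X45.HypDeg

set_option autoImplicit false
open Pool Pool.MP_bd7745_co

namespace Pool.Agent.S11127

open Finset Pool.Agent.X45

/-- Number of hypergraphs in which both pairs have equal degrees. -/
noncomputable def val (n k : ℕ) (p q : Fin n × Fin n) : ℝ :=
  (((EU n k).powerset.filter
      (fun H => dg H p.1 = dg H p.2 ∧ dg H q.1 = dg H q.2)).card : ℝ)

lemma val_le_single {n k : ℕ} (hk : 1 ≤ k) (p q : Fin n × Fin n) (hp : p.1 ≠ p.2) :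
    val n k p q ≤ qm (2 * (n - 2).choose (k - 1)) * 2 ^ (n.choose k) := by
  refine le_trans ?_ (single_upper hk hp 0)
  unfold val
  norm_cast
  refine card_le_card ?_
  intro H hH
  rw [mem_filter] at hH ⊢
  refine ⟨hH.1, ?_⟩
  rw [hH.2.1]; simp

lemma val_le_overlap {n k : ℕ} (hk : 1 ≤ k) (p q : Fin n × Fin n) (a b c : Fin n)
    (hab : a ≠ b) (hac : a ≠ c) (hbc : b ≠ c)
    (h1 : ∀ H : Finset (Finset (Fin n)), dg H p.1 = dg H p.2 → dg H a = dg H c)
    (h2 : ∀ H : Finset (Finset (Fin n)), dg H q.1 = dg H q.2 → dg H b = dg H c) :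
    val n k p q ≤ qm ((n - 3).choose (k - 1)) * qm ((n - 3).choose (k - 1)) *
      2 ^ (n.choose k) := by
  refine le_trans ?_ (overlap_upper hk hab hac hbc 0 0)
  unfold val
  norm_cast
  refine card_le_card ?_
  intro H hH
  rw [mem_filter] at hH ⊢
  refine ⟨hH.1, ?_, ?_⟩
  · rw [h1 H hH.2.1]; simp
  · rw [h2 H hH.2.2]; simp

lemma val_le_disjoint {n k : ℕ} (hk : 2 ≤ k) (p q : Fin n × Fin n)
    (hp : p.1 ≠ p.2) (hq : q.1 ≠ q.2) (h11 : q.1 ≠ p.1) (h12 : q.1 ≠ p.2) (h21 : q.2 ≠ p.1)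
    (h22 : q.2 ≠ p.2) :
    val n k p q ≤ qm (2 * (n - 2).choose (k - 1) - 4 * (n - 2).choose (k - 2)) *
      qm (2 * (n - 2).choose (k - 1) - 4 * (n - 2).choose (k - 2)) *
      2 ^ (n.choose k) := by
  refine le_trans ?_ (disjoint_upper hk hp hq h11.symm h21.symm h12.symm h22.symm 0 0)
  unfold val
  norm_cast
  refine card_le_card ?_
  intro H hH
  rw [mem_filter] at hH ⊢
  refine ⟨hH.1, ?_, ?_⟩
  · rw [hH.2.1]; simp
  · rw [hH.2.2]; simp

/-- Pointwise bound by type of pair of pairs. -/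
lemma val_bound {n k : ℕ} (hk : 2 ≤ k) (p q : Fin n × Fin n) (hp : p.1 ≠ p.2) (hq : q.1 ≠ q.2) :
    val n k p q ≤ ((qm (2 * (n - 2).choose (k - 1))) *
        ((if q.1 = p.1 then (if q.2 = p.2 then (1 : ℝ) else 0) else 0) +
          (if q.1 = p.2 then (if q.2 = p.1 then (1 : ℝ) else 0) else 0)) +
      qm ((n - 3).choose (k - 1)) ^ 2 *
        ((if q.1 = p.1 then (1 : ℝ) else 0) + (if q.1 = p.2 then (1 : ℝ) else 0) +
          (if q.2 = p.1 then (1 : ℝ) else 0) + (if q.2 = p.2 then (1 : ℝ) else 0)) +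
      qm (2 * (n - 2).choose (k - 1) - 4 * (n - 2).choose (k - 2)) ^ 2) *
      2 ^ (n.choose k) := by
  have n1 := qm_nonneg (2 * (n - 2).choose (k - 1))
  have n2 : 0 ≤ qm ((n - 3).choose (k - 1)) ^ 2 := sq_nonneg _
  have n3 : 0 ≤ qm (2 * (n - 2).choose (k - 1) - 4 * (n - 2).choose (k - 2)) ^ 2 := sq_nonneg _
  have n4 : (0 : ℝ) < 2 ^ (n.choose k) := by positivity
  obtain ⟨u, v⟩ := p
  obtain ⟨w, x⟩ := q
  simp only at hp hq ⊢
  by_cases h11 : w = u
  · subst h11
    have hwv : w ≠ v := hp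
    by_cases h22 : x = v
    · subst h22
      have := val_le_single (k := k) (by omega) (w, x) (w, x) hp
      refine this.trans (mul_le_mul_of_nonneg_right ?_ n4.le)
      simp only [if_true, hp, if_false, hp.symm]
      linarith
    · have := val_le_overlap (n := n) (k := k) (by omega) (w, v) (w, x) v x w
        (fun h => h22 h.symm) hp.symm hq.symm (fun H h => h.symm) (fun H h => h.symm)
      refine this.trans (mul_le_mul_of_nonneg_right ?_ n4.le)
      simp only [if_true, hp, if_false, h22, hq.symm]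
      linarith
  · by_cases h12 : w = v
    · subst h12
      by_cases h21 : x = u
      · subst h21
        have := val_le_single (k := k) (by omega) (x, w) (w, x) hp
        refine this.trans (mul_le_mul_of_nonneg_right ?_ n4.le)
        simp only [if_true, hp, if_false, hp.symm]
        linarith
      · have := val_le_overlap (n := n) (k := k) (by omega) (u, w) (w, x) u x w
          (fun h => h21 h.symm) hp hq.symm (fun H h => h) (fun H h => h.symm)
        refine this.trans (mul_le_mul_of_nonneg_right ?_ n4.le)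
        simp only [if_true, h11, if_false, h21, hq.symm]
        linarith
    · by_cases h21 : x = u
      · subst h21
        have := val_le_overlap (n := n) (k := k) (by omega) (x, v) (w, x) v w x
          (fun h => h12 h.symm) hp.symm hq (fun H h => h.symm) (fun H h => h)
        refine this.trans (mul_le_mul_of_nonneg_right ?_ n4.le)
        simp only [if_true, h11, if_false, h12, hp]
        linarith
      · by_cases h22 : x = v
        · subst h22
          have := val_le_overlap (n := n) (k := k) (by omega) (u, x) (w, x) u w x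
            (fun h => h11 h.symm) hp hq (fun H h => h) (fun H h => h)
          refine this.trans (mul_le_mul_of_nonneg_right ?_ n4.le)
          simp only [if_true, h11, if_false, h12, h21]
          linarith
        · have := val_le_disjoint (n := n) (k := k) hk (u, v) (w, x) hp hq h11 h12 h21 h22
          refine this.trans (mul_le_mul_of_nonneg_right ?_ n4.le)
          simp only [h11, if_false, h12, h21, h22]
          linarith

lemma sum_val_le {n k : ℕ} (hk : 2 ≤ k) (p : Fin n × Fin n) (hp : p.1 ≠ p.2) :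
    ∑ q ∈ (univ : Finset (Fin n)).offDiag, val n k p q ≤
      (2 * qm (2 * (n - 2).choose (k - 1)) + 4 * n * qm ((n - 3).choose (k - 1)) ^ 2 +
        n ^ 2 * qm (2 * (n - 2).choose (k - 1) - 4 * (n - 2).choose (k - 2)) ^ 2) *
        2 ^ (n.choose k) := by
  have n1 := qm_nonneg (2 * (n - 2).choose (k - 1))
  have n2 : 0 ≤ qm ((n - 3).choose (k - 1)) ^ 2 := sq_nonneg _
  have n3 : 0 ≤ qm (2 * (n - 2).choose (k - 1) - 4 * (n - 2).choose (k - 2)) ^ 2 := sq_nonneg _
  have n4 : (0 : ℝ) < 2 ^ (n.choose k) := by positivity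
  calc ∑ q ∈ (univ : Finset (Fin n)).offDiag, val n k p q
      ≤ ∑ q ∈ (univ : Finset (Fin n)).offDiag, ((qm (2 * (n - 2).choose (k - 1))) *
        ((if q.1 = p.1 then (if q.2 = p.2 then (1 : ℝ) else 0) else 0) +
          (if q.1 = p.2 then (if q.2 = p.1 then (1 : ℝ) else 0) else 0)) +
      qm ((n - 3).choose (k - 1)) ^ 2 *
        ((if q.1 = p.1 then (1 : ℝ) else 0) + (if q.1 = p.2 then (1 : ℝ) else 0) +
          (if q.2 = p.1 then (1 : ℝ) else 0) + (if q.2 = p.2 then (1 : ℝ) else 0)) +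
      qm (2 * (n - 2).choose (k - 1) - 4 * (n - 2).choose (k - 2)) ^ 2) *
      2 ^ (n.choose k) := by
        refine sum_le_sum fun q hq => val_bound hk p q hp ?_
        exact (mem_offDiag.1 hq).2.2
    _ ≤ ∑ q : Fin n × Fin n, ((qm (2 * (n - 2).choose (k - 1))) *
        ((if q.1 = p.1 then (if q.2 = p.2 then (1 : ℝ) else 0) else 0) +
          (if q.1 = p.2 then (if q.2 = p.1 then (1 : ℝ) else 0) else 0)) +
      qm ((n - 3).choose (k - 1)) ^ 2 *
        ((if q.1 = p.1 then (1 : ℝ) else 0) + (if q.1 = p.2 then (1 : ℝ) else 0) +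
          (if q.2 = p.1 then (1 : ℝ) else 0) + (if q.2 = p.2 then (1 : ℝ) else 0)) +
      qm (2 * (n - 2).choose (k - 1) - 4 * (n - 2).choose (k - 2)) ^ 2) *
      2 ^ (n.choose k) := by
        refine sum_le_sum_of_subset_of_nonneg (subset_univ _) fun q _ _ => ?_
        refine mul_nonneg ?_ n4.le
        refine add_nonneg (add_nonneg (mul_nonneg n1 ?_) (mul_nonneg n2 ?_)) n3
        · split_ifs <;> norm_num
        · split_ifs <;> norm_num
    _ = _ := by
        rw [← sum_mul]
        congr 1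
        rw [sum_add_distrib, sum_add_distrib, ← mul_sum, ← mul_sum]
        have e1 : ∑ q : Fin n × Fin n,
            ((if q.1 = p.1 then (if q.2 = p.2 then (1 : ℝ) else 0) else 0) +
          (if q.1 = p.2 then (if q.2 = p.1 then (1 : ℝ) else 0) else 0)) = 2 := by
          rw [sum_add_distrib, Fintype.sum_prod_type, Fintype.sum_prod_type]
          simp
          norm_num
        have e2 : ∑ q : Fin n × Fin n,
            ((if q.1 = p.1 then (1 : ℝ) else 0) + (if q.1 = p.2 then (1 : ℝ) else 0) +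
          (if q.2 = p.1 then (1 : ℝ) else 0) + (if q.2 = p.2 then (1 : ℝ) else 0)) = 4 * n := by
          have f1 : ∀ a : Fin n, ∑ q : Fin n × Fin n, (if q.1 = a then (1 : ℝ) else 0) = n := by
            intro a
            rw [Fintype.sum_prod_type_right]; simp
          have f2 : ∀ a : Fin n, ∑ q : Fin n × Fin n, (if q.2 = a then (1 : ℝ) else 0) = n := by
            intro a
            rw [Fintype.sum_prod_type]; simp
          rw [sum_add_distrib, sum_add_distrib, sum_add_distrib, f1, f1, f2, f2]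
          ring
        rw [e1, e2]
        simp
        ring

/-- Number of coincident ordered pairs. -/
noncomputable def W {n : ℕ} (H : Finset (Finset (Fin n))) : ℝ :=
  ∑ p ∈ (univ : Finset (Fin n)).offDiag, (if dg H p.1 = dg H p.2 then (1 : ℝ) else 0)

lemma sum_W_ge {n k : ℕ} (hk : 2 ≤ k) :
    (n : ℝ) * (n - 1) * (qm (2 * (n - 2).choose (k - 1)) * 2 ^ (n.choose k)) ≤
      ∑ H ∈ (EU n k).powerset, W H := by
  unfold W
  rw [sum_comm]
  have hc : ((univ : Finset (Fin n)).offDiag.card : ℝ) = (n : ℝ) * (n - 1) := by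
    rw [offDiag_card, card_univ, Fintype.card_fin]
    have : n ≤ n * n := Nat.le_mul_self n
    push_cast [this]
    ring
  rw [← hc, ← nsmul_eq_mul]
  refine card_nsmul_le_sum _ _ _ fun p hp => ?_
  rw [sum_boole]
  refine (single_lower (k := k) (by omega) (mem_offDiag.1 hp).2.2).trans ?_
  refine Nat.cast_le.2 (card_le_card ?_)
  intro H hH
  rw [mem_filter] at hH ⊢
  refine ⟨hH.1, ?_⟩
  have h5 : (dg H p.1 : ℤ) - dg H p.2 = 0 := hH.2
  omega

lemma sum_W_sq_le {n k : ℕ} (hk : 2 ≤ k) :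
    ∑ H ∈ (EU n k).powerset, W H ^ 2 ≤ (n : ℝ) * (n - 1) *
      ((2 * qm (2 * (n - 2).choose (k - 1)) + 4 * n * qm ((n - 3).choose (k - 1)) ^ 2 +
        n ^ 2 * qm (2 * (n - 2).choose (k - 1) - 4 * (n - 2).choose (k - 2)) ^ 2) *
        2 ^ (n.choose k)) := by
  have h1 : ∑ H ∈ (EU n k).powerset, W H ^ 2 =
      ∑ p ∈ (univ : Finset (Fin n)).offDiag, ∑ q ∈ (univ : Finset (Fin n)).offDiag,
        val n k p q := by
    unfold W val
    simp_rw [sq, sum_mul_sum]
    rw [sum_comm]
    refine sum_congr rfl fun p _ => ?_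
    rw [sum_comm]
    refine sum_congr rfl fun q _ => ?_
    rw [← sum_boole]
    refine sum_congr rfl fun H _ => ?_
    by_cases h1 : dg H p.1 = dg H p.2 <;> by_cases h2 : dg H q.1 = dg H q.2 <;> simp [h1, h2]
  have hc : ((univ : Finset (Fin n)).offDiag.card : ℝ) = (n : ℝ) * (n - 1) := by
    rw [offDiag_card, card_univ, Fintype.card_fin]
    have : n ≤ n * n := Nat.le_mul_self n
    push_cast [this]
    ring
  rw [h1, ← hc, ← nsmul_eq_mul]
  exact sum_le_card_nsmul _ _ _ fun p hp => sum_val_le hk p (mem_offDiag.1 hp).2.2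

/-- Good hypergraphs. -/
noncomputable def good (n k : ℕ) : Finset (Finset (Finset (Fin n))) :=
  (((univ : Finset (Fin n)).powersetCard k).powerset.filter
              (fun H => ∃ v w : Fin n, v ≠ w ∧
                (H.filter (fun e => v ∈ e)).card = (H.filter (fun e => w ∈ e)).card))

lemma cauchy {n k : ℕ} :
    (∑ H ∈ (EU n k).powerset, W H) ^ 2 ≤
      ((good n k).card : ℝ) * ∑ H ∈ (EU n k).powerset, W H ^ 2 := by
  have hsub : good n k ⊆ (EU n k).powerset := filter_subset _ _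
  have h0 : ∀ H ∈ (EU n k).powerset, H ∉ good n k → W H = 0 := by
    intro H hH hg
    unfold W
    refine sum_eq_zero fun p hp => ?_
    rw [if_neg]
    intro h
    exact hg (mem_filter.2 ⟨hH, p.1, p.2, (mem_offDiag.1 hp).2.2, h⟩)
  have h1 : ∑ H ∈ (EU n k).powerset, W H = ∑ H ∈ good n k, W H :=
    (sum_subset hsub h0).symm
  have h2 : ∑ H ∈ (EU n k).powerset, W H ^ 2 = ∑ H ∈ good n k, W H ^ 2 :=
    (sum_subset hsub fun H hH hg => by rw [h0 H hH hg]; norm_num).symm
  rw [h1, h2]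
  exact sq_sum_le_card_mul_sum_sq

/-- Main finite bound. -/
lemma frac_ge {n k : ℕ} (hk : 2 ≤ k) (hn : 2 ≤ n) :
    (n : ℝ) * (n - 1) * qm (2 * (n - 2).choose (k - 1)) ^ 2 ≤
      ((good n k).card : ℝ) / 2 ^ (n.choose k) *
      (2 * qm (2 * (n - 2).choose (k - 1)) + 4 * n * qm ((n - 3).choose (k - 1)) ^ 2 +
        n ^ 2 * qm (2 * (n - 2).choose (k - 1) - 4 * (n - 2).choose (k - 2)) ^ 2) := by
  have hnR : (2 : ℝ) ≤ n := by exact_mod_cast hn
  have n1 := qm_pos (2 * (n - 2).choose (k - 1))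
  have h1 := sum_W_ge (n := n) hk
  have h2 := sum_W_sq_le (n := n) hk
  have h3 := cauchy (n := n) (k := k)
  set p := qm (2 * (n - 2).choose (k - 1))
  set R := (2 * p + 4 * n * qm ((n - 3).choose (k - 1)) ^ 2 +
        n ^ 2 * qm (2 * (n - 2).choose (k - 1) - 4 * (n - 2).choose (k - 2)) ^ 2)
  set Ω : ℝ := 2 ^ (n.choose k) with hΩ
  have hΩ0 : 0 < Ω := by positivity
  have h4 : ((n : ℝ) * (n - 1) * (p * Ω)) ^ 2 ≤
      ((good n k).card : ℝ) * ((n : ℝ) * (n - 1) * (R * Ω)) := by
    calc ((n : ℝ) * (n - 1) * (p * Ω)) ^ 2 ≤ (∑ H ∈ (EU n k).powerset, W H) ^ 2 := by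
          have : 0 ≤ (n : ℝ) * (n - 1) * (p * Ω) := by
            have : (0 : ℝ) ≤ n - 1 := by linarith
            positivity
          gcongr
      _ ≤ _ := h3
      _ ≤ _ := by gcongr
  have h5 : (n : ℝ) * (n - 1) * Ω * ((n : ℝ) * (n - 1) * p ^ 2 * Ω) ≤
      (n : ℝ) * (n - 1) * Ω * (((good n k).card : ℝ) * R) := by
    calc _ = ((n : ℝ) * (n - 1) * (p * Ω)) ^ 2 := by ring
      _ ≤ _ := h4
      _ = _ := by ring
  have h6 : (0 : ℝ) < (n : ℝ) * (n - 1) * Ω := by
    have : (0 : ℝ) < n - 1 := by linarith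
    positivity
  have h7 := le_of_mul_le_mul_left h5 h6
  rw [div_mul_eq_mul_div, le_div_iff₀ hΩ0]
  exact h7

lemma frac_lower {n k : ℕ} (hk : k = 3 ∨ k = 4) (hn : 20 ≤ n) :
    ((n : ℝ) - 1) / (n + 4 * Real.sqrt n + 44) ≤ ((good n k).card : ℝ) / 2 ^ (n.choose k) := by
  have hk2 : 2 ≤ k := by omega
  have hmain := frac_ge (n := n) hk2 (by omega)
  have hnR : (20 : ℝ) ≤ n := by exact_mod_cast hn
  set N := (n - 2).choose (k - 1) with hN
  set N3 := (n - 3).choose (k - 1) with hN3
  set M := (n - 2).choose (k - 2) with hM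
  have hN1 : 1 ≤ N := Nat.choose_pos (by omega)
  have hN31 : 1 ≤ N3 := Nat.choose_pos (by omega)
  have e1 : N3 * (n - 2) = N * (n - 1 - k) := by
    have := Nat.choose_mul_succ_eq (n - 3) (k - 1)
    have a1 : n - 3 + 1 = n - 2 := by omega
    rw [a1] at this
    have a2 : n - 2 - (k - 1) = n - 1 - k := by omega
    rw [a2] at this
    exact this
  have e2 : N * (k - 1) = M * (n - k) := by
    have := Nat.choose_succ_right_eq (n - 2) (k - 2)
    have a1 : k - 2 + 1 = k - 1 := by omega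
    have a2 : n - 2 - (k - 2) = n - k := by omega
    rw [a1, a2] at this
    exact this
  have hkn : k + 1 ≤ n := by omega
  have hkR : (k : ℝ) ≤ 4 := by
    have : k ≤ 4 := by omega
    exact_mod_cast this
  have hkR' : (3 : ℝ) ≤ k := by
    have : 3 ≤ k := by omega
    exact_mod_cast this
  have e1R : (N3 : ℝ) * (n - 2) = N * (n - 1 - k) := by
    have h1 : ((n - 2 : ℕ) : ℝ) = n - 2 := by
      rw [Nat.cast_sub (by omega)]; norm_num
    have h2 : ((n - 1 - k : ℕ) : ℝ) = n - 1 - k := by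
      rw [Nat.cast_sub (by omega), Nat.cast_sub (by omega)]; norm_num
    rw [← h1, ← h2]
    exact_mod_cast e1
  have e2R : (N : ℝ) * (k - 1) = M * (n - k) := by
    have h1 : ((k - 1 : ℕ) : ℝ) = k - 1 := by
      rw [Nat.cast_sub (by omega)]; norm_num
    have h2 : ((n - k : ℕ) : ℝ) = n - k := by
      rw [Nat.cast_sub (by omega)]
    rw [← h1, ← h2]
    exact_mod_cast e2
  have hN0 : (1 : ℝ) ≤ N := by exact_mod_cast hN1
  have hN30 : (1 : ℝ) ≤ N3 := by exact_mod_cast hN31
  have hM0 : (0 : ℝ) ≤ M := Nat.cast_nonneg _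
  have f1 : (N : ℝ) ≤ 2 * N3 := by
    have : (N : ℝ) * (n - 1 - k) ≤ 2 * N3 * (n - 1 - k) := by
      rw [← e1R]; nlinarith
    exact le_of_mul_le_mul_right this (by linarith)
  have f2 : 2 * (M : ℝ) * (n + 12) ≤ 12 * N := by
    have h1 : (M : ℝ) * (n - 4) ≤ 3 * N := by nlinarith
    have h2 : 2 * (M : ℝ) * (n + 12) ≤ 4 * (M * (n - 4)) := by nlinarith
    linarith
  have f3' : 2 * (M : ℝ) < N := by
    have h1 : 2 * (M : ℝ) * 32 ≤ 2 * (M : ℝ) * (n + 12) :=
      mul_le_mul_of_nonneg_left (by linarith) (by linarith)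
    linarith
  have f3 : 2 * M ≤ N := by
    exact_mod_cast f3'.le
  have f4 : (N : ℝ) ≤ (n : ℝ) ^ 3 := by
    have h1 : N ≤ n ^ 3 := by
      calc N ≤ (n - 2) ^ (k - 1) := Nat.choose_le_pow _ _
        _ ≤ n ^ (k - 1) := Nat.pow_le_pow_left (by omega) _
        _ ≤ n ^ 3 := Nat.pow_le_pow_right (by omega) (by omega)
    exact_mod_cast h1
  set p := qm (2 * N) with hp
  have hp0 : 0 < p := qm_pos _
  have g1 : 1 ≤ p ^ 2 * (4 * N) := one_le_qm_sq N hN1
  set t := Real.sqrt n with ht
  have ht0 : 0 ≤ t := Real.sqrt_nonneg _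
  have ht2 : t ^ 2 = n := Real.sq_sqrt (by linarith)
  have g2 : 1 ≤ p * (2 * (n * t)) := by
    have h1 : (1 : ℝ) ≤ (p * (2 * (n * t))) ^ 2 := by
      calc (1 : ℝ) ≤ p ^ 2 * (4 * N) := g1
        _ ≤ p ^ 2 * (4 * (n : ℝ) ^ 3) := by gcongr
        _ = p ^ 2 * (4 * ((n : ℝ) ^ 2 * t ^ 2)) := by rw [ht2]; ring
        _ = _ := by ring
    have h2 : 0 ≤ p * (2 * (n * t)) := by positivity
    nlinarith
  have b1 : 2 * p ≤ p ^ 2 * (4 * n * t) := by
    calc 2 * p = 2 * p * 1 := by ring
      _ ≤ 2 * p * (p * (2 * (n * t))) := by gcongr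
      _ = _ := by ring
  have b2 : 4 * n * qm N3 ^ 2 ≤ p ^ 2 * (32 * n) := by
    have h1 := qm_sq_le N3
    have h2 : qm N3 ^ 2 ≤ 1 / N3 := by
      rw [le_div_iff₀ (by linarith)]; exact h1
    have h3 : 1 / (N3 : ℝ) ≤ 2 / N := by
      rw [div_le_div_iff₀ (by linarith) (by linarith)]; linarith
    have h4 : 2 / (N : ℝ) ≤ 8 * p ^ 2 := by
      rw [div_le_iff₀ (by linarith)]; linarith
    have h5 : qm N3 ^ 2 ≤ 8 * p ^ 2 := h2.trans (h3.trans h4)
    calc 4 * (n : ℝ) * qm N3 ^ 2 ≤ 4 * (n : ℝ) * (8 * p ^ 2) := by gcongr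
      _ = p ^ 2 * (32 * n) := by ring
  have b3 : (n : ℝ) ^ 2 * qm (2 * N - 4 * M) ^ 2 ≤ p ^ 2 * ((n : ℝ) ^ 2 + 12 * n) := by
    have a1 : 2 * N - 4 * M = 2 * (N - 2 * M) := by omega
    have h1 := qm_sq_mul_mono (show N - 2 * M ≤ N by omega)
    simp only at h1
    rw [a1]
    have h2 : ((N - 2 * M : ℕ) : ℝ) = N - 2 * M := by
      rw [Nat.cast_sub f3]; push_cast; ring
    rw [h2] at h1
    set q := qm (2 * (N - 2 * M)) with hq
    have h3 : (N : ℝ) * n ≤ (n + 12) * (N - 2 * M) := by linarith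
    have h4 : 0 < (N : ℝ) - 2 * M := by linarith
    have h5 : q ^ 2 * (N - 2 * M) * n ≤ p ^ 2 * ((n + 12) * (N - 2 * M)) := by
      calc q ^ 2 * (N - 2 * M) * n ≤ p ^ 2 * N * n := by gcongr
        _ = p ^ 2 * (N * n) := by ring
        _ ≤ _ := by gcongr
    have h6 : q ^ 2 * n ≤ p ^ 2 * (n + 12) := by
      have : q ^ 2 * n * (N - 2 * M) ≤ p ^ 2 * (n + 12) * (N - 2 * M) := by linarith
      exact le_of_mul_le_mul_right this h4
    calc (n : ℝ) ^ 2 * q ^ 2 = n * (q ^ 2 * n) := by ring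
      _ ≤ n * (p ^ 2 * (n + 12)) := by gcongr
      _ = _ := by ring
  set F := ((good n k).card : ℝ) / 2 ^ (n.choose k) with hF
  have hF0 : 0 ≤ F := by positivity
  have c1 : (n : ℝ) * (n - 1) * p ^ 2 ≤ F * (p ^ 2 * (n * (n + 4 * t + 44))) := by
    refine hmain.trans ?_
    refine mul_le_mul_of_nonneg_left ?_ hF0
    linarith
  have c2 : (n : ℝ) * p ^ 2 * (n - 1) ≤ (n : ℝ) * p ^ 2 * (F * (n + 4 * t + 44)) := by
    linarith
  have c3 := le_of_mul_le_mul_left c2 (by positivity)
  rw [div_le_iff₀ (by positivity)]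
  exact c3

/-- For k = 3 and k = 4: among all k-uniform hypergraphs on n labelled vertices, the fraction having two distinct vertices of equal degree tends to 1 as n → ∞. -/
theorem result :
    ∀ k : ℕ, (k = 3 ∨ k = 4) →
      Filter.Tendsto
        (fun n : ℕ =>
          ((((Finset.univ : Finset (Fin n)).powersetCard k).powerset.filter
              (fun H => ∃ v w : Fin n, v ≠ w ∧
                (H.filter (fun e => v ∈ e)).card = (H.filter (fun e => w ∈ e)).card)).card : ℝ)
            / ((((Finset.univ : Finset (Fin n)).powersetCard k).powerset.card : ℝ)))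
        Filter.atTop (nhds 1) := by
  intro k hk
  have hlim : Filter.Tendsto (fun n : ℕ => ((n : ℝ) - 1) / (n + 4 * Real.sqrt n + 44))
      Filter.atTop (nhds 1) := by
    have h1 : Filter.Tendsto (fun n : ℕ => (1 : ℝ) / n) Filter.atTop (nhds 0) :=
      tendsto_const_div_atTop_nhds_zero_nat 1
    have h2 : Filter.Tendsto (fun n : ℕ => 1 / Real.sqrt n) Filter.atTop (nhds 0) := by
      have : Filter.Tendsto (fun n : ℕ => Real.sqrt n) Filter.atTop Filter.atTop :=
        Real.tendsto_sqrt_atTop.comp tendsto_natCast_atTop_atTop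
      have h5 := this.inv_tendsto_atTop
      refine h5.congr fun n => ?_
      simp
    have h3 : Filter.Tendsto (fun n : ℕ => (1 - (1 : ℝ) / n) /
        (1 + 4 * (1 / Real.sqrt n) + 44 * (1 / n))) Filter.atTop
        (nhds ((1 - 0) / (1 + 4 * 0 + 44 * 0))) := by
      refine Filter.Tendsto.div (tendsto_const_nhds.sub h1)
        ((tendsto_const_nhds.add (h2.const_mul 4)).add (h1.const_mul 44)) (by norm_num)
    have h4 : ((1 : ℝ) - 0) / (1 + 4 * 0 + 44 * 0) = 1 := by norm_num
    rw [h4] at h3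
    refine h3.congr' ?_
    filter_upwards [Filter.eventually_ge_atTop 1] with n hn
    have hn' : (0 : ℝ) < n := by exact_mod_cast hn
    have ht : 0 < Real.sqrt n := Real.sqrt_pos.2 hn'
    have ht2 : Real.sqrt n ^ 2 = n := Real.sq_sqrt hn'.le
    have e1 : 1 / Real.sqrt n = Real.sqrt n / n := by
      rw [div_eq_div_iff ht.ne' hn'.ne']
      linarith
    rw [e1]
    field_simp
  refine tendsto_of_tendsto_of_tendsto_of_le_of_le' hlim tendsto_const_nhds ?_ ?_
  · filter_upwards [Filter.eventually_ge_atTop 20] with n hn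
    have := frac_lower (n := n) hk hn
    unfold good at this
    rw [card_powerset, card_powersetCard, card_univ, Fintype.card_fin]
    push_cast
    convert this using 4
  · refine Filter.Eventually.of_forall fun n => ?_
    refine div_le_one_of_le₀ ?_ (Nat.cast_nonneg _)
    exact_mod_cast card_le_card (filter_subset _ _)

end Pool.Agent.S11127
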