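import Pool.Statements.S11238

set_option autoImplicit false
open Pool Pool.MP_c1e4cd_co

namespace Pool.Agent.S11238

open Finset

theorem card_fix (n : ℕ) (p : Fin n → Prop) [DecidablePred p] :
    (univ.filter (fun σ : Equiv.Perm (Fin n) => ∀ a, ¬ p a → σ a = a)).card
      = (Fintype.card {a : Fin n // p a}).factorial := by
  rw [← Fintype.card_perm, Fintype.card_congr (Equiv.Perm.subtypeEquivSubtypePerm p),
    Fintype.card_subtype]

theorem card_one (m : ℕ) (i : Fin (m + 2)) :
    (univ.filter (fun σ : Equiv.Perm (Fin (m + 2)) => σ i = i)).card = (m + 1).factorial := by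
  have h := card_fix (m + 2) (fun a => a ≠ i)
  have e : (univ.filter (fun σ : Equiv.Perm (Fin (m + 2)) => σ i = i)) =
      (univ.filter (fun σ : Equiv.Perm (Fin (m + 2)) => ∀ a, ¬ (a ≠ i) → σ a = a)) := by
    ext σ; simp
  rw [e, h]
  congr 1
  simp

theorem card_two (m : ℕ) (i j : Fin (m + 2)) (hij : i ≠ j) :
    (univ.filter (fun σ : Equiv.Perm (Fin (m + 2)) => σ i = i ∧ σ j = j)).card = m.factorial := by
  have h := card_fix (m + 2) (fun a => a ≠ i ∧ a ≠ j)
  have e : (univ.filter (fun σ : Equiv.Perm (Fin (m + 2)) => σ i = i ∧ σ j = j)) =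
      (univ.filter (fun σ : Equiv.Perm (Fin (m + 2)) => ∀ a, ¬ (a ≠ i ∧ a ≠ j) → σ a = a)) := by
    ext σ
    simp only [mem_filter, mem_univ, true_and]
    constructor
    · rintro ⟨h1, h2⟩ a ha
      by_cases hai : a = i
      · rw [hai, h1]
      · by_cases haj : a = j
        · rw [haj, h2]
        · exact absurd ⟨hai, haj⟩ ha
    · intro h
      exact ⟨h i (by simp), h j (by simp)⟩
  rw [e, h]
  congr 1
  rw [Fintype.card_subtype]
  have : (univ.filter (fun a : Fin (m + 2) => a ≠ i ∧ a ≠ j)) = univ \ {i, j} := by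
    ext a; simp
  rw [this, card_sdiff_of_subset (by simp), card_pair hij]
  simp

/-- The negation of the preceding statement: Some C₀>0 works for all n≥1: if A⊆S_n, c=∣A∣/(n-1)!, and 1_A is within mean-square εc/n of the span of 1-coset indicators, then 1_A is within C₀εc/n of a union of round(c) distinct 1-cosets, and ∣c−round(c)∣≤C₀ε. -/
theorem result :
    ¬ (∃ C₀ : ℝ, 0 < C₀ ∧ ∀ n : ℕ, 1 ≤ n → ∀ A : Finset (Equiv.Perm (Fin n)), ∀ ε : ℝ, 0 ≤ ε →
    (∃ a : Fin n → Fin n → ℝ,
      (1 / (n.factorial : ℝ)) * ∑ σ : Equiv.Perm (Fin n),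
          ((if σ ∈ A then (1:ℝ) else 0) - ∑ i : Fin n, a i (σ i)) ^ 2
        ≤ ε * ((A.card : ℝ) / ((n - 1).factorial : ℝ)) / n) →
    ∃ S : Finset (Fin n × Fin n),
      (S.card : ℤ) = round ((A.card : ℝ) / ((n - 1).factorial : ℝ)) ∧
      (1 / (n.factorial : ℝ)) * ∑ σ : Equiv.Perm (Fin n),
          ((if σ ∈ A then (1:ℝ) else 0) - (if ∃ p ∈ S, σ p.1 = p.2 then (1:ℝ) else 0)) ^ 2
        ≤ C₀ * ε * ((A.card : ℝ) / ((n - 1).factorial : ℝ)) / n ∧
      |(A.card : ℝ) / ((n - 1).factorial : ℝ)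
          - ((round ((A.card : ℝ) / ((n - 1).factorial : ℝ)) : ℤ) : ℝ)| ≤ C₀ * ε) := by
  rintro ⟨C₀, hC₀, H⟩
  obtain ⟨m, hm⟩ := exists_nat_ge (C₀ + 2)
  have hm2 : (2 : ℝ) < m := by linarith
  set i : Fin (m + 2) := ⟨0, by omega⟩ with hi
  set j : Fin (m + 2) := ⟨1, by omega⟩ with hj
  have hij : i ≠ j := by rw [hi, hj]; simp
  set A : Finset (Equiv.Perm (Fin (m + 2))) := univ.filter (fun σ => σ i ≠ i ∧ σ j ≠ j) with hA
  have hfac : (0 : ℝ) < (m.factorial : ℝ) := by exact_mod_cast m.factorial_pos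
  have hcardA : (A.card : ℝ) = (m + 2) * (m + 1) * m.factorial - 2 * ((m + 1) * m.factorial) + m.factorial := by
    have h1 : (A.card : ℝ) = ∑ σ : Equiv.Perm (Fin (m + 2)),
        (1 - (if σ i = i then (1:ℝ) else 0) - (if σ j = j then (1:ℝ) else 0) +
          (if σ i = i ∧ σ j = j then (1:ℝ) else 0)) := by
      rw [hA, card_filter]
      push_cast
      apply sum_congr rfl
      intro σ _
      by_cases h1 : σ i = i <;> by_cases h2 : σ j = j <;> simp [h1, h2]
    rw [h1, sum_add_distrib, sum_sub_distrib, sum_sub_distrib]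
    simp only [← sum_filter, sum_const, nsmul_eq_mul, mul_one]
    rw [card_one, card_one, card_two m i j hij]
    have h2 : (univ : Finset (Equiv.Perm (Fin (m + 2)))).card = (m + 2).factorial := by
      rw [card_univ, Fintype.card_perm, Fintype.card_fin]
    rw [h2, Nat.factorial_succ (m + 1), Nat.factorial_succ m]
    push_cast
    ring
  have hn1 : (m + 2 - 1).factorial = (m + 1).factorial := rfl
  have hc : (A.card : ℝ) / ((m + 2 - 1).factorial : ℝ) = m + 1 / (m + 1) := by
    rw [hn1, hcardA, Nat.factorial_succ m]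
    push_cast
    have : (m : ℝ) + 1 ≠ 0 := by positivity
    field_simp
    ring
  have hcpos : (0 : ℝ) < m + 1 / (m + 1) := by positivity
  set c : ℝ := (A.card : ℝ) / ((m + 2 - 1).factorial : ℝ) with hcdef
  have hround : round c = (m : ℤ) := by
    rw [round_eq, hc, Int.floor_eq_iff]
    have h3 : (1 : ℝ) / (m + 1) < 1 / 2 := by
      apply one_div_lt_one_div_of_lt <;> linarith
    have h4 : (0 : ℝ) < 1 / (m + 1) := by positivity
    constructor
    · push_cast; linarith
    · push_cast; linarith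
  have hyp : ∃ a : Fin (m + 2) → Fin (m + 2) → ℝ,
      (1 / ((m + 2).factorial : ℝ)) * ∑ σ : Equiv.Perm (Fin (m + 2)),
          ((if σ ∈ A then (1:ℝ) else 0) - ∑ i : Fin (m + 2), a i (σ i)) ^ 2
        ≤ (1 / ((m + 1) * c)) * c / ((m + 2 : ℕ) : ℝ) := by
    refine ⟨fun k l => if k = i then (if l = i then 0 else 1) else
      if k = j then (if l = j then -1 else 0) else 0, ?_⟩
    have key : ∀ σ : Equiv.Perm (Fin (m + 2)),
        ((if σ ∈ A then (1:ℝ) else 0) - ∑ k : Fin (m + 2),
          (if k = i then (if σ k = i then (0:ℝ) else 1) else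
            if k = j then (if σ k = j then -1 else 0) else 0)) ^ 2 =
        if σ i = i ∧ σ j = j then (1:ℝ) else 0 := by
      intro σ
      have hs : ∑ k : Fin (m + 2), (if k = i then (if σ k = i then (0:ℝ) else 1) else
            if k = j then (if σ k = j then -1 else 0) else 0) =
          (if σ i = i then (0:ℝ) else 1) + (if σ j = j then -1 else 0) := by
        rw [← Finset.sum_subset (subset_univ {i, j})]
        · rw [sum_pair hij]
          simp [hij.symm]
        · intro k _ hk
          simp only [mem_insert, mem_singleton, not_or] at hk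
          simp [hk.1, hk.2]
      rw [hs, hA]
      simp only [mem_filter, mem_univ, true_and]
      by_cases h1 : σ i = i <;> by_cases h2 : σ j = j <;> simp [h1, h2]
    simp only [key]
    rw [← sum_filter, sum_const, card_two m i j hij, hc, Nat.factorial_succ (m + 1),
      Nat.factorial_succ m]
    simp only [nsmul_eq_mul, mul_one]
    push_cast
    apply le_of_eq
    have h5 : (m : ℝ) + 1 / (m + 1) ≠ 0 := hcpos.ne'
    field_simp
    ring
  obtain ⟨S, -, -, h⟩ := H (m + 2) (by omega) A (1 / ((m + 1) * c)) (by rw [hc]; positivity) hyp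
  rw [← hcdef, hround, hc] at h
  have e : (m : ℝ) + 1 / (m + 1) - ((m : ℤ) : ℝ) = 1 / (m + 1) := by push_cast; ring
  rw [e, abs_of_pos (by positivity)] at h
  have h1 : (1 : ℝ) / (m + 1) * ((m + 1) * (m + 1 / (m + 1))) ≤
      C₀ * (1 / ((m + 1) * (m + 1 / (m + 1)))) * ((m + 1) * (m + 1 / (m + 1))) :=
    mul_le_mul_of_nonneg_right h (by positivity)
  have h2 : (1 : ℝ) / (m + 1) * ((m + 1) * (m + 1 / (m + 1))) = m + 1 / (m + 1) := by
    field_simp
  have h3 : C₀ * (1 / (((m:ℝ) + 1) * (m + 1 / (m + 1)))) * ((m + 1) * (m + 1 / (m + 1))) = C₀ := by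
    field_simp
  rw [h2, h3] at h1
  have h4 : (0 : ℝ) < 1 / (m + 1) := by positivity
  linarith

end Pool.Agent.S11238
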