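import Pool.Statements.S11473
import Pool.Agent.X283.LMD

set_option autoImplicit false
open Pool Pool.MP_cc29fe_co

namespace Pool.Agent.S11473

/-- Every finite connected graph with n vertices and clique number ω, where n ≥ ω+1 ≥ 4, has a set of at most (ω−2)/(ω−1)·n vertices distinguishing every adjacent pair by distance, i.e. local metric dimension ≤ (ω−2)n/(ω−1). -/
theorem result :
    ∀ (V : Type) [Fintype V] (G : SimpleGraph V), G.Connected →
      ∀ ω : ℕ, (∃ s : Finset V, G.IsNClique ω s) → G.CliqueFree (ω + 1) →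
        4 ≤ ω + 1 → ω + 1 ≤ Fintype.card V →
        ∃ W : Finset V,
          (∀ u v : V, G.Adj u v → ∃ w ∈ W, G.dist u w ≠ G.dist v w) ∧
          (W.card : ℝ) ≤ ((ω : ℝ) - 2) / ((ω : ℝ) - 1) * (Fintype.card V : ℝ) := by
  intro V _ G hcon ω _ hcf hω hcard
  obtain ⟨W, hLR, hW⟩ := Pool.Agent.X283.LMD.main G hcf (by omega : 3 ≤ ω) hcon hcard
  refine ⟨W, ?_, ?_⟩
  · intro u v huv
    obtain ⟨w, hw, hne⟩ := hLR u v huv
    refine ⟨w, hw, ?_⟩
    intro hd
    apply hne
    by_cases h0 : w = u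
    · subst h0
      rw [SimpleGraph.dist_self] at hd
      have h1 := (hcon.dist_eq_zero_iff (u := v) (v := w)).1 hd.symm
      exact absurd h1.symm huv.ne
    · by_cases h0' : w = v
      · subst h0'
        rw [SimpleGraph.dist_self] at hd
        have h1 := (hcon.dist_eq_zero_iff (u := u) (v := w)).1 hd
        exact absurd h1.symm h0
      · by_cases h1 : G.Adj w u
        · have h2 : G.dist u w = 1 := SimpleGraph.dist_eq_one_iff_adj.2 h1.symm
          rw [h2] at hd
          have h3 : G.Adj v w := SimpleGraph.dist_eq_one_iff_adj.1 hd.symm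
          rw [Pool.Agent.X283.LMD.a_adj G h1, Pool.Agent.X283.LMD.a_adj G h3.symm]
        · have h2 : ¬ G.Adj w v := by
            intro h2
            have h3 : G.dist v w = 1 := SimpleGraph.dist_eq_one_iff_adj.2 h2.symm
            rw [h3] at hd
            exact h1 (SimpleGraph.dist_eq_one_iff_adj.1 hd).symm
          rw [Pool.Agent.X283.LMD.a_two G h0 h1, Pool.Agent.X283.LMD.a_two G h0' h2]
  · have h1 : (0 : ℝ) < (ω : ℝ) - 1 := by
      have : (3 : ℝ) ≤ (ω : ℝ) := by exact_mod_cast (by omega : 3 ≤ ω)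
      linarith
    rw [div_mul_eq_mul_div, le_div_iff₀ h1]
    have h2 : ((ω - 1 : ℕ) : ℝ) = (ω : ℝ) - 1 := by
      rw [Nat.cast_sub (by omega)]; simp
    have h3 : ((ω - 2 : ℕ) : ℝ) = (ω : ℝ) - 2 := by
      rw [Nat.cast_sub (by omega)]; simp
    have h4 : (((ω - 1) * W.card : ℕ) : ℝ) ≤ (((ω - 2) * Fintype.card V : ℕ) : ℝ) := by
      exact_mod_cast hW
    rw [Nat.cast_mul, Nat.cast_mul, h2, h3] at h4
    linarith

end Pool.Agent.S11473
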