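import Pool.Statements.S11608

set_option autoImplicit false
open Pool Pool.MP_d1f9c8_co

namespace Pool.Agent.S11608

open Finset

/-- The two generators: the path `0-1-2-3` and the disjoint union of the triangle `1,2,3` and the
vertex `0`. Both have four vertices and three edges. -/
def gAdj : Bool → Fin 4 → Fin 4 → Bool
  | true, u, v => (u.val + 1 == v.val) || (v.val + 1 == u.val)
  | false, u, v => (u != v) && (u != 0) && (v != 0)

def gen (t : Bool) : SimpleGraph (Fin 4) where
  Adj u v := gAdj t u v = true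
  symm := ⟨by revert t; decide⟩
  loopless := ⟨by revert t; decide⟩

instance (t : Bool) : DecidableRel (gen t).Adj := fun u v =>
  inferInstanceAs (Decidable (gAdj t u v = true))

/-- The join of `gen s` (on `0,1,2,3`) and `gen t` (on `4,5,6,7`). -/
def jAdj (s t : Bool) (u v : Fin 8) : Bool :=
  if hu : u.val < 4 then
    if hv : v.val < 4 then gAdj s ⟨u.val, hu⟩ ⟨v.val, hv⟩ else true
  else
    if hv : v.val < 4 then true
    else gAdj t ⟨u.val - 4, by omega⟩ ⟨v.val - 4, by omega⟩

def jn (s t : Bool) : SimpleGraph (Fin 8) where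
  Adj u v := jAdj s t u v = true
  symm := ⟨by revert s t; decide⟩
  loopless := ⟨by revert s t; decide⟩

instance (s t : Bool) : DecidableRel (jn s t).Adj := fun u v =>
  inferInstanceAs (Decidable (jAdj s t u v = true))

/-- Subgraph of one of the two generators. -/
def P (n : ℕ) (H : SimpleGraph (Fin n)) : Prop :=
  ∃ t : Bool, ∃ f : H →g gen t, Function.Injective f

/-- Subgraph of the join of one of the two generators with itself. -/
def Q (n : ℕ) (H : SimpleGraph (Fin n)) : Prop :=
  ∃ t : Bool, ∃ f : H →g jn t t, Function.Injective f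

def Her (A : (n : ℕ) → SimpleGraph (Fin n) → Prop) : Prop :=
  ∀ (a b : ℕ) (G : SimpleGraph (Fin a)) (H : SimpleGraph (Fin b)) (f : H →g G),
            Function.Injective f → A a G → A b H

def Prod (A B : (n : ℕ) → SimpleGraph (Fin n) → Prop) (n : ℕ) (G : SimpleGraph (Fin n)) : Prop :=
  ∃ S : Set (Fin n),
              (∃ (r : ℕ) (K : SimpleGraph (Fin r)), A r K ∧ Nonempty (G.induce S ≃g K)) ∧
              (∃ (r : ℕ) (K : SimpleGraph (Fin r)), B r K ∧ Nonempty (G.induce Sᶜ ≃g K))

theorem her_P : Her P := by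
  rintro a b G H f hf ⟨t, g, hg⟩
  exact ⟨t, g.comp f, by simpa using hg.comp hf⟩

theorem her_Q : Her Q := by
  rintro a b G H f hf ⟨t, g, hg⟩
  exact ⟨t, g.comp f, by simpa using hg.comp hf⟩

theorem P_one : P 1 ⊥ := by
  refine ⟨true, ⟨fun _ => 0, by intro a b h; exact absurd h (by simp)⟩, ?_⟩
  intro a b _; exact Subsingleton.elim a b

theorem Q_one : Q 1 ⊥ := by
  refine ⟨true, ⟨fun _ => 0, by intro a b h; exact absurd h (by simp)⟩, ?_⟩
  intro a b _; exact Subsingleton.elim a b

/-- every induced subgraph of a graph on `Fin n` is isomorphic to a graph on some `Fin r` -/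
theorem mem_P_iff {n : ℕ} (G : SimpleGraph (Fin n)) (S : Set (Fin n)) :
    (∃ (r : ℕ) (K : SimpleGraph (Fin r)), P r K ∧ Nonempty (G.induce S ≃g K)) ↔
      ∃ t : Bool, ∃ f : G.induce S →g gen t, Function.Injective f := by
  constructor
  · rintro ⟨r, K, ⟨t, f, hf⟩, ⟨e⟩⟩
    exact ⟨t, f.comp e.toHom, by simpa using hf.comp e.injective⟩
  · rintro ⟨t, f, hf⟩
    classical
    have : Fintype S := Fintype.ofFinite S
    let e := Fintype.equivFin S
    refine ⟨Fintype.card S, (G.induce S).map e.toEmbedding, ⟨t, ?_⟩, ⟨SimpleGraph.Iso.map e _⟩⟩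
    let i := SimpleGraph.Iso.map e (G.induce S)
    exact ⟨f.comp i.symm.toHom, by simpa using hf.comp i.symm.injective⟩

theorem mem_Q_iff {n : ℕ} (G : SimpleGraph (Fin n)) (S : Set (Fin n)) :
    (∃ (r : ℕ) (K : SimpleGraph (Fin r)), Q r K ∧ Nonempty (G.induce S ≃g K)) ↔
      ∃ t : Bool, ∃ f : G.induce S →g jn t t, Function.Injective f := by
  constructor
  · rintro ⟨r, K, ⟨t, f, hf⟩, ⟨e⟩⟩
    exact ⟨t, f.comp e.toHom, by simpa using hf.comp e.injective⟩
  · rintro ⟨t, f, hf⟩
    classical
    have : Fintype S := Fintype.ofFinite S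
    let e := Fintype.equivFin S
    refine ⟨Fintype.card S, (G.induce S).map e.toEmbedding, ⟨t, ?_⟩, ⟨SimpleGraph.Iso.map e _⟩⟩
    let i := SimpleGraph.Iso.map e (G.induce S)
    exact ⟨f.comp i.symm.toHom, by simpa using hf.comp i.symm.injective⟩

/-- Adding all edges between `S` and its complement. -/
def cross {n : ℕ} (G : SimpleGraph (Fin n)) (S : Set (Fin n)) : SimpleGraph (Fin n) where
  Adj u v := G.Adj u v ∨ ((u ∈ S ∧ v ∉ S) ∨ (u ∉ S ∧ v ∈ S))
  symm := ⟨by
    rintro u v (h | h | h)
    · exact Or.inl h.symm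
    · exact Or.inr (Or.inr ⟨h.2, h.1⟩)
    · exact Or.inr (Or.inl ⟨h.2, h.1⟩)⟩
  loopless := ⟨by
    rintro u (h | h | h)
    · exact G.irrefl h
    · exact h.2 h.1
    · exact h.1 h.2⟩

theorem cross_induce {n : ℕ} (G : SimpleGraph (Fin n)) (S : Set (Fin n)) :
    (cross G S).induce S = G.induce S := by
  ext ⟨u, hu⟩ ⟨v, hv⟩
  simp [cross, hu, hv]

theorem cross_induce_compl {n : ℕ} (G : SimpleGraph (Fin n)) (S : Set (Fin n)) :
    (cross G S).induce Sᶜ = G.induce Sᶜ := by
  ext ⟨u, hu⟩ ⟨v, hv⟩
  have hu' : u ∉ S := hu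
  have hv' : v ∉ S := hv
  simp [cross, hu', hv']

theorem prod_cross {A B : (n : ℕ) → SimpleGraph (Fin n) → Prop} {n : ℕ}
    (G : SimpleGraph (Fin n)) (S : Set (Fin n))
    (hA : ∃ (r : ℕ) (K : SimpleGraph (Fin r)), A r K ∧ Nonempty (G.induce S ≃g K))
    (hB : ∃ (r : ℕ) (K : SimpleGraph (Fin r)), B r K ∧ Nonempty (G.induce Sᶜ ≃g K)) :
    Prod A B n (cross G S) := by
  refine ⟨S, ?_, ?_⟩
  · rw [cross_induce]; exact hA
  · rw [cross_induce_compl]; exact hB

/-- the number of ordered adjacent pairs -/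
noncomputable def pairs {n : ℕ} (G : SimpleGraph (Fin n)) : ℕ :=
  Set.ncard {p : Fin n × Fin n | G.Adj p.1 p.2}

noncomputable def dg {n : ℕ} (G : SimpleGraph (Fin n)) (v : Fin n) : ℕ :=
  Set.ncard {w : Fin n | G.Adj v w}



theorem pairs_inj {n : ℕ} (f : Fin n → Fin n) (hf : Function.Injective f) :
    Function.Injective (fun p : Fin n × Fin n => (f p.1, f p.2)) := by
  rintro ⟨a, b⟩ ⟨c, d⟩ h
  simp only [Prod.mk.injEq] at h
  exact Prod.ext (hf h.1) (hf h.2)

theorem pairs_le {n : ℕ} {G H : SimpleGraph (Fin n)} (f : G →g H) (hf : Function.Injective f) :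
    pairs G ≤ pairs H := by
  unfold pairs
  refine Set.ncard_le_ncard_of_injOn (fun p : Fin n × Fin n => (f p.1, f p.2)) ?_
    ((pairs_inj f hf).injOn) (Set.toFinite _)
  rintro ⟨a, b⟩ h
  exact f.map_rel h

/-- an injective homomorphism between graphs on the same finite set with equally many edges
reflects adjacency -/
theorem reflect {n : ℕ} {G H : SimpleGraph (Fin n)} (f : G →g H) (hf : Function.Injective f)
    (hc : pairs H ≤ pairs G) (u v : Fin n) (h : H.Adj (f u) (f v)) : G.Adj u v := by
  have himg : (fun p : Fin n × Fin n => (f p.1, f p.2)) '' {p : Fin n × Fin n | G.Adj p.1 p.2} =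
      {p : Fin n × Fin n | H.Adj p.1 p.2} := by
    refine Set.eq_of_subset_of_ncard_le ?_ ?_ (Set.toFinite _)
    · rintro _ ⟨⟨a, b⟩, h, rfl⟩
      exact f.map_rel h
    · rw [Set.ncard_image_of_injective _ (pairs_inj f hf)]
      exact hc
  have : (f u, f v) ∈ {p : Fin n × Fin n | H.Adj p.1 p.2} := h
  rw [← himg] at this
  obtain ⟨⟨a, b⟩, hab, he⟩ := this
  simp only [Prod.mk.injEq] at he
  rw [← hf he.1, ← hf he.2]
  exact hab

theorem dg_eq {n : ℕ} {G H : SimpleGraph (Fin n)} (f : G →g H) (hf : Function.Injective f)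
    (hc : pairs H ≤ pairs G) (v : Fin n) : dg H (f v) = dg G v := by
  have himg : {w : Fin n | H.Adj (f v) w} = f '' {w : Fin n | G.Adj v w} := by
    ext w
    constructor
    · intro hw
      obtain ⟨w', rfl⟩ := (Finite.injective_iff_surjective.mp hf) w
      exact ⟨w', reflect f hf hc v w' hw, rfl⟩
    · rintro ⟨w', hw', rfl⟩
      exact f.map_rel hw'
  unfold dg
  rw [himg, Set.ncard_image_of_injective _ hf]

theorem cross_full {n : ℕ} {G H : SimpleGraph (Fin n)} (S : Set (Fin n)) (f : cross G S →g H)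
    (hf : Function.Injective f) (hc : pairs H ≤ pairs G) (u v : Fin n) (hu : u ∈ S) (hv : v ∉ S) :
    G.Adj u v := by
  have h1 := pairs_le f hf
  have hsub : {p : Fin n × Fin n | G.Adj p.1 p.2} ⊆ {p : Fin n × Fin n | (cross G S).Adj p.1 p.2} :=
    fun p hp => Or.inl hp
  have heq : {p : Fin n × Fin n | G.Adj p.1 p.2} = {p : Fin n × Fin n | (cross G S).Adj p.1 p.2} :=
    Set.eq_of_subset_of_ncard_le hsub (h1.trans hc) (Set.toFinite _)
  have : (u, v) ∈ {p : Fin n × Fin n | (cross G S).Adj p.1 p.2} := Or.inr (Or.inl ⟨hu, hv⟩)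
  rw [← heq] at this
  exact this

theorem pairs_gen (t : Bool) : pairs (gen t) = 6 := by
  unfold pairs
  rw [Set.ncard_eq_toFinset_card']
  revert t
  decide

theorem pairs_jn (s t : Bool) : pairs (jn s t) = 44 := by
  unfold pairs
  rw [Set.ncard_eq_toFinset_card']
  revert s t
  decide

theorem prod_comm {A B : (n : ℕ) → SimpleGraph (Fin n) → Prop} {n : ℕ} {G : SimpleGraph (Fin n)}
    (h : Prod A B n G) : Prod B A n G := by
  obtain ⟨S, h1, h2⟩ := h
  refine ⟨Sᶜ, h2, ?_⟩
  rw [compl_compl]
  exact h1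

theorem prod_succ {A B : (n : ℕ) → SimpleGraph (Fin n) → Prop} (hA : A 1 ⊥) {N : ℕ}
    (G : SimpleGraph (Fin N)) (hB : B N G) : Prod A B (N + 1) (G.map (Fin.succEmb N)) := by
  refine ⟨{0}, ⟨1, ⊥, hA, ⟨?_⟩⟩, ⟨N, G, hB, ⟨?_⟩⟩⟩
  · refine ⟨Equiv.ofUnique _ _, ?_⟩
    intro a b
    simp only [SimpleGraph.bot_adj, false_iff]
    rw [Subsingleton.elim a b]
    exact SimpleGraph.irrefl _
  · refine RelIso.symm ⟨Equiv.ofBijective (fun v : Fin N => (⟨v.succ, ?_⟩ : ({0}ᶜ : Set (Fin (N+1))))) ⟨?_, ?_⟩, ?_⟩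
    · simp
    · intro a b h
      simpa using h
    · rintro ⟨w, hw⟩
      have hw' : w ≠ 0 := hw
      obtain ⟨w', rfl⟩ := Fin.exists_succ_eq.mpr hw'
      exact ⟨w', rfl⟩
    · intro a b
      simp only [SimpleGraph.comap_adj, SimpleGraph.map_adj,
        Function.Embedding.subtype_apply]
      constructor
      · rintro ⟨u, v, h, hu, hv⟩
        have hu' : u = a := Fin.succ_injective _ hu
        have hv' : v = b := Fin.succ_injective _ hv
        rw [← hu', ← hv']
        exact h
      · intro h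
        exact ⟨a, b, h, rfl, rfl⟩

/-- a factor part equal to the whole graph is impossible -/
theorem no_empty {R : (n : ℕ) → SimpleGraph (Fin n) → Prop} {N : ℕ}
    (hR : ∀ G : SimpleGraph (Fin (N + 1)), ¬ R (N + 1) G)
    {A B : (n : ℕ) → SimpleGraph (Fin n) → Prop} (hA : A 1 ⊥) (hB : Her B)
    (h : ∀ n G, Prod A B n G → R n G) (G : SimpleGraph (Fin N))
    (hB' : ∃ (r : ℕ) (K : SimpleGraph (Fin r)), B r K ∧
      Nonempty (G.induce (∅ : Set (Fin N))ᶜ ≃g K)) : False := by
  obtain ⟨r, K, hK, ⟨e⟩⟩ := hB'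
  have hG : B N G := by
    refine hB r N K G (e.toHom.comp ⟨fun v => ⟨v, by simp⟩, by intro a b h; simpa using h⟩) ?_ hK
    intro a b hab
    simpa using hab
  exact hR _ (h _ _ (prod_succ hA G hG))

theorem P_five (G : SimpleGraph (Fin 5)) : ¬ P 5 G := by
  rintro ⟨t, f, hf⟩
  have := Fintype.card_le_of_injective _ hf
  simp at this

theorem Q_nine (G : SimpleGraph (Fin 9)) : ¬ Q 9 G := by
  rintro ⟨t, f, hf⟩
  have := Fintype.card_le_of_injective _ hf
  simp at this

theorem irr_P (A B : (n : ℕ) → SimpleGraph (Fin n) → Prop) (hA : Her A) (hB : Her B)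
    (hA1 : A 1 ⊥) (hB1 : B 1 ⊥) (h : ∀ n (G : SimpleGraph (Fin n)), P n G ↔ Prod A B n G) :
    False := by
  have h0 : P 4 (gen true) := ⟨true, SimpleGraph.Hom.id, Function.injective_id⟩
  obtain ⟨S, h1, h2⟩ := (h _ _).mp h0
  have hne : S ≠ ∅ := by
    rintro rfl
    exact no_empty P_five hA1 hB (fun n G => (h n G).mpr) _ h2
  have hnu : S ≠ Set.univ := by
    rintro rfl
    refine no_empty P_five hB1 hA (fun n G hG => (h n G).mpr (prod_comm hG)) (gen true) ?_
    rw [Set.compl_empty]
    exact h1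
  obtain ⟨t, f, hf⟩ := (h _ _).mpr (prod_cross (gen true) S h1 h2)
  have key := cross_full S f hf (by rw [pairs_gen, pairs_gen])
  have na : ∀ u v : Fin 4, ¬ (gen true).Adj u v → ¬ (gen true).Adj v u → (u ∈ S ↔ v ∈ S) := by
    intro u v h1 h2
    constructor
    · intro hu; by_contra hv; exact h1 (key u v hu hv)
    · intro hv; by_contra hu; exact h2 (key v u hv hu)
  have e1 := na 0 2 (by decide) (by decide)
  have e2 := na 0 3 (by decide) (by decide)
  have e3 := na 1 3 (by decide) (by decide)
  by_cases h00 : (0 : Fin 4) ∈ S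
  · apply hnu
    ext v
    fin_cases v <;> simp_all
  · apply hne
    ext v
    fin_cases v <;> simp_all

/-- the left block of the join -/
def L : Set (Fin 8) := {v | v.val < 4}

def isoL (s t : Bool) : (jn s t).induce L ≃g gen s where
  toFun v := ⟨v.1.val, v.2⟩
  invFun v := ⟨⟨v.val, by omega⟩, v.2⟩
  left_inv v := rfl
  right_inv v := rfl
  map_rel_iff' := by
    rintro ⟨⟨u, hu'⟩, hu⟩ ⟨⟨v, hv'⟩, hv⟩
    have hu : u < 4 := hu
    have hv : v < 4 := hv
    simp [jn, gen, jAdj, hu, hv]

def isoR (s t : Bool) : (jn s t).induce Lᶜ ≃g gen t where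
  toFun v := ⟨v.1.val - 4, by have := v.1.isLt; omega⟩
  invFun v := ⟨⟨v.val + 4, by omega⟩, by simp [L]⟩
  left_inv v := by
    obtain ⟨⟨v, hv'⟩, hv⟩ := v
    have hv : ¬ v < 4 := hv
    ext
    simp
    omega
  right_inv v := by ext; simp
  map_rel_iff' := by
    rintro ⟨⟨u, hu'⟩, hu⟩ ⟨⟨v, hv'⟩, hv⟩
    have hu : ¬ u < 4 := hu
    have hv : ¬ v < 4 := hv
    simp [jn, gen, jAdj, hu, hv]

theorem irr_Q (A B : (n : ℕ) → SimpleGraph (Fin n) → Prop) (hA : Her A) (hB : Her B)
    (hA1 : A 1 ⊥) (hB1 : B 1 ⊥) (h : ∀ n (G : SimpleGraph (Fin n)), Q n G ↔ Prod A B n G) :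
    False := by
  have both : ∀ t : Bool, A 4 (gen t) ∧ B 4 (gen t) := by
    intro t
    have h0 : Q 8 (jn t t) := ⟨t, SimpleGraph.Hom.id, Function.injective_id⟩
    obtain ⟨S, h1, h2⟩ := (h _ _).mp h0
    have hne : S ≠ ∅ := by
      rintro rfl
      exact no_empty Q_nine hA1 hB (fun n G => (h n G).mpr) _ h2
    have hnu : S ≠ Set.univ := by
      rintro rfl
      refine no_empty Q_nine hB1 hA (fun n G hG => (h n G).mpr (prod_comm hG)) (jn t t) ?_
      rw [Set.compl_empty]
      exact h1
    obtain ⟨s, f, hf⟩ := (h _ _).mpr (prod_cross (jn t t) S h1 h2)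
    have key := cross_full S f hf (by rw [pairs_jn, pairs_jn])
    have na : ∀ u v : Fin 8, ¬ (jn t t).Adj u v → ¬ (jn t t).Adj v u → (u ∈ S ↔ v ∈ S) := by
      intro u v h1 h2
      constructor
      · intro hu; by_contra hv; exact h1 (key u v hu hv)
      · intro hv; by_contra hu; exact h2 (key v u hv hu)
    have blocks : (∀ v : Fin 8, v.val < 4 → (v ∈ S ↔ (0 : Fin 8) ∈ S)) ∧
        (∀ v : Fin 8, ¬ v.val < 4 → (v ∈ S ↔ (4 : Fin 8) ∈ S)) := by
      cases t
      · have e1 := na 0 1 (by decide) (by decide)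
        have e2 := na 0 2 (by decide) (by decide)
        have e3 := na 0 3 (by decide) (by decide)
        have e4 := na 4 5 (by decide) (by decide)
        have e5 := na 4 6 (by decide) (by decide)
        have e6 := na 4 7 (by decide) (by decide)
        constructor
        · intro v hv
          fin_cases v <;> simp_all
        · intro v hv
          fin_cases v <;> simp_all
      · have e1 := na 0 2 (by decide) (by decide)
        have e2 := na 0 3 (by decide) (by decide)
        have e3 := na 1 3 (by decide) (by decide)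
        have e4 := na 4 6 (by decide) (by decide)
        have e5 := na 4 7 (by decide) (by decide)
        have e6 := na 5 7 (by decide) (by decide)
        constructor
        · intro v hv
          fin_cases v <;> simp_all
        · intro v hv
          fin_cases v <;> simp_all
    have hS : S = L ∨ S = Lᶜ := by
      by_cases p : (0 : Fin 8) ∈ S <;> by_cases q : (4 : Fin 8) ∈ S
      · exfalso; apply hnu
        ext v
        by_cases hv : v.val < 4
        · simp [blocks.1 v hv, p]
        · simp [blocks.2 v hv, q]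
      · left
        ext v
        by_cases hv : v.val < 4
        · simp [blocks.1 v hv, p, L, hv]
        · simp [blocks.2 v hv, q, L, hv]
      · right
        ext v
        by_cases hv : v.val < 4
        · simp [blocks.1 v hv, p, L, hv]
        · simp [blocks.2 v hv, q, L, hv]
      · exfalso; apply hne
        ext v
        by_cases hv : v.val < 4
        · simp [blocks.1 v hv, p]
        · simp [blocks.2 v hv, q]
    rcases hS with rfl | rfl
    · obtain ⟨r, K, hK, ⟨e⟩⟩ := h1
      obtain ⟨r', K', hK', ⟨e'⟩⟩ := h2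
      exact ⟨hA r 4 K _ (e.toHom.comp (isoL t t).symm.toHom)
          (by simpa using e.injective.comp (isoL t t).symm.injective) hK,
        hB r' 4 K' _ (e'.toHom.comp (isoR t t).symm.toHom)
          (by simpa using e'.injective.comp (isoR t t).symm.injective) hK'⟩
    · rw [compl_compl] at h2
      obtain ⟨r, K, hK, ⟨e⟩⟩ := h1
      obtain ⟨r', K', hK', ⟨e'⟩⟩ := h2
      exact ⟨hA r 4 K _ (e.toHom.comp (isoR t t).symm.toHom)
          (by simpa using e.injective.comp (isoR t t).symm.injective) hK,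
        hB r' 4 K' _ (e'.toHom.comp (isoL t t).symm.toHom)
          (by simpa using e'.injective.comp (isoL t t).symm.injective) hK'⟩
  have hprod : Prod A B 8 (jn true false) :=
    ⟨L, ⟨4, _, (both true).1, ⟨isoL true false⟩⟩, ⟨4, _, (both false).2, ⟨isoR true false⟩⟩⟩
  obtain ⟨t, f, hf⟩ := (h _ _).mpr hprod
  have hd := dg_eq f hf (by rw [pairs_jn, pairs_jn])
  cases t
  · have h1 : dg (jn true false) 0 = 5 := by
      unfold dg; rw [Set.ncard_eq_toFinset_card']; decide
    have h2 : ∀ w, dg (jn false false) w ≠ 5 := by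
      intro w
      unfold dg; rw [Set.ncard_eq_toFinset_card']; revert w; decide
    exact h2 _ ((hd 0).trans h1)
  · have h1 : dg (jn true false) 4 = 4 := by
      unfold dg; rw [Set.ncard_eq_toFinset_card']; decide
    have h2 : ∀ w, dg (jn true true) w ≠ 4 := by
      intro w
      unfold dg; rw [Set.ncard_eq_toFinset_card']; revert w; decide
    exact h2 _ ((hd 4).trans h1)

/-- the classes `P * P * P` and `P * Q` coincide -/
theorem same (n : ℕ) (G : SimpleGraph (Fin n)) :
    (∃ c : Fin n → Fin 3, ∀ i : Fin 3, ∃ (r : ℕ) (K : SimpleGraph (Fin r)),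
        P r K ∧ Nonempty (G.induce {v | c v = i} ≃g K)) ↔
    (∃ c : Fin n → Fin 2, ∀ j : Fin 2, ∃ (r : ℕ) (K : SimpleGraph (Fin r)),
        (if j = 0 then P else Q) r K ∧ Nonempty (G.induce {v | c v = j} ≃g K)) := by
  constructor
  · rintro ⟨c, hc⟩
    simp only [mem_P_iff] at hc
    choose t f hf using hc
    -- two of the three indices have the same generator
    obtain ⟨i, j, k, hij, hik, hjk, ht, hcov⟩ : ∃ i j k : Fin 3, i ≠ j ∧ i ≠ k ∧ j ≠ k ∧ t i = t j ∧
        ∀ x : Fin 3, x = i ∨ x = j ∨ x = k := by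
      clear hf f
      by_cases h01 : t 0 = t 1
      · exact ⟨0, 1, 2, by decide, by decide, by decide, h01, by decide⟩
      · by_cases h02 : t 0 = t 2
        · exact ⟨0, 2, 1, by decide, by decide, by decide, h02, by decide⟩
        · refine ⟨1, 2, 0, by decide, by decide, by decide, ?_, by decide⟩
          cases h0 : t 0 <;> cases h1 : t 1 <;> cases h2 : t 2 <;> simp_all
    refine ⟨fun v => if c v = k then 0 else 1, ?_⟩
    intro x
    fin_cases x
    · simp only [Fin.zero_eta, if_true]
      rw [mem_P_iff]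
      refine ⟨t k, (f k).comp ⟨fun v => ⟨v.1, ?_⟩, ?_⟩, ?_⟩
      · have := v.2
        by_contra hk
        simp only [Set.mem_ofPred_eq] at this hk
        rw [if_neg hk] at this
        exact absurd this (by decide)
      · intro a b hab
        exact hab
      · intro a b hab
        have h6 := hf k hab
        have h7 : a.1 = b.1 := congrArg (fun z : ({v | c v = k} : Set (Fin n)) => z.1) h6
        exact Subtype.ext h7
    · simp only [Fin.mk_one, one_ne_zero, if_false]
      rw [mem_Q_iff]
      have hv : ∀ v : ({v | (if c v = k then (0 : Fin 2) else 1) = 1} : Set (Fin n)),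
          c v.1 = i ∨ c v.1 = j := by
        intro v
        have h1 := v.2
        simp only [Set.mem_ofPred_eq] at h1
        rcases hcov (c v.1) with h | h | h
        · exact Or.inl h
        · exact Or.inr h
        · rw [if_pos h] at h1
          exact absurd h1 (by decide)
      have ha : ∀ x : Fin 4, x.val < 8 := fun x => by omega
      let F : ({v | (if c v = k then (0 : Fin 2) else 1) = 1} : Set (Fin n)) → Fin 8 := fun v =>
        if h : c v.1 = i then ⟨(f i ⟨v.1, h⟩).val, ha _⟩
        else ⟨(f j ⟨v.1, (hv v).resolve_left h⟩).val + 4, by omega⟩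
      have hadj : ∀ a b : Fin 4, (gen (t i)).Adj a b →
          (jn (t i) (t i)).Adj ⟨a.val, ha a⟩ ⟨b.val, ha b⟩ := by
        intro a b h
        have h' : gAdj (t i) a b = true := h
        simp [jn, jAdj, h']
      have hadj' : ∀ a b : Fin 4, (gen (t i)).Adj a b →
          (jn (t i) (t i)).Adj ⟨a.val + 4, by omega⟩ ⟨b.val + 4, by omega⟩ := by
        intro a b h
        have h' : gAdj (t i) a b = true := h
        simp [jn, jAdj, h']
      refine ⟨t i, ⟨F, ?_⟩, ?_⟩
      · intro a b hab
        have hab' : G.Adj a.1 b.1 := hab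
        by_cases h1 : c a.1 = i <;> by_cases h2 : c b.1 = i
        · simp only [F, dif_pos h1, dif_pos h2]
          exact hadj _ _ ((f i).map_rel (by exact hab'))
        · simp only [F, dif_pos h1, dif_neg h2]
          simp [jn, jAdj]
        · simp only [F, dif_neg h1, dif_pos h2]
          simp [jn, jAdj]
        · simp only [F, dif_neg h1, dif_neg h2]
          apply hadj'
          rw [ht]
          exact (f j).map_rel (by exact hab')
      · intro a b hab
        have hab' : F a = F b := hab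
        by_cases h1 : c a.1 = i <;> by_cases h2 : c b.1 = i
        · simp only [F, dif_pos h1, dif_pos h2, Fin.mk.injEq] at hab'
          have := hf i (Fin.ext hab')
          apply Subtype.ext
          simpa using this
        · simp only [F, dif_pos h1, dif_neg h2, Fin.mk.injEq] at hab'
          omega
        · simp only [F, dif_neg h1, dif_pos h2, Fin.mk.injEq] at hab'
          omega
        · simp only [F, dif_neg h1, dif_neg h2, Fin.mk.injEq] at hab'
          have := hf j (Fin.ext (Nat.add_right_cancel hab'))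
          apply Subtype.ext
          simpa using this
  · rintro ⟨c, hc⟩
    have h0 := hc 0
    have h1 := hc 1
    simp only [if_true, one_ne_zero, if_false] at h0 h1
    rw [mem_P_iff] at h0
    rw [mem_Q_iff] at h1
    obtain ⟨s, f, hf⟩ := h0
    obtain ⟨t, g, hg⟩ := h1
    have hc2 : ∀ v, c v ≠ 0 → c v = 1 := by
      intro v hv
      have := (c v).isLt
      apply Fin.ext
      have : (c v).val ≠ 0 := fun h => hv (Fin.ext h)
      simp only [Fin.val_one]
      omega
    refine ⟨fun v => if h : c v = 0 then 0 else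
      if (g ⟨v, hc2 v h⟩).val < 4 then 1 else 2, ?_⟩
    intro x
    rw [mem_P_iff]
    fin_cases x
    · refine ⟨s, f.comp ⟨fun v => ⟨v.1, ?_⟩, ?_⟩, ?_⟩
      · have hv := v.2
        simp only [Fin.zero_eta, Set.mem_ofPred_eq] at hv
        by_contra hne
        have hne' : ¬ c v.1 = 0 := hne
        rw [dif_neg hne'] at hv
        split_ifs at hv
        · exact absurd hv (by decide)
        · exact absurd hv (by decide)
      · intro a b hab
        exact hab
      · intro a b hab
        have := hf hab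
        apply Subtype.ext
        simpa using this
    · have hv : ∀ v : Fin n, (if h : c v = 0 then (0 : Fin 3) else
          if (g ⟨v, hc2 v h⟩).val < 4 then 1 else 2) = 1 →
          ∃ h : c v = 1, (g ⟨v, h⟩).val < 4 := by
        intro v h
        by_cases h0 : c v = 0
        · rw [dif_pos h0] at h
          exact absurd h (by decide)
        · rw [dif_neg h0] at h
          by_cases h4 : (g ⟨v, hc2 v h0⟩).val < 4
          · exact ⟨hc2 v h0, h4⟩
          · rw [if_neg h4] at h
            exact absurd h (by decide)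
      refine ⟨t, ⟨fun v => ⟨(g ⟨v.1, (hv v.1 v.2).1⟩).val, (hv v.1 v.2).2⟩, ?_⟩, ?_⟩
      · intro a b hab
        have hab' : G.Adj a.1 b.1 := hab
        have h3 : (jn t t).Adj (g ⟨a.1, (hv a.1 a.2).1⟩) (g ⟨b.1, (hv b.1 b.2).1⟩) :=
          g.map_rel (by exact hab')
        have h4 : jAdj t t (g ⟨a.1, (hv a.1 a.2).1⟩) (g ⟨b.1, (hv b.1 b.2).1⟩) = true := h3
        unfold jAdj at h4
        rw [dif_pos (hv a.1 a.2).2, dif_pos (hv b.1 b.2).2] at h4
        exact h4
      · intro a b hab
        have hab2 : (g ⟨a.1, (hv a.1 a.2).1⟩).val = (g ⟨b.1, (hv b.1 b.2).1⟩).val :=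
          congrArg (fun z : Fin 4 => z.val) hab
        have := hg (Fin.ext hab2)
        apply Subtype.ext
        simpa using this
    · have hv : ∀ v : Fin n, (if h : c v = 0 then (0 : Fin 3) else
          if (g ⟨v, hc2 v h⟩).val < 4 then 1 else 2) = 2 →
          ∃ h : c v = 1, ¬ (g ⟨v, h⟩).val < 4 := by
        intro v h
        by_cases h0 : c v = 0
        · rw [dif_pos h0] at h
          exact absurd h (by decide)
        · rw [dif_neg h0] at h
          by_cases h4 : (g ⟨v, hc2 v h0⟩).val < 4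
          · rw [if_pos h4] at h
            exact absurd h (by decide)
          · exact ⟨hc2 v h0, h4⟩
      refine ⟨t, ⟨fun v => ⟨(g ⟨v.1, (hv v.1 v.2).1⟩).val - 4, ?_⟩, ?_⟩, ?_⟩
      · have := (g ⟨v.1, (hv v.1 v.2).1⟩).isLt
        omega
      · intro a b hab
        have hab' : G.Adj a.1 b.1 := hab
        have h3 : (jn t t).Adj (g ⟨a.1, (hv a.1 a.2).1⟩) (g ⟨b.1, (hv b.1 b.2).1⟩) :=
          g.map_rel (by exact hab')
        have h4 : jAdj t t (g ⟨a.1, (hv a.1 a.2).1⟩) (g ⟨b.1, (hv b.1 b.2).1⟩) = true := h3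
        unfold jAdj at h4
        rw [dif_neg (hv a.1 a.2).2, dif_neg (hv b.1 b.2).2] at h4
        exact h4
      · intro a b hab
        have hab2 : (g ⟨a.1, (hv a.1 a.2).1⟩).val - 4 = (g ⟨b.1, (hv b.1 b.2).1⟩).val - 4 :=
          congrArg (fun z : Fin 4 => z.val) hab
        have ha4 := (hv a.1 a.2).2
        have hb4 := (hv b.1 b.2).2
        have h5 : (g ⟨a.1, (hv a.1 a.2).1⟩) = (g ⟨b.1, (hv b.1 b.2).1⟩) := by
          apply Fin.ext
          omega
        have := hg h5
        apply Subtype.ext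
        simpa using this

/-- The negation of the preceding statement: Among subgraph-closed classes of finite graphs, with product = vertex partition into parts in the factors, any two factorizations of a class into irreducible factors (contain K1, not a product of two such classes) agree up to reordering. -/
theorem result :
    ¬ (∀ (m k : ℕ) (Ps : Fin m → (n : ℕ) → SimpleGraph (Fin n) → Prop)
      (Qs : Fin k → (n : ℕ) → SimpleGraph (Fin n) → Prop),
      (∀ i : Fin m,
        (∀ (a b : ℕ) (G : SimpleGraph (Fin a)) (H : SimpleGraph (Fin b)) (f : H →g G),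
          Function.Injective f → Ps i a G → Ps i b H) ∧
        Ps i 1 ⊥ ∧
        ∀ A B : (n : ℕ) → SimpleGraph (Fin n) → Prop,
          (∀ (a b : ℕ) (G : SimpleGraph (Fin a)) (H : SimpleGraph (Fin b)) (f : H →g G),
            Function.Injective f → A a G → A b H) →
          (∀ (a b : ℕ) (G : SimpleGraph (Fin a)) (H : SimpleGraph (Fin b)) (f : H →g G),
            Function.Injective f → B a G → B b H) →
          A 1 ⊥ → B 1 ⊥ →
          ¬ ∀ (n : ℕ) (G : SimpleGraph (Fin n)),
            (Ps i n G ↔ ∃ S : Set (Fin n),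
              (∃ (r : ℕ) (K : SimpleGraph (Fin r)), A r K ∧ Nonempty (G.induce S ≃g K)) ∧
              (∃ (r : ℕ) (K : SimpleGraph (Fin r)), B r K ∧ Nonempty (G.induce Sᶜ ≃g K)))) →
      (∀ j : Fin k,
        (∀ (a b : ℕ) (G : SimpleGraph (Fin a)) (H : SimpleGraph (Fin b)) (f : H →g G),
          Function.Injective f → Qs j a G → Qs j b H) ∧
        Qs j 1 ⊥ ∧
        ∀ A B : (n : ℕ) → SimpleGraph (Fin n) → Prop,
          (∀ (a b : ℕ) (G : SimpleGraph (Fin a)) (H : SimpleGraph (Fin b)) (f : H →g G),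
            Function.Injective f → A a G → A b H) →
          (∀ (a b : ℕ) (G : SimpleGraph (Fin a)) (H : SimpleGraph (Fin b)) (f : H →g G),
            Function.Injective f → B a G → B b H) →
          A 1 ⊥ → B 1 ⊥ →
          ¬ ∀ (n : ℕ) (G : SimpleGraph (Fin n)),
            (Qs j n G ↔ ∃ S : Set (Fin n),
              (∃ (r : ℕ) (K : SimpleGraph (Fin r)), A r K ∧ Nonempty (G.induce S ≃g K)) ∧
              (∃ (r : ℕ) (K : SimpleGraph (Fin r)), B r K ∧ Nonempty (G.induce Sᶜ ≃g K)))) →
      (∀ (n : ℕ) (G : SimpleGraph (Fin n)),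
        (∃ c : Fin n → Fin m, ∀ i : Fin m, ∃ (r : ℕ) (K : SimpleGraph (Fin r)),
            Ps i r K ∧ Nonempty (G.induce {v | c v = i} ≃g K)) ↔
        (∃ c : Fin n → Fin k, ∀ j : Fin k, ∃ (r : ℕ) (K : SimpleGraph (Fin r)),
            Qs j r K ∧ Nonempty (G.induce {v | c v = j} ≃g K))) →
      ∃ σ : Fin m ≃ Fin k, ∀ (i : Fin m) (n : ℕ) (G : SimpleGraph (Fin n)),
        (Ps i n G ↔ Qs (σ i) n G)) := by
  intro H
  obtain ⟨σ, -⟩ := H 3 2 (fun _ => P) (fun j => if j = 0 then P else Q)
    (fun _ => ⟨her_P, P_one, fun A B hA hB hA1 hB1 h => irr_P A B hA hB hA1 hB1 h⟩)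
    (by
      intro j
      by_cases hj : j = 0
      · simp only [if_pos hj]
        exact ⟨her_P, P_one, fun A B hA hB hA1 hB1 h => irr_P A B hA hB hA1 hB1 h⟩
      · simp only [if_neg hj]
        exact ⟨her_Q, Q_one, fun A B hA hB hA1 hB1 h => irr_Q A B hA hB hA1 hB1 h⟩)
    same
  have := Fintype.card_congr σ
  simp at this

end Pool.Agent.S11608
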