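import Pool.Statements.S11612
import Pool.Agent.X75.Bramble

set_option autoImplicit false
open Pool Pool.MP_d20af1_co

namespace Pool.Agent.S11612

open SimpleGraph Pool.Agent.X75

/-- The graph on `0, ..., 10` in which `i` and `j` are adjacent iff they differ by `1` or `4`. -/
def G : SimpleGraph (Fin 11) where
  Adj i j := i.val + 1 = j.val ∨ j.val + 1 = i.val ∨ i.val + 4 = j.val ∨ j.val + 4 = i.val
  symm := ⟨fun i j h => by tauto⟩
  loopless := ⟨fun i h => by omega⟩

instance : DecidableRel G.Adj := fun i j => by unfold G; infer_instance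

/-- The bags `{i, ..., i + 4}`. -/
def B1 (i : Fin 7) : Finset (Fin 11) := Finset.univ.filter fun v => i.val ≤ v.val ∧ v.val ≤ i.val + 4

/-- The path on `7` nodes. -/
def P7 : SimpleGraph (Fin 7) where
  Adj i j := i.val + 1 = j.val ∨ j.val + 1 = i.val
  symm := ⟨fun i j h => by tauto⟩
  loopless := ⟨fun i h => by omega⟩

instance : DecidableRel P7.Adj := fun i j => by unfold P7; infer_instance

/-- Intervals are connected in the path. -/
theorem P7_interval (s : Set (Fin 7)) (hne : s.Nonempty)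
    (hs : ∀ a ∈ s, ∀ b ∈ s, ∀ c : Fin 7, a ≤ c → c ≤ b → c ∈ s) : (P7.induce s).Connected := by
  have key : ∀ (d : ℕ) (a b : Fin 7) (ha : a ∈ s) (hb : b ∈ s), a.val + d = b.val →
      (P7.induce s).Reachable ⟨a, ha⟩ ⟨b, hb⟩ := by
    intro d
    induction d with
    | zero =>
      intro a b ha hb h
      have : a = b := Fin.ext (by omega)
      subst this
      exact Reachable.refl _
    | succ d ih =>
      intro a b ha hb h
      have hb7 := b.isLt
      let c : Fin 7 := ⟨a.val + d, by omega⟩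
      have hc : c ∈ s := hs a ha b hb c (Fin.le_def.mpr (by simp [c])) (Fin.le_def.mpr (by simp [c]; omega))
      have h1 := ih a c ha hc rfl
      have h2 : (P7.induce s).Adj ⟨c, hc⟩ ⟨b, hb⟩ := by
        change P7.Adj c b
        left
        change a.val + d + 1 = b.val
        omega
      exact h1.trans h2.reachable
  have : Nonempty s := hne.to_subtype
  refine ⟨?_⟩
  rintro ⟨a, ha⟩ ⟨b, hb⟩
  rcases Nat.le_total a.val b.val with h | h
  · exact key (b.val - a.val) a b ha hb (by omega)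
  · exact (key (a.val - b.val) b a hb ha (by omega)).symm

theorem P7_connected : P7.Connected := by
  have h := P7_interval Set.univ ⟨0, trivial⟩ (fun _ _ _ _ _ _ _ => trivial)
  refine ⟨?_⟩
  intro a b
  exact (h.preconnected ⟨a, trivial⟩ ⟨b, trivial⟩).map (Embedding.induce _).toHom

theorem P7_bridge (a b : Fin 7) (hab : a.val + 1 = b.val) :
    ¬ (P7.deleteEdges {s(a, b)}).Reachable a b := by
  rintro ⟨w⟩
  have key : ∀ (u v : Fin 7) (w : (P7.deleteEdges {s(a, b)}).Walk u v),
      u.val ≤ a.val → v.val ≤ a.val := by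
    intro u v w
    induction w with
    | nil => exact id
    | @cons u c v h p ih =>
      intro hu
      apply ih
      rw [deleteEdges_adj, Set.mem_singleton_iff] at h
      obtain ⟨h1, h2⟩ := h
      have h1' : u.val + 1 = c.val ∨ c.val + 1 = u.val := h1
      rcases h1' with h3 | h3
      · by_contra hc
        apply h2
        have e1 : u = a := Fin.ext (by omega)
        have e2 : c = b := Fin.ext (by omega)
        rw [e1, e2]
      · omega
  have := key a b w le_rfl
  omega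

theorem P7_tree : P7.IsTree := by
  refine ⟨P7_connected, ?_⟩
  rw [isAcyclic_iff_forall_adj_isBridge]
  intro a b hab
  rw [isBridge_iff]
  have hab' : a.val + 1 = b.val ∨ b.val + 1 = a.val := hab
  rcases hab' with h | h
  · exact P7_bridge a b h
  · intro hr
    apply P7_bridge b a h
    rw [Sym2.eq_swap]
    exact hr.symm

/-- The two bags of the second decomposition (columns modulo `5`). -/
def B2 (i : Fin 2) : Finset (Fin 11) :=
  if i = 0 then Finset.univ.filter fun v => v.val % 5 = 0 ∨ v.val % 5 = 1 ∨ v.val % 5 = 2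
  else Finset.univ.filter fun v => v.val % 5 = 2 ∨ v.val % 5 = 3 ∨ v.val % 5 = 4 ∨ v.val % 5 = 0

/-- The single edge. -/
def P2 : SimpleGraph (Fin 2) := ⊤

theorem P2_tree : P2.IsTree := by
  rw [isTree_iff_connected_and_card]
  refine ⟨connected_top, ?_⟩
  unfold P2
  rw [Nat.card_eq_fintype_card, Nat.card_eq_fintype_card, ← edgeFinset_card]
  decide

theorem P2_induce (s : Set (Fin 2)) (hne : s.Nonempty) : (P2.induce s).Connected := by
  have : Nonempty s := hne.to_subtype
  refine ⟨?_⟩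
  rintro ⟨a, ha⟩ ⟨b, hb⟩
  by_cases h : a = b
  · subst h
    exact Reachable.refl _
  · have h2 : (P2.induce s).Adj ⟨a, ha⟩ ⟨b, hb⟩ := by
      change P2.Adj a b
      exact h
    exact h2.reachable

/-- The bramble. -/
def XB (j : Fin 6) : Finset (Fin 11) :=
  ![{3, 7}, {6}, {1, 2, 5}, {0, 1, 2, 4}, {8, 9, 10}, {4, 5}] j

/-- A central vertex of each bramble element. -/
def ctr (j : Fin 6) : Fin 11 := ![3, 6, 1, 1, 9, 4] j

theorem XB_ctr : ∀ j : Fin 6, ctr j ∈ XB j ∧ ∀ a ∈ XB j, a = ctr j ∨ G.Adj a (ctr j) ∨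
    ∃ c ∈ XB j, G.Adj a c ∧ G.Adj c (ctr j) := by
  decide

theorem XB_walk (j : Fin 6) (a : Fin 11) (ha : a ∈ XB j) :
    ∃ w : G.Walk a (ctr j), ∀ x ∈ w.support, x ∈ XB j := by
  obtain ⟨hc, h⟩ := XB_ctr j
  rcases h a ha with h | h | ⟨c, hc', h1, h2⟩
  · subst h
    exact ⟨Walk.nil, by simpa using ha⟩
  · exact ⟨Walk.cons h Walk.nil, by simp [ha, hc]⟩
  · exact ⟨Walk.cons h1 (Walk.cons h2 Walk.nil), by simp [ha, hc, hc']⟩

theorem XB_touch : ∀ j k : Fin 6, ∃ a ∈ XB j, ∃ b ∈ XB k, a = b ∨ G.Adj a b := by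
  decide

theorem XB_hit : ∀ x0 ∈ XB 0, ∀ x1 ∈ XB 1, ∀ x2 ∈ XB 2, ∀ x3 ∈ XB 3, ∀ x4 ∈ XB 4, ∀ x5 ∈ XB 5,
    5 ≤ ({x0, x1, x2, x3, x4, x5} : Finset (Fin 11)).card := by
  decide +kernel

theorem B1_triple : ∀ i : Fin 7, ∀ a ∈ B1 i, ∀ b ∈ B1 i, ∀ c ∈ B1 i, a ≠ b → a ≠ c → b ≠ c →
    G.Adj a b ∨ G.Adj a c ∨ G.Adj b c := by
  intro i a ha b hb c hc hab hac hbc
  simp only [B1, Finset.mem_filter, Finset.mem_univ, true_and] at ha hb hc
  have h1 : a.val ≠ b.val := fun h => hab (Fin.ext h)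
  have h2 : a.val ≠ c.val := fun h => hac (Fin.ext h)
  have h3 : b.val ≠ c.val := fun h => hbc (Fin.ext h)
  change (a.val + 1 = b.val ∨ b.val + 1 = a.val ∨ a.val + 4 = b.val ∨ b.val + 4 = a.val) ∨
    (a.val + 1 = c.val ∨ c.val + 1 = a.val ∨ a.val + 4 = c.val ∨ c.val + 4 = a.val) ∨
    (b.val + 1 = c.val ∨ c.val + 1 = b.val ∨ b.val + 4 = c.val ∨ c.val + 4 = b.val)
  omega

theorem B1_indep (i : Fin 7) (S : Finset (Fin 11)) (hS : S ⊆ B1 i)
    (hind : ∀ a ∈ S, ∀ b ∈ S, a ≠ b → ¬ G.Adj a b) : S.card ≤ 2 := by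
  by_contra hcon
  push Not at hcon
  obtain ⟨a, b, c, ha, hb, hc, hab, hac, hbc⟩ := Finset.two_lt_card_iff.mp hcon
  rcases B1_triple i a (hS ha) b (hS hb) c (hS hc) hab hac hbc with h | h | h
  · exact hind a ha b hb hab h
  · exact hind a ha c hc hac h
  · exact hind b hb c hc hbc h

theorem B1_edge (u v : Fin 11) (h : G.Adj u v) : ∃ i, u ∈ B1 i ∧ v ∈ B1 i := by
  have h' : u.val + 1 = v.val ∨ v.val + 1 = u.val ∨ u.val + 4 = v.val ∨ v.val + 4 = u.val := h
  have hu := u.isLt
  have hv := v.isLt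
  refine ⟨⟨min (min u.val v.val) 6, by omega⟩, ?_⟩
  simp only [B1, Finset.mem_filter, Finset.mem_univ, true_and]
  omega

theorem B2_edge : ∀ u v : Fin 11, G.Adj u v → ∃ i, u ∈ B2 i ∧ v ∈ B2 i := by
  decide

theorem B2_cover : ∀ v : Fin 11, ∃ i, v ∈ B2 i := by
  decide

theorem B1_cover : ∀ v : Fin 11, ∃ i, v ∈ B1 i := by
  decide

/-- Colours of the columns. -/
def col (i : Fin 2) (v : Fin 11) : Fin 2 :=
  if i = 0 then (if v.val % 5 = 1 then 1 else 0)
  else (if v.val % 5 = 3 ∨ v.val % 5 = 0 then 1 else 0)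

theorem col_proper : ∀ i : Fin 2, ∀ u ∈ B2 i, ∀ v ∈ B2 i, G.Adj u v → col i u ≠ col i v := by
  decide

/-- No tree decomposition of `G` has all bags of size at most `4`. -/
theorem no_small_bags (n : ℕ) (T : SimpleGraph (Fin n)) (B : Fin n → Finset (Fin 11))
    (hT : T.IsTree) (hedge : ∀ u v : Fin 11, G.Adj u v → ∃ i, u ∈ B i ∧ v ∈ B i)
    (hvert : ∀ v : Fin 11, (T.induce {i : Fin n | v ∈ B i}).Connected)
    (hcard : ∀ i : Fin n, (B i).card ≤ 2 * 2) : False := by
  obtain ⟨i, hi⟩ := bag_meets_bramble G T B hT hedge hvert (fun j : Fin 6 => {x | x ∈ XB j})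
    (by
      intro j a ha b hb
      obtain ⟨w1, hw1⟩ := XB_walk j a ha
      obtain ⟨w2, hw2⟩ := XB_walk j b hb
      refine ⟨w1.append w2.reverse, ?_⟩
      intro x hx
      rw [Walk.mem_support_append_iff, Walk.support_reverse, List.mem_reverse] at hx
      rcases hx with h | h
      · exact hw1 x h
      · exact hw2 x h)
    (by
      intro j k
      obtain ⟨a, ha, b, hb, h⟩ := XB_touch j k
      exact ⟨a, ha, b, hb, h⟩)
  obtain ⟨x0, h0, k0⟩ := hi 0
  obtain ⟨x1, h1, k1⟩ := hi 1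
  obtain ⟨x2, h2, k2⟩ := hi 2
  obtain ⟨x3, h3, k3⟩ := hi 3
  obtain ⟨x4, h4, k4⟩ := hi 4
  obtain ⟨x5, h5, k5⟩ := hi 5
  have hle := XB_hit x0 k0 x1 k1 x2 k2 x3 k3 x4 k4 x5 k5
  have hsub : ({x0, x1, x2, x3, x4, x5} : Finset (Fin 11)) ⊆ B i := by
    intro y hy
    simp only [Finset.mem_insert, Finset.mem_singleton] at hy
    rcases hy with rfl | rfl | rfl | rfl | rfl | rfl <;> assumption
  have := Finset.card_le_card hsub
  have := hcard i
  omega

/-- The negation of the preceding statement: For every finite graph G and all a, k: if G has a tree decomposition whose bags all have independence number at most a, and one whose bags all induce k-colorable subgraphs, then G has a tree decomposition with all bags of size at most a·k. -/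
theorem result :
    ¬ (∀ (V : Type) [Fintype V] (G : SimpleGraph V) (a k : ℕ),
      (∃ (n : ℕ) (T : SimpleGraph (Fin n)) (B : Fin n → Finset V),
        T.IsTree ∧
        (∀ u v : V, G.Adj u v → ∃ i, u ∈ B i ∧ v ∈ B i) ∧
        (∀ v : V, (T.induce {i : Fin n | v ∈ B i}).Connected) ∧
        (∀ i : Fin n, ∀ S : Finset V, S ⊆ B i → G.IsIndepSet (S : Set V) → S.card ≤ a)) →
      (∃ (n : ℕ) (T : SimpleGraph (Fin n)) (B : Fin n → Finset V),
        T.IsTree ∧
        (∀ u v : V, G.Adj u v → ∃ i, u ∈ B i ∧ v ∈ B i) ∧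
        (∀ v : V, (T.induce {i : Fin n | v ∈ B i}).Connected) ∧
        (∀ i : Fin n, (G.induce (B i : Set V)).Colorable k)) →
      (∃ (n : ℕ) (T : SimpleGraph (Fin n)) (B : Fin n → Finset V),
        T.IsTree ∧
        (∀ u v : V, G.Adj u v → ∃ i, u ∈ B i ∧ v ∈ B i) ∧
        (∀ v : V, (T.induce {i : Fin n | v ∈ B i}).Connected) ∧
        (∀ i : Fin n, (B i).card ≤ a * k))) := by
  intro H
  obtain ⟨n, T, B, hT, hedge, hvert, hcard⟩ := H (Fin 11) G 2 2
    ⟨7, P7, B1, P7_tree, B1_edge, by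
      intro v
      apply P7_interval
      · exact B1_cover v
      · intro a ha b hb c hac hcb
        simp only [Set.mem_ofPred_eq, B1, Finset.mem_filter, Finset.mem_univ, true_and] at ha hb ⊢
        rw [Fin.le_def] at hac hcb
        omega, by
      intro i S hS hind
      apply B1_indep i S hS
      intro a ha b hb hab
      exact hind ha hb hab⟩
    ⟨2, P2, B2, P2_tree, B2_edge, by
      intro v
      apply P2_induce
      exact B2_cover v, by
      intro i
      refine ⟨Coloring.mk (fun v => col i v.1) ?_⟩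
      intro u v huv
      exact col_proper i u.1 u.2 v.1 v.2 huv⟩
  exact no_small_bags n T B hT hedge hvert hcard

end Pool.Agent.S11612
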