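import Pool.Statements.S11655
import Pool.Agent.X186.CHG.Main

set_option autoImplicit false
open Filter
open Pool Pool.MP_d33b86_co

namespace Pool.Agent.S11655

/-- For all integers g ≥ h ≥ 2 there is an infinite set A of positive integers containing no g distinct translates of any h-element set, such that for every ε>0, eventually ∣A ∩ [1,n]∣ ≥ n^(α(g,h)−ε). -/
theorem result :
    ∀ g h : ℕ, 2 ≤ h → h ≤ g →
      ∃ A : Set ℤ,
        A ⊆ {n : ℤ | 1 ≤ n} ∧ A.Infinite ∧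
        (∀ X : Finset ℤ, X.card = h → ∀ k : Fin g → ℤ, Function.Injective k →
          ¬ (∀ i : Fin g, ∀ x ∈ X, x + k i ∈ A)) ∧
        ∀ ε : ℝ, 0 < ε →
          ∀ᶠ n : ℕ in atTop,
            (n : ℝ) ^ ((1 - 1 / (h : ℝ)) * (1 - 1 / (g : ℝ)) *
                (1 + 1 / ((h : ℝ) * (g : ℝ) - 1)) - ε)
              ≤ ((A ∩ Set.Icc (1 : ℤ) (n : ℤ)).ncard : ℝ) := by
  intro g h h2 hg
  obtain ⟨m, rfl⟩ : ∃ m, h = m + 1 := ⟨h - 1, by omega⟩
  obtain ⟨A, h1, h3, h4, h5⟩ := Pool.Agent.X186.CHG.main m g (by omega) (by omega)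
  refine ⟨A, h1, h3, h4, ?_⟩
  have hm0 : ((m : ℝ) + 1) ≠ 0 := by positivity
  have hg0 : (g : ℝ) ≠ 0 := by
    have : 0 < g := by omega
    exact_mod_cast this.ne'
  have hd : ((m : ℝ) + 1) * g - 1 ≠ 0 :=
    (Pool.Agent.X186.CHG.den_pos (by omega : 1 ≤ m) (by omega : 2 ≤ g)).ne'
  have e : (1 - 1 / ((m + 1 : ℕ) : ℝ)) * (1 - 1 / (g : ℝ)) *
      (1 + 1 / (((m + 1 : ℕ) : ℝ) * (g : ℝ) - 1)) = Pool.Agent.X186.CHG.al m g := by
    rw [Pool.Agent.X186.CHG.al]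
    push_cast
    have e1 : 1 - 1 / ((m : ℝ) + 1) = m / (m + 1) := by
      rw [eq_div_iff hm0, sub_mul, div_mul_cancel₀ _ hm0]; ring
    have e2 : 1 - 1 / (g : ℝ) = (g - 1) / g := by
      rw [eq_div_iff hg0, sub_mul, div_mul_cancel₀ _ hg0]; ring
    have e3 : 1 + 1 / (((m : ℝ) + 1) * g - 1) = ((m + 1) * g) / ((m + 1) * g - 1) := by
      rw [eq_div_iff hd, add_mul, div_mul_cancel₀ _ hd]; ring
    rw [e1, e2, e3, div_mul_div_comm, div_mul_div_comm,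
      div_eq_div_iff (mul_ne_zero (mul_ne_zero hm0 hg0) hd) hd]
    ring
  rw [e]
  exact h5

end Pool.Agent.S11655
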