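import Pool.Statements.S11675
import Pool.Agent.Helper398.EEFinal
import Pool.Agent.Helper398.Bridge
import Pool.Agent.X179.ResFin

set_option autoImplicit false
open Pool Pool.MP_d40e3c_co

namespace Pool.Agent.S11675

open Finset

/-- The library's theorem for finite groups carried to all abelian groups. -/
theorem all_groups : ∃ M : ℕ, ∀ (G : Type) [AddCommGroup G] [DecidableEq G] (A : Finset G),
    (∀ B ⊆ A, B.Nonempty → ∑ x ∈ B, x ≠ 0) → M ≤ A.card →
    A.card ^ 2 / 2 + 1 ≤ ((A.powerset.erase ∅).image (fun B => ∑ x ∈ B, x)).card := by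
  classical
  obtain ⟨M, hM⟩ := Pool.Agent.Helper398.main_exact
  refine ⟨M, ?_⟩
  intro G _ _ A hZ hcard
  -- pass to the subgroup generated by `A`
  set H := AddSubgroup.closure (A : Set G) with hH
  haveI : AddGroup.FG H := by
    rw [AddGroup.fg_iff_addSubgroup_fg]
    exact ⟨A, rfl⟩
  set A' : Finset H := A.attach.image (fun x => (⟨x.1, AddSubgroup.subset_closure x.2⟩ : H)) with hA'
  have hA'card : A'.card = A.card := by
    rw [hA', Finset.card_image_of_injective]
    · exact Finset.card_attach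
    · intro x y hxy
      have h := congrArg (fun z : H => (z : G)) hxy
      exact Subtype.ext h
  have hmem : ∀ x : H, x ∈ A' ↔ (x : G) ∈ A := by
    intro x
    simp only [hA', Finset.mem_image, Finset.mem_attach, true_and, Subtype.exists]
    constructor
    · rintro ⟨a, ha, rfl⟩
      exact ha
    · intro hx
      exact ⟨x, hx, rfl⟩
  -- sums
  have hmap : ∀ B : Finset H, B ⊆ A' → B.map (Function.Embedding.subtype _) ⊆ A := by
    intro B hB y hy
    rw [Finset.mem_map] at hy
    obtain ⟨z, hz, rfl⟩ := hy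
    exact (hmem z).1 (hB hz)
  have hsum : ∀ B : Finset H, ((∑ x ∈ B, x : H) : G) = ∑ x ∈ B.map (Function.Embedding.subtype _), x := by
    intro B
    rw [Finset.sum_map]
    simp
  have hZ' : ∀ B ⊆ A', B.Nonempty → ∑ x ∈ B, x ≠ 0 := by
    intro B hB hne h0
    apply hZ (B.map (Function.Embedding.subtype _)) (hmap B hB) (hne.map)
    rw [← hsum, h0]
    rfl
  -- residual finiteness
  set T : Finset H := ((A'.powerset.erase ∅).image (fun B => ∑ x ∈ B, x)) ∪
    ((A' ×ˢ A').filter (fun p => p.1 ≠ p.2)).image (fun p => p.1 - p.2) with hT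
  have hT0 : ∀ t ∈ T, t ≠ 0 := by
    intro t ht
    rw [hT, Finset.mem_union, Finset.mem_image, Finset.mem_image] at ht
    rcases ht with ⟨B, hB, rfl⟩ | ⟨p, hp, rfl⟩
    · rw [Finset.mem_erase, Finset.mem_powerset] at hB
      exact hZ' B hB.2 (Finset.nonempty_iff_ne_empty.2 hB.1)
    · rw [Finset.mem_filter] at hp
      exact sub_ne_zero.2 hp.2
  obtain ⟨K, _, _, φ, hφ⟩ := Pool.Agent.X179.ResFin.exists_finite_hom H T hT0
  have hinj : Set.InjOn φ (A' : Set H) := by
    intro x hx y hy hxy
    by_contra hne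
    apply hφ (x - y)
    · rw [hT, Finset.mem_union]
      right
      rw [Finset.mem_image]
      exact ⟨(x, y), by
        rw [Finset.mem_filter, Finset.mem_product]
        exact ⟨⟨hx, hy⟩, hne⟩, rfl⟩
    · rw [map_sub, hxy, sub_self]
  set A'' : Finset K := A'.image φ with hA''
  have hA''card : A''.card = A.card := by
    rw [hA'', Finset.card_image_of_injOn hinj, hA'card]
  have hlift : ∀ C ⊆ A'', ∃ B ⊆ A', (∑ x ∈ C, x = φ (∑ x ∈ B, x)) ∧ (C.Nonempty → B.Nonempty) := by
    intro C hC
    rw [hA'', Finset.subset_image_iff] at hC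
    obtain ⟨B, hB, rfl⟩ := hC
    have hB' : B ⊆ A' := by exact_mod_cast hB
    refine ⟨B, hB', ?_, fun h => Finset.image_nonempty.1 h⟩
    rw [Finset.sum_image (fun x hx y hy h => hinj (hB' hx) (hB' hy) h), map_sum]
  have hZ'' : Pool.Agent.Helper398.ZSF A'' := by
    intro C hC hne
    obtain ⟨B, hB, h1, h2⟩ := hlift C hC
    rw [h1]
    apply hφ
    rw [hT, Finset.mem_union]
    left
    rw [Finset.mem_image]
    exact ⟨B, by
      rw [Finset.mem_erase, Finset.mem_powerset]
      exact ⟨(Finset.nonempty_iff_ne_empty.1 (h2 hne)), hB⟩, rfl⟩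
  have hmain := hM K A'' hZ'' (by omega)
  rw [hA''card] at hmain
  -- compare the sets of subset sums
  have hle : A''.subsetSum.card ≤ (insert (0 : G) ((A.powerset.erase ∅).image (fun B => ∑ x ∈ B, x))).card := by
    have h1 : A''.subsetSum ⊆ (A'.powerset.image (fun B => ∑ x ∈ B, x)).image φ := by
      intro s hs
      rw [Finset.mem_subsetSum_iff] at hs
      obtain ⟨C, hC, rfl⟩ := hs
      obtain ⟨B, hB, h1, -⟩ := hlift C hC
      rw [Finset.mem_image]
      exact ⟨∑ x ∈ B, x, Finset.mem_image.2 ⟨B, Finset.mem_powerset.2 hB, rfl⟩, h1.symm⟩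
    refine (Finset.card_le_card h1).trans (Finset.card_image_le.trans ?_)
    apply Finset.card_le_card_of_injOn (fun x : H => (x : G))
    · intro s hs
      rw [Finset.mem_coe, Finset.mem_image] at hs
      obtain ⟨B, hB, rfl⟩ := hs
      rw [Finset.mem_powerset] at hB
      show ((∑ x ∈ B, x : H) : G) ∈ _
      rw [hsum B, Finset.mem_coe, Finset.mem_insert]
      by_cases hne : B.Nonempty
      · right
        rw [Finset.mem_image]
        refine ⟨B.map (Function.Embedding.subtype _), ?_, rfl⟩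
        rw [Finset.mem_erase, Finset.mem_powerset]
        exact ⟨(Finset.nonempty_iff_ne_empty.1 (hne.map)), hmap B hB⟩
      · left
        rw [Finset.not_nonempty_iff_eq_empty] at hne
        subst hne
        simp
    · intro x _ y _ hxy
      exact Subtype.ext hxy
  have h5 := Finset.card_insert_le (0 : G) ((A.powerset.erase ∅).image (fun B => ∑ x ∈ B, x))
  omega

/-- There is a real c > 1/9 such that for all large m, every m-element subset of an abelian group with no nonempty subset summing to zero has at least ⌈c m²⌉ distinct nonempty subset sums. -/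
theorem result :
    ∃ c : ℝ, 1 / 9 < c ∧ ∃ M : ℕ, ∀ m : ℕ, M ≤ m →
      ∀ (G : Type) [AddCommGroup G] [DecidableEq G] (A : Finset G),
        A.card = m →
        (∀ B ⊆ A, B.Nonempty → ∑ x ∈ B, x ≠ 0) →
        ⌈c * ((m : ℝ) ^ 2)⌉ ≤
          (((A.powerset.erase ∅).image (fun B => ∑ x ∈ B, x)).card : ℤ) := by
  obtain ⟨M, hM⟩ := all_groups
  refine ⟨1 / 2, by norm_num, M, ?_⟩
  intro m hm G _ _ A hA hZ
  have h1 := hM G A hZ (by omega)
  rw [hA] at h1
  rw [Int.ceil_le]
  have h2 : m ^ 2 ≤ 2 * (m ^ 2 / 2) + 2 := by omega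
  have h3 : ((m : ℝ) ^ 2) ≤ 2 * ((m ^ 2 / 2 : ℕ) : ℝ) + 2 := by exact_mod_cast h2
  have h4 : ((m ^ 2 / 2 : ℕ) : ℝ) + 1 ≤
      ((((A.powerset.erase ∅).image (fun B => ∑ x ∈ B, x)).card : ℕ) : ℝ) := by
    exact_mod_cast h1
  push_cast at h4 ⊢
  linarith

end Pool.Agent.S11675
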