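import Pool.Statements.S11707
import Pool.Agent.X219.ThreeGraph
-- import your own Pool.Agent.* helpers here

set_option autoImplicit false
open Classical
open Pool Pool.MP_d61016_co

namespace Pool.Agent.S11707

/-- Every finite three-graph A embeds as an induced substructure in some finite three-graph B such that every partial automorphism of A extends to an automorphism of B. -/
theorem result :
    ∀ (n : ℕ) (rA : Fin n → Fin n → Prop) (HA : Finset (Finset (Fin n))),
      (Equivalence rA ∧ (∀ a b c, rA a b ∨ rA b c ∨ rA a c) ∧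
        (∀ e ∈ HA, e.card = 4 ∧ ∀ v ∈ e, (e.filter (fun w => rA v w)).card = 2) ∧
        (∀ S : Finset (Fin n), S.card = 5 →
          (∀ v ∈ S, (S.filter (fun w => rA v w)).card ≤ 3) →
          Even (HA.filter (fun e => e ⊆ S)).card)) →
      ∃ (m : ℕ) (rB : Fin m → Fin m → Prop) (HB : Finset (Finset (Fin m))),
        (Equivalence rB ∧ (∀ a b c, rB a b ∨ rB b c ∨ rB a c) ∧
          (∀ e ∈ HB, e.card = 4 ∧ ∀ v ∈ e, (e.filter (fun w => rB v w)).card = 2) ∧
          (∀ S : Finset (Fin m), S.card = 5 →
            (∀ v ∈ S, (S.filter (fun w => rB v w)).card ≤ 3) →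
            Even (HB.filter (fun e => e ⊆ S)).card)) ∧
        ∃ f : Fin n ↪ Fin m,
          (∀ x y, rA x y ↔ rB (f x) (f y)) ∧
          (∀ e : Finset (Fin n), e ∈ HA ↔ e.map f ∈ HB) ∧
          ∀ (S : Finset (Fin n)) (p : Fin n → Fin n),
            Set.InjOn p (S : Set (Fin n)) →
            (∀ x ∈ S, ∀ y ∈ S, rA x y ↔ rA (p x) (p y)) →
            (∀ e ⊆ S, e ∈ HA ↔ e.image p ∈ HA) →
            ∃ σ : Fin m ≃ Fin m,
              (∀ x y, rB x y ↔ rB (σ x) (σ y)) ∧
              (∀ e : Finset (Fin m), e ∈ HB ↔ e.map σ.toEmbedding ∈ HB) ∧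
              ∀ x ∈ S, σ (f x) = f (p x) := by
  intro n rA HA hA
  obtain ⟨heq, htwo, h3, h4⟩ := hA
  have hrefl := heq.refl
  have hsymm := @heq.symm
  have htrans := @heq.trans
  obtain ⟨c, hc⟩ : ∃ c : Fin n → Bool, ∀ x y, rA x y ↔ c x = c y := by
    by_cases hn : Nonempty (Fin n)
    · obtain ⟨x₀⟩ := hn
      refine ⟨fun x => decide (rA x₀ x), ?_⟩
      intro x y
      rw [decide_eq_decide]
      constructor
      · intro h
        exact ⟨fun h' => htrans h' h, fun h' => htrans h' (hsymm h)⟩
      · intro h
        by_cases hx : rA x₀ x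
        · exact htrans (hsymm hx) (h.1 hx)
        · rcases htwo x x₀ y with h1 | h1 | h1
          · exact absurd (hsymm h1) hx
          · exact absurd (h.2 h1) hx
          · exact h1
    · refine ⟨fun _ => false, ?_⟩
      intro x
      exact absurd ⟨x⟩ hn
  have hcf : ∀ (e : Finset (Fin n)) (v : Fin n),
      e.filter (fun w => rA v w) = e.filter (fun w => c v = c w) := by
    intro e v
    apply Finset.filter_congr
    intro w _
    exact hc v w
  obtain ⟨m, cB, HB, hB3, hB4, f, hf1, hf2, hf3⟩ := Pool.Agent.X219.TG.main n c HA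
    (by
      intro e he
      obtain ⟨h, h'⟩ := h3 e he
      refine ⟨h, ?_⟩
      intro v hv
      rw [← hcf]
      exact h' v hv)
    (by
      intro S hS hle
      have key := h4 S hS (by
        intro v hv
        have := hle v hv
        rw [hcf]
        convert this)
      convert key)
  refine ⟨m, fun i j => cB i = cB j, HB, ⟨⟨fun _ => rfl, fun h => h.symm, fun h h' => h.trans h'⟩,
    ?_, ?_, ?_⟩, f, ?_, hf2, ?_⟩
  · intro a b d
    show cB a = cB b ∨ cB b = cB d ∨ cB a = cB d
    generalize cB a = u
    generalize cB b = v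
    generalize cB d = w
    revert u v w
    decide
  · intro e he
    obtain ⟨h, h'⟩ := hB3 e he
    refine ⟨h, ?_⟩
    intro v hv
    convert h' v hv
  · intro S hS hle
    have key := hB4 S hS (by
      intro v hv
      have := hle v hv
      convert this)
    convert key
  · intro x y
    show rA x y ↔ cB (f x) = cB (f y)
    rw [hf1, hf1]
    exact hc x y
  · intro S p hp hpc hpH
    refine hf3 S p hp ?_ hpH
    intro x hx y hy
    rw [← hc, ← hc]
    exact hpc x hx y hy

end Pool.Agent.S11707
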