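import Pool.Statements.S11816

set_option autoImplicit false
open Pool Pool.MP_daf6f7_co

namespace Pool.Agent.S11816

/-- The dual of the Groetzsch graph: the eleven edges are the vertices `u_i` (`0..4`), `u'_i`
(`5..9`) and `w` (`10`) of the Groetzsch graph, the twenty points are its edges. -/
def E : Fin 11 → Finset (Fin 20)
  | 0 => {0, 1, 2, 3}
  | 1 => {0, 4, 5, 6}
  | 2 => {4, 7, 8, 9}
  | 3 => {7, 10, 11, 12}
  | 4 => {1, 10, 13, 14}
  | 5 => {5, 13, 15}
  | 6 => {2, 8, 16}
  | 7 => {6, 11, 17}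
  | 8 => {9, 14, 18}
  | 9 => {3, 12, 19}
  | 10 => {15, 16, 17, 18, 19}

/-- Six independent sets of the Groetzsch graph covering each vertex at least twice. -/
def I : Fin 6 → Finset (Fin 11)
  | 0 => {0, 2, 5, 7}
  | 1 => {0, 3, 5, 8}
  | 2 => {1, 4, 6, 9}
  | 3 => {1, 3, 10}
  | 4 => {2, 4, 10}
  | 5 => {5, 6, 7, 8, 9}

lemma I_indep : ∀ k : Fin 6, ∀ i ∈ I k, ∀ j ∈ I k, i ≠ j → Disjoint (E i) (E j) := by decide

lemma I_cover : ∀ i : Fin 11, 2 ≤ (Finset.univ.filter (fun k : Fin 6 => i ∈ I k)).card := by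
  decide

lemma exists_k (S : Finset (Fin 11)) : ∃ k : Fin 6, S.card ≤ (S ∩ I k).card * 3 := by
  by_contra hcon
  push Not at hcon
  have h1 : ∑ k : Fin 6, (S ∩ I k).card = ∑ i ∈ S, (Finset.univ.filter (fun k : Fin 6 => i ∈ I k)).card := by
    simp_rw [Finset.card_filter, Finset.card_eq_sum_ones (S ∩ _), ← Finset.filter_mem_eq_inter,
      Finset.sum_filter]
    rw [Finset.sum_comm]
  have h2 : 2 * S.card ≤ ∑ k : Fin 6, (S ∩ I k).card := by
    rw [h1, mul_comm, ← smul_eq_mul]
    exact Finset.card_nsmul_le_sum _ _ _ (fun i _ => I_cover i)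
  have h3 : ∑ k : Fin 6, (S ∩ I k).card * 3 < ∑ _k : Fin 6, S.card := by
    exact Finset.sum_lt_sum_of_nonempty Finset.univ_nonempty (fun k _ => hcon k)
  rw [← Finset.sum_mul] at h3
  simp only [Finset.sum_const, Finset.card_univ, Fintype.card_fin, smul_eq_mul] at h3
  omega

lemma sup_eq : Finset.univ.sup
    (fun v : Fin 20 => (Finset.univ.filter (fun i : Fin 11 => v ∈ E i)).card) = 2 := by decide

lemma not_three : ∀ a0 a1 : Fin 3, a0 ≠ a1 → ∀ a2, a1 ≠ a2 → ∀ a3, a2 ≠ a3 → ∀ a4, a3 ≠ a4 →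
    a4 ≠ a0 → ∀ w b0, b0 ≠ w → a1 ≠ b0 → a4 ≠ b0 → ∀ b1, b1 ≠ w → a2 ≠ b1 → a0 ≠ b1 →
    ∀ b2, b2 ≠ w → a3 ≠ b2 → a1 ≠ b2 → ∀ b3, b3 ≠ w → a4 ≠ b3 → a2 ≠ b3 →
    ∀ b4, b4 ≠ w → a0 ≠ b4 → a3 ≠ b4 → False := by decide

/-- The negation of the preceding statement: For any finite hypergraph (edges may repeat) in which every subfamily of edges has a matching of size at least its edge count divided by its max degree plus one, the edges can be colored with max degree plus one colors so same-colored edges are disjoint. -/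
theorem result :
    ¬ (∀ (V : Type) [Fintype V] [DecidableEq V] (m : ℕ) (e : Fin m → Finset V),
    (∀ i, (e i).Nonempty) →
    (∀ S : Finset (Fin m), ∃ M ⊆ S,
        (∀ i ∈ M, ∀ j ∈ M, i ≠ j → Disjoint (e i) (e j)) ∧
        S.card ≤ M.card *
          (Finset.univ.sup (fun v : V => (S.filter (fun i => v ∈ e i)).card) + 1)) →
    ∃ c : Fin m → Fin (Finset.univ.sup
        (fun v : V => (Finset.univ.filter (fun i : Fin m => v ∈ e i)).card) + 1),
      ∀ i j, i ≠ j → c i = c j → Disjoint (e i) (e j)) := by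
  intro h
  obtain ⟨c, hc⟩ := h (Fin 20) 11 E (by decide) (by
    intro S
    by_cases hS : ∀ i ∈ S, ∀ j ∈ S, i ≠ j → Disjoint (E i) (E j)
    · exact ⟨S, Finset.Subset.refl S, hS, Nat.le_mul_of_pos_right _ (Nat.succ_pos _)⟩
    · push Not at hS
      obtain ⟨i, hi, j, hj, hij, hd⟩ := hS
      obtain ⟨k, hk⟩ := exists_k S
      refine ⟨S ∩ I k, Finset.inter_subset_left, fun x hx y hy => ?_, ?_⟩
      · exact I_indep k x (Finset.mem_inter.1 hx).2 y (Finset.mem_inter.1 hy).2
      · refine hk.trans (Nat.mul_le_mul_left _ ?_)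
        rw [Finset.not_disjoint_iff] at hd
        obtain ⟨v, hv1, hv2⟩ := hd
        have h1 : 2 ≤ (S.filter (fun i => v ∈ E i)).card := by
          rw [← Finset.card_pair hij]
          refine Finset.card_le_card ?_
          intro x hx
          rw [Finset.mem_insert, Finset.mem_singleton] at hx
          rw [Finset.mem_filter]
          rcases hx with rfl | rfl
          · exact ⟨hi, hv1⟩
          · exact ⟨hj, hv2⟩
        have h2 : (S.filter (fun i => v ∈ E i)).card ≤
            Finset.univ.sup (fun v : Fin 20 => (S.filter (fun i => v ∈ E i)).card) :=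
          Finset.le_sup (f := fun v : Fin 20 => (S.filter (fun i => v ∈ E i)).card)
            (Finset.mem_univ v)
        omega)
  have key : ∀ i j : Fin 11, i ≠ j → ¬ Disjoint (E i) (E j) → c i ≠ c j :=
    fun i j hij hd hcc => hd (hc i j hij hcc)
  have hcast : ∃ d : Fin 11 → Fin 3, ∀ i j : Fin 11, i ≠ j → ¬ Disjoint (E i) (E j) →
      d i ≠ d j := by
    refine ⟨fun i => Fin.cast (by rw [sup_eq]) (c i), fun i j hij hd hcc => ?_⟩
    exact key i j hij hd (Fin.cast_injective _ hcc)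
  obtain ⟨d, hd⟩ := hcast
  exact not_three (d 0) (d 1) (hd 0 1 (by decide) (by decide))
    (d 2) (hd 1 2 (by decide) (by decide)) (d 3) (hd 2 3 (by decide) (by decide))
    (d 4) (hd 3 4 (by decide) (by decide)) (hd 4 0 (by decide) (by decide))
    (d 10) (d 5) (hd 5 10 (by decide) (by decide)) (hd 1 5 (by decide) (by decide))
    (hd 4 5 (by decide) (by decide))
    (d 6) (hd 6 10 (by decide) (by decide)) (hd 2 6 (by decide) (by decide))
    (hd 0 6 (by decide) (by decide))
    (d 7) (hd 7 10 (by decide) (by decide)) (hd 3 7 (by decide) (by decide))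
    (hd 1 7 (by decide) (by decide))
    (d 8) (hd 8 10 (by decide) (by decide)) (hd 4 8 (by decide) (by decide))
    (hd 2 8 (by decide) (by decide))
    (d 9) (hd 9 10 (by decide) (by decide)) (hd 0 9 (by decide) (by decide))
    (hd 3 9 (by decide) (by decide))

end Pool.Agent.S11816
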