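import Pool.Statements.S11885
-- import your own Pool.Agent.* helpers here

set_option autoImplicit false
open Classical
open Pool Pool.MP_dd5ef2_co

namespace Pool.Agent.S11885

/-- Expectation of `1/(X+1)` for a binomial-type count. -/
lemma inv_sum {n m : ℕ} (e : Fin n → ℝ) (he : ∀ x, e x = 0 ∨ e x = 1) :
    ((m : ℝ) + 1) * ((∑ x, e x) * (∑ K : Fin m → Fin n, 1 / ((∑ t, e (K t)) + 1)))
      ≤ (n : ℝ) ^ (m + 1) := by
  have key : ∀ p : Fin (m + 1), (∑ x, e x) * (∑ K : Fin m → Fin n, 1 / ((∑ t, e (K t)) + 1))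
      = ∑ K : Fin (m + 1) → Fin n, e (K p) / (∑ t, e (K t)) := by
    intro p
    rw [← (Fin.insertNthEquiv (fun _ => Fin n) p).sum_comp, Fintype.sum_prod_type,
      Finset.sum_mul_sum]
    refine Finset.sum_congr rfl fun x _ => Finset.sum_congr rfl fun K _ => ?_
    have h1 : (Fin.insertNthEquiv (fun _ => Fin n) p) (x, K) p = x := by simp
    have h2 : ∀ t, (Fin.insertNthEquiv (fun _ => Fin n) p) (x, K) (p.succAbove t) = K t := by
      intro t; simp
    rw [Fin.sum_univ_succAbove _ p]
    simp only [h1, h2]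
    rcases he x with h | h
    · simp [h]
    · rw [h]; rw [add_comm]; ring
  have h3 : ((m : ℝ) + 1) * ((∑ x, e x) * (∑ K : Fin m → Fin n, 1 / ((∑ t, e (K t)) + 1)))
      = ∑ K : Fin (m + 1) → Fin n, (∑ p, e (K p)) / (∑ t, e (K t)) := by
    simp_rw [Finset.sum_div]
    rw [Finset.sum_comm]
    simp_rw [← key]
    simp
  rw [h3]
  calc ∑ K : Fin (m + 1) → Fin n, (∑ p, e (K p)) / (∑ t, e (K t))
      ≤ ∑ _K : Fin (m + 1) → Fin n, (1 : ℝ) := Finset.sum_le_sum fun K _ => div_self_le_one _
    _ = (n : ℝ) ^ (m + 1) := by simp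

/-- Existence of a good sample. -/
lemma exists_sample {n m : ℕ} (hn : 0 < n) (e : Fin n × Fin n → Fin n → ℝ)
    (he : ∀ p x, e p x = 0 ∨ e p x = 1) (hpos : ∀ p, 0 < ∑ x, e p x) :
    ∃ K : Fin m → Fin n,
      (∏ p : Fin n × Fin n, (if p.1 < p.2 then (∑ x, e p x) / n else 1)) ≤
      Real.exp ((n : ℝ) ^ 2 / (m + 1)) *
        ∏ p : Fin n × Fin n, (if p.1 < p.2 then ((∑ t, e p (K t)) + 1) / (m + 2) else 1) := by
  have hn' : (0 : ℝ) < n := by exact_mod_cast hn
  have hnn : ∀ p x, 0 ≤ e p x := fun p x => by rcases he p x with h | h <;> rw [h] <;> norm_num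
  let r : (Fin m → Fin n) → Fin n × Fin n → ℝ := fun K p =>
    if p.1 < p.2 then ((∑ x, e p x) / n) / (((∑ t, e p (K t)) + 1) / (m + 2)) else 1
  have hXpos : ∀ (K : Fin m → Fin n) p, 0 < (∑ t, e p (K t)) + 1 := fun K p => by
    have : 0 ≤ ∑ t, e p (K t) := Finset.sum_nonneg fun t _ => hnn p _
    linarith
  have hrsum : ∀ p, ∑ K : Fin m → Fin n, r K p ≤ (n : ℝ) ^ m * (((m : ℝ) + 2) / (m + 1)) := by
    intro p
    by_cases hp : p.1 < p.2
    · simp only [r, if_pos hp]
      have h1 := inv_sum (m := m) (e p) (he p)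
      have h2 : ∑ K : Fin m → Fin n, ((∑ x, e p x) / n) / (((∑ t, e p (K t)) + 1) / ((m : ℝ) + 2))
          = (((m : ℝ) + 2) / n) *
            ((∑ x, e p x) * (∑ K : Fin m → Fin n, 1 / ((∑ t, e p (K t)) + 1))) := by
        rw [Finset.mul_sum, Finset.mul_sum]
        refine Finset.sum_congr rfl fun K _ => ?_
        have := (hXpos K p).ne'
        field_simp
      rw [h2]
      have h4 : ((∑ x, e p x) * (∑ K : Fin m → Fin n, 1 / ((∑ t, e p (K t)) + 1)))
          ≤ (n : ℝ) ^ (m + 1) / (m + 1) := by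
        rw [le_div_iff₀ (by positivity)]
        linarith
      calc (((m : ℝ) + 2) / n) *
            ((∑ x, e p x) * (∑ K : Fin m → Fin n, 1 / ((∑ t, e p (K t)) + 1)))
          ≤ (((m : ℝ) + 2) / n) * ((n : ℝ) ^ (m + 1) / (m + 1)) :=
            mul_le_mul_of_nonneg_left h4 (by positivity)
        _ = (n : ℝ) ^ m * (((m : ℝ) + 2) / (m + 1)) := by
            rw [pow_succ]; field_simp
    · simp only [r, if_neg hp]
      have : (1 : ℝ) ≤ ((m : ℝ) + 2) / (m + 1) := by
        rw [le_div_iff₀ (by positivity)]; linarith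
      have h5 : (0 : ℝ) ≤ (n : ℝ) ^ m := by positivity
      simp
      nlinarith
  have hex : ∃ K ∈ (Finset.univ : Finset (Fin m → Fin n)),
      ∑ p, r K p ≤ (n : ℝ) ^ 2 * (((m : ℝ) + 2) / (m + 1)) := by
    have : Nonempty (Fin m → Fin n) := ⟨fun _ => ⟨0, hn⟩⟩
    refine Finset.exists_le_of_sum_le Finset.univ_nonempty ?_
    rw [Finset.sum_comm]
    calc ∑ p, ∑ K, r K p ≤ ∑ _p : Fin n × Fin n, (n : ℝ) ^ m * (((m : ℝ) + 2) / (m + 1)) :=
          Finset.sum_le_sum fun p _ => hrsum p
      _ = ∑ _K : Fin m → Fin n, (n : ℝ) ^ 2 * (((m : ℝ) + 2) / (m + 1)) := by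
          simp; ring
  obtain ⟨K, -, hK⟩ := hex
  refine ⟨K, ?_⟩
  have hr0 : ∀ p, 0 ≤ r K p := by
    intro p
    simp only [r]
    split_ifs
    · have := hXpos K p
      have := hpos p
      positivity
    · norm_num
  have hprod : ∏ p, r K p ≤ Real.exp ((n : ℝ) ^ 2 / (m + 1)) := by
    calc ∏ p, r K p ≤ ∏ p, Real.exp (r K p - 1) :=
          Finset.prod_le_prod (fun p _ => hr0 p) fun p _ => by
            have := Real.add_one_le_exp (r K p - 1); linarith
      _ = Real.exp (∑ p, (r K p - 1)) := (Real.exp_sum _ _).symm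
      _ ≤ Real.exp ((n : ℝ) ^ 2 / (m + 1)) := by
          rw [Real.exp_le_exp, Finset.sum_sub_distrib]
          have h6 : (∑ _p : Fin n × Fin n, (1 : ℝ)) = (n : ℝ) ^ 2 := by simp; ring
          rw [h6]
          have h7 : (n : ℝ) ^ 2 * (((m : ℝ) + 2) / (m + 1)) - (n : ℝ) ^ 2
              = (n : ℝ) ^ 2 / (m + 1) := by
            field_simp; ring
          linarith
  have hfac : (∏ p : Fin n × Fin n, (if p.1 < p.2 then (∑ x, e p x) / n else 1)) =
      (∏ p, r K p) *
        ∏ p : Fin n × Fin n, (if p.1 < p.2 then ((∑ t, e p (K t)) + 1) / ((m : ℝ) + 2) else 1) := by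
    rw [← Finset.prod_mul_distrib]
    refine Finset.prod_congr rfl fun p _ => ?_
    simp only [r]
    split_ifs
    · have h8 := (hXpos K p).ne'
      have h9 : ((m : ℝ) + 2) ≠ 0 := by positivity
      field_simp
    · simp
  rw [hfac]
  refine mul_le_mul_of_nonneg_right hprod (Finset.prod_nonneg fun p _ => ?_)
  split_ifs
  · have := hXpos K p
    positivity
  · norm_num

/-- Parity event for three booleans. -/
def ev (a b c : Bool) : Prop := xor a (xor b c) = false

instance (a b c : Bool) : Decidable (ev a b c) := by unfold ev; infer_instance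

/-- Weighted prediction. -/
noncomputable def Q {n m : ℕ} (σ : Fin n × Fin m → Bool) (p : Fin n × Fin n) (b : Bool) : ℝ :=
  if p.1 < p.2 then
    ((∑ t : Fin m, (if ev b (σ (p.1, t)) (σ (p.2, t)) then (1 : ℝ) else 0)) + 1) / (m + 2)
  else (if b = false then 1 else 0)

lemma Q_nonneg {n m : ℕ} (σ : Fin n × Fin m → Bool) (p : Fin n × Fin n) (b : Bool) :
    0 ≤ Q σ p b := by
  unfold Q
  split_ifs
  · have : 0 ≤ ∑ t : Fin m, (if ev b (σ (p.1, t)) (σ (p.2, t)) then (1 : ℝ) else 0) :=
      Finset.sum_nonneg fun t _ => by split_ifs <;> norm_num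
    positivity
  · norm_num
  · norm_num

lemma Q_sum {n m : ℕ} (σ : Fin n × Fin m → Bool) (p : Fin n × Fin n) :
    ∑ b : Bool, Q σ p b = 1 := by
  unfold Q
  rw [Fintype.sum_bool]
  by_cases hp : p.1 < p.2
  · simp only [if_pos hp]
    rw [← add_div]
    have h1 : (∑ t : Fin m, (if ev true (σ (p.1, t)) (σ (p.2, t)) then (1 : ℝ) else 0)) +
        (∑ t : Fin m, (if ev false (σ (p.1, t)) (σ (p.2, t)) then (1 : ℝ) else 0)) = m := by
      rw [← Finset.sum_add_distrib]
      have : ∀ t : Fin m, ((if ev true (σ (p.1, t)) (σ (p.2, t)) then (1 : ℝ) else 0) +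
          (if ev false (σ (p.1, t)) (σ (p.2, t)) then (1 : ℝ) else 0)) = 1 := by
        intro t
        cases σ (p.1, t) <;> cases σ (p.2, t) <;> simp [ev]
      simp [this]
    rw [div_eq_one_iff_eq (by positivity)]
    linarith
  · simp [if_neg hp]

/-- Encoding of a graph. -/
noncomputable def bG {n : ℕ} (G : SimpleGraph (Fin n)) (p : Fin n × Fin n) : Bool :=
  if p.1 < p.2 then decide (G.Adj p.1 p.2) else false

lemma bG_inj {n : ℕ} : Function.Injective (bG (n := n)) := by
  intro G H h
  have key : ∀ i j : Fin n, i < j → (G.Adj i j ↔ H.Adj i j) := by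
    intro i j hij
    have := congrFun h (i, j)
    simpa [bG, hij] using this
  ext i j
  rcases lt_trichotomy i j with h1 | h1 | h1
  · exact key i j h1
  · subst h1; simp
  · rw [G.adj_comm, H.adj_comm]; exact key j i h1

lemma sum_graph {n m : ℕ} [Fintype (SimpleGraph (Fin n))] (K : Fin m → Fin n) :
    ∑ G : SimpleGraph (Fin n), ∏ p, Q (fun q : Fin n × Fin m => decide (G.Adj q.1 (K q.2))) p (bG G p)
      ≤ (2 : ℝ) ^ (n * m) := by
  calc ∑ G : SimpleGraph (Fin n),
        ∏ p, Q (fun q : Fin n × Fin m => decide (G.Adj q.1 (K q.2))) p (bG G p)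
      ≤ ∑ G : SimpleGraph (Fin n), ∑ σ : Fin n × Fin m → Bool, ∏ p, Q σ p (bG G p) := by
        refine Finset.sum_le_sum fun G _ => ?_
        exact Finset.single_le_sum (f := fun σ : Fin n × Fin m → Bool => ∏ p, Q σ p (bG G p))
          (fun σ _ => Finset.prod_nonneg fun p _ => Q_nonneg σ p _) (Finset.mem_univ _)
    _ = ∑ σ : Fin n × Fin m → Bool, ∑ G : SimpleGraph (Fin n), ∏ p, Q σ p (bG G p) :=
        Finset.sum_comm
    _ ≤ ∑ σ : Fin n × Fin m → Bool, ∑ g : Fin n × Fin n → Bool, ∏ p, Q σ p (g p) := by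
        refine Finset.sum_le_sum fun σ _ => ?_
        rw [← Finset.sum_image (s := (Finset.univ : Finset (SimpleGraph (Fin n))))
          (g := bG) (f := fun g : Fin n × Fin n → Bool => ∏ p, Q σ p (g p))
          (fun G _ H _ h => bG_inj h)]
        exact Finset.sum_le_sum_of_subset_of_nonneg (Finset.subset_univ _)
          fun g _ _ => Finset.prod_nonneg fun p _ => Q_nonneg σ p _
    _ = ∑ σ : Fin n × Fin m → Bool, ∏ p : Fin n × Fin n, ∑ b : Bool, Q σ p b := by
        refine Finset.sum_congr rfl fun σ _ => ?_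
        rw [Finset.prod_univ_sum, Fintype.piFinset_univ]
    _ = (2 : ℝ) ^ (n * m) := by
        simp only [Q_sum, Finset.prod_const_one]
        simp

lemma factor_bound {n : ℕ} (hn : 3 ≤ n) (G : SimpleGraph (Fin n)) (i j : Fin n) (hij : i < j) :
    (((Finset.univ.filter (fun k : Fin n => k ≠ i ∧ k ≠ j ∧
                Even ((if G.Adj i j then 1 else 0) + (if G.Adj i k then 1 else 0)
                  + (if G.Adj j k then 1 else 0) : ℕ))).card : ℝ) / ((n : ℝ) - 2)) ≤
    (∑ k : Fin n, (if ev (decide (G.Adj i j)) (decide (G.Adj i k)) (decide (G.Adj j k))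
      then (1 : ℝ) else 0)) / n := by
  have hne : i ≠ j := ne_of_lt hij
  set A := Finset.univ.filter (fun k : Fin n => k ≠ i ∧ k ≠ j ∧
                Even ((if G.Adj i j then 1 else 0) + (if G.Adj i k then 1 else 0)
                  + (if G.Adj j k then 1 else 0) : ℕ)) with hA
  have h1 : (∑ k : Fin n, (if ev (decide (G.Adj i j)) (decide (G.Adj i k)) (decide (G.Adj j k))
      then (1 : ℝ) else 0)) = (A.card : ℝ) + 2 := by
    rw [Finset.sum_boole]
    have h2 : (Finset.univ.filter fun k : Fin n =>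
        ev (decide (G.Adj i j)) (decide (G.Adj i k)) (decide (G.Adj j k))) =
        insert i (insert j A) := by
      ext k
      simp only [Finset.mem_filter, Finset.mem_univ, true_and, Finset.mem_insert, hA]
      by_cases hki : k = i
      · subst hki
        by_cases h : G.Adj k j
        · simp [ev, h, h.symm]
        · have h' : ¬ G.Adj j k := fun h2 => h h2.symm
          simp [ev, h, h']
      · by_cases hkj : k = j
        · subst hkj
          by_cases h : G.Adj i k
          · simp [ev, h]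
          · simp [ev, h]
        · simp only [hki, hkj, ne_eq, not_false_eq_true, true_and, false_or]
          by_cases h : G.Adj i j <;> by_cases h' : G.Adj i k <;> by_cases h'' : G.Adj j k <;>
            simp [ev, h, h', h''] <;> decide
    rw [h2, Finset.card_insert_of_notMem, Finset.card_insert_of_notMem]
    · push_cast; ring
    · simp [hA]
    · simp [hA, hne]
  have h3 : (A.card : ℝ) + 2 ≤ n := by
    rw [← h1]
    calc _ ≤ ∑ _k : Fin n, (1 : ℝ) := Finset.sum_le_sum fun k _ => by split_ifs <;> norm_num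
      _ = n := by simp
  have hn3 : (3 : ℝ) ≤ n := by exact_mod_cast hn
  rw [h1, div_le_div_iff₀ (by linarith) (by linarith)]
  nlinarith

/-- For every ε>0 and all large n, summing over all graphs on n vertices the product over pairs i<j of the fraction of other vertices k with an even number of edges in triangle ijk gives at most 2^(εn²). -/
theorem result :
    ∀ ε : ℝ, 0 < ε → ∃ N : ℕ, ∀ n : ℕ, N ≤ n →
      (∑ G : SimpleGraph (Fin n),
        ∏ i : Fin n, ∏ j : Fin n,
          (if i < j then
            (((Finset.univ.filter (fun k : Fin n => k ≠ i ∧ k ≠ j ∧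
                Even ((if G.Adj i j then 1 else 0) + (if G.Adj i k then 1 else 0)
                  + (if G.Adj j k then 1 else 0) : ℕ))).card : ℝ) / ((n : ℝ) - 2))
          else 1)) ≤ (2 : ℝ) ^ (ε * (n : ℝ) ^ 2) := by
  intro ε hε
  have hlog : 0 < Real.log 2 := Real.log_pos (by norm_num)
  obtain ⟨m, hm⟩ := exists_nat_gt (2 / (ε * Real.log 2))
  obtain ⟨N, hN⟩ := exists_nat_gt (4 * (m : ℝ) / ε)
  refine ⟨max 3 N, fun n hn => ?_⟩
  have hn3 : 3 ≤ n := le_trans (le_max_left _ _) hn
  have hnN : N ≤ n := le_trans (le_max_right _ _) hn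
  have hn0 : 0 < n := by omega
  have hnR : (3 : ℝ) ≤ n := by exact_mod_cast hn3
  have hmain : (∑ G : SimpleGraph (Fin n),
        ∏ i : Fin n, ∏ j : Fin n,
          (if i < j then
            (((Finset.univ.filter (fun k : Fin n => k ≠ i ∧ k ≠ j ∧
                Even ((if G.Adj i j then 1 else 0) + (if G.Adj i k then 1 else 0)
                  + (if G.Adj j k then 1 else 0) : ℕ))).card : ℝ) / ((n : ℝ) - 2))
          else 1)) ≤ Real.exp ((n : ℝ) ^ 2 / (m + 1)) * ((n : ℝ) ^ m * (2 : ℝ) ^ (n * m)) := by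
    calc _ ≤ ∑ G : SimpleGraph (Fin n), ∑ K : Fin m → Fin n, Real.exp ((n : ℝ) ^ 2 / (m + 1)) *
          ∏ p, Q (fun q : Fin n × Fin m => decide (G.Adj q.1 (K q.2))) p (bG G p) := by
          refine Finset.sum_le_sum fun G _ => ?_
          let e : Fin n × Fin n → Fin n → ℝ := fun p k =>
            if ev (decide (G.Adj p.1 p.2)) (decide (G.Adj p.1 k)) (decide (G.Adj p.2 k))
              then (1 : ℝ) else 0
          have he : ∀ p x, e p x = 0 ∨ e p x = 1 := by
            intro p x
            simp only [e]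
            split_ifs
            · right; rfl
            · left; rfl
          have hpos : ∀ p, 0 < ∑ x, e p x := by
            intro p
            refine Finset.sum_pos' (fun x _ => ?_) ⟨p.1, Finset.mem_univ _, ?_⟩
            · rcases he p x with h | h <;> rw [h] <;> norm_num
            · simp only [e]
              rw [if_pos]
              · norm_num
              · by_cases h : G.Adj p.1 p.2
                · simp [ev, h, h.symm]
                · have h' : ¬ G.Adj p.2 p.1 := fun h2 => h h2.symm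
                  simp [ev, h, h']
          obtain ⟨K, hK⟩ := exists_sample (m := m) hn0 e he hpos
          have hQ : (∏ p : Fin n × Fin n,
              (if p.1 < p.2 then ((∑ t, e p (K t)) + 1) / ((m : ℝ) + 2) else 1)) =
              ∏ p, Q (fun q : Fin n × Fin m => decide (G.Adj q.1 (K q.2))) p (bG G p) := by
            refine Finset.prod_congr rfl fun p _ => ?_
            unfold Q bG
            by_cases hp : p.1 < p.2
            · simp only [if_pos hp, e]
            · simp [if_neg hp]
          rw [hQ] at hK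
          calc _ ≤ (∏ p : Fin n × Fin n, (if p.1 < p.2 then (∑ x, e p x) / (n : ℝ) else 1)) := by
                rw [Fintype.prod_prod_type]
                refine Finset.prod_le_prod (fun i _ => Finset.prod_nonneg fun j _ => ?_)
                  fun i _ => Finset.prod_le_prod (fun j _ => ?_) fun j _ => ?_
                · by_cases hij : i < j
                  · rw [if_pos hij]
                    exact div_nonneg (Nat.cast_nonneg _) (by linarith)
                  · rw [if_neg hij]
                    exact zero_le_one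
                · by_cases hij : i < j
                  · rw [if_pos hij]
                    exact div_nonneg (Nat.cast_nonneg _) (by linarith)
                  · rw [if_neg hij]
                    exact zero_le_one
                · by_cases hij : i < j
                  · simp only [if_pos hij]
                    exact factor_bound hn3 G i j hij
                  · simp only [if_neg hij]
                    exact le_rfl
            _ ≤ _ := hK
            _ ≤ _ := Finset.single_le_sum (f := fun K : Fin m → Fin n =>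
                Real.exp ((n : ℝ) ^ 2 / (m + 1)) *
                ∏ p, Q (fun q : Fin n × Fin m => decide (G.Adj q.1 (K q.2))) p (bG G p))
                (fun K _ => mul_nonneg (Real.exp_pos _).le
                  (Finset.prod_nonneg fun p _ => Q_nonneg _ p _)) (Finset.mem_univ K)
      _ = ∑ K : Fin m → Fin n, Real.exp ((n : ℝ) ^ 2 / (m + 1)) *
          ∑ G : SimpleGraph (Fin n),
            ∏ p, Q (fun q : Fin n × Fin m => decide (G.Adj q.1 (K q.2))) p (bG G p) := by
          rw [Finset.sum_comm]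
          refine Finset.sum_congr rfl fun K _ => ?_
          rw [Finset.mul_sum]
      _ ≤ ∑ _K : Fin m → Fin n, Real.exp ((n : ℝ) ^ 2 / (m + 1)) * (2 : ℝ) ^ (n * m) :=
          Finset.sum_le_sum fun K _ =>
            mul_le_mul_of_nonneg_left (sum_graph K) (Real.exp_pos _).le
      _ = Real.exp ((n : ℝ) ^ 2 / (m + 1)) * ((n : ℝ) ^ m * (2 : ℝ) ^ (n * m)) := by
          simp; ring
  refine hmain.trans ?_
  have hn2 : (0 : ℝ) < (n : ℝ) ^ 2 := by positivity
  have hA : Real.exp ((n : ℝ) ^ 2 / (m + 1)) ≤ (2 : ℝ) ^ (ε / 2 * (n : ℝ) ^ 2) := by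
    rw [Real.rpow_def_of_pos (by norm_num : (0 : ℝ) < 2), Real.exp_le_exp,
      div_le_iff₀ (by positivity)]
    have h1 : 2 < (m : ℝ) * (ε * Real.log 2) := by
      rwa [div_lt_iff₀ (by positivity)] at hm
    have h2 : 1 ≤ Real.log 2 * (ε / 2) * (m + 1) := by
      have : 0 < ε * Real.log 2 := by positivity
      nlinarith
    calc (n : ℝ) ^ 2 = 1 * (n : ℝ) ^ 2 := by ring
      _ ≤ (Real.log 2 * (ε / 2) * (m + 1)) * (n : ℝ) ^ 2 :=
          mul_le_mul_of_nonneg_right h2 hn2.le
      _ = _ := by ring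
  have hB : ((n : ℝ) ^ m * (2 : ℝ) ^ (n * m)) ≤ (2 : ℝ) ^ (ε / 2 * (n : ℝ) ^ 2) := by
    have h1 : (n : ℝ) ^ m ≤ (2 : ℝ) ^ (n * m) := by
      rw [pow_mul]
      refine pow_le_pow_left₀ (by positivity) ?_ m
      have := (Nat.lt_two_pow_self (n := n)).le
      exact_mod_cast this
    calc ((n : ℝ) ^ m * (2 : ℝ) ^ (n * m)) ≤ (2 : ℝ) ^ (n * m) * (2 : ℝ) ^ (n * m) :=
          mul_le_mul_of_nonneg_right h1 (by positivity)
      _ = (2 : ℝ) ^ (((n * m + n * m : ℕ) : ℝ)) := by rw [Real.rpow_natCast, pow_add]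
      _ ≤ (2 : ℝ) ^ (ε / 2 * (n : ℝ) ^ 2) := by
          refine Real.rpow_le_rpow_of_exponent_le (by norm_num) ?_
          have h2 : 4 * (m : ℝ) < n * ε := by
            rw [div_lt_iff₀ hε] at hN
            have h3 : (N : ℝ) ≤ n := by exact_mod_cast hnN
            nlinarith
          push_cast
          nlinarith
  calc Real.exp ((n : ℝ) ^ 2 / (m + 1)) * ((n : ℝ) ^ m * (2 : ℝ) ^ (n * m))
      ≤ (2 : ℝ) ^ (ε / 2 * (n : ℝ) ^ 2) * (2 : ℝ) ^ (ε / 2 * (n : ℝ) ^ 2) :=
        mul_le_mul hA hB (by positivity) (by positivity)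
    _ = (2 : ℝ) ^ (ε * (n : ℝ) ^ 2) := by
        rw [← Real.rpow_add (by norm_num)]
        congr 1
        ring

end Pool.Agent.S11885
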