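import Pool.Statements.S11986
import Pool.Agent.X51.SparseTri.Exist

set_option autoImplicit false
open Filter Topology
open Pool Pool.MP_e10300_co

/-!
Disproof.  Vertices get independent random sign vectors `x` of length `k ^ 3`, and `xy` is an edge
with probability `p ∏ (1 - x_l y_l / k)`, where `p = 2 ^ (-k ^ 3)` and `k` tends to infinity slowly
with `n`.  A product of `e(F)` factors `1 - ε x y` has expectation `1 + O(ε ^ 3)`, it is
`1 + ε ^ 4` for the four-cycle but `1 - ε ^ 3` for the triangle; hence all counts of bipartite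
graphs stay bounded, those of edges and four-cycles are asymptotically as in the random graph, but
there are only about `1 / e` times as many triangles.
-/

namespace Pool.Agent.S11986

open Pool.Agent.X51.SparseTri

/-- the edge density -/
noncomputable def pk (k : ℕ) : ℝ := (1 / 2) ^ (k ^ 3)

theorem pk_pos (k : ℕ) : 0 < pk k := by
  unfold pk
  positivity

theorem pk_le (k : ℕ) : pk k ≤ 1 := pow_le_one₀ (by norm_num) (by norm_num)

theorem eventually_good (s k : ℕ) (hk : 2 ≤ k) :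
    ∀ᶠ n : ℕ in atTop, ∃ G : SimpleGraph (Fin n), Good s k n (pk k) G := by
  have hp := pk_pos k
  have hk0 : (0 : ℝ) < k := by
    have : (2 : ℝ) ≤ k := by exact_mod_cast hk
    linarith
  have h1 : ∀ᶠ n : ℕ in atTop, 16 * k / pk k ^ 4 ≤ (n : ℝ) :=
    tendsto_natCast_atTop_atTop.eventually_ge_atTop _
  have h2 : ∀ᶠ n : ℕ in atTop, 4 * k / pk k ≤ (n : ℝ) :=
    tendsto_natCast_atTop_atTop.eventually_ge_atTop _
  filter_upwards [h1, h2, eventually_ge_atTop (s + k + 8)] with n h1 h2 hn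
  apply good_exists_aux s k n hk (by omega) (pk k) hp
  · unfold pk
    rw [← mul_pow]
    norm_num
  · obtain ⟨r, rfl⟩ : ∃ r : ℕ, n = r + 4 := ⟨n - 4, by omega⟩
    have hr : (4 : ℝ) ≤ r := by
      have : 4 ≤ r := by omega
      exact_mod_cast this
    rw [desc4]
    rw [div_le_iff₀ (by positivity)] at h1
    push_cast at h1 ⊢
    rw [div_le_div_iff₀ (by positivity) hk0, one_mul]
    have h3 : ((r : ℝ) + 4) ^ 4 / 8 ≤ (r + 4) * (r + 3) * (r + 2) * (r + 1) := by
      have e : (r + 4) * (r + 3) * (r + 2) * (r + 1) - ((r : ℝ) + 4) ^ 4 / 8 =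
          (r + 4) * (7 * r ^ 3 + 36 * r ^ 2 + 40 * r - 16) / 8 := by ring
      have e2 : 0 ≤ (r + 4) * (7 * (r : ℝ) ^ 3 + 36 * r ^ 2 + 40 * r - 16) / 8 := by
        have : 0 ≤ 7 * (r : ℝ) ^ 3 + 36 * r ^ 2 + 40 * r - 16 := by
          nlinarith [pow_nonneg (by linarith : (0 : ℝ) ≤ r) 3, sq_nonneg (r : ℝ)]
        positivity
      linarith
    have h4 : 2 * ((r : ℝ) + 4) ^ 3 * k ≤ ((r : ℝ) + 4) ^ 4 / 8 * pk k ^ 4 := by
      have : ((r : ℝ) + 4) ^ 3 * (16 * k) ≤ (r + 4) ^ 3 * ((r + 4) * pk k ^ 4) :=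
        mul_le_mul_of_nonneg_left h1 (by positivity)
      nlinarith
    refine h4.trans ?_
    exact mul_le_mul_of_nonneg_right h3 (by positivity)
  · obtain ⟨r, rfl⟩ : ∃ r : ℕ, n = r + 4 := ⟨n - 4, by omega⟩
    have hr : (0 : ℝ) ≤ r := Nat.cast_nonneg r
    rw [desc2, pow_one]
    rw [div_le_iff₀ hp] at h2
    push_cast at h2 ⊢
    rw [div_le_div_iff₀ (by positivity) (by positivity), one_mul]
    have h3 : ((r : ℝ) + 4) * pk k ≤ (r + 4) * (r + 3) * pk k := by
      apply mul_le_mul_of_nonneg_right _ hp.le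
      nlinarith
    linarith

theorem eventually_rate (s : ℕ) (hs : 2 ≤ s) (a : ℝ) (k : ℕ) :
    ∀ᶠ n : ℕ in atTop, (k : ℝ) ≤ pk k / ((Real.log n) ^ a * (n : ℝ) ^ (-(1 / (s : ℝ)))) := by
  have hs0 : (0 : ℝ) < 1 / (s : ℝ) := by
    have : (0 : ℝ) < s := by exact_mod_cast (by omega : 0 < s)
    positivity
  have hp := pk_pos k
  have h1 := (isLittleO_log_rpow_rpow_atTop a hs0).comp_tendsto tendsto_natCast_atTop_atTop
  have h2 := h1.bound (c := pk k / (k + 1)) (by positivity)
  filter_upwards [h2, eventually_ge_atTop 3] with n h2 hn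
  simp only [Function.comp_apply] at h2
  have hnR : (3 : ℝ) ≤ n := by exact_mod_cast hn
  have hlog : 0 < Real.log n := Real.log_pos (by linarith)
  have hla : 0 < Real.log n ^ a := Real.rpow_pos_of_pos hlog a
  have hna : 0 < (n : ℝ) ^ (1 / (s : ℝ)) := Real.rpow_pos_of_pos (by linarith) _
  rw [Real.norm_of_nonneg hla.le, Real.norm_of_nonneg hna.le] at h2
  rw [Real.rpow_neg (by linarith)]
  rw [le_div_iff₀ (by positivity)]
  have h3 : (k : ℝ) * (Real.log n ^ a * ((n : ℝ) ^ (1 / (s : ℝ)))⁻¹) ≤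
      k * ((pk k / (k + 1) * (n : ℝ) ^ (1 / (s : ℝ))) * ((n : ℝ) ^ (1 / (s : ℝ)))⁻¹) := by
    apply mul_le_mul_of_nonneg_left _ (Nat.cast_nonneg k)
    exact mul_le_mul_of_nonneg_right h2 (by positivity)
  refine h3.trans ?_
  rw [mul_assoc (pk k / (k + 1)), mul_inv_cancel₀ hna.ne', mul_one, mul_div_assoc']
  rw [div_le_iff₀ (by positivity)]
  nlinarith

theorem diag (P : ℕ → ℕ → Prop) (h : ∀ k, 2 ≤ k → ∀ᶠ n in atTop, P k n) :
    ∃ κ : ℕ → ℕ, Tendsto κ atTop atTop ∧ ∀ᶠ n in atTop, P (κ n) n := by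
  have h' : ∀ k, ∃ N, 2 ≤ k → ∀ n ≥ N, P k n := by
    intro k
    by_cases hk : 2 ≤ k
    · obtain ⟨N, hN⟩ := eventually_atTop.1 (h k hk)
      exact ⟨N, fun _ => hN⟩
    · exact ⟨0, fun h => absurd h hk⟩
  choose N hN using h'
  let M : ℕ → ℕ := fun k => ∑ j ∈ Finset.range (k + 1), N j + k
  have hM : ∀ k, N k ≤ M k := fun k =>
    (Finset.single_le_sum (fun _ _ => Nat.zero_le _) (Finset.self_mem_range_succ k)).trans
      (Nat.le_add_right _ _)
  refine ⟨fun n => Nat.findGreatest (fun k => M k ≤ n) n, ?_, ?_⟩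
  · rw [tendsto_atTop]
    intro K
    filter_upwards [eventually_ge_atTop (M K)] with n hn
    exact Nat.le_findGreatest ((Nat.le_add_left _ _).trans hn) hn
  · filter_upwards [eventually_ge_atTop (M 2)] with n hn
    have h2n : 2 ≤ n := (Nat.le_add_left _ _).trans hn
    have h1 : 2 ≤ Nat.findGreatest (fun k => M k ≤ n) n := Nat.le_findGreatest h2n hn
    have h2 : M (Nat.findGreatest (fun k => M k ≤ n) n) ≤ n :=
      Nat.findGreatest_spec (P := fun k => M k ≤ n) h2n hn
    exact hN _ h1 n ((hM _).trans h2)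

/-- The negation of the preceding statement: There are s≥2, a>0 such that whenever p(n)/((log n)^a n^(-1/s))→∞ and n-vertex graphs have normalized labelled K2 and C4 counts tending to 1 and bounded normalized K_{s,t} counts for each t, the normalized triangle count tends to 1. -/
theorem result :
    ¬ (∃ s : ℕ, 2 ≤ s ∧ ∃ a : ℝ, 0 < a ∧
      ∀ p : ℕ → ℝ, (∀ n, 0 < p n ∧ p n ≤ 1) →
        Tendsto (fun n : ℕ => p n / ((Real.log n) ^ a * (n : ℝ) ^ (-(1 / (s : ℝ))))) atTop atTop →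
        ∀ G : ∀ n : ℕ, SimpleGraph (Fin n),
          Tendsto (fun n : ℕ =>
            (Set.ncard {f : Fin 2 → Fin n | Function.Injective f ∧
                ∀ i j, (⊤ : SimpleGraph (Fin 2)).Adj i j → (G n).Adj (f i) (f j)} : ℝ) /
              ((n.descFactorial 2 : ℝ) * p n ^ 1)) atTop (𝓝 1) →
          Tendsto (fun n : ℕ =>
            (Set.ncard {f : Fin 4 → Fin n | Function.Injective f ∧
                ∀ i j, (SimpleGraph.cycleGraph 4).Adj i j → (G n).Adj (f i) (f j)} : ℝ) /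
              ((n.descFactorial 4 : ℝ) * p n ^ 4)) atTop (𝓝 1) →
          (∀ t : ℕ, 1 ≤ t → ∃ C : ℝ, ∀ n : ℕ,
            (Set.ncard {f : Fin s ⊕ Fin t → Fin n | Function.Injective f ∧
                ∀ i j, (completeBipartiteGraph (Fin s) (Fin t)).Adj i j → (G n).Adj (f i) (f j)} : ℝ) /
              ((n.descFactorial (s + t) : ℝ) * p n ^ (s * t)) ≤ C) →
          Tendsto (fun n : ℕ =>
            (Set.ncard {f : Fin 3 → Fin n | Function.Injective f ∧
                ∀ i j, (SimpleGraph.cycleGraph 3).Adj i j → (G n).Adj (f i) (f j)} : ℝ) /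
              ((n.descFactorial 3 : ℝ) * p n ^ 3)) atTop (𝓝 1)) := by
  classical
  rintro ⟨s, hs, a, _, H⟩
  obtain ⟨κ, hκ, hP⟩ := diag (fun k n => (∃ G : SimpleGraph (Fin n), Good s k n (pk k) G) ∧
      (k : ℝ) ≤ pk k / ((Real.log n) ^ a * (n : ℝ) ^ (-(1 / (s : ℝ)))))
    (fun k hk => (eventually_good s k hk).and (eventually_rate s hs a k))
  have hex : ∀ n : ℕ, ∃ G : SimpleGraph (Fin n),
      (∃ G' : SimpleGraph (Fin n), Good s (κ n) n (pk (κ n)) G') →
        Good s (κ n) n (pk (κ n)) G := by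
    intro n
    by_cases h : ∃ G' : SimpleGraph (Fin n), Good s (κ n) n (pk (κ n)) G'
    · obtain ⟨G', hG'⟩ := h
      exact ⟨G', fun _ => hG'⟩
    · exact ⟨⊥, fun h' => absurd h' h⟩
  choose G hG' using hex
  have hG : ∀ᶠ n in atTop, Good s (κ n) n (pk (κ n)) (G n) := by
    filter_upwards [hP] with n hn
    exact hG' n hn.1
  have hκR : Tendsto (fun n => (κ n : ℝ)) atTop atTop := tendsto_natCast_atTop_atTop.comp hκ
  have h9 : ∀ c : ℝ, Tendsto (fun n => c / (κ n : ℝ)) atTop (𝓝 0) := fun c =>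
    tendsto_const_nhds.div_atTop hκR
  -- the edges
  have hx : Tendsto (fun n : ℕ => (emb K2 (G n) : ℝ) /
      ((n.descFactorial 2 : ℝ) * pk (κ n) ^ 1) - 1) atTop (𝓝 0) := by
    have h1 : Tendsto (fun n : ℕ => ((emb K2 (G n) : ℝ) /
        ((n.descFactorial 2 : ℝ) * pk (κ n) ^ 1) - 1) ^ 2) atTop (𝓝 0) := by
      refine squeeze_zero' (Eventually.of_forall fun n => sq_nonneg _) ?_ (h9 9)
      filter_upwards [hG] with n hn
      exact hn.1
    have h2 := (Real.continuous_sqrt.tendsto 0).comp h1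
    rw [Real.sqrt_zero] at h2
    rw [tendsto_zero_iff_abs_tendsto_zero]
    refine h2.congr fun n => ?_
    simp only [Function.comp_apply, Real.sqrt_sq_eq_abs]
  have hy : Tendsto (fun n : ℕ => (emb C4 (G n) : ℝ) /
      ((n.descFactorial 4 : ℝ) * pk (κ n) ^ 4) - 1) atTop (𝓝 0) := by
    have l1 : Tendsto (fun n : ℕ => 4 * ((emb K2 (G n) : ℝ) /
        ((n.descFactorial 2 : ℝ) * pk (κ n) ^ 1) - 1) - 1 / (κ n : ℝ)) atTop (𝓝 0) := by
      have := (hx.const_mul 4).sub (h9 1)
      simpa using this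
    have l2 : Tendsto (fun n : ℕ => 4 * ((emb K2 (G n) : ℝ) /
        ((n.descFactorial 2 : ℝ) * pk (κ n) ^ 1) - 1) + 9 / (κ n : ℝ)) atTop (𝓝 0) := by
      have := (hx.const_mul 4).add (h9 9)
      simpa using this
    refine tendsto_of_tendsto_of_tendsto_of_le_of_le' l1 l2 ?_ ?_
    · filter_upwards [hG] with n hn
      exact hn.2.1
    · filter_upwards [hG] with n hn
      exact hn.2.2.1
  have hfin := H (fun n => pk (κ n)) (fun n => ⟨pk_pos _, pk_le _⟩) ?_ G ?_ ?_ ?_
  · have h1 : ∀ᶠ n in atTop, (emb C3 (G n) : ℝ) /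
        ((n.descFactorial 3 : ℝ) * pk (κ n) ^ 3) ≤ 9 / 10 := by
      filter_upwards [hG] with n hn
      exact hn.2.2.2.1
    have h2 := le_of_tendsto hfin h1
    norm_num at h2
  · refine tendsto_atTop_mono' _ ?_ hκR
    filter_upwards [hP] with n hn
    exact hn.2
  · have := hx.add_const 1
    simp only [sub_add_cancel, zero_add] at this
    exact this
  · have := hy.add_const 1
    simp only [sub_add_cancel, zero_add] at this
    exact this
  · intro t ht
    have h1 : ∀ᶠ n in atTop, (emb (KB s t) (G n) : ℝ) /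
        ((n.descFactorial (s + t) : ℝ) * pk (κ n) ^ (s * t)) ≤ CC s t := by
      filter_upwards [hG, hκ.eventually_ge_atTop t] with n hn hkt
      exact hn.2.2.2.2 t ht hkt
    obtain ⟨N, hN⟩ := eventually_atTop.1 h1
    let v : ℕ → ℝ := fun n => (emb (KB s t) (G n) : ℝ) /
        ((n.descFactorial (s + t) : ℝ) * pk (κ n) ^ (s * t))
    refine ⟨CC s t + ∑ j ∈ Finset.range N, |v j|, fun n => ?_⟩
    change v n ≤ _
    have hs0 : 0 ≤ ∑ j ∈ Finset.range N, |v j| := Finset.sum_nonneg fun _ _ => abs_nonneg _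
    by_cases hn : N ≤ n
    · have : v n ≤ CC s t := hN n hn
      linarith
    · have h3 : |v n| ≤ ∑ j ∈ Finset.range N, |v j| :=
        Finset.single_le_sum (f := fun j => |v j|) (fun _ _ => abs_nonneg _)
          (Finset.mem_range.2 (by omega))
      have h4 := le_abs_self (v n)
      have h5 := CC_pos s t
      linarith

end Pool.Agent.S11986
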