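import Pool.Statements.S12199
import Pool.Agent.X141.RelMain

set_option autoImplicit false
open Pool Pool.MP_ea35a0_co

namespace Pool.Agent.S12199

theorem asym (ε : ℝ) (hε : 0 < ε) : ∃ M : ℕ, 1 ≤ M ∧ ∀ m : ℕ, M ≤ m →
    1 ≤ (1 + ε) * (2 * (m : ℝ) ^ 2 / Real.pi ^ 2) * (1 - Real.cos (Real.pi / m)) := by
  obtain ⟨M, hM⟩ := exists_nat_gt (2 + 2 * (1 + ε) / ε)
  refine ⟨M + 1, by omega, fun m hm => ?_⟩
  have hmR : 2 + 2 * (1 + ε) / ε < (m : ℝ) := by
    have : (M : ℝ) + 1 ≤ m := by exact_mod_cast hm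
    linarith
  have hq : 0 < 2 * (1 + ε) / ε := by positivity
  have hm2 : (2 : ℝ) < m := by linarith
  have hmpos : (0 : ℝ) < m := by linarith
  set y : ℝ := Real.pi / (2 * m) with hy
  have hypos : 0 < y := by positivity
  have hpi4 : Real.pi < 4 := Real.pi_lt_four
  have hy1 : y ≤ 1 := by
    rw [hy, div_le_one (by positivity)]
    linarith
  have hsin : y - y ^ 3 / 4 < Real.sin y := by
    have h6 := Real.sin_gt_sub_cube hypos
    have : 0 < y ^ 3 := by positivity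
    linarith
  have hcos : 1 - Real.cos (Real.pi / m) = 2 * Real.sin y ^ 2 := by
    have : Real.pi / m = 2 * y := by
      rw [hy]; field_simp
    rw [this, Real.cos_two_mul, Real.sin_sq]
    ring
  have hy3 : 0 < y - y ^ 3 / 4 := by nlinarith [mul_pos hypos hypos]
  have hsq : (y - y ^ 3 / 4) ^ 2 ≤ Real.sin y ^ 2 := by
    apply pow_le_pow_left₀ hy3.le hsin.le
  have hfac : (1 + ε) * (2 * (m : ℝ) ^ 2 / Real.pi ^ 2) * (2 * (y - y ^ 3 / 4) ^ 2) =
      (1 + ε) * (1 - y ^ 2 / 4) ^ 2 := by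
    have hym : 2 * (m : ℝ) ^ 2 / Real.pi ^ 2 * (2 * y ^ 2) = 1 := by
      rw [hy]
      have := Real.pi_pos.ne'
      field_simp
    calc (1 + ε) * (2 * (m : ℝ) ^ 2 / Real.pi ^ 2) * (2 * (y - y ^ 3 / 4) ^ 2)
        = (1 + ε) * (2 * (m : ℝ) ^ 2 / Real.pi ^ 2 * (2 * y ^ 2)) * (1 - y ^ 2 / 4) ^ 2 := by ring
      _ = _ := by rw [hym]; ring
  have hysq : y ^ 2 * m ≤ 2 := by
    have h10 : Real.pi ^ 2 ≤ 16 := by nlinarith [Real.pi_pos]
    have : y ^ 2 * m = Real.pi ^ 2 / (4 * m) := by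
      rw [hy]; field_simp; ring
    rw [this, div_le_iff₀ (by positivity)]
    nlinarith
  have hmε : 2 * (1 + ε) < ε * m := by
    have : 2 * (1 + ε) / ε < m := by linarith
    rw [div_lt_iff₀ hε] at this
    linarith
  have hy2pos : 0 < y ^ 2 := by positivity
  have hyε : y ^ 2 * (1 + ε) ≤ ε := by
    have h5 : y ^ 2 * (2 * (1 + ε)) ≤ y ^ 2 * (ε * m) := by
      apply mul_le_mul_of_nonneg_left hmε.le hy2pos.le
    nlinarith
  have hmain : 1 ≤ (1 + ε) * (1 - y ^ 2 / 4) ^ 2 := by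
    nlinarith [mul_pos hy2pos hy2pos]
  have hc0 : 0 ≤ (1 + ε) * (2 * (m : ℝ) ^ 2 / Real.pi ^ 2) := by positivity
  calc (1 : ℝ) ≤ (1 + ε) * (1 - y ^ 2 / 4) ^ 2 := hmain
    _ = (1 + ε) * (2 * (m : ℝ) ^ 2 / Real.pi ^ 2) * (2 * (y - y ^ 3 / 4) ^ 2) := hfac.symm
    _ ≤ (1 + ε) * (2 * (m : ℝ) ^ 2 / Real.pi ^ 2) * (2 * Real.sin y ^ 2) := by
      apply mul_le_mul_of_nonneg_left _ hc0
      linarith
    _ = _ := by rw [hcos]

/-- For every ε>0, every connected graph with enough edges m has simple-random-walk relaxation time (degree-weighted variance over edge Dirichlet form) at most (1+ε)·2m²/π², i.e. the path is asymptotically extremal. -/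
theorem result :
    ∀ ε : ℝ, ε > 0 → ∃ M : ℕ, ∀ (n : ℕ) (G : SimpleGraph (Fin n)) [DecidableRel G.Adj],
      G.Connected → M ≤ G.edgeFinset.card →
      ∀ f : Fin n → ℝ, ∃ c : ℝ,
        ∑ v, (G.degree v : ℝ) * (f v - c) ^ 2 ≤
          (1 + ε) * (2 * (G.edgeFinset.card : ℝ) ^ 2 / Real.pi ^ 2) *
            ((1 / 2 : ℝ) * ∑ u, ∑ v, (if G.Adj u v then (f u - f v) ^ 2 else 0)) := by
  intro ε hε
  obtain ⟨M, hM1, hM⟩ := asym ε hε
  refine ⟨M, fun n G _ hG hm f => ?_⟩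
  obtain ⟨c, hc⟩ := Pool.Agent.X141.RelMain.sharp G hG (le_trans hM1 hm) f
  refine ⟨c, ?_⟩
  have h1 := hM _ hm
  set V := ∑ v, (G.degree v : ℝ) * (f v - c) ^ 2 with hV
  have hV0 : 0 ≤ V := by
    apply Finset.sum_nonneg
    intro v _
    positivity
  set E := ((1 / 2 : ℝ) * ∑ u, ∑ v, (if G.Adj u v then (f u - f v) ^ 2 else 0)) with hE
  set K := (1 + ε) * (2 * (G.edgeFinset.card : ℝ) ^ 2 / Real.pi ^ 2) with hK
  have hK0 : 0 ≤ K := by
    have : 0 ≤ 1 + ε := by linarith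
    positivity
  calc V = 1 * V := by ring
    _ ≤ (K * (1 - Real.cos (Real.pi / G.edgeFinset.card))) * V :=
      mul_le_mul_of_nonneg_right h1 hV0
    _ = K * ((1 - Real.cos (Real.pi / G.edgeFinset.card)) * V) := by ring
    _ ≤ K * E := mul_le_mul_of_nonneg_left hc hK0

end Pool.Agent.S12199
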