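import Pool.Statements.S12606
import Pool.Agent.Results.MP_fd346d_co.Disproof

set_option autoImplicit false
open scoped Classical
open Pool Pool.MP_fd346d_co

namespace Pool.Agent.S12606

open Pool.Agent.Results.MP_fd346d_co.Disproof in
theorem real_iff (P : Type) [PartialOrder P] (d : ℕ) :
    Realizable P d ↔ ∃ r : Fin d → P → P → Prop,
        (∀ i, (∀ x, r i x x) ∧ (∀ x y z, r i x y → r i y z → r i x z) ∧
          (∀ x y, r i x y → r i y x → x = y) ∧ (∀ x y, r i x y ∨ r i y x)) ∧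
        ∀ x y, x ≤ y ↔ ∀ i, r i x y := by
  constructor
  · rintro ⟨L, h1, h2, h3⟩
    refine ⟨L, fun i => ?_, fun x y => ⟨fun h i => h2 i x y h, h3 x y⟩⟩
    have := h1 i
    exact ⟨fun x => refl_of (L i) x, fun x y z => trans_of (L i), fun x y => antisymm_of (L i),
      fun x y => total_of (L i) x y⟩
  · rintro ⟨r, h1, h2⟩
    refine ⟨r, fun i => ?_, fun i x y h => (h2 x y).1 h i, fun x y h => (h2 x y).2 h⟩
    obtain ⟨a, b, c, d⟩ := h1 i
    exact { refl := a, trans := b, antisymm := c, total := d }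

open Pool.Agent.Results.MP_fd346d_co.Disproof in
theorem nontriv (P Q : Type) [PartialOrder P] [PartialOrder Q] [Nonempty P] (k : ℕ)
    (h : dim (P × Q) + 1 + k < dim P + dim Q) : Nontrivial P := by
  by_contra hn
  rw [not_nontrivial_iff_subsingleton] at hn
  obtain ⟨p0⟩ := ‹Nonempty P›
  have h0 : dim P ≤ ((0 : ℕ) : ℕ∞) := by
    apply dim_le
    refine ⟨fun i => i.elim0, fun i => i.elim0, fun i => i.elim0, fun x y _ => ?_⟩
    rw [Subsingleton.elim x y]
  have h1 : dim Q ≤ dim (P × Q) := by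
    unfold dim
    refine le_iInf₂ fun d hd => iInf₂_le d ?_
    have emb : Q ↪o P × Q :=
      { toFun := fun q => (p0, q)
        inj' := fun a b hab => (Prod.mk.inj hab).2
        map_rel_iff' := by
          intro a b
          exact ⟨fun h => h.2, fun h => ⟨le_refl _, h⟩⟩ }
    exact Realizable.of_embedding emb hd
  have h2 : dim P + dim Q ≤ dim (P × Q) := by
    calc dim P + dim Q ≤ ((0 : ℕ) : ℕ∞) + dim (P × Q) := add_le_add h0 h1
      _ = dim (P × Q) := by simp
  have h3 := lt_of_lt_of_le h h2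
  rw [add_assoc] at h3
  exact absurd h3 (not_lt.2 le_self_add)

open Pool.Agent.Results.MP_fd346d_co.Disproof in
theorem nontriv' (P Q : Type) [PartialOrder P] [PartialOrder Q] [Nonempty Q] (k : ℕ)
    (h : dim (P × Q) + 1 + k < dim P + dim Q) : Nontrivial Q := by
  by_contra hn
  rw [not_nontrivial_iff_subsingleton] at hn
  obtain ⟨q0⟩ := ‹Nonempty Q›
  have h0 : dim Q ≤ ((0 : ℕ) : ℕ∞) := by
    apply dim_le
    refine ⟨fun i => i.elim0, fun i => i.elim0, fun i => i.elim0, fun x y _ => ?_⟩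
    rw [Subsingleton.elim x y]
  have h1 : dim P ≤ dim (P × Q) := by
    unfold dim
    refine le_iInf₂ fun d hd => iInf₂_le d ?_
    have emb : P ↪o P × Q :=
      { toFun := fun p => (p, q0)
        inj' := fun a b hab => (Prod.mk.inj hab).1
        map_rel_iff' := by
          intro a b
          exact ⟨fun h => h.1, fun h => ⟨h, le_refl _⟩⟩ }
    exact Realizable.of_embedding emb hd
  have h2 : dim P + dim Q ≤ dim (P × Q) := by
    calc dim P + dim Q ≤ dim (P × Q) + ((0 : ℕ) : ℕ∞) := add_le_add h1 h0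
      _ = dim (P × Q) := by simp
  have h3 := lt_of_lt_of_le h h2
  rw [add_assoc] at h3
  exact absurd h3 (not_lt.2 le_self_add)

/-- The negation of the preceding statement: For all posets P, Q with at least two elements and finite dimension, dim P + dim Q ≤ dim(P×Q) + b, where b counts the factors lacking a least or greatest element; dimension means the least number of linear orders whose intersection is the order. -/
theorem result :
    ¬ (∀ (P Q : Type) [PartialOrder P] [PartialOrder Q], Nontrivial P → Nontrivial Q →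
      (∃ d : ℕ, ∃ r : Fin d → P → P → Prop,
        (∀ i, (∀ x, r i x x) ∧ (∀ x y z, r i x y → r i y z → r i x z) ∧
          (∀ x y, r i x y → r i y x → x = y) ∧ (∀ x y, r i x y ∨ r i y x)) ∧
        ∀ x y, x ≤ y ↔ ∀ i, r i x y) →
      (∃ d : ℕ, ∃ r : Fin d → Q → Q → Prop,
        (∀ i, (∀ x, r i x x) ∧ (∀ x y z, r i x y → r i y z → r i x z) ∧
          (∀ x y, r i x y → r i y x → x = y) ∧ (∀ x y, r i x y ∨ r i y x)) ∧
        ∀ x y, x ≤ y ↔ ∀ i, r i x y) →
      ∀ n : ℕ,
        (∃ r : Fin n → P × Q → P × Q → Prop,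
          (∀ i, (∀ x, r i x x) ∧ (∀ x y z, r i x y → r i y z → r i x z) ∧
            (∀ x y, r i x y → r i y x → x = y) ∧ (∀ x y, r i x y ∨ r i y x)) ∧
          ∀ x y, x ≤ y ↔ ∀ i, r i x y) →
        ∃ a c : ℕ,
          a + c ≤ n + ((if (∃ x : P, ∀ y, x ≤ y) ∧ (∃ x : P, ∀ y, y ≤ x) then 0 else 1) +
                       (if (∃ x : Q, ∀ y, x ≤ y) ∧ (∃ x : Q, ∀ y, y ≤ x) then 0 else 1)) ∧
          (∃ r : Fin a → P → P → Prop,
            (∀ i, (∀ x, r i x x) ∧ (∀ x y z, r i x y → r i y z → r i x z) ∧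
              (∀ x y, r i x y → r i y x → x = y) ∧ (∀ x y, r i x y ∨ r i y x)) ∧
            ∀ x y, x ≤ y ↔ ∀ i, r i x y) ∧
          (∃ r : Fin c → Q → Q → Prop,
            (∀ i, (∀ x, r i x x) ∧ (∀ x y z, r i x y → r i y z → r i x z) ∧
              (∀ x y, r i x y → r i y x → x = y) ∧ (∀ x y, r i x y ∨ r i y x)) ∧
            ∀ x y, x ≤ y ↔ ∀ i, r i x y)) := by
  intro h
  obtain ⟨P, Q, iP, iQ, -, -, hnP, hnQ, hdP, hdQ, hb, hlt⟩ :=
    Pool.Agent.Results.MP_fd346d_co.Disproof.result 0 1 (Or.inl rfl)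
  rw [Nat.cast_one] at hlt
  have htP := nontriv P Q 0 hlt
  have htQ := nontriv' P Q 0 hlt
  have hex : ∀ (X : Type) [PartialOrder X], Pool.Agent.Results.MP_fd346d_co.Disproof.dim X ≠ ⊤ →
      ∃ d, Pool.Agent.Results.MP_fd346d_co.Disproof.Realizable X d := by
    intro X _ hX
    by_contra hcon
    push Not at hcon
    apply hX
    unfold Pool.Agent.Results.MP_fd346d_co.Disproof.dim
    simp only [iInf_eq_top]
    intro d hd
    exact absurd hd (hcon d)
  obtain ⟨dP, hP⟩ := hex P hdP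
  obtain ⟨dQ, hQ⟩ := hex Q hdQ
  have hPQ : Pool.Agent.Results.MP_fd346d_co.Disproof.dim (P × Q) ≠ ⊤ := by
    intro htop
    rw [htop] at hlt
    simp at hlt
  obtain ⟨d', hd'⟩ := hex (P × Q) hPQ
  obtain ⟨n, hn, hn'⟩ := Pool.Agent.Results.MP_fd346d_co.Disproof.exists_dim_eq hd'
  obtain ⟨a, c, hac, ha, hc⟩ := h P Q htP htQ ⟨dP, (real_iff P dP).1 hP⟩ ⟨dQ, (real_iff Q dQ).1 hQ⟩ n
    ((real_iff (P × Q) n).1 hn')
  have ha' := Pool.Agent.Results.MP_fd346d_co.Disproof.dim_le ((real_iff P a).2 ha)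
  have hc' := Pool.Agent.Results.MP_fd346d_co.Disproof.dim_le ((real_iff Q c).2 hc)
  have hb' : ((if (∃ x : P, ∀ y, x ≤ y) ∧ (∃ x : P, ∀ y, y ≤ x) then 0 else 1) +
      (if (∃ x : Q, ∀ y, x ≤ y) ∧ (∃ x : Q, ∀ y, y ≤ x) then 0 else 1) : ℕ) = 1 := by
    unfold Pool.Agent.Results.MP_fd346d_co.Disproof.numUnbdd
      Pool.Agent.Results.MP_fd346d_co.Disproof.IsBdd at hb
    convert hb
  rw [hb'] at hac
  rw [hn] at hlt
  have h5 : Pool.Agent.Results.MP_fd346d_co.Disproof.dim P +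
      Pool.Agent.Results.MP_fd346d_co.Disproof.dim Q ≤ ((a + c : ℕ) : ℕ∞) := by
    push_cast
    exact add_le_add ha' hc'
  have h6 := lt_of_lt_of_le hlt h5
  have h7 : (n : ℕ∞) + 1 + ((0 : ℕ) : ℕ∞) = ((n + 1 : ℕ) : ℕ∞) := by push_cast; simp
  rw [h7] at h6
  have h8 : n + 1 < a + c := by exact_mod_cast h6
  omega

end Pool.Agent.S12606
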