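import Pool.Statements.S12948
import Pool.Agent.X179.Zonoid
import Pool.Agent.Results.MP_2c1b2b_gt.LinearSegments

set_option autoImplicit false
open Pointwise
open Pool Pool.MP_2c1b2b_gt

namespace Pool.Agent.S12948

open Pool.Agent.X179.Zonoid in
/-- The negation of the preceding statement: For some ε>0 and every constant C, there is a dimension n and a zonoid K in ℝⁿ that is not within Banach–Mazur distance 1+ε of any sum of at most C·n segments, i.e. the bound C(ε)·n fails in general. -/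
theorem result :
    ¬ (∃ ε : ℝ, 0 < ε ∧ ∀ C : ℝ, ∃ n : ℕ, ∃ K : Set (EuclideanSpace ℝ (Fin n)),
      IsCompact K ∧ (interior K).Nonempty ∧
      (∀ δ : ℝ, 0 < δ → ∃ m : ℕ, ∃ v : Fin m → EuclideanSpace ℝ (Fin n),
          Metric.hausdorffDist K (∑ i, segment ℝ (-v i) (v i)) < δ) ∧
      ¬ ∃ m : ℕ, (m : ℝ) ≤ C * n ∧
          ∃ v : Fin m → EuclideanSpace ℝ (Fin n),
          ∃ T : EuclideanSpace ℝ (Fin n) ≃ₗ[ℝ] EuclideanSpace ℝ (Fin n),
            T '' K ⊆ ∑ i, segment ℝ (-v i) (v i) ∧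
            ∑ i, segment ℝ (-v i) (v i) ⊆ (1 + ε) • (T '' K)) := by
  rintro ⟨ε, hε, H⟩
  obtain ⟨C, -, hC⟩ := Pool.Agent.Results.MP_2c1b2b_gt.LinearSegments.result
  set e : ℝ := min ε (1 / 2) with he
  have he0 : 0 < e := lt_min hε (by norm_num)
  have he1 : e < 1 := lt_of_le_of_lt (min_le_right _ _) (by norm_num)
  obtain ⟨n, K, hK, hint, hlim, hno⟩ := H (C / e ^ 2)
  apply hno
  have hne : K.Nonempty := hint.mono interior_subset
  have hconv := lim_convex hK hne hlim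
  have hZ : Pool.Agent.Results.MP_2c1b2b_gt.LinearSegments.IsZonoid K := by
    refine ⟨hconv, hK, hint, lim_symm hK hne hlim, fun δ hδ => ?_⟩
    obtain ⟨m, v, h⟩ := hlim δ hδ
    refine ⟨m, _, ⟨0, v, rfl⟩, ?_⟩
    have : {x | ∃ y ∈ Pool.Agent.Results.MP_2c1b2b_gt.LinearSegments.segSum v, x = 0 + y} =
        ∑ i, segment ℝ (-v i) (v i) := by
      ext x
      rw [mem_sum]
      constructor
      · rintro ⟨y, ⟨t, ht, rfl⟩, rfl⟩
        exact ⟨t, ht, zero_add _⟩
      · rintro ⟨t, ht, rfl⟩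
        exact ⟨_, ⟨t, ht, rfl⟩, (zero_add _).symm⟩
    rw [this]
    exact h
  obtain ⟨-, M, v, hM, h1, h2⟩ := hC n K hZ e he0 he1
  have hsum : ∑ i, segment ℝ (-v i) (v i) =
      Pool.Agent.Results.MP_2c1b2b_gt.LinearSegments.segSum v := by
    ext x
    rw [mem_sum]
    rfl
  refine ⟨M, hM, v, LinearEquiv.smulOfNeZero ℝ _ (1 + e)⁻¹ (by positivity), ?_, ?_⟩
  · rintro _ ⟨x, hx, rfl⟩
    rw [hsum]
    obtain ⟨y, hy, hxy⟩ := h2 hx
    have : (LinearEquiv.smulOfNeZero ℝ (EuclideanSpace ℝ (Fin n)) (1 + e)⁻¹ (by positivity)) x =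
        y := by
      simp only [LinearEquiv.smulOfNeZero_apply, ← hxy, smul_smul]
      rw [inv_mul_cancel₀ (by positivity), one_smul]
    rw [this]
    exact hy
  · intro x hx
    rw [hsum] at hx
    have hxK := h1 hx
    -- `x = (1 + ε) • (1 + e)⁻¹ • k`, `k = ((1 + e) / (1 + ε)) • x ∈ K`
    have h0K : (0 : EuclideanSpace ℝ (Fin n)) ∈ K := by
      have h3 := lim_symm hK hne hlim x hxK
      have h4 := hconv hxK h3 (by norm_num : (0 : ℝ) ≤ 1 / 2) (by norm_num : (0 : ℝ) ≤ 1 / 2)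
        (by norm_num)
      simpa using h4
    have hle : (1 + e) / (1 + ε) ≤ 1 := by
      rw [div_le_one (by positivity)]
      linarith [min_le_left ε (1 / 2)]
    have hk : ((1 + e) / (1 + ε)) • x ∈ K := by
      have h5 := hconv hxK h0K (show (0 : ℝ) ≤ (1 + e) / (1 + ε) by positivity)
        (show (0 : ℝ) ≤ 1 - (1 + e) / (1 + ε) by linarith) (by ring)
      simpa using h5
    refine ⟨_, ⟨_, hk, rfl⟩, ?_⟩
    simp only [LinearEquiv.smulOfNeZero_apply, smul_smul]
    have : (1 + ε) * ((1 + e)⁻¹ * ((1 + e) / (1 + ε))) = 1 := by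
      field_simp
    rw [this, one_smul]

end Pool.Agent.S12948
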