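import Pool.Statements.S13063

set_option autoImplicit false
open Pool Pool.MP_3f2f9c_gt

namespace Pool.Agent.S13063

/-- If a Tychonoff space is a countable union of compact subspaces, each being a Δ-space (every decreasing sequence of sets with empty intersection expands to decreasing open sets with empty intersection), then the whole space is a Δ-space. -/
theorem result :
    ∀ (X : Type) [TopologicalSpace X] [T35Space X] (K : ℕ → Set X),
      (∀ i, IsCompact (K i)) →
      (⋃ i, K i) = Set.univ →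
      (∀ (i : ℕ) (D : ℕ → Set ↥(K i)), Antitone D → (⋂ n, D n) = ∅ →
        ∃ U : ℕ → Set ↥(K i), (∀ n, IsOpen (U n)) ∧ (∀ n, D n ⊆ U n) ∧
          Antitone U ∧ (⋂ n, U n) = ∅) →
      ∀ D : ℕ → Set X, Antitone D → (⋂ n, D n) = ∅ →
        ∃ U : ℕ → Set X, (∀ n, IsOpen (U n)) ∧ (∀ n, D n ⊆ U n) ∧
          Antitone U ∧ (⋂ n, U n) = ∅ := by
  intro X _ _ K hK hcov hΔ D hD hD0
  have h1 : ∀ i, ∃ U : ℕ → Set ↥(K i), (∀ n, IsOpen (U n)) ∧ (∀ n, {y : ↥(K i) | (y : X) ∈ D n} ⊆ U n) ∧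
      Antitone U ∧ (⋂ n, U n) = ∅ := by
    intro i
    refine hΔ i (fun n => {y : ↥(K i) | (y : X) ∈ D n}) (fun m n hmn y hy => hD hmn hy) ?_
    rw [Set.eq_empty_iff_forall_notMem]
    intro y hy
    rw [Set.mem_iInter] at hy
    have : (y : X) ∈ ⋂ n, D n := Set.mem_iInter.2 fun n => hy n
    rw [hD0] at this
    exact this
  choose V hV1 hV2 hV3 hV4 using h1
  -- the largest open set of `X` whose trace on `K i` is `V i n`
  let O : ℕ → ℕ → Set X := fun i n => (Subtype.val '' (V i n)ᶜ)ᶜ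
  have hO : ∀ i n, IsOpen (O i n) := by
    intro i n
    have hcl : IsClosed (V i n)ᶜ := (hV1 i n).isClosed_compl
    have hc : CompactSpace ↥(K i) := isCompact_iff_compactSpace.1 (hK i)
    exact ((hcl.isCompact.image continuous_subtype_val).isClosed).isOpen_compl
  have hOmem : ∀ i n (y : ↥(K i)), (y : X) ∈ O i n → y ∈ V i n := by
    intro i n y hy
    by_contra hcon
    exact hy ⟨y, hcon, rfl⟩
  refine ⟨fun n => ⋂ i ∈ Set.Iic n, O i n, fun n => ?_, fun n x hx => ?_, fun m n hmn x hx => ?_, ?_⟩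
  · exact (Set.finite_Iic n).isOpen_biInter fun i _ => hO i n
  · refine Set.mem_iInter₂.2 fun i _ => ?_
    rintro ⟨y, hy, rfl⟩
    exact hy (hV2 i n hx)
  · rw [Set.mem_iInter₂] at hx
    refine Set.mem_iInter₂.2 fun i hi => ?_
    rintro ⟨y, hy, rfl⟩
    exact hy (hV3 i hmn (hOmem i n y (hx i (le_trans hi hmn))))
  · rw [Set.eq_empty_iff_forall_notMem]
    intro x hx
    have hx0 : x ∈ ⋃ i, K i := by rw [hcov]; trivial
    obtain ⟨i, hi⟩ := Set.mem_iUnion.1 hx0
    have h2 : (⟨x, hi⟩ : ↥(K i)) ∈ ⋂ n, V i n := by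
      refine Set.mem_iInter.2 fun n => ?_
      have h3 := Set.mem_iInter₂.1 (Set.mem_iInter.1 hx (max i n)) i (le_max_left i n)
      exact hV3 i (le_max_right i n) (hOmem i _ ⟨x, hi⟩ h3)
    rw [hV4] at h2
    exact h2

end Pool.Agent.S13063
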