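import Pool.Statements.S13073
import Pool.Agent.W595.S13073Aux
import Pool.Agent.Results.MP_4139f5_gt.TightSurfacePolytope

set_option autoImplicit false
open scoped Manifold
open CategoryTheory AlgebraicTopology
open Pool Pool.MP_4139f5_gt

namespace Pool.Agent.S13073

open scoped InnerProductSpace in
lemma substantial_of_span {M : Type} {N : ℕ} (f : M → EuclideanSpace ℝ (Fin N))
    (h : affineSpan ℝ (Set.range f) = ⊤) :
    Pool.Agent.Helper775.Tight.Substantial f := by
  intro z t hz
  by_contra hcon
  push Not at hcon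
  -- the functional is constant on the whole space
  have key : ∀ y : EuclideanSpace ℝ (Fin N), ⟪z, y⟫_ℝ = t := by
    intro y
    have hy : y ∈ affineSpan ℝ (Set.range f) := by rw [h]; trivial
    have hle : affineSpan ℝ (Set.range f) ≤
        (AffineSubspace.mk' t (⊥ : Submodule ℝ ℝ)).comap
          ((innerSL ℝ z).toLinearMap.toAffineMap) := by
      rw [affineSpan_le]
      rintro _ ⟨x, rfl⟩
      simp [hcon x]
    have h2 := hle hy
    simpa [sub_eq_zero] using h2
  have h0 := key 0
  have h1 := key z
  rw [inner_zero_right] at h0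
  rw [← h0] at h1
  exact hz (inner_self_eq_zero.1 h1)

/-- For N at least 4, any continuous locally injective map of a compact connected surface with nonempty boundary into R^N, whose image spans R^N affinely and whose half-space preimages inject on mod-2 H0 and H1, has a convex hull spanned by finitely many points. -/
theorem result :
  ∀ (N : ℕ), 4 ≤ N →
  ∀ (M : Type) [TopologicalSpace M] [T2Space M] [CompactSpace M] [ConnectedSpace M]
    [ChartedSpace (EuclideanHalfSpace 2) M], IsManifold (𝓡∂ 2) 0 M →
    ((𝓡∂ 2).boundary M).Nonempty →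
  ∀ f : M → EuclideanSpace ℝ (Fin N), Continuous f →
    (∀ x : M, ∃ U ∈ nhds x, Set.InjOn f U) →
    affineSpan ℝ (Set.range f) = ⊤ →
    (∀ (l : EuclideanSpace ℝ (Fin N) →L[ℝ] ℝ), l ≠ 0 → ∀ c : ℝ, ∀ k : ℕ, k ≤ 1 →
      Mono (((singularHomologyFunctor (ModuleCat.{0} (ZMod 2)) k).obj
          (ModuleCat.of (ZMod 2) (ZMod 2))).map
        (TopCat.ofHom ⟨Subtype.val, continuous_subtype_val⟩ :
          TopCat.of ↥(f ⁻¹' {y | c ≤ l y}) ⟶ TopCat.of M))) →
    ∃ S : Finset (EuclideanSpace ℝ (Fin N)),
      convexHull ℝ (Set.range f) = convexHull ℝ (↑S : Set (EuclideanSpace ℝ (Fin N))) := by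
  intro N hN M _ _ _ _ _ _ hb f hf hloc hspan hmono
  haveI : LocallyPathConnectedSpace M :=
    ChartedSpace.locallyPathConnectedSpace (EuclideanHalfSpace 2) M
  haveI : PathConnectedSpace M := pathConnectedSpace_iff_connectedSpace.2 inferInstance
  refine Pool.Agent.Results.MP_4139f5_gt.TightSurfacePolytope.result hb hN f hf hloc
    (substantial_of_span f hspan) (Or.inl ?_)
  intro z c hz
  have hl : innerSL ℝ z ≠ 0 := by
    intro h0
    have h1 : (innerSL ℝ z) z = 0 := by rw [h0]; rfl
    rw [innerSL_apply_apply] at h1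
    exact hz (inner_self_eq_zero.1 h1)
  have h0 := hmono (innerSL ℝ z) hl c 0 (by norm_num)
  have h1 := hmono (innerSL ℝ z) hl c 1 le_rfl
  refine ⟨Pool.Agent.W595.Bridge.preconnected_of_mono _ h0, ?_⟩
  intro u hu hcyc hbd
  exact Pool.Agent.W595.Bridge.inj_of_mono _ 1 h1 u hu hcyc hbd

end Pool.Agent.S13073
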