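import Pool.Statements.S13092
import Pool.Agent.X173.HT

set_option autoImplicit false
open LaurentPolynomial
open scoped Matrix
open Pool Pool.MP_436001_gt

namespace Pool.Agent.S13092

open Pool.Agent.X173.HT

/-- `LM` at `t = 1` -/
def G0 : Matrix (Fin 4) (Fin 4) ℤ := !![7, 6, 3, 2; 6, 7, 2, 3; 3, 2, 2, 0; 2, 3, 0, 2]

/-- inverse of `G0` -/
def G0i : Matrix (Fin 4) (Fin 4) ℤ :=
  !![2, 0, -3, -2; 0, 2, -2, -3; -3, -2, 7, 6; -2, -3, 6, 7]

theorem G0_unit : IsUnit G0.det := by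
  have : G0 * G0i = 1 := by decide
  exact (Matrix.isUnit_iff_isUnit_det _).mp (IsUnit.of_mul_eq_one _ this)

theorem L_herm : ((LM (T 1 : LaurentPolynomial ℤ) (T (-1))).map sg)ᵀ = LM (T 1) (T (-1)) := by
  rw [LM_map, sg_T, sg_T, neg_neg, LM_T]

theorem L_det : (LM (T 1 : LaurentPolynomial ℤ) (T (-1))).det ≠ 0 := by
  have h := linv (T 1 : LaurentPolynomial ℤ) (T (-1)) tu
  intro h0
  have := congrArg Matrix.det h
  rw [Matrix.det_mul, h0, zero_mul, Matrix.det_one] at this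
  exact zero_ne_one this

theorem L_ep : (LM (T 1 : LaurentPolynomial ℤ) (T (-1))).map ep = G0 := by
  rw [LM_map, ep_T1, ep_Tm1]
  ext i j
  fin_cases i <;> fin_cases j <;> simp [LM, G0]

/-- the index type of `LM ⊕ H2` -/
def E6 : (Fin 4 ⊕ Fin 2 × Fin 1) ≃ Fin 6 :=
  (Equiv.sumCongr (Equiv.refl (Fin 4)) (Equiv.prodUnique (Fin 2) (Fin 1))).trans finSumFinEquiv

theorem E6_inl (i : Fin 4) : E6 (Sum.inl i) = Fin.castAdd 2 i := rfl

theorem E6_inr (i : Fin 2) (a : Fin 1) : E6 (Sum.inr (i, a)) = Fin.natAdd 4 i := rfl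

theorem PM_star : ((PM (T 1 : LaurentPolynomial ℤ) (T (-1))).map sg)ᵀ = PS (T 1) (T (-1)) := by
  rw [PM_map, sg_T, sg_T, neg_neg, PM_T]

theorem blockM (L : Matrix (Fin 4) (Fin 4) (LaurentPolynomial ℤ))
    (M : Matrix (Fin 6) (Fin 6) (LaurentPolynomial ℤ))
    (h : ∀ i j : Fin 4, M (Fin.castAdd 2 i) (Fin.castAdd 2 j) = L i j)
    (h1 : ∀ (i : Fin 4) (j : Fin 2), M (Fin.castAdd 2 i) (Fin.natAdd 4 j) = 0)
    (h2 : ∀ (i : Fin 2) (j : Fin 4), M (Fin.natAdd 4 i) (Fin.castAdd 2 j) = 0)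
    (h3 : ∀ (i j : Fin 2), M (Fin.natAdd 4 i) (Fin.natAdd 4 j) =
      (!![0, T 1 - 1; T (-1) - 1, 0] : Matrix (Fin 2) (Fin 2) (LaurentPolynomial ℤ)) i j) :
    Matrix.fromBlocks L 0 0 (Matrix.blockDiagonal
      (fun _ : Fin 1 => (!![0, T 1 - 1; T (-1) - 1, 0] : Matrix (Fin 2) (Fin 2) (LaurentPolynomial ℤ))))
      = M.submatrix E6 E6 := by
  ext1 i j
  rcases i with i | ⟨i, a⟩ <;> rcases j with j | ⟨j, b⟩
  · simp [E6_inl, h]
  · simp [E6_inl, E6_inr, h1]
  · simp [E6_inl, E6_inr, h2]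
  · have hab : a = b := Subsingleton.elim _ _
    subst hab
    simp only [Matrix.submatrix_apply, E6_inr, h3, Matrix.fromBlocks_apply₂₂,
      Matrix.blockDiagonal_apply, if_true]

theorem MM_block : Matrix.fromBlocks (LM (T 1 : LaurentPolynomial ℤ) (T (-1))) 0 0
    (Matrix.blockDiagonal
      (fun _ : Fin 1 => (!![0, T 1 - 1; T (-1) - 1, 0] : Matrix (Fin 2) (Fin 2) (LaurentPolynomial ℤ))))
      = (MM (T 1) (T (-1))).submatrix E6 E6 := by
  apply blockM
  · intro i j; fin_cases i <;> fin_cases j <;> rfl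
  · intro i j; fin_cases i <;> fin_cases j <;> rfl
  · intro i j; fin_cases i <;> fin_cases j <;> rfl
  · intro i j; fin_cases i <;> fin_cases j <;>
      simp [MM, Fin.natAdd, -T_zero] <;> ring

theorem TT_block : Matrix.fromBlocks (G0.map (Int.castRingHom (LaurentPolynomial ℤ))) 0 0
    (Matrix.blockDiagonal
      (fun _ : Fin 1 => (!![0, T 1 - 1; T (-1) - 1, 0] : Matrix (Fin 2) (Fin 2) (LaurentPolynomial ℤ))))
      = (TT (T 1) (T (-1))).submatrix E6 E6 := by
  apply blockM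
  · intro i j; fin_cases i <;> fin_cases j <;> simp [TT, G0, Fin.castAdd, Fin.castLE]
  · intro i j; fin_cases i <;> fin_cases j <;> rfl
  · intro i j; fin_cases i <;> fin_cases j <;> rfl
  · intro i j; fin_cases i <;> fin_cases j <;>
      simp [TT, Fin.natAdd, -T_zero] <;> ring

/-- The negation of the preceding statement: Suppose a nondegenerate Hermitian Laurent-polynomial form L has boundary linking form isometric to that of H2^g, L at t=1 equals Q plus 2g zeros, and L plus n H2's ≅ Q plus (g+n) H2's. Then L ≅ Q ⊕ H2^g. -/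
theorem result :
    ¬ (∀ (σ : LaurentPolynomial ℤ →+* LaurentPolynomial ℤ) (ε : LaurentPolynomial ℤ →+* ℤ),
      σ (T 1) = T (-1) → ε (T 1) = 1 →
      ∀ (H2 : Matrix (Fin 2) (Fin 2) (LaurentPolynomial ℤ)),
        H2 = !![0, T 1 - 1; T (-1) - 1, 0] →
      ∀ (k : ℕ) (Q : Matrix (Fin k) (Fin k) ℤ), Qᵀ = Q → IsUnit Q.det →
      ∀ (g r : ℕ) (L : Matrix (Fin r) (Fin r) (LaurentPolynomial ℤ)),
        (L.map σ)ᵀ = L → L.det ≠ 0 →
        (∃ (P Q1 : Matrix (Fin 2 × Fin g) (Fin r) (LaurentPolynomial ℤ))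
            (P' Q2 : Matrix (Fin r) (Fin 2 × Fin g) (LaurentPolynomial ℤ))
            (S1 M : Matrix (Fin r) (Fin r) (LaurentPolynomial ℤ))
            (S2 : Matrix (Fin 2 × Fin g) (Fin 2 × Fin g) (LaurentPolynomial ℤ)),
            P * L = Matrix.blockDiagonal (fun _ : Fin g => H2) * Q1 ∧
            P' * Matrix.blockDiagonal (fun _ : Fin g => H2) = L * Q2 ∧
            P' * P = 1 + L * S1 ∧
            P * P' = 1 + Matrix.blockDiagonal (fun _ : Fin g => H2) * S2 ∧
            (L.map (algebraMap (LaurentPolynomial ℤ) (FractionRing (LaurentPolynomial ℤ))))⁻¹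
              - ((P.map σ)ᵀ).map (algebraMap (LaurentPolynomial ℤ) (FractionRing (LaurentPolynomial ℤ)))
                * ((Matrix.blockDiagonal (fun _ : Fin g => H2)).map
                    (algebraMap (LaurentPolynomial ℤ) (FractionRing (LaurentPolynomial ℤ))))⁻¹
                * P.map (algebraMap (LaurentPolynomial ℤ) (FractionRing (LaurentPolynomial ℤ)))
              = M.map (algebraMap (LaurentPolynomial ℤ) (FractionRing (LaurentPolynomial ℤ)))) →
        (∃ (P : Matrix (Fin r) (Fin k ⊕ Fin 2 × Fin g) ℤ)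
            (P' : Matrix (Fin k ⊕ Fin 2 × Fin g) (Fin r) ℤ),
            P * P' = 1 ∧ P' * P = 1 ∧
            Pᵀ * L.map ε * P = Matrix.fromBlocks Q 0 0 0) →
        (∃ (n : ℕ) (P : Matrix (Fin r ⊕ Fin 2 × Fin n) (Fin k ⊕ Fin 2 × Fin (g + n)) (LaurentPolynomial ℤ))
            (P' : Matrix (Fin k ⊕ Fin 2 × Fin (g + n)) (Fin r ⊕ Fin 2 × Fin n) (LaurentPolynomial ℤ)),
            P * P' = 1 ∧ P' * P = 1 ∧
            (P.map σ)ᵀ * Matrix.fromBlocks L 0 0 (Matrix.blockDiagonal (fun _ : Fin n => H2)) * P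
              = Matrix.fromBlocks (Q.map (Int.castRingHom (LaurentPolynomial ℤ))) 0 0
                  (Matrix.blockDiagonal (fun _ : Fin (g + n) => H2))) →
        ∃ (P : Matrix (Fin r) (Fin k ⊕ Fin 2 × Fin g) (LaurentPolynomial ℤ))
          (P' : Matrix (Fin k ⊕ Fin 2 × Fin g) (Fin r) (LaurentPolynomial ℤ)),
          P * P' = 1 ∧ P' * P = 1 ∧
          (P.map σ)ᵀ * L * P
            = Matrix.fromBlocks (Q.map (Int.castRingHom (LaurentPolynomial ℤ))) 0 0
                (Matrix.blockDiagonal (fun _ : Fin g => H2))) := by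
  intro H
  have htu : (T 1 : LaurentPolynomial ℤ) * T (-1) = 1 := tu
  have H1 := H sg ep (sg_T 1) ep_T1 _ rfl 4 G0 (by decide) G0_unit 0 4
    (LM (T 1) (T (-1))) L_herm L_det
    (by
      refine ⟨0, 0, 0, 0, -(LI (T 1) (T (-1))), (LI (T 1) (T (-1))), 0, ?_, ?_, ?_, ?_, ?_⟩
      · ext i j; exact i.2.elim0
      · ext i j; exact j.2.elim0
      · rw [Matrix.mul_neg, linv _ _ htu]
        simp
      · ext i j; exact i.2.elim0
      · have e : (LM (T 1 : LaurentPolynomial ℤ) (T (-1))).map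
            (algebraMap (LaurentPolynomial ℤ) (FractionRing (LaurentPolynomial ℤ))) *
            (LI (T 1 : LaurentPolynomial ℤ) (T (-1))).map
            (algebraMap (LaurentPolynomial ℤ) (FractionRing (LaurentPolynomial ℤ))) = 1 := by
          rw [← Matrix.map_mul, linv _ _ htu]
          simp
        rw [Matrix.inv_eq_right_inv e]
        simp)
    (by
      refine ⟨(1 : Matrix (Fin 4) (Fin 4) ℤ).submatrix (Equiv.refl _) (Equiv.sumEmpty (Fin 4) (Fin 2 × Fin 0)),
        (1 : Matrix (Fin 4) (Fin 4) ℤ).submatrix (Equiv.sumEmpty (Fin 4) (Fin 2 × Fin 0)) (Equiv.refl _),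
        ?_, ?_, ?_⟩
      · rw [Matrix.submatrix_mul_equiv]; simp
      · rw [Matrix.submatrix_mul_equiv, one_mul]
        exact Matrix.submatrix_one_equiv _
      · rw [L_ep, Matrix.transpose_submatrix, Matrix.transpose_one]
        have e : G0 = G0.submatrix (Equiv.refl (Fin 4)) (Equiv.refl (Fin 4)) := by simp
        rw [e, Matrix.submatrix_mul_equiv, Matrix.submatrix_mul_equiv, one_mul, mul_one]
        ext i j
        rcases i with i | i
        · rcases j with j | j
          · simp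
          · exact j.2.elim0
        · exact i.2.elim0)
    (by
      refine ⟨1, (PM (T 1) (T (-1))).submatrix E6 E6, (PI (T 1) (T (-1))).submatrix E6 E6, ?_, ?_, ?_⟩
      · rw [Matrix.submatrix_mul_equiv, inv1 _ _ htu]
        exact Matrix.submatrix_one_equiv E6
      · rw [Matrix.submatrix_mul_equiv, inv2 _ _ htu]
        exact Matrix.submatrix_one_equiv E6
      · show (((PM (T 1 : LaurentPolynomial ℤ) (T (-1))).submatrix E6 E6).map sg)ᵀ *
          Matrix.fromBlocks (LM (T 1 : LaurentPolynomial ℤ) (T (-1))) 0 0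
            (Matrix.blockDiagonal (fun _ : Fin 1 =>
            (!![0, T 1 - 1; T (-1) - 1, 0] : Matrix (Fin 2) (Fin 2) (LaurentPolynomial ℤ)))) *
            (PM (T 1 : LaurentPolynomial ℤ) (T (-1))).submatrix E6 E6 =
          Matrix.fromBlocks (G0.map (Int.castRingHom (LaurentPolynomial ℤ))) 0 0
            (Matrix.blockDiagonal (fun _ : Fin 1 =>
            (!![0, T 1 - 1; T (-1) - 1, 0] : Matrix (Fin 2) (Fin 2) (LaurentPolynomial ℤ))))
        rw [MM_block, TT_block, ← Matrix.submatrix_map, Matrix.transpose_submatrix, PM_star,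
          Matrix.mul_assoc, Matrix.submatrix_mul_equiv, Matrix.submatrix_mul_equiv,
          step1 _ _ htu, step2 _ _ htu])
  obtain ⟨P, P', h1, h2, h3⟩ := H1
  -- a vector of norm one
  let c : (Fin 4 ⊕ Fin 2 × Fin 0) → LaurentPolynomial ℤ :=
    Sum.elim ![1, 0, -1, -1] (fun x => x.2.elim0)
  let v : Fin 4 → LaurentPolynomial ℤ := P.mulVec c
  apply no_norm_one v
  have hc : ∀ x, sg (c x) = c x := by
    rintro (x | x)
    · fin_cases x <;> simp [c]
    · exact x.2.elim0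
  have e1 : (fun i => sg (v i)) = Matrix.vecMul c (P.map sg)ᵀ := by
    funext i
    simp only [v, Matrix.mulVec, Matrix.vecMul, dotProduct, map_sum, map_mul, Matrix.transpose_apply,
      Matrix.map_apply, hc]
    refine Finset.sum_congr rfl fun x _ => mul_comm _ _
  have e2 : ∑ i, ∑ j, sg (v i) * LM (T 1) (T (-1)) i j * v j =
      Matrix.vecMul (Matrix.vecMul c (P.map sg)ᵀ) (LM (T 1) (T (-1))) ⬝ᵥ v := by
    rw [← e1]
    simp only [Matrix.vecMul, dotProduct, Finset.sum_mul]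
    rw [Finset.sum_comm]
  rw [e2]
  show Matrix.vecMul (Matrix.vecMul c (P.map sg)ᵀ) (LM (T 1) (T (-1))) ⬝ᵥ P.mulVec c = 1
  rw [Matrix.dotProduct_mulVec, Matrix.vecMul_vecMul, Matrix.vecMul_vecMul, ← Matrix.mul_assoc, h3]
  simp [Matrix.vecMul, dotProduct, Fintype.sum_sum_type, Fin.sum_univ_succ, c, G0]
  norm_num


end Pool.Agent.S13092
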