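import Pool.Statements.S13210
import Pool.Agent.X164.FlatBox3

set_option autoImplicit false
open MeasureTheory
open scoped Pointwise
open Pool Pool.MP_598757_gt
open Pool.Agent.X164

namespace Pool.Agent.S13210

/-- The negation of the preceding statement: For every convex body K in 3-space and real c: if every orthogonal plane projection has isoperimetric ratio π·area/V₁² at least c, then 9π·vol(K)²/(2·V₂(K)³) is at least c (V₁, V₂ given via Steiner-formula limits). -/
theorem result :
    ¬ (∀ (K : Set (EuclideanSpace ℝ (Fin 3))) (c : ℝ),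
    IsCompact K → Convex ℝ K → (interior K).Nonempty →
    (∀ u ∈ Metric.sphere (0 : EuclideanSpace ℝ (Fin 3)) 1, ∀ L : ℝ,
      Filter.Tendsto (fun t : ℝ =>
        ((volume ((fun x : EuclideanSpace ℝ (Fin 3) => x - (inner ℝ u x) • u) '' K
              + Metric.closedBall (0 : EuclideanSpace ℝ (Fin 3)) t)).toReal
          - 2 * t * ((volume (K + segment ℝ (0 : EuclideanSpace ℝ (Fin 3)) u)).toReal
              - (volume K).toReal)) / (Real.pi * t ^ 2))
        (nhdsWithin 0 (Set.Ioi 0)) (nhds L) →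
      c ≤ Real.pi * ((volume (K + segment ℝ (0 : EuclideanSpace ℝ (Fin 3)) u)).toReal
              - (volume K).toReal) / L ^ 2) →
    ∀ S : ℝ,
      Filter.Tendsto (fun t : ℝ =>
        ((volume (K + Metric.closedBall (0 : EuclideanSpace ℝ (Fin 3)) t)).toReal
          - (volume K).toReal) / (2 * t))
        (nhdsWithin 0 (Set.Ioi 0)) (nhds S) →
      c ≤ 9 * Real.pi * (volume K).toReal ^ 2 / (2 * S ^ 3)) := by
  intro H
  obtain ⟨h, hh⟩ : ∃ h : ℝ, h = 1 / 10 ^ 8 := ⟨_, rfl⟩
  have hpos : 0 < h := by rw [hh]; norm_num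
  have hle : h ≤ 1 := by rw [hh]; norm_num
  have hball : Sweep.vol (Metric.closedBall (0 : EuclideanSpace ℝ (Fin 3)) 6) = 288 * Real.pi := by
    unfold Sweep.vol
    rw [EuclideanSpace.volume_closedBall_fin_three, ENNReal.toReal_mul, ENNReal.toReal_pow,
      ENNReal.toReal_ofReal (by norm_num), ENNReal.toReal_ofReal (by positivity)]
    ring
  have key := H (FlatBox2.K h) (15 * h ^ 2) (FlatBox2.K_compact h) (FlatBox2.K_convex h)
    (FlatBox2.K_interior hpos) ?_ (1 + 2 * h) (FlatBox3.steiner_limit hpos)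
  · have hv : (volume (FlatBox2.K h)).toReal = h := FlatBox2.K_vol hpos
    rw [hv] at key
    have hpi := Real.pi_lt_d2
    have h1 : (1 : ℝ) ≤ (1 + 2 * h) ^ 3 := one_le_pow₀ (by linarith)
    rw [le_div_iff₀ (by positivity)] at key
    have h2 : 0 < h ^ 2 := by positivity
    nlinarith
  · intro u hu L hL
    have hu1 : ‖u‖ = 1 := by simpa using hu
    obtain ⟨v, w, hv, hw, huv, huw, hdec⟩ := FlatBox3.frame hu1
    have hα : (volume (FlatBox2.K h + segment ℝ (0 : EuclideanSpace ℝ (Fin 3)) u)).toReal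
        - (volume (FlatBox2.K h)).toReal = Sweep.ar u (FlatBox2.K h) := by
      rw [FlatBox3.add_segment]
      have h1 := Sweep.vol_swp u hu1 zero_le_one (FlatBox2.K_compact h) (FlatBox2.K_convex h)
      unfold Sweep.vol at h1
      linarith
    rw [hα]
    rw [FlatBox3.proj_formula hu1] at hL
    set X := (Submodule.span ℝ {u})ᗮ.starProjection '' (FlatBox2.K h) with hX
    have hXc : IsCompact X := (FlatBox2.K_compact h).image (by fun_prop)
    have hXk : Convex ℝ X := (FlatBox2.K_convex h).linear_image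
      ((Submodule.span ℝ {u})ᗮ.starProjection :
        EuclideanSpace ℝ (Fin 3) →ₗ[ℝ] EuclideanSpace ℝ (Fin 3))
    have hXp : ∀ x ∈ X, x ∈ (Submodule.span ℝ {u})ᗮ := by
      rintro _ ⟨y, -, rfl⟩
      exact Submodule.starProjection_apply_mem _ _
    have hX2 : X ⊆ Metric.closedBall 0 2 := by
      rintro _ ⟨y, hy, rfl⟩
      have h1 := FlatBox2.K_norm hle hy
      rw [mem_closedBall_zero_iff] at h1 ⊢
      exact (Submodule.norm_starProjection_apply_le _ _).trans h1
    have harX : Sweep.ar u X = Sweep.ar u (FlatBox2.K h) := Sweep.ar_proj u _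
    have hα0 := FlatBox2.ar_lower hpos hle hu1
    obtain ⟨β, hβ, hlow⟩ := FlatBox.lower hu1 hv huv hXc hXk hXp (by rw [harX]; exact lt_of_lt_of_le (half_pos hpos) hα0)
    rw [hα] at hL
    have hpi3 := Real.pi_gt_three
    have hpi := Real.pi_pos
    have hLup : L ≤ 2304 := by
      apply le_of_tendsto hL
      have h1 : ∀ᶠ t : ℝ in nhdsWithin 0 (Set.Ioi 0), t ≤ 1 := by
        have : Filter.Tendsto (fun t : ℝ => t) (nhdsWithin 0 (Set.Ioi 0)) (nhds 0) :=
          Filter.tendsto_id.mono_left nhdsWithin_le_nhds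
        exact (this.eventually_lt_const one_pos).mono fun t ht => ht.le
      filter_upwards [self_mem_nhdsWithin, h1] with t ht ht1
      have ht0 : 0 < t := ht
      have h2 := FlatBox.upper hu1 hv hw huv huw hdec hXc hXk hXp hX2 ht0 ht1
      rw [harX, hball] at h2
      unfold Sweep.vol at h2
      rw [div_le_iff₀ (by positivity)]
      nlinarith
    have hLlow : β / Real.pi ≤ L := by
      apply ge_of_tendsto hL
      filter_upwards [self_mem_nhdsWithin] with t ht
      have ht0 : 0 < t := ht
      have h2 := hlow t ht0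
      rw [harX] at h2
      unfold Sweep.vol at h2
      rw [le_div_iff₀ (by positivity)]
      have h3 : β / Real.pi * (Real.pi * t ^ 2) = t ^ 2 * β := by field_simp
      rw [h3]
      linarith
    have hL0 : 0 < L := lt_of_lt_of_le (by positivity) hLlow
    rw [le_div_iff₀ (by positivity)]
    have hL2 : L ^ 2 ≤ 2304 ^ 2 := pow_le_pow_left₀ hL0.le hLup 2
    have h5 : 15 * h ^ 2 * L ^ 2 ≤ 15 * h ^ 2 * 2304 ^ 2 := by gcongr
    have h6 : 15 * h ^ 2 * 2304 ^ 2 ≤ 3 * (h / 2) := by rw [hh]; norm_num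
    have h7 : 3 * (h / 2) ≤ Real.pi * Sweep.ar u (FlatBox2.K h) := by
      apply mul_le_mul hpi3.le hα0 (by positivity) hpi.le
    exact h5.trans (h6.trans h7)

end Pool.Agent.S13210
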