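import Pool.Statements.S13341
import Pool.Agent.X178.Nag.Main

set_option autoImplicit false
open Bundle
open scoped Manifold ContDiff
open Pool Pool.MP_6d5819_gt

namespace Pool.Agent.S13341

/-- For every compact simply connected Riemannian manifold whose points all have isometric symmetries with differential minus identity, if some antipodal finite set is larger than the total real Betti number, then some integral homology group has an element of order 2. -/
theorem result :
  ∀ (d : ℕ) (M : Type) [EMetricSpace M]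
    [ChartedSpace (EuclideanSpace ℝ (Fin d)) M]
    [IsManifold (𝓡 d) ∞ M]
    [RiemannianBundle (fun x : M ↦ TangentSpace (𝓡 d) x)]
    [IsContMDiffRiemannianBundle (𝓡 d) ∞ (EuclideanSpace ℝ (Fin d))
      (fun x : M ↦ TangentSpace (𝓡 d) x)]
    [IsRiemannianManifold (𝓡 d) M]
    [CompactSpace M] [SimplyConnectedSpace M]
    (s : M → M → M),
    (∀ x : M, Isometry (s x) ∧ s x x = x ∧
      mfderiv (𝓡 d) (𝓡 d) (s x) x = -ContinuousLinearMap.id ℝ (EuclideanSpace ℝ (Fin d))) →
    (∃ A : Finset M, (∀ x ∈ A, ∀ y ∈ A, s x y = y) ∧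
      (∑ i ∈ Finset.range (d + 1),
        Module.finrank ℝ
          ((((AlgebraicTopology.singularHomologyFunctor (ModuleCat.{0} ℝ) i).obj
            (ModuleCat.of ℝ ℝ)).obj (TopCat.of M) : ModuleCat.{0} ℝ) : Type)) < A.card) →
    ∃ i : ℕ, ∃ g : ((((AlgebraicTopology.singularHomologyFunctor (ModuleCat.{0} ℤ) i).obj
            (ModuleCat.of ℤ ℤ)).obj (TopCat.of M) : ModuleCat.{0} ℤ) : Type),
      addOrderOf g = 2 := by
  intro d M _ _ _ _ _ _ _ _ s hs ⟨A, hA, hlt⟩
  by_contra hcon
  push Not at hcon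
  letI : MetricSpace M := EMetricSpace.toMetricSpace
    (Pool.Agent.X178.Nag.edist_ne_top_of_preconnected)
  have hZ : ∀ i, ∀ c : Pool.Agent.TH592.Nag.Hm ℤ M i, (2 : ℤ) • c = 0 → c = 0 := by
    intro i c hc
    by_contra hne
    obtain ⟨e⟩ := Pool.Agent.TH592.Nag.bridge ℤ M i
    have hp : Fact (Nat.Prime 2) := ⟨Nat.prime_two⟩
    apply hcon i (e.symm c)
    apply addOrderOf_eq_prime
    · rw [← natCast_zsmul, ← map_zsmul, Nat.cast_ofNat, hc, map_zero]
    · rw [Ne, LinearEquiv.map_eq_zero_iff]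
      exact hne
  have h := Pool.Agent.X178.Nag.main_metric d M s hs A hA hZ
  have h2 : ∀ i, Module.finrank ℝ
          ((((AlgebraicTopology.singularHomologyFunctor (ModuleCat.{0} ℝ) i).obj
            (ModuleCat.of ℝ ℝ)).obj (TopCat.of M) : ModuleCat.{0} ℝ) : Type) =
      Module.finrank ℝ (Pool.Agent.TH592.Nag.Hm ℝ M i) := by
    intro i
    obtain ⟨e⟩ := Pool.Agent.TH592.Nag.bridge ℝ M i
    exact e.finrank_eq
  simp only [h2] at hlt
  exact absurd h (not_le.mpr hlt)

end Pool.Agent.S13341
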