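import Pool.Statements.S13574
import Pool.Agent.Results.MP_916210_gt.BetaOmega

set_option autoImplicit false
open Pool Pool.MP_916210_gt

namespace Pool.Agent.S13574

open Pool.Agent.Results.MP_916210_gt.BetaOmega

namespace W

/-- the topology of pointwise convergence -/
abbrev pw (X : Type*) [TopologicalSpace X] : TopologicalSpace C(X, ℝ) :=
  TopologicalSpace.induced (fun f : C(X, ℝ) => (f : X → ℝ)) inferInstance

/-- the identity between the two forms of `C_p(X)` -/
def toCp (X : Type*) [TopologicalSpace X] : C(X, ℝ) ≃ₗ[ℝ] Cp X where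
  toFun f := ⟨f, f.continuous⟩
  invFun f := ⟨f.1, f.2⟩
  map_add' _ _ := rfl
  map_smul' _ _ := rfl
  left_inv _ := rfl
  right_inv _ := rfl

theorem toCp_cont (X : Type*) [TopologicalSpace X] :
    @Continuous _ _ (pw X) inferInstance (toCp X) := by
  let _ := pw X
  exact Continuous.subtype_mk continuous_induced_dom _

theorem toCp_symm_cont (X : Type*) [TopologicalSpace X] :
    @Continuous _ _ inferInstance (pw X) (toCp X).symm := by
  let _ := pw X
  exact continuous_induced_rng.2 continuous_subtype_val

theorem lequiv_to {X Y : Type*} [TopologicalSpace X] [TopologicalSpace Y]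
    (h : LEquivalent X Y) :
    ∃ e : C(X, ℝ) ≃ₗ[ℝ] C(Y, ℝ),
      @Continuous _ _ (pw X) (pw Y) e ∧ @Continuous _ _ (pw Y) (pw X) e.symm := by
  obtain ⟨e⟩ := h
  let _ := pw X
  let _ := pw Y
  refine ⟨(toCp X).trans (e.toLinearEquiv.trans (toCp Y).symm), ?_, ?_⟩
  · exact (toCp_symm_cont Y).comp (e.continuous.comp (toCp_cont X))
  · exact (toCp_symm_cont X).comp (e.symm.continuous.comp (toCp_cont Y))

theorem lequiv_of {X Y : Type*} [TopologicalSpace X] [TopologicalSpace Y]
    (h : ∃ e : C(X, ℝ) ≃ₗ[ℝ] C(Y, ℝ),
      @Continuous _ _ (pw X) (pw Y) e ∧ @Continuous _ _ (pw Y) (pw X) e.symm) :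
    LEquivalent X Y := by
  obtain ⟨e, h1, h2⟩ := h
  let _ := pw X
  let _ := pw Y
  refine ⟨{ toLinearEquiv := (toCp X).symm.trans (e.trans (toCp Y))
            continuous_toFun := ?_
            continuous_invFun := ?_ }⟩
  · exact (toCp_cont Y).comp (h1.comp (toCp_symm_cont X))
  · exact (toCp_cont X).comp (h2.comp (toCp_symm_cont Y))

theorem lembedded_of {X : Type*} [TopologicalSpace X] {A : Set X}
    (h : ∃ φ : C(A, ℝ) →ₗ[ℝ] C(X, ℝ), @Continuous _ _ (pw A) (pw X) φ ∧
      ∀ f : C(A, ℝ), ∀ a : A, φ f a = f a) : IsLEmbedded A := by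
  obtain ⟨φ, h1, h2⟩ := h
  let _ := pw X
  let _ := pw A
  refine ⟨{ toLinearMap := (toCp X).toLinearMap.comp (φ.comp (toCp A).symm.toLinearMap)
            cont := (toCp_cont X).comp (h1.comp (toCp_symm_cont A)) }, ?_⟩
  intro f a
  exact h2 ((toCp A).symm f) a

/-- the homeomorphism between the two models of the convergent sequence -/
noncomputable def seqHomeo : OnePoint ℕ ≃ₜ ℕ∞ := by
  let f : OnePoint ℕ → ℕ∞ := fun x => OnePoint.elim x (⊤ : ℕ∞) (fun n : ℕ => (n : ℕ∞))
  have hf : Continuous f := by
    rw [OnePoint.continuous_iff_from_nat]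
    exact ENat.tendsto_natCast_nhds_top
  have hb : Function.Bijective f := by
    constructor
    · intro x y h
      induction x using OnePoint.rec with
      | infty =>
        induction y using OnePoint.rec with
        | infty => rfl
        | coe m => exact absurd h.symm (ENat.natCast_ne_top m)
      | coe n =>
        induction y using OnePoint.rec with
        | infty => exact absurd h (ENat.natCast_ne_top n)
        | coe m =>
          have h' : (n : ℕ∞) = (m : ℕ∞) := h
          have : n = m := by exact_mod_cast h'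
          rw [this]
    · intro y
      induction y using ENat.recTopCoe with
      | top => exact ⟨OnePoint.infty, rfl⟩
      | coe n => exact ⟨(n : OnePoint ℕ), rfl⟩
  exact Continuous.homeoOfEquivCompactToT2 (f := Equiv.ofBijective f hb) hf

end W

/-- The negation of the preceding statement: For every infinite Tychonoff space X: if C_p(X) is linearly homeomorphic to C_p(X ⊕ A) for each subspace A with a continuous linear extender, then C_p(X × convergent sequence) is linearly homeomorphic to C_p(X). -/
theorem result :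
    ¬ (∀ (X : Type) [TopologicalSpace X] [T35Space X] [Infinite X],
      (∀ A : Set X,
        (∃ φ : C(A, ℝ) →ₗ[ℝ] C(X, ℝ),
          @Continuous _ _
            (TopologicalSpace.induced (fun f : C(A, ℝ) => (f : A → ℝ)) inferInstance)
            (TopologicalSpace.induced (fun f : C(X, ℝ) => (f : X → ℝ)) inferInstance)
            (⇑φ) ∧
          ∀ f : C(A, ℝ), ∀ a : A, φ f a = f a) →
        ∃ e : C(X, ℝ) ≃ₗ[ℝ] C(X ⊕ A, ℝ),
          @Continuous _ _
            (TopologicalSpace.induced (fun f : C(X, ℝ) => (f : X → ℝ)) inferInstance)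
            (TopologicalSpace.induced (fun f : C(X ⊕ A, ℝ) => (f : X ⊕ A → ℝ)) inferInstance)
            (⇑e) ∧
          @Continuous _ _
            (TopologicalSpace.induced (fun f : C(X ⊕ A, ℝ) => (f : X ⊕ A → ℝ)) inferInstance)
            (TopologicalSpace.induced (fun f : C(X, ℝ) => (f : X → ℝ)) inferInstance)
            (⇑e.symm)) →
      ∃ e : C(X × OnePoint ℕ, ℝ) ≃ₗ[ℝ] C(X, ℝ),
        @Continuous _ _
          (TopologicalSpace.induced (fun f : C(X × OnePoint ℕ, ℝ) => (f : X × OnePoint ℕ → ℝ)) inferInstance)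
          (TopologicalSpace.induced (fun f : C(X, ℝ) => (f : X → ℝ)) inferInstance)
          (⇑e) ∧
        @Continuous _ _
          (TopologicalSpace.induced (fun f : C(X, ℝ) => (f : X → ℝ)) inferInstance)
          (TopologicalSpace.induced (fun f : C(X × OnePoint ℕ, ℝ) => (f : X × OnePoint ℕ → ℝ)) inferInstance)
          (⇑e.symm)) := by
  intro H
  have : Infinite (Ultrafilter ℕ) := by
    refine Infinite.of_injective (pure : ℕ → Ultrafilter ℕ) (fun a b h => ?_)
    have h1 : ({a} : Set ℕ) ∈ (pure b : Ultrafilter ℕ) := by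
      rw [← h]
      exact Ultrafilter.mem_pure.2 rfl
    exact (Ultrafilter.mem_pure.1 h1).symm
  refine not_sstable ?_
  refine LEquivalent.trans (LEquivalent.of_homeo
    ((Homeomorph.refl (Ultrafilter ℕ)).prodCongr W.seqHomeo).symm) (W.lequiv_of ?_)
  exact H (Ultrafilter ℕ) (fun A hA => W.lequiv_to (lstable A (W.lembedded_of hA)))

end Pool.Agent.S13574
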