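import Pool.Statements.S13589
import Pool.Agent.X189.ST.Geo

set_option autoImplicit false
open Pool Pool.MP_93ef73_gt

namespace Pool.Agent.S13589

/-- There exist d, a nonempty compact totally disconnected A in R^d with two distinct Steiner trees S, T, no terminal interior to segments in both, and nonempty compact M (∣M∣=∣A∣ if A finite) and r>0 with S an r-minimizer for M. -/
theorem result :
  ∃ (d : ℕ) (A S T M : Set (EuclideanSpace ℝ (Fin d))) (r : ℝ),
    IsCompact A ∧ A.Nonempty ∧ IsTotallyDisconnected A ∧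
    (IsCompact S ∧ IsConnected S ∧ A ⊆ S ∧
      MeasureTheory.Measure.hausdorffMeasure 1 S < ⊤ ∧
      ∀ S' : Set (EuclideanSpace ℝ (Fin d)), IsCompact S' → IsConnected S' → A ⊆ S' →
        MeasureTheory.Measure.hausdorffMeasure 1 S ≤ MeasureTheory.Measure.hausdorffMeasure 1 S') ∧
    (IsCompact T ∧ IsConnected T ∧ A ⊆ T ∧
      MeasureTheory.Measure.hausdorffMeasure 1 T < ⊤ ∧
      ∀ S' : Set (EuclideanSpace ℝ (Fin d)), IsCompact S' → IsConnected S' → A ⊆ S' →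
        MeasureTheory.Measure.hausdorffMeasure 1 T ≤ MeasureTheory.Measure.hausdorffMeasure 1 S') ∧
    S ≠ T ∧
    IsCompact M ∧ M.Nonempty ∧ 0 < r ∧
    (A.Finite → M.Finite ∧ M.ncard = A.ncard) ∧
    (¬ ∃ a ∈ A,
        (∃ x y : EuclideanSpace ℝ (Fin d), x ≠ y ∧ segment ℝ x y ⊆ S ∧ a ∈ openSegment ℝ x y) ∧
        (∃ x y : EuclideanSpace ℝ (Fin d), x ≠ y ∧ segment ℝ x y ⊆ T ∧ a ∈ openSegment ℝ x y)) ∧
    (∀ y ∈ M, Metric.infDist y S ≤ r) ∧
    ∀ W : Set (EuclideanSpace ℝ (Fin d)), IsCompact W → IsConnected W →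
      (∀ y ∈ M, Metric.infDist y W ≤ r) →
        MeasureTheory.Measure.hausdorffMeasure 1 S ≤ MeasureTheory.Measure.hausdorffMeasure 1 W := by
  have hlow : ∀ W : Set (EuclideanSpace ℝ (Fin 2)), IsCompact W → IsConnected W →
      (∀ y ∈ Set.range Pool.Agent.X189.ST.mp, Metric.infDist y W ≤ Pool.Agent.X189.ST.rr) →
      ENNReal.ofReal Pool.Agent.X189.ST.LL ≤ MeasureTheory.Measure.hausdorffMeasure 1 W :=
    fun W h1 h2 h3 => Pool.Agent.X189.ST.lower h1 h2 h3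
  have hrr : 0 < Pool.Agent.X189.ST.rr := by
    unfold Pool.Agent.X189.ST.rr
    norm_num
  have hclose : ∀ i : Pool.Agent.X189.ST.Lb, dist (Pool.Agent.X189.ST.mp i)
      (Pool.Agent.X189.ST.ctr i) ≤ Pool.Agent.X189.ST.rr := by
    intro i
    refine (Pool.Agent.X189.ST.pl_dist hrr.le ?_).le
    have h := Pool.Agent.X189.ST.om_norm i
    simp only [Pool.Agent.X189.ST.mp, PiLp.add_apply, PiLp.smul_apply, smul_eq_mul]
    have e : ∀ a b c : ℝ, a + b * c - a = b * c := fun a b c => by ring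
    rw [e, e, mul_pow, mul_pow, ← mul_add, h, mul_one]
  have hdist : ∀ W : Set (EuclideanSpace ℝ (Fin 2)), Set.range Pool.Agent.X189.ST.ctr ⊆ W →
      ∀ y ∈ Set.range Pool.Agent.X189.ST.mp, Metric.infDist y W ≤ Pool.Agent.X189.ST.rr := by
    rintro W hW y ⟨i, rfl⟩
    exact (Metric.infDist_le_dist_of_mem (hW ⟨i, rfl⟩)).trans (hclose i)
  have hA : Set.range Pool.Agent.X189.ST.ctr ⊆ Pool.Agent.X189.ST.SS := by
    rintro x ⟨i, rfl⟩
    exact Pool.Agent.X189.ST.mem_SS i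
  have hA' : Set.range Pool.Agent.X189.ST.ctr ⊆ Pool.Agent.X189.ST.TT := by
    rintro x ⟨i, rfl⟩
    exact Pool.Agent.X189.ST.mem_TT i
  refine ⟨2, Set.range Pool.Agent.X189.ST.ctr, Pool.Agent.X189.ST.SS, Pool.Agent.X189.ST.TT,
    Set.range Pool.Agent.X189.ST.mp, Pool.Agent.X189.ST.rr, (Set.finite_range _).isCompact,
    Set.range_nonempty _, (Set.finite_range _).countable.isTotallyDisconnected,
    ⟨Pool.Agent.X189.ST.SS_compact, Pool.Agent.X189.ST.SS_conn, hA,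
      lt_of_le_of_lt Pool.Agent.X189.ST.SS_mu ENNReal.ofReal_lt_top,
      fun S' h1 h2 h3 => Pool.Agent.X189.ST.SS_mu.trans (hlow S' h1 h2 (hdist S' h3))⟩,
    ⟨Pool.Agent.X189.ST.TT_compact, Pool.Agent.X189.ST.TT_conn, hA',
      lt_of_le_of_lt Pool.Agent.X189.ST.TT_mu ENNReal.ofReal_lt_top,
      fun S' h1 h2 h3 => Pool.Agent.X189.ST.TT_mu.trans (hlow S' h1 h2 (hdist S' h3))⟩,
    Pool.Agent.X189.ST.SS_ne_TT, (Set.finite_range _).isCompact, Set.range_nonempty _, hrr,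
    fun _ => ⟨Set.finite_range _, ?_⟩, ?_, hdist _ hA,
    fun W h1 h2 h3 => Pool.Agent.X189.ST.SS_mu.trans (hlow W h1 h2 h3)⟩
  · rw [Set.ncard_range_of_injective Pool.Agent.X189.ST.mp_inj,
      Set.ncard_range_of_injective Pool.Agent.X189.ST.ctr_inj]
  · rintro ⟨a, ⟨⟨h, v, k⟩, rfl⟩, _, h2⟩
    cases k
    · exact Pool.Agent.X189.ST.tip_ok h v h2
    · exact Pool.Agent.X189.ST.corner_ok h v h2

end Pool.Agent.S13589
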