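import Pool.Statements.S13599
import Pool.Agent.X146.Str.Fin

set_option autoImplicit false
open Pool Pool.MP_94e842_gt

namespace Pool.Agent.S13599

/-- Any planar convex body whose boundary has the transitivity property is an ellipse. Transitivity: string construction at length ℓ1, then at any ℓ2 above the new perimeter, equals a single string construction at some ℓ3.

Outline of the proof (files in `Pool/Agent/X146/Str/`). By Cauchy's formula the perimeter of the
convex hull of `K` and a point `x` is the integral of the maximum of the support function of `K` and
of `⟨x, u⟩`, so the string construction gives the level sets of a convex function. Transitivity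
says that the sublevel sets `K_μ` of this function are, for `μ < ν`, string constructions over
each other; in particular each `K_μ` is a caustic of each table `K_ν`, `μ < ν`, and `K_ν` has a
`C²` support function with positive radius of curvature. If `ν` is large then for each direction
there is a triangle inscribed in `K_ν`, circumscribed about some `K_μ` and with a side of the given
direction; comparing perimeters, all these triangles are circumscribed about one and the same `K_μ`,
which therefore is an invariant circle of rotation number `1/3` all orbits of which are periodic, and
the region between it and the boundary is foliated by caustics. So `K_ν` is an ellipse by the theorem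
of Bialy and Mironov, in the form of `Pool/Agent/H283R2/BK`. By Graves' theorem all larger `K_ν`
are confocal ellipses. For a point outside of the large ellipse the difference of the squares of the
support functions of a confocal ellipse and of `K` takes the same value in the two directions of the
tangents of `K`, from which it follows that this difference is constant, and `K` is an ellipse. -/
theorem result :
    ∀ K : Set (EuclideanSpace ℝ (Fin 2)), IsCompact K → Convex ℝ K → (interior K).Nonempty →
      (∀ ℓ1 : ℝ, (MeasureTheory.Measure.hausdorffMeasure 1 (frontier K)).toReal < ℓ1 →
        ∀ ℓ2 : ℝ,
          (MeasureTheory.Measure.hausdorffMeasure 1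
              (frontier {x : EuclideanSpace ℝ (Fin 2) |
                (MeasureTheory.Measure.hausdorffMeasure 1
                  (frontier (convexHull ℝ (insert x K)))).toReal ≤ ℓ1})).toReal < ℓ2 →
          ∃ ℓ3 : ℝ,
            {y : EuclideanSpace ℝ (Fin 2) |
              (MeasureTheory.Measure.hausdorffMeasure 1
                (frontier (convexHull ℝ (insert y
                  {x : EuclideanSpace ℝ (Fin 2) |
                    (MeasureTheory.Measure.hausdorffMeasure 1
                      (frontier (convexHull ℝ (insert x K)))).toReal ≤ ℓ1})))).toReal = ℓ2}
            = {y : EuclideanSpace ℝ (Fin 2) |
              (MeasureTheory.Measure.hausdorffMeasure 1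
                (frontier (convexHull ℝ (insert y K)))).toReal = ℓ3}) →
      ∃ f : EuclideanSpace ℝ (Fin 2) ≃ᵃ[ℝ] EuclideanSpace ℝ (Fin 2),
        K = f '' Metric.closedBall 0 1 :=
  Pool.Agent.X146.Str.melrose

end Pool.Agent.S13599
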