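import Pool.Statements.S13772
import Pool.Agent.X197.SineSub

set_option autoImplicit false
open Pool Pool.MP_b1ea19_gt

namespace Pool.Agent.S13772

/-- The negation of the preceding statement: If X is a continuum in which every subcontinuum C has a connected set of local separating points, then any two distinct points of any connected subset of X are joined by an arc lying inside that subset. -/
theorem result :
    ¬ (∀ (X : Type) [MetricSpace X] [CompactSpace X] [ConnectedSpace X],
      (∀ C : Set X, IsCompact C → IsConnected C →
        IsPreconnected {p : X | p ∈ C ∧ ∃ V : Set X, IsOpen V ∧ p ∈ V ∧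
          ¬ IsPreconnected (connectedComponentIn (V ∩ C) p \ {p})}) →
      ∀ A : Set X, IsConnected A → ∀ x ∈ A, ∀ y ∈ A, x ≠ y →
        ∃ f : unitInterval → X, Continuous f ∧ Function.Injective f ∧
          f 0 = x ∧ f 1 = y ∧ Set.range f ⊆ A) := by
  exact Pool.Agent.X197.SineSub.main

end Pool.Agent.S13772
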