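import Pool.Statements.S13885

set_option autoImplicit false
open Pool Pool.MP_c36963_gt

namespace Pool.Agent.S13885

/-- There exists r : ℂ → ℂ mapping the closed unit disk into the unit circle, fixing the circle, with connected fibers in the disk, such that only finitely many circle points y fail: for all circle sequences s_n → y, every point of the Kuratowski lim sup of the fibers r⁻¹(s_n) lies in r⁻¹(y). -/
theorem result :
    ∃ r : ℂ → ℂ,
      (∀ z ∈ Metric.closedBall (0:ℂ) 1, r z ∈ Metric.sphere (0:ℂ) 1) ∧
      (∀ y ∈ Metric.sphere (0:ℂ) 1, r y = y) ∧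
      (∀ y ∈ Metric.sphere (0:ℂ) 1,
        IsConnected {z : ℂ | z ∈ Metric.closedBall (0:ℂ) 1 ∧ r z = y}) ∧
      Set.Finite {y : ℂ | y ∈ Metric.sphere (0:ℂ) 1 ∧
        ¬ (∀ s : ℕ → ℂ, (∀ n, s n ∈ Metric.sphere (0:ℂ) 1) →
            Filter.Tendsto s Filter.atTop (nhds y) →
            ∀ x : ℂ, (∀ ε : ℝ, ε > 0 → ∀ N : ℕ, ∃ n : ℕ, n ≥ N ∧
                ∃ z : ℂ, z ∈ Metric.closedBall (0:ℂ) 1 ∧ r z = s n ∧ dist z x < ε) →
              r x = y)} := by
  classical
  have h1 : (1 : ℂ) ∈ Metric.sphere (0:ℂ) 1 := by simp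
  refine ⟨fun z => if z ∈ Metric.sphere (0:ℂ) 1 then z else 1, ?_, ?_, ?_, ?_⟩
  · intro z _
    by_cases hz : z ∈ Metric.sphere (0:ℂ) 1
    · simp only [hz, if_true]
    · simp only [hz, if_false]
      exact h1
  · intro y hy
    simp only [hy, if_true]
  · intro y hy
    by_cases hy1 : y = 1
    · subst hy1
      have hsub : Metric.ball (0:ℂ) 1 ⊆
          {z : ℂ | z ∈ Metric.closedBall (0:ℂ) 1 ∧
            (if z ∈ Metric.sphere (0:ℂ) 1 then z else 1) = 1} := by
        intro z hz
        refine ⟨Metric.ball_subset_closedBall hz, ?_⟩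
        have hz' : z ∉ Metric.sphere (0:ℂ) 1 := by
          intro h
          rw [Metric.mem_sphere] at h
          rw [Metric.mem_ball] at hz
          linarith
        simp only [hz', if_false]
      have hsup : {z : ℂ | z ∈ Metric.closedBall (0:ℂ) 1 ∧
            (if z ∈ Metric.sphere (0:ℂ) 1 then z else 1) = 1} ⊆ closure (Metric.ball (0:ℂ) 1) := by
        rw [closure_ball (0:ℂ) one_ne_zero]
        intro z hz
        exact hz.1
      have hc : IsPreconnected (Metric.ball (0:ℂ) 1) := (convex_ball (0:ℂ) 1).isPreconnected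
      exact ⟨⟨0, hsub (by simp)⟩, hc.subset_closure hsub hsup⟩
    · have : {z : ℂ | z ∈ Metric.closedBall (0:ℂ) 1 ∧
            (if z ∈ Metric.sphere (0:ℂ) 1 then z else 1) = y} = {y} := by
        ext z
        constructor
        · rintro ⟨_, hz⟩
          by_cases hzs : z ∈ Metric.sphere (0:ℂ) 1
          · simp only [hzs, if_true] at hz
            exact hz
          · simp only [hzs, if_false] at hz
            exact absurd hz.symm hy1
        · intro hz
          rw [Set.mem_singleton_iff] at hz
          subst hz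
          refine ⟨Metric.sphere_subset_closedBall hy, ?_⟩
          simp only [hy, if_true]
      rw [this]
      exact isConnected_singleton
  · apply Set.Finite.subset (Set.finite_singleton (1:ℂ))
    rintro y ⟨hy, hbad⟩
    rw [Set.mem_singleton_iff]
    by_contra hy1
    apply hbad
    intro s hs hsy x hx
    -- eventually `s n ≠ 1`
    have hpos : 0 < dist y 1 := dist_pos.2 hy1
    have hev : ∀ᶠ n in Filter.atTop, dist (s n) y < dist y 1 :=
      (tendsto_order.1 (tendsto_iff_dist_tendsto_zero.1 hsy)).2 _ hpos
    obtain ⟨N₀, hN₀⟩ := Filter.eventually_atTop.1 hev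
    have hxy : x = y := by
      refine dist_le_zero.1 (le_of_forall_pos_le_add ?_)
      intro ε hε
      have hev2 : ∀ᶠ n in Filter.atTop, dist (s n) y < ε / 2 :=
        (tendsto_order.1 (tendsto_iff_dist_tendsto_zero.1 hsy)).2 _ (by positivity)
      obtain ⟨N₁, hN₁⟩ := Filter.eventually_atTop.1 hev2
      obtain ⟨n, hn, z, hz, hzs, hzx⟩ := hx (ε / 2) (by positivity) (max N₀ N₁)
      have hn0 := hN₀ n (le_trans (le_max_left _ _) hn)
      have hn1 := hN₁ n (le_trans (le_max_right _ _) hn)
      have hsn1 : s n ≠ 1 := by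
        intro h
        rw [h, dist_comm] at hn0
        exact lt_irrefl _ hn0
      have hzeq : z = s n := by
        by_cases hzm : z ∈ Metric.sphere (0:ℂ) 1
        · simp only [hzm, if_true] at hzs
          exact hzs
        · simp only [hzm, if_false] at hzs
          exact absurd hzs.symm hsn1
      rw [hzeq] at hzx
      have htri := dist_triangle_left x y (s n)
      linarith
    rw [hxy]
    simp only [hy, if_true]

end Pool.Agent.S13885
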