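import Pool.Statements.S14068
import Pool.Agent.Helper614.PB3

set_option autoImplicit false
open Pool Pool.MP_db8e30_gt

namespace Pool.Agent.S14068

namespace W

open Set Filter Topology TopologicalSpace Cardinal

open Pool.Agent.Helper614.PB

/-- the points concentrated on rows -/
def rowSet : Set X4 := {x | ∃ w, x = Sum.inr w ∧ Set.range (Sum.inl : Kap → I4) ∈ w.1}

/-- the points concentrated on columns -/
def colSet : Set X4 :=
  {x | ∃ w, x = Sum.inr w ∧ Set.range (Sum.inr : unitInterval × Lam → I4) ∈ w.1}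

theorem disj : Disjoint rowSet colSet := by
  rw [Set.disjoint_left]
  rintro _ ⟨w, rfl, h1⟩ ⟨w', h, h2⟩
  have hw : w = w' := Sum.inr_injective h
  subst hw
  have h3 := w.1.inter_mem h1 h2
  have h4 : Set.range (Sum.inl : Kap → I4) ∩ Set.range (Sum.inr : unitInterval × Lam → I4) = ∅ := by
    ext i
    simp only [Set.mem_inter_iff, Set.mem_range, Set.mem_empty_iff_false, iff_false, not_and]
    rintro ⟨a, rfl⟩ ⟨b, hb⟩
    exact Sum.inr_ne_inl hb
  rw [h4] at h3
  exact w.1.empty_notMem h3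

/-- General fact: the points concentrated on a set `J` of indices form a closed set. -/
theorem closed_of (J : Set I4) : IsClosed {x : X4 | ∃ w, x = Sum.inr w ∧ J ∈ w.1} := by
  rw [← isOpen_compl_iff, isOpen_iff_mem_nhds]
  rintro x hx
  rw [Pool.Agent.Helper614.PB.mem_nhds_iff']
  rcases x with ⟨p, C, hC, hCc⟩ | ⟨w, S, hS, hSc⟩
  · refine ⟨C, hC, ?_⟩
    rintro y hy ⟨w', rfl, hJ⟩
    have h1 : {i | C ∈ u4 i} ∈ w'.1 := hy
    have h2 : {i | C ∈ u4 i} = ∅ := by
      ext i
      simp only [mem_ofPred_eq, mem_empty_iff_false, iff_false]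
      intro h3
      have h4 := Filter.inter_mem h3 (good4.cocount i C hCc)
      rw [inter_compl_self] at h4
      exact (good4.nebot i).ne (Filter.empty_mem_iff_bot.1 h4)
    rw [h2] at h1
    exact w'.1.empty_notMem h1
  · have hJ : J ∉ w := fun h => hx ⟨_, rfl, h⟩
    have hJ' : Jᶜ ∈ w := Ultrafilter.compl_mem_iff_notMem.2 hJ
    refine ⟨⋃ i ∈ S ∩ Jᶜ, R4 i, ?_, ?_⟩
    · change {i | (⋃ i ∈ S ∩ Jᶜ, R4 i) ∈ u4 i} ∈ w
      refine w.mem_of_superset (w.inter_mem hS hJ') fun i hi => ?_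
      exact Filter.mem_of_superset (good4.mem i) (subset_biUnion_of_mem (u := fun i => R4 i) hi)
    · rintro y hy ⟨w', rfl, hJw⟩
      have h1 : {i | (⋃ i ∈ S ∩ Jᶜ, R4 i) ∈ u4 i} ∈ w'.1 := hy
      obtain ⟨j, hj1, hj2⟩ : ∃ j, j ∈ J ∧ (⋃ i ∈ S ∩ Jᶜ, R4 i) ∈ u4 j := by
        obtain ⟨j, hj⟩ := w'.1.nonempty_of_mem (w'.1.inter_mem hJw h1)
        exact ⟨j, hj.1, hj.2⟩
      have hc : ((⋃ i ∈ S ∩ Jᶜ, R4 i) ∩ R4 j).Countable := by
        rw [iUnion₂_inter]
        refine (hSc.mono inter_subset_left).biUnion fun i hi => good4.ad i j ?_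
        rintro rfl
        exact hi.2 hj1
      have h4 := Filter.inter_mem (Filter.inter_mem hj2 (good4.mem j)) (good4.cocount j _ hc)
      rw [inter_compl_self] at h4
      exact (good4.nebot j).ne (Filter.empty_mem_iff_bot.1 h4)

theorem not_normal : ¬ NormalSpace X4 := by
  intro h
  obtain ⟨U, V, hU, hV, hAU, hBV, hUV⟩ := normal_separation
    (closed_of (Set.range (Sum.inl : Kap → I4)))
    (closed_of (Set.range (Sum.inr : unitInterval × Lam → I4))) disj
  have h1 : ∀ β : Kap, tr U ∈ u4 (Sum.inl β) := by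
    intro β
    have : ix u4 (Sum.inl β) ∈ U := hAU ⟨_, rfl, by
      change Sum.inl β ∈ Set.range (Sum.inl : Kap → I4)
      exact ⟨β, rfl⟩⟩
    exact trace_mem hU this
  have h2 : ∀ q : unitInterval × Lam, tr V ∈ u4 (Sum.inr q) := by
    intro q
    have : ix u4 (Sum.inr q) ∈ V := hBV ⟨_, rfl, by
      change Sum.inr q ∈ Set.range (Sum.inr : unitInterval × Lam → I4)
      exact ⟨q, rfl⟩⟩
    exact trace_mem hV this
  let N : unitInterval × Lam → Set Kap := fun q => {β | (q, β) ∉ tr V}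
  have hN : ∀ q, #(N q) ≤ #Lam := by
    intro q
    have h3 : (fun β => (q, β)) ⁻¹' tr V ∈ coLE Kap #Lam aleph0_le_Lam := h2 q
    exact mem_coLE.1 h3
  have hN' : #(⋃ q, N q) ≤ #Lam := mk_iUnion_le_of aleph0_le_Lam mk_uI_Lam N hN
  obtain ⟨s, hs⟩ := mk_Kap_fiber _ hN' 0
  have hs' : ∀ q, (q, (((0 : unitInterval), s) : Kap)) ∈ tr V := by
    intro q
    by_contra h
    exact hs (mem_iUnion.2 ⟨q, h⟩)
  have h4 := h1 ((0 : unitInterval), s)
  have := good4.nebot (Sum.inl ((0 : unitInterval), s))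
  have h5 : R4 (Sum.inl ((0 : unitInterval), s)) ∈ u4 (Sum.inl ((0 : unitInterval), s)) :=
    good4.mem _
  obtain ⟨⟨q, β⟩, hq1, hq2⟩ := Filter.nonempty_of_mem (Filter.inter_mem h4 h5)
  have hβ : β = ((0 : unitInterval), s) := hq2
  subst hβ
  exact Set.disjoint_left.1 hUV hq1 (hs' q)


end W

open Pool.Agent.Helper614.PB

/-- The negation of the preceding statement: For every Tychonoff X : Type, if X has a clopen basis 𝓑 satisfying the countable-vs-arbitrary separation property and X is compact in the topology generated by complements of closures of members of 𝓑, then X is normal. -/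
theorem result :
    ¬ (∀ (X : Type) [TopologicalSpace X] [CompletelyRegularSpace X] [T2Space X],
      (∃ 𝓑 : Set (Set X),
        TopologicalSpace.IsTopologicalBasis 𝓑 ∧
        (∀ b ∈ 𝓑, IsClopen b) ∧
        (∀ C D : Set (Set X), C ⊆ 𝓑 → D ⊆ 𝓑 → C.Countable →
          (∀ c ∈ C, ∀ d ∈ D, Disjoint c d) →
          ∃ b ∈ 𝓑, (∀ c ∈ C, c ⊆ b) ∧ (∀ d ∈ D, Disjoint b d)) ∧
        @IsCompact X
          (TopologicalSpace.generateFrom {U : Set X | ∃ b ∈ 𝓑, U = (closure b)ᶜ})
          Set.univ) →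
      NormalSpace X) := by
  intro h
  refine W.not_normal ?_
  have ht : T35Space X4 := t35 good4
  refine h X4 ⟨hat u4 '' Lat u4 R4, isBasis_lat good4, ?_, ?_, ?_⟩
  · rintro _ ⟨E, hE, rfl⟩
    exact isClopen_hat good4 hE
  · intro C D hC hD hc hd
    exact nested good4 C D hC hD hc hd
  · exact (cocompact good4).isCompact_univ

end Pool.Agent.S14068
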