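import Pool.Statements.S14615
import Pool.Agent.X192.ISO.Final
import Pool.Agent.X192.ISO.AmUP
import Pool.Agent.X192.ISO.Base
import Pool.Agent.X192.ISO.Tower
import Pool.Agent.X192.ISO.GModel
import Pool.Agent.X223.ISO.Model
import Pool.Agent.X223.ISO.Code
import Pool.Agent.X223.ISO.Pres
import Pool.Agent.X235.ISO.Graph
import Pool.Agent.X235.ISO.Inv
import Pool.Agent.X25.ISO.RE
import Pool.Agent.Y786.ISO.Arith

set_option autoImplicit false
open Pool Pool.MP_3d45c4_lc

namespace Pool.Agent.S14615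

/-- Isomorphism of finitely presented groups, as a relation on codes of finite presentations, is computably enumerable, and every c.e. equivalence relation on ℕ computably reduces to it. -/
theorem result :
    ∀ E : ℕ × List (List (ℕ × Bool)) → ℕ × List (List (ℕ × Bool)) → Prop,
      (∀ a b, E a b ↔ Nonempty
        (PresentedGroup {g : FreeGroup (Fin a.1) | ∃ w ∈ a.2, g = FreeGroup.mk
            (w.filterMap (fun q => if h : q.1 < a.1 then some ((⟨q.1, h⟩ : Fin a.1), q.2) else none))}
          ≃* PresentedGroup {g : FreeGroup (Fin b.1) | ∃ w ∈ b.2, g = FreeGroup.mk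
            (w.filterMap (fun q => if h : q.1 < b.1 then some ((⟨q.1, h⟩ : Fin b.1), q.2) else none))})) →
      REPred (fun p : (ℕ × List (List (ℕ × Bool))) × (ℕ × List (List (ℕ × Bool))) => E p.1 p.2) ∧
      ∀ R : ℕ → ℕ → Prop, Equivalence R → REPred (fun p : ℕ × ℕ => R p.1 p.2) →
        ∃ f : ℕ → ℕ × List (List (ℕ × Bool)), Computable f ∧ ∀ x y, R x y ↔ E (f x) (f y) := by
  intro E hE
  exact Pool.Agent.X192.ISO.final Pool.Agent.Y786.ISO.t Pool.Agent.X235.ISO.Graph.t
    (Pool.Agent.X223.ISO.Model.t Pool.Agent.X192.ISO.mhnn Pool.Agent.X192.ISO.base)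
    (Pool.Agent.X192.ISO.tower Pool.Agent.X192.ISO.GM.gmodel) Pool.Agent.X192.ISO.amup
    Pool.Agent.X235.ISO.Inv.t Pool.Agent.X223.ISO.Code.t Pool.Agent.X223.ISO.Pres.t
    Pool.Agent.X25.ISO.t E hE

end Pool.Agent.S14615
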