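import Pool.Statements.S14895
-- import your own Pool.Agent.* helpers here

set_option autoImplicit false
open Pool Pool.MP_735cdd_lc

namespace Pool.Agent.S14895

open FirstOrder FirstOrder.Language

/-- the language of the statement -/
abbrev L0 : FirstOrder.Language := FirstOrder.Language.mk (fun _ => Unit) (fun _ => Empty)

theorem realize_congr {L : FirstOrder.Language} {M : Type} [L.Structure M] {α : Type}
    [DecidableEq α] (φ : L.Formula α) (v w : α → M)
    (h : ∀ a ∈ BoundedFormula.freeVarFinset φ, v a = w a) : φ.Realize v ↔ φ.Realize w := by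
  have e : (v ∘ ((↑) : (↑(BoundedFormula.freeVarFinset φ) : Set α) → α))
      = (w ∘ ((↑) : (↑(BoundedFormula.freeVarFinset φ) : Set α) → α)) := by
    funext a
    exact h a.1 a.2
  unfold Formula.Realize
  rw [← BoundedFormula.realize_restrictFreeVar' (s := (↑(BoundedFormula.freeVarFinset φ) : Set α))
      (Set.Subset.refl _) (v := v),
    ← BoundedFormula.realize_restrictFreeVar' (s := (↑(BoundedFormula.freeVarFinset φ) : Set α))
      (Set.Subset.refl _) (v := w), e]

section
variable {G : Type} [Group G] [S : L0.Structure G]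

/-- an automorphism of the group is an automorphism of the structure -/
def toEquiv (hS : ∀ (n : ℕ) (f : L0.Functions n) (xs : Fin n → G),
    FirstOrder.Language.Structure.funMap f xs = (List.ofFn xs).prod) (e : G ≃* G) : G ≃[L0] G where
  toEquiv := e.toEquiv
  map_fun' := by
    intro n f xs
    rw [hS, hS]
    change e _ = _
    rw [map_list_prod, List.map_ofFn]
    rfl
  map_rel' := by
    intro n r
    exact Empty.elim r

/-- product term -/
def mulT {α : Type} (s t : L0.Term α) : L0.Term α :=
  Term.func (l := 2) (() : L0.Functions 2) ![s, t]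

theorem realize_mulT (hS : ∀ (n : ℕ) (f : L0.Functions n) (xs : Fin n → G),
    FirstOrder.Language.Structure.funMap f xs = (List.ofFn xs).prod)
    {α : Type} (s t : L0.Term α) (v : α → G) :
    (mulT s t).realize v = s.realize v * t.realize v := by
  unfold mulT
  rw [Term.realize, hS]
  simp

/-- the nested term -/
def nest : ℕ → ℕ → L0.Term ((Unit ⊕ ℕ) ⊕ Fin 1)
  | _, 0 => Term.var (Sum.inr 0)
  | i, (k + 1) => mulT (Term.var (Sum.inl (Sum.inr i))) (mulT (nest (i + 1) k) (nest (i + 1) k))

/-- the value of the nested term -/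
def nestV (a : ℕ → G) (z : G) : ℕ → ℕ → G
  | _, 0 => z
  | i, (k + 1) => a i * (nestV a z (i + 1) k * nestV a z (i + 1) k)

theorem realize_nest (hS : ∀ (n : ℕ) (f : L0.Functions n) (xs : Fin n → G),
    FirstOrder.Language.Structure.funMap f xs = (List.ofFn xs).prod)
    (c : G) (a : ℕ → G) (xs : Fin 1 → G) (k : ℕ) : ∀ i,
    (nest i k).realize (Sum.elim (Sum.elim (fun _ => c) a) xs) = nestV a (xs 0) i k := by
  induction k with
  | zero => intro i; rfl
  | succ k ih =>
    intro i
    rw [nest, realize_mulT hS, realize_mulT hS, ih]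
    rfl

/-- the formula -/
def psi (n : ℕ) : L0.Formula (Unit ⊕ ℕ) :=
  BoundedFormula.ex (Term.bdEqual (Term.var (Sum.inl (Sum.inl ()))) (nest 0 n))

theorem realize_psi (hS : ∀ (n : ℕ) (f : L0.Functions n) (xs : Fin n → G),
    FirstOrder.Language.Structure.funMap f xs = (List.ofFn xs).prod)
    (n : ℕ) (c : G) (a : ℕ → G) :
    (psi n).Realize (Sum.elim (fun _ => c) a) ↔ ∃ z : G, c = nestV a z 0 n := by
  unfold psi Formula.Realize
  rw [BoundedFormula.realize_ex]
  refine exists_congr fun z => ?_
  rw [BoundedFormula.realize_bdEqual, realize_nest hS]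
  rfl

theorem hom_ext_of_closure {X : Set G} (hX : Subgroup.closure X = ⊤) (f g : G →* G)
    (h : ∀ x ∈ X, f x = g x) : f = g :=
  MonoidHom.eq_of_eqOn_top (by
    rw [← hX]
    exact MonoidHom.eqOn_closure h)

/-- the partial automorphisms -/
theorem exists_aut {X : Set G} (hX : Subgroup.closure X = ⊤)
    (hfree : ∀ f : X → G, ∃ φ : G →* G, ∀ x : X, φ x = f x)
    (x : ℕ → X) (hx : Function.Injective x) (m : ℕ) :
    ∃ e : G ≃* G, (∀ i < m, e (x i) = (x i : G) * ((x (i + 1) : G) ^ 2)⁻¹) ∧
      (∀ i, m ≤ i → e (x i) = x i) := by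
  classical
  induction m with
  | zero => exact ⟨MulEquiv.refl G, by simp, fun i _ => rfl⟩
  | succ m ih =>
    obtain ⟨e, he1, he2⟩ := ih
    obtain ⟨s, hs⟩ := hfree fun y => if y = x m then (x m : G) * ((x (m + 1) : G) ^ 2)⁻¹ else y
    obtain ⟨t, ht⟩ := hfree fun y => if y = x m then (x m : G) * ((x (m + 1) : G) ^ 2) else y
    have hne : x (m + 1) ≠ x m := fun h => by
      have := hx h
      omega
    have hst : s.comp t = MonoidHom.id G := by
      refine hom_ext_of_closure hX _ _ fun y hy => ?_
      have h1 := ht ⟨y, hy⟩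
      have h2 := hs ⟨y, hy⟩
      simp only at h1 h2
      rw [MonoidHom.comp_apply, h1]
      by_cases hyx : (⟨y, hy⟩ : X) = x m
      · rw [if_pos hyx, map_mul, map_pow, hs, hs, if_pos rfl, if_neg hne]
        simp [← hyx]
      · rw [if_neg hyx]
        rw [h2, if_neg hyx]
        rfl
    have hts : t.comp s = MonoidHom.id G := by
      refine hom_ext_of_closure hX _ _ fun y hy => ?_
      have h1 := ht ⟨y, hy⟩
      have h2 := hs ⟨y, hy⟩
      simp only at h1 h2
      rw [MonoidHom.comp_apply, h2]
      by_cases hyx : (⟨y, hy⟩ : X) = x m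
      · rw [if_pos hyx, map_mul, map_inv, map_pow, ht, ht, if_pos rfl, if_neg hne]
        simp [← hyx]
      · rw [if_neg hyx]
        rw [h1, if_neg hyx]
        rfl
    let σ : G ≃* G := MonoidHom.toMulEquiv s t hts hst
    have hσ : ∀ g, σ g = s g := fun g => rfl
    refine ⟨σ.trans e, ?_, ?_⟩
    · intro i hi
      change e (σ (x i)) = _
      rw [hσ, hs]
      by_cases him : x i = x m
      · have : i = m := hx him
        subst this
        rw [if_pos rfl, map_mul, map_inv, map_pow, he2 i le_rfl, he2 (i + 1) (by omega)]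
      · rw [if_neg him]
        have : i ≠ m := fun h => him (by rw [h])
        exact he1 i (by omega)
    · intro i hi
      change e (σ (x i)) = _
      rw [hσ, hs]
      have him : x i ≠ x m := fun h => by
        have := hx h
        omega
      rw [if_neg him]
      exact he2 i (by omega)

/-- the exponent of the image of the nested product -/
theorem nestV_image (π : G →* G) (x : ℕ → G) (z t : G) (n : ℕ) (k : ℤ)
    (h1 : ∀ i < n, π (x i) = 1) (h2 : π (x n) = t) (hz : π z = t ^ k) :
    ∀ j ≤ n, π (nestV x z (n - j) (j + 1)) = t ^ ((1 + 2 * k) * 2 ^ j) := by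
  intro j
  induction j with
  | zero =>
    intro _
    simp only [nestV, map_mul, Nat.sub_zero, h2, hz]
    rw [← zpow_add, ← zpow_one_add]
    congr 1
    ring
  | succ j ih =>
    intro hj
    have e : n - (j + 1) + 1 = n - j := by omega
    rw [nestV, e, map_mul, map_mul, ih (by omega), h1 (n - (j + 1)) (by omega), one_mul,
      ← zpow_add]
    congr 1
    rw [pow_succ]
    ring

end

/-- Every torsion-free group that is free in its own variety on an infinite basis fails ℵ1-homogeneity: some countable tuples a, b share a type, yet some element c has no d making (c,a) and (d,b) share a type. -/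
theorem result :
  ∀ (G : Type) [Group G],
    (∀ g : G, ∀ n : ℕ, 0 < n → g ^ n = 1 → g = 1) →
    (∃ X : Set G, X.Infinite ∧ Subgroup.closure X = ⊤ ∧
      ∀ f : X → G, ∃ φ : G →* G, ∀ x : X, φ x = f x) →
    ∀ [S : (FirstOrder.Language.mk (fun _ => Unit) (fun _ => Empty)).Structure G],
      (∀ (n : ℕ) (f : (FirstOrder.Language.mk (fun _ => Unit) (fun _ => Empty)).Functions n)
          (xs : Fin n → G),
        FirstOrder.Language.Structure.funMap f xs = (List.ofFn xs).prod) →
      ¬ ∀ a b : ℕ → G,
        (∀ φ : (FirstOrder.Language.mk (fun _ => Unit) (fun _ => Empty)).Formula ℕ,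
          φ.Realize a ↔ φ.Realize b) →
        ∀ c : G, ∃ d : G,
          ∀ ψ : (FirstOrder.Language.mk (fun _ => Unit) (fun _ => Empty)).Formula (Unit ⊕ ℕ),
            ψ.Realize (Sum.elim (fun _ => c) a) ↔ ψ.Realize (Sum.elim (fun _ => d) b) := by
  intro G _ htf ⟨X, hinf, hX, hfree⟩ S hS hhom
  classical
  -- an injective sequence of basis elements
  have hinf' : Infinite X := hinf.to_subtype
  let x : ℕ → X := fun n => (Infinite.natEmbedding X) n
  have hx : Function.Injective x := (Infinite.natEmbedding X).injective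
  let b : ℕ → G := fun n => (x n : G)
  let a : ℕ → G := fun n => (x n : G) * ((x (n + 1) : G) ^ 2)⁻¹
  -- same type
  have htype : ∀ φ : L0.Formula ℕ, φ.Realize a ↔ φ.Realize b := by
    intro φ
    obtain ⟨m, hm⟩ : ∃ m, ∀ i ∈ BoundedFormula.freeVarFinset φ, i < m := by
      refine ⟨(BoundedFormula.freeVarFinset φ).sup id + 1, fun i hi => ?_⟩
      have := Finset.le_sup (f := id) hi
      simp only [id] at this
      omega
    obtain ⟨e, he1, -⟩ := exists_aut hX hfree x hx m
    have h1 : φ.Realize (⇑(toEquiv hS e) ∘ b) ↔ φ.Realize b :=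
      StrongHomClass.realize_formula (toEquiv hS e) φ
    rw [← h1]
    refine realize_congr φ _ _ fun i hi => ?_
    exact (he1 i (hm i hi)).symm
  obtain ⟨d, hd⟩ := hhom a b htype (b 0)
  -- the value b 0 is a nested product
  have hval : ∀ n i, nestV a (b (i + n)) i n = b i := by
    intro n
    induction n with
    | zero => intro i; rfl
    | succ n ih =>
      intro i
      have h := ih (i + 1)
      have e1 : i + 1 + n = i + (n + 1) := by omega
      rw [e1] at h
      rw [nestV, h]
      change (x i : G) * ((x (i + 1) : G) ^ 2)⁻¹ * ((x (i + 1) : G) * (x (i + 1) : G)) = x i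
      rw [← pow_two, inv_mul_cancel_right]
  have hex : ∀ n, ∃ z : G, d = nestV b z 0 n := by
    intro n
    rw [← realize_psi hS n d b, ← hd (psi n), realize_psi hS]
    refine ⟨b n, ?_⟩
    have := hval n 0
    rw [Nat.zero_add] at this
    exact this.symm
  -- the support of d
  have hsupp : ∃ n : ℕ, d ∈ Subgroup.closure (X \ {b n}) ∧ ∀ i < n, True := by
    have hd' : d ∈ Subgroup.closure X := by rw [hX]; trivial
    have key : ∀ g ∈ Subgroup.closure X, ∃ N : ℕ, ∀ n ≥ N, g ∈ Subgroup.closure (X \ {b n}) := by
      intro g hg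
      induction hg using Subgroup.closure_induction with
      | mem y hy =>
        by_cases hyx : ∃ k, b k = y
        · obtain ⟨k, hk⟩ := hyx
          refine ⟨k + 1, fun n hn => Subgroup.subset_closure ⟨hy, ?_⟩⟩
          intro h
          have h' : b n = b k := by rw [hk]; exact (Set.mem_singleton_iff.mp h).symm
          have := hx (Subtype.ext h' : x n = x k)
          omega
        · refine ⟨0, fun n _ => Subgroup.subset_closure ⟨hy, ?_⟩⟩
          intro h
          exact hyx ⟨n, (Set.mem_singleton_iff.mp h).symm⟩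
      | one => exact ⟨0, fun n _ => Subgroup.one_mem _⟩
      | mul y z _ _ ihy ihz =>
        obtain ⟨N1, h1⟩ := ihy
        obtain ⟨N2, h2⟩ := ihz
        exact ⟨max N1 N2, fun n hn => Subgroup.mul_mem _ (h1 n (le_trans (le_max_left _ _) hn))
          (h2 n (le_trans (le_max_right _ _) hn))⟩
      | inv y _ ihy =>
        obtain ⟨N1, h1⟩ := ihy
        exact ⟨N1, fun n hn => Subgroup.inv_mem _ (h1 n hn)⟩
    obtain ⟨N, hN⟩ := key d hd'
    exact ⟨N, hN N le_rfl, fun _ _ => trivial⟩
  obtain ⟨n, hn, -⟩ := hsupp
  obtain ⟨π, hπ⟩ := hfree fun y => if y = x n then (x n : G) else 1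
  have hπd : π d = 1 := by
    have : Subgroup.closure (X \ {b n}) ≤ π.ker := by
      rw [Subgroup.closure_le]
      rintro y ⟨hy, hyn⟩
      have h := hπ ⟨y, hy⟩
      rw [if_neg] at h
      · exact h
      · intro h2
        exact hyn (by rw [Set.mem_singleton_iff]; exact congrArg Subtype.val h2)
    exact this hn
  have hrange : ∀ z, ∃ k : ℤ, π z = (x n : G) ^ k := by
    intro z
    have : z ∈ (Subgroup.zpowers (x n : G)).comap π := by
      have h : Subgroup.closure X ≤ (Subgroup.zpowers (x n : G)).comap π := by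
        rw [Subgroup.closure_le]
        intro y hy
        have h := hπ ⟨y, hy⟩
        change π y ∈ Subgroup.zpowers (x n : G)
        change π y = _ at h
        rw [h]
        split_ifs
        · exact Subgroup.mem_zpowers _
        · exact Subgroup.one_mem _
      rw [hX] at h
      exact h trivial
    obtain ⟨k, hk⟩ := Subgroup.mem_zpowers_iff.mp this
    exact ⟨k, hk.symm⟩
  obtain ⟨z, hz⟩ := hex (n + 1)
  obtain ⟨k, hk⟩ := hrange z
  have h1 : ∀ i < n, π (b i) = 1 := by
    intro i hi
    have h := hπ (x i)
    rw [if_neg] at h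
    · exact h
    · intro h2
      have := hx h2
      omega
  have h2 : π (b n) = (x n : G) := by
    have h := hπ (x n)
    rw [if_pos rfl] at h
    exact h
  have h3 := nestV_image π b z (x n : G) n k h1 h2 hk n le_rfl
  rw [Nat.sub_self, ← hz, hπd] at h3
  have hne : (1 + 2 * k) * 2 ^ n ≠ 0 := by
    refine mul_ne_zero ?_ (by positivity)
    omega
  have hxn : (x n : G) = 1 := by
    have h4 : (x n : G) ^ ((1 + 2 * k) * 2 ^ n).natAbs = 1 := by
      rcases Int.natAbs_eq ((1 + 2 * k) * 2 ^ n) with h | h
      · rw [← zpow_natCast, ← h]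
        exact h3.symm
      · rw [← inv_inj, ← zpow_natCast, ← zpow_neg, ← h, inv_one]
        exact h3.symm
    exact htf _ _ (Int.natAbs_pos.mpr hne) h4
  -- contradiction: the group would be trivial
  obtain ⟨φ, hφ⟩ := hfree fun _ => (x (n + 1) : G)
  have h5 := hφ (x n)
  rw [hxn, map_one] at h5
  have h6 : x n = x (n + 1) := Subtype.ext (by rw [hxn, ← h5])
  have := hx h6
  omega

end Pool.Agent.S14895
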