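import Pool.Statements.S14983
import Pool.Agent.W922.GenFinal
-- import your own Pool.Agent.* helpers here

set_option autoImplicit false
open scoped Manifold
open Pool Pool.MP_8468cd_lc

namespace Pool.Agent.S14983

/-- For every compact smooth boundaryless manifold of dimension at least 2, some dense G-delta set of C^∞ diffeomorphisms (C^∞ topology) exists on which topological conjugacy is a Borel subset of the product. -/
theorem result :
    ∀ (n : ℕ), 2 ≤ n →
    ∀ (M : Type) [TopologicalSpace M] [ChartedSpace (EuclideanSpace ℝ (Fin n)) M]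
      [IsManifold (modelWithCornersSelf ℝ (EuclideanSpace ℝ (Fin n))) ((⊤ : ℕ∞) : WithTop ℕ∞) M]
      [CompactSpace M] [T2Space M],
    ∀ (τ : TopologicalSpace
        (Diffeomorph (modelWithCornersSelf ℝ (EuclideanSpace ℝ (Fin n)))
          (modelWithCornersSelf ℝ (EuclideanSpace ℝ (Fin n))) M M ((⊤ : ℕ∞) : WithTop ℕ∞))),
      τ = TopologicalSpace.generateFrom
        {S : Set (Diffeomorph (modelWithCornersSelf ℝ (EuclideanSpace ℝ (Fin n)))
                (modelWithCornersSelf ℝ (EuclideanSpace ℝ (Fin n))) M M ((⊤ : ℕ∞) : WithTop ℕ∞)) |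
            ∃ (f : Diffeomorph (modelWithCornersSelf ℝ (EuclideanSpace ℝ (Fin n)))
                (modelWithCornersSelf ℝ (EuclideanSpace ℝ (Fin n))) M M ((⊤ : ℕ∞) : WithTop ℕ∞))
              (x y : M) (K : Set M) (k : ℕ) (ε : ℝ),
            IsCompact K ∧ K ⊆ (chartAt (EuclideanSpace ℝ (Fin n)) x).source ∧
            (fun z : M => f z) '' K ⊆ (chartAt (EuclideanSpace ℝ (Fin n)) y).source ∧ 0 < ε ∧
            S = {g : Diffeomorph (modelWithCornersSelf ℝ (EuclideanSpace ℝ (Fin n)))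
                    (modelWithCornersSelf ℝ (EuclideanSpace ℝ (Fin n))) M M ((⊤ : ℕ∞) : WithTop ℕ∞) |
              (fun z : M => g z) '' K ⊆ (chartAt (EuclideanSpace ℝ (Fin n)) y).source ∧
              ∀ j ≤ k, ∀ z ∈ K,
                ‖iteratedFDeriv ℝ j
                    (fun w : EuclideanSpace ℝ (Fin n) =>
                      extChartAt (modelWithCornersSelf ℝ (EuclideanSpace ℝ (Fin n))) y
                        (g ((extChartAt (modelWithCornersSelf ℝ (EuclideanSpace ℝ (Fin n))) x).symm w)))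
                    (extChartAt (modelWithCornersSelf ℝ (EuclideanSpace ℝ (Fin n))) x z) -
                  iteratedFDeriv ℝ j
                    (fun w : EuclideanSpace ℝ (Fin n) =>
                      extChartAt (modelWithCornersSelf ℝ (EuclideanSpace ℝ (Fin n))) y
                        (f ((extChartAt (modelWithCornersSelf ℝ (EuclideanSpace ℝ (Fin n))) x).symm w)))
                    (extChartAt (modelWithCornersSelf ℝ (EuclideanSpace ℝ (Fin n))) x z)‖ < ε}} →
      ∃ G : Set (Diffeomorph (modelWithCornersSelf ℝ (EuclideanSpace ℝ (Fin n)))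
          (modelWithCornersSelf ℝ (EuclideanSpace ℝ (Fin n))) M M ((⊤ : ℕ∞) : WithTop ℕ∞)),
        @IsGδ _ τ G ∧ @Dense _ τ G ∧
        @MeasurableSet
          (Diffeomorph (modelWithCornersSelf ℝ (EuclideanSpace ℝ (Fin n)))
              (modelWithCornersSelf ℝ (EuclideanSpace ℝ (Fin n))) M M ((⊤ : ℕ∞) : WithTop ℕ∞) ×
            Diffeomorph (modelWithCornersSelf ℝ (EuclideanSpace ℝ (Fin n)))
              (modelWithCornersSelf ℝ (EuclideanSpace ℝ (Fin n))) M M ((⊤ : ℕ∞) : WithTop ℕ∞))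
          (@borel _ (TopologicalSpace.induced Prod.fst τ ⊓ TopologicalSpace.induced Prod.snd τ))
          {p : Diffeomorph (modelWithCornersSelf ℝ (EuclideanSpace ℝ (Fin n)))
                (modelWithCornersSelf ℝ (EuclideanSpace ℝ (Fin n))) M M ((⊤ : ℕ∞) : WithTop ℕ∞) ×
              Diffeomorph (modelWithCornersSelf ℝ (EuclideanSpace ℝ (Fin n)))
                (modelWithCornersSelf ℝ (EuclideanSpace ℝ (Fin n))) M M ((⊤ : ℕ∞) : WithTop ℕ∞) |
            p.1 ∈ G ∧ p.2 ∈ G ∧ ∃ h : M ≃ₜ M, ∀ z : M, h (p.1 z) = p.2 (h z)} := by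
  intro n _hn M _ _ _ _ _ τ hτ
  refine Pool.Agent.W922.generic_borel (E := EuclideanSpace ℝ (Fin n)) (M := M) ⊤ le_top τ ?_
  rw [hτ]
  unfold Pool.Agent.H410R3.KS.crTopology
  refine congrArg TopologicalSpace.generateFrom ?_
  ext S
  constructor
  · rintro ⟨f, x, y, K, k, ε, h1, h2, h3, h4, rfl⟩
    refine ⟨f, x, y, K, k, ε, h1, h2, Set.mapsTo_iff_image_subset.2 h3, le_top, h4, ?_⟩
    ext g
    exact ⟨fun h => ⟨Set.mapsTo_iff_image_subset.2 h.1, fun z hz j hj => h.2 j hj z hz⟩,
      fun h => ⟨Set.mapsTo_iff_image_subset.1 h.1, fun j hj z hz => h.2 z hz j hj⟩⟩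
  · rintro ⟨f, x, y, K, k, ε, h1, h2, h3, -, h4, rfl⟩
    refine ⟨f, x, y, K, k, ε, h1, h2, Set.mapsTo_iff_image_subset.1 h3, h4, ?_⟩
    ext g
    exact ⟨fun h => ⟨Set.mapsTo_iff_image_subset.1 h.1, fun j hj z hz => h.2 z hz j hj⟩,
      fun h => ⟨Set.mapsTo_iff_image_subset.2 h.1, fun z hz j hj => h.2 j hj z hz⟩⟩

end Pool.Agent.S14983
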