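import Pool.Statements.S14999
import Mathlib

set_option autoImplicit false
open Pool Pool.MP_8565d5_lc

namespace Pool.Agent.S14999

/-! ### Exponents -/

/-- the chosen degree set: weight at most two, cyclically adjacent pairs removed -/
def DD (t : ℕ) : Finset ℕ :=
  {0} ∪ (Finset.range t).image (fun i => 2 ^ i) ∪
    ((Finset.range t) ×ˢ (Finset.Icc 2 (t - 2))).image (fun p => 2 ^ p.1 + 2 ^ ((p.1 + p.2) % t))

theorem mem_DD {t d : ℕ} : d ∈ DD t ↔ d = 0 ∨ (∃ i < t, d = 2 ^ i) ∨
    (∃ i < t, ∃ s, 2 ≤ s ∧ s ≤ t - 2 ∧ d = 2 ^ i + 2 ^ ((i + s) % t)) := by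
  unfold DD
  simp only [Finset.mem_union, Finset.mem_singleton, Finset.mem_image, Finset.mem_range,
    Finset.mem_product, Finset.mem_Icc, Prod.exists]
  constructor
  · rintro ((h | ⟨i, hi, rfl⟩) | ⟨i, s, ⟨hi, hs⟩, rfl⟩)
    · exact Or.inl h
    · exact Or.inr (Or.inl ⟨i, hi, rfl⟩)
    · exact Or.inr (Or.inr ⟨i, hi, s, hs.1, hs.2, rfl⟩)
  · rintro (h | ⟨i, hi, rfl⟩ | ⟨i, hi, s, hs1, hs2, rfl⟩)
    · exact Or.inl (Or.inl h)
    · exact Or.inl (Or.inr ⟨i, hi, rfl⟩)
    · exact Or.inr ⟨i, s, ⟨hi, hs1, hs2⟩, rfl⟩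

theorem add_mod_ne {t i s : ℕ} (hi : i < t) (h1 : 2 ≤ s) (h2 : s ≤ t - 2) : (i + s) % t ≠ i := by
  intro h
  rcases Nat.lt_or_ge (i + s) t with hlt | hge
  · rw [Nat.mod_eq_of_lt hlt] at h
    omega
  · have : (i + s) % t = i + s - t := by
      rw [Nat.mod_eq_sub_mod hge, Nat.mod_eq_of_lt (by omega)]
    omega

theorem two_pow_add_lt {t a b : ℕ} (ha : a < t) (hb : b < t) (hab : a ≠ b) :
    2 ^ a + 2 ^ b < 2 ^ t := by
  rcases Nat.lt_or_gt_of_ne hab with h | h
  · have h1 : 2 ^ a < 2 ^ b := Nat.pow_lt_pow_right (by norm_num) h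
    have h2 : 2 ^ (b + 1) ≤ 2 ^ t := Nat.pow_le_pow_right (by norm_num) (by omega)
    rw [pow_succ] at h2
    omega
  · have h1 : 2 ^ b < 2 ^ a := Nat.pow_lt_pow_right (by norm_num) h
    have h2 : 2 ^ (a + 1) ≤ 2 ^ t := Nat.pow_le_pow_right (by norm_num) (by omega)
    rw [pow_succ] at h2
    omega

theorem digsum_two_mul (n : ℕ) : (Nat.digits 2 (2 * n)).sum = (Nat.digits 2 n).sum := by
  rcases Nat.eq_zero_or_pos n with rfl | hn
  · simp
  · rw [Nat.digits_def' (by norm_num) (by omega)]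
    have h1 : 2 * n % 2 = 0 := by omega
    have h2 : 2 * n / 2 = n := by omega
    rw [h1, h2]; simp

theorem digsum_two_mul_add (n : ℕ) : (Nat.digits 2 (2 * n + 1)).sum = (Nat.digits 2 n).sum + 1 := by
  rw [Nat.digits_def' (by norm_num) (by omega)]
  have h1 : (2 * n + 1) % 2 = 1 := by omega
  have h2 : (2 * n + 1) / 2 = n := by omega
  rw [h1, h2, List.sum_cons, add_comm]

theorem digsum_pow_mul (i n : ℕ) : (Nat.digits 2 (2 ^ i * n)).sum = (Nat.digits 2 n).sum := by
  induction i with
  | zero => simp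
  | succ i ih => rw [pow_succ, mul_comm (2 ^ i) 2, mul_assoc, digsum_two_mul, ih]

theorem digsum_pow (i : ℕ) : (Nat.digits 2 (2 ^ i)).sum = 1 := by
  have := digsum_pow_mul i 1
  simpa using this

theorem digsum_pair_lt {i j : ℕ} (h : i < j) : (Nat.digits 2 (2 ^ i + 2 ^ j)).sum = 2 := by
  obtain ⟨m, rfl⟩ : ∃ m, j = i + (m + 1) := ⟨j - i - 1, by omega⟩
  have : 2 ^ i + 2 ^ (i + (m + 1)) = 2 ^ i * (2 * 2 ^ m + 1) := by ring
  rw [this, digsum_pow_mul, digsum_two_mul_add, digsum_pow]

theorem digsum_pair {i j : ℕ} (h : i ≠ j) : (Nat.digits 2 (2 ^ i + 2 ^ j)).sum = 2 := by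
  rcases Nat.lt_or_gt_of_ne h with h | h
  · exact digsum_pair_lt h
  · rw [add_comm]; exact digsum_pair_lt h

theorem DD_bound {t d : ℕ} (hd : d ∈ DD t) : d < 2 ^ t ∧ (Nat.digits 2 d).sum ≤ 2 := by
  rcases mem_DD.1 hd with rfl | ⟨i, hi, rfl⟩ | ⟨i, hi, s, hs1, hs2, rfl⟩
  · simp
  · exact ⟨Nat.pow_lt_pow_right (by norm_num) hi, by rw [digsum_pow]; norm_num⟩
  · have hne := add_mod_ne hi hs1 hs2
    have hlt : (i + s) % t < t := Nat.mod_lt _ (by omega)
    exact ⟨two_pow_add_lt hi hlt hne.symm, by rw [digsum_pair hne.symm]⟩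

theorem pair_eq_three {a b : ℕ} (h : 2 ^ a + 2 ^ b = 3) : (a = 0 ∧ b = 1) ∨ (a = 1 ∧ b = 0) := by
  rcases a with _ | _ | a
  · rcases b with _ | _ | b
    · simp at h
    · simp
    · exfalso
      have : 2 ^ (b + 2) = 4 * 2 ^ b := by ring
      have h2 : 0 < 2 ^ b := by positivity
      simp only [pow_zero] at h
      rw [this] at h
      omega
  · rcases b with _ | _ | b
    · simp
    · simp at h
    · exfalso
      have : 2 ^ (b + 2) = 4 * 2 ^ b := by ring
      have h2 : 0 < 2 ^ b := by positivity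
      rw [this] at h
      omega
  · exfalso
    have : 2 ^ (a + 2) = 4 * 2 ^ a := by ring
    have h2 : 0 < 2 ^ a := by positivity
    have h3 : 0 < 2 ^ b := by positivity
    rw [this] at h
    omega

theorem three_notMem {t : ℕ} : 3 ∉ DD t := by
  intro h
  rcases mem_DD.1 h with h | ⟨i, hi, h⟩ | ⟨i, hi, s, hs1, hs2, h⟩
  · omega
  · rcases i with _ | i
    · simp at h
    · rw [pow_succ] at h
      omega
  · rcases pair_eq_three h.symm with ⟨h1, h2⟩ | ⟨h1, h2⟩
    · subst h1
      rw [zero_add, Nat.mod_eq_of_lt (by omega)] at h2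
      omega
    · subst h1
      rw [Nat.mod_eq_of_lt (by omega)] at h2
      omega

theorem rot_aux {N d u : ℕ} (hd : 1 ≤ d) (hu1 : 1 ≤ u) (hu2 : u ≤ N) (h : u ≡ 2 * d [MOD N]) :
    (2 * d - 1) % N + 1 = u := by
  have h1 : (u - 1) ≡ (2 * d - 1) [MOD N] := by
    have h2 : (u - 1) + 1 ≡ (2 * d - 1) + 1 [MOD N] := by
      have e1 : u - 1 + 1 = u := by omega
      have e2 : 2 * d - 1 + 1 = 2 * d := by omega
      rw [e1, e2]; exact h
    exact Nat.ModEq.add_right_cancel' 1 h2
  have h3 : (2 * d - 1) % N = (u - 1) % N := h1.symm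
  rw [h3, Nat.mod_eq_of_lt (by omega)]
  omega

theorem pow_rot {t : ℕ} (i : ℕ) : 2 ^ (i % t) ≡ 2 ^ i [MOD (2 ^ t - 1)] := by
  conv_rhs => rw [← Nat.mod_add_div i t]
  rw [pow_add, pow_mul]
  have h : 2 ^ t ≡ 1 [MOD (2 ^ t - 1)] := by
    have h0 : 1 ≤ 2 ^ t := Nat.one_le_two_pow
    have : 2 ^ t = (2 ^ t - 1) + 1 := by omega
    conv_lhs => rw [this]
    exact Nat.ModEq.symm (by simp)
  have h2 := (h.pow (i / t)).mul_left (2 ^ (i % t))
  rw [one_pow, mul_one] at h2
  exact h2.symm

theorem DD_rot {t d : ℕ} (ht : 2 ≤ t) (hd : d ∈ DD t) (h0 : d ≠ 0) :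
    (2 * d - 1) % (2 ^ t - 1) + 1 ∈ DD t := by
  have hpos : ∀ a : ℕ, 1 ≤ 2 ^ a := fun a => Nat.one_le_two_pow
  rcases mem_DD.1 hd with rfl | ⟨i, hi, rfl⟩ | ⟨i, hi, s, hs1, hs2, rfl⟩
  · exact absurd rfl h0
  · have hlt : (i + 1) % t < t := Nat.mod_lt _ (by omega)
    have : (2 * 2 ^ i - 1) % (2 ^ t - 1) + 1 = 2 ^ ((i + 1) % t) := by
      apply rot_aux (hpos _) (hpos _)
      · have := Nat.pow_lt_pow_right (a := 2) (by norm_num) hlt
        omega
      · have := pow_rot (t := t) (i + 1)
        rw [pow_succ, mul_comm (2 ^ i) 2] at this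
        exact this
    rw [this]
    exact mem_DD.2 (Or.inr (Or.inl ⟨_, hlt, rfl⟩))
  · have hlt : (i + 1) % t < t := Nat.mod_lt _ (by omega)
    have hlt2 : ((i + 1) % t + s) % t < t := Nat.mod_lt _ (by omega)
    have hne := add_mod_ne hlt hs1 hs2
    have : (2 * (2 ^ i + 2 ^ ((i + s) % t)) - 1) % (2 ^ t - 1) + 1 =
        2 ^ ((i + 1) % t) + 2 ^ (((i + 1) % t + s) % t) := by
      apply rot_aux
      · have h1 := hpos i
        have h2 := hpos ((i + s) % t)
        exact h1.trans (Nat.le_add_right _ _)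
      · exact (hpos ((i + 1) % t)).trans (Nat.le_add_right _ _)
      · exact Nat.le_sub_one_of_lt (two_pow_add_lt hlt hlt2 hne.symm)
      · rw [mul_add]
        apply Nat.ModEq.add
        · have := pow_rot (t := t) (i + 1)
          rw [pow_succ, mul_comm (2 ^ i) 2] at this
          exact this
        · have h1 := pow_rot (t := t) (i + 1 + s)
          have e : ((i + 1) % t + s) % t = (i + 1 + s) % t := by
            rw [Nat.mod_add_mod]
          rw [e]
          have h2 := (pow_rot (t := t) (i + s)).mul_left 2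
          have h3 : 2 ^ (i + 1 + s) = 2 * 2 ^ (i + s) := by ring
          rw [h3] at h1
          exact h1.trans h2.symm
    rw [this]
    exact mem_DD.2 (Or.inr (Or.inr ⟨_, hlt, s, hs1, hs2, rfl⟩))

theorem testBit_pair {a b n : ℕ} (h : a < b) :
    (2 ^ a + 2 ^ b).testBit n = (decide (n = a) || decide (n = b)) := by
  have h1 : 2 ^ b + 2 ^ a = 2 ^ b ||| 2 ^ a := by
    have := Nat.two_pow_add_eq_or_of_lt (i := b) (Nat.pow_lt_pow_right (a := 2) (by norm_num) h) 1
    simpa using this
  rw [add_comm, h1, Nat.testBit_or, Nat.testBit_two_pow, Nat.testBit_two_pow]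
  by_cases h2 : n = a
  · subst h2; simp
  · by_cases h3 : n = b
    · subst h3; simp
    · simp [h2, h3, Ne.symm h2, Ne.symm h3]

theorem sub_pair {a b e : ℕ} (h : a < b) (he : ∀ i : ℕ, e.testBit i = true → (2 ^ a + 2 ^ b).testBit i = true) :
    e = 0 ∨ e = 2 ^ a ∨ e = 2 ^ b ∨ e = 2 ^ a + 2 ^ b := by
  have hb : ∀ n, n ≠ a → n ≠ b → e.testBit n = false := by
    intro n h1 h2
    by_contra hc
    have := he n (by simpa using hc)
    rw [testBit_pair h] at this
    simp [h1, h2] at this
  by_cases ha1 : e.testBit a = true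
  · by_cases hb1 : e.testBit b = true
    · right; right; right
      apply Nat.eq_of_testBit_eq
      intro n
      rw [testBit_pair h]
      by_cases h1 : n = a
      · subst h1; simp [ha1]
      · by_cases h2 : n = b
        · subst h2; simp [hb1]
        · simp [hb n h1 h2, h1, h2]
    · right; left
      apply Nat.eq_of_testBit_eq
      intro n
      rw [Nat.testBit_two_pow]
      by_cases h1 : n = a
      · subst h1; simp [ha1]
      · by_cases h2 : n = b
        · subst h2
          have : ¬ a = n := by omega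
          simp [this]
          simpa using hb1
        · simp [hb n h1 h2, Ne.symm h1]
  · by_cases hb1 : e.testBit b = true
    · right; right; left
      apply Nat.eq_of_testBit_eq
      intro n
      rw [Nat.testBit_two_pow]
      by_cases h1 : n = a
      · subst h1
        have : ¬ b = n := by omega
        simp [this]
        simpa using ha1
      · by_cases h2 : n = b
        · subst h2; simp [hb1]
        · simp [hb n h1 h2, Ne.symm h2]
    · left
      apply Nat.eq_of_testBit_eq
      intro n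
      rw [Nat.zero_testBit]
      by_cases h1 : n = a
      · subst h1; simpa using ha1
      · by_cases h2 : n = b
        · subst h2; simpa using hb1
        · exact hb n h1 h2

theorem DD_shadow {t d : ℕ} (hd : d ∈ DD t) (e : ℕ)
    (he : ∀ i : ℕ, e.testBit i = true → d.testBit i = true) : e ∈ DD t := by
  rcases mem_DD.1 hd with rfl | ⟨i, hi, rfl⟩ | ⟨i, hi, s, hs1, hs2, rfl⟩
  · have : e = 0 := by
      apply Nat.eq_of_testBit_eq
      intro n
      rw [Nat.zero_testBit]
      by_contra hc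
      have := he n (by simpa using hc)
      simp at this
    rw [this]; exact hd
  · by_cases h1 : e.testBit i = true
    · have : e = 2 ^ i := by
        apply Nat.eq_of_testBit_eq
        intro n
        rw [Nat.testBit_two_pow]
        by_cases h2 : n = i
        · subst h2; simp [h1]
        · have : e.testBit n = false := by
            by_contra hc
            have := he n (by simpa using hc)
            rw [Nat.testBit_two_pow] at this
            simp at this
            exact h2 this.symm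
          simp [this, Ne.symm h2]
      rw [this]; exact hd
    · have : e = 0 := by
        apply Nat.eq_of_testBit_eq
        intro n
        rw [Nat.zero_testBit]
        by_contra hc
        have h3 := he n (by simpa using hc)
        rw [Nat.testBit_two_pow] at h3
        simp at h3
        subst h3
        simp at hc
        exact h1 hc
      rw [this]; exact mem_DD.2 (Or.inl rfl)
  · have hne := add_mod_ne hi hs1 hs2
    have hlt : (i + s) % t < t := Nat.mod_lt _ (by omega)
    have key : e = 0 ∨ e = 2 ^ i ∨ e = 2 ^ ((i + s) % t) ∨ e = 2 ^ i + 2 ^ ((i + s) % t) := by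
      rcases Nat.lt_or_gt_of_ne hne with h | h
      · rw [add_comm] at he
        rcases sub_pair h he with h | h | h | h
        · exact Or.inl h
        · exact Or.inr (Or.inr (Or.inl h))
        · exact Or.inr (Or.inl h)
        · exact Or.inr (Or.inr (Or.inr (by rw [h, add_comm])))
      · exact sub_pair h he
    rcases key with h | h | h | h
    · exact mem_DD.2 (Or.inl h)
    · exact mem_DD.2 (Or.inr (Or.inl ⟨_, hi, h⟩))
    · exact mem_DD.2 (Or.inr (Or.inl ⟨_, hlt, h⟩))
    · exact h ▸ hd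

/-! ### The field part -/

section Field

variable {K : Type*} [Field K] [Finite K] [Algebra (ZMod 2) K]

/-- functions given by polynomials with exponents in `D` -/
def IsD (D : Finset ℕ) (h : K → K) : Prop := ∃ c : ℕ → K, ∀ x : K, h x = ∑ d ∈ D, c d * x ^ d

theorem IsD.add {D : Finset ℕ} {g h : K → K} (hg : IsD D g) (hh : IsD D h) : IsD D (fun x => g x + h x) := by
  obtain ⟨c, hc⟩ := hg
  obtain ⟨c', hc'⟩ := hh
  refine ⟨fun d => c d + c' d, fun x => ?_⟩
  simp only [hc, hc', add_mul, Finset.sum_add_distrib]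

theorem IsD.zero {D : Finset ℕ} : IsD D (fun _ : K => (0 : K)) := ⟨fun _ => 0, fun x => by simp⟩

theorem IsD.mono {D : Finset ℕ} {d : ℕ} (hd : d ∈ D) (a : K) : IsD D (fun x : K => a * x ^ d) := by
  refine ⟨fun e => if e = d then a else 0, fun x => ?_⟩
  simp [ite_mul, hd]

theorem IsD.sum {D : Finset ℕ} {ι : Type*} (s : Finset ι) (g : ι → K → K) (hg : ∀ i ∈ s, IsD D (g i)) :
    IsD D (fun x => ∑ i ∈ s, g i x) := by
  classical
  induction s using Finset.induction_on with
  | empty => simpa using IsD.zero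
  | insert a s ha ih =>
    simp only [Finset.sum_insert ha]
    exact (hg a (Finset.mem_insert_self _ _)).add (ih fun i hi => hg i (Finset.mem_insert_of_mem hi))

/-- the functions to `F_2` whose lift has exponents in `D` form a subspace -/
def PD (D : Finset ℕ) : Submodule (ZMod 2) (K → ZMod 2) where
  carrier := {f | IsD D (fun x : K => algebraMap (ZMod 2) K (f x))}
  zero_mem' := by simpa using IsD.zero
  add_mem' := by
    intro f g hf hg
    have := IsD.add hf hg
    simpa using this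
  smul_mem' := by
    intro a f hf
    obtain ⟨c, hc⟩ := hf
    refine ⟨fun d => algebraMap (ZMod 2) K a * c d, fun x => ?_⟩
    simp only [Pi.smul_apply, smul_eq_mul, map_mul, hc, Finset.mul_sum, mul_assoc]

theorem pow_rot_field {t : ℕ} (hK : Nat.card K = 2 ^ t) {d : ℕ} (hd : 1 ≤ d) (x : K) :
    x ^ (2 * d) = x ^ ((2 * d - 1) % (2 ^ t - 1) + 1) := by
  have hx : x ^ (2 ^ t) = x := by
    have := Fintype.ofFinite K
    rw [← hK, Nat.card_eq_fintype_card]; exact FiniteField.pow_card x
  rcases eq_or_ne x 0 with rfl | hx0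
  · rw [zero_pow (by omega), zero_pow (by omega)]
  · have h1 : x ^ (2 ^ t - 1) = 1 := by
      have h0 : 1 ≤ 2 ^ t := Nat.one_le_two_pow
      have h2 : x ^ (2 ^ t - 1) * x = 1 * x := by
        rw [← pow_succ, Nat.sub_add_cancel h0, hx, one_mul]
      exact mul_right_cancel₀ hx0 h2
    have e : 2 * d = (2 * d - 1) + 1 := by omega
    conv_lhs => rw [e, pow_succ, ← Nat.mod_add_div (2 * d - 1) (2 ^ t - 1), pow_add, pow_mul, h1,
      one_pow, mul_one]
    rw [pow_succ]

theorem isD_frob {t : ℕ} (ht : 2 ≤ t) (hK : Nat.card K = 2 ^ t) (s : ℕ) {d : ℕ} (hd : d ∈ DD t) (h0 : d ≠ 0) :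
    ∃ e ∈ DD t, e ≠ 0 ∧ ∀ x : K, x ^ (2 ^ s * d) = x ^ e := by
  induction s with
  | zero => exact ⟨d, hd, h0, fun x => by simp⟩
  | succ s ih =>
    obtain ⟨e, he, he0, h⟩ := ih
    refine ⟨(2 * e - 1) % (2 ^ t - 1) + 1, DD_rot ht he he0, by omega, fun x => ?_⟩
    have : 2 ^ (s + 1) * d = 2 * (2 ^ s * d) := by ring
    rw [← pow_rot_field hK (by omega), this, mul_comm 2, pow_mul, h, ← pow_mul, mul_comm e]

theorem trace_mem_PD {t : ℕ} (ht : 2 ≤ t) (hK : Nat.card K = 2 ^ t) {d : ℕ} (hd : d ∈ DD t) (h0 : d ≠ 0)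
    (a : K) : (fun x : K => Algebra.trace (ZMod 2) K (a * x ^ d)) ∈ PD (K := K) (DD t) := by
  change IsD (DD t) (fun x : K => algebraMap (ZMod 2) K (Algebra.trace (ZMod 2) K (a * x ^ d)))
  have h1 : (fun x : K => algebraMap (ZMod 2) K (Algebra.trace (ZMod 2) K (a * x ^ d))) =
      fun x => ∑ i ∈ Finset.range (Module.finrank (ZMod 2) K), a ^ 2 ^ i * (x ^ (2 ^ i * d)) := by
    funext x
    rw [FiniteField.algebraMap_trace_eq_sum_pow]
    apply Finset.sum_congr rfl
    intro i _
    rw [Nat.card_zmod, mul_pow, ← pow_mul, mul_comm d]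
  rw [h1]
  apply IsD.sum
  intro i _
  obtain ⟨e, he, _, h⟩ := isD_frob ht hK i hd h0
  simp only [h]
  exact IsD.mono he _

/-- the key rank argument -/
theorem rank_step {t k : ℕ} (ht : k + 5 ≤ t) (hK : Nat.card K = 2 ^ t)
    (hf : Module.finrank (ZMod 2) K = t) (α : Fin k → K) (lam : Fin k → ZMod 2)
    (h : ∀ d ∈ DD t, d ≠ 0 → ∑ i, algebraMap (ZMod 2) K (lam i) * α i ^ d = 0) :
    ∑ i, algebraMap (ZMod 2) K (lam i) * α i ^ 3 = 0 := by
  classical
  by_contra hne
  obtain ⟨m1, hm1⟩ : ∃ m1, m1 = ∑ i, algebraMap (ZMod 2) K (lam i) * α i ^ 3 := ⟨_, rfl⟩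
  rw [← hm1] at hne
  obtain ⟨m2, hm2⟩ : ∃ m2, m2 = ∑ i, algebraMap (ZMod 2) K (lam i) * α i ^ (2 ^ (t - 1) + 1) := ⟨_, rfl⟩
  let M : K →ₗ[ZMod 2] K := ∑ i, lam i • (((Algebra.trace (ZMod 2) K).comp
    (LinearMap.mulLeft (ZMod 2) (α i))).smulRight (α i))
  have hM : ∀ y, M y = m1 * y ^ 2 + m2 * y ^ (2 ^ (t - 1)) := by
    intro y
    have h1 : M y = ∑ s ∈ Finset.range t, (∑ i, algebraMap (ZMod 2) K (lam i) * α i ^ (2 ^ s + 1)) * y ^ 2 ^ s := by
      simp only [M, LinearMap.sum_apply, LinearMap.smul_apply, LinearMap.smulRight_apply,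
        LinearMap.comp_apply, LinearMap.mulLeft_apply]
      simp only [Finset.sum_mul]
      rw [Finset.sum_comm]
      apply Finset.sum_congr rfl
      intro i _
      rw [Algebra.smul_def, Algebra.smul_def, FiniteField.algebraMap_trace_eq_sum_pow, hf,
        Finset.sum_mul, Finset.mul_sum]
      apply Finset.sum_congr rfl
      intro s _
      rw [Nat.card_zmod, mul_pow, pow_succ]
      ring
    rw [h1]
    have h2 : ∀ s ∈ Finset.range t, s ≠ 1 → s ≠ t - 1 →
        (∑ i, algebraMap (ZMod 2) K (lam i) * α i ^ (2 ^ s + 1)) * y ^ 2 ^ s = 0 := by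
      intro s hs hs1 hs2
      have hs' := Finset.mem_range.1 hs
      have : 2 ^ s + 1 ∈ DD t := by
        rcases Nat.eq_zero_or_pos s with rfl | hpos
        · exact mem_DD.2 (Or.inr (Or.inl ⟨1, by omega, by norm_num⟩))
        · refine mem_DD.2 (Or.inr (Or.inr ⟨0, by omega, s, by omega, by omega, ?_⟩))
          rw [zero_add, Nat.mod_eq_of_lt hs', pow_zero, add_comm]
      rw [h _ this (Nat.succ_ne_zero _), zero_mul]
    have h3 : ({1, t - 1} : Finset ℕ) ⊆ Finset.range t := by
      intro s hs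
      simp only [Finset.mem_insert, Finset.mem_singleton] at hs
      rw [Finset.mem_range]
      omega
    rw [← Finset.sum_subset h3]
    · rw [Finset.sum_pair (by omega), ← hm2, pow_one]
      norm_num only []
      rw [← hm1]
    · intro s hs hs'
      simp only [Finset.mem_insert, Finset.mem_singleton, not_or] at hs'
      exact h2 s hs hs'.1 hs'.2
  have hpow : ∀ y : K, y ^ (2 ^ t) = y := by
    intro y
    have := Fintype.ofFinite K
    rw [← hK, Nat.card_eq_fintype_card]; exact FiniteField.pow_card y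
  -- the kernel is small
  let P : Polynomial K := Polynomial.C (m1 ^ 2) * Polynomial.X ^ 4 - Polynomial.C (m2 ^ 2) * Polynomial.X
  have hP0 : P ≠ 0 := by
    intro h0
    have : P.coeff 4 = m1 ^ 2 := by
      simp only [P, Polynomial.coeff_sub, Polynomial.coeff_C_mul, Polynomial.coeff_X_pow,
        Polynomial.coeff_X]
      norm_num
    rw [h0, Polynomial.coeff_zero] at this
    exact hne (by simpa using this.symm)
  have hPd : P.natDegree ≤ 4 := by
    have : P.natDegree ≤ 4 := by
      simp only [P]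
      compute_degree
    exact this
  have hker : ((LinearMap.ker M : Submodule (ZMod 2) K) : Set K) ⊆ (P.roots.toFinset : Set K) := by
    intro y hy
    have hy0 : M y = 0 := hy
    rw [hM] at hy0
    have h1 : m1 * y ^ 2 = - (m2 * y ^ (2 ^ (t - 1))) := eq_neg_of_add_eq_zero_left hy0
    have h2 : (m1 * y ^ 2) ^ 2 = (m2 * y ^ (2 ^ (t - 1))) ^ 2 := by rw [h1, neg_sq]
    have h3 : (y ^ (2 ^ (t - 1))) ^ 2 = y := by
      rw [← pow_mul, ← pow_succ, Nat.sub_add_cancel (by omega), hpow]
    rw [mul_pow, mul_pow, h3] at h2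
    simp only [Finset.mem_coe, Multiset.mem_toFinset]
    rw [Polynomial.mem_roots hP0, Polynomial.IsRoot.def]
    simp only [P, Polynomial.eval_sub, Polynomial.eval_mul, Polynomial.eval_C, Polynomial.eval_pow,
      Polynomial.eval_X]
    rw [← h2]; ring
  have hc : Nat.card (LinearMap.ker M) ≤ 4 := by
    have h1 : Set.ncard ((LinearMap.ker M : Submodule (ZMod 2) K) : Set K) ≤ P.roots.toFinset.card := by
      rw [← Set.ncard_coe_finset]
      exact Set.ncard_le_ncard hker (Finset.finite_toSet _)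
    have h2 : P.roots.toFinset.card ≤ 4 :=
      (Multiset.toFinset_card_le _).trans ((Polynomial.card_roots' _).trans hPd)
    exact h1.trans h2
  have hkr : Module.finrank (ZMod 2) (LinearMap.ker M) ≤ 2 := by
    rw [Module.natCard_eq_pow_finrank (K := ZMod 2), Nat.card_zmod] at hc
    have : 2 ^ Module.finrank (ZMod 2) (LinearMap.ker M) ≤ 2 ^ 2 := hc
    exact (Nat.pow_le_pow_iff_right (by norm_num)).1 this
  have hrg : Module.finrank (ZMod 2) (LinearMap.range M) ≤ k := by
    have h1 : LinearMap.range M ≤ Submodule.span (ZMod 2) (Set.range α) := by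
      rintro _ ⟨y, rfl⟩
      simp only [M, LinearMap.sum_apply, LinearMap.smul_apply, LinearMap.smulRight_apply]
      apply Submodule.sum_mem
      intro i _
      exact Submodule.smul_mem _ _ (Submodule.smul_mem _ _ (Submodule.subset_span ⟨i, rfl⟩))
    have h2 := Submodule.finrank_mono h1
    have h3 := finrank_range_le_card (R := ZMod 2) α
    rw [Fintype.card_fin] at h3
    exact h2.trans h3
  have := LinearMap.finrank_range_add_finrank_ker M
  rw [hf] at this
  omega

theorem trace_form_zero {t k : ℕ} (ht : 2 ≤ t) (hK : Nat.card K = 2 ^ t)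
    (α : Fin k → K) (lam : Fin k → ZMod 2)
    (h : ∀ g ∈ PD (K := K) (DD t), ∑ i, lam i * g (α i) = 0) :
    ∀ d ∈ DD t, d ≠ 0 → ∑ i, algebraMap (ZMod 2) K (lam i) * α i ^ d = 0 := by
  intro d hd h0
  have hnd := traceForm_nondegenerate (ZMod 2) K
  apply hnd.1
  intro a
  rw [Algebra.traceForm_apply]
  have h1 := h _ (trace_mem_PD ht hK hd h0 a)
  have h2 : (∑ i, algebraMap (ZMod 2) K (lam i) * α i ^ d) * a =
      ∑ i, lam i • (a * α i ^ d) := by
    rw [Finset.sum_mul]
    apply Finset.sum_congr rfl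
    intro i _
    rw [Algebra.smul_def]; ring
  rw [h2, map_sum]
  simp only [map_smul, smul_eq_mul]
  exact h1

/-- local agreement -/
theorem local_agree {t k : ℕ} (ht : k + 5 ≤ t) (hK : Nat.card K = 2 ^ t)
    (hf : Module.finrank (ZMod 2) K = t) (α : Fin k → K) :
    ∃ g ∈ PD (K := K) (DD t), ∀ i, g (α i) = Algebra.trace (ZMod 2) K (α i ^ 3) := by
  classical
  let R : (K → ZMod 2) →ₗ[ZMod 2] (Fin k → ZMod 2) := LinearMap.funLeft (ZMod 2) (ZMod 2) α
  let S : Submodule (ZMod 2) (Fin k → ZMod 2) := (PD (K := K) (DD t)).map R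
  by_contra hcon
  have hv : (fun i => Algebra.trace (ZMod 2) K (α i ^ 3)) ∉ S := by
    rintro ⟨g, hg, hg2⟩
    exact hcon ⟨g, hg, fun i => congrFun hg2 i⟩
  obtain ⟨φ, hφ1, hφ2⟩ := Submodule.exists_dual_map_eq_bot_of_notMem hv inferInstance
  let lam : Fin k → ZMod 2 := fun i => φ (Pi.single i 1)
  have hφ : ∀ v : Fin k → ZMod 2, φ v = ∑ i, lam i * v i := by
    intro v
    rw [LinearMap.pi_apply_eq_sum_univ φ v]
    apply Finset.sum_congr rfl
    intro i _
    simp only [lam, smul_eq_mul]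
    rw [mul_comm]
    congr 2
    funext j
    simp [Pi.single_apply, eq_comm]
  have h1 : ∀ g ∈ PD (K := K) (DD t), ∑ i, lam i * g (α i) = 0 := by
    intro g hg
    have : φ (R g) ∈ S.map φ := ⟨R g, ⟨g, hg, rfl⟩, rfl⟩
    rw [hφ2, Submodule.mem_bot, hφ] at this
    exact this
  have h2 := rank_step ht hK hf α lam (trace_form_zero (by omega) hK α lam h1)
  apply hφ1
  rw [hφ]
  have h3 : ∑ i, lam i * Algebra.trace (ZMod 2) K (α i ^ 3) =
      Algebra.trace (ZMod 2) K (∑ i, algebraMap (ZMod 2) K (lam i) * α i ^ 3) := by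
    rw [map_sum]
    apply Finset.sum_congr rfl
    intro i _
    rw [← Algebra.smul_def, map_smul, smul_eq_mul]
  rw [h3, h2, map_zero]

open Polynomial in
/-- the trace of `x^3` is not in the property -/
theorem trace_notMem {t : ℕ} (ht : 3 ≤ t) (hK : Nat.card K = 2 ^ t)
    (hf : Module.finrank (ZMod 2) K = t) :
    ¬ ∃ c : ℕ → K, ∀ x : K, algebraMap (ZMod 2) K (Algebra.trace (ZMod 2) K (x ^ 3)) =
      ∑ d ∈ DD t, c d * x ^ d := by
  classical
  have hpow : ∀ y : K, y ^ (2 ^ t) = y := by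
    intro y
    have := Fintype.ofFinite K
    rw [← hK, Nat.card_eq_fintype_card]; exact FiniteField.pow_card y
  rintro ⟨c, hc⟩
  let P : K[X] := (∑ i ∈ Finset.range (t - 1), X ^ (3 * 2 ^ i)) + X ^ (2 ^ (t - 1) + 1)
  let Q : K[X] := ∑ d ∈ DD t, C (c d) * X ^ d
  have hPQ : P = Q := by
    have hdeg : (P - Q).degree < (2 ^ t : ℕ) := by
      apply lt_of_le_of_lt (degree_sub_le _ _)
      apply max_lt
      · apply lt_of_le_of_lt (degree_add_le _ _)
        apply max_lt
        · apply lt_of_le_of_lt (degree_sum_le _ _)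
          rw [Finset.sup_lt_iff (by exact WithBot.bot_lt_coe _)]
          intro i hi
          have hi' := Finset.mem_range.1 hi
          rw [degree_X_pow]
          have : 3 * 2 ^ i < 2 ^ t := by
            have h2 : 2 ^ (i + 2) ≤ 2 ^ t := Nat.pow_le_pow_right (by norm_num) (by omega)
            have h3 : 2 ^ (i + 2) = 4 * 2 ^ i := by ring
            have h4 : 0 < 2 ^ i := by positivity
            omega
          exact_mod_cast this
        · rw [degree_X_pow]
          have : 2 ^ (t - 1) + 1 < 2 ^ t := by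
            have h2 : 2 ^ (t - 1 + 1) = 2 * 2 ^ (t - 1) := by ring
            rw [Nat.sub_add_cancel (by omega)] at h2
            have h3 : 2 ^ 2 ≤ 2 ^ (t - 1) := Nat.pow_le_pow_right (by norm_num) (by omega)
            omega
          exact_mod_cast this
      · apply lt_of_le_of_lt (degree_sum_le _ _)
        rw [Finset.sup_lt_iff (by exact WithBot.bot_lt_coe _)]
        intro d hd
        apply lt_of_le_of_lt (degree_C_mul_X_pow_le _ _)
        exact_mod_cast (DD_bound hd).1
    have hcard : (Nat.card K : WithBot ℕ) = ((2 ^ t : ℕ) : WithBot ℕ) := by rw [hK]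
    by_contra hne
    have hne' : P - Q ≠ 0 := sub_ne_zero.2 hne
    have := Fintype.ofFinite K
    have hroots : (Finset.univ : Finset K) ⊆ (P - Q).roots.toFinset := by
      intro x _
      rw [Multiset.mem_toFinset, mem_roots hne', IsRoot.def, eval_sub, sub_eq_zero]
      simp only [P, Q, eval_add, eval_finsetSum, eval_pow, eval_X, eval_mul, eval_C]
      rw [← hc x, FiniteField.algebraMap_trace_eq_sum_pow, hf]
      obtain ⟨u, rfl⟩ : ∃ u, t = u + 1 := ⟨t - 1, by omega⟩
      rw [Finset.sum_range_succ]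
      simp only [Nat.card_zmod, Nat.add_sub_cancel, ← pow_mul]
      congr 1
      have : 3 * 2 ^ u = 2 ^ (u + 1) + 2 ^ u := by ring
      rw [this, pow_add x (2 ^ (u + 1)), hpow, pow_succ, mul_comm]
    have h1 := Finset.card_le_card hroots
    have h2 := (Multiset.toFinset_card_le (P - Q).roots).trans (card_roots' _)
    have h3 : (P - Q).natDegree < 2 ^ t := (natDegree_lt_iff_degree_lt hne').2 hdeg
    rw [Finset.card_univ, ← Nat.card_eq_fintype_card, hK] at h1
    omega
  have h1 : P.coeff 3 = 1 := by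
    simp only [P, coeff_add, finsetSum_coeff, coeff_X_pow]
    have h2 : ∀ i ∈ Finset.range (t - 1), (if 3 = 3 * 2 ^ i then (1 : K) else 0) = if i = 0 then 1 else 0 := by
      intro i _
      by_cases hi : i = 0
      · subst hi; simp
      · have : 1 < 2 ^ i := Nat.one_lt_two_pow hi
        rw [if_neg (by omega), if_neg hi]
    rw [Finset.sum_congr rfl h2]
    have h3 : ¬ (3 = 2 ^ (t - 1) + 1) := by
      have h3 : 2 ^ 2 ≤ 2 ^ (t - 1) := Nat.pow_le_pow_right (by norm_num) (by omega)
      omega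
    rw [if_neg h3, Finset.sum_ite_eq', if_pos (Finset.mem_range.2 (by omega))]
    simp
  have h2 : Q.coeff 3 = 0 := by
    simp only [Q, finsetSum_coeff, coeff_C_mul, coeff_X_pow]
    apply Finset.sum_eq_zero
    intro d hd
    have : 3 ≠ d := fun h => three_notMem (h ▸ hd)
    rw [if_neg this, mul_zero]
  rw [hPQ, h2] at h1
  exact zero_ne_one h1

end Field

/-- For every k there is a prime t and a proper subset D of the weight-at-most-2 exponents below 2^t, closed under doubling mod 2^t−1 and under binary shadows, such that the F_2-valued functions on F_{2^t} spanned by x^d, d in D, admit no characterization by k-point constraints. -/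
theorem result :
    ∀ k : ℕ, ∃ t : ℕ, t.Prime ∧ ∃ D : Finset ℕ,
      (∀ d ∈ D, d < 2 ^ t ∧ (Nat.digits 2 d).sum ≤ 2) ∧
      (∃ d : ℕ, d < 2 ^ t ∧ (Nat.digits 2 d).sum ≤ 2 ∧ d ∉ D) ∧
      (∀ d ∈ D, d ≠ 0 → (2 * d - 1) % (2 ^ t - 1) + 1 ∈ D) ∧
      (∀ d ∈ D, ∀ e : ℕ, (∀ i : ℕ, e.testBit i = true → d.testBit i = true) → e ∈ D) ∧
      ¬ ∃ C : Set ((Fin k → GaloisField 2 t) × Set (Fin k → ZMod 2)),
          ∀ f : GaloisField 2 t → ZMod 2,
            ((∃ c : ℕ → GaloisField 2 t, ∀ x : GaloisField 2 t,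
                algebraMap (ZMod 2) (GaloisField 2 t) (f x) = ∑ d ∈ D, c d * x ^ d) ↔
              ∀ p ∈ C, (fun i => f (p.1 i)) ∈ p.2) := by
  intro k
  obtain ⟨t, ht, htp⟩ := Nat.exists_infinite_primes (k + 5)
  refine ⟨t, htp, DD t, fun d hd => DD_bound hd, ⟨3, ?_, by norm_num, three_notMem⟩,
    fun d hd h0 => DD_rot (by omega) hd h0, fun d hd e he => DD_shadow hd e he, ?_⟩
  · have : 2 ^ 2 ≤ 2 ^ t := Nat.pow_le_pow_right (by norm_num) (by omega)
    omega
  · rintro ⟨C, hC⟩
    have hK : Nat.card (GaloisField 2 t) = 2 ^ t := GaloisField.card 2 t (by omega)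
    have hf : Module.finrank (ZMod 2) (GaloisField 2 t) = t := GaloisField.finrank 2 (by omega)
    apply trace_notMem (K := GaloisField 2 t) (t := t) (by omega) hK hf
    apply (hC (fun x => Algebra.trace (ZMod 2) (GaloisField 2 t) (x ^ 3))).2
    intro p hp
    obtain ⟨g, hg, hg2⟩ := local_agree ht hK hf p.1
    have h1 := (hC g).1 hg p hp
    have h2 : (fun i => g (p.1 i)) = fun i => Algebra.trace (ZMod 2) (GaloisField 2 t) (p.1 i ^ 3) :=
      funext hg2
    rw [h2] at h1
    exact h1

end Pool.Agent.S14999
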