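import Pool.Statements.S15550
import Pool.Agent.X212.ShortOrders

set_option autoImplicit false
open Pool Pool.MP_e6ce3e_lc

namespace Pool.Agent.S15550

/-- The negation of the preceding statement: There is a linear order L with no uncountable well-ordered or reverse-well-ordered subset, of size at least aleph_1, mapping monotonically onto every size-aleph_1 linear order embeddable in it, but with no monotone surjection onto the rationals. -/
theorem result :
    ¬ (∃ (L : Type) (_ : LinearOrder L),
      (∀ S : Set L, S.WellFoundedOn (· < ·) → S.Countable) ∧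
      (∀ S : Set L, S.WellFoundedOn (· > ·) → S.Countable) ∧
      Cardinal.aleph 1 ≤ Cardinal.mk L ∧
      (∀ (K : Type) [LinearOrder K], Cardinal.mk K = Cardinal.aleph 1 →
          Nonempty (K ↪o L) → ∃ f : L → K, Monotone f ∧ Function.Surjective f) ∧
      ¬ ∃ f : L → ℚ, Monotone f ∧ Function.Surjective f) := by
  rintro ⟨L, inst, h1, h2, hL, hsurj, hno⟩
  obtain ⟨K, hK, g, hg, hgs⟩ := Pool.Agent.X212.ShortOrders.exists_maps_onto h1 h2 hL
  obtain ⟨f, hf, hfs⟩ := hsurj K hK ⟨OrderEmbedding.subtype (· ∈ K)⟩
  exact hno ⟨g ∘ f, hg.comp hf, hgs.comp hfs⟩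

end Pool.Agent.S15550
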