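-- Proof of the frozen statement S16181 (the problem MP_192724_nt).
import Pool.Statements.S16181
import Pool.Agent.X19.LiouvilleQuad

set_option autoImplicit false

namespace Pool.Agent.S16181

/-- For every nonzero integer d, there are infinitely many n ≥ 1 such that n²+d is positive and has an odd number of prime factors counted with multiplicity, i.e. the Liouville function of n²+d equals −1. -/
theorem result :
    ∀ d : ℤ, d ≠ 0 →
      Set.Infinite {n : ℕ | 1 ≤ n ∧ 0 < (n : ℤ) ^ 2 + d ∧
        (-1 : ℤ) ^ (ArithmeticFunction.cardFactors (((n : ℤ) ^ 2 + d).toNat)) = -1} := by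
  intro d hd
  refine (Pool.Agent.X19.LQ.main d hd).mono ?_
  rintro n ⟨h1, h2, h3⟩
  refine ⟨h1, h2, ?_⟩
  have e : ((n : ℤ) ^ 2 + d).toNat = ((n : ℤ) ^ 2 + d).natAbs := by omega
  rw [e]
  exact h3.neg_one_pow

end Pool.Agent.S16181
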