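import Pool.Statements.S16733
-- import your own Pool.Agent.* helpers here

set_option autoImplicit false
open Pool Pool.MP_44e698_nt

namespace Pool.Agent.S16733

/-- the four-fold expansion of the summand (double geometric expansion) -/
noncomputable def F (q : ℂ) (u : (ℕ × ℕ) × (ℕ × ℕ)) : ℂ :=
  (-q) ^ (2 * (u.1.1 + 1) * (u.1.2 + 1) + (u.1.1 + 1)) *
    ((q ^ (2 * u.1.1 + 1)) ^ u.2.1 * (-(q ^ (u.1.2 + 1))) ^ u.2.2)

/-- weight after the change of variables -/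
noncomputable def W (i j c : ℕ) : ℂ := if i ≤ c then -(-1) ^ i else (-1) ^ j

/-- exponent after the change of variables -/
def E (i j c d : ℕ) : ℕ := 2 * i * j + i + j + 1 + 2 * (c + 1) * (d + 1)

noncomputable def G (q : ℂ) (u : (ℕ × ℕ) × (ℕ × ℕ)) : ℂ :=
  W u.1.1 u.1.2 u.2.1 * q ^ (E u.1.1 u.1.2 u.2.1 u.2.2)

/-- the change of variables -/
def toU (u : (ℕ × ℕ) × (ℕ × ℕ)) : (ℕ × ℕ) × (ℕ × ℕ) :=
  if u.2.2 % 2 = 0 then ((u.1.1, u.2.1), (u.1.1 + u.2.2 / 2, u.1.2))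
  else ((u.1.2 + 1 + u.2.1, u.1.1), (u.1.2, u.2.2 / 2))

def ofU (u : (ℕ × ℕ) × (ℕ × ℕ)) : (ℕ × ℕ) × (ℕ × ℕ) :=
  if u.1.1 ≤ u.2.1 then ((u.1.1, u.2.2), (u.1.2, 2 * (u.2.1 - u.1.1)))
  else ((u.1.2, u.2.1), (u.1.1 - u.2.1 - 1, 2 * u.2.2 + 1))

def Phi : ((ℕ × ℕ) × (ℕ × ℕ)) ≃ ((ℕ × ℕ) × (ℕ × ℕ)) where
  toFun := toU
  invFun := ofU
  left_inv := by
    rintro ⟨⟨a, b⟩, ⟨k, l⟩⟩
    unfold toU ofU
    dsimp only
    by_cases h : l % 2 = 0
    · simp only [h, if_true]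
      simp only [le_add_iff_nonneg_right, zero_le, if_true]
      refine Prod.ext rfl (Prod.ext rfl ?_)
      dsimp only
      omega
    · simp only [h, if_false]
      have h1 : ¬ (b + 1 + k ≤ b) := by omega
      simp only [h1, if_false]
      refine Prod.ext rfl (Prod.ext ?_ ?_)
      · dsimp only; omega
      · dsimp only; omega
  right_inv := by
    rintro ⟨⟨i, j⟩, ⟨c, d⟩⟩
    unfold toU ofU
    dsimp only
    by_cases h : i ≤ c
    · simp only [h, if_true]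
      have h1 : (2 * (c - i)) % 2 = 0 := by omega
      simp only [h1, if_true]
      refine Prod.ext rfl (Prod.ext ?_ rfl)
      dsimp only
      omega
    · simp only [h, if_false]
      have h1 : ¬ ((2 * d + 1) % 2 = 0) := by omega
      simp only [h1, if_false]
      refine Prod.ext (Prod.ext ?_ rfl) (Prod.ext rfl ?_)
      · dsimp only; omega
      · dsimp only; omega

lemma F_eq_G (q : ℂ) (u : (ℕ × ℕ) × (ℕ × ℕ)) : F q u = G q (Phi u) := by
  obtain ⟨⟨a, b⟩, ⟨k, l⟩⟩ := u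
  show F q ((a, b), (k, l)) = G q (toU ((a, b), (k, l)))
  unfold toU F G
  dsimp only
  by_cases h : l % 2 = 0
  · obtain ⟨e, he⟩ : ∃ e, l = 2 * e := ⟨l / 2, by omega⟩
    subst he
    have h2 : 2 * e / 2 = e := by omega
    simp only [h, if_true, h2]
    unfold W E
    simp only [le_add_iff_nonneg_right, zero_le, if_true]
    have h3 : (-(q ^ (b + 1))) ^ (2 * e) = q ^ (2 * e * (b + 1)) := by
      rw [pow_mul, neg_sq, ← pow_mul, ← pow_mul]
      congr 1; ring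
    have h4 : (-q) ^ (2 * (a + 1) * (b + 1) + (a + 1)) =
        -(-1) ^ a * q ^ (2 * (a + 1) * (b + 1) + (a + 1)) := by
      rw [neg_pow]
      congr 1
      rw [pow_add, mul_assoc, pow_mul]
      simp [pow_succ]
    rw [h3, h4, ← pow_mul, mul_assoc, ← pow_add, ← pow_add]
    congr 2
    ring
  · obtain ⟨e, he⟩ : ∃ e, l = 2 * e + 1 := ⟨l / 2, by omega⟩
    subst he
    have h2 : (2 * e + 1) / 2 = e := by omega
    simp only [h, if_false, h2]
    unfold W E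
    have h1 : ¬ (b + 1 + k ≤ b) := by omega
    simp only [h1, if_false]
    have h3 : (-(q ^ (b + 1))) ^ (2 * e + 1) = -(q ^ ((2 * e + 1) * (b + 1))) := by
      rw [Odd.neg_pow ⟨e, rfl⟩, ← pow_mul]
      congr 2; ring
    have h4 : (-q) ^ (2 * (a + 1) * (b + 1) + (a + 1)) =
        -(-1) ^ a * q ^ (2 * (a + 1) * (b + 1) + (a + 1)) := by
      rw [neg_pow]
      congr 1
      rw [pow_add, mul_assoc, pow_mul]
      simp [pow_succ]
    rw [h3, h4, ← pow_mul]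
    have h5 : -(-1 : ℂ) ^ a * q ^ (2 * (a + 1) * (b + 1) + (a + 1)) *
        (q ^ ((2 * a + 1) * k) * -q ^ ((2 * e + 1) * (b + 1))) =
        (-1) ^ a * (q ^ (2 * (a + 1) * (b + 1) + (a + 1)) *
        (q ^ ((2 * a + 1) * k) * q ^ ((2 * e + 1) * (b + 1)))) := by ring
    rw [h5, ← pow_add, ← pow_add]
    congr 2
    ring

lemma summable_F (q : ℂ) (hq : ‖q‖ < 1) : Summable (F q) := by
  set r := ‖q‖ with hr
  have hr0 : 0 ≤ r := norm_nonneg q
  have hg : Summable (fun n : ℕ => r ^ n) := summable_geometric_of_lt_one hr0 hq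
  have hgg : Summable (fun p : ℕ × ℕ => r ^ p.1 * r ^ p.2) :=
    hg.mul_of_nonneg hg (fun n => pow_nonneg hr0 n) (fun n => pow_nonneg hr0 n)
  have hgggg : Summable (fun u : (ℕ × ℕ) × (ℕ × ℕ) =>
      (r ^ u.1.1 * r ^ u.1.2) * (r ^ u.2.1 * r ^ u.2.2)) :=
    hgg.mul_of_nonneg hgg (fun n => by positivity) (fun n => by positivity)
  refine Summable.of_norm_bounded hgggg ?_
  rintro ⟨⟨a, b⟩, ⟨k, l⟩⟩
  unfold F
  dsimp only
  have e1 : ‖(-q) ^ (2 * (a + 1) * (b + 1) + (a + 1))‖ =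
      r ^ (2 * (a + 1) * (b + 1) + (a + 1)) := by rw [norm_pow, norm_neg]
  have e2 : ‖(q ^ (2 * a + 1)) ^ k‖ = r ^ ((2 * a + 1) * k) := by rw [← pow_mul, norm_pow]
  have e3 : ‖(-(q ^ (b + 1))) ^ l‖ = r ^ ((b + 1) * l) := by
    rw [norm_pow, norm_neg, norm_pow, ← pow_mul]
  rw [norm_mul, norm_mul, e1, e2, e3, ← pow_add, ← pow_add, ← pow_add, ← pow_add, ← pow_add]
  apply pow_le_pow_of_le_one hr0 hq.le
  nlinarith [Nat.zero_le (a * b), Nat.zero_le (a * k), Nat.zero_le (b * l)]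

lemma Y_eq (q : ℂ) (hq : ‖q‖ < 1) :
    (∑' p : ℕ × ℕ, (-q) ^ (2 * (p.1 + 1) * (p.2 + 1) + (p.1 + 1)) /
          ((1 + q ^ (p.2 + 1)) * (1 - q ^ (2 * p.1 + 1)))) = ∑' u, G q u := by
  rw [← Equiv.tsum_eq Phi]
  simp_rw [← F_eq_G]
  rw [(summable_F q hq).tsum_prod]
  apply tsum_congr
  rintro ⟨a, b⟩
  unfold F
  dsimp only
  rw [tsum_mul_left]
  have h1 : ‖q ^ (2 * a + 1)‖ < 1 := by
    rw [norm_pow]; exact pow_lt_one₀ (norm_nonneg q) hq (by omega)
  have h2 : ‖-(q ^ (b + 1))‖ < 1 := by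
    rw [norm_neg, norm_pow]; exact pow_lt_one₀ (norm_nonneg q) hq (by omega)
  have h3 : Summable (fun k : ℕ => ‖(q ^ (2 * a + 1)) ^ k‖) := by
    simp_rw [norm_pow]
    rw [← norm_pow]
    exact summable_geometric_of_lt_one (norm_nonneg _) h1
  have h4 : Summable (fun k : ℕ => ‖(-(q ^ (b + 1))) ^ k‖) := by
    simp_rw [norm_pow (-(q ^ (b + 1)))]
    exact summable_geometric_of_lt_one (norm_nonneg _) h2
  have h5 := tsum_mul_tsum_of_summable_norm h3 h4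
  rw [← h5, tsum_geometric_of_norm_lt_one h1, tsum_geometric_of_norm_lt_one h2, div_eq_mul_inv,
    mul_inv, sub_neg_eq_add, mul_comm (1 - q ^ (2 * a + 1))⁻¹]

lemma summable_G (q : ℂ) (hq : ‖q‖ < 1) : Summable (G q) := by
  rw [← Equiv.summable_iff Phi]
  have : (G q ∘ Phi) = F q := by
    funext u
    exact (F_eq_G q u).symm
  rw [this]
  exact summable_F q hq

/-- swapping the first two variables -/
def sw : ((ℕ × ℕ) × (ℕ × ℕ)) ≃ ((ℕ × ℕ) × (ℕ × ℕ)) :=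
  (Equiv.prodComm ℕ ℕ).prodCongr (Equiv.refl _)

lemma G_swap (q : ℂ) (u : (ℕ × ℕ) × (ℕ × ℕ)) :
    G (-q) (sw u) + G q (sw u) = -(G (-q) u + G q u) := by
  obtain ⟨⟨i, j⟩, ⟨c, d⟩⟩ := u
  show G (-q) ((j, i), (c, d)) + G q ((j, i), (c, d)) =
    -(G (-q) ((i, j), (c, d)) + G q ((i, j), (c, d)))
  unfold G
  dsimp only
  have hE : E j i c d = E i j c d := by unfold E; ring
  rw [hE]
  rcases Nat.even_or_odd (i + j) with h | h
  · have h1 : Odd (E i j c d) := by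
      unfold E
      obtain ⟨t, ht⟩ := h
      exact ⟨i * j + t + (c + 1) * (d + 1), by
        have : i + j + 1 = 2 * t + 1 := by omega
        calc 2 * i * j + i + j + 1 + 2 * (c + 1) * (d + 1)
            = 2 * (i * j) + (i + j + 1) + 2 * ((c + 1) * (d + 1)) := by ring
          _ = _ := by rw [this]; ring⟩
    rw [Odd.neg_pow h1]
    ring
  · have h1 : ∀ i j : ℕ, Odd (i + j) → W i j c = -(-1) ^ i := by
      intro i j h
      unfold W
      split_ifs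
      · rfl
      · have h2 : (-1 : ℂ) ^ (i + j) = -1 := Odd.neg_one_pow h
        rw [pow_add] at h2
        have h3 : (-1 : ℂ) ^ i * (-1) ^ i = 1 := by
          rw [← pow_add]; exact Even.neg_one_pow ⟨i, rfl⟩
        calc (-1 : ℂ) ^ j = ((-1) ^ i * (-1) ^ i) * (-1) ^ j := by rw [h3, one_mul]
          _ = (-1) ^ i * ((-1) ^ i * (-1) ^ j) := by ring
          _ = _ := by rw [h2]; ring
    have h2 : (-1 : ℂ) ^ j = -(-1) ^ i := by
      have h2 : (-1 : ℂ) ^ (i + j) = -1 := Odd.neg_one_pow h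
      rw [pow_add] at h2
      have h3 : (-1 : ℂ) ^ i * (-1) ^ i = 1 := by
        rw [← pow_add]; exact Even.neg_one_pow ⟨i, rfl⟩
      calc (-1 : ℂ) ^ j = ((-1) ^ i * (-1) ^ i) * (-1) ^ j := by rw [h3, one_mul]
        _ = (-1) ^ i * ((-1) ^ i * (-1) ^ j) := by ring
        _ = _ := by rw [h2]; ring
    rw [h1 i j h, h1 j i (by rwa [add_comm]), h2]
    ring

/-- For every complex q with ∣q∣<1, let Y(q) be the sum over m,n≥1 of (-q)^(2mn+m)/((1+q^n)(1-q^(2m-1))). Then Y(-q) = -Y(q), i.e. Y is an odd function. -/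
theorem result :
    ∀ q : ℂ, ‖q‖ < 1 →
      (∑' p : ℕ × ℕ, (-(-q)) ^ (2 * (p.1 + 1) * (p.2 + 1) + (p.1 + 1)) /
          ((1 + (-q) ^ (p.2 + 1)) * (1 - (-q) ^ (2 * p.1 + 1))))
        = -(∑' p : ℕ × ℕ, (-q) ^ (2 * (p.1 + 1) * (p.2 + 1) + (p.1 + 1)) /
          ((1 + q ^ (p.2 + 1)) * (1 - q ^ (2 * p.1 + 1)))) := by
  intro q hq
  have hq' : ‖-q‖ < 1 := by rwa [norm_neg]
  rw [Y_eq q hq, Y_eq (-q) hq']
  have hs := (summable_G (-q) hq').tsum_add (summable_G q hq)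
  have h1 : ∑' u, (G (-q) u + G q u) = -∑' u, (G (-q) u + G q u) := by
    conv_lhs => rw [← Equiv.tsum_eq sw]
    simp_rw [G_swap]
    rw [tsum_neg]
  have h2 : ∑' u, (G (-q) u + G q u) = 0 := by
    have h3 : (2 : ℂ) * ∑' u, (G (-q) u + G q u) = 0 := by
      linear_combination h1
    simpa using h3
  rw [h2] at hs
  linear_combination -hs

end Pool.Agent.S16733
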