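import Pool.Statements.S16808
import Pool.Agent.X106.EPBlock

set_option autoImplicit false
open Pool Pool.MP_493793_nt

namespace Pool.Agent.S16808

open Pool.Agent.X106 Finset

/-- the phase `2 (x/3)^(3/2)` -/
noncomputable def ph (x : ℝ) : ℝ := 2 * (1 / 3 : ℝ) ^ (3 / 2 : ℝ) * x ^ (3 / 2 : ℝ)

lemma ph_eq (x : ℝ) (hx : 0 ≤ x) : ph x = 2 * Real.sqrt (x / 3) ^ 3 := by
  unfold ph
  rw [mul_assoc, ← Real.mul_rpow (by norm_num) hx]
  rw [show (1 / 3 : ℝ) * x = x / 3 by ring]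
  congr 1
  rw [Real.sqrt_eq_rpow, ← Real.rpow_natCast, ← Real.rpow_mul (by positivity)]
  norm_num

/-- `e(2 (n/3)^(3/2))` for `n = 3 m^2 + t` -/
lemma e_ph (m n : ℕ) (t : ℝ) (h : (n : ℝ) = 3 * (m : ℝ) ^ 2 + t) :
    e (ph n) = e (G m t) := by
  have hnn : (0 : ℝ) ≤ (m : ℝ) ^ 2 + t / 3 := by
    have : (0 : ℝ) ≤ n := by positivity
    linarith
  have hs := sq_sq m t hnn
  have hsq : Real.sqrt ((n : ℝ) / 3) = Pool.Agent.X106.sq m t := by
    unfold Pool.Agent.X106.sq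
    congr 1
    rw [h]; ring
  rw [ph_eq _ (by positivity), hsq]
  have h1 : 2 * Pool.Agent.X106.sq m t ^ 3 = G m t + (((m : ℤ) * n - (m : ℤ) ^ 3 : ℤ) : ℝ) := by
    unfold G
    set s := Pool.Agent.X106.sq m t
    push_cast
    have h2 : (n : ℝ) = 3 * s ^ 2 := by rw [h, hs]; ring
    rw [h2]
    ring
  rw [h1, e_add, e_int, mul_one]

/-- start of a block -/
def bs (m : ℕ) : ℕ := 3 * m ^ 2 - 3 * m + 1

lemma bs_succ (m : ℕ) : bs (m + 1) = bs m + 6 * m := by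
  unfold bs
  have h1 : 3 * (m + 1) ^ 2 = 3 * m ^ 2 + 6 * m + 3 := by ring
  have h2 : 3 * m ≤ 3 * m ^ 2 := by nlinarith [Nat.le_self_pow (n := 2) (by norm_num) m]
  omega

lemma bs_cast (m : ℕ) : (bs m : ℝ) = 3 * (m : ℝ) ^ 2 - 3 * m + 1 := by
  unfold bs
  have h2 : 3 * m ≤ 3 * m ^ 2 := by nlinarith [Nat.le_self_pow (n := 2) (by norm_num) m]
  push_cast [Nat.cast_sub h2]
  ring

lemma block_sum (m : ℕ) :
    ∑ n ∈ Ico (bs m) (bs (m + 1)), e (ph n) = ∑ j ∈ range (6 * m), e (G m ((j : ℝ) - 3 * m + 1)) := by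
  rw [Finset.sum_Ico_eq_sum_range, bs_succ]
  rw [show bs m + 6 * m - bs m = 6 * m by omega]
  apply Finset.sum_congr rfl
  intro j _
  apply e_ph
  push_cast
  rw [bs_cast]
  ring

lemma sum_blocks (p q : ℕ) (h : p ≤ q) :
    ∑ n ∈ Ico (bs p) (bs q), e (ph n) = ∑ m ∈ Ico p q, ∑ n ∈ Ico (bs m) (bs (m + 1)), e (ph n) := by
  have hmono : Monotone bs := monotone_nat_of_le_succ (fun m => by rw [bs_succ]; omega)
  induction q, h using Nat.le_induction with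
  | base => simp
  | succ q hq ih =>
    rw [Finset.sum_Ico_succ_top hq, ← ih]
    exact (Finset.sum_Ico_consecutive _ (hmono hq) (hmono (Nat.le_succ q))).symm

lemma big (k : ℕ) (hk : 1000 ≤ k) :
    (k : ℝ) * Real.sqrt k / 5 ≤ ‖∑ n ∈ Ico (bs (5 * k)) (bs (7 * k)), e (ph n)‖ := by
  have h1 : (k : ℝ) * Real.sqrt k / 5 ≤
      (e (-1 / 8) * ∑ n ∈ Ico (bs (5 * k)) (bs (7 * k)), e (ph n)).re := by
    rw [sum_blocks _ _ (by omega), Finset.mul_sum, Complex.re_sum]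
    have h2 : ∑ m ∈ Ico (5 * k) (7 * k), Real.sqrt k / 10 ≤
        ∑ m ∈ Ico (5 * k) (7 * k), (e (-1 / 8) * ∑ n ∈ Ico (bs m) (bs (m + 1)), e (ph n)).re := by
      apply Finset.sum_le_sum
      intro m hm
      rw [Finset.mem_Ico] at hm
      rw [block_sum]
      refine le_trans ?_ (block m (by omega))
      have : (k : ℝ) ≤ m := by exact_mod_cast (by omega : k ≤ m)
      have := Real.sqrt_le_sqrt this
      linarith
    rw [Finset.sum_const, Nat.card_Ico, nsmul_eq_mul] at h2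
    rw [show 7 * k - 5 * k = 2 * k by omega] at h2
    push_cast at h2
    linarith
  refine h1.trans ((Complex.re_le_norm _).trans ?_)
  rw [norm_mul, norm_e, one_mul]

/-- coefficient in the `j`-th derivative -/
noncomputable def pc (j : ℕ) : ℝ := 2 * (1 / 3 : ℝ) ^ (3 / 2 : ℝ) * |(descPochhammer ℝ j).eval (3 / 2 : ℝ)|

lemma pc_pos (j : ℕ) : 0 < pc j := by
  unfold pc
  have h : (descPochhammer ℝ j).eval (3 / 2 : ℝ) ≠ 0 := by
    rw [descPochhammer_eval_eq_prod_range, Finset.prod_ne_zero_iff]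
    intro i _ h0
    have h1 : (3 : ℝ) = 2 * i := by linarith
    have h2 : (3 : ℕ) = 2 * i := by exact_mod_cast h1
    omega
  have := abs_pos.2 h
  positivity

lemma ph_contDiffAt (x : ℝ) (hx : 0 < x) (n : WithTop ℕ∞) : ContDiffAt ℝ n ph x := by
  unfold ph
  exact contDiffAt_const.mul (Real.contDiffAt_rpow_const_of_ne hx.ne')

lemma ph_deriv (j : ℕ) (N : ℝ) (hN : 0 < N) (x : ℝ) (hx : x ∈ Set.Icc N (2 * N)) :
    |iteratedDerivWithin j ph (Set.Icc N (2 * N)) x| = pc j * x ^ (3 / 2 - j : ℝ) := by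
  have hx0 : 0 < x := lt_of_lt_of_le hN hx.1
  rw [iteratedDerivWithin_eq_iteratedDeriv (uniqueDiffOn_Icc (by linarith)) (ph_contDiffAt x hx0 _) hx]
  have h1 : iteratedDeriv j ph x = 2 * (1 / 3 : ℝ) ^ (3 / 2 : ℝ) *
      ((descPochhammer ℝ j).eval (3 / 2 : ℝ) * x ^ (3 / 2 - j : ℝ)) := by
    have h2 : iteratedDeriv j ph x = 2 * (1 / 3 : ℝ) ^ (3 / 2 : ℝ) *
        iteratedDeriv j (fun x : ℝ => x ^ (3 / 2 : ℝ)) x := by
      unfold ph
      exact iteratedDeriv_const_mul_field _ _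
    rw [h2, iteratedDeriv_eq_iterate, Real.iter_deriv_rpow_const]
  have hA : (0 : ℝ) ≤ 2 * (1 / 3 : ℝ) ^ (3 / 2 : ℝ) := by positivity
  have hB : (0 : ℝ) ≤ x ^ (3 / 2 - j : ℝ) := by positivity
  rw [h1, pc, abs_mul (2 * (1 / 3 : ℝ) ^ (3 / 2 : ℝ)), abs_mul ((descPochhammer ℝ j).eval (3 / 2 : ℝ)),
    abs_of_nonneg hA, abs_of_nonneg hB]
  ring

lemma rpow_compare (N : ℝ) (hN : 0 < N) (x : ℝ) (hx : x ∈ Set.Icc N (2 * N)) (r : ℝ) :
    (2 : ℝ) ^ (-|r|) * N ^ r ≤ x ^ r ∧ x ^ r ≤ (2 : ℝ) ^ |r| * N ^ r := by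
  have hy : x = (x / N) * N := by field_simp
  have hy1 : 1 ≤ x / N := by rw [le_div_iff₀ hN]; linarith [hx.1]
  have hy2 : x / N ≤ 2 := by rw [div_le_iff₀ hN]; linarith [hx.2]
  have hy0 : 0 ≤ x / N := by linarith
  rw [hy, Real.mul_rpow hy0 hN.le]
  have hNr : 0 ≤ N ^ r := by positivity
  constructor
  · apply mul_le_mul_of_nonneg_right _ hNr
    calc (2 : ℝ) ^ (-|r|) ≤ (x / N) ^ (-|r|) :=
          Real.rpow_le_rpow_of_nonpos (by linarith) hy2 (by simp)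
      _ ≤ (x / N) ^ r := Real.rpow_le_rpow_of_exponent_le hy1 (neg_abs_le r)
  · apply mul_le_mul_of_nonneg_right _ hNr
    calc (x / N) ^ r ≤ (x / N) ^ |r| := Real.rpow_le_rpow_of_exponent_le hy1 (le_abs_self r)
      _ ≤ (2 : ℝ) ^ |r| := Real.rpow_le_rpow hy0 hy2 (abs_nonneg r)

/-- The negation of the preceding statement: For each ε>0 and constants c_j,C_j>0 there is K: if 2≤N≤N'≤2N, F≥N, f smooth on [N,2N] with c_j F/N^j ≤ ∣f^(j)∣ ≤ C_j F/N^j for all j≥0, then ∣Σ_{N≤n≤N'} e(f(n))∣ ≤ K N^{1/2} F^ε. -/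
theorem result :
    ¬ (∀ ε : ℝ, 0 < ε → ∀ c C : ℕ → ℝ, (∀ j, 0 < c j) → (∀ j, 0 < C j) →
      ∃ K : ℝ, ∀ N N' F : ℝ, ∀ f : ℝ → ℝ,
        2 ≤ N → N ≤ N' → N' ≤ 2 * N → N ≤ F →
        ContDiffOn ℝ (⊤ : ℕ∞) f (Set.Icc N (2 * N)) →
        (∀ j : ℕ, ∀ x ∈ Set.Icc N (2 * N),
            c j * F / N ^ j ≤ |iteratedDerivWithin j f (Set.Icc N (2 * N)) x| ∧
            |iteratedDerivWithin j f (Set.Icc N (2 * N)) x| ≤ C j * F / N ^ j) →
        ‖∑ n ∈ Finset.Icc ⌈N⌉₊ ⌊N'⌋₊,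
            Complex.exp (2 * (Real.pi : ℂ) * Complex.I * ((f (n : ℝ) : ℝ) : ℂ))‖
          ≤ K * N ^ (1 / 2 : ℝ) * F ^ ε) := by
  intro H
  obtain ⟨K, hK⟩ := H (1 / 12) (by norm_num) (fun j => pc j * (2 : ℝ) ^ (-|(3 / 2 - j : ℝ)|))
    (fun j => pc j * (2 : ℝ) ^ |(3 / 2 - j : ℝ)|)
    (fun j => mul_pos (pc_pos j) (by positivity)) (fun j => mul_pos (pc_pos j) (by positivity))
  -- choose the size
  obtain ⟨i, hi⟩ := exists_nat_gt (max 1000 (375 * |K|))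
  have hi1 : (1000 : ℝ) < i := lt_of_le_of_lt (le_max_left _ _) hi
  have hi2 : 375 * |K| < i := lt_of_le_of_lt (le_max_right _ _) hi
  have hi1' : 1000 < i := by exact_mod_cast hi1
  set k := i ^ 4 with hk
  have hki : i ≤ k := Nat.le_self_pow (by norm_num) i
  have hk1000 : 1000 ≤ k := by omega
  have hkR : (1000 : ℝ) ≤ k := by exact_mod_cast hk1000
  have hA : (bs (5 * k) : ℝ) = 75 * (k : ℝ) ^ 2 - 15 * k + 1 := by rw [bs_cast]; push_cast; ring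
  have hB : (bs (7 * k) : ℝ) = 147 * (k : ℝ) ^ 2 - 21 * k + 1 := by rw [bs_cast]; push_cast; ring
  have hBpos : 1 ≤ bs (7 * k) := by unfold bs; omega
  have hB' : ((bs (7 * k) - 1 : ℕ) : ℝ) = 147 * (k : ℝ) ^ 2 - 21 * k := by
    rw [Nat.cast_sub hBpos, hB]; push_cast; ring
  set N : ℝ := (bs (5 * k) : ℝ) with hN
  have hN0 : 2 ≤ N := by rw [hA]; nlinarith
  have hNpos : 0 < N := by linarith
  have key := hK N ((bs (7 * k) - 1 : ℕ) : ℝ) (N ^ (3 / 2 : ℝ)) ph hN0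
    (by rw [hB', hA]; nlinarith) (by rw [hB', hA]; nlinarith)
    (by
      calc N = N ^ (1 : ℝ) := (Real.rpow_one N).symm
        _ ≤ N ^ (3 / 2 : ℝ) := Real.rpow_le_rpow_of_exponent_le (by linarith) (by norm_num))
    (fun x hx => (ph_contDiffAt x (lt_of_lt_of_le hNpos hx.1) _).contDiffWithinAt)
    (by
      intro j x hx
      rw [ph_deriv j N hNpos x hx]
      have h1 : N ^ (3 / 2 : ℝ) / N ^ j = N ^ (3 / 2 - j : ℝ) := by
        rw [Real.rpow_sub hNpos, Real.rpow_natCast]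
      have h2 := rpow_compare N hNpos x hx (3 / 2 - j)
      have h3 := pc_pos j
      constructor
      · rw [mul_div_assoc, h1, mul_assoc]
        exact mul_le_mul_of_nonneg_left h2.1 h3.le
      · rw [mul_div_assoc, h1, mul_assoc]
        exact mul_le_mul_of_nonneg_left h2.2 h3.le)
  rw [hN, Nat.ceil_natCast, Nat.floor_natCast, ← hN] at key
  have hset : Finset.Icc (bs (5 * k)) (bs (7 * k) - 1) = Finset.Ico (bs (5 * k)) (bs (7 * k)) := by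
    ext n
    rw [Finset.mem_Icc, Finset.mem_Ico]
    omega
  rw [hset] at key
  have hbig := big k hk1000
  have hkey2 : (k : ℝ) * Real.sqrt k / 5 ≤ K * N ^ (1 / 2 : ℝ) * (N ^ (3 / 2 : ℝ)) ^ (1 / 12 : ℝ) :=
    hbig.trans key
  have hNN : N ^ (1 / 2 : ℝ) * (N ^ (3 / 2 : ℝ)) ^ (1 / 12 : ℝ) = N ^ (5 / 8 : ℝ) := by
    rw [← Real.rpow_mul hNpos.le, ← Real.rpow_add hNpos]
    norm_num
  rw [mul_assoc, hNN] at hkey2
  have hiR : (0 : ℝ) ≤ i := by positivity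
  have hsq : Real.sqrt (k : ℝ) = (i : ℝ) ^ 2 := by
    rw [hk]
    push_cast
    rw [show (i : ℝ) ^ 4 = ((i : ℝ) ^ 2) ^ 2 by ring]
    exact Real.sqrt_sq (by positivity)
  have hN58 : N ^ (5 / 8 : ℝ) ≤ 75 * (i : ℝ) ^ 5 := by
    have h1 : N ≤ 75 * (i : ℝ) ^ 8 := by
      rw [hA, hk]
      push_cast
      have : (0 : ℝ) ≤ (i : ℝ) ^ 4 - 1 := by
        have : (1 : ℝ) ≤ (i : ℝ) ^ 4 := one_le_pow₀ (by linarith)
        linarith
      nlinarith
    calc N ^ (5 / 8 : ℝ) ≤ (75 * (i : ℝ) ^ 8) ^ (5 / 8 : ℝ) :=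
          Real.rpow_le_rpow hNpos.le h1 (by norm_num)
      _ = (75 : ℝ) ^ (5 / 8 : ℝ) * (i : ℝ) ^ 5 := by
          rw [Real.mul_rpow (by norm_num) (by positivity)]
          congr 1
          rw [← Real.rpow_natCast, ← Real.rpow_mul hiR]
          rw [show ((8 : ℕ) : ℝ) * (5 / 8 : ℝ) = ((5 : ℕ) : ℝ) by norm_num, Real.rpow_natCast]
      _ ≤ 75 * (i : ℝ) ^ 5 := by
          apply mul_le_mul_of_nonneg_right _ (by positivity)
          calc (75 : ℝ) ^ (5 / 8 : ℝ) ≤ (75 : ℝ) ^ (1 : ℝ) :=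
                Real.rpow_le_rpow_of_exponent_le (by norm_num) (by norm_num)
            _ = 75 := Real.rpow_one _
  have hfin : (i : ℝ) ^ 6 / 5 ≤ |K| * (75 * (i : ℝ) ^ 5) := by
    have h1 : (k : ℝ) * Real.sqrt k / 5 = (i : ℝ) ^ 6 / 5 := by
      rw [hsq, hk]; push_cast; ring
    rw [← h1]
    refine hkey2.trans ?_
    calc K * N ^ (5 / 8 : ℝ) ≤ |K| * N ^ (5 / 8 : ℝ) := by
          apply mul_le_mul_of_nonneg_right (le_abs_self K) (by positivity)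
      _ ≤ _ := mul_le_mul_of_nonneg_left hN58 (abs_nonneg K)
  have hi5 : (0 : ℝ) < (i : ℝ) ^ 5 := by
    apply pow_pos; linarith
  have : (i : ℝ) ^ 5 * i ≤ (i : ℝ) ^ 5 * (375 * |K|) := by nlinarith
  have := le_of_mul_le_mul_left this hi5
  linarith

end Pool.Agent.S16808
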