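import Pool.Statements.S16915
import Pool.Agent.X85.Ratio

set_option autoImplicit false
open MeasureTheory
open Pool Pool.MP_4fa6ed_nt

namespace Pool.Agent.S16915

/-- If a≥1, gcd(a,b,d)=1, and b=d or a divides bd, then for every measure-preserving action of the positive rationals under multiplication and every positive-measure set A, some ratio (an+b)/(an+d) with n≥1 and both terms positive returns A to itself in positive measure. -/
theorem result :
    ∀ (a : ℕ) (b d : ℤ), 0 < a →
      (∀ k : ℤ, k ∣ (a : ℤ) → k ∣ b → k ∣ d → IsUnit k) →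
      (b = d ∨ (a : ℤ) ∣ b * d) →
      ∀ (X : Type) [MeasurableSpace X] (μ : Measure X) [IsProbabilityMeasure μ]
        (T : ℚ → X → X),
        T 1 = id →
        (∀ q r : ℚ, 0 < q → 0 < r → T (q * r) = T q ∘ T r) →
        (∀ q : ℚ, 0 < q → MeasurePreserving (T q) μ μ) →
        ∀ A : Set X, MeasurableSet A → 0 < μ A →
          ∃ n : ℕ, 0 < n ∧ 0 < (a : ℤ) * n + b ∧ 0 < (a : ℤ) * n + d ∧
            0 < μ (A ∩ T (((a : ℚ) * n + b) / ((a : ℚ) * n + d)) ⁻¹' A) :=
  Pool.Agent.X85.Ratio.main

end Pool.Agent.S16915
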