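import Pool.Statements.S16940
import Pool.Agent.X24.LCenter

set_option autoImplicit false
open Complex DirichletCharacter
open Pool Pool.MP_50d0fc_nt

namespace Pool.Agent.S16940

/-- The negation of the preceding statement: There are A>0, D>1/2 such that for prime q→∞, uniformly in θ in [0,2π], the max over non-principal χ mod q with L(1/2,χ)≠0 of Re(e^{-iθ}L'/L(1/2,χ)) is asymptotic to A·√(log q)·(log log q)^D. -/
theorem result :
    ¬ (∃ A D : ℝ, 0 < A ∧ 1 / 2 < D ∧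
      ∀ ε : ℝ, 0 < ε → ∃ Q : ℕ, ∀ (q : ℕ) [NeZero q], q.Prime → Q ≤ q →
        ∀ θ : ℝ, θ ∈ Set.Icc (0 : ℝ) (2 * Real.pi) →
          (∀ χ : DirichletCharacter ℂ q, χ ≠ 1 → LFunction χ (1 / 2) ≠ 0 →
            (Complex.exp (-(θ : ℂ) * Complex.I) *
                (deriv (LFunction χ) (1 / 2) / LFunction χ (1 / 2))).re ≤
              (1 + ε) * A * Real.sqrt (Real.log q) * (Real.log (Real.log q)) ^ D) ∧
          (∃ χ : DirichletCharacter ℂ q, χ ≠ 1 ∧ LFunction χ (1 / 2) ≠ 0 ∧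
            (1 - ε) * A * Real.sqrt (Real.log q) * (Real.log (Real.log q)) ^ D ≤
              (Complex.exp (-(θ : ℂ) * Complex.I) *
                (deriv (LFunction χ) (1 / 2) / LFunction χ (1 / 2))).re)) := by
  rintro ⟨A, D, hA, hD, h⟩
  obtain ⟨Q, hQ⟩ := h 1 one_pos
  -- the contributions of the gamma factors
  obtain ⟨c, hc⟩ : ∃ c : ℝ, c = |(logDeriv (fun s : ℂ => Gammaℝ s) (1 / 2)).re| +
    |(logDeriv (fun s : ℂ => Gammaℝ (s + 1)) (1 / 2)).re| := ⟨_, rfl⟩
  obtain ⟨q, hq1, hq⟩ := Nat.exists_infinite_primes (Q + 3 + ⌈Real.exp (2 * c + 1)⌉₊)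
  have : NeZero q := ⟨hq.ne_zero⟩
  have hqr : Real.exp (2 * c + 1) ≤ q := (Nat.le_ceil _).trans (by exact_mod_cast (by omega : _ ≤ q))
  have hlog : 2 * c + 1 ≤ Real.log q := by
    rw [Real.le_log_iff_exp_le (by exact_mod_cast hq.pos)]
    exact hqr
  have h3 : (3 : ℝ) ≤ q := by exact_mod_cast (by omega : 3 ≤ q)
  have hlog1 : 1 ≤ Real.log q := by
    have : 1 ≤ Real.log 3 := by
      rw [Real.le_log_iff_exp_le (by norm_num)]
      exact Real.exp_one_lt_three.le
    exact this.trans (Real.log_le_log (by norm_num) h3)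
  obtain ⟨χ, hχ, h0, hle⟩ := (hQ q hq (by omega) 0 ⟨le_rfl, by positivity⟩).2
  have hp : χ.IsPrimitive := by
    rw [isPrimitive_def]
    rcases (Nat.dvd_prime hq).mp (conductor_dvd_level χ) with h1 | h1
    · exact absurd (eq_one_iff_conductor_eq_one.mpr h1) hχ
    · exact h1
  have hre := Pool.Agent.X24.re_logDeriv hp hχ h0
  have hle' : 0 ≤ (deriv (LFunction χ) (1 / 2) / LFunction χ (1 / 2)).re := by
    simpa using hle
  rw [hre] at hle'
  have hb : |(logDeriv (gammaFactor χ) (1 / 2)).re| ≤ c := by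
    rw [hc]
    rcases Pool.Agent.X24.gammaFactor_cases χ with ⟨hg, _⟩ | ⟨hg, _⟩ <;> rw [hg]
    · exact le_add_of_nonneg_right (abs_nonneg _)
    · exact le_add_of_nonneg_left (abs_nonneg _)
  have := neg_abs_le (logDeriv (gammaFactor χ) (1 / 2)).re
  linarith

end Pool.Agent.S16940
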