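import Pool.Statements.S17043
import Pool.Agent.X86.CF.Chain

set_option autoImplicit false
open Pool Pool.MP_590852_nt

namespace Pool.Agent.S17043

open Pool.Agent.X86.CF in
/-- Every real x with 0 < x ≤ 1 equals g₁ + g₂, where g₁ and g₂ lie in (0,1) and the continued fraction partial quotients of each (computed via the Gauss map) tend to infinity. -/
theorem result :
    ∀ x : ℝ, 0 < x → x ≤ 1 →
      ∃ g₁ g₂ : ℝ,
        g₁ ∈ Set.Ioo (0 : ℝ) 1 ∧ g₂ ∈ Set.Ioo (0 : ℝ) 1 ∧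
        Filter.Tendsto (fun n : ℕ => ⌊1 / ((fun y : ℝ => Int.fract (1 / y))^[n] g₁)⌋)
          Filter.atTop Filter.atTop ∧
        Filter.Tendsto (fun n : ℕ => ⌊1 / ((fun y : ℝ => Int.fract (1 / y))^[n] g₂)⌋)
          Filter.atTop Filter.atTop ∧
        x = g₁ + g₂ := by
  intro x hx0 hx1
  obtain ⟨a, b, ξ, ζ, ha, hb, hξ, hζ, h⟩ : ∃ (a b : ℕ → ℕ) (ξ ζ : ℕ → ℝ),
      Filter.Tendsto a Filter.atTop Filter.atTop ∧ Filter.Tendsto b Filter.atTop Filter.atTop ∧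
      (∀ i, 1 < ξ i ∧ ξ i = a i + 1 / ξ (i + 1)) ∧ (∀ i, 1 < ζ i ∧ ζ i = b i + 1 / ζ (i + 1)) ∧
      x = 1 / ξ 0 + 1 / ζ 0 := by
    by_cases hirr : Irrational x
    · refine irrational_case hx0 (lt_of_le_of_ne hx1 ?_) hirr
      rintro rfl
      exact hirr.ne_one rfl
    · exact rational_case hx0 hx1 hirr
  exact ⟨1 / ξ 0, 1 / ζ 0, mem_Ioo_of hξ, mem_Ioo_of hζ, digits_tendsto hξ ha,
    digits_tendsto hζ hb, h⟩

end Pool.Agent.S17043
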