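import Pool.Statements.S17475
import Pool.Agent.X283.AGP.Main

/-!
# Carmichael numbers almost all of whose residues are Fermat liars (MP_773b62_nt, S17475)

The construction of Alford, Granville and Pomerance, with the primes taken to be `1 + K d` for
divisors `d` of a number `w` and a very large multiplier `K`, gives Carmichael numbers `n` with
`φ(n) / n` as close to `1` as we like.  The proof (`Pool.Agent.X283.AGP`) uses the library for the
primes in progressions (`Pool.Agent.Y79.PSP.PRM`) and for the theorem of van Emde Boas-Kruyswijk
(`Pool.Agent.Y37.PSP.dav`).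
-/

set_option autoImplicit false
open Pool Pool.MP_773b62_nt

namespace Pool.Agent.S17475

/-- For every ε>0 there are arbitrarily large composite n such that the number of residues a mod n with a^(n-1) ≡ 1 mod n exceeds (1-ε)n, i.e. the limsup over composites of F(n)/n equals 1. -/
theorem result :
    ∀ ε : ℝ, 0 < ε → ∀ N : ℕ, ∃ n : ℕ, N < n ∧ 1 < n ∧ ¬ Nat.Prime n ∧
      (1 - ε) * (n : ℝ) <
        (((Finset.range n).filter (fun a => a ^ (n - 1) ≡ 1 [MOD n])).card : ℝ) := by
  intro ε hε N
  obtain ⟨n, h1, h2, h3, -, -, h4⟩ := Pool.Agent.X283.AGP.main ε hε N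
  exact ⟨n, h1, h2, h3, h4⟩

end Pool.Agent.S17475
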