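import Pool.Statements.S17899
import Pool.Agent.X21.PhiP

set_option autoImplicit false
open Filter Topology
open Pool Pool.MP_9d1108_nt

namespace Pool.Agent.S17899

open Pool.Agent.X21.PhiP

/-- threshold after which the parameter `k` may be used -/
def T (k : ℕ) : ℕ := k * (4 * k^2).factorial

/-- slowly growing parameter -/
noncomputable def kk (x : ℕ) : ℕ := Nat.findGreatest (fun k => T k ≤ x) x

lemma T_kk_le (x : ℕ) : T (kk x) ≤ x := by
  unfold kk
  exact Nat.findGreatest_spec (P := fun k => T k ≤ x) (Nat.zero_le x) (by simp [T])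

lemma sq_le_T (k : ℕ) : k^2 ≤ T k := by
  unfold T
  rcases Nat.eq_zero_or_pos k with h | h
  · subst h; simp
  have h1 : 4 * k^2 ≤ (4 * k^2).factorial := Nat.self_le_factorial _
  have h2 : k ≤ k^2 := by nlinarith
  nlinarith [Nat.mul_le_mul_left k h1]

lemma kk_sq_le (x : ℕ) : (kk x)^2 ≤ x := (sq_le_T _).trans (T_kk_le x)

lemma tendsto_kk : Tendsto kk atTop atTop := by
  rw [tendsto_atTop]
  intro K
  filter_upwards [eventually_ge_atTop (max (T K) K)] with x hx
  unfold kk
  exact Nat.le_findGreatest (le_trans (le_max_right _ _) hx) (le_trans (le_max_left _ _) hx)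

/-- There is F with F(x)→∞ and F(n)/φ(n)→0 along a density-one set, such that for some C only finitely many x have more than C·F(x) integers n with n+φ(n) in the open interval (x, x+F(x)). -/
theorem result :
    ∃ F : ℕ → ℝ, Tendsto F atTop atTop ∧
      (∃ A : Set ℕ,
        Tendsto (fun N : ℕ => ((A ∩ Set.Iio N).ncard : ℝ) / (N : ℝ)) atTop (𝓝 1) ∧
        Tendsto (fun n : ℕ => F n / (Nat.totient n : ℝ)) (atTop ⊓ 𝓟 A) (𝓝 0)) ∧
      ¬ (∀ C : ℝ, Set.Infinite {x : ℕ |
          ((Set.ncard {n : ℕ | (x : ℝ) < (n : ℝ) + (Nat.totient n : ℝ) ∧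
              (n : ℝ) + (Nat.totient n : ℝ) < (x : ℝ) + F x} : ℕ) : ℝ) > C * F x}) := by
  refine ⟨fun x => (x:ℝ) / kk x, ?_, ⟨{n : ℕ | (n:ℝ) ≤ n.totient * √(kk n)}, ?_, ?_⟩, ?_⟩
  · -- F → ∞
    have h1 : Tendsto (fun x : ℕ => ((kk x : ℕ) : ℝ)) atTop atTop :=
      tendsto_natCast_atTop_atTop.comp tendsto_kk
    refine tendsto_atTop_mono' atTop ?_ h1
    filter_upwards [tendsto_kk.eventually_ge_atTop 1] with x hx
    have hpos : (0:ℝ) < kk x := by exact_mod_cast hx
    rw [le_div_iff₀ hpos]
    have := kk_sq_le x
    have : ((kk x)^2 : ℝ) ≤ x := by exact_mod_cast this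
    nlinarith
  · -- density one
    set A : Set ℕ := {n : ℕ | (n:ℝ) ≤ n.totient * √(kk n)} with hA
    have key : ∀ ε : ℝ, 0 < ε → ∀ᶠ N : ℕ in atTop, (N:ℝ) - ((A ∩ Set.Iio N).ncard : ℝ) ≤ ε * N := by
      intro ε hε
      obtain ⟨y, hy⟩ := exists_nat_gt (4 / ε)
      have hypos : (0:ℝ) < y := lt_trans (by positivity) hy
      have hy0 : y ≠ 0 := by
        rintro rfl; simp at hypos
      set cy : ℝ := ∏ p ∈ (Finset.range (y+1)).filter Nat.Prime, (1 - (p:ℝ)⁻¹) with hcy
      have hcypos : 0 < cy := by
        apply Finset.prod_pos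
        intro p hp
        have := inv_prime_le_half (Finset.mem_filter.1 hp).2
        linarith
      have hg : ∀ n, cy ≤ g y n := by
        intro n
        rw [hcy, g]
        have hsplit := Finset.prod_filter_mul_prod_filter_not ((Finset.range (y+1)).filter Nat.Prime)
          (fun p => p ∣ n) (fun p : ℕ => (1 - (p:ℝ)⁻¹))
        rw [← hsplit, Finset.filter_filter]
        have h1 : ∏ p ∈ (Finset.filter Nat.Prime (Finset.range (y+1))).filter (fun p => ¬ p ∣ n), (1 - (p:ℝ)⁻¹) ≤ 1 := by
          apply Finset.prod_le_one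
          · intro p hp
            have := inv_prime_le_half (Finset.mem_filter.1 (Finset.mem_filter.1 hp).1).2
            linarith
          · intro p hp
            have : (0:ℝ) ≤ (p:ℝ)⁻¹ := by positivity
            linarith
        have h2 : 0 < ∏ p ∈ (Finset.range (y+1)).filter (fun p => p.Prime ∧ p ∣ n), (1 - (p:ℝ)⁻¹) := g_pos y n
        calc _ ≤ (∏ p ∈ (Finset.range (y+1)).filter (fun p => p.Prime ∧ p ∣ n), (1 - (p:ℝ)⁻¹)) * 1 :=
              mul_le_mul_of_nonneg_left h1 h2.le
          _ = _ := mul_one _
      -- threshold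
      have hev : ∀ᶠ n : ℕ in atTop, 2 / cy ≤ √(kk n) := by
        have h1 : Tendsto (fun x : ℕ => √((kk x : ℕ) : ℝ)) atTop atTop :=
          Real.tendsto_sqrt_atTop.comp (tendsto_natCast_atTop_atTop.comp tendsto_kk)
        exact h1.eventually_ge_atTop _
      obtain ⟨N0, hN0⟩ := eventually_atTop.1 hev
      have hcompl : ∀ n, N0 ≤ n → n ∉ A → 1/2 < r y n := by
        intro n hn hnA
        by_contra hcon
        push Not at hcon
        apply hnA
        rw [hA]
        simp only [Set.mem_ofPred_eq]
        have h1 := @le_totient y n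
        have h2 := hN0 n hn
        have h3 := hg n
        have h4 : (n:ℝ) * (cy / 2) ≤ n.totient := by
          refine le_trans ?_ h1
          apply mul_le_mul_of_nonneg_left _ (by positivity)
          have hr := r_nonneg y n
          nlinarith
        calc (n:ℝ) = n * (cy / 2) * (2 / cy) := by field_simp
          _ ≤ n.totient * √(kk n) := by
            apply mul_le_mul h4 h2 (by positivity) (by positivity)
      have hcnt : ∀ N : ℕ, (N:ℝ) - ((A ∩ Set.Iio N).ncard : ℝ) ≤ N0 + 2 * N / y := by
        intro N
        classical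
        have h1 : (A ∩ Set.Iio N) = ((Finset.range N).filter (fun n => n ∈ A) : Finset ℕ) := by
          ext n; simp [and_comm]
        have h2 : (A ∩ Set.Iio N).ncard = ((Finset.range N).filter (fun n => n ∈ A)).card := by
          rw [h1, Set.ncard_coe_finset]
        have h3 : ((Finset.range N).filter (fun n => n ∈ A)).card + ((Finset.range N).filter (fun n => ¬ n ∈ A)).card = N := by
          rw [Finset.card_filter_add_card_filter_not, Finset.card_range]
        have h4 : ((Finset.range N).filter (fun n => ¬ n ∈ A)) ⊆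
            Finset.range N0 ∪ ((Finset.Icc 1 N).filter (fun n => 1/2 < r y n)) := by
          intro n hn
          simp only [Finset.mem_filter, Finset.mem_range] at hn
          simp only [Finset.mem_union, Finset.mem_range, Finset.mem_filter, Finset.mem_Icc]
          by_cases h : n < N0
          · left; exact h
          · right
            refine ⟨⟨?_, by omega⟩, hcompl n (by omega) hn.2⟩
            rcases Nat.eq_zero_or_pos n with h0 | h0
            · exfalso; apply hn.2; rw [hA, h0]; simp
            · exact h0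
        have h5 : (((Finset.range N).filter (fun n => ¬ n ∈ A)).card : ℝ) ≤ N0 + 2 * N / y := by
          have h6 : ((Finset.range N).filter (fun n => ¬ n ∈ A)).card ≤
              N0 + ((Finset.Icc 1 N).filter (fun n => 1/2 < r y n)).card := by
            refine (Finset.card_le_card h4).trans ((Finset.card_union_le _ _).trans ?_)
            rw [Finset.card_range]
          have h7 := card_r_gt y N hy0 (1/2) (by norm_num)
          have h8 : (((Finset.range N).filter (fun n => ¬ n ∈ A)).card : ℝ) ≤
              N0 + ((Finset.Icc 1 N).filter (fun n => 1/2 < r y n)).card := by exact_mod_cast h6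
          have h9 : (N:ℝ) / (y * (1/2)) = 2 * N / y := by field_simp
          rw [h9] at h7
          linarith
        rw [h2]
        have h10 : (N:ℝ) = ((Finset.range N).filter (fun n => n ∈ A)).card + ((Finset.range N).filter (fun n => ¬ n ∈ A)).card := by
          exact_mod_cast h3.symm
        linarith
      obtain ⟨N1, hN1⟩ := exists_nat_gt (2 * N0 / ε)
      filter_upwards [eventually_ge_atTop N1] with N hN
      have h1 := hcnt N
      have h2 : (2:ℝ) * N / y ≤ ε / 2 * N := by
        rw [div_le_iff₀ hypos]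
        have h4 : 4 < y * ε := by
          rw [div_lt_iff₀ hε] at hy; exact hy
        have : (0:ℝ) ≤ N := by positivity
        nlinarith
      have h3 : (N0:ℝ) ≤ ε / 2 * N := by
        have h5 : (2 * N0 / ε) < N := lt_of_lt_of_le hN1 (by exact_mod_cast hN)
        rw [div_lt_iff₀ hε] at h5
        linarith
      linarith
    -- conclude
    rw [Metric.tendsto_atTop]
    intro ε hε
    obtain ⟨N2, hN2⟩ := eventually_atTop.1 (key (ε/2) (by positivity))
    refine ⟨max N2 1, fun N hN => ?_⟩
    have hN1 : 1 ≤ N := le_trans (le_max_right _ _) hN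
    have hNpos : (0:ℝ) < N := by exact_mod_cast hN1
    have h1 := hN2 N (le_trans (le_max_left _ _) hN)
    have h2 : ((A ∩ Set.Iio N).ncard : ℝ) ≤ N := by
      have : (A ∩ Set.Iio N).ncard ≤ (Set.Iio N).ncard :=
        Set.ncard_le_ncard Set.inter_subset_right (Set.finite_Iio N)
      have h3 : (Set.Iio N).ncard = N := by
        rw [← Finset.coe_range, Set.ncard_coe_finset, Finset.card_range]
      rw [h3] at this
      exact_mod_cast this
    rw [Real.dist_eq, abs_lt]
    constructor
    · have : ((A ∩ Set.Iio N).ncard : ℝ) / N ≥ 1 - ε/2 := by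
        rw [ge_iff_le, le_div_iff₀ hNpos]; linarith
      linarith
    · have : ((A ∩ Set.Iio N).ncard : ℝ) / N ≤ 1 := by
        rw [div_le_one hNpos]; exact h2
      linarith
  · -- F / φ → 0 along A
    have hlim : Tendsto (fun n : ℕ => (√((kk n : ℕ) : ℝ))⁻¹) (atTop ⊓ 𝓟 {n : ℕ | (n:ℝ) ≤ n.totient * √(kk n)}) (𝓝 0) := by
      apply Tendsto.mono_left _ inf_le_left
      exact tendsto_inv_atTop_zero.comp
        (Real.tendsto_sqrt_atTop.comp (tendsto_natCast_atTop_atTop.comp tendsto_kk))
    refine squeeze_zero' ?_ ?_ hlim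
    · filter_upwards with n
      positivity
    · rw [eventually_inf_principal]
      filter_upwards [tendsto_kk.eventually_ge_atTop 1, eventually_ge_atTop 1] with n hn hn1 hnA
      have hnA : (n:ℝ) ≤ n.totient * √(kk n) := hnA
      have hk : (0:ℝ) < kk n := by exact_mod_cast hn
      have hs : 0 < √((kk n : ℕ) : ℝ) := Real.sqrt_pos.2 hk
      have hphi : (0:ℝ) < n.totient := by
        have := Nat.totient_pos.2 hn1
        exact_mod_cast this
      rw [div_div, div_le_iff₀ (by positivity), inv_mul_eq_div, le_div_iff₀ hs]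
      have hsq : √((kk n : ℕ) : ℝ) * √((kk n : ℕ) : ℝ) = kk n := Real.mul_self_sqrt hk.le
      calc (n:ℝ) * √((kk n : ℕ) : ℝ) ≤ (n.totient * √(kk n)) * √((kk n : ℕ) : ℝ) :=
            mul_le_mul_of_nonneg_right hnA hs.le
        _ = kk n * n.totient := by rw [mul_assoc, hsq, mul_comm]
  · -- bound
    intro hcon
    have h := hcon 5
    apply h
    apply Set.Finite.subset (Set.finite_Iio (T 1 + 2))
    intro x hx
    simp only [Set.mem_ofPred_eq, gt_iff_lt] at hx
    simp only [Set.mem_Iio]
    by_contra hcon2
    push Not at hcon2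
    have hk1 : 1 ≤ kk x := by
      unfold kk
      exact Nat.le_findGreatest (by omega) (by omega)
    have h1 := count (kk x) x hk1 (T_kk_le x)
    have hxpos : (0:ℝ) < x := by
      have : 0 < x := by omega
      exact_mod_cast this
    have hk : (0:ℝ) < kk x := by exact_mod_cast hk1
    have h2 : 0 < (x:ℝ) / kk x := by positivity
    linarith

end Pool.Agent.S17899
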