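import Pool.Statements.S18419

set_option autoImplicit false
open Pool Pool.MP_c520af_nt

namespace Pool.Agent.S18419

/-- The `i`-th of the `d` symmetric nodes `2i+1-d`. -/
def node (K : Type) [Field K] (d i : ℕ) : K := 2 * (i : K) + 1 - (d : K)

/-- The monic polynomial of degree `d` vanishing at the `d` symmetric nodes. -/
noncomputable def poly (K : Type) [Field K] (d : ℕ) : Polynomial K :=
  ∏ i ∈ Finset.range d, (Polynomial.X - Polynomial.C (node K d i))

lemma poly_natDegree (K : Type) [Field K] (d : ℕ) : (poly K d).natDegree = d := by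
  unfold poly
  rw [Polynomial.natDegree_prod_of_monic _ _ (fun i _ => Polynomial.monic_X_sub_C _)]
  simp

lemma poly_eval_node (K : Type) [Field K] (d i : ℕ) (hi : i < d) :
    (poly K d).eval (node K d i) = 0 := by
  unfold poly
  rw [Polynomial.eval_prod]
  apply Finset.prod_eq_zero (Finset.mem_range.mpr hi)
  simp

lemma neg_node (K : Type) [Field K] (d i : ℕ) (hi : i < d) :
    - node K d i = node K d (d - 1 - i) := by
  unfold node
  have h : ((d - 1 - i : ℕ) : K) = (d : K) - 1 - (i : K) := by
    rw [Nat.cast_sub (by omega), Nat.cast_sub (by omega)]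
    simp
  rw [h]; ring

lemma node_inj (K : Type) [Field K] [CharZero K] (d i j : ℕ) (h : node K d i = node K d j) :
    i = j := by
  unfold node at h
  have h2 : (2 : K) * (i : K) = 2 * (j : K) := by linear_combination h
  have h3 : (i : K) = (j : K) := mul_left_cancel₀ (by norm_num) h2
  exact_mod_cast h3

/-- For every number field K there are maps (x,y) to (y, F_d(y) − δ_d x), with deg F_d = d and δ_d ≠ 0, for each d ≥ 2, whose number of K-rational periodic points eventually exceeds C·d for every constant C. -/
theorem result :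
    ∀ (K : Type) [Field K] [NumberField K],
      ∃ (F : ℕ → Polynomial K) (δ : ℕ → K),
        (∀ d : ℕ, 2 ≤ d → (F d).natDegree = d ∧ δ d ≠ 0) ∧
        ∀ C : ℕ, ∃ D : ℕ, ∀ d : ℕ, 2 ≤ d → D ≤ d →
          (((C * d : ℕ) : ℕ∞) <
            {P : K × K | ∃ n : ℕ, 1 ≤ n ∧
              (fun p : K × K => (p.2, (F d).eval p.2 - δ d * p.1))^[n] P = P}.encard) := by
  intro K _ _
  refine ⟨fun d => poly K d, fun _ => 1, fun d _ => ⟨poly_natDegree K d, one_ne_zero⟩, ?_⟩
  intro C
  refine ⟨C + 1, fun d hd hC => ?_⟩
  classical
  -- the finite set of nodes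
  let S : Finset (K × K) :=
    (Finset.range d ×ˢ Finset.range d).image (fun q => (node K d q.1, node K d q.2))
  have hcard : S.card = d * d := by
    have : Set.InjOn (fun q : ℕ × ℕ => (node K d q.1, node K d q.2))
        (↑(Finset.range d ×ˢ Finset.range d)) := by
      rintro ⟨a, b⟩ _ ⟨a', b'⟩ _ h
      simp only [Prod.mk.injEq] at h
      rw [node_inj K d a a' h.1, node_inj K d b b' h.2]
    rw [Finset.card_image_of_injOn this]
    simp
  have hsub : (↑S : Set (K × K)) ⊆ {P : K × K | ∃ n : ℕ, 1 ≤ n ∧
      (fun p : K × K => (p.2, (poly K d).eval p.2 - 1 * p.1))^[n] P = P} := by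
    intro P hP
    simp only [S, Finset.coe_image, Set.mem_image, Finset.mem_coe, Finset.mem_product,
      Finset.mem_range, Prod.exists] at hP
    obtain ⟨a, b, ⟨ha, hb⟩, rfl⟩ := hP
    refine ⟨4, by norm_num, ?_⟩
    have step : ∀ a b : ℕ, a < d → b < d →
        (fun p : K × K => (p.2, (poly K d).eval p.2 - 1 * p.1)) (node K d a, node K d b)
          = (node K d b, node K d (d - 1 - a)) := by
      intro a b ha hb
      simp only [poly_eval_node K d b hb, one_mul, zero_sub]
      rw [neg_node K d a ha]
    show (fun p : K × K => (p.2, (poly K d).eval p.2 - 1 * p.1))^[4] (node K d a, node K d b)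
      = (node K d a, node K d b)
    generalize (fun p : K × K => (p.2, (poly K d).eval p.2 - 1 * p.1)) = f at step ⊢
    rw [Function.iterate_succ_apply, step a b ha hb, Function.iterate_succ_apply,
      step b (d - 1 - a) hb (by omega), Function.iterate_succ_apply,
      step (d - 1 - a) (d - 1 - b) (by omega) (by omega), Function.iterate_succ_apply,
      step (d - 1 - b) (d - 1 - (d - 1 - a)) (by omega) (by omega), Function.iterate_zero, id_eq]
    have e1 : d - 1 - (d - 1 - a) = a := by omega
    have e2 : d - 1 - (d - 1 - b) = b := by omega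
    rw [e1, e2]
  calc (((C * d : ℕ) : ℕ∞)) < ((d * d : ℕ) : ℕ∞) := by
        rw [Nat.cast_lt]
        exact Nat.mul_lt_mul_of_pos_right (by omega) (by omega)
    _ = (↑S : Set (K × K)).encard := by rw [Set.encard_coe_eq_coe_finsetCard, hcard]
    _ ≤ _ := Set.encard_le_encard hsub

end Pool.Agent.S18419
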