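import Pool.Statements.S18732
import Pool.Agent.Results.MP_e07dae_nt.SevenIntegers

set_option autoImplicit false
open Pool Pool.MP_e07dae_nt

namespace Pool.Agent.S18732

/-- The negation of the preceding statement: For each ε>0 there is C>0 such that for all n, positive integers a_i and nonzero integers b_i with product of a_i^b_i not 1, the distance of that product from 1 is at least C times max∣b_j∣ over ∣b_1…b_n a_1…a_n∣^(1+ε). -/
theorem result :
    ¬ (∀ ε : ℝ, 0 < ε → ∃ C : ℝ, 0 < C ∧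
      ∀ n : ℕ, ∀ a : Fin n → ℕ, ∀ b : Fin n → ℤ,
        (∀ i, 0 < a i) → (∀ i, b i ≠ 0) →
        (∏ i, ((a i : ℝ) ^ (b i))) ≠ 1 →
        C * ((Finset.univ.sup (fun j => (b j).natAbs) : ℕ) : ℝ) /
            ((|(∏ i, b i) * ∏ i, (a i : ℤ)| : ℤ) : ℝ) ^ (1 + ε)
          ≤ |(∏ i, ((a i : ℝ) ^ (b i))) - 1|) := by
  intro h
  obtain ⟨C, hC, hall⟩ := h (1 / 28) (by norm_num)
  obtain ⟨⟨a, b⟩, -, ha, hb, hP, k, hk, hlt⟩ :=
    (Pool.Agent.Results.MP_e07dae_nt.SevenIntegers.result (1 / 28) (by norm_num) (by norm_num)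
      C hC).nonempty
  simp only at ha hb hP hk hlt
  have h1 := hall 7 a b (fun i => lt_trans Nat.zero_lt_one (ha i)) hb hP
  refine absurd hlt (not_lt.2 ?_)
  refine le_trans (le_of_eq ?_) h1
  have hsup : ((Finset.univ.sup (fun j => (b j).natAbs) : ℕ)) = (b k).natAbs := by
    apply le_antisymm
    · refine Finset.sup_le fun j _ => ?_
      have h2 := hk j
      have h3 : |b j| = ((b j).natAbs : ℤ) := Int.abs_eq_natAbs _
      have h4 : |b k| = ((b k).natAbs : ℤ) := Int.abs_eq_natAbs _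
      omega
    · exact Finset.le_sup (f := fun j => (b j).natAbs) (Finset.mem_univ k)
  have hH : Pool.Agent.Results.MP_e07dae_nt.SevenIntegers.H a b
      = ((|(∏ i, b i) * ∏ i, (a i : ℤ)| : ℤ) : ℝ) := by
    unfold Pool.Agent.Results.MP_e07dae_nt.SevenIntegers.H
    push_cast
    rfl
  rw [hsup, hH]
  congr 2
  rw [Int.cast_abs, Nat.cast_natAbs, Int.cast_abs]

end Pool.Agent.S18732
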