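import Pool.Statements.S19226
import Pool.Agent.H921K.All
-- import your own Pool.Agent.* helpers here

set_option autoImplicit false
open Pool Pool.MP_284d10_pr

namespace Pool.Agent.S19226

open Finset Pool.Agent.H921S
open scoped Classical

noncomputable section

/-- the frozen clause type -/
abbrev FC (k n : ℕ) : Type :=
  {c : Finset (Fin n × Bool) // c.card = k ∧ (c.image Prod.fst).card = k}

/-- the frozen clause type is the structure `Clause` -/
def clEquiv (k n : ℕ) : Clause k n ≃ FC k n where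
  toFun C := ⟨C.lits, C.card_lits, by
    rw [Finset.card_image_of_injOn, C.card_lits]
    intro l hl l' hl' h
    exact C.distinct l hl l' hl' h⟩
  invFun c := ⟨c.1, c.2.1, by
    intro l hl l' hl' h
    have hinj : Set.InjOn Prod.fst (c.1 : Set (Fin n × Bool)) := by
      rw [← Finset.card_image_iff, c.2.2, c.2.1]
    exact hinj (by exact_mod_cast hl) (by exact_mod_cast hl') h⟩
  left_inv C := by ext; rfl
  right_inv c := by rfl

lemma card_eq (k n : ℕ) : Nat.card (FC k n) = Fintype.card (Clause k n) := by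
  rw [← Nat.card_congr (clEquiv k n), Nat.card_eq_fintype_card]

/-- orderings of the two clause types correspond -/
def ordEquiv (k n : ℕ) : Pool.Agent.H921S.Ord (Clause k n) ≃ (Fin (Nat.card (FC k n)) ≃ FC k n) :=
  Equiv.equivCongr (finCongr (card_eq k n).symm) (clEquiv k n)

lemma ordEquiv_symm (k n : ℕ) (σ : Pool.Agent.H921S.Ord (Clause k n)) (c : FC k n) :
    (((ordEquiv k n σ).symm c : Fin _) : ℕ) = (σ.symm ((clEquiv k n).symm c) : ℕ) := by
  rfl

/-- the frozen event -/
def Ev (k n : ℕ) (e : Fin (Nat.card (FC k n)) ≃ FC k n) : Prop :=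
  ∃ m : ℕ,
    (∀ j : ℕ, j < m → ∃ a : Fin n → Bool,
        ∀ c : FC k n, ((e.symm c : Fin _) : ℕ) < j → ∃ l ∈ c.val, a l.1 = l.2) ∧
    ∃ H : Finset (FC k n),
      H.Nonempty ∧
      (∀ c ∈ H, ((e.symm c : Fin _) : ℕ) < m) ∧
      ∃ a : Fin n → Bool,
        (∀ c ∈ H, ∃ l ∈ c.val, a l.1 = l.2) ∧
        ∀ b : Fin n → Bool, (∀ c ∈ H, ∃ l ∈ c.val, b l.1 = l.2) →
          ∀ i : Fin n, (∃ c ∈ H, ∃ l ∈ c.val, l.1 = i) → b i = a i

lemma ev_imp (n : ℕ) (σ : Pool.Agent.H921S.Ord (Clause 2 n)) (h : Ev 2 n (ordEquiv 2 n σ)) :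
    ¬ ∀ m, (∀ j < m, Sat (st σ j)) → ¬ HasUSS (st σ m) := by
  obtain ⟨m, h1, H, hne, hH, a, ha, hu⟩ := h
  intro hno
  refine hno m ?_ ?_
  · intro j hj
    obtain ⟨a, ha⟩ := h1 j hj
    refine ⟨a, ?_⟩
    intro C hC
    have hC' : (σ.symm C : ℕ) < j := by
      simpa [st] using hC
    have := ha (clEquiv 2 n C) (by rw [ordEquiv_symm]; simpa using hC')
    exact this
  · refine ⟨H.map (clEquiv 2 n).symm.toEmbedding, ?_, ?_, ?_, ?_⟩
    · intro C hC
      rw [Finset.mem_map_equiv] at hC
      have := hH _ hC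
      rw [ordEquiv_symm] at this
      simp only [Equiv.symm_symm, Equiv.symm_apply_apply] at this
      simpa [st] using this
    · simpa using hne
    · refine ⟨a, ?_⟩
      intro C hC
      rw [Finset.mem_map_equiv] at hC
      exact ha _ hC
    · intro x y hx hy v hv
      have key : ∀ z : Asg n, Sol z (H.map (clEquiv 2 n).symm.toEmbedding) → z v = a v := by
        intro z hz
        refine hu z ?_ v ?_
        · intro c hc
          have := hz ((clEquiv 2 n).symm c) (by
            rw [Finset.mem_map_equiv]; simpa using hc)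
          exact this
        · simp only [vars, Finset.mem_biUnion] at hv
          obtain ⟨C, hC, hv⟩ := hv
          rw [Finset.mem_map_equiv] at hC
          obtain ⟨l, hl, hlv⟩ := Finset.mem_image.1 hv
          exact ⟨_, hC, l, hl, hlv⟩
      rw [key x hx, key y hy]

/-- The negation of the preceding statement: For each k ≥ 2, under a uniformly random ordering of all k-clauses on n variables, the probability that some non-empty uniquely satisfiable subformula appears by the time the formula first becomes unsatisfiable tends to 1 as n grows. -/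
theorem result :
    ¬ (∀ k : ℕ, 2 ≤ k →
    Filter.Tendsto
      (fun n : ℕ =>
        (Nat.card {e : Fin (Nat.card {c : Finset (Fin n × Bool) // c.card = k ∧ (c.image Prod.fst).card = k}) ≃
                      {c : Finset (Fin n × Bool) // c.card = k ∧ (c.image Prod.fst).card = k} //
            ∃ m : ℕ,
              (∀ j : ℕ, j < m → ∃ a : Fin n → Bool,
                  ∀ c : {c : Finset (Fin n × Bool) // c.card = k ∧ (c.image Prod.fst).card = k},
                    ((e.symm c : Fin _) : ℕ) < j → ∃ l ∈ c.val, a l.1 = l.2) ∧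
              ∃ H : Finset {c : Finset (Fin n × Bool) // c.card = k ∧ (c.image Prod.fst).card = k},
                H.Nonempty ∧
                (∀ c ∈ H, ((e.symm c : Fin _) : ℕ) < m) ∧
                ∃ a : Fin n → Bool,
                  (∀ c ∈ H, ∃ l ∈ c.val, a l.1 = l.2) ∧
                  ∀ b : Fin n → Bool, (∀ c ∈ H, ∃ l ∈ c.val, b l.1 = l.2) →
                    ∀ i : Fin n, (∃ c ∈ H, ∃ l ∈ c.val, l.1 = i) → b i = a i} : ℝ) /
        (Nat.card (Fin (Nat.card {c : Finset (Fin n × Bool) // c.card = k ∧ (c.image Prod.fst).card = k}) ≃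
                      {c : Finset (Fin n × Bool) // c.card = k ∧ (c.image Prod.fst).card = k}) : ℝ))
      Filter.atTop (nhds 1)) := by
  intro hall
  have h2 := hall 2 le_rfl
  obtain ⟨δ, hδ, n0, hn0⟩ := Pool.Agent.H921K.fin2
  have hub : ∀ n ≥ n0, (Nat.card {e : Fin (Nat.card (FC 2 n)) ≃ FC 2 n // Ev 2 n e} : ℝ) /
      (Nat.card (Fin (Nat.card (FC 2 n)) ≃ FC 2 n) : ℝ) ≤ 1 - δ := by
    intro n hn
    have h1 := hn0 n hn
    have e1 : Nat.card {e : Fin (Nat.card (FC 2 n)) ≃ FC 2 n // Ev 2 n e} =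
        Nat.card {σ : Pool.Agent.H921S.Ord (Clause 2 n) // Ev 2 n (ordEquiv 2 n σ)} :=
      (Nat.card_congr ((ordEquiv 2 n).subtypeEquiv (fun σ => Iff.rfl))).symm
    have e2 : Nat.card (Fin (Nat.card (FC 2 n)) ≃ FC 2 n) = Fintype.card (Pool.Agent.H921S.Ord (Clause 2 n)) := by
      rw [← Nat.card_congr (ordEquiv 2 n), Nat.card_eq_fintype_card]
    rw [e1, e2]
    set P : Pool.Agent.H921S.Ord (Clause 2 n) → Prop := fun σ =>
      ∀ m, (∀ j < m, Sat (st σ j)) → ¬ HasUSS (st σ m) with hP
    have h3 : avg (fun σ : Pool.Agent.H921S.Ord (Clause 2 n) => ind (P σ)) =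
        ((univ.filter P).card : ℝ) / (Fintype.card (Pool.Agent.H921S.Ord (Clause 2 n)) : ℝ) := by
      unfold avg ind
      rw [Finset.sum_boole]
    have h1' : δ ≤ ((univ.filter P).card : ℝ) / (Fintype.card (Pool.Agent.H921S.Ord (Clause 2 n)) : ℝ) := by
      rw [← h3]; exact h1
    have hpos : (0 : ℝ) < (Fintype.card (Pool.Agent.H921S.Ord (Clause 2 n)) : ℝ) := by
      have : Nonempty (Pool.Agent.H921S.Ord (Clause 2 n)) := ⟨(Fintype.equivFin _).symm⟩
      exact_mod_cast Fintype.card_pos
    have h4 : Nat.card {σ : Pool.Agent.H921S.Ord (Clause 2 n) // Ev 2 n (ordEquiv 2 n σ)} ≤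
        (univ.filter (fun σ => ¬ P σ)).card := by
      rw [Nat.card_eq_fintype_card, Fintype.card_subtype]
      refine Finset.card_le_card ?_
      intro σ hσ
      simp only [Finset.mem_filter, Finset.mem_univ, true_and] at hσ ⊢
      exact ev_imp n σ hσ
    have h5 : (univ.filter P).card + (univ.filter (fun σ => ¬ P σ)).card =
        Fintype.card (Pool.Agent.H921S.Ord (Clause 2 n)) := by
      rw [Finset.card_filter_add_card_filter_not, Finset.card_univ]
    rw [div_le_iff₀ hpos]
    rw [le_div_iff₀ hpos] at h1'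
    have h6 : ((univ.filter P).card : ℝ) + ((univ.filter (fun σ => ¬ P σ)).card : ℝ) =
        (Fintype.card (Pool.Agent.H921S.Ord (Clause 2 n)) : ℝ) := by exact_mod_cast h5
    have h7 : (Nat.card {σ : Pool.Agent.H921S.Ord (Clause 2 n) // Ev 2 n (ordEquiv 2 n σ)} : ℝ) ≤
        ((univ.filter (fun σ => ¬ P σ)).card : ℝ) := by exact_mod_cast h4
    linarith
  have hlim : (1 : ℝ) ≤ 1 - δ := by
    refine le_of_tendsto h2 ?_
    filter_upwards [Filter.eventually_ge_atTop n0] with n hn
    exact hub n hn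
  linarith

end

end Pool.Agent.S19226
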