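import Pool.Statements.S19240
import Pool.Agent.X33.ST.Mink

set_option autoImplicit false
open Filter Topology MeasureTheory
open Pool Pool.MP_2c66a4_pr

namespace Pool.Agent.S19240

/-- The negation of the preceding statement: For 0<α<1 and any symmetric α-stable Lévy process, almost surely the graph over [0,1] has Fourier dimension 1: for each s<1 some compactly carried probability measure on it has Fourier decay ‖ξ‖^(-s/2), and for no s>1. -/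
theorem result :
    ¬ (∀ (α : ℝ), 0 < α → α < 1 →
  ∀ (Ω : Type) [MeasurableSpace Ω] (P : Measure Ω) [IsProbabilityMeasure P] (X : ℝ → Ω → ℝ),
    (∀ t : ℝ, Measurable (X t)) →
    (∀ᵐ ω ∂P, X 0 ω = 0) →
    (∀ᵐ ω ∂P, ∀ t : ℝ, 0 ≤ t →
        ContinuousWithinAt (fun s => X s ω) (Set.Ici t) t ∧
        (0 < t → ∃ l : ℝ, Tendsto (fun s => X s ω) (𝓝[<] t) (𝓝 l))) →
    (∀ (n : ℕ) (t : Fin (n + 1) → ℝ), 0 ≤ t 0 → StrictMono t →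
        ProbabilityTheory.iIndepFun
          (fun (i : Fin n) (ω : Ω) => X (t i.succ) ω - X (t i.castSucc) ω) P) →
    (∀ s t : ℝ, 0 ≤ s → s ≤ t → ∀ ξ : ℝ,
        ∫ ω, Complex.exp (((ξ * (X t ω - X s ω) : ℝ) : ℂ) * Complex.I) ∂P
          = ((Real.exp (-(t - s) * |ξ| ^ α) : ℝ) : ℂ)) →
    ∀ᵐ ω ∂P,
      (∀ s : ℝ, 0 < s → s < 1 →
        ∃ (μ : Measure (ℝ × ℝ)) (K : Set (ℝ × ℝ)),
          IsProbabilityMeasure μ ∧ IsCompact K ∧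
          K ⊆ {p : ℝ × ℝ | p.1 ∈ Set.Icc (0 : ℝ) 1 ∧ p.2 = X p.1 ω} ∧
          μ Kᶜ = 0 ∧
          ∃ C : ℝ, ∀ ξ : ℝ × ℝ, 1 ≤ ‖ξ‖ →
            ‖∫ p, Complex.exp (((ξ.1 * p.1 + ξ.2 * p.2 : ℝ) : ℂ) * Complex.I) ∂μ‖
              ≤ C * ‖ξ‖ ^ (-s / 2)) ∧
      (∀ s : ℝ, 1 < s →
        ¬ ∃ (μ : Measure (ℝ × ℝ)) (K : Set (ℝ × ℝ)),
          IsProbabilityMeasure μ ∧ IsCompact K ∧
          K ⊆ {p : ℝ × ℝ | p.1 ∈ Set.Icc (0 : ℝ) 1 ∧ p.2 = X p.1 ω} ∧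
          μ Kᶜ = 0 ∧
          ∃ C : ℝ, ∀ ξ : ℝ × ℝ, 1 ≤ ‖ξ‖ →
            ‖∫ p, Complex.exp (((ξ.1 * p.1 + ξ.2 * p.2 : ℝ) : ℂ) * Complex.I) ∂μ‖
              ≤ C * ‖ξ‖ ^ (-s / 2))) := by
  intro H
  have h1 := H ((1 : ℝ) / 17) (by norm_num) (by norm_num) Pool.Agent.X33.ST.Om
    Pool.Agent.X33.ST.PP Pool.Agent.X33.ST.X Pool.Agent.X33.ST.X_measurable
    (Eventually.of_forall Pool.Agent.X33.ST.X_zero)
    (by
      filter_upwards [Pool.Agent.X33.ST.ae_good] with ω hω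
      intro t _
      exact ⟨Pool.Agent.X33.ST.right_cont hω t, fun _ => Pool.Agent.X33.ST.left_lim hω t⟩)
    (fun n t h0 hm => Pool.Agent.X33.ST.indep h0 hm)
    (fun s t hs hst ξ => Pool.Agent.X33.ST.singleChar hs hst ξ)
  obtain ⟨ω, h2, hω⟩ := (h1.and Pool.Agent.X33.ST.ae_good).exists
  obtain ⟨μ, K, hμ, -, hK, hKc, C, hC⟩ := h2.1 (1 / 2) (by norm_num) (by norm_num)
  exact Pool.Agent.X33.ST.no_measure hω μ K hK hKc C hC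

end Pool.Agent.S19240
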