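import Pool.Statements.S19341
import Pool.Agent.X129.Chain

set_option autoImplicit false
open Pool Pool.MP_57c4e5_pr

namespace Pool.Agent.S19341

/-- For every α in (2,3) and every β>0, the integer-valued chain on [-N,N] with zero boundary and weight exp(-β Σ_{x≠y} ∣x-y∣^(-α)(φx-φy)²) has variance of φ at 0 tending to infinity as N grows. -/
theorem result :
    ∀ α : ℝ, 2 < α → α < 3 → ∀ β : ℝ, 0 < β →
      Filter.Tendsto
        (fun N : ℕ =>
          (∑' φ : {φ : ℤ → ℤ // ∀ x : ℤ, (N : ℤ) < |x| → φ x = 0},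
              ((φ.1 0 : ℝ)) ^ 2 *
                Real.exp (-β * ∑' p : ℤ × ℤ,
                  (if p.1 = p.2 then (0 : ℝ)
                   else ((|p.1 - p.2| : ℤ) : ℝ) ^ (-α) *
                     ((φ.1 p.1 : ℝ) - (φ.1 p.2 : ℝ)) ^ 2))) /
          (∑' φ : {φ : ℤ → ℤ // ∀ x : ℤ, (N : ℤ) < |x| → φ x = 0},
              Real.exp (-β * ∑' p : ℤ × ℤ,
                (if p.1 = p.2 then (0 : ℝ)
                 else ((|p.1 - p.2| : ℤ) : ℝ) ^ (-α) *
                   ((φ.1 p.1 : ℝ) - (φ.1 p.2 : ℝ)) ^ 2))))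
        Filter.atTop Filter.atTop := by
  intro α hα _ β hβ
  refine (Pool.Agent.X129.Chain.delocalised hα hβ).congr (fun N => ?_)
  have hH : ∀ φ : ℤ → ℤ, Pool.Agent.X129.Chain.bf α φ φ = ∑' p : ℤ × ℤ,
      (if p.1 = p.2 then (0 : ℝ) else ((|p.1 - p.2| : ℤ) : ℝ) ^ (-α) *
        ((φ p.1 : ℝ) - (φ p.2 : ℝ)) ^ 2) := by
    intro φ
    unfold Pool.Agent.X129.Chain.bf
    refine tsum_congr (fun p => ?_)
    unfold Pool.Agent.X129.Chain.bt Pool.Agent.X129.Chain.cw
    split_ifs with h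
    · rw [h]; simp
    · rw [sq]
  congr 1
  · refine tsum_congr (fun φ => ?_)
    rw [hH]
  · refine tsum_congr (fun φ => ?_)
    rw [hH]

end Pool.Agent.S19341
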