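import Pool.Statements.S19353
import Pool.Agent.Helper764.KacFin

set_option autoImplicit false
open MeasureTheory Filter Topology
open Pool Pool.MP_5fc11c_pr

namespace Pool.Agent.S19353

/-- The first `n + 1` coordinates of an i.i.d. sequence form an i.i.d. vector. -/
theorem map_proj (μ : Measure ℝ) [IsProbabilityMeasure μ] (n : ℕ) :
    (Measure.infinitePi (fun _ : ℕ => μ)).map (fun (ω : ℕ → ℝ) (k : Fin (n + 1)) => ω k)
      = Measure.pi (fun _ : Fin (n + 1) => μ) := by
  symm
  refine Measure.pi_eq fun s hs => ?_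
  have hm : Measurable (fun (ω : ℕ → ℝ) (k : Fin (n + 1)) => ω k) := by
    fun_prop
  rw [Measure.map_apply hm (MeasurableSet.univ_pi hs)]
  have : (fun (ω : ℕ → ℝ) (k : Fin (n + 1)) => ω k) ⁻¹' (Set.univ.pi s)
      = Set.pi ((Finset.range (n + 1) : Finset ℕ) : Set ℕ)
          (fun k : ℕ => if h : k < n + 1 then s ⟨k, h⟩ else Set.univ) := by
    ext ω
    simp only [Set.mem_preimage, Set.mem_pi, Set.mem_univ, true_implies, Finset.coe_range,
      Set.mem_Iio]
    constructor
    · intro h k hk
      rw [dif_pos hk]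
      exact h ⟨k, hk⟩
    · intro h k
      have := h k k.2
      rw [dif_pos k.2] at this
      exact this
  rw [this, Measure.infinitePi_pi]
  · rw [Finset.prod_range]
    refine Finset.prod_congr rfl fun k _ => ?_
    rw [dif_pos k.2]
  · intro k hk
    have hk' : k < n + 1 := Finset.mem_range.1 hk
    rw [dif_pos hk']
    exact hs _

/-- For every real law with mean 0 and variance 1, the expected number of distinct real roots of the degree-n polynomial with i.i.d. coefficients of that law, minus (2/π) log n, converges to a finite real limit. -/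
theorem result :
    ∀ (μ : Measure ℝ) [IsProbabilityMeasure μ],
      Integrable (fun x : ℝ => x ^ 2) μ →
      ∫ x, x ∂μ = 0 →
      ∫ x, x ^ 2 ∂μ = 1 →
      ∃ C : ℝ, Tendsto
        (fun n : ℕ =>
          (∫⁻ c : Fin (n + 1) → ℝ,
              (((∑ k : Fin (n + 1), Polynomial.C (c k) * Polynomial.X ^ (k : ℕ)).roots.toFinset.card : ℕ) : ENNReal)
              ∂(Measure.pi fun _ : Fin (n + 1) => μ)).toReal
            - 2 / Real.pi * Real.log (n : ℝ))
        atTop (𝓝 C) := by
  intro μ _ hint hmean hvar
  have hμ : Kac764.Std μ := ⟨inferInstance, hint, hmean, hvar⟩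
  obtain ⟨L, -, h2⟩ := Kac764.Fin.main μ hμ
  refine ⟨_, h2.congr fun n => ?_⟩
  congr 1
  have hcount : ∀ p : Polynomial ℝ, Kac764.nz p Set.univ = p.roots.toFinset.card := by
    intro p
    unfold Kac764.nz
    rw [← Set.ncard_coe_finset]
    congr 1
    ext x
    simp [Polynomial.mem_roots']
  have hmω : Measurable (fun ω : ℕ → ℝ => Kac764.nz (Kac764.kac n ω) Set.univ) :=
    Kac764.H4.measurable_nz_set n Set.univ (Or.inl rfl)
  have hext : Measurable (fun (c : Fin (n + 1) → ℝ) (k : ℕ) => if h : k < n + 1 then c ⟨k, h⟩ else 0) := by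
    refine measurable_pi_lambda _ fun k => ?_
    by_cases h : k < n + 1
    · simp only [h, dif_pos]
      exact measurable_pi_apply _
    · simp only [h, dif_neg, not_false_iff]
      exact measurable_const
  have hfm : Measurable (fun c : Fin (n + 1) → ℝ =>
      (((∑ k : Fin (n + 1), Polynomial.C (c k) * Polynomial.X ^ (k : ℕ)).roots.toFinset.card : ℕ) : ENNReal)) := by
    have h3 := (measurable_from_top (f := fun m : ℕ => (m : ENNReal))).comp (hmω.comp hext)
    convert h3 using 2 with c
    simp only [Function.comp_apply]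
    rw [hcount]
    congr 4
    unfold Kac764.kac
    rw [Finset.sum_range]
    refine Finset.sum_congr rfl fun k _ => ?_
    simp only [k.2, dif_pos, Fin.eta]
  rw [← map_proj μ n, lintegral_map hfm (by fun_prop)]
  have h4 : ∀ ω : ℕ → ℝ,
      ((((∑ k : Fin (n + 1), Polynomial.C (ω k) * Polynomial.X ^ (k : ℕ)).roots.toFinset.card : ℕ)) : ENNReal)
        = ENNReal.ofReal (Kac764.nz (Kac764.kac n ω) Set.univ : ℝ) := by
    intro ω
    rw [hcount, ENNReal.ofReal_natCast]
    congr 4
    unfold Kac764.kac
    rw [Finset.sum_range]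
  simp only [h4]
  have hmr : Measurable (fun ω : ℕ → ℝ => (Kac764.nz (Kac764.kac n ω) Set.univ : ℝ)) :=
    (measurable_from_top (f := fun m : ℕ => (m : ℝ))).comp hmω
  rw [integral_eq_lintegral_of_nonneg_ae (Filter.Eventually.of_forall fun ω => Nat.cast_nonneg _)
    hmr.aestronglyMeasurable]

end Pool.Agent.S19353
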