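import Pool.Statements.S19444
import Pool.Agent.X139.DR

set_option autoImplicit false
open Filter Topology
open Pool Pool.MP_85987b_pr

namespace Pool.Agent.S19444

/-- The negation of the preceding statement: For integer m≥2 and any law of X_0 on ℕ with P(X_0=0)>0 and (m−1)E(X_0 m^X_0)=E(m^X_0)<∞, where X_{n+1} is (sum of m iid copies of X_n minus 1)^+: for all s in (0,m), s≠1, (E s^X_n − 1) divided by 4m/(m−1)²·(s−1)/(m−s)/n² tends to 1. -/
theorem result :
    ¬ (∀ (m : ℕ), 2 ≤ m → ∀ p : ℕ → ℕ → ℝ,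
      (∀ k, 0 ≤ p 0 k) → HasSum (p 0) 1 →
      (∀ n k, p (n + 1) k =
          (∑ x : Fin m → Fin (k + 2),
              if (∑ i, (x i : ℕ)) = k + 1 then ∏ i, p n (x i) else 0)
          + (if k = 0 then p n 0 ^ m else 0)) →
      Summable (fun k : ℕ => p 0 k * (m : ℝ) ^ k) →
      Summable (fun k : ℕ => (k : ℝ) * p 0 k * (m : ℝ) ^ k) →
      ((m : ℝ) - 1) * (∑' k : ℕ, (k : ℝ) * p 0 k * (m : ℝ) ^ k)
          = ∑' k : ℕ, p 0 k * (m : ℝ) ^ k →
      0 < p 0 0 →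
      ∀ s : ℝ, 0 < s → s < (m : ℝ) → s ≠ 1 →
        Tendsto
          (fun n : ℕ =>
            ((∑' k : ℕ, p n k * s ^ k) - 1) /
              (4 * (m : ℝ) / (((m : ℝ) - 1) ^ 2) * ((s - 1) / ((m : ℝ) - s)) / ((n : ℝ) ^ 2)))
          atTop (𝓝 1)) := by
  intro h
  have hc := Pool.Agent.X139.DR.p0_crit
  have h1 := h 2 le_rfl Pool.Agent.X139.DR.P hc.nn hc.one
    (by
      intro n k
      rw [Pool.Agent.X139.DR.P_succ, Pool.Agent.X139.DR.fin_two_sum]
      rfl)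
    (by
      refine hc.hG.summable.congr (fun k => ?_)
      push_cast
      rfl)
    (by
      refine hc.hD.summable.congr (fun k => ?_)
      push_cast
      show (k : ℝ) * (Pool.Agent.X139.DR.p0 k * 2 ^ k) = (k : ℝ) * Pool.Agent.X139.DR.p0 k * 2 ^ k
      ring)
    (by
      have e1 : (∑' k : ℕ, (k : ℝ) * Pool.Agent.X139.DR.P 0 k * ((2 : ℕ) : ℝ) ^ k)
          = ∑' k : ℕ, (k : ℝ) * (Pool.Agent.X139.DR.p0 k * 2 ^ k) := by
        refine tsum_congr (fun k => ?_)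
        push_cast
        show (k : ℝ) * Pool.Agent.X139.DR.p0 k * 2 ^ k = (k : ℝ) * (Pool.Agent.X139.DR.p0 k * 2 ^ k)
        ring
      have e2 : (∑' k : ℕ, Pool.Agent.X139.DR.P 0 k * ((2 : ℕ) : ℝ) ^ k)
          = ∑' k : ℕ, (Pool.Agent.X139.DR.p0 k * 2 ^ k) := by
        refine tsum_congr (fun k => ?_)
        push_cast
        rfl
      rw [e1, e2, hc.hD.tsum_eq, hc.hG.tsum_eq]
      push_cast
      ring)
    (by
      show (0 : ℝ) < 1 / 2
      norm_num)
    (1 / 2) (by norm_num) (by norm_num) (by norm_num)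
  -- eventually the ratio exceeds 15/16
  have h2 := h1.eventually (lt_mem_nhds (show (15 / 16 : ℝ) < 1 by norm_num))
  obtain ⟨N, hN⟩ := eventually_atTop.1 h2
  refine Pool.Agent.X139.DR.no_bound (max N 1) ?_
  intro n hn
  have hn1 : 1 ≤ n := le_trans (le_max_right _ _) hn
  have hnr : (1 : ℝ) ≤ n := by exact_mod_cast hn1
  have h3 := hN n (le_trans (le_max_left _ _) hn)
  set Tn : ℝ := ∑' k : ℕ, Pool.Agent.X139.DR.P n k * (1 / 2) ^ k with hTn
  have hcn := Pool.Agent.X139.DR.crit n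
  have h0 : Pool.Agent.X139.DR.P n 0 ≤ Tn := by
    have hs : Summable (fun k : ℕ => Pool.Agent.X139.DR.P n k * (1 / 2) ^ k) := by
      refine Summable.of_nonneg_of_le (fun k => mul_nonneg (hcn.nn k) (by positivity)) (fun k => ?_)
        hcn.one.summable
      have : (1 / 2 : ℝ) ^ k ≤ 1 := pow_le_one₀ (by norm_num) (by norm_num)
      nlinarith [hcn.nn k]
    have := hs.le_tsum 0 (fun j _ => mul_nonneg (hcn.nn j) (by positivity))
    rw [pow_zero, mul_one] at this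
    exact this
  have hden : (4 * ((2 : ℕ) : ℝ) / ((((2 : ℕ) : ℝ) - 1) ^ 2) * ((1 / 2 - 1) / (((2 : ℕ) : ℝ) - 1 / 2)) / ((n : ℝ) ^ 2))
      = - ((8 / 3) / (n : ℝ) ^ 2) := by
    push_cast
    ring
  rw [hden] at h3
  have hpos : 0 < (8 / 3) / (n : ℝ) ^ 2 := by positivity
  rw [div_neg, lt_neg, div_lt_iff₀ hpos] at h3
  have e : (5 / 2) / (n : ℝ) ^ 2 = (15 / 16) * ((8 / 3) / (n : ℝ) ^ 2) := by ring
  rw [e]
  linarith

end Pool.Agent.S19444
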