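import Pool.Statements.S19658
import Pool.Agent.H57R2.PU.Main

set_option autoImplicit false
open MeasureTheory
open Pool Pool.MP_d2b88b_pr

namespace Pool.Agent.S19658

/-- The negation of the preceding statement: For every connected bounded-degree graph quasi-isometric to Z^d and every p in [0,1], in Bernoulli bond percolation with parameter p, almost surely any two infinite open clusters are equal. -/
theorem result :
    ¬ (∀ (d : ℕ) (V : Type) (G : SimpleGraph V), G.Connected →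
    (∃ D : ℕ, ∀ v : V, (G.neighborSet v).encard ≤ (D : ℕ∞)) →
    (∃ (f : V → (Fin d → ℤ)) (C K : ℕ),
        (∀ x y : V,
          (∑ i, |f x i - f y i|) ≤ (C : ℤ) * (G.dist x y : ℤ) + (K : ℤ) ∧
          (G.dist x y : ℤ) ≤ (C : ℤ) * (∑ i, |f x i - f y i|) + (K : ℤ)) ∧
        ∀ z : Fin d → ℤ, ∃ x : V, (∑ i, |z i - f x i|) ≤ (K : ℤ)) →
    ∀ (p : NNReal) (hp : p ≤ 1),
      ∀ᵐ ω ∂(Measure.infinitePi (fun _ : G.edgeSet => (PMF.bernoulli p hp).toMeasure)),
        ∀ c₁ c₂ : (SimpleGraph.fromEdgeSet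
            {e : Sym2 V | ∃ h : e ∈ G.edgeSet, ω ⟨e, h⟩ = true}).ConnectedComponent,
          c₁.supp.Infinite → c₂.supp.Infinite → c₁ = c₂) := by
  intro H
  obtain ⟨T, p, hp, hp0, hp1, hpos⟩ := H57R2.PU.nonuniq 6 (by omega)
  have h := H 7 (H57R2.PU.Vx 6) (H57R2.PU.GG 6 T) (H57R2.PU.conn 6 T)
    ⟨(4 * 6 + 3) ^ (6 + 1), H57R2.PU.deg 6 T⟩ ?_ p hp
  · have h0 := ae_iff.1 h
    refine (lt_irrefl (0 : ENNReal)) (hpos.trans_le (le_of_eq_of_le ?_ (le_of_eq h0)))
    congr 1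
    ext ω
    simp only [Set.mem_setOf_eq]
    push_neg
    exact Iff.rfl
  · refine ⟨fun v => Fin.cons v.2 v.1, 2 * 6 + 1, 0, ?_, ?_⟩
    · intro x y
      have h1 : ∑ i, |(Fin.cons x.2 x.1 : Fin (6 + 1) → ℤ) i - (Fin.cons y.2 y.1 : Fin (6 + 1) → ℤ) i|
          = H57R2.PU.nrm (x - y) := by
        rw [Fin.sum_univ_succ]
        simp [H57R2.PU.nrm]
      have h2 := H57R2.PU.nrm_le_dist (T := T) x y
      have h3 := H57R2.PU.dist_le (T := T) x y
      have h4 := H57R2.PU.nrm_nonneg (x - y)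
      rw [h1]
      have h5 : (((2 * 6 + 1 : ℕ) : ℤ)) = 2 * ((6 : ℕ) : ℤ) + 1 := by norm_num
      have h6 : (((0 : ℕ) : ℤ)) = 0 := rfl
      rw [h5, h6]
      refine ⟨by linarith, ?_⟩
      have h7 : (0 : ℤ) ≤ ((6 : ℕ) : ℤ) := by norm_num
      nlinarith
    · intro z
      refine ⟨(fun i => z i.succ, z 0), ?_⟩
      have : (Fin.cons (z 0) (fun i : Fin 6 => z i.succ) : Fin (6 + 1) → ℤ) = z :=
        Fin.cons_self_tail z
      simp [this]

end Pool.Agent.S19658
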