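import Pool.Statements.S19664
import Pool.Agent.X139.KT.Fin
-- import your own Pool.Agent.* helpers here

set_option autoImplicit false
open Matrix MeasureTheory ProbabilityTheory
open Pool Pool.MP_d47e08_pr

namespace Pool.Agent.S19664

/-- The negation of the preceding statement: For every even r≥2 and every δ>0, for all large ℓ and every μ>δ, some ε>0 gives, for all large n, E λmax of the Kikuchi matrix at signal μ n^(-r/4) ≥ (1+ε) times E λmax at zero signal; i.e. the threshold tends to 0. -/
theorem result :
    ¬ (∀ r : ℕ, 2 ≤ r → Even r →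
    ∀ δ : ℝ, 0 < δ →
      ∀ᶠ ℓ : ℕ in Filter.atTop, ∀ μ : ℝ, δ < μ →
        ∃ ε : ℝ, 0 < ε ∧ ∀ᶠ n : ℕ in Filter.atTop,
          1 + ε ≤
            (∫ (Z : Finset (Fin n) → ℝ),
                sSup {t : ℝ | ∃ v : {K : Finset (Fin n) // K.card = ℓ} → ℝ,
                  dotProduct v v = 1 ∧
                  t = dotProduct v (Matrix.mulVec
                    (Matrix.of fun I J : {K : Finset (Fin n) // K.card = ℓ} =>
                      if (symmDiff I.1 J.1).card = r
                      then μ * (n : ℝ) ^ (-(r : ℝ) / 4) + Z (symmDiff I.1 J.1)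
                      else 0) v)}
              ∂(Measure.pi fun _ : Finset (Fin n) => gaussianReal 0 1))
            /
            (∫ (Z : Finset (Fin n) → ℝ),
                sSup {t : ℝ | ∃ v : {K : Finset (Fin n) // K.card = ℓ} → ℝ,
                  dotProduct v v = 1 ∧
                  t = dotProduct v (Matrix.mulVec
                    (Matrix.of fun I J : {K : Finset (Fin n) // K.card = ℓ} =>
                      if (symmDiff I.1 J.1).card = r
                      then (0 : ℝ) + Z (symmDiff I.1 J.1)
                      else 0) v)}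
              ∂(Measure.pi fun _ : Finset (Fin n) => gaussianReal 0 1))) := by
  intro H
  have h2 := H 2 le_rfl ⟨1, rfl⟩ (1 / 4) (by norm_num)
  obtain ⟨l, hl, hl1⟩ := (h2.and (Filter.eventually_ge_atTop 1)).exists
  obtain ⟨ε, hε, hn⟩ := hl (1 / 2) (by norm_num)
  have hr := Pool.Agent.X139.KT.ratio_bound (1 / 2) (by norm_num) (by norm_num) l hl1 ε hε
  obtain ⟨n, hn1, hn2⟩ := (hn.and hr).exists
  have key : ∀ W : Finset (Fin n) → ℝ,
      sSup {t : ℝ | ∃ v : {K : Finset (Fin n) // K.card = l} → ℝ,
        dotProduct v v = 1 ∧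
        t = dotProduct v (Matrix.mulVec
          (Matrix.of fun I J : {K : Finset (Fin n) // K.card = l} =>
            if (symmDiff I.1 J.1).card = 2 then W (symmDiff I.1 J.1) else 0) v)} =
      Pool.Agent.X139.KT.T n l W := by
    intro W
    unfold Pool.Agent.X139.KT.T
    congr 1
    ext t
    have e1 : ∀ v : {K : Finset (Fin n) // K.card = l} → ℝ, dotProduct v v = ∑ I, v I ^ 2 := by
      intro v
      unfold dotProduct
      exact Finset.sum_congr rfl fun I _ => by ring
    have e2 : ∀ v : {K : Finset (Fin n) // K.card = l} → ℝ,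
        dotProduct v (Matrix.mulVec
          (Matrix.of fun I J : {K : Finset (Fin n) // K.card = l} =>
            if (symmDiff I.1 J.1).card = 2 then W (symmDiff I.1 J.1) else 0) v) =
        Pool.Agent.X139.KT.qf W v := by
      intro v
      unfold Pool.Agent.X139.KT.qf dotProduct Matrix.mulVec dotProduct
      refine Finset.sum_congr rfl fun I _ => ?_
      rw [Finset.mul_sum]
      refine Finset.sum_congr rfl fun J _ => ?_
      simp only [Matrix.of_apply]
      split_ifs
      · ring
      · ring
    simp only [Set.mem_setOf_eq, e1, e2]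
  have k1 := fun Z : Finset (Fin n) → ℝ =>
    key (fun S => 1 / 2 * (n : ℝ) ^ (-((2 : ℕ) : ℝ) / 4) + Z S)
  have k2 := fun Z : Finset (Fin n) → ℝ => key (fun S => (0 : ℝ) + Z S)
  simp only [k1, k2] at hn1
  simp only [zero_add] at hn1
  have e3 : ((2 : ℕ) : ℝ) = (2 : ℝ) := by norm_num
  rw [e3] at hn1
  exact absurd hn1 (not_le.2 hn2)

end Pool.Agent.S19664
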